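import Pool.Agent.Lib.MP_1ad228_ntN.NB_Const

/-!
Images of vectors and tensors, elementary algebra.
-/

namespace Pool.Agent.Lib.MP_1ad228_ntN

open NumberField Classical

set_option linter.unusedSectionVars false

section ring
variable {n d : ℕ} {R S : Type*} [CommRing R] [CommRing S]

theorem ev_tmap (f : R →+* S) (a : Ten n d R) (x : Vc n R) :
    ev (tmap f a) (vmap f x) = f (ev a x) := ev_map f a x

theorem dev_tmap (f : R →+* S) (a : Ten n d R) (x : Vc n R) (j : Fin (n + 1)) :
    dev (tmap f a) (vmap f x) j = f (dev a x j) := dev_map f a x j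

theorem lin_vmap (f : R →+* S) (u x : Vc n R) : lin (vmap f u) (vmap f x) = f (lin u x) := by
  simp only [Pool.Agent.Lib.MP_219881_nt.lin, vmap, map_sum, map_mul]

theorem tmap_tp (f : R →+* S) (u : Fin d → Vc n R) :
    tmap f (tp u) = tp (fun k => vmap f (u k)) := by
  funext s
  simp only [tmap, tp, vmap, map_prod]

theorem tmap_add (f : R →+* S) (a b : Ten n d R) : tmap f (a + b) = tmap f a + tmap f b := by
  funext s
  simp [tmap]

theorem tmap_sub (f : R →+* S) (a b : Ten n d R) : tmap f (a - b) = tmap f a - tmap f b := by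
  funext s
  simp [tmap]

theorem vmap_single (f : R →+* S) (j : Fin (n + 1)) :
    vmap f (Pi.single j 1 : Vc n R) = Pi.single j 1 := by
  funext i
  simp only [vmap, Pi.single_apply]
  split_ifs <;> simp

/-- A unimodular vector `x` and a vector `y` with all minors in `I` : `y` is a multiple of `x`
modulo `I`. -/
theorem lamLem {x y : Vc n R} (hx : Uni x) (I : Ideal R) (h : ∀ i j, mn x y i j ∈ I) :
    ∃ l : R, ∀ j, y j - l * x j ∈ I := by
  obtain ⟨u, hu⟩ := hx
  refine ⟨lin u y, fun j => ?_⟩
  have h1 : y j - lin u y * x j = ∑ i, u i * mn x y i j := by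
    have h2 : y j = y j * lin u x := by rw [hu, mul_one]
    have h3 : y j * lin u x - lin u y * x j = ∑ i, u i * mn x y i j := by
      simp only [Pool.Agent.Lib.MP_219881_nt.lin, Finset.mul_sum, Finset.sum_mul,
        ← Finset.sum_sub_distrib, Pool.Agent.Lib.MP_219881_nt.mn]
      exact Finset.sum_congr rfl fun i _ => by ring
    rw [← h3, ← h2]
  rw [h1]
  exact Ideal.sum_mem _ fun i _ => Ideal.mul_mem_left _ _ (h i j)

end ring

section K
variable {K : Type} [Field K] [NumberField K] {n d : ℕ}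

/-- A vector over the ring of integers as a vector over the field. -/
noncomputable def kv (x : Vc n (𝓞 K)) : Vc n K := vmap (algebraMap (𝓞 K) K) x

/-- A tensor over the ring of integers as a tensor over the field. -/
noncomputable def kt (a : Ten n d (𝓞 K)) : Ten n d K := tmap (algebraMap (𝓞 K) K) a

theorem kv_apply (x : Vc n (𝓞 K)) (i : Fin (n + 1)) : kv x i = (x i : K) := rfl

theorem kt_apply (a : Ten n d (𝓞 K)) (s : Fin d → Fin (n + 1)) : kt a s = (a s : K) := rfl

theorem ev_kt (a : Ten n d (𝓞 K)) (x : Vc n (𝓞 K)) :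
    ev (kt a) (kv x) = ((ev a x : 𝓞 K) : K) := ev_tmap _ a x

theorem lin_kv (u x : Vc n (𝓞 K)) : lin (kv u) (kv x) = ((lin u x : 𝓞 K) : K) := lin_vmap _ u x

theorem kt_tp (u : Fin d → Vc n (𝓞 K)) : kt (tp u) = tp (fun k => kv (u k)) := tmap_tp _ u

theorem kv_single (j : Fin (n + 1)) : kv (Pi.single j 1 : Vc n (𝓞 K)) = Pi.single j 1 :=
  vmap_single _ j

theorem ev_em (v : InfinitePlace K) (a : Ten n d (𝓞 K)) (x : Vc n (𝓞 K)) :
    ev (tmap (em v) a) (vmap (em v) x) = em v (ev a x) := ev_tmap _ a x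

end K

end Pool.Agent.Lib.MP_1ad228_ntN
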