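import Pool.Agent.Lib.MP_1ad228_ntN.AlphaPt

/-!
JOB Alpha.  Pair sum over the near points.  (Model: Lib/MP_1ad228_ntF/Alpha.lean, with the number `Dd x y` replaced by the
ideal `Dd x y` and dyadic cells for `Del`.)

PROOF.  `e = eK K`, `κ = CK K n`, `t = (n+1) H q ≥ 1`. Fix `x`, let `f` be its short vectors (`GG_good hx`),
`U_s(y) = lin (f s) y`. Let `Y` be the set of the sum. For `y ∈ Y`:
(1) `U_s ∈ Dd x y` (`apDvd`), `v(U_s) ≤ (t/B) Del_v` (`apBd`), some `U_s ≠ 0` (`apNe`), so by `absNorm_le_pn`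
 `nD ≤ pn(v(U_s)) ≤ (t/B)^e pn(Del)` (`pn_mono`, `pn_const_mul`). So each term is `≤ (t/B)^(e r)`.
(2) `Del_v ≤ 2 B^2` (`Del_le`), hence `nD ≤ (t/B)^e (2B^2)^e = (2 t B)^e`; `1 ≤ pn(Del)` (`one_le_pn_Del`).
(3) Group by the pair `(I, j) = (Dd x y, jv (Del o x y))`: `j ∈ JJ K (2*B^2)` (`mem_JJ`), `I` in a finset of ideals of norm
 `≤ (2tB)^e` (the image of `Y`), at most `κ (2tB)^e` of them (`idCount`).
`cell`: for fixed `(I, j)` the number of `y` is at most `(κ (1 + (4t)^e))^n * κ (2q)^e`: the map `y ↦ (U_s(y))_s`; two such `y, y'`: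
 `U_s(y) - U_s(y') ∈ I`, `v(.) ≤ 2 (t/B) 2 2^(j_v) =: ρ_v` (`lt_jv`), `pn(ρ) = (4t/B)^e pn(2^j) ≤ (4t/B)^e pn(Del)
 ≤ (4t/B)^e nD B^e = (4t)^e N(I)` (`pn_two_zpow_le`, and `pn(Del) ≤ nD B^e` for `y ∈ Y`), so by `upI` the values of `U_s` form a set
 of at most `κ (1 + (4t)^e)` elements, the vector `U` takes at most `(κ (1 + (4t)^e))^n` values (`Fintype.piFinset`), and the fibre
 over one value injects by `y ↦ c` (`apFib` with a fixed `y'`, `x_o ≠ 0`) into `OBox K (2q)`, at most `κ (2q)^e` elements.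
(4) Sum: `(t/B)^(er) * κ (2tB)^e * #JJ * (κ(1+(4t)^e))^n * κ (2q)^e`; `#JJ ≤ κ (log2(2B^2) + 2)^e` (`JJ_up`) and
 `Nat.log 2 (2*B^2) + 2 ≤ 3 (Nat.log 2 B + 2)` (`2B^2 < 2^(2 log2 B + 3)`); `1 + (4t)^e ≤ 2 (4t)^e`; `t = (n+1) q H`.
 Total `≤ C lg(B) (H^(n+1+r) B/B^r)^e`.
-/

namespace Pool.Agent.Lib.MP_1ad228_ntN

open NumberField Classical
open Pool.Agent.Lib.MP_219881_nt (mn)

set_option linter.unusedSectionVars false

variable {K : Type} [Field K] [NumberField K]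

/-- The linear forms at one near point. -/
private theorem al_pt {n B H q : ℕ} {o : Fin (n + 1)} (hB : 1 ≤ B) {x y : Vc n (𝓞 K)}
    (hx : x ∈ GG K B H q o) (f : Vc n (𝓞 K)) (h0 : lin f x = 0)
    (hb : ∀ i, ∀ v : InfinitePlace K, v (f i : K) ≤ (H : ℝ)) (v : InfinitePlace K) :
    v ((lin f y : 𝓞 K) : K) ≤ (((n + 1) * H * q : ℕ) : ℝ) / B * Del o x y v := by
  have hB0 : (0 : ℝ) < B := by exact_mod_cast hB
  have h1 := apBd B H q o hB x y hx f h0 hb v
  have h2 : (((n + 1) * H * q : ℕ) : ℝ) / B * Del o x y v =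
      ((n + 1) * H * q * Del o x y v) / B := by
    push_cast
    ring
  rw [h2, le_div_iff₀ hB0, mul_comm]
  exact h1

/-- The number of near points with given ideal and given dyadic exponents. -/
theorem alphaCell (n q : ℕ) (hq : 1 ≤ q) : ∃ C : ℝ, 1 ≤ C ∧ ∀ (B H : ℕ) (o : Fin (n + 1)),
    1 ≤ B → 1 ≤ H → ∀ x ∈ GG K B H q o, ∀ (I : Ideal (𝓞 K)) (j : InfinitePlace K → ℤ),
    (((GG K B H q o).filter fun y => (¬ Prp x y ∧ pn (Del o x y) ≤ nD x y * (B : ℝ) ^ eK K) ∧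
      Dd x y = I ∧ jv (Del o x y) = j).card : ℝ) ≤ C * (H : ℝ) ^ (eK K * n) := by
  set κ : ℝ := CK K n with hκ
  have hκ1 : 1 ≤ κ := CK_one_le K n
  have hq1 : (1 : ℝ) ≤ q := by exact_mod_cast hq
  have hc1 : (1 : ℝ) ≤ (4 * ((n + 1 : ℕ) * q : ℝ)) ^ eK K := by
    refine one_le_pow₀ ?_
    have : (1 : ℝ) ≤ (n + 1 : ℕ) := by exact_mod_cast Nat.succ_le_succ (Nat.zero_le n)
    nlinarith
  refine ⟨κ * (2 * (q : ℝ)) ^ eK K * (2 * κ * (4 * ((n + 1 : ℕ) * q : ℝ)) ^ eK K) ^ n, ?_, ?_⟩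
  · have h1 : (1 : ℝ) ≤ (2 * (q : ℝ)) ^ eK K := one_le_pow₀ (by linarith)
    have h2 : (1 : ℝ) ≤ (2 * κ * (4 * ((n + 1 : ℕ) * q : ℝ)) ^ eK K) ^ n :=
      one_le_pow₀ (one_le_mul_of_one_le_of_one_le (by linarith) hc1)
    exact one_le_mul_of_one_le_of_one_le (one_le_mul_of_one_le_of_one_le hκ1 h1) h2
  intro B H o hB hH x hx I j
  set Z := (GG K B H q o).filter fun y =>
    (¬ Prp x y ∧ pn (Del o x y) ≤ nD x y * (B : ℝ) ^ eK K) ∧ Dd x y = I ∧ jv (Del o x y) = j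
    with hZ
  have hB0 : (0 : ℝ) < B := by exact_mod_cast hB
  have hH1 : (1 : ℝ) ≤ H := by exact_mod_cast hH
  obtain ⟨f, hf, h0, hb⟩ := GG_good hx
  set t : ℝ := (((n + 1) * H * q : ℕ) : ℝ) with ht
  have htpos : 0 < t := by
    rw [ht]
    exact_mod_cast Nat.mul_pos (Nat.mul_pos (Nat.succ_pos n) hH) hq
  have ht1 : 1 ≤ t := by
    rw [ht]
    exact_mod_cast Nat.mul_pos (Nat.mul_pos (Nat.succ_pos n) hH) hq
  have ht2 : 4 * t = 4 * ((n + 1 : ℕ) * q : ℝ) * H := by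
    rw [ht]
    push_cast
    ring
  -- the values of one linear form
  have hval : ∀ s, ((Z.image fun y => lin (f s) y).card : ℝ) ≤ κ * (1 + (4 * t) ^ eK K) := by
    intro s
    rcases Z.eq_empty_or_nonempty with hem | ⟨y0, hy0⟩
    · rw [hem, Finset.image_empty, Finset.card_empty, Nat.cast_zero]
      positivity
    · obtain ⟨-, ⟨hp0, hd0⟩, hI0, hj0⟩ := Finset.mem_filter.1 hy0
      have hIne : I ≠ ⊥ := by
        rw [← hI0]
        exact Dd_ne_bot hp0
      have hN0 : (0 : ℝ) < Ideal.absNorm I := lt_of_lt_of_le one_pos (one_le_absNorm hIne)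
      have hxo := GG_ne hB hx
      have h1 := upI n (Z.image fun y => lin (f s) y) I hIne
        (fun v => 4 * t / B * (2 : ℝ) ^ j v) (fun v => by positivity) (fun z hz w hw => ?_)
      · refine h1.trans (mul_le_mul_of_nonneg_left ?_ (by linarith))
        have h2 : pn (fun v : InfinitePlace K => 4 * t / B * (2 : ℝ) ^ j v) ≤
            (4 * t) ^ eK K * Ideal.absNorm I := by
          rw [pn_const_mul]
          have h3 : pn (fun v : InfinitePlace K => (2 : ℝ) ^ j v) ≤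
              Ideal.absNorm I * (B : ℝ) ^ eK K := by
            have h4 := pn_two_zpow_le (D := Del o x y0) (Del_pos hxo hp0)
            rw [hj0] at h4
            refine h4.trans (hd0.trans (le_of_eq ?_))
            rw [nD, hI0]
          have h5 : (0 : ℝ) ≤ (4 * t / B) ^ eK K := by positivity
          calc (4 * t / B) ^ eK K * pn (fun v : InfinitePlace K => (2 : ℝ) ^ j v)
              ≤ (4 * t / B) ^ eK K * (Ideal.absNorm I * (B : ℝ) ^ eK K) :=
                mul_le_mul_of_nonneg_left h3 h5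
            _ = (4 * t / B * B) ^ eK K * Ideal.absNorm I := by
                rw [mul_pow (4 * t / B)]
                ring
            _ = (4 * t) ^ eK K * Ideal.absNorm I := by rw [div_mul_cancel₀ _ hB0.ne']
        have h6 : pn (fun v : InfinitePlace K => 4 * t / B * (2 : ℝ) ^ j v) / Ideal.absNorm I ≤
            (4 * t) ^ eK K := by
          rw [div_le_iff₀ hN0]
          exact h2
        linarith
      · obtain ⟨y, hy, rfl⟩ := Finset.mem_image.1 hz
        obtain ⟨y', hy', rfl⟩ := Finset.mem_image.1 hw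
        obtain ⟨hyG, ⟨hp, -⟩, hI, hj⟩ := Finset.mem_filter.1 hy
        obtain ⟨hyG', ⟨hp', -⟩, hI', hj'⟩ := Finset.mem_filter.1 hy'
        have h2 := apDvd x y (GG_uni hx) (f s) (h0 s)
        have h3 := apDvd x y' (GG_uni hx) (f s) (h0 s)
        rw [hI] at h2
        rw [hI'] at h3
        refine ⟨I.sub_mem h2 h3, fun v => ?_⟩
        have h4 := al_pt (y := y) hB hx (f s) (h0 s) (hb s) v
        have h5 := al_pt (y := y') hB hx (f s) (h0 s) (hb s) v
        have h6 := lt_jv (D := Del o x y) v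
        have h7 := lt_jv (D := Del o x y') v
        rw [hj] at h6
        rw [hj'] at h7
        have h8 : v ((lin (f s) y - lin (f s) y' : 𝓞 K) : K) =
            v (((lin (f s) y : 𝓞 K) : K) - ((lin (f s) y' : 𝓞 K) : K)) := by
          simp
        rw [h8]
        have htB : 0 < t / B := by positivity
        have h9 : t / B * Del o x y v ≤ t / B * (2 * (2 : ℝ) ^ j v) :=
          mul_le_mul_of_nonneg_left h6.le htB.le
        have h10 : t / B * Del o x y' v ≤ t / B * (2 * (2 : ℝ) ^ j v) :=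
          mul_le_mul_of_nonneg_left h7.le htB.le
        calc v (((lin (f s) y : 𝓞 K) : K) - ((lin (f s) y' : 𝓞 K) : K))
            ≤ v ((lin (f s) y : 𝓞 K) : K) + v ((lin (f s) y' : 𝓞 K) : K) := v_sub_le v _ _
          _ ≤ t / B * (2 * (2 : ℝ) ^ j v) + t / B * (2 * (2 : ℝ) ^ j v) :=
              add_le_add (h4.trans h9) (h5.trans h10)
          _ = 4 * t / B * (2 : ℝ) ^ j v := by ring
  -- the fibres
  have hcard : Z.card ≤ (OBox K (2 * q)).card *
      (Fintype.piFinset fun s => Z.image fun y => lin (f s) y).card := by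
    refine Finset.card_le_mul_card_image_of_maps_to (f := fun y s => lin (f s) y) ?_ _ ?_
    · intro y hy
      exact Fintype.mem_piFinset.2 fun s => Finset.mem_image_of_mem _ hy
    · intro b _
      rcases (Z.filter fun y => (fun s => lin (f s) y) = b).eq_empty_or_nonempty with hem | ⟨y', hy'⟩
      · rw [hem]
        exact Nat.zero_le _
      · obtain ⟨hy'Z, hy'b⟩ := Finset.mem_filter.1 hy'
        have hsub : (Z.filter fun y => (fun s => lin (f s) y) = b) ⊆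
            (OBox K (2 * q)).image fun c => fun l => y' l + c * x l := by
          intro y hy
          obtain ⟨hyZ, hyb⟩ := Finset.mem_filter.1 hy
          have he : ∀ s, lin (f s) y = lin (f s) y' := fun s => congrFun (hyb.trans hy'b.symm) s
          obtain ⟨c, hc, hcy⟩ := apFib B H q o hB x y y' hx (Finset.mem_filter.1 hyZ).1
            (Finset.mem_filter.1 hy'Z).1 f hf h0 he
          refine Finset.mem_image.2 ⟨c, hc, ?_⟩
          funext l
          rw [← hcy l]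
          ring
        exact (Finset.card_le_card hsub).trans Finset.card_image_le
  have hpi : ((Fintype.piFinset fun s => Z.image fun y => lin (f s) y).card : ℝ) ≤
      (κ * (1 + (4 * t) ^ eK K)) ^ n := by
    rw [Fintype.card_piFinset, Nat.cast_prod]
    calc ∏ s : Fin n, ((Z.image fun y => lin (f s) y).card : ℝ)
        ≤ ∏ _s : Fin n, κ * (1 + (4 * t) ^ eK K) :=
          Finset.prod_le_prod (fun s _ => Nat.cast_nonneg _) fun s _ => hval s
      _ = (κ * (1 + (4 * t) ^ eK K)) ^ n := by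
          rw [Finset.prod_const, Finset.card_univ, Fintype.card_fin]
  have hO : ((OBox K (2 * q)).card : ℝ) ≤ κ * (2 * (q : ℝ)) ^ eK K :=
    OBox_up K n (by linarith)
  have h4t : (1 : ℝ) ≤ (4 * t) ^ eK K := one_le_pow₀ (by linarith)
  calc (Z.card : ℝ) ≤ ((OBox K (2 * q)).card : ℝ) *
        ((Fintype.piFinset fun s => Z.image fun y => lin (f s) y).card : ℝ) := by
        exact_mod_cast hcard
    _ ≤ (κ * (2 * (q : ℝ)) ^ eK K) * (κ * (1 + (4 * t) ^ eK K)) ^ n :=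
        mul_le_mul hO hpi (Nat.cast_nonneg _) (by positivity)
    _ ≤ (κ * (2 * (q : ℝ)) ^ eK K) *
        ((2 * κ * (4 * ((n + 1 : ℕ) * q : ℝ)) ^ eK K) * (H : ℝ) ^ eK K) ^ n := by
        refine mul_le_mul_of_nonneg_left (pow_le_pow_left₀ (by positivity) ?_ n) (by positivity)
        calc κ * (1 + (4 * t) ^ eK K) ≤ κ * (2 * (4 * t) ^ eK K) :=
              mul_le_mul_of_nonneg_left (by linarith) (by linarith)
          _ = (2 * κ * (4 * ((n + 1 : ℕ) * q : ℝ)) ^ eK K) * (H : ℝ) ^ eK K := by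
              rw [ht2, mul_pow (4 * ((n + 1 : ℕ) * q : ℝ))]
              ring
    _ = κ * (2 * (q : ℝ)) ^ eK K * (2 * κ * (4 * ((n + 1 : ℕ) * q : ℝ)) ^ eK K) ^ n *
        (H : ℝ) ^ (eK K * n) := by
        rw [mul_pow (2 * κ * (4 * ((n + 1 : ℕ) * q : ℝ)) ^ eK K), ← pow_mul]
        ring

private theorem al_log (B : ℕ) (hB : 1 ≤ B) :
    ((Nat.log 2 (2 * B ^ 2) : ℕ) : ℝ) + 2 ≤ 3 * ((Nat.log 2 B : ℝ) + 2) := by
  have h1 : B < 2 ^ (Nat.log 2 B + 1) := Nat.lt_pow_succ_log_self (by norm_num) B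
  have h2 : 2 * B ^ 2 < 2 ^ (2 * Nat.log 2 B + 3) := by
    have h3 : B ^ 2 < (2 ^ (Nat.log 2 B + 1)) ^ 2 := Nat.pow_lt_pow_left h1 (by norm_num)
    calc 2 * B ^ 2 < 2 * (2 ^ (Nat.log 2 B + 1)) ^ 2 := by omega
      _ = 2 ^ (2 * Nat.log 2 B + 3) := by ring
  have h3 : Nat.log 2 (2 * B ^ 2) < 2 * Nat.log 2 B + 3 := Nat.log_lt_of_lt_pow (by positivity) h2
  have h4 : Nat.log 2 (2 * B ^ 2) + 2 ≤ 3 * (Nat.log 2 B + 2) := by omega
  exact_mod_cast h4

theorem alpha (n r q : ℕ) (hq : 1 ≤ q) : ∃ C : ℝ, 1 ≤ C ∧ ∀ (B H : ℕ) (o : Fin (n + 1)),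
    1 ≤ B → 1 ≤ H → ∀ x ∈ GG K B H q o,
    ∑ y ∈ (GG K B H q o).filter (fun y => ¬ Prp x y ∧ pn (Del o x y) ≤ nD x y * (B : ℝ) ^ eK K),
      (nD x y / pn (Del o x y)) ^ r ≤
        C * ((Nat.log 2 B : ℝ) + 2) ^ eK K *
          ((H : ℝ) ^ (n + 1 + r) * ((B : ℝ) / (B : ℝ) ^ r)) ^ eK K := by
  obtain ⟨C1, hC1, hcell⟩ := alphaCell (K := K) n q hq
  set κ : ℝ := CK K n with hκ
  have hκ1 : 1 ≤ κ := CK_one_le K n
  have hq1 : (1 : ℝ) ≤ q := by exact_mod_cast hq
  set c₀ : ℝ := ((n + 1 : ℕ) * q : ℝ) with hc₀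
  have hc0 : 1 ≤ c₀ := by
    have : (1 : ℝ) ≤ (n + 1 : ℕ) := by exact_mod_cast Nat.succ_le_succ (Nat.zero_le n)
    rw [hc₀]
    exact one_le_mul_of_one_le_of_one_le this hq1
  refine ⟨κ * κ * C1 * (2 * c₀) ^ eK K * 3 ^ eK K * (c₀ ^ r) ^ eK K, ?_, ?_⟩
  · have h1 : (1 : ℝ) ≤ (2 * c₀) ^ eK K := one_le_pow₀ (by linarith)
    have h2 : (1 : ℝ) ≤ 3 ^ eK K := one_le_pow₀ (by norm_num)
    have h3 : (1 : ℝ) ≤ (c₀ ^ r) ^ eK K := one_le_pow₀ (one_le_pow₀ hc0)
    exact one_le_mul_of_one_le_of_one_le (one_le_mul_of_one_le_of_one_le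
      (one_le_mul_of_one_le_of_one_le (one_le_mul_of_one_le_of_one_le
        (one_le_mul_of_one_le_of_one_le hκ1 hκ1) hC1) h1) h2) h3
  intro B H o hB hH x hx
  set Y := (GG K B H q o).filter (fun y => ¬ Prp x y ∧ pn (Del o x y) ≤ nD x y * (B : ℝ) ^ eK K)
    with hY
  have hB0 : (0 : ℝ) < B := by exact_mod_cast hB
  have hB1 : (1 : ℝ) ≤ B := by exact_mod_cast hB
  have hH1 : (1 : ℝ) ≤ H := by exact_mod_cast hH
  obtain ⟨f, hf, h0, hb⟩ := GG_good hx
  set t : ℝ := (((n + 1) * H * q : ℕ) : ℝ) with ht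
  have ht1 : 1 ≤ t := by
    rw [ht]
    exact_mod_cast Nat.mul_pos (Nat.mul_pos (Nat.succ_pos n) hH) hq
  have ht0 : 0 < t := by linarith
  have htc : t = c₀ * H := by
    rw [ht, hc₀]
    push_cast
    ring
  have hxo := GG_ne hB hx
  -- the norm of the ideal
  have hnD : ∀ y ∈ Y, nD x y ≤ (t / B) ^ eK K * pn (Del o x y) := by
    intro y hy
    obtain ⟨hyG, hp, hd⟩ := Finset.mem_filter.1 hy
    obtain ⟨s, hs⟩ := apNe B H q o hB x y hx hp f hf h0
    have h1 : nD x y ≤ pn (fun v : InfinitePlace K => v ((lin (f s) y : 𝓞 K) : K)) :=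
      absNorm_le_pn (apDvd x y (GG_uni hx) (f s) (h0 s)) hs
    refine h1.trans ?_
    rw [← pn_const_mul]
    exact pn_mono (fun v => v_nonneg v _) fun v => al_pt hB hx (f s) (h0 s) (hb s) v
  have hpD : ∀ y ∈ Y, 0 < pn (Del o x y) := fun y hy =>
    lt_of_lt_of_le one_pos (one_le_pn_Del hxo (Finset.mem_filter.1 hy).2.1)
  have hterm : ∀ y ∈ Y, (nD x y / pn (Del o x y)) ^ r ≤ ((t / B) ^ eK K) ^ r := by
    intro y hy
    have h1 : 0 ≤ nD x y := Nat.cast_nonneg _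
    refine pow_le_pow_left₀ (div_nonneg h1 (hpD y hy).le) ?_ r
    rw [div_le_iff₀ (hpD y hy)]
    exact hnD y hy
  -- the ideals
  have hids : ((Y.image fun y => Dd x y).card : ℝ) ≤ κ * (2 * t * B) ^ eK K := by
    refine idCount n (one_le_pow₀ ?_) _ ?_
    · have : 1 ≤ t * B := one_le_mul_of_one_le_of_one_le ht1 hB1
      nlinarith
    · intro I hI
      obtain ⟨y, hy, rfl⟩ := Finset.mem_image.1 hI
      obtain ⟨hyG, hp, hd⟩ := Finset.mem_filter.1 hy
      have h1 : pn (Del o x y) ≤ (2 * (B : ℝ) ^ 2) ^ eK K := by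
        rw [← pn_const]
        exact pn_mono (fun v => (Del_pos hxo hp v).le) fun v => Del_le hx hyG v
      have h2 : (t / B) ^ eK K * pn (Del o x y) ≤ (t / B) ^ eK K * (2 * (B : ℝ) ^ 2) ^ eK K :=
        mul_le_mul_of_nonneg_left h1 (by positivity)
      refine (hnD y hy).trans (h2.trans (le_of_eq ?_))
      rw [← mul_pow]
      congr 1
      field_simp
  -- the pairs
  set T : Finset (Ideal (𝓞 K) × (InfinitePlace K → ℤ)) :=
    (Y.image fun y => Dd x y) ×ˢ (JJ K (2 * B ^ 2)) with hT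
  have hmaps : ∀ y ∈ Y, (Dd x y, jv (Del o x y)) ∈ T := by
    intro y hy
    obtain ⟨hyG, hp, hd⟩ := Finset.mem_filter.1 hy
    refine Finset.mem_product.2 ⟨Finset.mem_image_of_mem _ hy, ?_⟩
    have hR : 1 ≤ 2 * B ^ 2 := Nat.succ_le_of_lt (by positivity)
    refine mem_JJ hR (Del_pos hxo hp) (fun v => ?_)
      (one_le_pn_Del hxo hp)
    have := Del_le hx hyG v
    push_cast
    exact this
  have hYcard : (Y.card : ℝ) ≤ (T.card : ℝ) * (C1 * (H : ℝ) ^ (eK K * n)) := by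
    have h1 : Y.card = ∑ b ∈ T, (Y.filter fun y => (Dd x y, jv (Del o x y)) = b).card :=
      Finset.card_eq_sum_card_fiberwise hmaps
    rw [h1, Nat.cast_sum]
    calc ∑ b ∈ T, ((Y.filter fun y => (Dd x y, jv (Del o x y)) = b).card : ℝ)
        ≤ ∑ _b ∈ T, C1 * (H : ℝ) ^ (eK K * n) := by
          refine Finset.sum_le_sum fun b _ => ?_
          have h2 := hcell B H o hB hH x hx b.1 b.2
          refine le_trans ?_ h2
          have h3 : (Y.filter fun y => (Dd x y, jv (Del o x y)) = b) ⊆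
              (GG K B H q o).filter fun y =>
                (¬ Prp x y ∧ pn (Del o x y) ≤ nD x y * (B : ℝ) ^ eK K) ∧ Dd x y = b.1 ∧
                  jv (Del o x y) = b.2 := by
            intro y hy
            obtain ⟨hy1, hy2⟩ := Finset.mem_filter.1 hy
            obtain ⟨hyG, hp⟩ := Finset.mem_filter.1 hy1
            exact Finset.mem_filter.2 ⟨hyG, hp, congrArg Prod.fst hy2, congrArg Prod.snd hy2⟩
          exact_mod_cast Finset.card_le_card h3
      _ = (T.card : ℝ) * (C1 * (H : ℝ) ^ (eK K * n)) := by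
          rw [Finset.sum_const, nsmul_eq_mul]
  have hJ : ((JJ K (2 * B ^ 2)).card : ℝ) ≤ κ * (3 * ((Nat.log 2 B : ℝ) + 2)) ^ eK K := by
    refine (JJ_up K n (2 * B ^ 2)).trans ?_
    exact mul_le_mul_of_nonneg_left (pow_le_pow_left₀ (by positivity) (al_log B hB) _)
      (by linarith)
  have hTcard : (T.card : ℝ) ≤ (κ * (2 * t * B) ^ eK K) *
      (κ * (3 * ((Nat.log 2 B : ℝ) + 2)) ^ eK K) := by
    rw [hT, Finset.card_product, Nat.cast_mul]
    exact mul_le_mul hids hJ (Nat.cast_nonneg _) (by positivity)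
  calc ∑ y ∈ Y, (nD x y / pn (Del o x y)) ^ r ≤ ∑ _y ∈ Y, ((t / B) ^ eK K) ^ r :=
        Finset.sum_le_sum hterm
    _ = (Y.card : ℝ) * ((t / B) ^ eK K) ^ r := by rw [Finset.sum_const, nsmul_eq_mul]
    _ ≤ (((κ * (2 * t * B) ^ eK K) * (κ * (3 * ((Nat.log 2 B : ℝ) + 2)) ^ eK K)) *
          (C1 * (H : ℝ) ^ (eK K * n))) * ((t / B) ^ eK K) ^ r := by
        refine mul_le_mul_of_nonneg_right (hYcard.trans ?_) (by positivity)
        exact mul_le_mul_of_nonneg_right hTcard (by positivity)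
    _ = κ * κ * C1 * (2 * c₀) ^ eK K * 3 ^ eK K * (c₀ ^ r) ^ eK K *
          ((Nat.log 2 B : ℝ) + 2) ^ eK K *
          ((H : ℝ) ^ (n + 1 + r) * ((B : ℝ) / (B : ℝ) ^ r)) ^ eK K := by
        have h1 : ((t / B) ^ eK K) ^ r = (c₀ ^ r * ((H : ℝ) ^ r / (B : ℝ) ^ r)) ^ eK K := by
          rw [htc, ← pow_mul, mul_comm (eK K) r, pow_mul, div_pow, mul_pow, mul_div_assoc]
        have h2 : (2 * t * B) ^ eK K = (2 * c₀) ^ eK K * ((H : ℝ) * B) ^ eK K := by
          rw [htc, ← mul_pow]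
          congr 1
          ring
        have h3 : (H : ℝ) ^ (eK K * n) = ((H : ℝ) ^ n) ^ eK K := by
          rw [mul_comm, pow_mul]
        have h4 : ((H : ℝ) ^ (n + 1 + r) * ((B : ℝ) / (B : ℝ) ^ r)) ^ eK K =
            ((H : ℝ) ^ n) ^ eK K * ((H : ℝ) * B) ^ eK K * ((H : ℝ) ^ r / (B : ℝ) ^ r) ^ eK K := by
          rw [← mul_pow, ← mul_pow]
          congr 1
          rw [pow_add, pow_add, pow_one]
          ring
        rw [h1, h2, h3, h4, mul_pow (3 : ℝ), mul_pow (c₀ ^ r)]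
        ring

end Pool.Agent.Lib.MP_1ad228_ntN
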