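import Pool.Agent.Lib.MP_1ad228_ntN.TpK

/-!
JOB AlphaPt.  One pair of test points.  (Model with proof: Lib/MP_219881_nt/AlphaPt.lean.)

`apDvd`: `lamLem` (file Alg) with `I = Dd x y` gives `l` with `y j - l * x j ∈ Dd x y` for all `j`;
`lin f y = ∑ f j * (y j - l * x j) + l * lin f x` and `lin f x = 0`.
`apBd`: `x o * lin f y = ∑ j, f j * mn x y o j + y o * lin f x = ∑ j, f j * mn x y o j`, so
`v(x o) * v(lin f y) ≤ (n+1) * H * Del o x y v` (`le_Del`), and `B ≤ q * v(x o)` (`GG_pivot`).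
`apNe`: if all `lin (f s) y = 0`: for every `j` apply `perp_mem` to
`u = x_o e_j - x_j e_o` (over `K`; `lin u x = 0`): `u` is a combination of the `kv (f s)`, so `lin u (kv y) = 0`, i.e.
`x_o y_j - x_j y_o = 0` for all `j`, contradicting `exists_mn`.
`apFib`: as in `apNe` with `y - y'`: `x_o (y - y')_j = x_j (y - y')_o` for all `j`. With `lin u x = 1`
(`GG_uni`): `(y - y')_o = lin u (y - y') * x_o`, so with `c = lin u (y - y')`: `y j - y' j = c * x j` for all `j`
(`x_o ≠ 0`).  The bound for `v(c)`: `v(c) v(x_o) = v(y_o - y'_o) ≤ 2 B` and `B ≤ q v(x_o)`.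
-/

namespace Pool.Agent.Lib.MP_1ad228_ntN

open NumberField Classical
open Pool.Agent.Lib.MP_219881_nt (mn)

set_option linter.unusedSectionVars false

variable {K : Type} [Field K] [NumberField K]

/-- a vector orthogonal to the `f s` is proportional to `x` -/
private theorem alphapt_prop {n : ℕ} (x z : Vc n (𝓞 K)) (hx : x ≠ 0) (f : Fin n → Vc n (𝓞 K))
    (hf : LinearIndependent (𝓞 K) f) (h0 : ∀ s, lin (f s) x = 0) (hz : ∀ s, lin (f s) z = 0)
    (o j : Fin (n + 1)) : x o * z j = x j * z o := by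
  obtain ⟨u, hu⟩ : ∃ u : Vc n K, u = (x o : K) • (Pi.single j 1 : Vc n K) -
      (x j : K) • (Pi.single o 1 : Vc n K) := ⟨_, rfl⟩
  have hlin : ∀ w : Vc n (𝓞 K), lin u (kv w) = (x o : K) * (w j : K) - (x j : K) * (w o : K) := by
    intro w
    rw [hu, lin_sub, lin_smul, lin_smul, lin_single, lin_single]
    rfl
  have h1 : lin u (kv x) = 0 := by
    rw [hlin]
    ring
  have h2 := perp_mem x hx f hf h0 h1
  rw [Submodule.mem_span_range_iff_exists_fun] at h2
  obtain ⟨t, ht⟩ := h2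
  have h3 : lin u (kv z) = ∑ s, t s * ((lin (f s) z : 𝓞 K) : K) := by
    have h4 : (∑ s, t s * ((lin (f s) z : 𝓞 K) : K)) = ∑ s, t s * lin (kv (f s)) (kv z) :=
      Finset.sum_congr rfl fun s _ => by rw [lin_kv]
    rw [h4, ← ht]
    simp only [Pool.Agent.Lib.MP_219881_nt.lin, Finset.sum_apply, Pi.smul_apply, smul_eq_mul, Finset.sum_mul,
      Finset.mul_sum]
    rw [Finset.sum_comm]
    exact Finset.sum_congr rfl fun s _ => Finset.sum_congr rfl fun i _ => mul_assoc _ _ _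
  have h5 : ∑ s, t s * ((lin (f s) z : 𝓞 K) : K) = 0 := by
    refine Finset.sum_eq_zero fun s _ => ?_
    rw [hz s]
    simp
  rw [h5, hlin, sub_eq_zero] at h3
  exact RingOfIntegers.ext (by push_cast; exact h3)

theorem apDvd {n : ℕ} (x y : Vc n (𝓞 K)) (hx : Uni x) (f : Vc n (𝓞 K)) (h0 : lin f x = 0) :
    lin f y ∈ Dd x y := by
  obtain ⟨l, hl⟩ := lamLem hx (Dd x y) (mn_mem_Dd x y)
  have h2 : lin f y = ∑ j, f j * (y j - l * x j) := by
    have h3 : ∑ j, f j * (y j - l * x j) = lin f y - l * lin f x := by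
      simp only [Pool.Agent.Lib.MP_219881_nt.lin, Finset.mul_sum, ← Finset.sum_sub_distrib]
      refine Finset.sum_congr rfl fun j _ => ?_
      ring
    rw [h3, h0, mul_zero, sub_zero]
  rw [h2]
  exact Ideal.sum_mem _ fun j _ => Ideal.mul_mem_left _ _ (hl j)

theorem apBd {n : ℕ} (B H q : ℕ) (o : Fin (n + 1)) (hB : 1 ≤ B) (x y : Vc n (𝓞 K))
    (hx : x ∈ GG K B H q o) (f : Vc n (𝓞 K)) (h0 : lin f x = 0)
    (hf : ∀ i, ∀ v : InfinitePlace K, v (f i : K) ≤ (H : ℝ)) (v : InfinitePlace K) :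
    (B : ℝ) * v ((lin f y : 𝓞 K) : K) ≤ (n + 1) * H * q * Del o x y v := by
  have hpos : 0 < v (x o : K) := GG_vpos hB hx v
  have hpiv : (B : ℝ) ≤ q * v (x o : K) := GG_pivot hx v
  have h2 : x o * lin f y = ∑ j, f j * mn x y o j := by
    have h3 : ∑ j, f j * mn x y o j = x o * lin f y - y o * lin f x := by
      simp only [Pool.Agent.Lib.MP_219881_nt.lin, Pool.Agent.Lib.MP_219881_nt.mn, Finset.mul_sum,
        ← Finset.sum_sub_distrib]
      refine Finset.sum_congr rfl fun j _ => ?_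
      ring
    rw [h3, h0, mul_zero, sub_zero]
  have h4 : v (x o : K) * v ((lin f y : 𝓞 K) : K) ≤ (n + 1) * (H * Del o x y v) := by
    have h5 : v (x o : K) * v ((lin f y : 𝓞 K) : K) = v (∑ j, (f j : K) * ((mn x y o j : 𝓞 K) : K)) := by
      rw [← v_mul]
      congr 1
      have h6 := congrArg (fun z : 𝓞 K => (z : K)) h2
      push_cast at h6
      exact h6
    rw [h5]
    calc v (∑ j, (f j : K) * ((mn x y o j : 𝓞 K) : K)) ≤ ∑ j, v ((f j : K) * ((mn x y o j : 𝓞 K) : K)) :=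
          v_sum_le v _ _
      _ ≤ ∑ _j : Fin (n + 1), ((H : ℝ) * Del o x y v) := by
          refine Finset.sum_le_sum fun j _ => ?_
          rw [v_mul]
          exact mul_le_mul (hf j v) (le_Del o x y j v) (v_nonneg _ _) (Nat.cast_nonneg _)
      _ = (n + 1) * (H * Del o x y v) := by
          rw [Finset.sum_const, Finset.card_univ, Fintype.card_fin, nsmul_eq_mul]
          push_cast
          ring
  calc (B : ℝ) * v ((lin f y : 𝓞 K) : K) ≤ (q * v (x o : K)) * v ((lin f y : 𝓞 K) : K) :=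
        mul_le_mul_of_nonneg_right hpiv (v_nonneg _ _)
    _ = q * (v (x o : K) * v ((lin f y : 𝓞 K) : K)) := by ring
    _ ≤ q * ((n + 1) * (H * Del o x y v)) := mul_le_mul_of_nonneg_left h4 (Nat.cast_nonneg _)
    _ = (n + 1) * H * q * Del o x y v := by ring

theorem apNe {n : ℕ} (B H q : ℕ) (o : Fin (n + 1)) (hB : 1 ≤ B) (x y : Vc n (𝓞 K))
    (hx : x ∈ GG K B H q o) (hxy : ¬ Prp x y) (f : Fin n → Vc n (𝓞 K))
    (hf : LinearIndependent (𝓞 K) f) (h0 : ∀ s, lin (f s) x = 0) : ∃ s, lin (f s) y ≠ 0 := by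
  by_contra hcon
  push Not at hcon
  have hxo : x o ≠ 0 := GG_ne hB hx
  have hx0 : x ≠ 0 := by
    intro h
    rw [h] at hxo
    exact hxo rfl
  obtain ⟨j, hj⟩ := exists_mn hxo hxy
  apply hj
  unfold Pool.Agent.Lib.MP_219881_nt.mn
  rw [sub_eq_zero]
  exact alphapt_prop x y hx0 f hf h0 hcon o j

theorem apFib {n : ℕ} (B H q : ℕ) (o : Fin (n + 1)) (hB : 1 ≤ B) (x y y' : Vc n (𝓞 K))
    (hx : x ∈ GG K B H q o) (hy : y ∈ GG K B H q o) (hy' : y' ∈ GG K B H q o)
    (f : Fin n → Vc n (𝓞 K)) (hf : LinearIndependent (𝓞 K) f)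
    (h0 : ∀ s, lin (f s) x = 0) (he : ∀ s, lin (f s) y = lin (f s) y') :
    ∃ c : 𝓞 K, c ∈ OBox K (2 * q) ∧ ∀ j, y j - y' j = c * x j := by
  have hxo : x o ≠ 0 := GG_ne hB hx
  have hx0 : x ≠ 0 := by
    intro h
    rw [h] at hxo
    exact hxo rfl
  have hz : ∀ s, lin (f s) (y - y') = 0 := by
    intro s
    rw [lin_sub_right, he s, sub_self]
  have hp := alphapt_prop x (y - y') hx0 f hf h0 hz o
  obtain ⟨u, hu⟩ := GG_uni hx
  have h1 : x o * lin u (y - y') = (y - y') o := by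
    have h2 : x o * lin u (y - y') = lin u x * (y - y') o := by
      simp only [Pool.Agent.Lib.MP_219881_nt.lin, Finset.mul_sum, Finset.sum_mul]
      refine Finset.sum_congr rfl fun j _ => ?_
      linear_combination u j * hp j
    rw [h2, hu, one_mul]
  have h5 : ∀ j, y j - y' j = lin u (y - y') * x j := by
    intro j
    have h3 : x o * (y j - y' j) = x o * (lin u (y - y') * x j) := by
      have h4 : x o * (y j - y' j) = x j * (y - y') o := hp j
      rw [h4, ← h1]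
      ring
    exact mul_left_cancel₀ hxo h3
  refine ⟨lin u (y - y'), ?_, h5⟩
  rw [mem_OBox]
  intro v
  have h6 : v ((lin u (y - y') : 𝓞 K) : K) * v (x o : K) = v ((y o : K) - (y' o : K)) := by
    rw [← v_mul]
    congr 1
    have h7 := congrArg (fun z : 𝓞 K => (z : K)) (h5 o)
    push_cast at h7
    exact h7.symm
  have h7 : v ((y o : K) - (y' o : K)) ≤ B + B :=
    (v_sub_le v _ _).trans (add_le_add (GG_le hy o v) (GG_le hy' o v))
  have h8 := GG_pivot hx v
  have h9 := GG_vpos hB hx v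
  refine le_of_mul_le_mul_right ?_ h9
  rw [h6]
  linarith

end Pool.Agent.Lib.MP_1ad228_ntN
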