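import Pool.Agent.Lib.MP_1ad228_ntN.B_BadX

/-!
JOB B_BadK.  Proportion of the points which are not `H`-good, `H = constant * B^(1/n)`. (Model: Lib/MP_1ad228_ntF/B_Bad.lean.)

`allGood`: every `x ∈ VBox K n B` is `B`-good (`B ≥ 1`): if `x = 0` take `f s = Pi.single s.succ 1`; otherwise `x p ≠ 0` for some `p` and `f s = x p • e_(p.succAbove s) - x (p.succAbove s) • e_p` (entries `x p`, `- x (..)`, `0`); linearly independent because the
coordinate `p.succAbove s` of `∑ c_t f_t` is `c_s * x p`.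
`badB`: `badXP K n` (constant `C0`, natural: replace it by `⌈C0⌉₊`) with `L = g / s + 1` (natural division). `g ≤ s L`, `L ≤ 2 g / s` in the reals for `g ≥ s`; `C0 L ≤ 2 C0 g ≤ H` (`C ≥ 2 C0`, `s^(n-1) ≥ 1`); `C0 L ≤ 2 C0 g ≤ g^n = B` for `g ≥ 2 C0` (`n ≥ 2`);
`C0 B = C0 g * g^(n-1) ≤ C0 g * (s L)^(n-1) ≤ H L^(n-1)`. So the number is at most `C0 (B^n L^n)^e ≤ C0 (B^n (2g/s)^n)^e = C0 2^(n e) (B^(n+1)/s^n)^e`. `C = 2^(n e + 1) C0`.
-/

namespace Pool.Agent.Lib.MP_1ad228_ntN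

open NumberField Classical

set_option linter.unusedSectionVars false

variable {K : Type} [Field K] [NumberField K]

private theorem B_BadK_li {n : ℕ} (p : Fin (n + 1)) (c : 𝓞 K) (hc : c ≠ 0) (d : Fin n → 𝓞 K) :
    LinearIndependent (𝓞 K) (fun s : Fin n =>
      (Pi.single (p.succAbove s) c - Pi.single p (d s) : Vc n (𝓞 K))) := by
  rw [Fintype.linearIndependent_iff]
  intro g hg s
  have h1 := congrFun hg (p.succAbove s)
  rw [Finset.sum_apply, Finset.sum_eq_single s] at h1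
  · simp only [Pi.smul_apply, Pi.sub_apply, Pi.single_eq_same, smul_eq_mul, Pi.zero_apply] at h1
    rw [Pi.single_eq_of_ne (Fin.succAbove_ne p s), sub_zero, mul_eq_zero] at h1
    exact h1.resolve_right hc
  · intro t _ hts
    simp only [Pi.smul_apply, Pi.sub_apply, smul_eq_mul]
    rw [Pi.single_eq_of_ne (Fin.succAbove_ne p s),
      Pi.single_eq_of_ne (fun h => hts (Fin.succAbove_right_injective h).symm), sub_zero, mul_zero]
  · intro h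
    exact absurd (Finset.mem_univ s) h

private theorem B_BadK_abs {n B : ℕ} (p : Fin (n + 1)) (c : 𝓞 K) (hc : ∀ v : InfinitePlace K, v (c : K) ≤ (B : ℝ))
    (d : Fin n → 𝓞 K) (hd : ∀ s, ∀ v : InfinitePlace K, v (d s : K) ≤ (B : ℝ)) (s : Fin n) (i : Fin (n + 1))
    (v : InfinitePlace K) :
    v (((Pi.single (p.succAbove s) c - Pi.single p (d s) : Vc n (𝓞 K)) i : 𝓞 K) : K) ≤ (B : ℝ) := by
  rw [Pi.sub_apply]
  by_cases h1 : i = p
  · subst h1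
    rw [Pi.single_eq_same, Pi.single_eq_of_ne (Fin.succAbove_ne i s).symm, zero_sub]
    have h2 : ((-d s : 𝓞 K) : K) = -(d s : K) := map_neg (algebraMap (𝓞 K) K) _
    rw [h2, v_neg]
    exact hd s v
  · rw [Pi.single_eq_of_ne h1, sub_zero]
    by_cases h2 : i = p.succAbove s
    · subst h2
      rw [Pi.single_eq_same]
      exact hc v
    · rw [Pi.single_eq_of_ne h2]
      have h3 : ((0 : 𝓞 K) : K) = 0 := map_zero (algebraMap (𝓞 K) K)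
      rw [h3, v_zero]
      exact Nat.cast_nonneg B

private theorem B_BadK_lin {n : ℕ} (p : Fin (n + 1)) (c : 𝓞 K) (d : Fin n → 𝓞 K) (s : Fin n) (x : Vc n (𝓞 K)) :
    lin (Pi.single (p.succAbove s) c - Pi.single p (d s) : Vc n (𝓞 K)) x =
      c * x (p.succAbove s) - d s * x p := by
  have e1 : lin (Pi.single (p.succAbove s) c - Pi.single p (d s) : Vc n (𝓞 K)) x =
      (∑ i, (Pi.single (p.succAbove s) c : Vc n (𝓞 K)) i * x i) -
        ∑ i, (Pi.single p (d s) : Vc n (𝓞 K)) i * x i := by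
    rw [← Finset.sum_sub_distrib]
    refine Finset.sum_congr rfl ?_
    intro i _
    rw [Pi.sub_apply, sub_mul]
  have e2 : ∀ (q : Fin (n + 1)) (e : 𝓞 K), (∑ i, (Pi.single q e : Vc n (𝓞 K)) i * x i) = e * x q := by
    intro q e
    rw [Finset.sum_eq_single q]
    · rw [Pi.single_eq_same]
    · intro b _ hb
      rw [Pi.single_eq_of_ne hb, zero_mul]
    · intro h
      exact absurd (Finset.mem_univ _) h
  rw [e1, e2, e2]

private theorem B_BadK_ex {n B : ℕ} (hB : 1 ≤ B) (x : Vc n (𝓞 K)) (hx : x ∈ VBox K n B) :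
    ∃ (p : Fin (n + 1)) (c : 𝓞 K) (d : Fin n → 𝓞 K), c ≠ 0 ∧ (∀ v : InfinitePlace K, v (c : K) ≤ (B : ℝ)) ∧
      (∀ s, ∀ v : InfinitePlace K, v (d s : K) ≤ (B : ℝ)) ∧ ∀ s, c * x (p.succAbove s) - d s * x p = 0 := by
  rw [mem_VBox] at hx
  by_cases h0 : x = 0
  · refine ⟨0, 1, fun _ => 0, one_ne_zero, ?_, ?_, ?_⟩
    · intro v
      have h3 : ((1 : 𝓞 K) : K) = 1 := map_one (algebraMap (𝓞 K) K)
      rw [h3, v_one]
      exact_mod_cast hB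
    · intro s v
      have h3 : ((0 : 𝓞 K) : K) = 0 := map_zero (algebraMap (𝓞 K) K)
      rw [h3, v_zero]
      exact Nat.cast_nonneg B
    · intro s
      rw [h0, Pi.zero_apply, mul_zero, zero_mul, sub_zero]
  · obtain ⟨p, hp⟩ := Function.ne_iff.1 h0
    refine ⟨p, x p, fun s => x (p.succAbove s), hp, hx p, fun s => hx _, ?_⟩
    intro s
    exact sub_eq_zero.2 (mul_comm _ _)

private theorem B_BadK_good {n B : ℕ} (x : Vc n (𝓞 K)) (p : Fin (n + 1)) (c : 𝓞 K) (d : Fin n → 𝓞 K) (hc : c ≠ 0)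
    (hcB : ∀ v : InfinitePlace K, v (c : K) ≤ (B : ℝ)) (hdB : ∀ s, ∀ v : InfinitePlace K, v (d s : K) ≤ (B : ℝ))
    (hz : ∀ s, c * x (p.succAbove s) - d s * x p = 0) : HGood B x := by
  unfold HGood
  obtain ⟨f, hf⟩ : ∃ f : Fin n → Vc n (𝓞 K), f = fun s =>
    (Pi.single (p.succAbove s) c - Pi.single p (d s) : Vc n (𝓞 K)) := ⟨_, rfl⟩
  have h1 : LinearIndependent (𝓞 K) f := by
    rw [hf]
    exact B_BadK_li p c hc d
  have h2 : ∀ s, lin (f s) x = 0 := by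
    intro s
    rw [hf]
    exact (B_BadK_lin p c d s x).trans (hz s)
  have h3 : ∀ s i, ∀ v : InfinitePlace K, v (f s i : K) ≤ (B : ℝ) := by
    intro s i v
    rw [hf]
    exact B_BadK_abs p c hcB d hdB s i v
  exact ⟨f, h1, h2, h3⟩

theorem allGood {n B : ℕ} (hB : 1 ≤ B) (x : Vc n (𝓞 K)) (hx : x ∈ VBox K n B) : HGood B x := by
  obtain ⟨p, c, d, hc, hcB, hdB, hz⟩ := B_BadK_ex hB x hx
  exact B_BadK_good x p c d hc hcB hdB hz

variable (K) in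
theorem badB (n : ℕ) (hn : 2 ≤ n) : ∃ C : ℝ, 1 ≤ C ∧ ∀ s : ℕ, 1 ≤ s → ∃ g0 : ℕ, ∀ g : ℕ, g0 ≤ g →
    ∀ B H : ℕ, B = g ^ n → C * ((s : ℝ) ^ (n - 1) * g) ≤ H →
    (((VBox K n B).filter fun x => ¬ HGood H x).card : ℝ) ≤
      C * ((B : ℝ) ^ (n + 1) / (s : ℝ) ^ n) ^ eK K := by
  obtain ⟨C0, hC0, hc⟩ := badXP K n (le_trans one_le_two hn)
  have hC00 : 0 ≤ C0 := le_trans zero_le_one hC0
  obtain ⟨e, he⟩ : ∃ e, e = eK K := ⟨_, rfl⟩
  rw [← he] at hc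
  rw [← he]
  have h2e : (2 : ℝ) ≤ 2 ^ (n * e + 1) := by
    rw [pow_succ]
    have h1 : (1 : ℝ) ≤ 2 ^ (n * e) := one_le_pow₀ (by norm_num)
    linarith
  refine ⟨2 ^ (n * e + 1) * C0, by nlinarith, ?_⟩
  intro s hs
  refine ⟨s + ⌈2 * C0⌉₊, ?_⟩
  intro g hg B H hB hH
  have hgs : s ≤ g := le_trans (Nat.le_add_right _ _) hg
  have hg2 : 2 * C0 ≤ g := (Nat.le_ceil _).trans (by exact_mod_cast le_trans (Nat.le_add_left _ _) hg)
  have hg1 : 1 ≤ g := le_trans hs hgs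
  have hsR : (0 : ℝ) < (s : ℝ) := by exact_mod_cast hs
  have hgR : (0 : ℝ) < (g : ℝ) := by exact_mod_cast hg1
  have hBR : (B : ℝ) = (g : ℝ) ^ n := by rw [hB]; push_cast; ring
  have hL1 : 1 ≤ g / s + 1 := Nat.le_add_left 1 _
  have hL2 : ((g / s + 1 : ℕ) : ℝ) ≤ 2 * g := by
    have h1 : g / s ≤ g := Nat.div_le_self g s
    have h2 : g / s + 1 ≤ 2 * g := by
      rw [two_mul]
      exact Nat.add_le_add h1 hg1
    exact_mod_cast h2
  have hgL : (g : ℝ) ≤ s * ((g / s + 1 : ℕ) : ℝ) := by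
    have h1 := Nat.div_add_mod g s
    have h2 := Nat.mod_lt g (by omega : 0 < s)
    have h3 : g ≤ s * (g / s + 1) := by
      rw [Nat.mul_add, mul_one]
      omega
    exact_mod_cast h3
  have hs1 : (1 : ℝ) ≤ (s : ℝ) ^ (n - 1) := one_le_pow₀ (by exact_mod_cast hs)
  have hsg : (g : ℝ) ≤ (s : ℝ) ^ (n - 1) * g := le_mul_of_one_le_left hgR.le hs1
  have hsg0 : (0 : ℝ) ≤ (s : ℝ) ^ (n - 1) * g := by positivity
  have hL0 : (0 : ℝ) ≤ ((g / s + 1 : ℕ) : ℝ) := Nat.cast_nonneg _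
  have hLH : C0 * ((g / s + 1 : ℕ) : ℝ) ≤ H := by
    calc C0 * ((g / s + 1 : ℕ) : ℝ) ≤ C0 * (2 * g) := mul_le_mul_of_nonneg_left hL2 hC00
      _ = 2 * C0 * g := by ring
      _ ≤ 2 ^ (n * e + 1) * C0 * ((s : ℝ) ^ (n - 1) * g) :=
        mul_le_mul (mul_le_mul_of_nonneg_right h2e hC00) hsg hgR.le (by positivity)
      _ ≤ H := hH
  have hLB : C0 * ((g / s + 1 : ℕ) : ℝ) ≤ B := by
    calc C0 * ((g / s + 1 : ℕ) : ℝ) ≤ C0 * (2 * g) := mul_le_mul_of_nonneg_left hL2 hC00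
      _ = 2 * C0 * g := by ring
      _ ≤ g * g := mul_le_mul_of_nonneg_right hg2 hgR.le
      _ = (g : ℝ) ^ 2 := by ring
      _ ≤ (g : ℝ) ^ n := pow_le_pow_right₀ (by exact_mod_cast hg1) hn
      _ = B := hBR.symm
  have hC0H : C0 * ((s : ℝ) ^ (n - 1) * g) ≤ H := by
    refine le_trans ?_ hH
    refine mul_le_mul_of_nonneg_right ?_ hsg0
    nlinarith
  have hHL : C0 * (B : ℝ) ≤ (H : ℝ) * ((g / s + 1 : ℕ) : ℝ) ^ (n - 1) := by
    have ee : (g : ℝ) ^ n = g * (g : ℝ) ^ (n - 1) := by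
      rw [← pow_succ']
      congr 1
      omega
    calc C0 * (B : ℝ) = C0 * g * (g : ℝ) ^ (n - 1) := by rw [hBR, ee]; ring
      _ ≤ C0 * g * (s * ((g / s + 1 : ℕ) : ℝ)) ^ (n - 1) :=
        mul_le_mul_of_nonneg_left (pow_le_pow_left₀ hgR.le hgL _) (by positivity)
      _ = C0 * ((s : ℝ) ^ (n - 1) * g) * ((g / s + 1 : ℕ) : ℝ) ^ (n - 1) := by rw [mul_pow]; ring
      _ ≤ H * ((g / s + 1 : ℕ) : ℝ) ^ (n - 1) := mul_le_mul_of_nonneg_right hC0H (by positivity)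
  refine (hc B H (g / s + 1) hL1 hLH hLB hHL).trans ?_
  have hLR : ((g / s + 1 : ℕ) : ℝ) ≤ 2 * (g : ℝ) / (s : ℝ) := by
    have h1 : ((g / s : ℕ) : ℝ) ≤ (g : ℝ) / (s : ℝ) := Nat.cast_div_le
    have h2 : (1 : ℝ) ≤ (g : ℝ) / (s : ℝ) := by
      rw [one_le_div hsR]
      exact_mod_cast hgs
    push_cast
    calc ((g / s : ℕ) : ℝ) + 1 ≤ (g : ℝ) / (s : ℝ) + (g : ℝ) / (s : ℝ) := add_le_add h1 h2
      _ = 2 * (g : ℝ) / (s : ℝ) := by ring
  have hB0 : (0 : ℝ) ≤ (B : ℝ) ^ n := by positivity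
  have hX0 : (0 : ℝ) ≤ (B : ℝ) ^ (n + 1) / (s : ℝ) ^ n := by positivity
  have h5 : (B : ℝ) ^ n * ((g / s + 1 : ℕ) : ℝ) ^ n ≤ 2 ^ n * ((B : ℝ) ^ (n + 1) / (s : ℝ) ^ n) := by
    calc (B : ℝ) ^ n * ((g / s + 1 : ℕ) : ℝ) ^ n ≤ (B : ℝ) ^ n * (2 * (g : ℝ) / (s : ℝ)) ^ n :=
          mul_le_mul_of_nonneg_left (pow_le_pow_left₀ hL0 hLR n) hB0
      _ = 2 ^ n * ((B : ℝ) ^ n * (g : ℝ) ^ n / (s : ℝ) ^ n) := by
          rw [div_pow, mul_pow]
          ring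
      _ = 2 ^ n * ((B : ℝ) ^ (n + 1) / (s : ℝ) ^ n) := by
          rw [← hBR, ← pow_succ]
  calc C0 * ((B : ℝ) ^ n * ((g / s + 1 : ℕ) : ℝ) ^ n) ^ e
      ≤ C0 * (2 ^ n * ((B : ℝ) ^ (n + 1) / (s : ℝ) ^ n)) ^ e :=
        mul_le_mul_of_nonneg_left (pow_le_pow_left₀ (by positivity) h5 _) hC00
    _ = 2 ^ (n * e) * C0 * ((B : ℝ) ^ (n + 1) / (s : ℝ) ^ n) ^ e := by
        rw [mul_pow, ← pow_mul]
        ring
    _ ≤ 2 ^ (n * e + 1) * C0 * ((B : ℝ) ^ (n + 1) / (s : ℝ) ^ n) ^ e := by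
        refine mul_le_mul_of_nonneg_right (mul_le_mul_of_nonneg_right ?_ hC00) (by positivity)
        exact pow_le_pow_right₀ (by norm_num) (Nat.le_succ _)

end Pool.Agent.Lib.MP_1ad228_ntN
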