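import Pool.Agent.Lib.MP_1ad228_ntN.CntY

/-!
JOB Beta.  Pair sum over the far points, exponent `r`, `r + 2 ≤ n`.  (Model: Lib/MP_1ad228_ntF/Beta.lean.)

`geoZ`: for a finite set `T` of integers with `2^j ≤ Z` for `j ∈ T` and `a ≥ 1`: `∑_{j ∈ T} (2^j)^a ≤ 2 Z^a`. (If `T` is empty
trivial. Let `J` be its maximum; `T ⊆ Icc (J - N) J`, the sum over `J - i`, `i ≤ N`, of `2^(a J) 2^(-a i)` is
at most `2 * (2^J)^a`.)
`geoPn`: `T : InfinitePlace K → Finset ℤ` with `2^j ≤ Z v` for `j ∈ T v`, `a ≥ 1`: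
`∑ j ∈ Fintype.piFinset T, pn (fun v => 2^(j v)) ^ a ≤ 2^(eK K) * pn Z ^ a`: `pn^a = ∏_v ((2^(j v))^(mult v * a))`,
`Finset.prod_univ_sum`, `geoZ` with exponent `mult v * a ≥ 1` for each `v`; the number of places is at most
`eK K` (`card_places_le`).
`beta`.  `e = eK K`. Let `Y` be the set of the sum. For `y ∈ Y` put `I = Dd x y`, `j = jv (Del o x y)`
(`2^(j v) ≤ Del_v < 2 * 2^(j v)`). `N(I) B^e < pn(Del) ≤ (2B^2)^e` gives `N(I) ≤ (2B)^e`.
Group by the pair `(I, j)`; `I ≠ ⊥`, `N(I) > w`; `j ∈ JJ K (2*B^2)` (`mem_JJ`, `one_le_pn_Del`, `Del_le`) and `2^(j v) ≤ Z v`.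
The group `(I, j)` is contained in the set of `cntY` with `δ_v = 2 * 2^(j v)` (`N(I) B^e < pn(Del) ≤ pn(δ)`), each
term is at most `(N(I)/pn(2^j))^r` (`pn_two_zpow_le`). So the group contributes at most
`C (B/B^n)^e (2^e pn(2^j)/N)^n (N/pn(2^j))^r = C 2^(en) (B/B^n)^e pn(2^j)^(n-r) / N^(n-r)`, and `1/N^(n-r) ≤ 1/N^2`
(`n ≥ r+2`, `N ≥ 1`). Sum over `I` (`idTail`) and over `j` (`geoPn` with
`T v = (Finset.Icc (-(e (log+1)+1)) log).filter (2^j ≤ Z v)`, a filter of the factors of `JJ`, exponent `n - r ≥ 1`).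
-/

namespace Pool.Agent.Lib.MP_1ad228_ntN

open NumberField Classical
open Pool.Agent.Lib.MP_219881_nt (mn)

set_option linter.unusedSectionVars false

variable {K : Type} [Field K] [NumberField K]

private theorem geoJ (T : Finset ℤ) (a : ℕ) (ha : 1 ≤ a) :
    ∀ J : ℤ, (∀ j ∈ T, j ≤ J) → ∑ j ∈ T, ((2 : ℝ) ^ j) ^ a ≤ 2 * ((2 : ℝ) ^ J) ^ a := by
  induction T using Finset.induction_on_max with
  | empty =>
    intro J _
    rw [Finset.sum_empty]
    positivity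
  | insert m s hs ih =>
    intro J hJ
    have hm : m ∉ s := fun h => lt_irrefl _ (hs m h)
    rw [Finset.sum_insert hm]
    have h1 := ih (m - 1) fun j hj => by
      have := hs j hj
      omega
    have h2 : (2 : ℝ) ^ m = 2 * (2 : ℝ) ^ (m - 1) := by
      rw [zpow_sub_one₀ (by norm_num)]
      ring
    have h3 : 2 * ((2 : ℝ) ^ (m - 1)) ^ a ≤ ((2 : ℝ) ^ m) ^ a := by
      rw [h2, mul_pow]
      refine mul_le_mul_of_nonneg_right ?_ (by positivity)
      calc (2 : ℝ) = 2 ^ 1 := (pow_one 2).symm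
        _ ≤ 2 ^ a := pow_le_pow_right₀ (by norm_num) ha
    have h4 : (2 : ℝ) ^ m ≤ (2 : ℝ) ^ J :=
      zpow_le_zpow_right₀ (by norm_num) (hJ m (Finset.mem_insert_self m s))
    have h5 : ((2 : ℝ) ^ m) ^ a ≤ ((2 : ℝ) ^ J) ^ a := pow_le_pow_left₀ (by positivity) h4 a
    linarith

theorem geoZ (T : Finset ℤ) (Z : ℝ) (hZ : 0 ≤ Z) (a : ℕ) (ha : 1 ≤ a)
    (h : ∀ j ∈ T, (2 : ℝ) ^ j ≤ Z) :
    ∑ j ∈ T, ((2 : ℝ) ^ j) ^ a ≤ 2 * Z ^ a := by
  rcases T.eq_empty_or_nonempty with he | hne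
  · rw [he, Finset.sum_empty]
    positivity
  · have h1 := geoJ T a ha (T.max' hne) fun j hj => T.le_max' j hj
    have h2 := pow_le_pow_left₀ (by positivity) (h _ (T.max'_mem hne)) a
    linarith

theorem geoPn (T : InfinitePlace K → Finset ℤ) (Z : InfinitePlace K → ℝ) (a : ℕ) (ha : 1 ≤ a)
    (hZ : ∀ v, 0 ≤ Z v) (h : ∀ v, ∀ j ∈ T v, (2 : ℝ) ^ j ≤ Z v) :
    ∑ j ∈ Fintype.piFinset T, pn (fun v => (2 : ℝ) ^ j v) ^ a ≤ 2 ^ eK K * pn Z ^ a := by
  have h1 : ∀ j : InfinitePlace K → ℤ, pn (fun v => (2 : ℝ) ^ j v) ^ a =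
      ∏ v : InfinitePlace K, ((2 : ℝ) ^ j v) ^ (v.mult * a) := by
    intro j
    unfold pn
    rw [← Finset.prod_pow]
    exact Finset.prod_congr rfl fun v _ => (pow_mul _ _ _).symm
  have h2 : ∑ j ∈ Fintype.piFinset T, pn (fun v => (2 : ℝ) ^ j v) ^ a =
      ∏ v : InfinitePlace K, ∑ j ∈ T v, ((2 : ℝ) ^ j) ^ (v.mult * a) := by
    rw [Finset.prod_univ_sum]
    exact Finset.sum_congr rfl fun j _ => h1 j
  rw [h2]
  have h3 : ∏ v : InfinitePlace K, ∑ j ∈ T v, ((2 : ℝ) ^ j) ^ (v.mult * a) ≤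
      ∏ v : InfinitePlace K, (2 * Z v ^ (v.mult * a)) := by
    refine Finset.prod_le_prod (fun v _ => Finset.sum_nonneg fun j _ => by positivity)
      fun v _ => ?_
    have hm : 1 ≤ v.mult * a := Nat.mul_pos InfinitePlace.mult_pos ha
    exact geoZ (T v) (Z v) (hZ v) _ hm (h v)
  refine h3.trans ?_
  have h4 : ∏ v : InfinitePlace K, (2 * Z v ^ (v.mult * a)) =
      2 ^ Fintype.card (InfinitePlace K) * pn Z ^ a := by
    rw [Finset.prod_mul_distrib, Finset.prod_const, Finset.card_univ]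
    congr 1
    unfold pn
    rw [← Finset.prod_pow]
    exact Finset.prod_congr rfl fun v _ => pow_mul _ _ _
  rw [h4]
  exact mul_le_mul_of_nonneg_right (pow_le_pow_right₀ (by norm_num) card_places_le)
    (pow_nonneg (pn_nonneg hZ) _)

private theorem alg1 (n r s : ℕ) (hs : n = r + 2 + s) (C0 E Bq P N : ℝ) (hC0 : 0 ≤ C0)
    (hE : 0 ≤ E) (hBq : 0 ≤ Bq) (hP : 0 < P) (hN : 1 ≤ N) :
    C0 * Bq * (E * P / N) ^ n * (N / P) ^ r ≤
      C0 * E ^ n * Bq * (1 / N ^ 2 * P ^ (n - r)) := by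
  subst hs
  have hN0 : 0 < N := by linarith
  have e0 : r + 2 + s - r = s + 2 := by omega
  have hms : (1 : ℝ) ≤ N ^ s := one_le_pow₀ hN
  have e1 : C0 * Bq * (E * P / N) ^ (r + 2 + s) * (N / P) ^ r =
      C0 * E ^ (r + 2 + s) * Bq * (1 / N ^ 2 * P ^ (s + 2)) * (1 / N ^ s) := by
    rw [div_pow, div_pow, mul_pow]
    have e3 : N ^ (r + 2 + s) = N ^ r * N ^ 2 * N ^ s := by
      rw [pow_add, pow_add]
    have e4 : P ^ (r + 2 + s) = P ^ r * P ^ (s + 2) := by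
      rw [← pow_add]
      congr 1
      ring
    rw [e3, e4]
    have p1 : P ^ r ≠ 0 := by positivity
    have p2 : N ^ r ≠ 0 := by positivity
    have p4 : N ^ s ≠ 0 := by positivity
    generalize P ^ r = u1 at p1
    generalize N ^ r = u2 at p2
    generalize N ^ s = u8 at p4
    generalize P ^ (s + 2) = u4
    generalize E ^ (r + 2 + s) = u5
    field_simp
  rw [e1, e0]
  have h8 : (1 : ℝ) / N ^ s ≤ 1 := by
    rw [div_le_one (by positivity)]
    exact hms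
  exact mul_le_of_le_one_right (by positivity) h8

theorem beta (n r q : ℕ) (hn : r + 2 ≤ n) (hq : 1 ≤ q) : ∃ C : ℝ, 1 ≤ C ∧
    ∀ (B H w : ℕ) (Z : InfinitePlace K → ℝ) (o : Fin (n + 1)), 1 ≤ B → (∀ v, 0 ≤ Z v) →
    ∀ x ∈ GG K B H q o,
    ∑ y ∈ (GG K B H q o).filter (fun y => ¬ Prp x y ∧
        nD x y * (B : ℝ) ^ eK K < pn (Del o x y) ∧ (w : ℝ) < nD x y ∧ ∀ v, Del o x y v ≤ Z v),
      (nD x y / pn (Del o x y)) ^ r ≤
        C * (pn Z ^ (n - r) * ((B : ℝ) / (B : ℝ) ^ n) ^ eK K / (w + 1)) := by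
  obtain ⟨C0, hC0, hcnt⟩ := cntY (K := K) n q hq
  have hκ := CK_one_le K n
  have hC00 : 0 ≤ C0 := by linarith
  have h2e : (1 : ℝ) ≤ 2 ^ eK K := one_le_pow₀ (by norm_num)
  refine ⟨C0 * (2 ^ eK K) ^ n * (CK K n * 2 ^ eK K), ?_, ?_⟩
  · exact one_le_mul_of_one_le_of_one_le
      (one_le_mul_of_one_le_of_one_le hC0 (one_le_pow₀ h2e))
      (one_le_mul_of_one_le_of_one_le hκ h2e)
  intro B H w Z o hB hZ x hx
  have hB0 : (0 : ℝ) < B := by exact_mod_cast hB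
  have hxo := GG_ne hB hx
  set Y := (GG K B H q o).filter (fun y => ¬ Prp x y ∧
        nD x y * (B : ℝ) ^ eK K < pn (Del o x y) ∧ (w : ℝ) < nD x y ∧
        ∀ v, Del o x y v ≤ Z v) with hY
  have hYmem : ∀ y, y ∈ Y ↔ y ∈ GG K B H q o ∧ ¬ Prp x y ∧
        nD x y * (B : ℝ) ^ eK K < pn (Del o x y) ∧ (w : ℝ) < nD x y ∧
        ∀ v, Del o x y v ≤ Z v := fun y => by rw [hY, Finset.mem_filter]
  set Bq : ℝ := ((B : ℝ) / (B : ℝ) ^ n) ^ eK K with hBq
  have hBq0 : 0 ≤ Bq := by positivity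
  set K0 : ℝ := C0 * (2 ^ eK K) ^ n * Bq with hK0
  have hK0pos : 0 ≤ K0 := by positivity
  let SI : Finset (Ideal (𝓞 K)) := Y.image fun y => Dd x y
  let SJ : InfinitePlace K → Finset ℤ := fun v => Y.image fun y => jv (Del o x y) v
  have hmaps : ∀ y ∈ Y, (fun y => (Dd x y, jv (Del o x y))) y ∈ SI ×ˢ Fintype.piFinset SJ := by
    intro y hy
    rw [Finset.mem_product, Fintype.mem_piFinset]
    exact ⟨Finset.mem_image_of_mem _ hy,
      fun v => Finset.mem_image_of_mem (fun y => jv (Del o x y) v) hy⟩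
  rw [← Finset.sum_fiberwise_of_maps_to hmaps]
  have hfib : ∀ p ∈ SI ×ˢ Fintype.piFinset SJ,
      ∑ y ∈ Y.filter (fun y => (Dd x y, jv (Del o x y)) = p),
        (nD x y / pn (Del o x y)) ^ r ≤
      K0 * ((1 / (Ideal.absNorm p.1 : ℝ) ^ 2) * pn (fun v => (2 : ℝ) ^ p.2 v) ^ (n - r)) := by
    rintro ⟨I, j⟩ _
    simp only
    rcases (Y.filter (fun y => (Dd x y, jv (Del o x y)) = (I, j))).eq_empty_or_nonempty
      with he | ⟨y0, hy0⟩
    · rw [he, Finset.sum_empty]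
      have : 0 ≤ pn (fun v => (2 : ℝ) ^ j v) := pn_nonneg fun v => by positivity
      positivity
    · have hP0 : 0 < pn (fun v => (2 : ℝ) ^ j v) := pn_pos fun v => by positivity
      have hfacts : ∀ y ∈ Y.filter (fun y => (Dd x y, jv (Del o x y)) = (I, j)),
          y ∈ GG K B H q o ∧ ¬ Prp x y ∧ Dd x y = I ∧
            (Ideal.absNorm I : ℝ) * (B : ℝ) ^ eK K < pn (Del o x y) ∧
            (∀ v, (2 : ℝ) ^ j v ≤ Del o x y v) ∧ ∀ v, Del o x y v ≤ 2 * (2 : ℝ) ^ j v := by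
        intro y hy
        rw [Finset.mem_filter, Prod.mk.injEq] at hy
        obtain ⟨hyY, hyD, hyL⟩ := hy
        obtain ⟨hyG, hyx, h1, h2, h3⟩ := (hYmem y).mp hyY
        refine ⟨hyG, hyx, hyD, ?_, ?_, ?_⟩
        · rw [← hyD]
          exact h1
        · intro v
          rw [← hyL]
          exact jv_le (Del_pos hxo hyx v)
        · intro v
          rw [← hyL]
          exact (lt_jv v).le
      obtain ⟨g1, g2, g3, g4, g5, g6⟩ := hfacts y0 hy0
      have hI : I ≠ ⊥ := by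
        rw [← g3]
        exact Dd_ne_bot g2
      have hN1 : (1 : ℝ) ≤ Ideal.absNorm I := one_le_absNorm hI
      have hN0 : (0 : ℝ) < Ideal.absNorm I := by linarith
      have hpd : pn (fun v => 2 * (2 : ℝ) ^ j v) = 2 ^ eK K * pn (fun v => (2 : ℝ) ^ j v) :=
        pn_const_mul _ _
      have hDpn : pn (Del o x y0) ≤ pn (fun v => 2 * (2 : ℝ) ^ j v) :=
        pn_mono (fun v => Del_nonneg o x y0 v) g6
      have hDB : pn (Del o x y0) ≤ (2 * (B : ℝ)) ^ eK K * (B : ℝ) ^ eK K := by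
        have h1 : pn (Del o x y0) ≤ pn (fun _ : InfinitePlace K => 2 * (B : ℝ) ^ 2) :=
          pn_mono (fun v => Del_nonneg o x y0 v) fun v => Del_le hx g1 v
        rw [pn_const] at h1
        refine h1.trans (le_of_eq ?_)
        rw [← mul_pow]
        congr 1
        ring
      have hNB : (Ideal.absNorm I : ℝ) ≤ (2 * B) ^ eK K := by
        have h1 : (Ideal.absNorm I : ℝ) * (B : ℝ) ^ eK K < (2 * (B : ℝ)) ^ eK K * (B : ℝ) ^ eK K :=
          lt_of_lt_of_le g4 hDB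
        exact (lt_of_mul_lt_mul_right h1 (by positivity)).le
      have hcard := hcnt B H o hB x hx I (fun v => 2 * (2 : ℝ) ^ j v) hI
        (fun v => by positivity) hNB (g4.le.trans hDpn)
      have hsub : Y.filter (fun y => (Dd x y, jv (Del o x y)) = (I, j)) ⊆
          (VBox K n B).filter fun y => (∀ i j, mn x y i j ∈ I) ∧
            ∀ v, Del o x y v ≤ 2 * (2 : ℝ) ^ j v := by
        intro y hy
        obtain ⟨k1, k2, k3, k4, k5, k6⟩ := hfacts y hy
        rw [Finset.mem_filter]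
        refine ⟨(Finset.mem_filter.1 k1).1, ?_, k6⟩
        intro i j'
        rw [← k3]
        exact mn_mem_Dd x y i j'
      have hcard2 : ((Y.filter (fun y => (Dd x y, jv (Del o x y)) = (I, j))).card : ℝ) ≤
          C0 * Bq * (2 ^ eK K * pn (fun v => (2 : ℝ) ^ j v) / Ideal.absNorm I) ^ n := by
        refine (Nat.cast_le.mpr (Finset.card_le_card hsub)).trans (hcard.trans (le_of_eq ?_))
        rw [hpd]
      have hterm : ∀ y ∈ Y.filter (fun y => (Dd x y, jv (Del o x y)) = (I, j)),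
          (nD x y / pn (Del o x y)) ^ r ≤
            ((Ideal.absNorm I : ℝ) / pn (fun v => (2 : ℝ) ^ j v)) ^ r := by
        intro y hy
        obtain ⟨k1, k2, k3, k4, k5, k6⟩ := hfacts y hy
        unfold nD
        rw [k3]
        have k7 : pn (fun v => (2 : ℝ) ^ j v) ≤ pn (Del o x y) :=
          pn_mono (fun v => by positivity) k5
        have k8 : 0 < pn (Del o x y) := lt_of_lt_of_le hP0 k7
        refine pow_le_pow_left₀ (by positivity) ?_ r
        exact div_le_div_of_nonneg_left hN0.le hP0 k7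
      refine (Finset.sum_le_card_nsmul _ _ _ hterm).trans ?_
      rw [nsmul_eq_mul]
      refine (mul_le_mul_of_nonneg_right hcard2 (by positivity)).trans ?_
      exact alg1 n r (n - (r + 2)) (by omega) C0 (2 ^ eK K) Bq _ _ hC00 (by positivity) hBq0 hP0
        hN1
  refine (Finset.sum_le_sum hfib).trans ?_
  rw [← Finset.mul_sum, Finset.sum_product]
  have e5 : ∑ I ∈ SI, ∑ j ∈ Fintype.piFinset SJ,
      1 / (Ideal.absNorm I : ℝ) ^ 2 * pn (fun v => (2 : ℝ) ^ j v) ^ (n - r) =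
      (∑ I ∈ SI, 1 / (Ideal.absNorm I : ℝ) ^ 2) *
        ∑ j ∈ Fintype.piFinset SJ, pn (fun v => (2 : ℝ) ^ j v) ^ (n - r) := by
    rw [Finset.sum_mul]
    refine Finset.sum_congr rfl fun I _ => ?_
    rw [Finset.mul_sum]
  rw [e5]
  have h10 : ∑ I ∈ SI, 1 / (Ideal.absNorm I : ℝ) ^ 2 ≤ CK K n / (w + 1) := by
    refine idTail n w SI fun I hI => ?_
    obtain ⟨y, hy, rfl⟩ := Finset.mem_image.1 hI
    exact ((hYmem y).1 hy).2.2.2.1
  have h11 : ∑ j ∈ Fintype.piFinset SJ, pn (fun v => (2 : ℝ) ^ j v) ^ (n - r) ≤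
      2 ^ eK K * pn Z ^ (n - r) := by
    refine geoPn SJ Z (n - r) (by omega) hZ fun v j hj => ?_
    obtain ⟨y, hy, rfl⟩ := Finset.mem_image.1 hj
    obtain ⟨hyG, hyx, h1, h2, h3⟩ := (hYmem y).mp hy
    exact (jv_le (Del_pos hxo hyx v)).trans (h3 v)
  have h15 : 0 ≤ ∑ j ∈ Fintype.piFinset SJ, pn (fun v => (2 : ℝ) ^ j v) ^ (n - r) :=
    Finset.sum_nonneg fun j _ => pow_nonneg (pn_nonneg fun v => by positivity) _
  have hκ0 : 0 ≤ CK K n := by linarith
  have h16 := mul_le_mul h10 h11 h15 (by positivity)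
  refine (mul_le_mul_of_nonneg_left h16 hK0pos).trans (le_of_eq ?_)
  rw [hK0]
  ring

end Pool.Agent.Lib.MP_1ad228_ntN
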