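import Pool.Agent.Lib.MP_1ad228_ntN.NB_Em

/-!
(B4) Number of ideals of bounded norm, tail of the zeta function at two.
-/

namespace Pool.Agent.Lib.MP_1ad228_ntN

open NumberField Classical

set_option linter.unusedSectionVars false

section ideals
variable (K : Type) [Field K] [NumberField K]

theorem idealCount : ∃ C : ℝ, 1 ≤ C ∧ ∀ X : ℝ, 1 ≤ X → ∀ S : Finset (Ideal (𝓞 K)),
    (∀ I ∈ S, (Ideal.absNorm I : ℝ) ≤ X) → (S.card : ℝ) ≤ C * X := by
  have h := NumberField.Ideal.tendsto_norm_le_div_atTop K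
  set L := (2 ^ InfinitePlace.nrRealPlaces K * (2 * Real.pi) ^ InfinitePlace.nrComplexPlaces K *
    Units.regulator K * classNumber K) /
        (Units.torsionOrder K * Real.sqrt |(discr K : ℝ)|) with hL
  have h1 := (h.eventually (gt_mem_nhds (show L < L + 1 by linarith))).and
    (Filter.eventually_ge_atTop (1 : ℝ))
  obtain ⟨X0, hX0⟩ := Filter.eventually_atTop.1 h1
  have hfin : ∀ X : ℝ, {I : Ideal (𝓞 K) | (Ideal.absNorm I : ℝ) ≤ X}.Finite := by
    intro X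
    by_cases hX : 0 ≤ X
    · have h2 := Ideal.finite_setOfPred_absNorm_le (S := 𝓞 K) ⌊X⌋₊
      refine h2.subset fun I hI => ?_
      exact (Nat.le_floor_iff hX).2 hI
    · refine Set.Finite.subset (Set.finite_empty) fun I hI => ?_
      exact hX (le_trans (Nat.cast_nonneg _) hI)
  have hcard : ∀ X : ℝ, ∀ S : Finset (Ideal (𝓞 K)), (∀ I ∈ S, (Ideal.absNorm I : ℝ) ≤ X) →
      S.card ≤ Nat.card {I : Ideal (𝓞 K) // (Ideal.absNorm I : ℝ) ≤ X} := by
    intro X S hS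
    have h2 := Set.ncard_le_ncard (s := (S : Set (Ideal (𝓞 K))))
      (t := {I : Ideal (𝓞 K) | (Ideal.absNorm I : ℝ) ≤ X}) (fun I hI => hS I hI) (hfin X)
    rw [Set.ncard_coe_finset] at h2
    exact h2
  obtain ⟨h0, hX1⟩ := hX0 X0 le_rfl
  have hL1 : 0 < L + 1 := by
    have : 0 ≤ (Nat.card {I : Ideal (𝓞 K) // (Ideal.absNorm I : ℝ) ≤ X0} : ℝ) / X0 := by
      positivity
    linarith
  refine ⟨max 1 ((L + 1) * X0), le_max_left _ _, fun X hX S hS => ?_⟩
  have hbig : ∀ Y : ℝ, X0 ≤ Y →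
      (Nat.card {I : Ideal (𝓞 K) // (Ideal.absNorm I : ℝ) ≤ Y} : ℝ) ≤ (L + 1) * Y := by
    intro Y hY
    have h2 := (hX0 Y hY).1
    have hY0 : 0 < Y := by linarith
    rw [div_lt_iff₀ hY0] at h2
    exact h2.le
  by_cases hXX : X0 ≤ X
  · calc (S.card : ℝ) ≤ (Nat.card {I : Ideal (𝓞 K) // (Ideal.absNorm I : ℝ) ≤ X} : ℝ) := by
          exact_mod_cast hcard X S hS
      _ ≤ (L + 1) * X := hbig X hXX
      _ ≤ ((L + 1) * X0) * X := by nlinarith [mul_pos hL1 (by linarith : (0 : ℝ) < X)]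
      _ ≤ max 1 ((L + 1) * X0) * X := by
          exact mul_le_mul_of_nonneg_right (le_max_right _ _) (by linarith)
  · calc (S.card : ℝ) ≤ (Nat.card {I : Ideal (𝓞 K) // (Ideal.absNorm I : ℝ) ≤ X0} : ℝ) := by
          have := hcard X0 S fun I hI => (hS I hI).trans (not_le.1 hXX).le
          exact_mod_cast this
      _ ≤ (L + 1) * X0 := hbig X0 le_rfl
      _ ≤ ((L + 1) * X0) * X := by nlinarith [mul_pos hL1 (by linarith : (0 : ℝ) < X0)]
      _ ≤ max 1 ((L + 1) * X0) * X := by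
          exact mul_le_mul_of_nonneg_right (le_max_right _ _) (by linarith)

/-- Finite sets of ideals with norms larger than `w`. -/
theorem idealTail : ∃ C : ℝ, 1 ≤ C ∧ ∀ (w : ℕ) (S : Finset (Ideal (𝓞 K))),
    (∀ I ∈ S, (w : ℝ) < Ideal.absNorm I) →
    ∑ I ∈ S, 1 / (Ideal.absNorm I : ℝ) ^ 2 ≤ C / (w + 1) := by
  obtain ⟨C, hC1, hC⟩ := idealCount K
  refine ⟨4 * C, by linarith, fun w S hS => ?_⟩
  -- dyadic classes
  let j : Ideal (𝓞 K) → ℕ := fun I => Nat.log 2 (Ideal.absNorm I / (w + 1))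
  have hw0 : (0 : ℝ) < w + 1 := by positivity
  have hS1 : ∀ I ∈ S, w + 1 ≤ Ideal.absNorm I := fun I hI => by exact_mod_cast hS I hI
  have hlow : ∀ I ∈ S, (2 : ℝ) ^ j I * (w + 1) ≤ Ideal.absNorm I := by
    intro I hI
    have h1 : Ideal.absNorm I / (w + 1) ≠ 0 := by
      have := Nat.div_pos (hS1 I hI) (Nat.succ_pos w)
      exact this.ne'
    have h2 : 2 ^ j I ≤ Ideal.absNorm I / (w + 1) := Nat.pow_log_le_self 2 h1
    have h3 : 2 ^ j I * (w + 1) ≤ Ideal.absNorm I :=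
      (Nat.mul_le_mul_right _ h2).trans (Nat.div_mul_le_self _ _)
    exact_mod_cast h3
  have hup : ∀ I ∈ S, (Ideal.absNorm I : ℝ) ≤ 2 * 2 ^ j I * (w + 1) := by
    intro I hI
    have h2 : Ideal.absNorm I / (w + 1) < 2 ^ (j I + 1) := Nat.lt_pow_succ_log_self (by norm_num) _
    have h3 : Ideal.absNorm I < 2 ^ (j I + 1) * (w + 1) :=
      (Nat.div_lt_iff_lt_mul (Nat.succ_pos w)).1 h2
    have h4 : (Ideal.absNorm I : ℝ) < 2 ^ (j I + 1) * (w + 1) := by exact_mod_cast h3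
    rw [pow_succ] at h4
    linarith
  let J : ℕ := S.sup j + 1
  have hJ : ∀ I ∈ S, j I ∈ Finset.range J := fun I hI =>
    Finset.mem_range.2 (Nat.lt_succ_of_le (Finset.le_sup hI))
  have hsplit : ∑ I ∈ S, 1 / (Ideal.absNorm I : ℝ) ^ 2 =
      ∑ i ∈ Finset.range J, ∑ I ∈ S.filter (fun I => j I = i), 1 / (Ideal.absNorm I : ℝ) ^ 2 :=
    (Finset.sum_fiberwise_of_maps_to hJ _).symm
  rw [hsplit]
  have hone : ∀ i ∈ Finset.range J,
      ∑ I ∈ S.filter (fun I => j I = i), 1 / (Ideal.absNorm I : ℝ) ^ 2 ≤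
        (2 * C / (w + 1)) * (1 / 2) ^ i := by
    intro i _
    have h1 : ∀ I ∈ S.filter (fun I => j I = i), 1 / (Ideal.absNorm I : ℝ) ^ 2 ≤
        1 / ((2 : ℝ) ^ i * (w + 1)) ^ 2 := by
      intro I hI
      obtain ⟨hI1, hI2⟩ := Finset.mem_filter.1 hI
      have h2 := hlow I hI1
      rw [hI2] at h2
      have h3 : 0 < (2 : ℝ) ^ i * (w + 1) := by positivity
      gcongr
    have h4 : ((S.filter (fun I => j I = i)).card : ℝ) ≤ C * (2 * 2 ^ i * (w + 1)) := by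
      refine hC _ ?_ _ fun I hI => ?_
      · have h5 : (1 : ℝ) ≤ 2 ^ i := one_le_pow₀ (by norm_num)
        have h6 : (0 : ℝ) ≤ w := Nat.cast_nonneg w
        nlinarith
      · obtain ⟨hI1, hI2⟩ := Finset.mem_filter.1 hI
        have h2 := hup I hI1
        rwa [hI2] at h2
    calc _ ≤ ∑ I ∈ S.filter (fun I => j I = i), 1 / ((2 : ℝ) ^ i * (w + 1)) ^ 2 :=
          Finset.sum_le_sum h1
      _ = ((S.filter (fun I => j I = i)).card : ℝ) * (1 / ((2 : ℝ) ^ i * (w + 1)) ^ 2) := by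
          rw [Finset.sum_const, nsmul_eq_mul]
      _ ≤ C * (2 * 2 ^ i * (w + 1)) * (1 / ((2 : ℝ) ^ i * (w + 1)) ^ 2) :=
          mul_le_mul_of_nonneg_right h4 (by positivity)
      _ = (2 * C / (w + 1)) * (1 / 2) ^ i := by
          have h5 : (2 : ℝ) ^ i ≠ 0 := by positivity
          rw [one_div, one_div, inv_pow]
          field_simp
  refine (Finset.sum_le_sum hone).trans ?_
  rw [← Finset.mul_sum]
  have hgeo : ∑ i ∈ Finset.range J, (1 / 2 : ℝ) ^ i ≤ 2 := by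
    have h1 := geom_sum_eq (show (1 / 2 : ℝ) ≠ 1 by norm_num) J
    rw [h1]
    have h2 : (0 : ℝ) ≤ (1 / 2) ^ J := by positivity
    rw [div_le_iff_of_neg (by norm_num)]
    linarith
  calc 2 * C / (w + 1) * ∑ i ∈ Finset.range J, (1 / 2 : ℝ) ^ i ≤ 2 * C / (w + 1) * 2 :=
        mul_le_mul_of_nonneg_left hgeo (by positivity)
    _ = 4 * C / (w + 1) := by ring

end ideals

end Pool.Agent.Lib.MP_1ad228_ntN
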