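import Pool.Agent.Lib.MP_1ad228_ntN.NB_Up

/-!
(B5) Dyadic cells of absolute values; sum of inverse norms over a box.
-/

namespace Pool.Agent.Lib.MP_1ad228_ntN

open NumberField Classical

set_option linter.unusedSectionVars false

section log
variable (K : Type) [Field K] [NumberField K]

/-- Dyadic exponent vectors. -/
noncomputable def JJ (R : ℕ) : Finset (InfinitePlace K → ℤ) :=
  Fintype.piFinset fun _ =>
    Finset.Icc (-((eK K * (Nat.log 2 R + 1) + 1 : ℕ) : ℤ)) ((Nat.log 2 R : ℕ) : ℤ)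

variable {K}

/-- Dyadic exponents of a vector of positive numbers. -/
noncomputable def jv (D : InfinitePlace K → ℝ) : InfinitePlace K → ℤ := fun v => Int.log 2 (D v)

theorem jv_le {D : InfinitePlace K → ℝ} {v : InfinitePlace K} (h : 0 < D v) :
    (2 : ℝ) ^ (jv D v) ≤ D v := by
  have := Int.zpow_log_le_self (b := 2) (by norm_num) h
  simpa [jv] using this

theorem lt_jv {D : InfinitePlace K → ℝ} (v : InfinitePlace K) :
    D v < 2 * (2 : ℝ) ^ (jv D v) := by
  have := Int.lt_zpow_succ_log_self (b := 2) (by norm_num) (D v)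
  have h2 : ((2 : ℕ) : ℝ) ^ (Int.log 2 (D v) + 1) = 2 * (2 : ℝ) ^ (Int.log 2 (D v)) := by
    rw [zpow_add₀ (by norm_num)]
    push_cast
    ring
  rw [h2] at this
  exact this

theorem sum_mult' : ∑ v : InfinitePlace K, v.mult = eK K := InfinitePlace.sum_mult_eq

theorem card_places_le : Fintype.card (InfinitePlace K) ≤ eK K := by
  have h := sum_mult' (K := K)
  calc Fintype.card (InfinitePlace K) = ∑ v : InfinitePlace K, 1 := by simp
    _ ≤ ∑ v : InfinitePlace K, v.mult := Finset.sum_le_sum fun v _ => InfinitePlace.mult_pos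
    _ = eK K := h

/-- Lower bound of one factor if the product is at least one. -/
theorem low_factor {R : ℝ} (hR : 1 ≤ R) {D : InfinitePlace K → ℝ} (h0 : ∀ v, 0 < D v)
    (h : ∀ v, D v ≤ R) (h1 : 1 ≤ pn D) (v : InfinitePlace K) : 1 ≤ R ^ eK K * D v := by
  have hRe : 1 ≤ R ^ eK K := one_le_pow₀ hR
  by_cases hv : 1 ≤ D v
  · nlinarith
  · have hv' := (not_le.1 hv).le
    have h2 : pn D = D v ^ v.mult * ∏ w ∈ Finset.univ.erase v, D w ^ w.mult :=
      (Finset.mul_prod_erase _ _ (Finset.mem_univ v)).symm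
    have h3 : ∏ w ∈ Finset.univ.erase v, D w ^ w.mult ≤ R ^ eK K := by
      calc ∏ w ∈ Finset.univ.erase v, D w ^ w.mult ≤ ∏ w ∈ Finset.univ.erase v, R ^ w.mult :=
            Finset.prod_le_prod (fun w _ => pow_nonneg (h0 w).le _)
              (fun w _ => pow_le_pow_left₀ (h0 w).le (h w) _)
        _ = R ^ (∑ w ∈ Finset.univ.erase v, w.mult) := Finset.prod_pow_eq_pow_sum _ _ _
        _ ≤ R ^ eK K := by
            refine pow_le_pow_right₀ hR ?_
            rw [← sum_mult' (K := K)]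
            exact Finset.sum_le_sum_of_subset (Finset.erase_subset _ _)
    have h4 : D v ^ v.mult ≤ D v := by
      have := pow_le_pow_of_le_one (h0 v).le hv' (show 1 ≤ v.mult from InfinitePlace.mult_pos)
      simpa using this
    have h5 : (0 : ℝ) ≤ ∏ w ∈ Finset.univ.erase v, D w ^ w.mult :=
      Finset.prod_nonneg fun w _ => pow_nonneg (h0 w).le _
    calc (1 : ℝ) ≤ D v ^ v.mult * ∏ w ∈ Finset.univ.erase v, D w ^ w.mult := by rw [← h2]; exact h1
      _ ≤ D v * R ^ eK K := mul_le_mul h4 h3 h5 (h0 v).le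
      _ = R ^ eK K * D v := mul_comm _ _

theorem mem_JJ {R : ℕ} (hR : 1 ≤ R) {D : InfinitePlace K → ℝ} (h0 : ∀ v, 0 < D v)
    (h : ∀ v, D v ≤ R) (h1 : 1 ≤ pn D) : jv D ∈ JJ K R := by
  rw [JJ, Fintype.mem_piFinset]
  intro v
  have hR1 : (1 : ℝ) ≤ R := by exact_mod_cast hR
  have hRlog : (R : ℝ) < 2 ^ (Nat.log 2 R + 1) := by
    exact_mod_cast Nat.lt_pow_succ_log_self (by norm_num) R
  rw [Finset.mem_Icc]
  constructor
  · by_contra hcon
    push Not at hcon
    have h2 := low_factor hR1 h0 h h1 v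
    have h3 := lt_jv (D := D) v
    have h4 : (jv D v + 1 : ℤ) ≤ -((eK K * (Nat.log 2 R + 1) : ℕ) : ℤ) := by
      push_cast at hcon ⊢
      linarith
    have h5 : (2 : ℝ) * 2 ^ (jv D v) = 2 ^ (jv D v + 1) := by
      rw [zpow_add₀ (by norm_num)]
      ring
    have h6 : (2 : ℝ) ^ (jv D v + 1) ≤ 2 ^ (-((eK K * (Nat.log 2 R + 1) : ℕ) : ℤ)) :=
      zpow_le_zpow_right₀ (by norm_num) h4
    have h7 : (2 : ℝ) ^ (-((eK K * (Nat.log 2 R + 1) : ℕ) : ℤ)) =
        1 / (2 ^ (Nat.log 2 R + 1)) ^ eK K := by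
      rw [zpow_neg, zpow_natCast, one_div, mul_comm, pow_mul]
    have h8 : (R : ℝ) ^ eK K ≤ (2 ^ (Nat.log 2 R + 1)) ^ eK K :=
      pow_le_pow_left₀ (by linarith) hRlog.le _
    have h9 : (0 : ℝ) < (2 ^ (Nat.log 2 R + 1)) ^ eK K := by positivity
    have h10 : D v < 1 / (2 ^ (Nat.log 2 R + 1)) ^ eK K := by
      rw [← h7]
      exact lt_of_lt_of_le (h5 ▸ h3) h6
    rw [lt_div_iff₀ h9] at h10
    have h11 : (R : ℝ) ^ eK K * D v ≤ (2 ^ (Nat.log 2 R + 1)) ^ eK K * D v :=
      mul_le_mul_of_nonneg_right h8 (h0 v).le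
    linarith
  · have h2 := jv_le (h0 v)
    have h3 : (2 : ℝ) ^ (jv D v) < 2 ^ ((Nat.log 2 R + 1 : ℕ) : ℤ) := by
      rw [zpow_natCast]
      exact lt_of_le_of_lt (h2.trans (h v)) hRlog
    have h4 := (zpow_lt_zpow_iff_right₀ (by norm_num)).1 h3
    push_cast at h4
    omega

variable (K) in
theorem card_JJ (R : ℕ) :
    ((JJ K R).card : ℝ) ≤ ((eK K + 1) * ((Nat.log 2 R : ℝ) + 2)) ^ eK K := by
  have h1 : (JJ K R).card = (eK K * (Nat.log 2 R + 1) + 1 + Nat.log 2 R + 1) ^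
      Fintype.card (InfinitePlace K) := by
    rw [JJ, Fintype.card_piFinset, Finset.prod_const, Finset.card_univ, Int.card_Icc]
    congr 1
    generalize eK K * (Nat.log 2 R + 1) = a
    generalize Nat.log 2 R = b
    push_cast
    omega
  have h2 : (JJ K R).card ≤ (eK K * (Nat.log 2 R + 1) + 1 + Nat.log 2 R + 1) ^ eK K := by
    rw [h1]
    exact Nat.pow_le_pow_right (Nat.succ_pos _) card_places_le
  calc ((JJ K R).card : ℝ) ≤ ((eK K * (Nat.log 2 R + 1) + 1 + Nat.log 2 R + 1 : ℕ) : ℝ) ^ eK K := by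
        exact_mod_cast h2
    _ ≤ ((eK K + 1) * ((Nat.log 2 R : ℝ) + 2)) ^ eK K := by
        refine pow_le_pow_left₀ (Nat.cast_nonneg _) ?_ _
        push_cast
        have h3 : (0 : ℝ) ≤ eK K := Nat.cast_nonneg _
        nlinarith

theorem pn_two_zpow_le {D : InfinitePlace K → ℝ} (h0 : ∀ v, 0 < D v) :
    pn (fun v => (2 : ℝ) ^ jv D v) ≤ pn D :=
  pn_mono (fun v => by positivity) fun v => jv_le (h0 v)

variable (K) in
/-- Sum of the inverse norms of the nonzero elements of a box. -/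
theorem logSum : ∃ C : ℝ, 1 ≤ C ∧ ∀ R : ℕ, 1 ≤ R →
    ∑ z ∈ (OBox K R).filter (fun z => z ≠ 0), 1 / pn (fun v : InfinitePlace K => v (z : K)) ≤
      C * ((Nat.log 2 R : ℝ) + 2) ^ eK K := by
  refine ⟨16 ^ eK K * (1 + 4 ^ eK K) * (eK K + 1) ^ eK K, ?_, fun R hR => ?_⟩
  · have h1 : (1 : ℝ) ≤ 16 ^ eK K := one_le_pow₀ (by norm_num)
    have h2 : (0 : ℝ) < 4 ^ eK K := by positivity
    have h3 : (1 : ℝ) ≤ ((eK K : ℝ) + 1) ^ eK K := one_le_pow₀ (by linarith [Nat.cast_nonneg (α := ℝ) (eK K)])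
    have h4 : (1 : ℝ) ≤ 16 ^ eK K * (1 + 4 ^ eK K) := by nlinarith
    nlinarith
  let T := (OBox K R).filter (fun z => z ≠ 0)
  let D : 𝓞 K → InfinitePlace K → ℝ := fun z v => v (z : K)
  have hT : ∀ z ∈ T, z ≠ 0 ∧ ∀ v : InfinitePlace K, v (z : K) ≤ R := fun z hz => by
    obtain ⟨h1, h2⟩ := Finset.mem_filter.1 hz
    exact ⟨h2, mem_OBox.1 h1⟩
  have hD0 : ∀ z ∈ T, ∀ v, 0 < D z v := fun z hz v =>
    v_pos v (by simpa using (hT z hz).1)
  have hmaps : ∀ z ∈ T, jv (D z) ∈ JJ K R := fun z hz =>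
    mem_JJ hR (hD0 z hz) (hT z hz).2 (one_le_pn (hT z hz).1)
  have hsplit : ∑ z ∈ T, 1 / pn (fun v : InfinitePlace K => v (z : K)) =
      ∑ j ∈ JJ K R, ∑ z ∈ T.filter (fun z => jv (D z) = j),
        1 / pn (fun v : InfinitePlace K => v (z : K)) :=
    (Finset.sum_fiberwise_of_maps_to hmaps _).symm
  have hone : ∀ j ∈ JJ K R, ∑ z ∈ T.filter (fun z => jv (D z) = j),
      1 / pn (fun v : InfinitePlace K => v (z : K)) ≤ 16 ^ eK K * (1 + 4 ^ eK K) := by
    intro j _
    set p : ℝ := pn (fun v => (2 : ℝ) ^ j v) with hp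
    have hp0 : 0 < p := pn_pos fun v => by positivity
    have hz : ∀ z ∈ T.filter (fun z => jv (D z) = j),
        1 / pn (fun v : InfinitePlace K => v (z : K)) ≤ 1 / max 1 p := by
      intro z hz
      obtain ⟨h1, h2⟩ := Finset.mem_filter.1 hz
      have h3 : max 1 p ≤ pn (fun v : InfinitePlace K => v (z : K)) := by
        refine max_le (one_le_pn (hT z h1).1) ?_
        have := pn_two_zpow_le (hD0 z h1)
        rw [h2] at this
        exact this
      have h4 : 0 < max 1 p := lt_max_of_lt_left one_pos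
      exact one_div_le_one_div_of_le h4 h3
    have hcard : ((T.filter (fun z => jv (D z) = j)).card : ℝ) ≤
        16 ^ eK K * (1 + 4 ^ eK K * p) := by
      have h1 := up (T.filter (fun z => jv (D z) = j)) ⊤ top_ne_bot
        (fun v => 4 * (2 : ℝ) ^ j v) (fun v => by positivity) (fun z hz w hw => ?_)
      · rw [Ideal.absNorm_top, Nat.cast_one, div_one, pn_const_mul] at h1
        exact h1
      · refine ⟨trivial, fun v => ?_⟩
        obtain ⟨h1, h2⟩ := Finset.mem_filter.1 hz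
        obtain ⟨h3, h4⟩ := Finset.mem_filter.1 hw
        have h5 := lt_jv (D := D z) v
        have h6 := lt_jv (D := D w) v
        rw [h2] at h5
        rw [h4] at h6
        have h7 := v_sub_le v (z : K) (w : K)
        have h8 : v ((z - w : 𝓞 K) : K) = v ((z : K) - (w : K)) := by simp
        rw [h8]
        have h9 : D z v = v (z : K) := rfl
        have h10 : D w v = v (w : K) := rfl
        linarith
    calc _ ≤ ∑ z ∈ T.filter (fun z => jv (D z) = j), 1 / max 1 p := Finset.sum_le_sum hz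
      _ = ((T.filter (fun z => jv (D z) = j)).card : ℝ) * (1 / max 1 p) := by
          rw [Finset.sum_const, nsmul_eq_mul]
      _ ≤ (16 ^ eK K * (1 + 4 ^ eK K * p)) * (1 / max 1 p) :=
          mul_le_mul_of_nonneg_right hcard (by positivity)
      _ ≤ 16 ^ eK K * (1 + 4 ^ eK K) := by
          rw [mul_one_div, div_le_iff₀ (lt_max_of_lt_left one_pos), mul_assoc]
          refine mul_le_mul_of_nonneg_left ?_ (by positivity)
          have h1 : (1 : ℝ) ≤ max 1 p := le_max_left _ _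
          have h2 : p ≤ max 1 p := le_max_right _ _
          have h3 : (0 : ℝ) < 4 ^ eK K := by positivity
          nlinarith
  calc _ = ∑ j ∈ JJ K R, ∑ z ∈ T.filter (fun z => jv (D z) = j),
        1 / pn (fun v : InfinitePlace K => v (z : K)) := hsplit
    _ ≤ ∑ j ∈ JJ K R, 16 ^ eK K * (1 + 4 ^ eK K) := Finset.sum_le_sum hone
    _ = ((JJ K R).card : ℝ) * (16 ^ eK K * (1 + 4 ^ eK K)) := by
        rw [Finset.sum_const, nsmul_eq_mul]
    _ ≤ ((eK K + 1) * ((Nat.log 2 R : ℝ) + 2)) ^ eK K * (16 ^ eK K * (1 + 4 ^ eK K)) :=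
        mul_le_mul_of_nonneg_right (card_JJ K R) (by positivity)
    _ = 16 ^ eK K * (1 + 4 ^ eK K) * (eK K + 1) ^ eK K * ((Nat.log 2 R : ℝ) + 2) ^ eK K := by
        rw [mul_pow]
        ring

end log

end Pool.Agent.Lib.MP_1ad228_ntN
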