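import Pool.Agent.Lib.MP_1ad228_ntN.NB_Low
import Pool.Agent.Lib.MP_1ad228_ntN.NB_Bal
import Pool.Agent.Lib.MP_1ad228_ntN.NB_Ideals
import Pool.Agent.Lib.MP_1ad228_ntN.NB_Log

/-!
One constant `CK K n` for all base lemmas.
-/

namespace Pool.Agent.Lib.MP_1ad228_ntN

open NumberField Classical

set_option linter.unusedSectionVars false

section const
variable (K : Type) [Field K] [NumberField K]

theorem exCK (n : ℕ) : ∃ C : ℝ, 1 ≤ C ∧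
    (∀ (v : InfinitePlace K) (u : Fin (eK K) → ℝ) (X : ℝ), (∀ i, |u i| ≤ X) →
      ‖tv v u‖ ≤ C * X) ∧
    (∀ (u : Fin (eK K) → ℝ) (X : ℝ), (∀ v : InfinitePlace K, ‖tv v u‖ ≤ X) →
      ∀ i, |u i| ≤ C * X) ∧
    (∀ c : InfinitePlace K → ℂ, (∀ v, c v ∈ KK v) →
      ∃ z : 𝓞 K, ∀ v : InfinitePlace K, ‖em v z - c v‖ ≤ C) ∧
    (∀ t : K, ∃ z : 𝓞 K, ∀ v : InfinitePlace K, v (t - (z : K)) ≤ C) ∧
    (∀ X : ℝ, 1 ≤ X → X ^ eK K ≤ C * ((OBox K X).card : ℝ)) ∧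
    (∀ X : ℝ, 1 ≤ X → ((OBox K X).card : ℝ) ≤ C * X ^ eK K) ∧
    (∀ (S : Finset (𝓞 K)) (I : Ideal (𝓞 K)), I ≠ ⊥ → ∀ ρ : InfinitePlace K → ℝ,
      (∀ v, 0 < ρ v) → (∀ z ∈ S, ∀ w ∈ S, z - w ∈ I ∧
        ∀ v : InfinitePlace K, v ((z - w : 𝓞 K) : K) ≤ ρ v) →
      (S.card : ℝ) ≤ C * (1 + pn ρ / Ideal.absNorm I)) ∧
    (∀ (S : Finset (𝓞 K)) (I : Ideal (𝓞 K)), I ≠ ⊥ → ∀ ρ : InfinitePlace K → ℝ,
      (∀ v, 0 < ρ v) → ∀ (c : InfinitePlace K → ℂ) (z0 : 𝓞 K), (∀ z ∈ S, z - z0 ∈ I ∧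
        ∀ v : InfinitePlace K, ‖em v z - c v‖ ≤ ρ v) →
      (S.card : ℝ) ≤ C * (1 + pn ρ / Ideal.absNorm I)) ∧
    (∀ (I : Ideal (𝓞 K)) (δ : 𝓞 K), δ ∈ I → δ ≠ 0 → ∀ T : ℝ, 1 ≤ T →
      ∀ c : InfinitePlace K → ℂ, (∀ v, c v ∈ KK v) → ∀ z0 : 𝓞 K,
      ∃ S : Finset (𝓞 K), (∀ z ∈ S, z - z0 ∈ I ∧
        ∀ v : InfinitePlace K, ‖em v z - c v‖ ≤ C * T * v (δ : K)) ∧
        T ^ eK K * (pn (fun v : InfinitePlace K => v (δ : K)) / Ideal.absNorm I) ≤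
          C * (S.card : ℝ)) ∧
    (∀ δ : Vc n (𝓞 K), (∃ j, δ j ≠ 0) →
      ∃ c : Fin (n + 1) → ℕ, (∀ j, (c j : ℝ) ≤ C) ∧
        ∀ (v : InfinitePlace K) (j : Fin (n + 1)),
          v (δ j : K) ≤ C * v ((∑ i, (c i : 𝓞 K) * δ i : 𝓞 K) : K)) ∧
    (∀ X : ℝ, 1 ≤ X → ∀ S : Finset (Ideal (𝓞 K)),
      (∀ I ∈ S, (Ideal.absNorm I : ℝ) ≤ X) → (S.card : ℝ) ≤ C * X) ∧
    (∀ (w : ℕ) (S : Finset (Ideal (𝓞 K))), (∀ I ∈ S, (w : ℝ) < Ideal.absNorm I) →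
      ∑ I ∈ S, 1 / (Ideal.absNorm I : ℝ) ^ 2 ≤ C / (w + 1)) ∧
    (∀ R : ℕ, 1 ≤ R →
      ∑ z ∈ (OBox K R).filter (fun z => z ≠ 0), 1 / pn (fun v : InfinitePlace K => v (z : K)) ≤
        C * ((Nat.log 2 R : ℝ) + 2) ^ eK K) ∧
    (∀ R : ℕ, ((JJ K R).card : ℝ) ≤ C * ((Nat.log 2 R : ℝ) + 2) ^ eK K) ∧
    (∀ (z : 𝓞 K) (X : ℝ), (∀ i, |(co z i : ℝ)| ≤ X) →
      ∀ v : InfinitePlace K, v (z : K) ≤ C * X) ∧
    (∀ (z : 𝓞 K) (X : ℝ), (∀ v : InfinitePlace K, v (z : K) ≤ X) →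
      ∀ i, |(co z i : ℝ)| ≤ C * X) := by
  obtain ⟨C1, h1, H1⟩ := bas_upper K
  obtain ⟨C2, h2, H2⟩ := bas_lower K
  obtain ⟨C3, h3, H3⟩ := roundC K
  obtain ⟨C4, h4, H4⟩ := roundK K
  obtain ⟨C5, h5, H5⟩ := OBox_lower K
  obtain ⟨C6, h6, H6⟩ := lowW K
  obtain ⟨C7, h7, H7⟩ := bal K n
  obtain ⟨C8, h8, H8⟩ := idealCount K
  obtain ⟨C9, h9, H9⟩ := idealTail K
  obtain ⟨C10, h10, H10⟩ := logSum K
  obtain ⟨C11, h11, H11⟩ := co_upper K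
  obtain ⟨C12, h12, H12⟩ := co_lower K
  let C : ℝ := C1 + C2 + C3 + C4 + C5 + C6 + C7 + C8 + C9 + C10 + C11 + C12 + 64 ^ eK K +
    (eK K + 1) ^ eK K
  have h13 : (1 : ℝ) ≤ 64 ^ eK K := one_le_pow₀ (by norm_num)
  have h14 : (1 : ℝ) ≤ ((eK K : ℝ) + 1) ^ eK K :=
    one_le_pow₀ (by linarith [Nat.cast_nonneg (α := ℝ) (eK K)])
  have hC1 : C1 ≤ C := by simp only [C]; linarith
  have hC2 : C2 ≤ C := by simp only [C]; linarith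
  have hC3 : C3 ≤ C := by simp only [C]; linarith
  have hC4 : C4 ≤ C := by simp only [C]; linarith
  have hC5 : C5 ≤ C := by simp only [C]; linarith
  have hC6 : C6 ≤ C := by simp only [C]; linarith
  have hC7 : C7 ≤ C := by simp only [C]; linarith
  have hC8 : C8 ≤ C := by simp only [C]; linarith
  have hC9 : C9 ≤ C := by simp only [C]; linarith
  have hC10 : C10 ≤ C := by simp only [C]; linarith
  have hC11 : C11 ≤ C := by simp only [C]; linarith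
  have hC12 : C12 ≤ C := by simp only [C]; linarith
  have hC13 : 64 ^ eK K ≤ C := by simp only [C]; linarith
  have hC14 : ((eK K : ℝ) + 1) ^ eK K ≤ C := by simp only [C]; linarith
  have h16 : (16 : ℝ) ^ eK K ≤ C := (pow_le_pow_left₀ (by norm_num) (by norm_num) _).trans hC13
  have h32 : (32 : ℝ) ^ eK K ≤ C := (pow_le_pow_left₀ (by norm_num) (by norm_num) _).trans hC13
  have hC0 : 0 ≤ C := by linarith
  have hpn : ∀ (ρ : InfinitePlace K → ℝ) (I : Ideal (𝓞 K)), (∀ v, 0 < ρ v) →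
      0 ≤ 1 + pn ρ / Ideal.absNorm I := fun ρ I hρ => by
    have := pn_pos hρ
    positivity
  refine ⟨C, by linarith, ?_, ?_, ?_, ?_, ?_, ?_, ?_, ?_, ?_, ?_, ?_, ?_, ?_, ?_, ?_, ?_⟩
  · intro v u X hX
    have hX0 : 0 ≤ X := by
      have : 0 < eK K := eK_pos
      exact (abs_nonneg _).trans (hX ⟨0, this⟩)
    exact (H1 v u X hX).trans (mul_le_mul_of_nonneg_right hC1 hX0)
  · intro u X hX i
    have hX0 : 0 ≤ X := by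
      obtain ⟨v⟩ := (inferInstance : Nonempty (InfinitePlace K))
      exact (norm_nonneg _).trans (hX v)
    exact (H2 u X hX i).trans (mul_le_mul_of_nonneg_right hC2 hX0)
  · intro c hc
    obtain ⟨z, hz⟩ := H3 c hc
    exact ⟨z, fun v => (hz v).trans hC3⟩
  · intro t
    obtain ⟨z, hz⟩ := H4 t
    exact ⟨z, fun v => (hz v).trans hC4⟩
  · intro X hX
    exact (H5 X hX).trans (mul_le_mul_of_nonneg_right hC5 (Nat.cast_nonneg _))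
  · intro X hX
    exact (OBox_upper hX).trans (mul_le_mul_of_nonneg_right hC13 (by positivity))
  · intro S I hI ρ hρ h
    exact (up S I hI ρ hρ h).trans (mul_le_mul_of_nonneg_right h16 (hpn ρ I hρ))
  · intro S I hI ρ hρ c z0 h
    exact (up' S I hI ρ hρ c z0 h).trans (mul_le_mul_of_nonneg_right h32 (hpn ρ I hρ))
  · intro I δ hδ hδ0 T hT c hc z0
    obtain ⟨S, hS, hS2⟩ := H6 I δ hδ hδ0 T hT c hc z0
    refine ⟨S, fun z hz => ⟨(hS z hz).1, fun v => ((hS z hz).2 v).trans ?_⟩, hS2.trans ?_⟩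
    · have h0 := v_nonneg v (δ : K)
      have : C6 * T ≤ C * T := mul_le_mul_of_nonneg_right hC6 (by linarith)
      exact mul_le_mul_of_nonneg_right this h0
    · exact mul_le_mul_of_nonneg_right hC6 (Nat.cast_nonneg _)
  · intro δ hδ
    obtain ⟨c, hc, hc2⟩ := H7 δ hδ
    exact ⟨c, fun j => (hc j).trans hC7, fun v j => (hc2 v j).trans
      (mul_le_mul_of_nonneg_right hC7 (v_nonneg _ _))⟩
  · intro X hX S hS
    exact (H8 X hX S hS).trans (mul_le_mul_of_nonneg_right hC8 (by linarith))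
  · intro w S hS
    refine (H9 w S hS).trans ?_
    have : (0 : ℝ) < w + 1 := by positivity
    gcongr
  · intro R hR
    exact (H10 R hR).trans (mul_le_mul_of_nonneg_right hC10 (by positivity))
  · intro R
    refine (card_JJ K R).trans ?_
    rw [mul_pow]
    exact mul_le_mul_of_nonneg_right hC14 (by positivity)
  · intro z X hX v
    have hX0 : 0 ≤ X := by
      have : 0 < eK K := eK_pos
      exact (abs_nonneg _).trans (hX ⟨0, this⟩)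
    exact (H11 z X hX v).trans (mul_le_mul_of_nonneg_right hC11 hX0)
  · intro z X hX i
    have hX0 : 0 ≤ X := by
      obtain ⟨v⟩ := (inferInstance : Nonempty (InfinitePlace K))
      exact (v_nonneg v _).trans (hX v)
    exact (H12 z X hX i).trans (mul_le_mul_of_nonneg_right hC12 hX0)

/-- The constant of all base lemmas. -/
noncomputable def CK (n : ℕ) : ℝ := (exCK K n).choose

theorem CK_one_le (n : ℕ) : 1 ≤ CK K n := (exCK K n).choose_spec.1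

theorem CK_pos (n : ℕ) : 0 < CK K n := lt_of_lt_of_le one_pos (CK_one_le K n)

variable {K}

theorem tv_up (n : ℕ) (v : InfinitePlace K) (u : Fin (eK K) → ℝ) (X : ℝ) (h : ∀ i, |u i| ≤ X) :
    ‖tv v u‖ ≤ CK K n * X := (exCK K n).choose_spec.2.1 v u X h

theorem tv_low (n : ℕ) (u : Fin (eK K) → ℝ) (X : ℝ) (h : ∀ v : InfinitePlace K, ‖tv v u‖ ≤ X)
    (i : Fin (eK K)) : |u i| ≤ CK K n * X := (exCK K n).choose_spec.2.2.1 u X h i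

theorem rndC (n : ℕ) (c : InfinitePlace K → ℂ) (hc : ∀ v, c v ∈ KK v) :
    ∃ z : 𝓞 K, ∀ v : InfinitePlace K, ‖em v z - c v‖ ≤ CK K n :=
  (exCK K n).choose_spec.2.2.2.1 c hc

theorem rndK (n : ℕ) (t : K) : ∃ z : 𝓞 K, ∀ v : InfinitePlace K, v (t - (z : K)) ≤ CK K n :=
  (exCK K n).choose_spec.2.2.2.2.1 t

variable (K) in
theorem OBox_low (n : ℕ) {X : ℝ} (hX : 1 ≤ X) : X ^ eK K ≤ CK K n * ((OBox K X).card : ℝ) :=
  (exCK K n).choose_spec.2.2.2.2.2.1 X hX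

variable (K) in
theorem OBox_up (n : ℕ) {X : ℝ} (hX : 1 ≤ X) : ((OBox K X).card : ℝ) ≤ CK K n * X ^ eK K :=
  (exCK K n).choose_spec.2.2.2.2.2.2.1 X hX

/-- (B2) -/
theorem upI (n : ℕ) (S : Finset (𝓞 K)) (I : Ideal (𝓞 K)) (hI : I ≠ ⊥)
    (ρ : InfinitePlace K → ℝ) (hρ : ∀ v, 0 < ρ v)
    (h : ∀ z ∈ S, ∀ w ∈ S, z - w ∈ I ∧ ∀ v : InfinitePlace K, v ((z - w : 𝓞 K) : K) ≤ ρ v) :
    (S.card : ℝ) ≤ CK K n * (1 + pn ρ / Ideal.absNorm I) :=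
  (exCK K n).choose_spec.2.2.2.2.2.2.2.1 S I hI ρ hρ h

/-- (B2) with a centre. -/
theorem upI' (n : ℕ) (S : Finset (𝓞 K)) (I : Ideal (𝓞 K)) (hI : I ≠ ⊥)
    (ρ : InfinitePlace K → ℝ) (hρ : ∀ v, 0 < ρ v) (c : InfinitePlace K → ℂ) (z0 : 𝓞 K)
    (h : ∀ z ∈ S, z - z0 ∈ I ∧ ∀ v : InfinitePlace K, ‖em v z - c v‖ ≤ ρ v) :
    (S.card : ℝ) ≤ CK K n * (1 + pn ρ / Ideal.absNorm I) :=
  (exCK K n).choose_spec.2.2.2.2.2.2.2.2.1 S I hI ρ hρ c z0 h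

/-- (B3w) -/
theorem lowI (n : ℕ) (I : Ideal (𝓞 K)) (δ : 𝓞 K) (hδ : δ ∈ I) (hδ0 : δ ≠ 0) (T : ℝ)
    (hT : 1 ≤ T) (c : InfinitePlace K → ℂ) (hc : ∀ v, c v ∈ KK v) (z0 : 𝓞 K) :
    ∃ S : Finset (𝓞 K), (∀ z ∈ S, z - z0 ∈ I ∧
      ∀ v : InfinitePlace K, ‖em v z - c v‖ ≤ CK K n * T * v (δ : K)) ∧
      T ^ eK K * (pn (fun v : InfinitePlace K => v (δ : K)) / Ideal.absNorm I) ≤
        CK K n * (S.card : ℝ) :=
  (exCK K n).choose_spec.2.2.2.2.2.2.2.2.2.1 I δ hδ hδ0 T hT c hc z0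

/-- (B6) -/
theorem balI {n : ℕ} (δ : Vc n (𝓞 K)) (h : ∃ j, δ j ≠ 0) :
    ∃ c : Fin (n + 1) → ℕ, (∀ j, (c j : ℝ) ≤ CK K n) ∧
      ∀ (v : InfinitePlace K) (j : Fin (n + 1)),
        v (δ j : K) ≤ CK K n * v ((∑ i, (c i : 𝓞 K) * δ i : 𝓞 K) : K) :=
  (exCK K n).choose_spec.2.2.2.2.2.2.2.2.2.2.1 δ h

/-- (B4) -/
theorem idCount (n : ℕ) {X : ℝ} (hX : 1 ≤ X) (S : Finset (Ideal (𝓞 K)))
    (h : ∀ I ∈ S, (Ideal.absNorm I : ℝ) ≤ X) : (S.card : ℝ) ≤ CK K n * X :=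
  (exCK K n).choose_spec.2.2.2.2.2.2.2.2.2.2.2.1 X hX S h

/-- (B4) -/
theorem idTail (n : ℕ) (w : ℕ) (S : Finset (Ideal (𝓞 K)))
    (h : ∀ I ∈ S, (w : ℝ) < Ideal.absNorm I) :
    ∑ I ∈ S, 1 / (Ideal.absNorm I : ℝ) ^ 2 ≤ CK K n / (w + 1) :=
  (exCK K n).choose_spec.2.2.2.2.2.2.2.2.2.2.2.2.1 w S h

variable (K) in
/-- (B5) -/
theorem lgSum (n : ℕ) {R : ℕ} (hR : 1 ≤ R) :
    ∑ z ∈ (OBox K R).filter (fun z => z ≠ 0), 1 / pn (fun v : InfinitePlace K => v (z : K)) ≤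
      CK K n * ((Nat.log 2 R : ℝ) + 2) ^ eK K :=
  (exCK K n).choose_spec.2.2.2.2.2.2.2.2.2.2.2.2.2.1 R hR

variable (K) in
theorem JJ_up (n : ℕ) (R : ℕ) :
    ((JJ K R).card : ℝ) ≤ CK K n * ((Nat.log 2 R : ℝ) + 2) ^ eK K :=
  (exCK K n).choose_spec.2.2.2.2.2.2.2.2.2.2.2.2.2.2.1 R

theorem co_up (n : ℕ) (z : 𝓞 K) (X : ℝ) (h : ∀ i, |(co z i : ℝ)| ≤ X) (v : InfinitePlace K) :
    v (z : K) ≤ CK K n * X :=
  (exCK K n).choose_spec.2.2.2.2.2.2.2.2.2.2.2.2.2.2.2.1 z X h v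

theorem co_low (n : ℕ) (z : 𝓞 K) (X : ℝ) (h : ∀ v : InfinitePlace K, v (z : K) ≤ X)
    (i : Fin (eK K)) : |(co z i : ℝ)| ≤ CK K n * X :=
  (exCK K n).choose_spec.2.2.2.2.2.2.2.2.2.2.2.2.2.2.2.2 z X h i

end const

end Pool.Agent.Lib.MP_1ad228_ntN
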