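import Pool.Agent.Lib.MP_1ad228_ntN.B_MxDef
import Pool.Agent.Lib.MP_1ad228_ntN.Beta
import Pool.Agent.Lib.MP_1ad228_ntN.NB_Log
import Pool.Agent.Lib.MP_1ad228_ntN.NB_Const

/-!
JOB B_SumP.  Sum of the inverse products of the maxima over the vectors of a box: no logarithm.

PROOF.  `e = eK K`, `κ = CK K n`. For `f ≠ 0` in the box put `j = jv (mxv f)`, `2^(j v) ≤ mxv f v < 2 * 2^(j v)` (`jv_le`, `lt_jv`, `mxv_pos`), `mxv f v ≤ R`, `1 ≤ pn (mxv f)` (`one_le_pn_mxv`): `j ∈ JJ K R` (`mem_JJ`) and `2^(j v) ≤ R`. Group the sum by `j`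
(`Finset.sum_fiberwise_of_maps_to`). In the group `j`: `1/pn (mxv f) ≤ 1/pn (2^j)` (`pn_two_zpow_le`), and `f i ∈ {z | v z ≤ 2 * 2^(j v) for all v}`, which has at most `κ (1 + 2^(e+..) pn (2^j))` elements (`upI` with `I = ⊤`: two elements differ by at most
`4 * 2^(j v)`; `Ideal.absNorm_top = 1`), and `1 ≤ pn (mxv f) ≤ 2^e pn (2^j)`, so at most `C1 pn (2^j)`; the group has at most `(C1 pn(2^j))^(n+1)` elements (inject into `Fintype.piFinset`), its contribution is at most `C1^(n+1) pn(2^j)^n`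
(`2^(-e) ≤ pn(2^j)`). Sum over `j`: `geoPn` (Beta.lean) with `T v = (the v-th factor of JJ K R).filter (2^j ≤ R)`, `Z v = R`, `a = n`: at most `2^e (R^e)^n` (`pn_const`).
-/

namespace Pool.Agent.Lib.MP_1ad228_ntN

open NumberField Classical

set_option linter.unusedSectionVars false

variable {K : Type} [Field K] [NumberField K]

private theorem B_SumP_card (n : ℕ) (R : ℝ) (j : InfinitePlace K → ℤ) :
    (((OBox K R).filter fun z : 𝓞 K => ∀ v : InfinitePlace K, v (z : K) ≤ 2 * (2 : ℝ) ^ j v).card : ℝ) ≤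
      CK K n * (1 + 4 ^ eK K * pn (fun v => (2 : ℝ) ^ j v)) := by
  have h := upI n ((OBox K R).filter fun z : 𝓞 K => ∀ v : InfinitePlace K, v (z : K) ≤ 2 * (2 : ℝ) ^ j v)
    (⊤ : Ideal (𝓞 K)) top_ne_bot (fun v => 4 * (2 : ℝ) ^ j v) (fun v => by positivity) (by
      intro z hz w hw
      refine ⟨Submodule.mem_top, fun v => ?_⟩
      have h1 := (Finset.mem_filter.1 hz).2 v
      have h2 := (Finset.mem_filter.1 hw).2 v
      have h3 := v_sub_le v (z : K) (w : K)
      push_cast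
      linarith)
  rw [Ideal.absNorm_top, Nat.cast_one, div_one, pn_const_mul] at h
  exact h

variable (K) in
theorem sumP (n : ℕ) (hn : 1 ≤ n) : ∃ C : ℝ, 1 ≤ C ∧ ∀ R : ℕ, 1 ≤ R →
    ∑ f ∈ (VBox K n R).filter (fun f => f ≠ 0), 1 / pn (mxv f) ≤ C * (R : ℝ) ^ (eK K * n) := by
  have hκ := CK_one_le K n
  have h2e : (1 : ℝ) ≤ 2 ^ eK K := one_le_pow₀ (by norm_num)
  have h4e : (1 : ℝ) ≤ 4 ^ eK K := one_le_pow₀ (by norm_num)
  obtain ⟨C1, hC1⟩ : ∃ C1 : ℝ, C1 = CK K n * (2 ^ eK K + 4 ^ eK K) := ⟨_, rfl⟩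
  have hC11 : 1 ≤ C1 := by
    rw [hC1]
    exact one_le_mul_of_one_le_of_one_le hκ (by linarith)
  have hC10 : 0 ≤ C1 := by linarith
  refine ⟨C1 ^ (n + 1) * 2 ^ eK K, one_le_mul_of_one_le_of_one_le (one_le_pow₀ hC11) h2e, ?_⟩
  intro R hR
  set Y := (VBox K n R).filter (fun f => f ≠ 0) with hY
  have hYm : ∀ f ∈ Y, f ≠ 0 ∧ f ∈ VBox K n R ∧ ∀ v, mxv f v ≤ R := by
    intro f hf
    rw [hY, Finset.mem_filter] at hf
    exact ⟨hf.2, hf.1, fun v => mxv_le.2 fun i => mem_VBox.1 hf.1 i v⟩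
  let SJ : InfinitePlace K → Finset ℤ := fun v => Y.image fun f => jv (mxv f) v
  have hmaps : ∀ f ∈ Y, (fun f : Vc n (𝓞 K) => jv (mxv f)) f ∈ Fintype.piFinset SJ := by
    intro f hf
    rw [Fintype.mem_piFinset]
    exact fun v => Finset.mem_image_of_mem (fun f => jv (mxv f) v) hf
  rw [← Finset.sum_fiberwise_of_maps_to hmaps]
  have hfib : ∀ j ∈ Fintype.piFinset SJ,
      ∑ f ∈ Y.filter (fun f => (fun f : Vc n (𝓞 K) => jv (mxv f)) f = j), 1 / pn (mxv f) ≤
      C1 ^ (n + 1) * pn (fun v => (2 : ℝ) ^ j v) ^ n := by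
    intro j _
    have hP0 : 0 < pn (fun v => (2 : ℝ) ^ j v) := pn_pos fun v => by positivity
    rcases (Y.filter (fun f => (fun f : Vc n (𝓞 K) => jv (mxv f)) f = j)).eq_empty_or_nonempty with
      he | ⟨f0, hf0⟩
    · rw [he, Finset.sum_empty]
      positivity
    · have hfacts : ∀ f ∈ Y.filter (fun f => (fun f : Vc n (𝓞 K) => jv (mxv f)) f = j),
          f ≠ 0 ∧ f ∈ VBox K n R ∧ (∀ v, (2 : ℝ) ^ j v ≤ mxv f v) ∧
            ∀ v, mxv f v ≤ 2 * (2 : ℝ) ^ j v := by
        intro f hf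
        obtain ⟨hfY, hfj⟩ := Finset.mem_filter.1 hf
        obtain ⟨k1, k2, k3⟩ := hYm f hfY
        have hfj' : jv (mxv f) = j := hfj
        refine ⟨k1, k2, fun v => ?_, fun v => ?_⟩
        · rw [← hfj']
          exact jv_le (mxv_pos k1 v)
        · rw [← hfj']
          exact (lt_jv v).le
      have hone : 1 ≤ 2 ^ eK K * pn (fun v => (2 : ℝ) ^ j v) := by
        obtain ⟨k1, k2, k3, k4⟩ := hfacts f0 hf0
        rw [← pn_const_mul]
        exact (one_le_pn_mxv k1).trans (pn_mono (fun v => mxv_nonneg f0 v) k4)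
      generalize hPe : pn (fun v => (2 : ℝ) ^ j v) = P at hP0 hone
      have hS := B_SumP_card n (R : ℝ) j
      rw [hPe] at hS
      have hS2 : (((OBox K R).filter fun z : 𝓞 K => ∀ v : InfinitePlace K, v (z : K) ≤ 2 * (2 : ℝ) ^ j v).card : ℝ) ≤
          C1 * P := by
        refine hS.trans ?_
        rw [hC1, mul_assoc]
        refine mul_le_mul_of_nonneg_left ?_ (by linarith)
        rw [add_mul]
        linarith
      have hcard : ((Y.filter (fun f => (fun f : Vc n (𝓞 K) => jv (mxv f)) f = j)).card : ℝ) ≤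
          (C1 * P) ^ (n + 1) := by
        have h1 : Y.filter (fun f => (fun f : Vc n (𝓞 K) => jv (mxv f)) f = j) ⊆
            Fintype.piFinset fun _ : Fin (n + 1) =>
              (OBox K R).filter fun z : 𝓞 K => ∀ v : InfinitePlace K, v (z : K) ≤ 2 * (2 : ℝ) ^ j v := by
          intro f hf
          obtain ⟨k1, k2, k3, k4⟩ := hfacts f hf
          rw [Fintype.mem_piFinset]
          intro i
          rw [Finset.mem_filter]
          exact ⟨mem_OBox.2 fun v => mem_VBox.1 k2 i v, fun v => (le_mxv f v i).trans (k4 v)⟩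
        have h2 := Finset.card_le_card h1
        rw [Fintype.card_piFinset, Finset.prod_const, Finset.card_univ, Fintype.card_fin] at h2
        refine (Nat.cast_le.2 h2).trans ?_
        rw [Nat.cast_pow]
        exact pow_le_pow_left₀ (Nat.cast_nonneg _) hS2 _
      have hterm : ∀ f ∈ Y.filter (fun f => (fun f : Vc n (𝓞 K) => jv (mxv f)) f = j),
          1 / pn (mxv f) ≤ 1 / P := by
        intro f hf
        obtain ⟨k1, k2, k3, k4⟩ := hfacts f hf
        have k5 : P ≤ pn (mxv f) := by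
          rw [← hPe]
          exact pn_mono (fun v => by positivity) k3
        exact one_div_le_one_div_of_le hP0 k5
      refine (Finset.sum_le_card_nsmul _ _ _ hterm).trans ?_
      rw [nsmul_eq_mul]
      refine (mul_le_mul_of_nonneg_right hcard (by positivity)).trans (le_of_eq ?_)
      rw [mul_pow, pow_succ P n, mul_assoc, mul_assoc, mul_one_div_cancel hP0.ne', mul_one]
  refine (Finset.sum_le_sum hfib).trans ?_
  rw [← Finset.mul_sum, mul_assoc]
  have h11 : ∑ j ∈ Fintype.piFinset SJ, pn (fun v => (2 : ℝ) ^ j v) ^ n ≤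
      2 ^ eK K * pn (fun _ : InfinitePlace K => (R : ℝ)) ^ n := by
    refine geoPn SJ (fun _ => (R : ℝ)) n hn (fun v => Nat.cast_nonneg R) fun v j hj => ?_
    obtain ⟨f, hf, rfl⟩ := Finset.mem_image.1 hj
    obtain ⟨k1, k2, k3⟩ := hYm f hf
    exact (jv_le (mxv_pos k1 v)).trans (k3 v)
  rw [pn_const, ← pow_mul] at h11
  exact mul_le_mul_of_nonneg_left h11 (by positivity)

end Pool.Agent.Lib.MP_1ad228_ntN
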