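import Pool.Agent.Lib.MP_1ad228_ntN.NB_Const

/-!
JOB HG_Red.  Division by the content (paper section 6, red).

PROOF.  `e = eK K`, `c = CK K n`.  `I = Ideal.span (Set.range f) ≠ ⊥`, `N = absNorm I ≥ 1`.  Let `X = (2 c N)^(1/e)` (real power, `X ≥ 1`, `X^e = 2 c N`).
(1) `OBox_low`: `#OBox K X ≥ X^e / c = 2 N > N`, and `𝓞 K ⧸ I` has `N` elements (`Ideal.absNorm_apply`, `Submodule.cardQuot_apply`; finite: `Ideal.finiteQuotientOfFreeOfNeBot`), so two different elements of `OBox K X` are congruent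
modulo `I` (`Finset.exists_ne_map_eq_of_card_lt_of_maps_to`): their difference `b ≠ 0` is in `I` and `v b ≤ 2 X` for all `v`.
(2) `N ≤ pn (v b)` (`absNorm_le_pn`).  `C2 := 2^e * 2 * c ≥ 1`, `(2X)^e = C2 N`.  For every `v`: `v b ≥ 2 X / C2`: otherwise, since all other `v' b ≤ 2X`, `pn (v b) ≤ (2X / C2)^(mult v) (2X)^(e - mult v) ≤ (2X)^e / C2 = N`
with strict inequality (split off the factor `v` as in `low_factor` of NB_Log; `C2 ≥ 1`, `mult v ≥ 1`).  In particular `v b ≥ 2 / C2`, as `X ≥ 1`.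
(3) `I ∣ span {b}` (Dedekind domain, `Ideal.dvd_span_singleton`), `span {b} = I * J`, `m := absNorm J`, `(m : 𝓞 K) ∈ J` (`Ideal.absNorm_mem`), `m ≥ 1`, `m N = |N b| = pn (v b) ≤ (2X)^e = C2 N` (multiplicativity of `absNorm`,
`absNorm_span_eq`), so `m ≤ C2`.  For every `i`: `m f_i ∈ J * I = span {b}`, so `m f_i = b g_i` (`Ideal.mem_span_singleton'`, choose).
(4) `g ≠ 0` (`m ≠ 0`, `f ≠ 0`, `b ≠ 0`), `lin g x = 0` (multiply by `b`), `v (g_i) = m v(f_i)/v(b) ≤ C2 * R * C2 / 2`.
(5) `span {b} * span (range g) = span {m} * span (range f)` (both are `span (range (b g_i)) = span (range (m f_i))`), take norms: `m N * absNorm (span (range g)) = m^e * N`, so `absNorm (span (range g)) = m^(e-1) ≤ C2^e`.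
(`Ideal.absNorm (span {(m : 𝓞 K)}) = m^e`: `absNorm_span_eq`, `v_natCast`, `pn_const`.)  `C = C2^(e+2)` or larger.
-/

namespace Pool.Agent.Lib.MP_1ad228_ntN

open NumberField Classical

set_option linter.unusedSectionVars false

private theorem HG_Red_pn {K : Type} [Field K] [NumberField K] {D : InfinitePlace K → ℝ}
    (h0 : ∀ v, 0 ≤ D v) (h1 : ∀ v, D v ≤ 1) (v : InfinitePlace K) : pn D ≤ D v := by
  have h2 : pn D = D v ^ v.mult * ∏ w ∈ Finset.univ.erase v, D w ^ w.mult :=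
    (Finset.mul_prod_erase _ _ (Finset.mem_univ v)).symm
  have h3 : ∏ w ∈ Finset.univ.erase v, D w ^ w.mult ≤ 1 :=
    Finset.prod_le_one (fun w _ => pow_nonneg (h0 w) _) (fun w _ => pow_le_one₀ (h0 w) (h1 w))
  have h4 : D v ^ v.mult ≤ D v := by
    have := pow_le_pow_of_le_one (h0 v) (h1 v) (show 1 ≤ v.mult from InfinitePlace.mult_pos)
    simpa using this
  rw [h2]
  calc D v ^ v.mult * ∏ w ∈ Finset.univ.erase v, D w ^ w.mult ≤ D v ^ v.mult * 1 :=
        mul_le_mul_of_nonneg_left h3 (pow_nonneg (h0 v) _)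
    _ ≤ D v := by rw [mul_one]; exact h4

private theorem HG_Red_span {R : Type*} [CommRing R] {ι : Type*} (a : R) (h : ι → R) :
    Ideal.span {a} * Ideal.span (Set.range h) = Ideal.span (Set.range fun i => a * h i) := by
  rw [Ideal.span_mul_span']
  congr 1
  ext y
  constructor
  · rintro ⟨s, hs, t, ⟨i, rfl⟩, rfl⟩
    rw [Set.mem_singleton_iff] at hs
    subst hs
    exact ⟨i, rfl⟩
  · rintro ⟨i, rfl⟩
    exact ⟨a, Set.mem_singleton a, h i, ⟨i, rfl⟩, rfl⟩

variable (K : Type) [Field K] [NumberField K]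

theorem redC (n : ℕ) : ∃ C : ℝ, 1 ≤ C ∧ ∀ (R : ℝ) (f x : Vc n (𝓞 K)), f ≠ 0 → lin f x = 0 →
    (∀ i, ∀ v : InfinitePlace K, v (f i : K) ≤ R) →
    ∃ g : Vc n (𝓞 K), g ≠ 0 ∧ lin g x = 0 ∧ (∀ i, ∀ v : InfinitePlace K, v (g i : K) ≤ C * R) ∧
      (Ideal.absNorm (Ideal.span (Set.range g)) : ℝ) ≤ C := by
  have hc1 := CK_one_le K n
  have hc0 := CK_pos K n
  set c := CK K n with hc
  set e := eK K with he
  have he0 : 0 < e := eK_pos
  set C2 : ℝ := 2 ^ e * 2 * c with hC2
  have h2e : (1 : ℝ) ≤ 2 ^ e := one_le_pow₀ (by norm_num)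
  have hC2one : 1 ≤ C2 := by
    rw [hC2]
    nlinarith
  have hC20 : 0 < C2 := lt_of_lt_of_le one_pos hC2one
  refine ⟨C2 ^ (e + 2), one_le_pow₀ hC2one, fun R f x hf hx hR => ?_⟩
  have hR0 : 0 ≤ R := by
    obtain ⟨v⟩ : Nonempty (InfinitePlace K) := inferInstance
    exact (v_nonneg v _).trans (hR 0 v)
  -- the content
  set I : Ideal (𝓞 K) := Ideal.span (Set.range f) with hI
  have hfI : ∀ i, f i ∈ I := fun i => Ideal.subset_span ⟨i, rfl⟩
  have hI0 : I ≠ ⊥ := by
    intro h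
    apply hf
    funext i
    have h1 := hfI i
    rw [h, Ideal.mem_bot] at h1
    exact h1
  set N : ℝ := (Ideal.absNorm I : ℝ) with hN
  have hN1 : 1 ≤ N := one_le_absNorm hI0
  set X : ℝ := (2 * c * N) ^ ((1 : ℝ) / e) with hX
  have h2cN : 1 ≤ 2 * c * N := by nlinarith
  have hXe : X ^ e = 2 * c * N := by
    rw [hX, ← Real.rpow_natCast, ← Real.rpow_mul (by linarith), one_div, inv_mul_cancel₀,
      Real.rpow_one]
    exact_mod_cast he0.ne'
  have hX1 : 1 ≤ X := Real.one_le_rpow h2cN (by positivity)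
  -- (1)
  have hcard : Ideal.absNorm I < (OBox K X).card := by
    have h1 := OBox_low K n hX1
    rw [← he, hXe] at h1
    have h2 : 2 * N ≤ ((OBox K X).card : ℝ) := by
      have h3 : c * (2 * N) ≤ c * ((OBox K X).card : ℝ) := by
        calc c * (2 * N) = 2 * c * N := by ring
          _ ≤ _ := h1
      exact le_of_mul_le_mul_left h3 hc0
    have h3 : (Ideal.absNorm I : ℝ) < ((OBox K X).card : ℝ) := by
      rw [← hN]
      linarith
    exact_mod_cast h3
  have hfin : Finite (𝓞 K ⧸ I) := Ideal.finiteQuotientOfFreeOfNeBot I hI0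
  have : Fintype (𝓞 K ⧸ I) := Fintype.ofFinite _
  have hq : (Finset.univ : Finset (𝓞 K ⧸ I)).card = Ideal.absNorm I := by
    rw [Finset.card_univ, ← Nat.card_eq_fintype_card, Ideal.absNorm_apply]
    rfl
  obtain ⟨z, hz, z', hz', hne, hzz⟩ := Finset.exists_ne_map_eq_of_card_lt_of_maps_to
    (s := OBox K X) (t := (Finset.univ : Finset (𝓞 K ⧸ I))) (by rw [hq]; exact hcard)
    (f := fun z => Ideal.Quotient.mk I z) (fun z _ => Finset.mem_univ _)
  set b : 𝓞 K := z - z' with hb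
  have hb0 : b ≠ 0 := sub_ne_zero.mpr hne
  have hbI : b ∈ I := Ideal.Quotient.eq.1 hzz
  have hbX : ∀ v : InfinitePlace K, v (b : K) ≤ 2 * X := by
    intro v
    have h1 : ((b : 𝓞 K) : K) = (z : K) - (z' : K) := by
      rw [hb]
      exact map_sub (algebraMap (𝓞 K) K) z z'
    rw [h1]
    have h2 := v_sub_le v (z : K) (z' : K)
    have h3 := mem_OBox.1 hz v
    have h4 := mem_OBox.1 hz' v
    linarith
  -- (2)
  have hpn : N ≤ pn (fun v : InfinitePlace K => v (b : K)) := absNorm_le_pn hbI hb0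
  have h2X : (2 * X) ^ e = C2 * N := by
    rw [mul_pow, hXe, hC2]
    ring
  have h2X0 : 0 < 2 * X := by linarith
  have hbv : ∀ v : InfinitePlace K, 2 / C2 ≤ v (b : K) := by
    intro v
    have h1 := HG_Red_pn (D := fun v : InfinitePlace K => (2 * X)⁻¹ * v (b : K))
      (fun v => mul_nonneg (inv_nonneg.2 h2X0.le) (v_nonneg v _)) (fun v => by
        show (2 * X)⁻¹ * v (b : K) ≤ 1
        rw [inv_mul_le_iff₀ h2X0, mul_one]
        exact hbX v) v
    rw [pn_const_mul, inv_pow, ← he, h2X] at h1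
    have h2 : C2⁻¹ ≤ (2 * X)⁻¹ * v (b : K) := by
      refine le_trans ?_ h1
      have hN0 : N ≠ 0 := by linarith
      calc C2⁻¹ = (C2 * N)⁻¹ * N := by
            rw [mul_inv C2 N, mul_assoc, inv_mul_cancel₀ hN0, mul_one]
        _ ≤ _ := mul_le_mul_of_nonneg_left hpn (by positivity)
    rw [inv_mul_eq_div, le_div_iff₀ h2X0] at h2
    refine le_trans ?_ h2
    rw [div_eq_mul_inv, mul_comm]
    exact mul_le_mul_of_nonneg_left (by linarith) (inv_nonneg.2 hC20.le)
  have hbv0 : ∀ v : InfinitePlace K, 0 < v (b : K) := fun v =>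
    lt_of_lt_of_le (by positivity) (hbv v)
  -- (3)
  obtain ⟨J, hJ⟩ : I ∣ Ideal.span {b} := Ideal.dvd_span_singleton.2 hbI
  have hspb : Ideal.span {b} ≠ ⊥ := by
    rw [Ne, Ideal.span_singleton_eq_bot]
    exact hb0
  have hJ0 : J ≠ ⊥ := by
    intro h
    rw [h] at hJ
    apply hspb
    rw [hJ]
    exact Ideal.mul_bot I
  set m : ℕ := Ideal.absNorm J with hm
  have hm1 : (1 : ℝ) ≤ (m : ℝ) := one_le_absNorm hJ0
  have hmJ : (m : 𝓞 K) ∈ J := Ideal.absNorm_mem J
  have hNm : (Ideal.absNorm (Ideal.span {b}) : ℝ) = N * m := by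
    rw [hJ, map_mul]
    push_cast
    rfl
  have hpnb : pn (fun v : InfinitePlace K => v (b : K)) ≤ C2 * N := by
    rw [← h2X, he, ← pn_const]
    exact pn_mono (fun v => v_nonneg v _) hbX
  have hmC : (m : ℝ) ≤ C2 := by
    rw [absNorm_span_eq] at hNm
    rw [hNm] at hpnb
    have h1 : (m : ℝ) * N ≤ C2 * N := by
      calc (m : ℝ) * N = N * m := mul_comm _ _
        _ ≤ _ := hpnb
    exact le_of_mul_le_mul_right h1 (by linarith)
  have hg : ∀ i, ∃ y, y * b = (m : 𝓞 K) * f i := by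
    intro i
    refine Ideal.mem_span_singleton'.1 ?_
    rw [hJ, mul_comm I J]
    exact Ideal.mul_mem_mul hmJ (hfI i)
  choose g hg using hg
  have hm0 : (m : 𝓞 K) ≠ 0 := by
    have h1 : m ≠ 0 := by
      intro h
      rw [h] at hm1
      norm_num at hm1
    exact_mod_cast h1
  refine ⟨g, ?_, ?_, ?_, ?_⟩
  · intro h
    apply hf
    funext i
    have h1 := hg i
    rw [h] at h1
    have h2 : (0 : 𝓞 K) = (m : 𝓞 K) * f i := by
      rw [← h1]
      exact (zero_mul b).symm
    rcases mul_eq_zero.1 h2.symm with h3 | h3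
    · exact absurd h3 hm0
    · exact h3
  · have h1 : b * lin g x = 0 := by
      have h2 : b * lin g x = lin (fun i => (m : 𝓞 K) * f i) x := by
        unfold lin
        rw [Finset.mul_sum]
        refine Finset.sum_congr rfl fun i _ => ?_
        show b * (g i * x i) = ((m : 𝓞 K) * f i) * x i
        rw [← hg i]
        ring
      have h3 : lin (fun i => (m : 𝓞 K) * f i) x = (m : 𝓞 K) * lin f x := by
        unfold lin
        rw [Finset.mul_sum]
        refine Finset.sum_congr rfl fun i _ => ?_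
        ring
      rw [h2, h3, hx, mul_zero]
    rcases mul_eq_zero.1 h1 with h2 | h2
    · exact absurd h2 hb0
    · exact h2
  · intro i v
    have h1 : v (g i : K) * v (b : K) = m * v (f i : K) := by
      rw [← v_mul, ← v_natCast v m, ← v_mul]
      congr 1
      have h2 := congrArg (algebraMap (𝓞 K) K) (hg i)
      rw [map_mul, map_mul, map_natCast] at h2
      exact h2
    have h2 : v (g i : K) * (2 / C2) ≤ C2 * R := by
      calc v (g i : K) * (2 / C2) ≤ v (g i : K) * v (b : K) :=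
            mul_le_mul_of_nonneg_left (hbv v) (v_nonneg v _)
        _ = m * v (f i : K) := h1
        _ ≤ C2 * R := mul_le_mul hmC (hR i v) (v_nonneg v _) hC20.le
    have h3 : v (g i : K) ≤ C2 ^ 2 * R := by
      rw [mul_div_assoc', div_le_iff₀ hC20] at h2
      have h4 : 0 ≤ C2 ^ 2 * R := by positivity
      have h5 : C2 * R * C2 = C2 ^ 2 * R := by ring
      linarith
    refine h3.trans (mul_le_mul_of_nonneg_right ?_ hR0)
    exact pow_le_pow_right₀ hC2one (by omega)
  · have h1 : Ideal.span {b} * Ideal.span (Set.range g) = Ideal.span {(m : 𝓞 K)} * I := by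
      rw [hI, HG_Red_span, HG_Red_span]
      congr 2
      funext i
      rw [← hg i]
      ring
    have h2 := congrArg Ideal.absNorm h1
    rw [map_mul, map_mul] at h2
    have h3 : (Ideal.absNorm (Ideal.span {b}) : ℝ) * (Ideal.absNorm (Ideal.span (Set.range g)) : ℝ) =
        (Ideal.absNorm (Ideal.span {(m : 𝓞 K)}) : ℝ) * N := by
      rw [hN]
      exact_mod_cast h2
    have h4 : (Ideal.absNorm (Ideal.span {(m : 𝓞 K)}) : ℝ) = (m : ℝ) ^ e := by
      rw [absNorm_span_eq, he, ← pn_const]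
      congr 1
      funext v
      have h5 : (((m : 𝓞 K) : 𝓞 K) : K) = ((m : ℕ) : K) := map_natCast (algebraMap (𝓞 K) K) m
      rw [h5, v_natCast]
    rw [hNm, h4] at h3
    set G : ℝ := (Ideal.absNorm (Ideal.span (Set.range g)) : ℝ) with hG
    have hG0 : 0 ≤ G := Nat.cast_nonneg _
    have h5 : (m : ℝ) * G = (m : ℝ) ^ e := by
      have h6 : N * ((m : ℝ) * G) = N * (m : ℝ) ^ e := by
        calc N * ((m : ℝ) * G) = N * m * G := by ring
          _ = (m : ℝ) ^ e * N := h3
          _ = N * (m : ℝ) ^ e := mul_comm _ _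
      exact mul_left_cancel₀ (by linarith : N ≠ 0) h6
    calc G ≤ (m : ℝ) * G := by nlinarith
      _ = (m : ℝ) ^ e := h5
      _ ≤ C2 ^ e := pow_le_pow_left₀ (by linarith) hmC e
      _ ≤ C2 ^ (e + 2) := pow_le_pow_right₀ hC2one (by omega)

end Pool.Agent.Lib.MP_1ad228_ntN
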