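import Pool.Agent.Lib.MP_1ad228_ntN.NB_Const

/-!
JOB HG_Rank.  A vector which is not `H`-good has few independent short orthogonal vectors (paper section 6, rank). (Model over Q: Lib/MP_219881_nt/HG_Pig.lean, theorem rank1.)

PROOF.  Let `U = (fun f : Vc n (𝓞 K) => (fun i => (f i : K))) '' S ⊆ (Fin (n+1) → K)` and `M = span K U`.
(1) `finrank K M ≤ n - 1`: as in the model with `ℤ, ℚ` replaced by `𝓞 K, K`: `Submodule.exists_fun_fin_finrank_span_eq K U` gives a basis of `M` consisting of elements of `U`; if `n ≤ finrank` take the first `n` of them,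
`v s = (f s : K)` with `f s ∈ S`; the `f s` are linearly independent over `𝓞 K` (`LinearIndependent.restrict_scalars` for `𝓞 K → K`, injective, then `LinearIndependent.of_comp` with the linear map `Vc n (𝓞 K) → (Fin (n+1) → K)`),
so `x` is `H`-good, contradiction.
(2) Let `φ : (Fin ((n+1) * e) → ℚ) →ₗ[ℚ] (Fin (n+1) → K)`, `φ u i = ∑ j : Fin e, (u (finProdFinEquiv (i, j)) : K) * (bas K j : K)` (`e = eK K`).  `φ (cq f) = (fun i => (f i : K))` (`sum_co`).
`φ` is injective: if `∑ j, (c j : K) * (bas K j : K) = 0` with rational `c j`, multiply by a common denominator `N` of the `c j`: `∑ j, (N c j : ℤ) • bas K j = 0` in `𝓞 K`, so all `c j = 0` (or use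
`NumberField.integralBasis K` / `Module.Basis.localizationLocalization`: the `bas K j` are linearly independent over `ℚ`; e.g. `LinearIndependent.localization`).
So `finrank ℚ (span ℚ (cq '' S)) = finrank ℚ (map φ ..) = finrank ℚ (span ℚ U)` (`Submodule.map_span`, `LinearMap.finrank_map_eq'`/`Submodule.equivMapOfInjective`, `LinearEquiv.finrank_eq`).
(3) `span ℚ U ≤ M.restrictScalars ℚ` and `finrank ℚ M = finrank ℚ K * finrank K M = e * finrank K M` (`Module.finrank_mul_finrank`), so `finrank ℚ (span ℚ U) ≤ e (n-1)` (`Submodule.finrank_mono`; finite dimensionality over `ℚ`: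
`FiniteDimensional.trans` / `Module.Finite.trans`).
-/

namespace Pool.Agent.Lib.MP_1ad228_ntN

open NumberField Classical

set_option linter.unusedSectionVars false

variable {K : Type} [Field K] [NumberField K]

/-- Rational coordinates of a vector of integers. -/
noncomputable def cq {n : ℕ} (f : Vc n (𝓞 K)) : Fin ((n + 1) * eK K) → ℚ :=
  fun t => ((co (f (finProdFinEquiv.symm t).1) (finProdFinEquiv.symm t).2 : ℤ) : ℚ)

private theorem HG_Rank_K (n H : ℕ) (hn : 1 ≤ n) (x : Vc n (𝓞 K)) (hx : ¬ HGood H x)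
    (S : Finset (Vc n (𝓞 K)))
    (hS : ∀ f ∈ S, lin f x = 0 ∧ ∀ i, ∀ v : InfinitePlace K, v (f i : K) ≤ (H : ℝ)) :
    Module.finrank K (Submodule.span K ((fun (f : Vc n (𝓞 K)) (i : Fin (n + 1)) => (f i : K)) ''
      (S : Set (Vc n (𝓞 K))))) ≤ n - 1 := by
  by_contra hcon
  push Not at hcon
  apply hx
  have hcon' : n ≤ Module.finrank K (Submodule.span K ((fun (f : Vc n (𝓞 K)) (i : Fin (n + 1)) => (f i : K)) ''
      (S : Set (Vc n (𝓞 K))))) := by omega
  obtain ⟨v, hv, _, hli⟩ := Submodule.exists_fun_fin_finrank_span_eq K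
    ((fun (f : Vc n (𝓞 K)) (i : Fin (n + 1)) => (f i : K)) '' (S : Set (Vc n (𝓞 K))))
  choose g hg hgv using fun s : Fin n => hv (Fin.castLE hcon' s)
  have hli2 : LinearIndependent K (fun s : Fin n => v (Fin.castLE hcon' s)) :=
    hli.comp _ (Fin.castLE_injective hcon')
  let L : Vc n (𝓞 K) →ₗ[𝓞 K] (Fin (n + 1) → K) :=
    { toFun := fun f i => (f i : K)
      map_add' := fun a b => by
        funext i
        simp
      map_smul' := fun c a => by
        funext i
        simp [Algebra.smul_def] }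
  have hL : (fun s : Fin n => v (Fin.castLE hcon' s)) = ⇑L ∘ g := by
    funext s
    exact (hgv s).symm
  have hli3 : LinearIndependent (𝓞 K) (fun s : Fin n => v (Fin.castLE hcon' s)) := by
    refine hli2.restrict_scalars ?_
    intro a b hab
    dsimp only at hab
    rw [Algebra.smul_def, Algebra.smul_def, mul_one, mul_one] at hab
    exact RingOfIntegers.coe_injective hab
  rw [hL] at hli3
  exact ⟨g, LinearIndependent.of_comp L hli3, fun s => (hS _ (hg s)).1, fun s => (hS _ (hg s)).2⟩

theorem rank1 (n H : ℕ) (hn : 1 ≤ n) (x : Vc n (𝓞 K)) (hx : ¬ HGood H x)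
    (S : Finset (Vc n (𝓞 K)))
    (hS : ∀ f ∈ S, lin f x = 0 ∧ ∀ i, ∀ v : InfinitePlace K, v (f i : K) ≤ (H : ℝ)) :
    Module.finrank ℚ (Submodule.span ℚ (cq '' (S : Set (Vc n (𝓞 K))))) ≤ (n - 1) * eK K := by
  have h1 := HG_Rank_K n H hn x hx S hS
  obtain ⟨U, hU⟩ : ∃ U : Set (Fin (n + 1) → K), U = (fun (f : Vc n (𝓞 K)) (i : Fin (n + 1)) => (f i : K)) ''
      (S : Set (Vc n (𝓞 K))) := ⟨_, rfl⟩
  rw [← hU] at h1
  let b : Module.Basis (Fin (eK K)) ℚ K := (NumberField.integralBasis K).reindex (basE K)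
  have hb : ∀ (z : 𝓞 K) (j : Fin (eK K)), b.repr (z : K) j = ((co z j : ℤ) : ℚ) := by
    intro z j
    simp only [b, Module.Basis.repr_reindex_apply]
    rw [NumberField.integralBasis_repr_apply]
    unfold co bas
    rw [Module.Basis.repr_reindex_apply]
    rfl
  let ψ : (Fin (n + 1) → K) →ₗ[ℚ] (Fin ((n + 1) * eK K) → ℚ) :=
    { toFun := fun g t => b.repr (g (finProdFinEquiv.symm t).1) (finProdFinEquiv.symm t).2
      map_add' := fun g g' => by
        funext t
        simp
      map_smul' := fun c g => by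
        funext t
        simp }
  have hψ : ∀ f : Vc n (𝓞 K), ψ (fun i => (f i : K)) = cq f := by
    intro f
    funext t
    exact hb _ _
  have hspan : Submodule.span ℚ (cq '' (S : Set (Vc n (𝓞 K)))) = (Submodule.span ℚ U).map ψ := by
    rw [Submodule.map_span, hU, Set.image_image]
    congr 1
    exact Set.image_congr fun f _ => (hψ f).symm
  rw [hspan]
  refine (Submodule.finrank_map_le ψ _).trans ?_
  have h2 : Submodule.span ℚ U ≤ (Submodule.span K U).restrictScalars ℚ := Submodule.span_le_restrictScalars ℚ K U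
  refine (Submodule.finrank_mono h2).trans ?_
  have h3 : Module.finrank ℚ ((Submodule.span K U).restrictScalars ℚ)
      = Module.finrank ℚ K * Module.finrank K (Submodule.span K U) :=
    (Module.finrank_mul_finrank ℚ K (Submodule.span K U)).symm
  rw [h3, mul_comm]
  exact Nat.mul_le_mul_right _ h1

end Pool.Agent.Lib.MP_1ad228_ntN
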