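import Pool.Agent.Lib.MP_1ad228_ntN.HG_Pig
import Pool.Agent.Lib.MP_1ad228_ntN.HG_Rank
import Pool.Agent.Lib.MP_219881_nt.HG_Coord

/-!
JOB HG_Short.  A vector which is not good has a short orthogonal vector (paper section 6). (Model over Q: Lib/MP_219881_nt/HG_Short.lean.)

`pig2` PROOF.  `m = (n-1) e`, `e = eK K`.  `coordJ` (`Pool.Agent.Lib.MP_219881_nt.coordJ`) with `N = (n+1) e`, `d = m` for `M = span ℚ (cq '' S)` gives `J : Finset (Fin N)`, `J.card ≤ m`, such that `v ∈ M`, `|v j| ≤ t` for `j ∈ J`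
imply `|v i| ≤ (2^m - 1) t` for all `i`.  For `f ∈ S` and `j : Fin N` let `z_f j = co (f (finProdFinEquiv.symm j).1) (finProdFinEquiv.symm j).2 : ℤ`, `|z_f j| ≤ H`.  Cells `c(f) = fun j => if j ∈ J then (z_f j + H) / L else 0`
(integer division) in `Fintype.piFinset (fun j => if j ∈ J then Finset.Icc 0 (2 * H / L) else {0})`, which has `(2H/L + 1)^J.card ≤ (2H/L+1)^m` elements; `(2H/L + 1) L ≤ 3 H`.  By `hc` this is `< S.card`: two different
`f, g ∈ S` with the same cells, `|z_f j - z_g j| ≤ L` for `j ∈ J`; `cq f - cq g ∈ M`, so all `|z_f i - z_g i| ≤ 2^m L`.  (Literally the model proof.)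

`shortF` PROOF.  Let `C1` be the constant of `pig1 K n`, `c = CK K n`, `C = max (C1 * 3^((n-1) e) + 1) (c * 2^((n-1) e)) ` (any larger constant is fine; `C ≥ 1`).  Let `x ∈ VBox K n B` be not `H'`-good, `S` from `pig1`
(with `B`, `H`).  For `f ∈ S`: `v (f i) ≤ c H ≤ H'` (`co_up`), so `rank1` applies: finrank `≤ m := (n-1) e`.  If `S.card * L^m ≤ (3H)^m` then
`H^(e(n+1)) L^m ≤ C1 S.card (H B)^e L^m ≤ C1 (3H)^m (H B)^e`, and `H^(e(n+1)) = H^m H^e H^e`, so `(H L^(n-1))^e ≤ C1 3^m B^e` (cancel `H^m H^e > 0`; `L^m = (L^(n-1))^e`), but `C B ≤ H L^(n-1)` gives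
`C^e B^e ≤ (H L^(n-1))^e`, and `C^e ≥ C > C1 3^m` (`e ≥ 1`: `eK_pos`; `B ≥ 1`): contradiction.  So `pig2` applies; `f - g ≠ 0`, `lin (f - g) x = 0`, `v ((f - g) i) ≤ c 2^m L ≤ C L` (`co_sub`, `co_up`).
-/

namespace Pool.Agent.Lib.MP_1ad228_ntN

open NumberField Classical

set_option linter.unusedSectionVars false

theorem pig2 {K : Type} [Field K] [NumberField K] (n H L : ℕ) (hn : 1 ≤ n) (hL : 1 ≤ L)
    (hLH : L ≤ H) (S : Finset (Vc n (𝓞 K))) (hS : ∀ f ∈ S, ∀ i j, |co (f i) j| ≤ (H : ℤ))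
    (hr : Module.finrank ℚ (Submodule.span ℚ (cq '' (S : Set (Vc n (𝓞 K))))) ≤ (n - 1) * eK K)
    (hc : (3 * H) ^ ((n - 1) * eK K) < S.card * L ^ ((n - 1) * eK K)) :
    ∃ f ∈ S, ∃ g ∈ S, f ≠ g ∧
      ∀ i j, |co (f i) j - co (g i) j| ≤ ((2 ^ ((n - 1) * eK K) * L : ℕ) : ℤ) := by
  generalize hm : (n - 1) * eK K = m at hr hc ⊢
  obtain ⟨J, hJc, hJ⟩ := Pool.Agent.Lib.MP_219881_nt.coordJ ((n + 1) * eK K) m
    (Submodule.span ℚ (cq '' (S : Set (Vc n (𝓞 K))))) hr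
  have hLpos : (0 : ℤ) < L := by exact_mod_cast hL
  let z : Vc n (𝓞 K) → Fin ((n + 1) * eK K) → ℤ := fun f j =>
    co (f (finProdFinEquiv.symm j).1) (finProdFinEquiv.symm j).2
  have hz : ∀ f ∈ S, ∀ j, |z f j| ≤ (H : ℤ) := fun f hf j => hS f hf _ _
  have hcell : ((2 * H / L + 1) ^ J.card : ℕ) < S.card := by
    have h1 : (2 * H / L + 1) * L ≤ 3 * H := by
      have h2 : 2 * H / L * L ≤ 2 * H := Nat.div_mul_le_self _ _
      nlinarith
    have h3 : (2 * H / L + 1) ^ m * L ^ m < S.card * L ^ m := by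
      rw [← mul_pow]
      exact lt_of_le_of_lt (Nat.pow_le_pow_left h1 _) hc
    have h4 : (2 * H / L + 1) ^ m < S.card := lt_of_mul_lt_mul_right h3 (Nat.zero_le _)
    exact lt_of_le_of_lt (Nat.pow_le_pow_right (Nat.succ_pos _) hJc) h4
  have hTc : (Fintype.piFinset (fun j : Fin ((n + 1) * eK K) =>
      if j ∈ J then Finset.Icc (0 : ℤ) ((2 * H / L : ℕ) : ℤ) else {0})).card =
      (2 * H / L + 1) ^ J.card := by
    rw [Fintype.card_piFinset]
    have h1 : ∀ j : Fin ((n + 1) * eK K), (if j ∈ J then Finset.Icc (0 : ℤ) ((2 * H / L : ℕ) : ℤ)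
        else {0}).card = if j ∈ J then (2 * H / L + 1) else 1 := by
      intro j
      split_ifs
      · rw [Int.card_Icc]
        generalize 2 * H / L = e
        omega
      · simp
    rw [Finset.prod_congr rfl fun j _ => h1 j, Finset.prod_ite, Finset.prod_const_one, mul_one,
      Finset.prod_const]
    congr 1
    congr 1
    ext j
    simp
  have hmaps : ∀ f ∈ S, (fun j : Fin ((n + 1) * eK K) => if j ∈ J then (z f j + H) / (L : ℤ)
      else 0) ∈ Fintype.piFinset (fun j : Fin ((n + 1) * eK K) =>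
        if j ∈ J then Finset.Icc (0 : ℤ) ((2 * H / L : ℕ) : ℤ) else {0}) := by
    intro f hf
    rw [Fintype.mem_piFinset]
    intro j
    have h1 := abs_le.mp (hz f hf j)
    by_cases hj : j ∈ J
    · simp only [if_pos hj, Finset.mem_Icc]
      constructor
      · exact Int.ediv_nonneg (by linarith) hLpos.le
      · have h2 : ((2 * H / L : ℕ) : ℤ) = (2 * (H : ℤ)) / (L : ℤ) := by push_cast; rfl
        rw [h2]
        exact Int.ediv_le_ediv hLpos (by linarith)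
    · simp only [if_neg hj, Finset.mem_singleton]
  obtain ⟨f, hf, g, hg, hne, hfg⟩ := Finset.exists_ne_map_eq_of_card_lt_of_maps_to
    (by rw [hTc]; exact hcell) hmaps
  refine ⟨f, hf, g, hg, hne, ?_⟩
  have hJJ : ∀ j ∈ J, |(cq f - cq g) j| ≤ (L : ℚ) := by
    intro j hj
    have h1 := congrFun hfg j
    simp only [if_pos hj] at h1
    have h2 := Int.emod_add_mul_ediv (z f j + H) (L : ℤ)
    have h3 := Int.emod_add_mul_ediv (z g j + H) (L : ℤ)
    have h4 := Int.emod_nonneg (z f j + H) hLpos.ne'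
    have h5 := Int.emod_nonneg (z g j + H) hLpos.ne'
    have h6 := Int.emod_lt_of_pos (z f j + H) hLpos
    have h7 := Int.emod_lt_of_pos (z g j + H) hLpos
    rw [h1] at h2
    have h8 : |z f j - z g j| ≤ (L : ℤ) := by
      rw [abs_le]
      constructor <;> linarith
    show |((z f j : ℤ) : ℚ) - ((z g j : ℤ) : ℚ)| ≤ (L : ℚ)
    exact_mod_cast h8
  have hmem : cq f - cq g ∈ Submodule.span ℚ (cq '' (S : Set (Vc n (𝓞 K)))) :=
    Submodule.sub_mem _ (Submodule.subset_span ⟨f, hf, rfl⟩) (Submodule.subset_span ⟨g, hg, rfl⟩)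
  intro i j
  have h9 := hJ _ hmem (L : ℚ) (Nat.cast_nonneg _) hJJ (finProdFinEquiv (i, j))
  have h9' : (cq f - cq g) (finProdFinEquiv (i, j)) =
      ((co (f i) j : ℤ) : ℚ) - ((co (g i) j : ℤ) : ℚ) := by
    show ((co (f (finProdFinEquiv.symm (finProdFinEquiv (i, j))).1)
        (finProdFinEquiv.symm (finProdFinEquiv (i, j))).2 : ℤ) : ℚ) -
      ((co (g (finProdFinEquiv.symm (finProdFinEquiv (i, j))).1)
        (finProdFinEquiv.symm (finProdFinEquiv (i, j))).2 : ℤ) : ℚ) = _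
    rw [Equiv.symm_apply_apply]
  rw [h9'] at h9
  have h12 : |((co (f i) j : ℤ) : ℚ) - ((co (g i) j : ℤ) : ℚ)| ≤ 2 ^ m * (L : ℚ) := by
    have h13 : (0 : ℚ) ≤ L := Nat.cast_nonneg _
    nlinarith
  have h14 : ((|co (f i) j - co (g i) j| : ℤ) : ℚ) ≤ (((2 ^ m * L : ℕ) : ℤ) : ℚ) := by
    push_cast
    exact h12
  exact_mod_cast h14

variable (K : Type) [Field K] [NumberField K]

theorem shortF (n : ℕ) (hn : 1 ≤ n) : ∃ C : ℝ, 1 ≤ C ∧ ∀ B H L H' : ℕ, 1 ≤ B → 1 ≤ L → L ≤ H →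
    C * B ≤ (H : ℝ) * (L : ℝ) ^ (n - 1) → C * H ≤ H' → ∀ x ∈ VBox K n B, ¬ HGood H' x →
    ∃ f : Vc n (𝓞 K), f ≠ 0 ∧ lin f x = 0 ∧
      ∀ i, ∀ v : InfinitePlace K, v (f i : K) ≤ C * L := by
  obtain ⟨C1, hC1, hpig⟩ := pig1 K n
  have hc1 := CK_one_le K n
  have hc0 := CK_pos K n
  set e := eK K with he
  have he0 : 0 < e := eK_pos
  set m := (n - 1) * e with hm
  have h2m : (1 : ℝ) ≤ 2 ^ m := one_le_pow₀ (by norm_num)
  have h3m : (1 : ℝ) ≤ 3 ^ m := one_le_pow₀ (by norm_num)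
  set C : ℝ := max (C1 * 3 ^ m + 1) (CK K n * 2 ^ m) with hC
  have hCa : C1 * 3 ^ m + 1 ≤ C := le_max_left _ _
  have hCb : CK K n * 2 ^ m ≤ C := le_max_right _ _
  have hcC : CK K n ≤ C := by
    refine le_trans ?_ hCb
    nlinarith
  have hCone : 1 ≤ C := hc1.trans hcC
  refine ⟨C, hCone, fun B H L H' hB hL hLH h1 h2 x hx hbad => ?_⟩
  have hH : 1 ≤ H := hL.trans hLH
  obtain ⟨S, hS, hSc⟩ := hpig B H hB hH x hx
  have hH0 : (0 : ℝ) < H := by exact_mod_cast hH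
  have hB0 : (0 : ℝ) < B := by exact_mod_cast hB
  have hL0 : (0 : ℝ) < L := by exact_mod_cast hL
  have hr := rank1 n H' hn x hbad S (fun f hf => ⟨(hS f hf).1, fun i v => by
    have h3 : ∀ j, |((co (f i) j : ℤ) : ℝ)| ≤ (H : ℝ) := by
      intro j
      have h4 := (hS f hf).2 i j
      exact_mod_cast h4
    calc v (f i : K) ≤ CK K n * H := co_up n (f i) H h3 v
      _ ≤ C * H := mul_le_mul_of_nonneg_right hcC hH0.le
      _ ≤ H' := h2⟩)
  have hc : (3 * H) ^ m < S.card * L ^ m := by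
    by_contra hcon
    rw [not_lt] at hcon
    have h3 : (S.card : ℝ) * (L : ℝ) ^ m ≤ (3 * (H : ℝ)) ^ m := by exact_mod_cast hcon
    have hexp : e * (n + 1) = m + e + e := by
      obtain ⟨k, rfl⟩ : ∃ k, n = k + 1 := ⟨n - 1, by omega⟩
      rw [hm, Nat.add_sub_cancel]
      ring
    have h4 : ((H : ℝ) ^ m * (H : ℝ) ^ e) * ((H : ℝ) ^ e * (L : ℝ) ^ m) ≤
        ((H : ℝ) ^ m * (H : ℝ) ^ e) * (C1 * 3 ^ m * (B : ℝ) ^ e) := by
      calc ((H : ℝ) ^ m * (H : ℝ) ^ e) * ((H : ℝ) ^ e * (L : ℝ) ^ m) =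
            (H : ℝ) ^ (e * (n + 1)) * (L : ℝ) ^ m := by
            rw [hexp, pow_add, pow_add]
            ring
        _ ≤ (C1 * (S.card : ℝ) * ((H : ℝ) * B) ^ e) * (L : ℝ) ^ m :=
            mul_le_mul_of_nonneg_right hSc (by positivity)
        _ = (C1 * ((H : ℝ) * B) ^ e) * ((S.card : ℝ) * (L : ℝ) ^ m) := by ring
        _ ≤ (C1 * ((H : ℝ) * B) ^ e) * (3 * (H : ℝ)) ^ m :=
            mul_le_mul_of_nonneg_left h3 (by positivity)
        _ = ((H : ℝ) ^ m * (H : ℝ) ^ e) * (C1 * 3 ^ m * (B : ℝ) ^ e) := by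
            rw [mul_pow, mul_pow]
            ring
    have h5 : (H : ℝ) ^ e * (L : ℝ) ^ m ≤ C1 * 3 ^ m * (B : ℝ) ^ e :=
      le_of_mul_le_mul_left h4 (by positivity)
    have h6 : (H : ℝ) ^ e * (L : ℝ) ^ m = ((H : ℝ) * (L : ℝ) ^ (n - 1)) ^ e := by
      rw [mul_pow, ← pow_mul]
    have h7 : (C * B) ^ e ≤ ((H : ℝ) * (L : ℝ) ^ (n - 1)) ^ e :=
      pow_le_pow_left₀ (by positivity) h1 e
    have h8 : C ^ e * (B : ℝ) ^ e ≤ (C1 * 3 ^ m) * (B : ℝ) ^ e := by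
      rw [← mul_pow]
      linarith
    have h9 : C ^ e ≤ C1 * 3 ^ m := le_of_mul_le_mul_right h8 (by positivity)
    have h10 : C ≤ C ^ e := le_self_pow₀ hCone he0.ne'
    linarith
  obtain ⟨f, hf, g, hg, hne, hfg⟩ := pig2 n H L hn hL hLH S (fun f hf => (hS f hf).2) hr hc
  refine ⟨f - g, sub_ne_zero.mpr hne, ?_, fun i v => ?_⟩
  · rw [lin_sub, (hS f hf).1, (hS g hg).1, sub_zero]
  · have h3 : ∀ j, |((co ((f - g) i) j : ℤ) : ℝ)| ≤ 2 ^ m * (L : ℝ) := by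
      intro j
      have h4 := hfg i j
      have h5 : co ((f - g) i) j = co (f i) j - co (g i) j := co_sub _ _ _
      rw [h5]
      have h6 : ((|co (f i) j - co (g i) j| : ℤ) : ℝ) ≤ (((2 ^ m * L : ℕ) : ℤ) : ℝ) := by
        exact_mod_cast h4
      push_cast at h6 ⊢
      exact h6
    calc v (((f - g) i : 𝓞 K) : K) ≤ CK K n * (2 ^ m * (L : ℝ)) := co_up n _ _ h3 v
      _ = (CK K n * 2 ^ m) * L := by ring
      _ ≤ C * L := mul_le_mul_of_nonneg_right hCb hL0.le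

end Pool.Agent.Lib.MP_1ad228_ntN
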