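import Pool.Agent.Lib.MP_1ad228_ntN.B_CntP
import Pool.Agent.Lib.MP_1ad228_ntN.B_SumP
import Pool.Agent.Lib.MP_1ad228_ntN.HG_Short
import Pool.Agent.Lib.MP_1ad228_ntN.HG_Red

/-!
JOB B_BadX.  Most vectors are `H`-good, without logarithm. (Model: HG_Bad.lean of this folder; `cntP` and `sumP` instead of `cntF` and `lgSum`.)

PROOF.  As HG_Bad.lean: `C1` of `shortF K n hn`, `C2` of `redC K n`, `C3` of `cntP K n C2`, `C4` of `sumP K n hn`. The vectors which are not `H`-good are contained in the union over `g ≠ 0` in `VBox K n R`, `R = ⌈C1 C2 L⌉₊ ≤ B`, with `absNorm (span (range g)) ≤ C2`, of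
`{x ∈ VBox K n B | lin g x = 0}`, of cardinality `≤ C3 B^(e n)/pn (mxv g)` (`cntP`; `v (g i) ≤ R ≤ B`). Sum: `C3 C4 B^(e n) R^(e n) ≤ C (B^n L^n)^e`. (Simpler than the model: no index `i`.)
-/

namespace Pool.Agent.Lib.MP_1ad228_ntN

open NumberField Classical

set_option linter.unusedSectionVars false

variable {K : Type} [Field K] [NumberField K]

variable (K) in
theorem badXP (n : ℕ) (hn : 1 ≤ n) : ∃ C : ℝ, 1 ≤ C ∧ ∀ B H L : ℕ, 1 ≤ L → C * L ≤ H →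
    C * L ≤ B → C * B ≤ (H : ℝ) * (L : ℝ) ^ (n - 1) →
    (((VBox K n B).filter fun x => ¬ HGood H x).card : ℝ) ≤
      C * ((B : ℝ) ^ n * (L : ℝ) ^ n) ^ eK K := by
  obtain ⟨C1, hC1, sh⟩ := shortF K n hn
  obtain ⟨C2, hC2, rd⟩ := redC K n
  obtain ⟨C3, hC3, ct⟩ := cntP K n C2
  obtain ⟨Cs, hCs, sm⟩ := sumP K n hn
  obtain ⟨M, hM⟩ : ∃ M : ℕ, M = ⌈C1⌉₊ := ⟨_, rfl⟩
  have hC1M : C1 ≤ M := by rw [hM]; exact Nat.le_ceil C1
  have hM1 : (1 : ℝ) ≤ M := hC1.trans hC1M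
  have hM1' : 1 ≤ M := by exact_mod_cast hM1
  obtain ⟨C4, hC4⟩ : ∃ C4 : ℝ, C4 = C1 * C2 + 1 := ⟨_, rfl⟩
  have hC12 : 1 ≤ C1 * C2 := by nlinarith
  have hC41 : 1 ≤ C4 := by rw [hC4]; linarith
  obtain ⟨e, he⟩ : ∃ e, e = eK K := ⟨_, rfl⟩
  obtain ⟨Cf, hCf⟩ : ∃ Cf : ℝ, Cf = C3 * Cs * C4 ^ (e * n) := ⟨_, rfl⟩
  have hCf0 : 0 ≤ Cf := by rw [hCf]; positivity
  have hMC : 0 ≤ 2 * (M : ℝ) * C1 := by positivity
  refine ⟨2 * M * C1 + 2 * M + C4 + Cf, by linarith, fun B H L hL h1 h2 h3 => ?_⟩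
  have hL1 : (1 : ℝ) ≤ L := by exact_mod_cast hL
  have hL0 : (0 : ℝ) ≤ L := by linarith
  have hB0 : (0 : ℝ) ≤ B := Nat.cast_nonneg B
  have i1 : 2 * (M : ℝ) * L ≤ H :=
    le_trans (mul_le_mul_of_nonneg_right (by linarith) hL0) h1
  have i2 : C4 * L ≤ B := le_trans (mul_le_mul_of_nonneg_right (by linarith) hL0) h2
  have i3 : 2 * (M : ℝ) * C1 * B ≤ H * (L : ℝ) ^ (n - 1) :=
    le_trans (mul_le_mul_of_nonneg_right (by linarith) hB0) h3
  have hB1' : (1 : ℝ) ≤ B := by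
    have : (1 : ℝ) * 1 ≤ C4 * L := mul_le_mul hC41 hL1 zero_le_one (by linarith)
    linarith
  have hB1 : 1 ≤ B := by exact_mod_cast hB1'
  -- the smaller height
  obtain ⟨H1, hH1⟩ : ∃ H1, H1 = H / M := ⟨_, rfl⟩
  have j1 : M * H1 ≤ H := by rw [hH1]; exact Nat.mul_div_le H M
  have j1' : (M : ℝ) * H1 ≤ H := by exact_mod_cast j1
  have hMH : M ≤ H := by
    have : (M : ℝ) ≤ H := by nlinarith
    exact_mod_cast this
  have j2 : 1 ≤ H1 := by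
    rw [hH1]
    exact (Nat.one_le_div_iff hM1').2 hMH
  have j3 : H < M * (H1 + 1) := by rw [hH1]; exact Nat.lt_mul_div_succ H hM1'
  have j4 : (H : ℝ) ≤ 2 * M * H1 := by
    have h5 : H ≤ 2 * M * H1 := by
      have h6 : M * (H1 + 1) ≤ M * (2 * H1) := Nat.mul_le_mul_left M (by omega)
      have h7 : M * (2 * H1) = 2 * M * H1 := by ring
      omega
    exact_mod_cast h5
  have hM0 : (0 : ℝ) < 2 * M := by linarith
  have k1 : L ≤ H1 := by
    have h5 : 2 * (M : ℝ) * L ≤ 2 * M * H1 := i1.trans j4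
    exact_mod_cast le_of_mul_le_mul_left h5 hM0
  have k2 : C1 * B ≤ (H1 : ℝ) * (L : ℝ) ^ (n - 1) := by
    have h5 : 2 * (M : ℝ) * (C1 * B) ≤ 2 * M * (H1 * (L : ℝ) ^ (n - 1)) := by
      calc 2 * (M : ℝ) * (C1 * B) = 2 * M * C1 * B := by ring
        _ ≤ H * (L : ℝ) ^ (n - 1) := i3
        _ ≤ 2 * M * H1 * (L : ℝ) ^ (n - 1) := mul_le_mul_of_nonneg_right j4 (by positivity)
        _ = _ := by ring
    exact le_of_mul_le_mul_left h5 hM0
  have k3 : C1 * H1 ≤ H := (mul_le_mul_of_nonneg_right hC1M (Nat.cast_nonneg _)).trans j1'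
  -- the size of the orthogonal vectors
  obtain ⟨R, hR⟩ : ∃ R : ℕ, R = ⌈C2 * (C1 * L)⌉₊ := ⟨_, rfl⟩
  have r1 : C2 * (C1 * L) ≤ R := by rw [hR]; exact Nat.le_ceil _
  have r2 : (R : ℝ) ≤ C4 * L := by
    have h5 : (R : ℝ) < C2 * (C1 * L) + 1 := by
      rw [hR]
      exact Nat.ceil_lt_add_one (by positivity)
    have h6 : C4 * L = C2 * (C1 * L) + L := by rw [hC4]; ring
    linarith
  have r3 : 1 ≤ R := by
    have h5 : (1 : ℝ) ≤ R := by
      have h6 : (1 : ℝ) * 1 ≤ C1 * C2 * L := mul_le_mul hC12 hL1 zero_le_one (by linarith)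
      have h7 : C1 * C2 * L = C2 * (C1 * L) := by ring
      linarith
    exact_mod_cast h5
  have r4 : R ≤ B := by exact_mod_cast r2.trans i2
  -- the covering
  obtain ⟨G, hG⟩ : ∃ G : Finset (Vc n (𝓞 K)), G = (VBox K n R).filter
    (fun g => g ≠ 0 ∧ (Ideal.absNorm (Ideal.span (Set.range g)) : ℝ) ≤ C2) := ⟨_, rfl⟩
  have hsub : ((VBox K n B).filter fun x => ¬ HGood H x) ⊆
      G.biUnion fun g => (VBox K n B).filter fun x => lin g x = 0 := by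
    intro x hx
    obtain ⟨hx1, hx2⟩ := Finset.mem_filter.1 hx
    obtain ⟨f, hf0, hfx, hfi⟩ := sh B H1 L H hB1 hL k1 k2 k3 x hx1 hx2
    obtain ⟨g, hg0, hgx, hgi, hgN⟩ := rd (C1 * L) f x hf0 hfx hfi
    refine Finset.mem_biUnion.2 ⟨g, ?_, Finset.mem_filter.2 ⟨hx1, hgx⟩⟩
    rw [hG]
    exact Finset.mem_filter.2 ⟨mem_VBox.2 fun j v => (hgi j v).trans r1, hg0, hgN⟩
  have t1 : (((VBox K n B).filter fun x => ¬ HGood H x).card : ℝ) ≤
      ∑ g ∈ G, (((VBox K n B).filter fun x => lin g x = 0).card : ℝ) := by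
    have h5 : ((VBox K n B).filter fun x => ¬ HGood H x).card ≤
        ∑ g ∈ G, ((VBox K n B).filter fun x => lin g x = 0).card :=
      (Finset.card_le_card hsub).trans Finset.card_biUnion_le
    exact_mod_cast h5
  have t2 : ∀ g ∈ G, (((VBox K n B).filter fun x => lin g x = 0).card : ℝ) ≤
      C3 * (B : ℝ) ^ (e * n) * (1 / pn (mxv g)) := by
    intro g hg
    rw [hG] at hg
    obtain ⟨hg1, hg2, hg3⟩ := Finset.mem_filter.1 hg
    have h5 := ct B g hB1 hg2 (fun i v => ((mem_VBox.1 hg1 i v).trans (by exact_mod_cast r4))) hg3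
    have h6 : 0 < pn (mxv g) := lt_of_lt_of_le one_pos (one_le_pn_mxv hg2)
    rw [mul_one_div, le_div_iff₀ h6, he]
    exact h5
  have t3 : ∑ g ∈ G, 1 / pn (mxv g) ≤ Cs * (R : ℝ) ^ (e * n) := by
    have h5 : ∑ g ∈ G, 1 / pn (mxv g) ≤ ∑ g ∈ (VBox K n R).filter (fun g => g ≠ 0), 1 / pn (mxv g) := by
      refine Finset.sum_le_sum_of_subset_of_nonneg ?_ (fun g hg _ => ?_)
      · intro g hg
        rw [hG] at hg
        obtain ⟨hg1, hg2, -⟩ := Finset.mem_filter.1 hg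
        exact Finset.mem_filter.2 ⟨hg1, hg2⟩
      · have h6 : 0 < pn (mxv g) := lt_of_lt_of_le one_pos (one_le_pn_mxv (Finset.mem_filter.1 hg).2)
        positivity
    rw [he]
    exact h5.trans (sm R r3)
  have hRe : (R : ℝ) ^ (e * n) ≤ C4 ^ (e * n) * (L : ℝ) ^ (e * n) := by
    rw [← mul_pow]
    exact pow_le_pow_left₀ (by positivity) r2 _
  have t4 : (((VBox K n B).filter fun x => ¬ HGood H x).card : ℝ) ≤
      Cf * ((B : ℝ) ^ n * (L : ℝ) ^ n) ^ e := by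
    calc (((VBox K n B).filter fun x => ¬ HGood H x).card : ℝ)
        ≤ ∑ g ∈ G, (((VBox K n B).filter fun x => lin g x = 0).card : ℝ) := t1
      _ ≤ ∑ g ∈ G, C3 * (B : ℝ) ^ (e * n) * (1 / pn (mxv g)) := Finset.sum_le_sum t2
      _ = C3 * (B : ℝ) ^ (e * n) * ∑ g ∈ G, 1 / pn (mxv g) := by rw [Finset.mul_sum]
      _ ≤ C3 * (B : ℝ) ^ (e * n) * (Cs * (R : ℝ) ^ (e * n)) := mul_le_mul_of_nonneg_left t3 (by positivity)
      _ ≤ C3 * (B : ℝ) ^ (e * n) * (Cs * (C4 ^ (e * n) * (L : ℝ) ^ (e * n))) := by gcongr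
      _ = Cf * ((B : ℝ) ^ n * (L : ℝ) ^ n) ^ e := by
          rw [hCf, mul_pow ((B : ℝ) ^ n), ← pow_mul, ← pow_mul, mul_comm n e]
          ring
  rw [← he]
  refine t4.trans ?_
  gcongr
  linarith

end Pool.Agent.Lib.MP_1ad228_ntN
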