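import Pool.Agent.Lib.MP_1ad228_ntN.NB_Em

/-!
JOB B_BalO.  Balanced combinations with first coefficient 1. (The proof of `bal` in NB_Bal.lean: there the coefficients are `c j = t ^ j`, so `c 0 = 1`; copy NB_Bal.lean and add this to the conclusion.)
-/

namespace Pool.Agent.Lib.MP_1ad228_ntN

open NumberField Classical

set_option linter.unusedSectionVars false

variable {K : Type} [Field K] [NumberField K]

variable (K) in
theorem balO (n : ℕ) : ∃ C : ℝ, 1 ≤ C ∧ ∀ δ : Vc n (𝓞 K), (∃ j, δ j ≠ 0) →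
    ∃ c : Fin (n + 1) → ℕ, c 0 = 1 ∧ (∀ j, (c j : ℝ) ≤ C) ∧
      ∀ (v : InfinitePlace K) (j : Fin (n + 1)),
        v (δ j : K) ≤ C * v ((∑ i, (c i : 𝓞 K) * δ i : 𝓞 K) : K) := by
  let m : ℕ := Fintype.card (InfinitePlace K)
  let T : ℕ := n * m
  let D : ℝ := ∑ t : Fin (n + 1) → Fin (T + 1), ∑ i, ∑ j,
    |(((Matrix.vandermonde fun i => ((t i : ℕ) : ℚ))⁻¹ i j : ℚ) : ℝ)|
  let C : ℝ := max ((T + 1 : ℕ) ^ n : ℝ) (D + 1)
  have hD0 : 0 ≤ D := Finset.sum_nonneg fun t _ => Finset.sum_nonneg fun i _ =>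
    Finset.sum_nonneg fun j _ => abs_nonneg _
  have hC1 : 1 ≤ C := le_max_of_le_right (by linarith)
  refine ⟨C, hC1, fun δ hδ => ?_⟩
  let P : ℕ → 𝓞 K := fun t => ∑ j : Fin (n + 1), ((t ^ (j : ℕ) : ℕ) : 𝓞 K) * δ j
  by_contra hcon
  push Not at hcon
  have h1 : ∀ t ∈ Finset.range (T + 1), ∃ v : InfinitePlace K, ∃ j : Fin (n + 1),
      C * v ((P t : 𝓞 K) : K) < v (δ j : K) := by
    intro t ht
    refine hcon (fun j => t ^ (j : ℕ)) (pow_zero _) fun j => ?_
    refine le_trans ?_ (le_max_left _ _)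
    have h2 : t ≤ T + 1 := (Finset.mem_range.1 ht).le
    have h3 : (t ^ (j : ℕ) : ℕ) ≤ (T + 1) ^ n := by
      calc t ^ (j : ℕ) ≤ (T + 1) ^ (j : ℕ) := Nat.pow_le_pow_left h2 _
        _ ≤ (T + 1) ^ n := Nat.pow_le_pow_right (Nat.succ_pos _) (Nat.lt_succ_iff.1 j.2)
    exact_mod_cast h3
  choose! vv hvv using h1
  obtain ⟨v, -, hv⟩ := Finset.exists_lt_card_fiber_of_mul_lt_card_of_maps_to
    (s := Finset.range (T + 1)) (t := (Finset.univ : Finset (InfinitePlace K))) (f := vv)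
    (n := n) (fun _ _ => Finset.mem_univ _) (by
      rw [Finset.card_univ, Finset.card_range, mul_comm]
      exact Nat.lt_succ_self _)
  obtain ⟨U, hU, hUc⟩ := Finset.exists_subset_card_eq (Nat.succ_le_of_lt hv)
  let t : Fin (n + 1) → ℕ := fun i => (U.orderEmbOfFin hUc i : ℕ)
  have htU : ∀ i, t i ∈ U := fun i => Finset.orderEmbOfFin_mem U hUc i
  have hti : Function.Injective t := fun i j h => (U.orderEmbOfFin hUc).injective h
  have htT : ∀ i, t i < T + 1 := fun i =>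
    Finset.mem_range.1 (Finset.mem_filter.1 (hU (htU i))).1
  have htv : ∀ i, ∃ j : Fin (n + 1), C * v ((P (t i) : 𝓞 K) : K) < v (δ j : K) := by
    intro i
    have h2 := Finset.mem_filter.1 (hU (htU i))
    have h3 := hvv (t i) h2.1
    rwa [h2.2] at h3
  -- the largest coordinate
  obtain ⟨j0, -, hj0⟩ := Finset.exists_max_image (Finset.univ : Finset (Fin (n + 1)))
    (fun j => v (δ j : K)) Finset.univ_nonempty
  have hM0 : 0 < v (δ j0 : K) := by
    obtain ⟨j, hj⟩ := hδ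
    exact lt_of_lt_of_le (v_pos v (by simpa using hj)) (hj0 j (Finset.mem_univ j))
  have hPt : ∀ i, v ((P (t i) : 𝓞 K) : K) ≤ v (δ j0 : K) / C := by
    intro i
    obtain ⟨j, hj⟩ := htv i
    have h2 := hj0 j (Finset.mem_univ j)
    rw [le_div_iff₀ (by linarith)]
    linarith
  -- the inverse of the Vandermonde matrix
  let V : Matrix (Fin (n + 1)) (Fin (n + 1)) ℚ := Matrix.vandermonde fun i => ((t i : ℕ) : ℚ)
  have hdet : IsUnit V.det := by
    rw [isUnit_iff_ne_zero]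
    exact Matrix.det_vandermonde_ne_zero_iff.2 fun i j h => hti (by exact_mod_cast h)
  have hinv : V⁻¹ * V = 1 := Matrix.nonsing_inv_mul V hdet
  have hkey : (δ j0 : K) = ∑ i, ((V⁻¹ j0 i : ℚ) : K) * ((P (t i) : 𝓞 K) : K) := by
    have h2 : ∀ i, ((P (t i) : 𝓞 K) : K) = ∑ j, ((V i j : ℚ) : K) * (δ j : K) := by
      intro i
      simp only [P, V, Matrix.vandermonde_apply, map_sum, map_mul, map_natCast]
      refine Finset.sum_congr rfl fun j _ => ?_
      push_cast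
      rfl
    simp only [h2, Finset.mul_sum]
    rw [Finset.sum_comm]
    have h3 : ∀ j, ∑ i, ((V⁻¹ j0 i : ℚ) : K) * (((V i j : ℚ) : K) * (δ j : K)) =
        (((V⁻¹ * V) j0 j : ℚ) : K) * (δ j : K) := by
      intro j
      rw [Matrix.mul_apply]
      push_cast
      rw [Finset.sum_mul]
      exact Finset.sum_congr rfl fun i _ => by ring
    simp only [h3, hinv]
    rw [Finset.sum_eq_single j0]
    · simp
    · intro j _ hj
      rw [Matrix.one_apply_ne hj.symm]
      simp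
    · simp
  have hle : v (δ j0 : K) ≤ (∑ i, |((V⁻¹ j0 i : ℚ) : ℝ)|) * (v (δ j0 : K) / C) := by
    conv_lhs => rw [hkey]
    refine (v_sum_le v _ _).trans ?_
    rw [Finset.sum_mul]
    refine Finset.sum_le_sum fun i _ => ?_
    rw [v_mul]
    have h2 : v ((V⁻¹ j0 i : ℚ) : K) = |((V⁻¹ j0 i : ℚ) : ℝ)| := by
      rw [InfinitePlace.map_ratCast]
      exact (Rat.norm_cast_real _).symm.trans (Real.norm_eq_abs _)
    rw [h2]
    exact mul_le_mul_of_nonneg_left (hPt i) (abs_nonneg _)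
  have hsum : (∑ i, |((V⁻¹ j0 i : ℚ) : ℝ)|) ≤ D := by
    have h2 := Finset.single_le_sum (f := fun t : Fin (n + 1) → Fin (T + 1) => ∑ i, ∑ j,
      |(((Matrix.vandermonde fun i => ((t i : ℕ) : ℚ))⁻¹ i j : ℚ) : ℝ)|)
      (fun t _ => Finset.sum_nonneg fun i _ => Finset.sum_nonneg fun j _ => abs_nonneg _)
      (Finset.mem_univ (fun i => (⟨t i, htT i⟩ : Fin (T + 1))))
    refine le_trans ?_ h2
    exact Finset.single_le_sum (f := fun i => ∑ j, |((V⁻¹ i j : ℚ) : ℝ)|)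
      (fun i _ => Finset.sum_nonneg fun j _ => abs_nonneg _) (Finset.mem_univ j0)
  have hCD : D + 1 ≤ C := le_max_right _ _
  have hC0 : 0 < C := by linarith
  have h5 : (∑ i, |((V⁻¹ j0 i : ℚ) : ℝ)|) * (v (δ j0 : K) / C) ≤ D * (v (δ j0 : K) / C) :=
    mul_le_mul_of_nonneg_right hsum (by positivity)
  have h6 : D * (v (δ j0 : K) / C) < v (δ j0 : K) := by
    rw [← mul_div_assoc, div_lt_iff₀ hC0]
    nlinarith
  linarith

end Pool.Agent.Lib.MP_1ad228_ntN
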