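import Pool.Agent.Lib.MP_1ad228_ntN.B_WtK

/-!
JOB B_Br.  The slices are slices of a cube in coordinates.

`N = kn K n * A`, `L A` the size of the box in `slB`.  Coordinates: `c(a) : (Fin d → Fin (n+1)) × Fin (eK K) → ℤ`, `c(a) i = co (a i.1) i.2`, a bijection from the tensors over `𝓞 K` onto the integer families (`co_inj`, `exists_co`).
`fw A a = ∏ i, w1 N (c(a) i)` (`Fintype.prod_prod_type`).
`ev a x = ∑ s, a s * ∏ l, x (s l)` (definition of `ev`); since `co` is additive and `co ((z : 𝓞 K) * w) k = z * co w k` for integers `z` (`bas.repr` is linear: see the definition of `co` in NB_Bas) and `a s = ∑ u, (co (a s) u) * bas u`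
(`sum_co`): `co (ev a x) k = ∑ s, ∑ u, co (a s) u * co (bas u * ∏ l, x (s l)) k = ∑ i, mM d x y (true, k) i * c(a) i`, the same for `y` and `(false, k)`.  So `ev a x = m ∧ ev a y = m'` iff `∀ k, ∑ i, mM d x y k i * c(a) i = cmm m m' k`
(`co_inj`).  Terms of `slB` with `fw A a ≠ 0` have `c(a)` in the cube (`fw_supp`); conversely if `c(a)` is in the cube and `a` is not in the box then `fw A a = 0` (`fw_zero`).  (`Finset.sum_bij_ne_zero` or `Finset.sum_nbij'` after
restricting both sums to the nonzero terms.)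
-/

namespace Pool.Agent.Lib.MP_1ad228_ntN

open NumberField Classical

set_option linter.unusedSectionVars false

variable {K : Type} [Field K] [NumberField K]

private theorem B_Br_co {n d : ℕ} (a : Ten n d (𝓞 K)) (x : Vc n (𝓞 K)) (k : Fin (eK K)) :
    co (ev a x) k = ∑ i : (Fin d → Fin (n + 1)) × Fin (eK K),
      co (bas K i.2 * ∏ l, x (i.1 l)) k * co (a i.1) i.2 := by
  obtain ⟨c, hc⟩ : ∃ c : 𝓞 K →+ ℤ, ∀ z, c z = co z k :=
    ⟨AddMonoidHom.mk' (fun z => co z k) fun z w => co_add z w k, fun z => rfl⟩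
  rw [Fintype.sum_prod_type, ← hc, ev, map_sum]
  refine Finset.sum_congr rfl fun s _ => ?_
  have h1 : a s * ∏ l, x (s l) = ∑ u, (co (a s) u) • (bas K u * ∏ l, x (s l)) := by
    conv_lhs => rw [sum_co (a s)]
    rw [Finset.sum_mul]
    refine Finset.sum_congr rfl fun u _ => ?_
    rw [zsmul_eq_mul, mul_assoc]
  rw [h1, map_sum]
  refine Finset.sum_congr rfl fun u _ => ?_
  rw [map_zsmul, hc, smul_eq_mul, mul_comm]

private theorem B_Br_fw {n d : ℕ} (A : ℕ) (a : Ten n d (𝓞 K)) :
    fw A a = ∏ i : (Fin d → Fin (n + 1)) × Fin (eK K), w1 (kn K n * A) (co (a i.1) i.2) := by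
  rw [fw, Fintype.prod_prod_type]

theorem slB_eq {n : ℕ} (d A : ℕ) (hA : 1 ≤ A) (x y : Vc n (𝓞 K)) (m m' : 𝓞 K) :
    slB d A x y m m' = aS (kn K n * A) (mM d x y) (cmm m m') := by
  unfold slB aS
  have hcond : ∀ a : Ten n d (𝓞 K), (ev a x = m ∧ ev a y = m') ↔
      ∀ k, ∑ i, mM d x y k i * co (a i.1) i.2 = cmm m m' k := by
    intro a
    constructor
    · rintro ⟨h1, h2⟩ ⟨b, k⟩
      cases b with
      | true =>
        have h := B_Br_co a x k
        rw [h1] at h
        simp only [mM, cmm, if_true]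
        exact h.symm
      | false =>
        have h := B_Br_co a y k
        rw [h2] at h
        simp only [mM, cmm, Bool.false_eq_true, if_false]
        exact h.symm
    · intro h
      refine ⟨co_inj fun k => ?_, co_inj fun k => ?_⟩
      · have h1 := h (true, k)
        simp only [mM, cmm, if_true] at h1
        rw [B_Br_co a x k]
        exact h1
      · have h1 := h (false, k)
        simp only [mM, cmm, Bool.false_eq_true, if_false] at h1
        rw [B_Br_co a y k]
        exact h1
  refine Finset.sum_bij_ne_zero (fun a _ _ => fun i => co (a i.1) i.2) ?_ ?_ ?_ ?_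
  · intro a ha hne
    rw [Finset.mem_filter] at ha
    rw [Finset.mem_filter]
    refine ⟨?_, (hcond a).1 ha.2⟩
    refine (@Fintype.mem_piFinset _ (fun _ _ => Classical.propDecidable _) _ _ _ _).mpr ?_
    intro i
    rw [Finset.mem_Icc, ← abs_le]
    exact fw_supp hA hne i.1 i.2
  · intro a _ _ b _ _ hab
    funext s
    exact co_inj fun u => congrFun hab (s, u)
  · intro c hc hne
    rw [Finset.mem_filter] at hc
    choose a ha using fun s : Fin d → Fin (n + 1) => exists_co (K := K) fun u => c (s, u)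
    have hac : (fun i : (Fin d → Fin (n + 1)) × Fin (eK K) => co (a i.1) i.2) = c := by
      funext i
      exact ha i.1 i.2
    have hfw : fw A a ≠ 0 := by
      rw [B_Br_fw]
      intro h
      apply hne
      rw [← hac]
      exact h
    have hbox : a ∈ Box K n d (((2 * kn K n ^ 2 : ℕ) : ℝ) * (A : ℝ)) := by
      by_contra hno
      exact hfw (fw_zero hA hno)
    refine ⟨a, ?_, hfw, hac⟩
    rw [Finset.mem_filter]
    refine ⟨hbox, (hcond a).2 ?_⟩
    intro k
    have h := hc.2 k
    rw [← hac] at h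
    exact h
  · intro a _ _
    exact B_Br_fw A a

end Pool.Agent.Lib.MP_1ad228_ntN
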