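import Pool.Agent.Lib.MP_1ad228_ntN.Psi
import Pool.Agent.Lib.MP_1ad228_ntN.Vals

/-!
JOB MN_Cheb.  Chebyshev inequality for the weighted variances. (Model: Lib/MP_1ad228_ntF/MN_Cheb.lean.)

On `T`: `F ∈ TBox K n d A ⊆ TBox K n d (2A)`, `psi A (F i) ≥ 1/2` (`psi_half`), `Nn = 0`, `Ll ≥ l ≥ 0`, so the term of `Qv` is at least `(1/2)^r l^2`; all terms are nonnegative.
-/

namespace Pool.Agent.Lib.MP_1ad228_ntN

open NumberField Classical

set_option linter.unusedSectionVars false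

variable {K : Type} [Field K] [NumberField K]

theorem TBox_sub {n r : ℕ} {d : Fin r → ℕ} {X Y : ℝ} (h : X ≤ Y) {F : Tup n d (𝓞 K)}
    (hF : F ∈ TBox K n d X) : F ∈ TBox K n d Y := by
  unfold TBox at hF ⊢
  rw [Fintype.mem_piFinset] at hF ⊢
  intro i
  have h1 := hF i
  rw [mem_Box] at h1 ⊢
  exact fun s v => (h1 s v).trans h

/-- Chebyshev inequality for a general weight. -/
theorem chebW {n r : ℕ} (d : Fin r → ℕ) (B H q W κ A : ℕ) (X Y : ℝ) (hXY : X ≤ Y)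
    (o : Fin (n + 1)) (l : ℝ)
    (hl : 0 ≤ l) (T : Finset (Tup n d (𝓞 K))) (hT : ∀ F ∈ T, F ∈ TBox K n d X ∧
      Nn B H q o F = 0 ∧ l ≤ Ll B H q o W κ A F) (w : Tup n d (𝓞 K) → ℝ) (hw : ∀ F, 0 ≤ w F)
    (c : ℝ) (hwc : ∀ F ∈ TBox K n d X, c ≤ w F) :
    (T.card : ℝ) * (c * l ^ 2) ≤ ∑ F ∈ TBox K n d Y, w F *
      ((Nn B H q o F : ℝ) - Ll B H q o W κ A F) ^ 2 := by
  have hsub : T ⊆ TBox K n d Y := fun F hF => TBox_sub hXY (hT F hF).1
  have h1 : ∑ F ∈ T, w F * ((Nn B H q o F : ℝ) - Ll B H q o W κ A F) ^ 2 ≤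
      ∑ F ∈ TBox K n d Y, w F * ((Nn B H q o F : ℝ) - Ll B H q o W κ A F) ^ 2 := by
    apply Finset.sum_le_sum_of_subset_of_nonneg hsub
    intro F _ _
    exact mul_nonneg (hw F) (sq_nonneg _)
  refine le_trans ?_ h1
  calc (T.card : ℝ) * (c * l ^ 2) = ∑ _F ∈ T, (c * l ^ 2) := by
        rw [Finset.sum_const, nsmul_eq_mul]
    _ ≤ _ := by
        apply Finset.sum_le_sum
        intro F hF
        obtain ⟨hb, hN, hL⟩ := hT F hF
        rw [hN]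
        have h3 : (((0 : ℕ) : ℝ) - Ll B H q o W κ A F) ^ 2 = (Ll B H q o W κ A F) ^ 2 := by
          rw [Nat.cast_zero]
          ring
        rw [h3]
        have h4 : l ^ 2 ≤ (Ll B H q o W κ A F) ^ 2 := pow_le_pow_left₀ hl hL 2
        exact mul_le_mul (hwc F hb) h4 (by positivity) (hw F)

theorem cheb {n r : ℕ} (d : Fin r → ℕ) (B H q W κ A : ℕ) (hA : 1 ≤ A) (o : Fin (n + 1)) (l : ℝ)
    (hl : 0 ≤ l) (T : Finset (Tup n d (𝓞 K))) (hT : ∀ F ∈ T, F ∈ TBox K n d A ∧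
      Nn B H q o F = 0 ∧ l ≤ Ll B H q o W κ A F) :
    (T.card : ℝ) * l ^ 2 ≤ 2 ^ r * Qv K d B H q o W κ A := by
  have hA0 : (0 : ℝ) ≤ A := Nat.cast_nonneg A
  have h := chebW d B H q W κ A A (2 * A) (by linarith) o l hl T hT (fun F => ∏ i, psi A (F i))
    (fun F => Finset.prod_nonneg fun i _ => psi_nonneg A (F i)) ((1 / 2) ^ r) (fun F hF => by
      have h1 : ∏ _i : Fin r, (1 / 2 : ℝ) = (1 / 2) ^ r := by
        rw [Finset.prod_const, Finset.card_univ, Fintype.card_fin]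
      rw [← h1]
      refine Finset.prod_le_prod (fun i _ => by norm_num) fun i _ => ?_
      unfold TBox at hF
      rw [Fintype.mem_piFinset] at hF
      exact psi_half hA (hF i))
  have h2 : (2 : ℝ) ^ r * (1 / 2) ^ r = 1 := by
    rw [← mul_pow]
    norm_num
  calc (T.card : ℝ) * l ^ 2 = (2 : ℝ) ^ r * (1 / 2) ^ r * ((T.card : ℝ) * l ^ 2) := by
        rw [h2, one_mul]
    _ = 2 ^ r * ((T.card : ℝ) * ((1 / 2) ^ r * l ^ 2)) := by ring
    _ ≤ 2 ^ r * Qv K d B H q o W κ A := mul_le_mul_of_nonneg_left h (by positivity)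

end Pool.Agent.Lib.MP_1ad228_ntN
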