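import Pool.Agent.Lib.MP_1ad228_ntN.B_WtK
import Pool.Agent.Lib.MP_1ad228_ntN.MN_Cheb

/-!
JOB B_ChebK.  Chebyshev inequality for the variance with the product weight.

PROOF.  `chebW` (MN_Cheb.lean) with `X = A`, `Y = ((2 * kn K n ^ 2 : ℕ) : ℝ) * A ≥ A` (`one_le_kn`), weight `∏ i, fw A (F i)` (`fw_nonneg`), `c = (1/2)^(eK K * VV n d)` (`fw_half`, `Finset.prod_pow_eq_pow_sum`, `VV n d = ∑ i, (n+1)^(d i)`).
-/

namespace Pool.Agent.Lib.MP_1ad228_ntN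

open NumberField Classical

set_option linter.unusedSectionVars false

variable {K : Type} [Field K] [NumberField K]

theorem chebB {n r : ℕ} (d : Fin r → ℕ) (B H q W κ A : ℕ) (hA : 1 ≤ A) (o : Fin (n + 1)) (l : ℝ)
    (hl : 0 ≤ l) (T : Finset (Tup n d (𝓞 K))) (hT : ∀ F ∈ T, F ∈ TBox K n d A ∧
      Nn B H q o F = 0 ∧ l ≤ Ll B H q o W κ A F) :
    (T.card : ℝ) * l ^ 2 ≤ 2 ^ (eK K * VV n d) * QvB K d B H q o W κ A := by
  have hA0 : (0 : ℝ) ≤ A := Nat.cast_nonneg A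
  have hk : (1 : ℝ) ≤ ((2 * kn K n ^ 2 : ℕ) : ℝ) := by
    have h1 : 1 ≤ 2 * kn K n ^ 2 := by
      have := Nat.one_le_pow 2 (kn K n) (one_le_kn K n)
      omega
    exact_mod_cast h1
  have h := chebW d B H q W κ A A (((2 * kn K n ^ 2 : ℕ) : ℝ) * (A : ℝ)) (by nlinarith) o l hl T hT
    (fun F => ∏ i, fw A (F i))
    (fun F => Finset.prod_nonneg fun i _ => fw_nonneg A (F i)) ((1 / 2) ^ (eK K * VV n d))
    (fun F hF => by
      have h1 : ∏ i : Fin r, (1 / 2 : ℝ) ^ (eK K * (n + 1) ^ d i) = (1 / 2) ^ (eK K * VV n d) := by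
        rw [Finset.prod_pow_eq_pow_sum, VV, Finset.mul_sum]
      rw [← h1]
      refine Finset.prod_le_prod (fun i _ => by positivity) fun i _ => ?_
      unfold TBox at hF
      rw [Fintype.mem_piFinset] at hF
      exact fw_half hA (hF i))
  have h2 : (2 : ℝ) ^ (eK K * VV n d) * (1 / 2) ^ (eK K * VV n d) = 1 := by
    rw [← mul_pow]
    norm_num
  calc (T.card : ℝ) * l ^ 2
      = (2 : ℝ) ^ (eK K * VV n d) * (1 / 2) ^ (eK K * VV n d) * ((T.card : ℝ) * l ^ 2) := by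
        rw [h2, one_mul]
    _ = 2 ^ (eK K * VV n d) * ((T.card : ℝ) * ((1 / 2) ^ (eK K * VV n d) * l ^ 2)) := by ring
    _ ≤ 2 ^ (eK K * VV n d) * QvB K d B H q o W κ A := mul_le_mul_of_nonneg_left h (by positivity)

end Pool.Agent.Lib.MP_1ad228_ntN
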