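import Pool.Agent.Lib.MP_1ad228_ntN.B_Def

/-!
JOB B_MassA.  Concentration of the frequencies. (Model: Lib/MP_1ad228_ntF/B_Mass.lean.)

PROOF.  `θ_i(l) = aTh M l i`.  Call `l` minor if `|θ_i - round θ_i| > 1/2^(J+2)` for some `i`.  By `Pool.Agent.Lib.MP_1ad228_ntF.dyad` a minor `l` has some `i` and some `j ≤ J` with `cos (2 π 2^j θ_i) ≤ 0`, so
`1 ≤ ∑_i ∑_{j ≤ J} (1 - cos (2 π 2^j θ_i(l)))` (all terms are nonnegative).  Hence
`∑_{minor} ν ≤ ∑_i ∑_{j ≤ J} ∑_l ν l (1 - cos (2 π (∑ k, l k * (2^j M k i))/Q)) = ∑_i ∑_{j ≤ J} (aS N M 0 - aS N M (fun k => 2^j * M k i))` by the formula `hν` (hypothesis `hM`: `|2^j * M k i| ≤ Mx`; and `m = 0`), and each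
difference is at most `2^j * δ` (`hδ`).  `∑_{j ≤ J} 2^j ≤ 2^(J+1)` (sum over `Finset.range (J+1)`).
-/

namespace Pool.Agent.Lib.MP_1ad228_ntN

open NumberField Classical

set_option linter.unusedSectionVars false

variable {K : Type} [Field K] [NumberField K]

private theorem B_MassA_pt {ι : Type} [Fintype ι] (J : ℕ) (θ : ι → ℝ) (v : ℝ) (hv : 0 ≤ v) :
    (if ∀ s, |θ s - round (θ s)| ≤ 1 / 2 ^ (J + 2) then 0 else v) ≤
      ∑ s : ι, ∑ t ∈ Finset.range (J + 1), v * (1 - Real.cos (2 * Real.pi * (2 ^ t * θ s))) := by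
  have hnn : ∀ (s : ι) (t : ℕ), 0 ≤ v * (1 - Real.cos (2 * Real.pi * (2 ^ t * θ s))) := fun s t =>
    mul_nonneg hv (by linarith [Real.cos_le_one (2 * Real.pi * (2 ^ t * θ s))])
  have hnn1 : ∀ s : ι, 0 ≤ ∑ t ∈ Finset.range (J + 1), v * (1 - Real.cos (2 * Real.pi * (2 ^ t * θ s))) :=
    fun s => Finset.sum_nonneg fun t _ => hnn s t
  split_ifs with h
  · exact Finset.sum_nonneg fun s _ => hnn1 s
  · rw [not_forall] at h
    obtain ⟨s, hs⟩ := h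
    have h1 : ∃ t, t ≤ J ∧ Real.cos (2 * Real.pi * (2 ^ t * θ s)) ≤ 0 := by
      by_contra hc
      apply hs
      refine Pool.Agent.Lib.MP_1ad228_ntF.dyad (θ s) J fun j hj => ?_
      by_contra h2
      exact hc ⟨j, hj, not_lt.mp h2⟩
    obtain ⟨t, ht, hc⟩ := h1
    have h2 : v ≤ v * (1 - Real.cos (2 * Real.pi * (2 ^ t * θ s))) := by nlinarith
    have h3 : v * (1 - Real.cos (2 * Real.pi * (2 ^ t * θ s))) ≤
        ∑ t ∈ Finset.range (J + 1), v * (1 - Real.cos (2 * Real.pi * (2 ^ t * θ s))) :=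
      Finset.single_le_sum (f := fun t => v * (1 - Real.cos (2 * Real.pi * (2 ^ t * θ s))))
        (fun t _ => hnn s t) (Finset.mem_range.mpr (by omega))
    have h4 : (∑ t ∈ Finset.range (J + 1), v * (1 - Real.cos (2 * Real.pi * (2 ^ t * θ s)))) ≤
        ∑ s : ι, ∑ t ∈ Finset.range (J + 1), v * (1 - Real.cos (2 * Real.pi * (2 ^ t * θ s))) :=
      Finset.single_le_sum (f := fun s => ∑ t ∈ Finset.range (J + 1), v * (1 - Real.cos (2 * Real.pi * (2 ^ t * θ s))))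
        (fun s _ => hnn1 s) (Finset.mem_univ s)
    linarith

private theorem B_MassA_geo (J : ℕ) : ∑ t ∈ Finset.range (J + 1), (2 : ℝ) ^ t = 2 * 2 ^ J - 1 := by
  induction J with
  | zero => norm_num
  | succ J ih =>
    rw [Finset.sum_range_succ, ih]
    ring

theorem massA {ι κ : Type} [Fintype ι] [Fintype κ] (N : ℕ) (M : κ → ι → ℤ) (Mx Q J : ℕ)
    (ν : (κ → Fin Q) → ℝ) (hQ : 1 ≤ Q) (hν0 : ∀ l, 0 ≤ ν l)
    (hν : ∀ m : κ → ℤ, (∀ k, |m k| ≤ (Mx : ℤ)) →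
        aS N M m = ∑ l : κ → Fin Q, ν l *
          Real.cos (2 * Real.pi * ((∑ k, ((l k : ℕ) : ℝ) * (m k : ℝ)) / Q)))
    (hM : ∀ i k, 2 ^ J * |M k i| ≤ (Mx : ℤ)) (δ : ℝ) (hδ0 : 0 ≤ δ)
    (hδ : ∀ i, ∀ j ≤ J, aS N M 0 - aS N M (fun k => 2 ^ j * M k i) ≤ 2 ^ j * δ) :
    ∑ l : κ → Fin Q, (if ∀ i, |aTh M l i - round (aTh M l i)| ≤ 1 / 2 ^ (J + 2) then 0 else ν l) ≤
      (Fintype.card ι : ℝ) * (2 ^ (J + 1) * δ) := by
  have s1 : ∑ l : κ → Fin Q, (if ∀ i, |aTh M l i - round (aTh M l i)| ≤ 1 / 2 ^ (J + 2) then 0 else ν l) ≤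
      ∑ l : κ → Fin Q, ∑ i : ι, ∑ t ∈ Finset.range (J + 1),
        ν l * (1 - Real.cos (2 * Real.pi * (2 ^ t * aTh M l i))) :=
    Finset.sum_le_sum fun l _ => B_MassA_pt J (fun i => aTh M l i) (ν l) (hν0 l)
  refine s1.trans ?_
  have s2 : (∑ l : κ → Fin Q, ∑ i : ι, ∑ t ∈ Finset.range (J + 1),
        ν l * (1 - Real.cos (2 * Real.pi * (2 ^ t * aTh M l i)))) =
      ∑ i : ι, ∑ t ∈ Finset.range (J + 1), ∑ l : κ → Fin Q,
        ν l * (1 - Real.cos (2 * Real.pi * (2 ^ t * aTh M l i))) := by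
    rw [Finset.sum_comm]
    exact Finset.sum_congr rfl fun i _ => Finset.sum_comm
  rw [s2]
  have s3 : ∀ i : ι, ∀ t ∈ Finset.range (J + 1), ∑ l : κ → Fin Q,
        ν l * (1 - Real.cos (2 * Real.pi * (2 ^ t * aTh M l i))) ≤ 2 ^ t * δ := by
    intro i t ht
    have ht1 : t ≤ J := by
      have := Finset.mem_range.mp ht
      omega
    have hp : (2 : ℤ) ^ t ≤ 2 ^ J := pow_le_pow_right₀ (by norm_num) ht1
    have e0 := hν 0 (fun k => by simp)
    have e1 := hν (fun k => 2 ^ t * M k i) (fun k => by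
      rw [abs_mul, abs_of_nonneg (by positivity : (0 : ℤ) ≤ 2 ^ t)]
      exact (mul_le_mul_of_nonneg_right hp (abs_nonneg _)).trans (hM i k))
    have e2 := hδ i t ht1
    have e3 : (∑ l : κ → Fin Q, ν l * (1 - Real.cos (2 * Real.pi * (2 ^ t * aTh M l i)))) =
        aS N M 0 - aS N M (fun k => 2 ^ t * M k i) := by
      rw [e0, e1, ← Finset.sum_sub_distrib]
      refine Finset.sum_congr rfl fun l _ => ?_
      have c0 : Real.cos (2 * Real.pi * ((∑ k, ((l k : ℕ) : ℝ) * (((0 : κ → ℤ) k : ℤ) : ℝ)) / Q)) = 1 := by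
        simp
      have c1 : 2 * Real.pi * ((∑ k, ((l k : ℕ) : ℝ) * ((2 ^ t * M k i : ℤ) : ℝ)) / Q) =
          2 * Real.pi * (2 ^ t * aTh M l i) := by
        unfold aTh
        have c2 : ∑ k, ((l k : ℕ) : ℝ) * ((2 ^ t * M k i : ℤ) : ℝ) = 2 ^ t * ∑ k, ((l k : ℕ) : ℝ) * (M k i : ℝ) := by
          rw [Finset.mul_sum]
          refine Finset.sum_congr rfl fun k _ => ?_
          push_cast
          ring
        rw [c2]
        ring
      rw [c0, c1]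
      ring
    rw [e3]
    exact e2
  refine (Finset.sum_le_sum fun i _ => Finset.sum_le_sum (s3 i)).trans ?_
  rw [Finset.sum_const, Finset.card_univ, nsmul_eq_mul, ← Finset.sum_mul, B_MassA_geo]
  refine mul_le_mul_of_nonneg_left ?_ (Nat.cast_nonneg _)
  refine mul_le_mul_of_nonneg_right ?_ hδ0
  rw [pow_succ]
  linarith

end Pool.Agent.Lib.MP_1ad228_ntN
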