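import Pool.Agent.Lib.MP_1ad228_ntN.B_FourA
import Pool.Agent.Lib.MP_1ad228_ntN.B_MassA

/-!
JOB B_CloseA.  Slices of a cube which are close (abstract form). (Model: first and last steps of the proof of slB_close in Lib/MP_1ad228_ntF/B_Close.lean.)

PROOF.  `Mx` = a natural number `≥ |m k|` and `≥ 2^J * |M k i|` for all `k, i` (finitely many); `Q, ν` from `fourA`.  `aS N M 0 - aS N M m = ∑ l, ν l (1 - cos (2 π φ_l))`, `φ_l = (∑ k, l k * m k)/Q`, every term is between 0 and `2 ν l`.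
Minor `l` (those of `massA`): at most `2 * (card ι * (2^(J+1) δ))` in total.  Major `l`: by `hψ` there is an integer `z` with `|φ_l - z| ≤ ψ`, so `1 - cos (2 π φ_l) = 1 - cos (2 π (φ_l - z)) ≤ 2 π^2 ψ^2 ≤ 20 ψ^2`
(`Real.one_sub_sq_div_two_le_cos`, `π^2 < 10`); the sum is at most `20 ψ^2 * ∑ l, ν l = 20 ψ^2 * aS N M 0` (the formula with `m = 0`).
-/

namespace Pool.Agent.Lib.MP_1ad228_ntN

open NumberField Classical

set_option linter.unusedSectionVars false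

variable {K : Type} [Field K] [NumberField K]

private theorem B_CloseA_cos {φ ψ : ℝ} {z : ℤ} (h : |φ - z| ≤ ψ) : 1 - Real.cos (2 * Real.pi * φ) ≤ 20 * ψ ^ 2 := by
  have e : 2 * Real.pi * φ = 2 * Real.pi * (φ - z) + (z : ℝ) * (2 * Real.pi) := by ring
  rw [e, Real.cos_add_int_mul_two_pi]
  have h1 := Real.one_sub_sq_div_two_le_cos (x := 2 * Real.pi * (φ - z))
  have h2 : Real.pi ^ 2 ≤ 10 := by
    have h3 := Real.pi_lt_d2
    have h4 := Real.pi_pos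
    nlinarith
  have h5 : (φ - z) ^ 2 ≤ ψ ^ 2 := by
    rw [← sq_abs (φ - z)]
    exact pow_le_pow_left₀ (abs_nonneg _) h 2
  have h6 : 0 ≤ (φ - z) ^ 2 := sq_nonneg _
  have h7 : Real.pi ^ 2 * (φ - z) ^ 2 ≤ 10 * (φ - z) ^ 2 := mul_le_mul_of_nonneg_right h2 h6
  have h8 : (2 * Real.pi * (φ - z)) ^ 2 / 2 = 2 * (Real.pi ^ 2 * (φ - z) ^ 2) := by ring
  rw [h8] at h1
  linarith

theorem closeA {ι κ : Type} [Fintype ι] [Fintype κ] (N : ℕ) (hN : 1 ≤ N) (M : κ → ι → ℤ)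
    (J : ℕ) (δ : ℝ) (hδ0 : 0 ≤ δ)
    (hδ : ∀ i, ∀ j ≤ J, aS N M 0 - aS N M (fun k => 2 ^ j * M k i) ≤ 2 ^ j * δ)
    (m : κ → ℤ) (ψ : ℝ)
    (hψ : ∀ (Q : ℕ) (l : κ → Fin Q), 1 ≤ Q →
      (∀ i, |aTh M l i - round (aTh M l i)| ≤ 1 / 2 ^ (J + 2)) →
      ∃ z : ℤ, |(∑ k, ((l k : ℕ) : ℝ) * (m k : ℝ)) / Q - z| ≤ ψ) :
    |aS N M m - aS N M 0| ≤
      2 * ((Fintype.card ι : ℝ) * (2 ^ (J + 1) * δ)) + 20 * ψ ^ 2 * aS N M 0 := by
  obtain ⟨Mx, hMx1, hMx2⟩ : ∃ Mx : ℕ, (∀ k, |m k| ≤ (Mx : ℤ)) ∧ ∀ i k, 2 ^ J * |M k i| ≤ (Mx : ℤ) := by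
    refine ⟨(∑ k, (m k).natAbs) + ∑ i, ∑ k, 2 ^ J * (M k i).natAbs, fun k => ?_, fun i k => ?_⟩
    · have h1 : (m k).natAbs ≤ ∑ k, (m k).natAbs :=
        Finset.single_le_sum (f := fun k => (m k).natAbs) (fun _ _ => Nat.zero_le _) (Finset.mem_univ k)
      rw [Int.abs_eq_natAbs]
      exact_mod_cast h1.trans (Nat.le_add_right _ _)
    · have h1 : 2 ^ J * (M k i).natAbs ≤ ∑ k, 2 ^ J * (M k i).natAbs :=
        Finset.single_le_sum (f := fun k => 2 ^ J * (M k i).natAbs) (fun _ _ => Nat.zero_le _) (Finset.mem_univ k)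
      have h2 : (∑ k, 2 ^ J * (M k i).natAbs) ≤ ∑ i, ∑ k, 2 ^ J * (M k i).natAbs :=
        Finset.single_le_sum (f := fun i => ∑ k, 2 ^ J * (M k i).natAbs) (fun _ _ => Nat.zero_le _) (Finset.mem_univ i)
      rw [Int.abs_eq_natAbs]
      exact_mod_cast (h1.trans h2).trans (Nat.le_add_left _ _)
  obtain ⟨Q, ν, hQ, hν0, hν⟩ := fourA N hN M Mx
  have hmass := massA N M Mx Q J ν hQ hν0 hν hMx2 δ hδ0 hδ
  have h00 : aS N M 0 = ∑ l : κ → Fin Q, ν l := by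
    rw [hν 0 (fun k => by simp)]
    refine Finset.sum_congr rfl fun l _ => ?_
    simp
  have hmm := hν m hMx1
  have hdiff : aS N M 0 - aS N M m = ∑ l : κ → Fin Q, ν l * (1 - Real.cos (2 * Real.pi *
      ((∑ k, ((l k : ℕ) : ℝ) * (m k : ℝ)) / Q))) := by
    rw [h00, hmm, ← Finset.sum_sub_distrib]
    refine Finset.sum_congr rfl fun l _ => ?_
    ring
  have hnn : 0 ≤ aS N M 0 - aS N M m := by
    rw [hdiff]
    exact Finset.sum_nonneg fun l _ => mul_nonneg (hν0 l) (sub_nonneg.2 (Real.cos_le_one _))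
  rw [abs_sub_comm, abs_of_nonneg hnn, hdiff]
  have hpt : ∀ l : κ → Fin Q, ν l * (1 - Real.cos (2 * Real.pi * ((∑ k, ((l k : ℕ) : ℝ) * (m k : ℝ)) / Q))) ≤
      2 * (if ∀ i, |aTh M l i - round (aTh M l i)| ≤ 1 / 2 ^ (J + 2) then 0 else ν l) + 20 * ψ ^ 2 * ν l := by
    intro l
    have hν1 := hν0 l
    by_cases hmaj : ∀ i, |aTh M l i - round (aTh M l i)| ≤ 1 / 2 ^ (J + 2)
    · rw [if_pos hmaj, mul_zero, zero_add, mul_comm (20 * ψ ^ 2)]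
      obtain ⟨z, hz⟩ := hψ Q l hQ hmaj
      exact mul_le_mul_of_nonneg_left (B_CloseA_cos hz) hν1
    · rw [if_neg hmaj]
      have h1 : 1 - Real.cos (2 * Real.pi * ((∑ k, ((l k : ℕ) : ℝ) * (m k : ℝ)) / Q)) ≤ 2 := by
        have := Real.neg_one_le_cos (2 * Real.pi * ((∑ k, ((l k : ℕ) : ℝ) * (m k : ℝ)) / Q))
        linarith
      have h2 := mul_le_mul_of_nonneg_left h1 hν1
      have h3 : 0 ≤ 20 * ψ ^ 2 * ν l := by positivity
      linarith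
  refine (Finset.sum_le_sum fun l _ => hpt l).trans ?_
  rw [Finset.sum_add_distrib, ← Finset.mul_sum, ← Finset.mul_sum, ← h00]
  exact add_le_add (mul_le_mul_of_nonneg_left hmass (by norm_num)) le_rfl

end Pool.Agent.Lib.MP_1ad228_ntN
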