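import Pool.Agent.Lib.MP_1ad228_ntN.B_Def

/-!
JOB B_StrK.  Symmetric matrices over `K` orthogonal to all products `f_s ⊗ g_t`. (Model: structE in Lib/MP_1ad228_ntF/B_Str.lean; here directly over the field `K`.)

PROOF.  By `perp_mem` (TpK; for `x` and for `y`; `x, y ≠ 0` because some minor is nonzero) the hypothesis `h` gives `u^T E v = 0` for all `u : Vc n K` with `lin u (kv x) = 0` and all `v` with `lin v (kv y) = 0`. Take `j` with
`D := x_o y_j - x_j y_o ≠ 0` (`mn x y o j`), `p = D⁻¹ (y_j e_o - y_o e_j)`, `r = D⁻¹ (x_o e_j - x_j e_o)`: `p(x) = 1, p(y) = 0, r(x) = 0, r(y) = 1`.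
For every `i`: `e_i = x_i p + y_i r + h_i` with `h_i` killing `x` and `y`. For all `a, b`: `E_ab = e_a^T E e_b`; expand `e_a = x_a p + (y_a r + h_a)`, where `y_a r + h_a` kills `x`, and `e_b = y_b r + (x_b p + h_b)`, where
`x_b p + h_b` kills `y`: `E_ab = x_a y_b p^T E r + x_a p^T E (x_b p + h_b) + y_b (y_a r + h_a)^T E r + 0`.
`p` kills `y` and `r` kills `x`: `p^T E h_b = h_b^T E p = 0` by symmetry (`h_b` kills `x`, `p` kills `y`), `h_a^T E r = r^T E h_a = 0` (`r` kills `x`, `h_a` kills `y`), `p^T E r = r^T E p = 0`. So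
`E_ab = x_a x_b p^T E p + y_a y_b r^T E r`.
-/

namespace Pool.Agent.Lib.MP_1ad228_ntN

open NumberField Classical

set_option linter.unusedSectionVars false

variable {K : Type} [Field K] [NumberField K]

/-- the bilinear form of a matrix -/
private noncomputable def BSK {n : ℕ} (e : Fin (n + 1) → Fin (n + 1) → K) :
    Vc n K →ₗ[K] Vc n K →ₗ[K] K :=
  LinearMap.mk₂ K (fun u v => ∑ i, ∑ j, u i * e i j * v j)
    (fun u u' v => by
      simp only [Pi.add_apply, add_mul, Finset.sum_add_distrib])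
    (fun c u v => by
      simp only [Pi.smul_apply, smul_eq_mul, Finset.mul_sum, mul_assoc])
    (fun u v v' => by
      simp only [Pi.add_apply, mul_add, Finset.sum_add_distrib])
    (fun c u v => by
      simp only [Pi.smul_apply, smul_eq_mul, Finset.mul_sum]
      refine Finset.sum_congr rfl fun i _ => Finset.sum_congr rfl fun j _ => ?_
      ring)

private theorem BSK_apply {n : ℕ} (e : Fin (n + 1) → Fin (n + 1) → K) (u v : Vc n K) :
    BSK e u v = ∑ i, ∑ j, u i * e i j * v j := rfl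

private theorem BSK_symm {n : ℕ} (e : Fin (n + 1) → Fin (n + 1) → K)
    (he : ∀ i j, e i j = e j i) (u v : Vc n K) : BSK e u v = BSK e v u := by
  rw [BSK_apply, BSK_apply, Finset.sum_comm]
  refine Finset.sum_congr rfl fun i _ => Finset.sum_congr rfl fun j _ => ?_
  rw [he j i]
  ring

private theorem BSK_single {n : ℕ} (e : Fin (n + 1) → Fin (n + 1) → K) (a b : Fin (n + 1)) :
    BSK e (Pi.single a 1) (Pi.single b 1) = e a b := by
  rw [BSK_apply, Finset.sum_eq_single a]
  · rw [Finset.sum_eq_single b]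
    · rw [Pi.single_eq_same, Pi.single_eq_same, one_mul, mul_one]
    · intro j _ hj
      rw [Pi.single_eq_of_ne hj, mul_zero]
    · intro h
      exact absurd (Finset.mem_univ _) h
  · intro i _ hi
    refine Finset.sum_eq_zero fun j _ => ?_
    rw [Pi.single_eq_of_ne hi, zero_mul, zero_mul]
  · intro h
    exact absurd (Finset.mem_univ _) h

theorem structK {n : ℕ} (x y : Vc n (𝓞 K)) (o : Fin (n + 1)) (hxy : ∃ j, mn x y o j ≠ 0)
    (f g : Fin n → Vc n (𝓞 K)) (hf : LinearIndependent (𝓞 K) f)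
    (hg : LinearIndependent (𝓞 K) g)
    (f0 : ∀ s, lin (f s) x = 0) (g0 : ∀ s, lin (g s) y = 0)
    (E : Fin (n + 1) → Fin (n + 1) → K) (hE : ∀ i j, E i j = E j i)
    (h : ∀ s t, ∑ i, ∑ j, (f s i : K) * E i j * (g t j : K) = 0) :
    ∃ α β : K, ∀ i j, E i j = α * ((x i : K) * (x j : K)) + β * ((y i : K) * (y j : K)) := by
  obtain ⟨j, hj⟩ := hxy
  have hx0 : x ≠ 0 := by
    rintro rfl
    apply hj
    simp [Pool.Agent.Lib.MP_219881_nt.mn]
  have hy0 : y ≠ 0 := by
    rintro rfl
    apply hj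
    simp [Pool.Agent.Lib.MP_219881_nt.mn]
  have h0 : ∀ s t, BSK E (kv (f s)) (kv (g t)) = 0 := by
    intro s t
    rw [BSK_apply]
    exact h s t
  have h1 : ∀ u v : Vc n K, lin u (kv x) = 0 → lin v (kv y) = 0 → BSK E u v = 0 := by
    intro u v hu hv
    have hu' := perp_mem x hx0 f hf f0 hu
    have hv' := perp_mem y hy0 g hg g0 hv
    have h2 : ∀ s, BSK E (kv (f s)) v = 0 := by
      intro s
      have h3 : Submodule.span K (Set.range fun t : Fin n => kv (g t)) ≤
          LinearMap.ker (BSK E (kv (f s))) := by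
        rw [Submodule.span_le]
        rintro _ ⟨t, rfl⟩
        exact h0 s t
      exact h3 hv'
    have h4 : Submodule.span K (Set.range fun s : Fin n => kv (f s)) ≤
        LinearMap.ker ((BSK E).flip v) := by
      rw [Submodule.span_le]
      rintro _ ⟨s, rfl⟩
      exact h2 s
    exact h4 hu'
  set D : K := (x o : K) * (y j : K) - (x j : K) * (y o : K) with hD
  have hD0 : D ≠ 0 := by
    have h2 : D = ((mn x y o j : 𝓞 K) : K) := by
      rw [hD]
      unfold Pool.Agent.Lib.MP_219881_nt.mn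
      push_cast
      ring
    rw [h2]
    intro h3
    exact hj (RingOfIntegers.ext (h3.trans (map_zero (algebraMap (𝓞 K) K)).symm))
  set p : Vc n K := D⁻¹ • ((y j : K) • Pi.single o 1 - (y o : K) • Pi.single j 1) with hp
  set r : Vc n K := D⁻¹ • ((x o : K) • Pi.single j 1 - (x j : K) • Pi.single o 1) with hr
  have lsm : ∀ (c : K) (u z : Vc n K), lin (c • u) z = c * lin u z := by
    intro c u z
    simp only [lin, Pi.smul_apply, smul_eq_mul, Finset.mul_sum, mul_assoc]
  have px : lin p (kv x) = 1 := by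
    rw [hp, lsm, lin_sub, lsm, lsm, lin_single, lin_single]
    show D⁻¹ * ((y j : K) * (x o : K) - (y o : K) * (x j : K)) = 1
    rw [show (y j : K) * (x o : K) - (y o : K) * (x j : K) = D by rw [hD]; ring]
    exact inv_mul_cancel₀ hD0
  have py : lin p (kv y) = 0 := by
    rw [hp, lsm, lin_sub, lsm, lsm, lin_single, lin_single]
    show D⁻¹ * ((y j : K) * (y o : K) - (y o : K) * (y j : K)) = 0
    ring
  have rx : lin r (kv x) = 0 := by
    rw [hr, lsm, lin_sub, lsm, lsm, lin_single, lin_single]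
    show D⁻¹ * ((x o : K) * (x j : K) - (x j : K) * (x o : K)) = 0
    ring
  have ry : lin r (kv y) = 1 := by
    rw [hr, lsm, lin_sub, lsm, lsm, lin_single, lin_single]
    show D⁻¹ * ((x o : K) * (y j : K) - (x j : K) * (y o : K)) = 1
    exact inv_mul_cancel₀ hD0
  clear_value p r
  refine ⟨BSK E p p, BSK E r r, fun a b => ?_⟩
  have hh : ∀ i : Fin (n + 1), ∃ w : Vc n K, lin w (kv x) = 0 ∧ lin w (kv y) = 0 ∧
      (Pi.single i 1 : Vc n K) = (x i : K) • p + (y i : K) • r + w := by
    intro i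
    refine ⟨Pi.single i 1 - ((x i : K) • p + (y i : K) • r), ?_, ?_, ?_⟩
    · rw [lin_sub, lin_add, lsm, lsm, lin_single, px, rx]
      show (x i : K) - ((x i : K) * 1 + (y i : K) * 0) = 0
      ring
    · rw [lin_sub, lin_add, lsm, lsm, lin_single, py, ry]
      show (y i : K) - ((x i : K) * 0 + (y i : K) * 1) = 0
      ring
    · rw [add_sub_cancel]
  obtain ⟨wa, wax, way, ha⟩ := hh a
  obtain ⟨wb, wbx, wby, hb⟩ := hh b
  have q1 : BSK E p r = 0 := by
    rw [BSK_symm E hE]
    exact h1 _ _ rx py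
  have q2 : BSK E r p = 0 := h1 _ _ rx py
  have q3 : BSK E p wb = 0 := by
    rw [BSK_symm E hE]
    exact h1 _ _ wbx py
  have q4 : BSK E wa p = 0 := h1 _ _ wax py
  have q5 : BSK E r wb = 0 := h1 _ _ rx wby
  have q6 : BSK E wa r = 0 := by
    rw [BSK_symm E hE]
    exact h1 _ _ rx way
  have q7 : BSK E wa wb = 0 := h1 _ _ wax wby
  have h5 : E a b = BSK E (Pi.single a 1) (Pi.single b 1) := (BSK_single E a b).symm
  rw [h5, ha, hb]
  simp only [map_add, map_smul, LinearMap.add_apply, LinearMap.smul_apply, smul_eq_mul, q1, q2,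
    q3, q4, q5, q6, q7]
  ring

end Pool.Agent.Lib.MP_1ad228_ntN
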