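import Pool.Agent.Lib.MP_1ad228_ntN.B_Dual
import Pool.Agent.Lib.MP_1ad228_ntN.B_StrK

/-!
JOB B_Phase.  The phase of the value pair at a major frequency is close to an integer. (Model: middle part of the proof of slB_close in Lib/MP_1ad228_ntF/B_Close.lean.)

PROOF.  `Tr = Algebra.trace ℚ K`, `κ = CK K n`, `e = eK K`. `Λ, Λ'` from `dualE c`, `dualE c'`: `∑ w, c w * co z w = Tr (Λ z)`. For `a, b` let `Eh a b : K` (from `dualE (fun u => (E a b u : ℚ))`) : `Tr (Eh a b * z) = ∑ u, E a b u * co z u`, an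
integer for `z : 𝓞 K`; `Eh a b = Eh b a` (`dual_inj`: both have the same traces with `bas u`). `θ a b = Λ x_a x_b + Λ' y_a y_b`, `R a b = θ a b - Eh a b`, symmetric; `|Tr (R a b * bas u)| ≤ δ` (hypothesis; `dual_co` gives
`Tr (Eh a b * bas u) = E a b u`, because `co (bas u) w = if w = u then 1 else 0`, see NB_Bas; `Tr (θ a b * bas u)` is the sum in the hypothesis).
(1) `∑ a, ∑ b, f_s(a) θ_ab g_t(b) = Λ (f_s·x)(x·g_t) + Λ' (f_s·y)(y·g_t) = 0` (`f0`, `g0`). So `Tr (bas u * ∑∑ f_s(a) Eh_ab g_t(b)) = - ∑∑ Tr (R_ab * (bas u f_s(a) g_t(b)))`, each term by `trK` at most `e κ (κ H^2) δ` in absolute value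
(`v (bas u) ≤ κ`: `co_up` with coordinates 0 and 1), the sum at most `(n+1)^2 e κ^2 H^2 δ ≤ T'`; and it is an integer. So all `trB K T' (∑∑ ..)` hold; as `¬ ExcP T' f g`, all `∑∑ f_s(a) Eh_ab g_t(b) = 0`.
(2) `structK`: `Eh_ab = α x_a x_b + β y_a y_b`, so `R_ab = (Λ - α) x_a x_b + (Λ' - β) y_a y_b`.
(3) `m = ev a0 x`, `m' = ev a0 y`; for `d = 2` `ev a x = ∑ s : Fin 2 → Fin (n+1), a s * (x (s 0) * x (s 1))` (`Fin.prod_univ_two`). `Λ m + Λ' m' = ∑ s, a0 s * θ (s 0) (s 1)`, `z = ∑ s, Tr (a0 s * Eh (s 0) (s 1))` is an integer, and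
`Tr (Λ m + Λ' m') - z = Tr (∑ s, a0 s R_s)`, `∑ s, a0 s R_s = (Λ - α) m + (Λ' - β) m' = ∑ s, b s R_s` (`hb`, `hb'`), each `|Tr (R_s * b s)| ≤ e κ β0 δ` (`trK`), there are `(n+1)^2` of them.
`C = (n+1)^2 e κ^2` (`≥ 1`).
-/

namespace Pool.Agent.Lib.MP_1ad228_ntN

open NumberField Classical

set_option linter.unusedSectionVars false

variable {K : Type} [Field K] [NumberField K]

private theorem B_Phase_co (u w : Fin (eK K)) : co (bas K u) w = if w = u then 1 else 0 := by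
  unfold co
  rw [Module.Basis.repr_self, Finsupp.single_apply]
  by_cases h : u = w
  · rw [if_pos h, if_pos h.symm]
  · rw [if_neg h, if_neg (Ne.symm h)]

private theorem B_Phase_bas (n : ℕ) (u : Fin (eK K)) (v : InfinitePlace K) : v (bas K u : K) ≤ CK K n := by
  have h := co_up n (bas K u) 1 (fun i => by
    rw [B_Phase_co]
    split_ifs <;> simp) v
  rwa [mul_one] at h

/-- the data of one side -/
private theorem B_Phase_E (E : Fin (eK K) → ℤ) {Eh : K}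
    (h : ∀ z : 𝓞 K, Algebra.trace ℚ K (Eh * (z : K)) = ∑ u, (E u : ℚ) * (co z u : ℚ)) :
    (∀ u, Algebra.trace ℚ K (Eh * (bas K u : K)) = (E u : ℚ)) ∧
      ∀ z : 𝓞 K, ∃ k : ℤ, Algebra.trace ℚ K (Eh * (z : K)) = (k : ℚ) := by
  constructor
  · intro u
    rw [h, Finset.sum_eq_single u]
    · rw [B_Phase_co, if_pos rfl]
      simp
    · intro w _ hw
      rw [B_Phase_co, if_neg hw]
      simp
    · intro h1
      exact absurd (Finset.mem_univ u) h1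
  · intro z
    refine ⟨∑ u, E u * co z u, ?_⟩
    rw [h]
    push_cast
    rfl

private theorem B_Phase_sum {n : ℕ} {F : Type*} [Field F] (p q : F) (x y f g : Fin (n + 1) → F) (hf : ∑ a, f a * x a = 0)
    (hg : ∑ a, g a * y a = 0) :
    ∑ a, ∑ b, f a * (p * (x a * x b) + q * (y a * y b)) * g b = 0 := by
  have h1 : ∀ a, ∑ b, f a * (p * (x a * x b) + q * (y a * y b)) * g b = p * (f a * x a) * ∑ b, x b * g b := by
    intro a
    have h2 : ∀ b, f a * (p * (x a * x b) + q * (y a * y b)) * g b =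
        p * (f a * x a) * (x b * g b) + q * (f a * y a) * (g b * y b) := fun b => by ring
    rw [Finset.sum_congr rfl fun b _ => h2 b, Finset.sum_add_distrib, ← Finset.mul_sum, ← Finset.mul_sum, hg, mul_zero,
      add_zero]
  rw [Finset.sum_congr rfl fun a _ => h1 a, ← Finset.sum_mul, ← Finset.mul_sum, hf, mul_zero, zero_mul]

/-- the integrality and the bound of the products -/
private theorem B_Phase_trB (n : ℕ) {H T' : ℕ} {δ : ℝ} (hδ : 0 ≤ δ)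
    (hC : ((n : ℝ) + 1) ^ 2 * eK K * CK K n ^ 2 * (H : ℝ) ^ 2 * δ ≤ T')
    {f g : Vc n (𝓞 K)} (hf : ∀ i, ∀ v : InfinitePlace K, v (f i : K) ≤ H)
    (hg : ∀ i, ∀ v : InfinitePlace K, v (g i : K) ≤ H) {Th Eh : Fin (n + 1) → Fin (n + 1) → K}
    (hI : ∀ a b, ∀ z : 𝓞 K, ∃ k : ℤ, Algebra.trace ℚ K (Eh a b * (z : K)) = (k : ℚ))
    (hR : ∀ a b u, |((Algebra.trace ℚ K ((Th a b - Eh a b) * (bas K u : K)) : ℚ) : ℝ)| ≤ δ)
    (h0 : ∑ a, ∑ b, (f a : K) * Th a b * (g b : K) = 0) :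
    trB K T' (∑ a, ∑ b, (f a : K) * Eh a b * (g b : K)) := by
  intro u
  have hc1 := CK_one_le K n
  have hH0 : (0 : ℝ) ≤ H := Nat.cast_nonneg _
  choose k hk using fun (a b : Fin (n + 1)) => hI a b (f a * g b * bas K u)
  refine ⟨∑ a, ∑ b, k a b, ?_, ?_⟩
  swap
  · have h1 : (∑ a, ∑ b, (f a : K) * Eh a b * (g b : K)) * (bas K u : K) =
        ∑ a, ∑ b, Eh a b * ((f a * g b * bas K u : 𝓞 K) : K) := by
      rw [Finset.sum_mul]
      refine Finset.sum_congr rfl fun a _ => ?_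
      rw [Finset.sum_mul]
      refine Finset.sum_congr rfl fun b _ => ?_
      push_cast
      ring
    rw [h1, map_sum]
    push_cast
    refine Finset.sum_congr rfl fun a _ => ?_
    rw [map_sum]
    exact Finset.sum_congr rfl fun b _ => hk a b
  · have h1 : ((∑ a, ∑ b, k a b : ℤ) : ℚ) =
        -∑ a, ∑ b, Algebra.trace ℚ K ((Th a b - Eh a b) * ((f a * g b * bas K u : 𝓞 K) : K)) := by
      have h2 : ∑ a, ∑ b, Algebra.trace ℚ K (Th a b * ((f a * g b * bas K u : 𝓞 K) : K)) = 0 := by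
        have h3 : ∑ a, ∑ b, Th a b * ((f a * g b * bas K u : 𝓞 K) : K) = 0 := by
          have h4 : (∑ a, ∑ b, (f a : K) * Th a b * (g b : K)) * (bas K u : K) = 0 := by rw [h0, zero_mul]
          rw [← h4, Finset.sum_mul]
          refine Finset.sum_congr rfl fun a _ => ?_
          rw [Finset.sum_mul]
          refine Finset.sum_congr rfl fun b _ => ?_
          push_cast
          ring
        have h5 := congrArg (Algebra.trace ℚ K) h3
        rw [map_sum, map_zero] at h5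
        rw [← h5]
        exact Finset.sum_congr rfl fun a _ => (map_sum _ _ _).symm
      have h6 : ∀ a b, Algebra.trace ℚ K ((Th a b - Eh a b) * ((f a * g b * bas K u : 𝓞 K) : K)) =
          Algebra.trace ℚ K (Th a b * ((f a * g b * bas K u : 𝓞 K) : K)) - (k a b : ℚ) := by
        intro a b
        rw [sub_mul, map_sub, hk]
      rw [Finset.sum_congr rfl fun a _ => Finset.sum_congr rfl fun b _ => h6 a b]
      simp only [Finset.sum_sub_distrib]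
      rw [h2, zero_sub, neg_neg]
      push_cast
      rfl
    have h2 : |((∑ a, ∑ b, k a b : ℤ) : ℝ)| ≤ T' := by
      have h3 : ((∑ a, ∑ b, k a b : ℤ) : ℝ) =
          -∑ a, ∑ b, ((Algebra.trace ℚ K ((Th a b - Eh a b) * ((f a * g b * bas K u : 𝓞 K) : K)) : ℚ) : ℝ) := by
        have h4 := congrArg (fun q : ℚ => (q : ℝ)) h1
        push_cast at h4 ⊢
        exact h4
      rw [h3, abs_neg]
      have h4 : ∀ a b, |((Algebra.trace ℚ K ((Th a b - Eh a b) * ((f a * g b * bas K u : 𝓞 K) : K)) : ℚ) : ℝ)| ≤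
          (eK K : ℝ) * CK K n * (H * H * CK K n) * δ := by
        intro a b
        refine trK n _ _ (H * H * CK K n) δ (fun v => ?_) (hR a b)
        push_cast
        rw [v_mul, v_mul]
        exact mul_le_mul (mul_le_mul (hf a v) (hg b v) (v_nonneg v _) hH0) (B_Phase_bas n u v) (v_nonneg v _)
          (by positivity)
      refine (Finset.abs_sum_le_sum_abs _ _).trans ?_
      refine (Finset.sum_le_sum fun a _ => (Finset.abs_sum_le_sum_abs _ _).trans (Finset.sum_le_sum fun b _ => h4 a b)).trans ?_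
      rw [Finset.sum_const, Finset.sum_const, Finset.card_univ, Fintype.card_fin, nsmul_eq_mul, nsmul_eq_mul]
      refine (le_of_eq ?_).trans hC
      push_cast
      ring
    have h9 : ((|∑ a, ∑ b, k a b| : ℤ) : ℝ) ≤ ((T' : ℤ) : ℝ) := by
      rw [Int.cast_abs]
      exact_mod_cast h2
    exact_mod_cast h9

private theorem B_Phase_ev {n : ℕ} {R : Type*} [CommRing R] (a : Ten n 2 R) (x : Vc n R) :
    ev a x = ∑ s, a s * (x (s 0) * x (s 1)) := by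
  unfold ev
  exact Finset.sum_congr rfl fun s _ => by rw [Fin.prod_univ_two]

private theorem B_Phase_dist (n : ℕ) {δ β0 : ℝ} (hδ : 0 ≤ δ) {x y : Vc n (𝓞 K)} {Λ Λ' α β : K}
    {Eh : Fin (n + 1) → Fin (n + 1) → K}
    (hI : ∀ a b, ∀ z : 𝓞 K, ∃ k : ℤ, Algebra.trace ℚ K (Eh a b * (z : K)) = (k : ℚ))
    (hR : ∀ a b u, |((Algebra.trace ℚ K ((Λ * ((x a : K) * x b) + Λ' * ((y a : K) * y b) - Eh a b) *
      (bas K u : K)) : ℚ) : ℝ)| ≤ δ)
    (hE : ∀ a b, Eh a b = α * ((x a : K) * x b) + β * ((y a : K) * y b))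
    (a0 : Ten n 2 (𝓞 K)) (b : Ten n 2 K) (hb : ev b (kv x) = ((ev a0 x : 𝓞 K) : K))
    (hb' : ev b (kv y) = ((ev a0 y : 𝓞 K) : K)) (hβ : ∀ s, ∀ v : InfinitePlace K, v (b s) ≤ β0) :
    ∃ z : ℤ, |((Algebra.trace ℚ K (Λ * ((ev a0 x : 𝓞 K) : K) + Λ' * ((ev a0 y : 𝓞 K) : K)) : ℚ) : ℝ) - z| ≤
      ((n : ℝ) + 1) ^ 2 * eK K * CK K n * β0 * δ := by
  choose k hk using fun s : Fin 2 → Fin (n + 1) => hI (s 0) (s 1) (a0 s)
  have hm : ((ev a0 x : 𝓞 K) : K) = ∑ s, (a0 s : K) * ((x (s 0) : K) * x (s 1)) := by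
    rw [B_Phase_ev]
    push_cast
    rfl
  have hm' : ((ev a0 y : 𝓞 K) : K) = ∑ s, (a0 s : K) * ((y (s 0) : K) * y (s 1)) := by
    rw [B_Phase_ev]
    push_cast
    rfl
  have hbx : ∑ s, b s * ((x (s 0) : K) * x (s 1)) = ((ev a0 x : 𝓞 K) : K) := by
    rw [← hb, B_Phase_ev]
    rfl
  have hby : ∑ s, b s * ((y (s 0) : K) * y (s 1)) = ((ev a0 y : 𝓞 K) : K) := by
    rw [← hb', B_Phase_ev]
    rfl
  have h1 : Λ * ((ev a0 x : 𝓞 K) : K) + Λ' * ((ev a0 y : 𝓞 K) : K) - ∑ s : Fin 2 → Fin (n + 1), Eh (s 0) (s 1) * (a0 s : K) =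
      ∑ s : Fin 2 → Fin (n + 1), (Λ * ((x (s 0) : K) * x (s 1)) + Λ' * ((y (s 0) : K) * y (s 1)) - Eh (s 0) (s 1)) * b s := by
    have h2 : ∑ s : Fin 2 → Fin (n + 1), Eh (s 0) (s 1) * (a0 s : K) =
        α * ((ev a0 x : 𝓞 K) : K) + β * ((ev a0 y : 𝓞 K) : K) := by
      rw [hm, hm', Finset.mul_sum, Finset.mul_sum, ← Finset.sum_add_distrib]
      refine Finset.sum_congr rfl fun s _ => ?_
      rw [hE]
      ring
    have h3 : ∑ s : Fin 2 → Fin (n + 1), (Λ * ((x (s 0) : K) * x (s 1)) + Λ' * ((y (s 0) : K) * y (s 1)) - Eh (s 0) (s 1)) * b s =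
        (Λ - α) * ((ev a0 x : 𝓞 K) : K) + (Λ' - β) * ((ev a0 y : 𝓞 K) : K) := by
      rw [← hbx, ← hby, Finset.mul_sum, Finset.mul_sum, ← Finset.sum_add_distrib]
      refine Finset.sum_congr rfl fun s _ => ?_
      rw [hE]
      ring
    rw [h2, h3]
    ring
  refine ⟨∑ s, k s, ?_⟩
  have h2 : Algebra.trace ℚ K (Λ * ((ev a0 x : 𝓞 K) : K) + Λ' * ((ev a0 y : 𝓞 K) : K)) - ((∑ s, k s : ℤ) : ℚ) =
      ∑ s : Fin 2 → Fin (n + 1), Algebra.trace ℚ K ((Λ * ((x (s 0) : K) * x (s 1)) + Λ' * ((y (s 0) : K) * y (s 1)) -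
        Eh (s 0) (s 1)) * b s) := by
    rw [← map_sum, ← h1, map_sub, map_sum]
    push_cast
    rw [Finset.sum_congr rfl fun s _ => hk s]
  have h3 : ((Algebra.trace ℚ K (Λ * ((ev a0 x : 𝓞 K) : K) + Λ' * ((ev a0 y : 𝓞 K) : K)) : ℚ) : ℝ) -
      ((∑ s, k s : ℤ) : ℝ) = ∑ s : Fin 2 → Fin (n + 1), ((Algebra.trace ℚ K ((Λ * ((x (s 0) : K) * x (s 1)) +
        Λ' * ((y (s 0) : K) * y (s 1)) - Eh (s 0) (s 1)) * b s) : ℚ) : ℝ) := by
    have h4 := congrArg (fun q : ℚ => (q : ℝ)) h2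
    push_cast at h4 ⊢
    exact h4
  rw [h3]
  refine (Finset.abs_sum_le_sum_abs _ _).trans ?_
  refine (Finset.sum_le_sum fun s _ => trK n _ _ β0 δ (hβ s) (hR (s 0) (s 1))).trans ?_
  rw [Finset.sum_const, Finset.card_univ, Fintype.card_fun, Fintype.card_fin, Fintype.card_fin, nsmul_eq_mul]
  refine le_of_eq ?_
  push_cast
  ring

variable (K) in
theorem phase (n : ℕ) : ∃ C : ℝ, 1 ≤ C ∧ ∀ (x y : Vc n (𝓞 K)) (o : Fin (n + 1)),
    (∃ j, mn x y o j ≠ 0) → ∀ f g : Fin n → Vc n (𝓞 K), LinearIndependent (𝓞 K) f →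
    LinearIndependent (𝓞 K) g → (∀ s, lin (f s) x = 0) → (∀ s, lin (g s) y = 0) →
    ∀ H T' : ℕ, (∀ s i, ∀ v : InfinitePlace K, v (f s i : K) ≤ H) →
    (∀ s i, ∀ v : InfinitePlace K, v (g s i : K) ≤ H) → ¬ ExcP T' f g →
    ∀ δ : ℝ, 0 ≤ δ → C * (H : ℝ) ^ 2 * δ ≤ T' → ∀ c c' : Fin (eK K) → ℚ,
    ∀ E : Fin (n + 1) → Fin (n + 1) → Fin (eK K) → ℤ, (∀ a b u, E a b u = E b a u) →
    (∀ a b u, |((∑ w, c w * (co (bas K u * (x a * x b)) w : ℚ) +
      ∑ w, c' w * (co (bas K u * (y a * y b)) w : ℚ) : ℚ) : ℝ) - E a b u| ≤ δ) →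
    ∀ (a0 : Ten n 2 (𝓞 K)) (b : Ten n 2 K), ev b (kv x) = ((ev a0 x : 𝓞 K) : K) →
    ev b (kv y) = ((ev a0 y : 𝓞 K) : K) → ∀ β0 : ℝ, (∀ s, ∀ v : InfinitePlace K, v (b s) ≤ β0) →
    ∃ z : ℤ, |((∑ w, c w * (co (ev a0 x) w : ℚ) +
      ∑ w, c' w * (co (ev a0 y) w : ℚ) : ℚ) : ℝ) - z| ≤ C * β0 * δ := by
  have hc1 := CK_one_le K n
  have he1 : (1 : ℝ) ≤ eK K := by exact_mod_cast (eK_pos (K := K))
  have hn1 : (1 : ℝ) ≤ ((n : ℝ) + 1) ^ 2 := by
    have : (1 : ℝ) ≤ (n : ℝ) + 1 := by linarith [(Nat.cast_nonneg n : (0 : ℝ) ≤ n)]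
    exact one_le_pow₀ this
  refine ⟨((n : ℝ) + 1) ^ 2 * eK K * CK K n ^ 2, ?_, ?_⟩
  · exact one_le_mul_of_one_le_of_one_le (one_le_mul_of_one_le_of_one_le hn1 he1) (one_le_pow₀ hc1)
  intro x y o hxy f g hf hg f0 g0 H T' hfH hgH hE δ hδ hT c c' E hsym hδE a0 b hb hb' β0 hβ
  obtain ⟨Λ, hΛ⟩ := dualE (K := K) c
  obtain ⟨Λ', hΛ'⟩ := dualE (K := K) c'
  choose Eh hEh using fun a b => dualE (K := K) (fun u => (E a b u : ℚ))
  have hI : ∀ a b, ∀ z : 𝓞 K, ∃ k : ℤ, Algebra.trace ℚ K (Eh a b * (z : K)) = (k : ℚ) := fun a b =>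
    (B_Phase_E (E a b) (hEh a b)).2
  have hB : ∀ a b u, Algebra.trace ℚ K (Eh a b * (bas K u : K)) = (E a b u : ℚ) := fun a b =>
    (B_Phase_E (E a b) (hEh a b)).1
  have hEs : ∀ a b, Eh a b = Eh b a := by
    intro a b
    rw [← sub_eq_zero]
    refine dual_inj fun u => ?_
    rw [sub_mul, map_sub, hB, hB, hsym a b u, sub_self]
  have hR : ∀ a b u, |((Algebra.trace ℚ K ((Λ * ((x a : K) * x b) + Λ' * ((y a : K) * y b) - Eh a b) *
      (bas K u : K)) : ℚ) : ℝ)| ≤ δ := by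
    intro a b u
    have h1 : (Λ * ((x a : K) * x b) + Λ' * ((y a : K) * y b) - Eh a b) * (bas K u : K) =
        Λ * ((bas K u * (x a * x b) : 𝓞 K) : K) + Λ' * ((bas K u * (y a * y b) : 𝓞 K) : K) - Eh a b * (bas K u : K) := by
      push_cast
      ring
    rw [h1, map_sub, map_add, hΛ, hΛ', hB]
    have h2 := hδE a b u
    push_cast at h2 ⊢
    exact h2
  have hfx : ∀ s, ∑ a, (f s a : K) * (x a : K) = 0 := by
    intro s
    have h1 := congrArg (fun z : 𝓞 K => (z : K)) (f0 s)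
    unfold Pool.Agent.Lib.MP_219881_nt.lin at h1
    push_cast at h1
    exact h1
  have hgy : ∀ t, ∑ a, (g t a : K) * (y a : K) = 0 := by
    intro t
    have h1 := congrArg (fun z : 𝓞 K => (z : K)) (g0 t)
    unfold Pool.Agent.Lib.MP_219881_nt.lin at h1
    push_cast at h1
    exact h1
  have hall : ∀ s t, ∑ a, ∑ b, (f s a : K) * Eh a b * (g t b : K) = 0 := by
    intro s t
    by_contra hne
    refine hE ⟨Eh, hEs, fun s t => ?_, s, t, hne⟩
    exact B_Phase_trB n hδ hT (hfH s) (hgH t)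
      (Th := fun a b => Λ * ((x a : K) * x b) + Λ' * ((y a : K) * y b)) hI hR
      (B_Phase_sum Λ Λ' (fun a => (x a : K)) (fun a => (y a : K)) (fun a => (f s a : K)) (fun a => (g t a : K))
        (hfx s) (hgy t))
  obtain ⟨α, β, hαβ⟩ := structK x y o hxy f g hf hg f0 g0 Eh hEs hall
  obtain ⟨z, hz⟩ := B_Phase_dist n hδ hI hR hαβ a0 b hb hb' hβ
  refine ⟨z, ?_⟩
  have h1 : ((∑ w, c w * (co (ev a0 x) w : ℚ) + ∑ w, c' w * (co (ev a0 y) w : ℚ) : ℚ)) =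
      Algebra.trace ℚ K (Λ * ((ev a0 x : 𝓞 K) : K) + Λ' * ((ev a0 y : 𝓞 K) : K)) := by
    rw [map_add, hΛ, hΛ']
  rw [h1]
  refine hz.trans ?_
  have hβ0 : 0 ≤ β0 := by
    obtain ⟨v⟩ : Nonempty (InfinitePlace K) := inferInstance
    exact (v_nonneg v _).trans (hβ (fun _ => 0) v)
  have h2 : CK K n ≤ CK K n ^ 2 := by nlinarith
  gcongr

end Pool.Agent.Lib.MP_1ad228_ntN
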