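import Pool.Agent.Lib.MP_1ad228_ntN.B_Sli
import Pool.Agent.Lib.MP_1ad228_ntN.B_Br
import Pool.Agent.Lib.MP_1ad228_ntN.B_CloseA
import Pool.Agent.Lib.MP_1ad228_ntN.B_Phase

/-!
JOB B_CloK.  The slices of a non exceptional pair are close (degree 2). (Model: slB_close in Lib/MP_1ad228_ntF/B_Close.lean.)

PROOF.  `C1` of `sliB K n 2`, `C2` of `phase K n`. `N = kn K n * A`, `M = mM 2 x y`, `slB_eq`. `δ = C1 * n2 2 x y A / A`: for `i = (s, u)` and `j ≤ J` the family `fun k => 2^j * M k i` is `cmm (2^j * (bas u * ∏ l, x (s l))) (2^j * (bas u * ∏ l, y (s l)))`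
(`co` is linear over `ℤ`), so by the second part of `sliB` with `t = 2^j ≤ 2^J ≤ A`: `aS N M 0 - aS N M (fun k => 2^j * M k i) ≤ 2^j * δ` (`0 = cmm 0 0`).
`closeA` with `m = cmm (ev a0 x) (ev a0 y)`, `ψ = C2 * β0 * (1/2^(J+2))`: for `l` major put `c w = l (true, w)/Q`, `c' w = l (false, w)/Q`, `E a b u = round (aTh M l (![a, b], u))`; `aTh M l (![a, b], u)` is the sum in the hypothesis of `phase`
(sum over `Bool × Fin e` = two sums, `Fintype.sum_prod_type`, `Fintype.sum_bool`; `∏ l, x (![a, b] l) = x a * x b`, `Fin.prod_univ_two`), symmetric in `a, b` because `x a * x b = x b * x a`. `phase` with `δ := 1/2^(J+2)`: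
`C2 H^2/2^(J+2) ≤ T'`. Result: `2 * (card ι * (2^(J+1) * (C1 n2/A))) + 20 ψ^2 * slB 0 0`, `card ι = (n+1)^2 * eK K`, `slB 0 0 ≤ C1 n2`; the constant is `max` or sum of `4 (n+1)^2 e C1`, `20 C1 C2^2`, `C2`.
-/

namespace Pool.Agent.Lib.MP_1ad228_ntN

open NumberField Classical

set_option linter.unusedSectionVars false

variable {K : Type} [Field K] [NumberField K]

private theorem co_natMul (t : ℕ) (w : 𝓞 K) (k : Fin (eK K)) :
    co ((t : 𝓞 K) * w) k = (t : ℤ) * co w k := by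
  unfold co
  rw [← nsmul_eq_mul, map_nsmul, Finsupp.smul_apply, nsmul_eq_mul]

private theorem cmm_zero : cmm (0 : 𝓞 K) 0 = 0 := by
  funext k
  unfold cmm co
  simp

private theorem cmm_mul (t : ℕ) (z w : 𝓞 K) :
    cmm ((t : 𝓞 K) * z) ((t : 𝓞 K) * w) = fun k => (t : ℤ) * cmm z w k := by
  funext k
  unfold cmm
  rw [← co_natMul]
  by_cases h : k.1 = true
  · rw [if_pos h, if_pos h]
  · rw [if_neg h, if_neg h]

private theorem mM_eq {n : ℕ} (d : ℕ) (x y : Vc n (𝓞 K)) (s : Fin d → Fin (n + 1))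
    (u : Fin (eK K)) (k : Bool × Fin (eK K)) :
    mM d x y k (s, u) = cmm (bas K u * ∏ l, x (s l)) (bas K u * ∏ l, y (s l)) k := by
  unfold mM cmm
  by_cases h : k.1 = true
  · rw [if_pos h, if_pos h]
  · rw [if_neg h, if_neg h]

private theorem cmm_sum {Q : ℕ} (l : Bool × Fin (eK K) → Fin Q) (z w : 𝓞 K) :
    ((∑ i, (((l (true, i) : ℕ) : ℚ) / Q) * (co z i : ℚ) +
      ∑ i, (((l (false, i) : ℕ) : ℚ) / Q) * (co w i : ℚ) : ℚ) : ℝ) =
    (∑ k, ((l k : ℕ) : ℝ) * (cmm z w k : ℝ)) / Q := by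
  rw [Fintype.sum_prod_type, Fintype.sum_bool, add_div, Finset.sum_div, Finset.sum_div]
  push_cast
  refine congrArg₂ (· + ·) (Finset.sum_congr rfl fun i _ => ?_)
    (Finset.sum_congr rfl fun i _ => ?_)
  · have h : cmm z w (true, i) = co z i := by
      unfold cmm
      rw [if_pos rfl]
    rw [h]
    ring
  · have h : cmm z w (false, i) = co w i := by
      unfold cmm
      rw [if_neg (by simp)]
    rw [h]
    ring

variable (K) in
theorem slB_close (n : ℕ) : ∃ C : ℝ, 1 ≤ C ∧ ∀ A : ℕ, 1 ≤ A →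
    ∀ (x y : Vc n (𝓞 K)) (o : Fin (n + 1)),
    (∃ j, mn x y o j ≠ 0) → ∀ f g : Fin n → Vc n (𝓞 K), LinearIndependent (𝓞 K) f →
    LinearIndependent (𝓞 K) g → (∀ s, lin (f s) x = 0) → (∀ s, lin (g s) y = 0) →
    ∀ H T' J : ℕ, (∀ s i, ∀ v : InfinitePlace K, v (f s i : K) ≤ H) →
    (∀ s i, ∀ v : InfinitePlace K, v (g s i : K) ≤ H) → ¬ ExcP T' f g →
    C * (H : ℝ) ^ 2 ≤ T' * 2 ^ J → 2 ^ J ≤ A →
    ∀ (a0 : Ten n 2 (𝓞 K)) (b : Ten n 2 K), ev b (kv x) = ((ev a0 x : 𝓞 K) : K) →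
    ev b (kv y) = ((ev a0 y : 𝓞 K) : K) → ∀ β0 : ℝ, (∀ s, ∀ v : InfinitePlace K, v (b s) ≤ β0) →
    |slB 2 A x y (ev a0 x) (ev a0 y) - slB 2 A x y 0 0| ≤
      C * ((2 : ℝ) ^ J / A + (β0 / 2 ^ J) ^ 2) * (n2 2 x y A : ℝ) := by
  obtain ⟨C1, hC1, hs1, hs2⟩ := sliB K n 2
  obtain ⟨C2, hC2, hph⟩ := phase K n
  set V : ℝ := ((n + 1 : ℕ) : ℝ) ^ 2 * (eK K : ℝ) with hV
  have hV0 : 0 ≤ V := by positivity
  have hC10 : 0 ≤ C1 := le_trans zero_le_one hC1
  have hC20 : 0 ≤ C2 := le_trans zero_le_one hC2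
  refine ⟨4 * V * C1 + 20 * C1 * C2 ^ 2 + C2, ?_, ?_⟩
  · have h1 : 0 ≤ 4 * V * C1 + 20 * C1 * C2 ^ 2 := by positivity
    linarith
  intro A hA x y o hxy f g hf hg f0 g0 H T' J hfH hgH hE hT hJ a0 b hb hb' β0 hβ
  have hA0 : (0 : ℝ) < A := by exact_mod_cast hA
  have hn2 : (0 : ℝ) ≤ (n2 2 x y A : ℝ) := Nat.cast_nonneg _
  have h00 : slB 2 A x y 0 0 = aS (kn K n * A) (mM 2 x y) 0 := by
    rw [slB_eq 2 A hA, cmm_zero]
  have hle : aS (kn K n * A) (mM 2 x y) 0 ≤ C1 * (n2 2 x y A : ℝ) := by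
    rw [← h00]
    exact hs1 A hA x y 0 0
  rw [h00, slB_eq 2 A hA]
  have hP : (0 : ℝ) < 2 ^ J := by positivity
  have hP2 : (0 : ℝ) < 2 ^ (J + 2) := by positivity
  have hNN : 1 ≤ kn K n * A := Nat.mul_pos (one_le_kn (K := K) n) hA
  have key := closeA (kn K n * A) hNN (mM 2 x y) J (C1 * (n2 2 x y A : ℝ) / A) (by positivity)
    (by
      intro i j hj
      have h2 : 2 ^ j ≤ A := (Nat.pow_le_pow_right (by norm_num) hj).trans hJ
      have h := hs2 A hA x y i.1 i.2 (2 ^ j) h2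
      rw [h00, slB_eq 2 A hA, cmm_mul] at h
      have h3 : (fun k => (((2 ^ j : ℕ) : ℤ)) *
          cmm (bas K i.2 * ∏ l, x (i.1 l)) (bas K i.2 * ∏ l, y (i.1 l)) k) =
          fun k => 2 ^ j * mM 2 x y k i := by
        funext k
        rw [← mM_eq]
        push_cast
        rfl
      rw [h3, abs_sub_comm] at h
      have h4 := (le_abs_self _).trans h
      refine h4.trans (le_of_eq ?_)
      push_cast
      ring)
    (cmm (ev a0 x) (ev a0 y)) (C2 * β0 * (1 / 2 ^ (J + 2)))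
    (by
      intro Q l hQ hmaj
      have hp := hph x y o hxy f g hf hg f0 g0 H T' hfH hgH hE (1 / 2 ^ (J + 2)) (by positivity)
        (by
          have h1 : C2 * (H : ℝ) ^ 2 ≤ T' * 2 ^ J := by
            refine le_trans (mul_le_mul_of_nonneg_right ?_ (by positivity)) hT
            have h2 : 0 ≤ 4 * V * C1 + 20 * C1 * C2 ^ 2 := by positivity
            linarith
          rw [mul_one_div, div_le_iff₀ hP2]
          refine h1.trans (mul_le_mul_of_nonneg_left ?_ (Nat.cast_nonneg _))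
          exact pow_le_pow_right₀ (by norm_num) (by omega))
        (fun w => ((l (true, w) : ℕ) : ℚ) / Q) (fun w => ((l (false, w) : ℕ) : ℚ) / Q)
        (fun a b u => round (aTh (mM 2 x y) l (![a, b], u)))
        (by
          intro a b u
          have hth : aTh (mM 2 x y) l (![a, b], u) = aTh (mM 2 x y) l (![b, a], u) := by
            unfold aTh
            refine congrArg (· / (Q : ℝ)) (Finset.sum_congr rfl fun k _ => ?_)
            rw [mM_eq, mM_eq, Fin.prod_univ_two, Fin.prod_univ_two, Fin.prod_univ_two,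
              Fin.prod_univ_two]
            have e1 : x ((![a, b] : Fin 2 → Fin (n + 1)) 0) * x ((![a, b] : Fin 2 → Fin (n + 1)) 1)
                = x ((![b, a] : Fin 2 → Fin (n + 1)) 0) *
                  x ((![b, a] : Fin 2 → Fin (n + 1)) 1) := mul_comm _ _
            have e2 : y ((![a, b] : Fin 2 → Fin (n + 1)) 0) * y ((![a, b] : Fin 2 → Fin (n + 1)) 1)
                = y ((![b, a] : Fin 2 → Fin (n + 1)) 0) *
                  y ((![b, a] : Fin 2 → Fin (n + 1)) 1) := mul_comm _ _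
            rw [e1, e2]
          exact congrArg round hth)
        (by
          intro a b u
          rw [cmm_sum]
          have e1 : (∑ k, ((l k : ℕ) : ℝ) *
              (cmm (bas K u * (x a * x b)) (bas K u * (y a * y b)) k : ℝ)) / Q =
              aTh (mM 2 x y) l (![a, b], u) := by
            unfold aTh
            refine congrArg (· / (Q : ℝ)) (Finset.sum_congr rfl fun k _ => ?_)
            rw [mM_eq, Fin.prod_univ_two, Fin.prod_univ_two]
            rfl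
          rw [e1]
          exact hmaj (![a, b], u))
        a0 b hb hb' β0 hβ
      obtain ⟨z, hz⟩ := hp
      refine ⟨z, ?_⟩
      rw [cmm_sum] at hz
      exact hz)
  refine key.trans ?_
  have hcard : (Fintype.card ((Fin 2 → Fin (n + 1)) × Fin (eK K)) : ℝ) = V := by
    rw [Fintype.card_prod, Fintype.card_fun, Fintype.card_fin, Fintype.card_fin, Fintype.card_fin,
      hV]
    push_cast
    ring
  rw [hcard]
  have e1 : 2 * (V * (2 ^ (J + 1) * (C1 * (n2 2 x y A : ℝ) / A))) =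
      4 * V * C1 * ((2 : ℝ) ^ J / A) * (n2 2 x y A : ℝ) := by
    rw [pow_succ]
    ring
  have e2 : 20 * (C2 * β0 * (1 / 2 ^ (J + 2))) ^ 2 * aS (kn K n * A) (mM 2 x y) 0 ≤
      20 * C1 * C2 ^ 2 * (β0 / 2 ^ J) ^ 2 * (n2 2 x y A : ℝ) := by
    have h1 : (C2 * β0 * (1 / 2 ^ (J + 2))) ^ 2 = C2 ^ 2 * (β0 / 2 ^ J) ^ 2 / 16 := by
      rw [pow_add]
      ring
    have h2 : 20 * (C2 * β0 * (1 / 2 ^ (J + 2))) ^ 2 * aS (kn K n * A) (mM 2 x y) 0 ≤
        20 * (C2 * β0 * (1 / 2 ^ (J + 2))) ^ 2 * (C1 * (n2 2 x y A : ℝ)) :=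
      mul_le_mul_of_nonneg_left hle (by positivity)
    refine h2.trans ?_
    rw [h1]
    have h3 : 0 ≤ C2 ^ 2 * (β0 / 2 ^ J) ^ 2 * (C1 * (n2 2 x y A : ℝ)) := by positivity
    have h4 : 20 * (C2 ^ 2 * (β0 / 2 ^ J) ^ 2 / 16) * (C1 * (n2 2 x y A : ℝ)) =
        20 / 16 * (C2 ^ 2 * (β0 / 2 ^ J) ^ 2 * (C1 * (n2 2 x y A : ℝ))) := by ring
    have h5 : 20 * C1 * C2 ^ 2 * (β0 / 2 ^ J) ^ 2 * (n2 2 x y A : ℝ) =
        20 * (C2 ^ 2 * (β0 / 2 ^ J) ^ 2 * (C1 * (n2 2 x y A : ℝ))) := by ring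
    rw [h4, h5]
    linarith
  rw [e1]
  refine (add_le_add le_rfl e2).trans ?_
  set u1 : ℝ := (2 : ℝ) ^ J / A with hu1
  set u2 : ℝ := (β0 / 2 ^ J) ^ 2 with hu2
  have hu1n : 0 ≤ u1 := by positivity
  have hu2n : 0 ≤ u2 := by positivity
  set c1 : ℝ := 4 * V * C1 with hc1
  set c2 : ℝ := 20 * C1 * C2 ^ 2 with hc2
  have hc1n : 0 ≤ c1 := by positivity
  have hc2n : 0 ≤ c2 := by positivity
  have h6 : c1 * u1 * (n2 2 x y A : ℝ) + c2 * u2 * (n2 2 x y A : ℝ) =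
      (c1 * u1 + c2 * u2) * (n2 2 x y A : ℝ) := by ring
  rw [h6]
  refine mul_le_mul_of_nonneg_right ?_ hn2
  have h7 : 0 ≤ c2 * u1 + C2 * u1 + (c1 * u2 + C2 * u2) := by positivity
  have h8 : (c1 + c2 + C2) * (u1 + u2) =
      (c1 * u1 + c2 * u2) + (c2 * u1 + C2 * u1 + (c1 * u2 + C2 * u2)) := by ring
  rw [h8]
  linarith

end Pool.Agent.Lib.MP_1ad228_ntN
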