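import Pool.Agent.Lib.MP_1ad228_ntN.NB_Em

/-!
The largest coordinate of a vector at every infinite place.
-/

namespace Pool.Agent.Lib.MP_1ad228_ntN

open NumberField Classical

set_option linter.unusedSectionVars false

variable {K : Type} [Field K] [NumberField K]

/-- Largest absolute value of the coordinates at the infinite place `v`. -/
noncomputable def mxv {n : ℕ} (f : Vc n (𝓞 K)) (v : InfinitePlace K) : ℝ :=
  Finset.univ.sup' Finset.univ_nonempty fun j : Fin (n + 1) => v (f j : K)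

theorem le_mxv {n : ℕ} (f : Vc n (𝓞 K)) (v : InfinitePlace K) (j : Fin (n + 1)) :
    v (f j : K) ≤ mxv f v :=
  Finset.le_sup' (fun j : Fin (n + 1) => v (f j : K)) (Finset.mem_univ j)

theorem mxv_le {n : ℕ} {f : Vc n (𝓞 K)} {v : InfinitePlace K} {X : ℝ} :
    mxv f v ≤ X ↔ ∀ j, v (f j : K) ≤ X := by
  unfold mxv
  rw [Finset.sup'_le_iff]
  exact ⟨fun h j => h j (Finset.mem_univ j), fun h j _ => h j⟩

theorem mxv_nonneg {n : ℕ} (f : Vc n (𝓞 K)) (v : InfinitePlace K) : 0 ≤ mxv f v :=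
  (v_nonneg v _).trans (le_mxv f v 0)

theorem mxv_pos {n : ℕ} {f : Vc n (𝓞 K)} (h : f ≠ 0) (v : InfinitePlace K) : 0 < mxv f v := by
  obtain ⟨i, hi⟩ := Function.ne_iff.1 h
  have h1 : (f i : K) ≠ 0 := by
    intro h0
    exact hi (RingOfIntegers.ext (by rw [h0]; simp))
  exact (v_pos v h1).trans_le (le_mxv f v i)

theorem one_le_pn_mxv {n : ℕ} {f : Vc n (𝓞 K)} (h : f ≠ 0) : 1 ≤ pn (mxv f) := by
  obtain ⟨i, hi⟩ := Function.ne_iff.1 h
  exact (one_le_pn hi).trans (pn_mono (fun v => v_nonneg v _) fun v => le_mxv f v i)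

end Pool.Agent.Lib.MP_1ad228_ntN
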