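import Pool.Agent.Lib.MP_1ad228_ntN.HG_Cnt
import Pool.Agent.Lib.MP_1ad228_ntN.B_BalO
import Pool.Agent.Lib.MP_1ad228_ntN.B_MxDef

/-!
JOB B_CntP.  Points of a box on a hyperplane, with the product of the maxima.

PROOF.  `C1` of `balO K n`, `C2` of `cntF0 K n` (HG_Cnt.lean). `c` from `balO` for `f`, `δ = ∑ i, c i * f i`, `δ ≠ 0` (some `v (f j) > 0`), `mxv f v ≤ C1 v(δ)`, `v δ ≤ (n+1) C1 B`. Let `g 0 = δ`, `g j = f j` for `j ≠ 0`; `span (range g) = span (range f)` (`c 0 = 1`), so the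
same norm. The map `x ↦ x'`, `x' 0 = x 0`, `x' j = x j - c j * x 0` for `j ≠ 0` is injective, `lin g x' = ∑_{i} c i f i x 0 + ∑_{j ≠ 0} f j (x j - c j x 0) = lin f x`, and maps `VBox K n B` to `VBox K n B'`, `B' = ⌈(n+1) C1⌉₊ * B + B` or larger. So
`#{x ∈ VBox K n B | lin f x = 0} ≤ #{x' ∈ VBox K n B' | lin g x' = 0}`, `cntF0` with `B'`, `g`, `j = 0`: `# * pn (v δ) ≤ C2 N(content) B'^(e n)`; `pn (mxv f) ≤ C1^e pn (v δ)` (`pn_mono`, `pn_const_mul`).
-/

namespace Pool.Agent.Lib.MP_1ad228_ntN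

open NumberField Classical

set_option linter.unusedSectionVars false

variable {K : Type} [Field K] [NumberField K]

private theorem cntP_span {n : ℕ} (f : Vc n (𝓞 K)) (c : Fin (n + 1) → ℕ) (hc : c 0 = 1) :
    Ideal.span (Set.range (Fin.cons (∑ i, (c i : 𝓞 K) * f i) (fun j => f j.succ) : Vc n (𝓞 K))) =
      Ideal.span (Set.range f) := by
  have hδ : (∑ i, (c i : 𝓞 K) * f i) = f 0 + ∑ j : Fin n, (c j.succ : 𝓞 K) * f j.succ := by
    rw [Fin.sum_univ_succ, hc, Nat.cast_one, one_mul]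
  apply le_antisymm
  · rw [Ideal.span_le]
    rintro _ ⟨j, rfl⟩
    refine Fin.cases ?_ (fun j => ?_) j
    · rw [Fin.cons_zero]
      exact Ideal.sum_mem _ fun i _ => Ideal.mul_mem_left _ _ (Ideal.subset_span ⟨i, rfl⟩)
    · rw [Fin.cons_succ]
      exact Ideal.subset_span ⟨j.succ, rfl⟩
  · rw [Ideal.span_le]
    rintro _ ⟨j, rfl⟩
    have hs : ∀ j : Fin n, f j.succ ∈
        Ideal.span (Set.range (Fin.cons (∑ i, (c i : 𝓞 K) * f i) (fun j => f j.succ) : Vc n (𝓞 K))) := fun j =>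
      Ideal.subset_span ⟨j.succ, by rw [Fin.cons_succ]⟩
    refine Fin.cases ?_ (fun j => hs j) j
    have h0 : (∑ i, (c i : 𝓞 K) * f i) ∈
        Ideal.span (Set.range (Fin.cons (∑ i, (c i : 𝓞 K) * f i) (fun j => f j.succ) : Vc n (𝓞 K))) :=
      Ideal.subset_span ⟨0, by rw [Fin.cons_zero]⟩
    have h1 : f 0 = (∑ i, (c i : 𝓞 K) * f i) - ∑ j : Fin n, (c j.succ : 𝓞 K) * f j.succ := by
      rw [hδ, add_sub_cancel_right]
    change f 0 ∈ _
    rw [h1]
    exact Ideal.sub_mem _ h0 (Ideal.sum_mem _ fun j _ => Ideal.mul_mem_left _ _ (hs j))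

private theorem cntP_lin {n : ℕ} (f x : Vc n (𝓞 K)) (c : Fin (n + 1) → ℕ) (hc : c 0 = 1) :
    lin (Fin.cons (∑ i, (c i : 𝓞 K) * f i) (fun j => f j.succ) : Vc n (𝓞 K))
      (Fin.cons (x 0) (fun j => x j.succ - (c j.succ : 𝓞 K) * x 0) : Vc n (𝓞 K)) = lin f x := by
  have hδ : (∑ i, (c i : 𝓞 K) * f i) = f 0 + ∑ j : Fin n, (c j.succ : 𝓞 K) * f j.succ := by
    rw [Fin.sum_univ_succ, hc, Nat.cast_one, one_mul]
  unfold Pool.Agent.Lib.MP_219881_nt.lin
  rw [hδ, Fin.sum_univ_succ, Fin.sum_univ_succ (fun i => f i * x i)]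
  simp only [Fin.cons_zero, Fin.cons_succ]
  rw [add_mul, add_assoc, Finset.sum_mul, ← Finset.sum_add_distrib]
  congr 1
  refine Finset.sum_congr rfl fun j _ => ?_
  ring

private theorem cntP_card {n : ℕ} (f : Vc n (𝓞 K)) (c : Fin (n + 1) → ℕ) (hc : c 0 = 1) {B : ℕ} {C1 X : ℝ}
    (hC : ∀ j, (c j : ℝ) ≤ C1) (hX : (1 + C1) * B ≤ X) (hC1 : 0 ≤ C1) :
    ((VBox K n B).filter fun x => lin f x = 0).card ≤
      ((VBox K n X).filter fun x =>
        lin (Fin.cons (∑ i, (c i : 𝓞 K) * f i) (fun j => f j.succ) : Vc n (𝓞 K)) x = 0).card := by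
  have hB0 : (0 : ℝ) ≤ B := Nat.cast_nonneg B
  refine Finset.card_le_card_of_injOn
    (fun x => (Fin.cons (x 0) (fun j => x j.succ - (c j.succ : 𝓞 K) * x 0) : Vc n (𝓞 K))) ?_ ?_
  · intro x hx
    rw [Finset.mem_coe, Finset.mem_filter] at hx ⊢
    refine ⟨mem_VBox.2 fun i v => ?_, by rw [cntP_lin f x c hc]; exact hx.2⟩
    have hb := mem_VBox.1 hx.1
    refine Fin.cases ?_ (fun j => ?_) i
    · change v ((x 0 : 𝓞 K) : K) ≤ X
      refine (hb 0 v).trans (le_trans ?_ hX)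
      nlinarith
    · change v ((x j.succ - (c j.succ : 𝓞 K) * x 0 : 𝓞 K) : K) ≤ X
      have h1 : (((x j.succ - (c j.succ : 𝓞 K) * x 0 : 𝓞 K)) : K) =
          (x j.succ : K) - (((c j.succ : ℕ) : K)) * (x 0 : K) := by
        push_cast
        simp
      rw [h1]
      refine (v_sub_le v _ _).trans (le_trans ?_ hX)
      rw [v_mul, v_natCast]
      have h2 := hb j.succ v
      have h3 := hb 0 v
      have h4 := hC j.succ
      have h5 := v_nonneg v (x 0 : K)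
      have h6 : (c j.succ : ℝ) * v (x 0 : K) ≤ C1 * B := mul_le_mul h4 h3 h5 hC1
      linarith
  · intro x _ y _ hxy
    have h0 : x 0 = y 0 := by
      have := congrFun hxy 0
      simpa only [Fin.cons_zero] using this
    funext i
    refine Fin.cases h0 (fun j => ?_) i
    have h1 := congrFun hxy j.succ
    simp only [Fin.cons_succ] at h1
    rw [h0] at h1
    exact sub_left_injective h1

variable (K) in
theorem cntP (n : ℕ) (N : ℝ) : ∃ C : ℝ, 1 ≤ C ∧ ∀ (B : ℕ) (f : Vc n (𝓞 K)), 1 ≤ B → f ≠ 0 →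
    (∀ i, ∀ v : InfinitePlace K, v (f i : K) ≤ B) →
    (Ideal.absNorm (Ideal.span (Set.range f)) : ℝ) ≤ N →
    (((VBox K n B).filter fun x => lin f x = 0).card : ℝ) * pn (mxv f) ≤
      C * (B : ℝ) ^ (eK K * n) := by
  obtain ⟨C1, hC1, hbal⟩ := balO K n
  obtain ⟨C2, hC2, hcnt⟩ := cntF0 (K := K) n
  obtain ⟨M, hM⟩ := exists_nat_ge (((n : ℝ) + 1) * C1 + 1)
  have hn0 : (0 : ℝ) ≤ n := Nat.cast_nonneg n
  have hM1 : (1 : ℝ) ≤ M := by nlinarith
  have hMC : 1 + C1 ≤ M := by nlinarith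
  have hN1 : (1 : ℝ) ≤ max N 1 := le_max_right _ _
  refine ⟨C1 ^ eK K * (C2 * max N 1 * (M : ℝ) ^ (eK K * n)), ?_, fun B f hB hf hfB hN => ?_⟩
  · exact one_le_mul_of_one_le_of_one_le (one_le_pow₀ hC1) (one_le_mul_of_one_le_of_one_le
      (one_le_mul_of_one_le_of_one_le hC2 hN1) (one_le_pow₀ hM1))
  have hB1 : (1 : ℝ) ≤ B := by exact_mod_cast hB
  obtain ⟨i0, hi0⟩ := Function.ne_iff.1 hf
  have hi0' : f i0 ≠ 0 := hi0
  obtain ⟨c, hc0, hcC, hcv⟩ := hbal f ⟨i0, hi0'⟩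
  set δ : 𝓞 K := ∑ i, (c i : 𝓞 K) * f i with hδ
  have hδ0 : δ ≠ 0 := by
    intro h0
    obtain ⟨v⟩ : Nonempty (InfinitePlace K) := inferInstance
    have h1 := hcv v i0
    have h2 : ((δ : 𝓞 K) : K) = 0 := by rw [h0]; simp
    rw [h2, v_zero, mul_zero] at h1
    have h3 : (f i0 : K) ≠ 0 := by
      intro h4
      exact hi0' (RingOfIntegers.ext (by rw [h4]; simp))
    exact absurd (v_pos v h3) (not_lt.2 h1)
  set g : Vc n (𝓞 K) := Fin.cons δ (fun j => f j.succ) with hg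
  have hg0 : g 0 = δ := rfl
  have hB' : 1 ≤ M * B := by
    have : (1 : ℝ) ≤ ((M * B : ℕ) : ℝ) := by
      push_cast
      exact one_le_mul_of_one_le_of_one_le hM1 hB1
    exact_mod_cast this
  have hvδ : ∀ v : InfinitePlace K, v ((g 0 : 𝓞 K) : K) ≤ ((M * B : ℕ) : ℝ) := by
    intro v
    rw [hg0, hδ]
    have e1 : (((∑ i, (c i : 𝓞 K) * f i : 𝓞 K)) : K) = ∑ i, ((c i : ℕ) : K) * (f i : K) := by
      push_cast
      simp
    rw [e1]
    refine (v_sum_le v _ _).trans ?_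
    have h2 : ∀ i ∈ (Finset.univ : Finset (Fin (n + 1))), v (((c i : ℕ) : K) * (f i : K)) ≤ C1 * B := by
      intro i _
      rw [v_mul, v_natCast]
      exact mul_le_mul (hcC i) (hfB i v) (v_nonneg v _) (by linarith)
    refine (Finset.sum_le_sum h2).trans ?_
    rw [Finset.sum_const, Finset.card_univ, Fintype.card_fin, nsmul_eq_mul]
    push_cast
    have h3 : ((n : ℝ) + 1) * C1 * B ≤ M * B := mul_le_mul_of_nonneg_right (by linarith) (by linarith)
    linarith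
  have h1 := hcnt (M * B) g 0 hB' (by rw [hg0]; exact hδ0) hvδ
  have h2 : ((VBox K n B).filter fun x => lin f x = 0).card ≤
      ((VBox K n ((M * B : ℕ) : ℝ)).filter fun x => lin g x = 0).card := by
    refine cntP_card f c hc0 hcC ?_ (by linarith)
    push_cast
    exact mul_le_mul_of_nonneg_right hMC (by linarith)
  have h3 : pn (mxv f) ≤ C1 ^ eK K * pn (fun v : InfinitePlace K => v ((g 0 : 𝓞 K) : K)) := by
    rw [← pn_const_mul]
    refine pn_mono (fun v => mxv_nonneg f v) fun v => ?_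
    rw [mxv_le]
    exact fun j => hcv v j
  have hp : 0 ≤ pn (fun v : InfinitePlace K => v ((g 0 : 𝓞 K) : K)) := pn_nonneg fun v => v_nonneg v _
  have h4 : Ideal.span (Set.range g) = Ideal.span (Set.range f) := cntP_span f c hc0
  rw [h4] at h1
  have h5 : (Ideal.absNorm (Ideal.span (Set.range f)) : ℝ) ≤ max N 1 := hN.trans (le_max_left _ _)
  have h2' : (((VBox K n B).filter fun x => lin f x = 0).card : ℝ) ≤
      (((VBox K n ((M * B : ℕ) : ℝ)).filter fun x => lin g x = 0).card : ℝ) := by exact_mod_cast h2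
  have hMB : (((M * B : ℕ) : ℝ)) ^ (eK K * n) = (M : ℝ) ^ (eK K * n) * (B : ℝ) ^ (eK K * n) := by
    push_cast
    rw [mul_pow]
  have hC10 : (0 : ℝ) ≤ C1 ^ eK K := by positivity
  calc (((VBox K n B).filter fun x => lin f x = 0).card : ℝ) * pn (mxv f)
      ≤ (((VBox K n ((M * B : ℕ) : ℝ)).filter fun x => lin g x = 0).card : ℝ) *
          (C1 ^ eK K * pn (fun v : InfinitePlace K => v ((g 0 : 𝓞 K) : K))) :=
        mul_le_mul h2' h3 (pn_nonneg fun v => mxv_nonneg f v) (Nat.cast_nonneg _)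
    _ = C1 ^ eK K * ((((VBox K n ((M * B : ℕ) : ℝ)).filter fun x => lin g x = 0).card : ℝ) *
          pn (fun v : InfinitePlace K => v ((g 0 : 𝓞 K) : K))) := by ring
    _ ≤ C1 ^ eK K * (C2 * (Ideal.absNorm (Ideal.span (Set.range f)) : ℝ) * (((M * B : ℕ) : ℝ)) ^ (eK K * n)) :=
        mul_le_mul_of_nonneg_left h1 hC10
    _ ≤ C1 ^ eK K * (C2 * max N 1 * (((M * B : ℕ) : ℝ)) ^ (eK K * n)) :=
        mul_le_mul_of_nonneg_left (mul_le_mul_of_nonneg_right
          (mul_le_mul_of_nonneg_left h5 (by linarith)) (by positivity)) hC10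
    _ = C1 ^ eK K * (C2 * max N 1 * (M : ℝ) ^ (eK K * n)) * (B : ℝ) ^ (eK K * n) := by
        rw [hMB]
        ring

end Pool.Agent.Lib.MP_1ad228_ntN
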