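import Pool.Agent.Lib.MP_1ad228_ntN.Psi

/-!
JOB Expand.  The variance is the sum over pairs of test points.  (Model with proof: Lib/MP_1ad228_ntF/Expand.lean)

PROOF.  For `x ∈ GG K B H q o` and a tensor `a` of degree `d` write `s_x(a) = 1` if `ev a x = 0` and 0 otherwise, and
`l_x(a) = (1/μ_x) * ∑ m ∈ MS d W κ A o x, (1 if ev a x = m else 0)` (`μ_x` the cardinality of `MS d W κ A o x`).
For `κ ≥ 1`, `Loc W κ A o a x` iff `ev a x ∈ MS d W κ A o x` (`mem_MS`: the box condition follows from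
`κ v(m) ≤ A v(x_o)^d ≤ A hs(x_o)^d`, `le_hs`), so `l_x(a) = 1/μ_x` if `Loc W κ A o a x` and 0 otherwise;
`Nn B H q o F = ∑_x ∏_i s_x(F i)`, `Ll B H q o W κ A F = ∑_x ∏_i l_x(F i)` and
`(N - L)^2 = ∑_x ∑_y (∏ s_x - ∏ l_x) (∏ s_y - ∏ l_y)
 = ∑_x ∑_y (∏ s_x s_y - ∏ l_x s_y - ∏ s_x l_y + ∏ l_x l_y)` (`Finset.prod_mul_distrib`).
Multiply by `∏ i, psi A (F i)`, sum over `F ∈ TBox K n d (2*A)`, exchange the sums: for each pair `x, y` the sum over
`F` of a product `∏ i, f i (F i)` is `∏ i, ∑ a ∈ Box K n (d i) (2*A), f i a` (`Finset.prod_univ_sum`), with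
`∑_a psi s_x s_y = sl d A x y 0 0`, `∑_a psi l_x s_y = TT d o W κ A x y`, `∑_a psi s_x l_y = TS d o W κ A x y`,
`∑_a psi l_x l_y = UU d o W κ A x y`.
-/

namespace Pool.Agent.Lib.MP_1ad228_ntN

open NumberField Classical
open Pool.Agent.Lib.MP_219881_nt (mn)

set_option linter.unusedSectionVars false

variable {K : Type} [Field K] [NumberField K]

theorem mem_MS {n : ℕ} {d W κ A : ℕ} (hκ : 1 ≤ κ) {o : Fin (n + 1)} {x : Vc n (𝓞 K)} {m : 𝓞 K} :
    m ∈ MS d W κ A o x ↔ LV d W κ A o x m := by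
  unfold MS
  rw [Finset.mem_filter, mem_OBox]
  constructor
  · exact fun h => h.2
  · intro h
    refine ⟨fun v => ?_, h⟩
    have h1 := h.2 v
    have h2 : (1 : ℝ) ≤ (κ : ℝ) := by exact_mod_cast hκ
    have h3 : 1 * v (m : K) ≤ (κ : ℝ) * v (m : K) := mul_le_mul_of_nonneg_right h2 (v_nonneg _ _)
    have h4 : (v (x o : K)) ^ d ≤ (hs (x o : K)) ^ d := pow_le_pow_left₀ (v_nonneg _ _) (le_hs _ v) _
    have h5 : (A : ℝ) * (v (x o : K)) ^ d ≤ A * (hs (x o : K)) ^ d := mul_le_mul_of_nonneg_left h4 (Nat.cast_nonneg _)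
    linarith

/-- Indicator of `ev a x = m`. -/
private noncomputable def expandD {n d : ℕ} (x : Vc n (𝓞 K)) (m : 𝓞 K) (a : Ten n d (𝓞 K)) : ℝ :=
  if ev a x = m then 1 else 0

/-- The local function. -/
private noncomputable def expandL {n d : ℕ} (o : Fin (n + 1)) (W κ A : ℕ) (x : Vc n (𝓞 K)) (a : Ten n d (𝓞 K)) : ℝ :=
  (1 / ((MS d W κ A o x).card : ℝ)) * ∑ m ∈ MS d W κ A o x, expandD x m a

private theorem expand_mem {n d : ℕ} (o : Fin (n + 1)) (W κ A : ℕ) (hK : 1 ≤ κ) (x : Vc n (𝓞 K)) (a : Ten n d (𝓞 K)) :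
    ev a x ∈ MS d W κ A o x ↔ Loc W κ A o a x := mem_MS hK

private theorem expand_L {n d : ℕ} (o : Fin (n + 1)) (W κ A : ℕ) (hK : 1 ≤ κ) (x : Vc n (𝓞 K)) (a : Ten n d (𝓞 K)) :
    expandL o W κ A x a = if Loc W κ A o a x then 1 / ((MS d W κ A o x).card : ℝ) else 0 := by
  unfold expandL expandD
  rw [Finset.sum_ite_eq]
  by_cases h : Loc W κ A o a x
  · rw [if_pos ((expand_mem o W κ A hK x a).mpr h), if_pos h, mul_one]
  · rw [if_neg (fun h' => h ((expand_mem o W κ A hK x a).mp h')), if_neg h, mul_zero]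

private theorem expand_sl {n : ℕ} (d A : ℕ) (x y : Vc n (𝓞 K)) (m m' : 𝓞 K) :
    sl d A x y m m' = ∑ a ∈ Box K n d (2 * A), psi A a * (expandD x m a * expandD y m' a) := by
  unfold sl expandD
  rw [Finset.sum_filter]
  refine Finset.sum_congr rfl fun a _ => ?_
  by_cases h1 : ev a x = m
  · by_cases h2 : ev a y = m'
    · rw [if_pos ⟨h1, h2⟩, if_pos h1, if_pos h2]; ring
    · rw [if_neg (fun h => h2 h.2), if_neg h2]; ring
  · rw [if_neg (fun h => h1 h.1), if_neg h1]; ring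

private theorem expand_TT {n : ℕ} (d : ℕ) (o : Fin (n + 1)) (W κ A : ℕ) (x y : Vc n (𝓞 K)) :
    TT d o W κ A x y = ∑ a ∈ Box K n d (2 * A), psi A a * (expandL o W κ A x a * expandD y 0 a) := by
  unfold TT
  simp only [expand_sl, expandL]
  rw [Finset.sum_comm, Finset.mul_sum]
  refine Finset.sum_congr rfl fun a _ => ?_
  rw [← Finset.mul_sum, ← Finset.sum_mul]
  ring

private theorem expand_TS {n : ℕ} (d : ℕ) (o : Fin (n + 1)) (W κ A : ℕ) (x y : Vc n (𝓞 K)) :
    TS d o W κ A x y = ∑ a ∈ Box K n d (2 * A), psi A a * (expandD x 0 a * expandL o W κ A y a) := by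
  unfold TS
  simp only [expand_sl, expandL]
  rw [Finset.sum_comm, Finset.mul_sum]
  refine Finset.sum_congr rfl fun a _ => ?_
  rw [← Finset.mul_sum, ← Finset.mul_sum]
  ring

private theorem expand_UU {n : ℕ} (d : ℕ) (o : Fin (n + 1)) (W κ A : ℕ) (x y : Vc n (𝓞 K)) :
    UU d o W κ A x y = ∑ a ∈ Box K n d (2 * A), psi A a * (expandL o W κ A x a * expandL o W κ A y a) := by
  unfold UU
  simp only [expand_sl, expandL]
  have h1 : ∑ m ∈ MS d W κ A o x, ∑ m' ∈ MS d W κ A o y, ∑ a ∈ Box K n d (2 * A),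
        psi A a * (expandD x m a * expandD y m' a)
      = ∑ a ∈ Box K n d (2 * A), psi A a *
        ((∑ m ∈ MS d W κ A o x, expandD x m a) * ∑ m' ∈ MS d W κ A o y, expandD y m' a) := by
    calc ∑ m ∈ MS d W κ A o x, ∑ m' ∈ MS d W κ A o y, ∑ a ∈ Box K n d (2 * A),
          psi A a * (expandD x m a * expandD y m' a)
        = ∑ m ∈ MS d W κ A o x, ∑ a ∈ Box K n d (2 * A), ∑ m' ∈ MS d W κ A o y,
          psi A a * (expandD x m a * expandD y m' a) :=
          Finset.sum_congr rfl fun m _ => Finset.sum_comm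
      _ = ∑ a ∈ Box K n d (2 * A), ∑ m ∈ MS d W κ A o x, ∑ m' ∈ MS d W κ A o y,
          psi A a * (expandD x m a * expandD y m' a) := Finset.sum_comm
      _ = _ := by
          refine Finset.sum_congr rfl fun a _ => ?_
          rw [Finset.sum_mul_sum, Finset.mul_sum]
          refine Finset.sum_congr rfl fun m _ => ?_
          rw [Finset.mul_sum]
  rw [h1, Finset.mul_sum]
  refine Finset.sum_congr rfl fun a _ => ?_
  ring

private theorem expand_prod {n r : ℕ} (d : Fin r → ℕ) (X : ℝ)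
    (p f g u v : (i : Fin r) → Ten n (d i) (𝓞 K) → ℝ) :
    ∑ F ∈ TBox K n d X, (∏ i, p i (F i)) * ((∏ i, f i (F i) - ∏ i, u i (F i)) *
      (∏ i, g i (F i) - ∏ i, v i (F i))) =
    ∏ i, (∑ a ∈ Box K n (d i) X, p i a * (f i a * g i a)) - ∏ i, (∑ a ∈ Box K n (d i) X, p i a * (u i a * g i a))
      - ∏ i, (∑ a ∈ Box K n (d i) X, p i a * (f i a * v i a))
      + ∏ i, (∑ a ∈ Box K n (d i) X, p i a * (u i a * v i a)) := by
  unfold TBox
  rw [Finset.prod_univ_sum, Finset.prod_univ_sum, Finset.prod_univ_sum, Finset.prod_univ_sum,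
    ← Finset.sum_sub_distrib, ← Finset.sum_sub_distrib, ← Finset.sum_add_distrib]
  refine Finset.sum_congr rfl fun F _ => ?_
  simp only [Finset.prod_mul_distrib]
  ring

private theorem expand_EE {n r : ℕ} (d : Fin r → ℕ) (o : Fin (n + 1)) (W κ A : ℕ) (x y : Vc n (𝓞 K)) :
    EE d o W κ A x y = ∑ F ∈ TBox K n d (2 * A), (∏ i, psi A (F i)) *
      ((∏ i, expandD x 0 (F i) - ∏ i, expandL o W κ A x (F i)) *
        (∏ i, expandD y 0 (F i) - ∏ i, expandL o W κ A y (F i))) := by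
  rw [expand_prod d (2 * A) (fun _ a => psi A a) (fun _ a => expandD x 0 a) (fun _ a => expandD y 0 a)
    (fun _ a => expandL o W κ A x a) (fun _ a => expandL o W κ A y a)]
  unfold EE
  simp only [expand_TT, expand_TS, expand_UU, expand_sl]

private theorem expand_ind {r : ℕ} (P : Fin r → Prop) [DecidablePred P] [Decidable (∀ i, P i)]
    (c : Fin r → ℝ) :
    (if ∀ i, P i then ∏ i, c i else 0) = ∏ i, (if P i then c i else 0) := by
  by_cases h : ∀ i, P i
  · rw [if_pos h]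
    exact Finset.prod_congr rfl fun i _ => (if_pos (h i)).symm
  · rw [if_neg h]
    obtain ⟨i, hi⟩ := not_forall.1 h
    exact (Finset.prod_eq_zero (Finset.mem_univ i) (if_neg hi)).symm

theorem expand {n r : ℕ} (d : Fin r → ℕ) (B H q : ℕ) (o : Fin (n + 1)) (W κ A : ℕ) (hκ : 1 ≤ κ) :
    Qv K d B H q o W κ A = ∑ x ∈ GG K B H q o, ∑ y ∈ GG K B H q o, EE d o W κ A x y := by
  have hN : ∀ F : Tup n d (𝓞 K), (Nn B H q o F : ℝ) = ∑ x ∈ GG K B H q o, ∏ i, expandD x 0 (F i) := by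
    intro F
    unfold Nn expandD
    rw [Finset.card_filter, Nat.cast_sum]
    refine Finset.sum_congr rfl fun x _ => ?_
    rw [← expand_ind (fun i => ev (F i) x = 0) (fun _ => 1), Finset.prod_const_one]
    by_cases h : ∀ i, ev (F i) x = 0
    · rw [if_pos h, if_pos h, Nat.cast_one]
    · rw [if_neg h, if_neg h, Nat.cast_zero]
  have hL : ∀ F : Tup n d (𝓞 K), Ll B H q o W κ A F = ∑ x ∈ GG K B H q o, ∏ i, expandL o W κ A x (F i) := by
    intro F
    unfold Ll
    rw [Finset.sum_filter]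
    refine Finset.sum_congr rfl fun x _ => ?_
    simp only [expand_L o W κ A hκ x]
    rw [← expand_ind (fun i => Loc W κ A o (F i) x) (fun i => 1 / ((MS (d i) W κ A o x).card : ℝ))]
  have hQ : ∀ F : Tup n d (𝓞 K), (∏ i, psi A (F i)) * ((Nn B H q o F : ℝ) - Ll B H q o W κ A F) ^ 2
      = ∑ x ∈ GG K B H q o, ∑ y ∈ GG K B H q o, (∏ i, psi A (F i)) *
      ((∏ i, expandD x 0 (F i) - ∏ i, expandL o W κ A x (F i)) *
        (∏ i, expandD y 0 (F i) - ∏ i, expandL o W κ A y (F i))) := by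
    intro F
    rw [hN, hL, ← Finset.sum_sub_distrib, sq, Finset.sum_mul_sum, Finset.mul_sum]
    refine Finset.sum_congr rfl fun x _ => ?_
    rw [Finset.mul_sum]
  unfold Qv
  rw [Finset.sum_congr rfl fun F _ => hQ F, Finset.sum_comm]
  refine Finset.sum_congr rfl fun x _ => ?_
  rw [Finset.sum_comm]
  refine Finset.sum_congr rfl fun y _ => ?_
  exact (expand_EE d o W κ A x y).symm

end Pool.Agent.Lib.MP_1ad228_ntN
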