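import Pool.Agent.Lib.MP_1ad228_ntN.TpK
import Pool.Agent.Lib.MP_1ad228_ntN.Expand
import Pool.Agent.Lib.MP_1ad228_ntF.B_Fej
import Pool.Agent.Lib.MP_1ad228_ntF.B_ExcDef

/-!
Borderline case over number fields (`n = 2 r`, all degrees 2): definitions.
Paper: team-store PAPER_MP_1ad228_ntN_B.md.  Model over Q: the files B_*.lean of Lib/MP_1ad228_ntF.
-/

namespace Pool.Agent.Lib.MP_1ad228_ntN

export Pool.Agent.Lib.MP_1ad228_ntF (w1 w1_nonneg w1_le_one w1_lip bDet bCr bDt bA bU bP)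

open NumberField Classical

set_option linter.unusedSectionVars false

section abstr
variable {ι κ : Type} [Fintype ι] [Fintype κ]

/-- Slice of the cube `[-2N, 2N]^ι` with the triangle weights by the linear system `M a = m`. -/
noncomputable def aS (N : ℕ) (M : κ → ι → ℤ) (m : κ → ℤ) : ℝ :=
  ∑ a ∈ (Fintype.piFinset fun _ : ι =>
      Finset.Icc (-((2 * N : ℕ) : ℤ)) ((2 * N : ℕ) : ℤ)).filter
    (fun a => ∀ k, ∑ i, M k i * a i = m k), ∏ i, w1 N (a i)

/-- The phase of the column `i` at the frequency `l`. -/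
noncomputable def aTh {Q : ℕ} (M : κ → ι → ℤ) (l : κ → Fin Q) (i : ι) : ℝ :=
  (∑ k, ((l k : ℕ) : ℝ) * (M k i : ℝ)) / Q

end abstr

section defs
variable (K : Type) [Field K] [NumberField K]

/-- A natural number which is at least `CK K n`. -/
noncomputable def kn (n : ℕ) : ℕ := ⌈CK K n⌉₊

theorem CK_le_kn (n : ℕ) : CK K n ≤ kn K n := Nat.le_ceil _

theorem one_le_kn (n : ℕ) : 1 ≤ kn K n := by
  have h := (CK_one_le K n).trans (CK_le_kn K n)
  exact_mod_cast h

/-- `T`-bounded trace coordinates: all traces of `α ω_u` are integers of absolute value at most `T`. -/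
def trB (T : ℕ) (α : K) : Prop :=
  ∀ u, ∃ m : ℤ, |m| ≤ (T : ℤ) ∧ Algebra.trace ℚ K (α * (bas K u : K)) = (m : ℚ)

end defs

section defs
variable {K : Type} [Field K] [NumberField K]

/-- Product weight: triangles in all coordinates of all entries. -/
noncomputable def fw {n d : ℕ} (A : ℕ) (a : Ten n d (𝓞 K)) : ℝ :=
  ∏ s, ∏ u, w1 (kn K n * A) (co (a s) u)

/-- Slices with the product weight. -/
noncomputable def slB {n : ℕ} (d A : ℕ) (x y : Vc n (𝓞 K)) (m m' : 𝓞 K) : ℝ :=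
  ∑ a ∈ (Box K n d (((2 * kn K n ^ 2 : ℕ) : ℝ) * (A : ℝ))).filter
    (fun a => ev a x = m ∧ ev a y = m'), fw A a

/-- The integer matrix of the two evaluations. -/
noncomputable def mM {n : ℕ} (d : ℕ) (x y : Vc n (𝓞 K)) :
    (Bool × Fin (eK K)) → ((Fin d → Fin (n + 1)) × Fin (eK K)) → ℤ :=
  fun k i => co (bas K i.2 * ∏ l, (if k.1 = true then x else y) (i.1 l)) k.2

/-- The coordinates of two values. -/
noncomputable def cmm (m m' : 𝓞 K) : (Bool × Fin (eK K)) → ℤ :=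
  fun k => co (if k.1 = true then m else m') k.2

/-- Average over the allowed values at `x` of the slices through `(m, 0)`. -/
noncomputable def TTB {n : ℕ} (d : ℕ) (o : Fin (n + 1)) (W κ A : ℕ) (x y : Vc n (𝓞 K)) : ℝ :=
  (1 / ((MS d W κ A o x).card : ℝ)) * ∑ m ∈ MS d W κ A o x, slB d A x y m 0

/-- Average over the allowed values at `y` of the slices through `(0, m')`. -/
noncomputable def TSB {n : ℕ} (d : ℕ) (o : Fin (n + 1)) (W κ A : ℕ) (x y : Vc n (𝓞 K)) : ℝ :=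
  (1 / ((MS d W κ A o y).card : ℝ)) * ∑ m' ∈ MS d W κ A o y, slB d A x y 0 m'

/-- Average over the allowed values at `x` and at `y` of the slices. -/
noncomputable def UUB {n : ℕ} (d : ℕ) (o : Fin (n + 1)) (W κ A : ℕ) (x y : Vc n (𝓞 K)) : ℝ :=
  (1 / ((MS d W κ A o x).card : ℝ)) * (1 / ((MS d W κ A o y).card : ℝ)) *
    ∑ m ∈ MS d W κ A o x, ∑ m' ∈ MS d W κ A o y, slB d A x y m m'

/-- Contribution of a pair of points to the variance. -/
noncomputable def EEB {n r : ℕ} (d : Fin r → ℕ) (o : Fin (n + 1)) (W κ A : ℕ)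
    (x y : Vc n (𝓞 K)) : ℝ :=
  ∏ i, slB (d i) A x y 0 0 - ∏ i, TTB (d i) o W κ A x y - ∏ i, TSB (d i) o W κ A x y
    + ∏ i, UUB (d i) o W κ A x y

variable (K) in
/-- The weighted variance. -/
noncomputable def QvB {n r : ℕ} (d : Fin r → ℕ) (B H q : ℕ) (o : Fin (n + 1)) (W κ A : ℕ) : ℝ :=
  ∑ F ∈ TBox K n d (((2 * kn K n ^ 2 : ℕ) : ℝ) * (A : ℝ)), (∏ i, fw A (F i)) *
    ((Nn B H q o F : ℝ) - Ll B H q o W κ A F) ^ 2

/-- The pair of bases `(f, g)` is exceptional: some symmetric matrix `E` over `K` has all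
`f s^T E g t` with `T`-bounded trace coordinates, not all zero. -/
def ExcP {n : ℕ} (T : ℕ) (f g : Fin n → Vc n (𝓞 K)) : Prop :=
  ∃ E : Fin (n + 1) → Fin (n + 1) → K, (∀ i j, E i j = E j i) ∧
    (∀ s t, trB K T (∑ i, ∑ j, (f s i : K) * E i j * (g t j : K))) ∧
    ∃ s t, ∑ i, ∑ j, (f s i : K) * E i j * (g t j : K) ≠ 0

end defs

end Pool.Agent.Lib.MP_1ad228_ntN
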