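import Pool.Agent.Lib.MP_1ad228_ntN.Defs

/-!
Elementary facts on infinite places, boxes and weighted products.
-/

namespace Pool.Agent.Lib.MP_1ad228_ntN

open NumberField Classical

set_option linter.unusedSectionVars false

section places
variable {K : Type} [Field K] [NumberField K]

theorem norm_em (v : InfinitePlace K) (z : 𝓞 K) : ‖em v z‖ = v (z : K) := by
  simp [em, InfinitePlace.norm_embedding_eq]

theorem em_apply (v : InfinitePlace K) (z : 𝓞 K) : em v z = v.embedding (z : K) := rfl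

theorem v_nonneg (v : InfinitePlace K) (z : K) : 0 ≤ v z := v.1.nonneg z

theorem v_pos (v : InfinitePlace K) {z : K} (h : z ≠ 0) : 0 < v z := InfinitePlace.pos_iff.2 h

theorem v_zero (v : InfinitePlace K) : v (0 : K) = 0 := v.1.map_zero

theorem v_one (v : InfinitePlace K) : v (1 : K) = 1 := v.1.map_one

theorem v_mul (v : InfinitePlace K) (z w : K) : v (z * w) = v z * v w := v.1.map_mul z w

theorem v_div (v : InfinitePlace K) (z w : K) : v (z / w) = v z / v w := map_div₀ v z w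

theorem v_pow (v : InfinitePlace K) (z : K) (n : ℕ) : v (z ^ n) = v z ^ n := map_pow v z n

theorem v_neg (v : InfinitePlace K) (z : K) : v (-z) = v z := v.1.map_neg z

theorem v_add_le (v : InfinitePlace K) (z w : K) : v (z + w) ≤ v z + v w := v.1.add_le z w

theorem v_sub_le (v : InfinitePlace K) (z w : K) : v (z - w) ≤ v z + v w := by
  rw [sub_eq_add_neg]
  exact (v_add_le v z (-w)).trans (by rw [v_neg])

theorem v_sub_comm (v : InfinitePlace K) (z w : K) : v (z - w) = v (w - z) := by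
  rw [← v_neg, neg_sub]

theorem v_sum_le {ι : Type*} (v : InfinitePlace K) (s : Finset ι) (f : ι → K) :
    v (∑ i ∈ s, f i) ≤ ∑ i ∈ s, v (f i) := v.1.sum_le s f

theorem v_prod {ι : Type*} (v : InfinitePlace K) (s : Finset ι) (f : ι → K) :
    v (∏ i ∈ s, f i) = ∏ i ∈ s, v (f i) := map_prod v f s

theorem v_natCast (v : InfinitePlace K) (n : ℕ) : v (n : K) = n := InfinitePlace.map_natCast v n

theorem v_intCast (v : InfinitePlace K) (n : ℤ) : v (n : K) = |(n : ℝ)| := by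
  rw [InfinitePlace.map_intCast v n, Int.norm_eq_abs]

theorem le_hs (z : K) (v : InfinitePlace K) : v z ≤ hs z :=
  Finset.le_sup' (fun v : InfinitePlace K => v z) (Finset.mem_univ v)

theorem hs_le {z : K} {X : ℝ} : hs z ≤ X ↔ ∀ v : InfinitePlace K, v z ≤ X := by
  unfold hs
  rw [Finset.sup'_le_iff]
  simp

theorem exists_hs (z : K) : ∃ v : InfinitePlace K, v z = hs z := by
  obtain ⟨v, -, hv⟩ := Finset.exists_mem_eq_sup' Finset.univ_nonempty
    (fun v : InfinitePlace K => v z)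
  exact ⟨v, hv.symm⟩

theorem hs_nonneg (z : K) : 0 ≤ hs z := by
  obtain ⟨v, hv⟩ := exists_hs z
  rw [← hv]
  exact v_nonneg v z

theorem hs_neg (z : K) : hs (-z) = hs z := by
  unfold hs
  simp only [v_neg]

theorem hs_add_le (z w : K) : hs (z + w) ≤ hs z + hs w := by
  rw [hs_le]
  intro v
  exact (v_add_le v z w).trans (add_le_add (le_hs z v) (le_hs w v))

theorem mem_OBox {X : ℝ} {z : 𝓞 K} : z ∈ OBox K X ↔ ∀ v : InfinitePlace K, v (z : K) ≤ X := by
  simp [OBox]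

theorem mem_OBox' {X : ℝ} {z : 𝓞 K} : z ∈ OBox K X ↔ hs (z : K) ≤ X := by
  rw [mem_OBox, hs_le]

theorem mem_VBox {n : ℕ} {X : ℝ} {x : Vc n (𝓞 K)} :
    x ∈ VBox K n X ↔ ∀ i, ∀ v : InfinitePlace K, v (x i : K) ≤ X := by
  simp only [VBox, Fintype.mem_piFinset, mem_OBox]

theorem mem_Box {n d : ℕ} {X : ℝ} {a : Ten n d (𝓞 K)} :
    a ∈ Box K n d X ↔ ∀ s, ∀ v : InfinitePlace K, v (a s : K) ≤ X := by
  simp only [Box, Fintype.mem_piFinset, mem_OBox]

theorem mem_TBox {n r : ℕ} {d : Fin r → ℕ} {X : ℝ} {F : Tup n d (𝓞 K)} :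
    F ∈ TBox K n d X ↔ ∀ i, F i ∈ Box K n (d i) X := by
  simp only [TBox, Fintype.mem_piFinset]

theorem card_VBox (n : ℕ) (X : ℝ) : (VBox K n X).card = (OBox K X).card ^ (n + 1) := by
  simp [VBox, Fintype.card_piFinset]

theorem card_Box (n d : ℕ) (X : ℝ) : (Box K n d X).card = (OBox K X).card ^ (n + 1) ^ d := by
  simp [Box, Fintype.card_piFinset]

theorem card_TBox (n : ℕ) {r : ℕ} (d : Fin r → ℕ) (X : ℝ) :
    (TBox K n d X).card = (OBox K X).card ^ VV n d := by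
  simp only [TBox, Fintype.card_piFinset, card_Box, Finset.prod_pow_eq_pow_sum]
  rfl

theorem OBox_mono {X Y : ℝ} (h : X ≤ Y) : OBox K X ⊆ OBox K Y := by
  intro z hz
  rw [mem_OBox] at hz ⊢
  exact fun v => (hz v).trans h

theorem zero_mem_OBox {X : ℝ} (h : 0 ≤ X) : (0 : 𝓞 K) ∈ OBox K X := by
  rw [mem_OBox]
  intro v
  simpa [v_zero] using h

theorem VBox_mono {n : ℕ} {X Y : ℝ} (h : X ≤ Y) : VBox K n X ⊆ VBox K n Y := by
  intro x hx
  rw [mem_VBox] at hx ⊢
  exact fun i v => (hx i v).trans h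

theorem Box_mono {n d : ℕ} {X Y : ℝ} (h : X ≤ Y) : Box K n d X ⊆ Box K n d Y := by
  intro x hx
  rw [mem_Box] at hx ⊢
  exact fun i v => (hx i v).trans h

theorem TBox_mono {n r : ℕ} {d : Fin r → ℕ} {X Y : ℝ} (h : X ≤ Y) :
    TBox K n d X ⊆ TBox K n d Y := by
  intro x hx
  rw [mem_TBox] at hx ⊢
  exact fun i => Box_mono h (hx i)

theorem tn_le {n d : ℕ} {X : ℝ} {a : Ten n d (𝓞 K)} :
    tn a ≤ X ↔ ∀ s, ∀ v : InfinitePlace K, v (a s : K) ≤ X := by
  unfold tn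
  rw [Finset.sup'_le_iff]
  simp only [Finset.mem_univ, forall_const, hs_le]

theorem mem_Box_iff_tn {n d : ℕ} {X : ℝ} {a : Ten n d (𝓞 K)} : a ∈ Box K n d X ↔ tn a ≤ X := by
  rw [mem_Box, tn_le]

theorem le_tn {n d : ℕ} (a : Ten n d (𝓞 K)) (s : Fin d → Fin (n + 1)) (v : InfinitePlace K) :
    v (a s : K) ≤ tn a := tn_le.1 le_rfl s v

theorem tn_nonneg {n d : ℕ} (a : Ten n d (𝓞 K)) : 0 ≤ tn a := by
  obtain ⟨v⟩ := (inferInstance : Nonempty (InfinitePlace K))
  exact (v_nonneg v _).trans (le_tn a (fun _ => 0) v)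

/-- Bound for the value of a tensor. -/
theorem ev_bound {n d : ℕ} {X Y : ℝ} (v : InfinitePlace K) (hX : 0 ≤ X) {a : Ten n d (𝓞 K)}
    {x : Vc n (𝓞 K)} (ha : ∀ s, v (a s : K) ≤ X) (hx : ∀ i, v (x i : K) ≤ Y) :
    v ((ev a x : 𝓞 K) : K) ≤ (n + 1) ^ d * X * Y ^ d := by
  have h1 : ((ev a x : 𝓞 K) : K) = ∑ s, (a s : K) * ∏ k, (x (s k) : K) := by
    simp [ev, map_sum, map_mul, map_prod]
  rw [h1]
  refine (v_sum_le v _ _).trans ?_
  have h2 : ∀ s ∈ (Finset.univ : Finset (Fin d → Fin (n + 1))),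
      v ((a s : K) * ∏ k, (x (s k) : K)) ≤ X * Y ^ d := by
    intro s _
    rw [v_mul, v_prod]
    refine mul_le_mul (ha s) ?_ (Finset.prod_nonneg fun _ _ => v_nonneg v _) hX
    refine (Finset.prod_le_prod (fun _ _ => v_nonneg v _) fun k _ => hx (s k)).trans ?_
    simp
  refine (Finset.sum_le_card_nsmul _ _ _ h2).trans ?_
  rw [nsmul_eq_mul, Finset.card_univ, Fintype.card_fun, Fintype.card_fin, Fintype.card_fin]
  push_cast
  rw [mul_assoc]

/-! Closure properties of the real line or complex plane `KK v`. -/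

theorem em_mem_KK (v : InfinitePlace K) (z : 𝓞 K) : em v z ∈ KK v := by
  intro h
  have h2 := InfinitePlace.conjugate_embedding_eq_of_isReal h
  have h3 : ComplexEmbedding.conjugate v.embedding (z : K) = v.embedding (z : K) := by rw [h2]
  rw [ComplexEmbedding.conjugate_coe_eq] at h3
  rw [em_apply]
  exact Complex.conj_eq_iff_im.1 h3

theorem KK_add {v : InfinitePlace K} {a b : ℂ} (ha : a ∈ KK v) (hb : b ∈ KK v) : a + b ∈ KK v := by
  intro h
  simp [ha h, hb h]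

theorem KK_sub {v : InfinitePlace K} {a b : ℂ} (ha : a ∈ KK v) (hb : b ∈ KK v) : a - b ∈ KK v := by
  intro h
  simp [ha h, hb h]

theorem KK_neg {v : InfinitePlace K} {a : ℂ} (ha : a ∈ KK v) : -a ∈ KK v := by
  intro h
  simp [ha h]

theorem KK_mul {v : InfinitePlace K} {a b : ℂ} (ha : a ∈ KK v) (hb : b ∈ KK v) : a * b ∈ KK v := by
  intro h
  simp [ha h, hb h]

theorem KK_real (v : InfinitePlace K) (a : ℝ) : (a : ℂ) ∈ KK v := by
  intro _
  simp

theorem KK_inv {v : InfinitePlace K} {a : ℂ} (ha : a ∈ KK v) : a⁻¹ ∈ KK v := by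
  intro h
  simp [Complex.inv_im, ha h]

theorem KK_div {v : InfinitePlace K} {a b : ℂ} (ha : a ∈ KK v) (hb : b ∈ KK v) : a / b ∈ KK v := by
  rw [div_eq_mul_inv]
  exact KK_mul ha (KK_inv hb)

theorem KK_zero (v : InfinitePlace K) : (0 : ℂ) ∈ KK v := by
  intro _
  simp

theorem KK_sum {ι : Type*} {v : InfinitePlace K} (s : Finset ι) (f : ι → ℂ)
    (h : ∀ i ∈ s, f i ∈ KK v) : ∑ i ∈ s, f i ∈ KK v := by
  intro hv
  rw [Complex.im_sum]
  exact Finset.sum_eq_zero fun i hi => h i hi hv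

/-! Weighted products. -/

theorem pn_nonneg {ρ : InfinitePlace K → ℝ} (h : ∀ v, 0 ≤ ρ v) : 0 ≤ pn ρ :=
  Finset.prod_nonneg fun v _ => pow_nonneg (h v) _

theorem pn_pos {ρ : InfinitePlace K → ℝ} (h : ∀ v, 0 < ρ v) : 0 < pn ρ :=
  Finset.prod_pos fun v _ => pow_pos (h v) _

theorem pn_mono {ρ σ : InfinitePlace K → ℝ} (h0 : ∀ v, 0 ≤ ρ v) (h : ∀ v, ρ v ≤ σ v) :
    pn ρ ≤ pn σ :=
  Finset.prod_le_prod (fun v _ => pow_nonneg (h0 v) _) fun v _ => pow_le_pow_left₀ (h0 v) (h v) _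

theorem pn_mul (ρ σ : InfinitePlace K → ℝ) : pn (fun v => ρ v * σ v) = pn ρ * pn σ := by
  unfold pn
  rw [← Finset.prod_mul_distrib]
  exact Finset.prod_congr rfl fun v _ => mul_pow _ _ _

theorem pn_div (ρ σ : InfinitePlace K → ℝ) : pn (fun v => ρ v / σ v) = pn ρ / pn σ := by
  unfold pn
  rw [← Finset.prod_div_distrib]
  exact Finset.prod_congr rfl fun v _ => div_pow _ _ _

theorem pn_const (X : ℝ) : pn (fun _ : InfinitePlace K => X) = X ^ eK K := by
  unfold pn eK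
  rw [Finset.prod_pow_eq_pow_sum, InfinitePlace.sum_mult_eq]

theorem pn_const_mul (c : ℝ) (ρ : InfinitePlace K → ℝ) :
    pn (fun v => c * ρ v) = c ^ eK K * pn ρ := by
  rw [pn_mul, pn_const]

theorem pn_pow (ρ : InfinitePlace K → ℝ) (m : ℕ) : pn (fun v => ρ v ^ m) = pn ρ ^ m := by
  unfold pn
  rw [← Finset.prod_pow]
  exact Finset.prod_congr rfl fun v _ => by rw [← pow_mul, ← pow_mul, mul_comm]

theorem eK_pos : 0 < eK K := Module.finrank_pos

theorem pn_eq_abs_norm (z : K) : pn (fun v : InfinitePlace K => v z) = |(Algebra.norm ℚ z : ℝ)| := by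
  unfold pn
  rw [InfinitePlace.prod_eq_abs_norm]
  simp

theorem absNorm_span_eq (z : 𝓞 K) :
    (Ideal.absNorm (Ideal.span {z}) : ℝ) = pn (fun v : InfinitePlace K => v (z : K)) := by
  rw [pn_eq_abs_norm, Ideal.absNorm_span_singleton]
  have h : (Algebra.norm ℚ (z : K)) = ((Algebra.norm ℤ z : ℤ) : ℚ) := by
    rw [← Algebra.coe_norm_int]
  rw [h]
  push_cast
  rw [Nat.cast_natAbs]
  simp

theorem one_le_absNorm {I : Ideal (𝓞 K)} (hI : I ≠ ⊥) : (1 : ℝ) ≤ Ideal.absNorm I := by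
  have h : Ideal.absNorm I ≠ 0 := by
    rwa [Ne, Ideal.absNorm_eq_zero_iff]
  exact_mod_cast Nat.one_le_iff_ne_zero.2 h

theorem absNorm_le_pn {I : Ideal (𝓞 K)} {z : 𝓞 K} (hz : z ∈ I) (h0 : z ≠ 0) :
    (Ideal.absNorm I : ℝ) ≤ pn (fun v : InfinitePlace K => v (z : K)) := by
  rw [← absNorm_span_eq]
  have hle : Ideal.span {z} ≤ I := by
    rw [Ideal.span_singleton_le_iff_mem]
    exact hz
  have hd : Ideal.absNorm I ∣ Ideal.absNorm (Ideal.span {z}) :=
    Ideal.absNorm_dvd_absNorm_of_le hle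
  have hne : Ideal.absNorm (Ideal.span {z}) ≠ 0 := by
    rw [Ne, Ideal.absNorm_eq_zero_iff, Ideal.span_singleton_eq_bot]
    exact h0
  exact_mod_cast Nat.le_of_dvd (Nat.pos_of_ne_zero hne) hd

theorem one_le_pn {z : 𝓞 K} (h0 : z ≠ 0) : 1 ≤ pn (fun v : InfinitePlace K => v (z : K)) := by
  have h := absNorm_le_pn (I := ⊤) (z := z) trivial h0
  simpa using h

end places

end Pool.Agent.Lib.MP_1ad228_ntN
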