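import Pool.Agent.Lib.MP_1ad228_ntN.B_Def
import Pool.Agent.Lib.MP_1ad228_ntN.NB_Em

/-!
JOB B_Dual.  The trace form.

`T_α(z) = Algebra.trace ℚ K (α * z)`, `ℚ`-linear in `α` and in `z`.
`dual_inj`: the `bas K u` span `K` over `ℚ` (every `β : K` is `(z : K)/(N : K)` with `z : 𝓞 K`, `N` a nonzero natural number: `IsIntegralClosure`/`NumberField` lemmas, e.g. `IsLocalization.exists_integer_multiple` or
`IsFractionRing.div_surjective` and norms; `sum_co`), so `T_α = 0` on `K`, and the trace form is nondegenerate (`traceForm_nondegenerate ℚ K`, or directly `T_α (α⁻¹) = trace 1 = finrank ≠ 0` if `α ≠ 0`).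
`dual_co`: `sum_co` and linearity.
`dualE`: the `ℚ`-linear map `K → (Fin (eK K) → ℚ)`, `α ↦ (fun u => T_α (bas u))` is injective (`dual_inj`) between spaces of dimension `eK K = Module.finrank ℚ K`, so surjective (`LinearMap.injective_iff_surjective_of_finrank_eq_finrank`);
take `α` with `T_α (bas u) = c u` and `dual_co`.
`trK`: write `β = (z : K)/(N : K)`, `z : 𝓞 K`, `N ≥ 1`; `v (z) = N v(β) ≤ N X`, so `|co z u| ≤ CK N X` (`co_low`); `T_α β = (1/N) ∑ u, T_α (bas u) * co z u`.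
`trB_finite`: by `dual_inj` the map `α ↦ (fun u => T_α (bas u))` is injective, and for `trB K T α` its values are casts of integers in `[-T, T]` (`Set.Finite.of_finite_image` / `Set.Finite.subset` with the image of
`Fintype.piFinset (fun _ => Finset.Icc (-T) T)`).
-/

namespace Pool.Agent.Lib.MP_1ad228_ntN

open NumberField Classical

set_option linter.unusedSectionVars false

variable {K : Type} [Field K] [NumberField K]

private theorem B_Dual_co (α : K) (z : 𝓞 K) :
    Algebra.trace ℚ K (α * (z : K)) =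
      ∑ u, Algebra.trace ℚ K (α * (bas K u : K)) * (co z u : ℚ) := by
  have h : (z : K) = ∑ u, ((co z u : ℚ)) • (bas K u : K) := by
    have h0 := congrArg (algebraMap (𝓞 K) K) (sum_co z)
    rw [map_sum] at h0
    refine h0.trans ?_
    refine Finset.sum_congr rfl fun u _ => ?_
    rw [map_mul, map_intCast, Algebra.smul_def]
    simp
  have h1 : α * (z : K) = ∑ u, ((co z u : ℚ)) • (α * (bas K u : K)) := by
    rw [h, Finset.mul_sum]
    exact Finset.sum_congr rfl fun u _ => mul_smul_comm _ _ _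
  rw [h1, map_sum]
  refine Finset.sum_congr rfl fun u _ => ?_
  rw [map_smul, smul_eq_mul, mul_comm]

private theorem B_Dual_mul (β : K) : ∃ (z : 𝓞 K) (N : ℕ), 0 < N ∧ (z : K) = (N : K) * β := by
  obtain ⟨y, hy, hi⟩ := IsAlgebraic.exists_integral_multiple (R := ℤ) (z := β)
    ((IsFractionRing.isAlgebraic_iff ℤ ℚ K).2 (Algebra.IsAlgebraic.isAlgebraic β))
  rcases le_total 0 y with h0 | h0
  · refine ⟨⟨y • β, hi⟩, y.natAbs, Int.natAbs_pos.2 hy, ?_⟩
    change y • β = _
    rw [zsmul_eq_mul]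
    have h1 : ((y.natAbs : ℤ) : K) = (y : K) := by rw [Int.natAbs_of_nonneg h0]
    rw [← h1, Int.cast_natCast]
  · refine ⟨⟨-(y • β), hi.neg⟩, y.natAbs, Int.natAbs_pos.2 hy, ?_⟩
    change -(y • β) = _
    rw [zsmul_eq_mul]
    have h1 : ((y.natAbs : ℤ) : K) = -(y : K) := by
      rw [← Int.natAbs_neg, Int.natAbs_of_nonneg (neg_nonneg.2 h0), Int.cast_neg]
    rw [Int.cast_natCast] at h1
    rw [h1, neg_mul]

theorem dual_inj {α : K} (h : ∀ u, Algebra.trace ℚ K (α * (bas K u : K)) = 0) : α = 0 := by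
  by_contra h0
  obtain ⟨z, N, hN, hz⟩ := B_Dual_mul α⁻¹
  have h1 := B_Dual_co α z
  rw [Finset.sum_eq_zero fun u _ => by rw [h u, zero_mul], hz, mul_left_comm, mul_inv_cancel₀ h0, mul_one] at h1
  have h2 : Algebra.trace ℚ K (algebraMap ℚ K (N : ℚ)) = 0 := by
    rw [map_natCast]
    exact h1
  rw [Algebra.trace_algebraMap, nsmul_eq_mul] at h2
  rcases mul_eq_zero.1 h2 with h3 | h3
  · exact (Module.finrank_pos (R := ℚ) (M := K)).ne' (by exact_mod_cast h3)
  · exact hN.ne' (by exact_mod_cast h3)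

theorem dual_co (α : K) (z : 𝓞 K) :
    Algebra.trace ℚ K (α * (z : K)) =
      ∑ u, Algebra.trace ℚ K (α * (bas K u : K)) * (co z u : ℚ) :=
  B_Dual_co α z

theorem dualE (c : Fin (eK K) → ℚ) : ∃ α : K, ∀ z : 𝓞 K,
    Algebra.trace ℚ K (α * (z : K)) = ∑ u, c u * (co z u : ℚ) := by
  let L : K →ₗ[ℚ] (Fin (eK K) → ℚ) :=
    LinearMap.pi fun u => (Algebra.trace ℚ K).comp (LinearMap.mulRight ℚ (bas K u : K))
  have hL : ∀ (α : K) (u : Fin (eK K)), L α u = Algebra.trace ℚ K (α * (bas K u : K)) := fun α u => rfl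
  have hinj : Function.Injective L := by
    rw [injective_iff_map_eq_zero]
    intro α hα
    refine dual_inj fun u => ?_
    rw [← hL, hα]
    rfl
  have hfin : Module.finrank ℚ K = Module.finrank ℚ (Fin (eK K) → ℚ) := by
    rw [Module.finrank_fin_fun]
    rfl
  obtain ⟨α, hα⟩ := (LinearMap.injective_iff_surjective_of_finrank_eq_finrank hfin).1 hinj c
  refine ⟨α, fun z => ?_⟩
  rw [dual_co]
  refine Finset.sum_congr rfl fun u _ => ?_
  rw [← hL, hα]

theorem trK (n : ℕ) (α β : K) (X ε : ℝ) (hβ : ∀ v : InfinitePlace K, v β ≤ X)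
    (hα : ∀ u, |((Algebra.trace ℚ K (α * (bas K u : K)) : ℚ) : ℝ)| ≤ ε) :
    |((Algebra.trace ℚ K (α * β) : ℚ) : ℝ)| ≤ (eK K : ℝ) * CK K n * X * ε := by
  obtain ⟨z, N, hN, hz⟩ := B_Dual_mul β
  have hN' : (0 : ℝ) < N := Nat.cast_pos.2 hN
  have h1 : ∀ u, |(co z u : ℝ)| ≤ CK K n * (N * X) := by
    refine co_low n z _ fun v => ?_
    rw [hz, v_mul, v_natCast]
    exact mul_le_mul_of_nonneg_left (hβ v) hN'.le
  have h2 : Algebra.trace ℚ K (α * (z : K)) = (N : ℚ) * Algebra.trace ℚ K (α * β) := by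
    have h3 : α * (z : K) = (N : ℚ) • (α * β) := by
      rw [hz, Algebra.smul_def, map_natCast, mul_left_comm]
    rw [h3, map_smul, smul_eq_mul]
  rw [dual_co] at h2
  have h4 := congrArg (fun q : ℚ => (q : ℝ)) h2
  simp only [Rat.cast_sum, Rat.cast_mul, Rat.cast_intCast, Rat.cast_natCast] at h4
  have h5 : (N : ℝ) * |((Algebra.trace ℚ K (α * β) : ℚ) : ℝ)| ≤ N * ((eK K : ℝ) * CK K n * X * ε) := by
    calc (N : ℝ) * |((Algebra.trace ℚ K (α * β) : ℚ) : ℝ)| = |(N : ℝ) * ((Algebra.trace ℚ K (α * β) : ℚ) : ℝ)| := by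
          rw [abs_mul, abs_of_pos hN']
      _ ≤ ∑ u, |((Algebra.trace ℚ K (α * (bas K u : K)) : ℚ) : ℝ) * (co z u : ℝ)| := by
          rw [← h4]
          exact Finset.abs_sum_le_sum_abs _ _
      _ ≤ ∑ _u : Fin (eK K), ε * (CK K n * (N * X)) := by
          refine Finset.sum_le_sum fun u _ => ?_
          rw [abs_mul]
          exact mul_le_mul (hα u) (h1 u) (abs_nonneg _) ((abs_nonneg _).trans (hα u))
      _ = N * ((eK K : ℝ) * CK K n * X * ε) := by
          rw [Finset.sum_const, Finset.card_univ, Fintype.card_fin, nsmul_eq_mul]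
          ring
  exact le_of_mul_le_mul_left h5 hN'

variable (K) in
theorem trB_finite (T : ℕ) : {α : K | trB K T α}.Finite := by
  have hinj : Set.InjOn (fun (α : K) (u : Fin (eK K)) => Algebra.trace ℚ K (α * (bas K u : K)))
      {α : K | trB K T α} := by
    intro a _ b _ hab
    rw [← sub_eq_zero]
    refine dual_inj fun u => ?_
    rw [sub_mul, map_sub, sub_eq_zero]
    exact congrFun hab u
  refine Set.Finite.of_finite_image (Set.Finite.subset (((Fintype.piFinset fun _ : Fin (eK K) =>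
    Finset.Icc (-(T : ℤ)) (T : ℤ)).finite_toSet).image fun (m : Fin (eK K) → ℤ) u => ((m u : ℤ) : ℚ)) ?_) hinj
  rintro _ ⟨α, hα, rfl⟩
  choose m hm using hα
  refine ⟨m, ?_, ?_⟩
  · rw [Finset.mem_coe, Fintype.mem_piFinset]
    exact fun u => Finset.mem_Icc.2 (abs_le.1 (hm u).1)
  · funext u
    exact ((hm u).2).symm

end Pool.Agent.Lib.MP_1ad228_ntN
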