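import Pool.Agent.Lib.MP_1ad228_ntN.Slice

/-!
JOB EEle.  Trivial bound for the contribution of a pair.  (Model with proof: Lib/MP_1ad228_ntF/EEle.lean)

PROOF.  For every `i`, with `C i` of `slice` every slice is in `[0, C i * n2 (d i) x y A]` (`sl_nonneg`,
`slice`), so the averages `TT`, `TS` too (also when the set `MS` is empty: then it is 0), and the
double average `UU` too: these are `TT_mem`, `TS_mem`, `UU_mem` (with an arbitrary constant `C` bounding all slices).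
`EE = ∏ S_i - ∏ T_i - ∏ T'_i + ∏ U_i` with all four products in `[0, ∏ (C i * n2)]` (`Finset.prod_nonneg`,
`Finset.prod_le_prod`), so `|EE| ≤ 2 ∏ C i ∏ n2`.  `n2_le_n1`: subset.
-/

namespace Pool.Agent.Lib.MP_1ad228_ntN

open NumberField Classical
open Pool.Agent.Lib.MP_219881_nt (mn)

set_option linter.unusedSectionVars false

variable {K : Type} [Field K] [NumberField K]

private theorem EEle_avg (s : Finset (𝓞 K)) (f : 𝓞 K → ℝ) {C : ℝ} (hC : 0 ≤ C)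
    (h0 : ∀ m, 0 ≤ f m) (h1 : ∀ m, f m ≤ C) :
    0 ≤ (1 / (s.card : ℝ)) * ∑ m ∈ s, f m ∧ (1 / (s.card : ℝ)) * ∑ m ∈ s, f m ≤ C := by
  have hs : 0 ≤ ∑ m ∈ s, f m := Finset.sum_nonneg fun m _ => h0 m
  refine ⟨mul_nonneg (by positivity) hs, ?_⟩
  rcases Nat.eq_zero_or_pos s.card with hc | hc
  · rw [hc, Nat.cast_zero, div_zero, zero_mul]
    exact hC
  · have hc' : (0 : ℝ) < (s.card : ℝ) := by exact_mod_cast hc
    rw [one_div, inv_mul_le_iff₀ hc']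
    calc ∑ m ∈ s, f m ≤ ∑ _m ∈ s, C := Finset.sum_le_sum fun m _ => h1 m
      _ = (s.card : ℝ) * C := by rw [Finset.sum_const, nsmul_eq_mul]

theorem TT_mem {n : ℕ} (d : ℕ) (o : Fin (n + 1)) (W κ A : ℕ) (x y : Vc n (𝓞 K)) (C : ℝ)
    (hC : ∀ m m', sl d A x y m m' ≤ C) :
    0 ≤ TT d o W κ A x y ∧ TT d o W κ A x y ≤ C := by
  have h0 : ∀ m m', 0 ≤ sl d A x y m m' := fun m m' => sl_nonneg d A x y m m'
  exact EEle_avg _ (fun m => sl d A x y m 0) ((h0 0 0).trans (hC 0 0)) (fun m => h0 m 0)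
    (fun m => hC m 0)

theorem TS_mem {n : ℕ} (d : ℕ) (o : Fin (n + 1)) (W κ A : ℕ) (x y : Vc n (𝓞 K)) (C : ℝ)
    (hC : ∀ m m', sl d A x y m m' ≤ C) :
    0 ≤ TS d o W κ A x y ∧ TS d o W κ A x y ≤ C := by
  have h0 : ∀ m m', 0 ≤ sl d A x y m m' := fun m m' => sl_nonneg d A x y m m'
  exact EEle_avg _ (fun m' => sl d A x y 0 m') ((h0 0 0).trans (hC 0 0)) (fun m' => h0 0 m')
    (fun m' => hC 0 m')

theorem UU_mem {n : ℕ} (d : ℕ) (o : Fin (n + 1)) (W κ A : ℕ) (x y : Vc n (𝓞 K)) (C : ℝ)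
    (hC : ∀ m m', sl d A x y m m' ≤ C) :
    0 ≤ UU d o W κ A x y ∧ UU d o W κ A x y ≤ C := by
  have h0 : ∀ m m', 0 ≤ sl d A x y m m' := fun m m' => sl_nonneg d A x y m m'
  have hC0 : 0 ≤ C := (h0 0 0).trans (hC 0 0)
  have e2 : UU d o W κ A x y =
      (1 / ((MS d W κ A o x).card : ℝ)) * ∑ m ∈ MS d W κ A o x,
        ((1 / ((MS d W κ A o y).card : ℝ)) * ∑ m' ∈ MS d W κ A o y, sl d A x y m m') := by
    unfold UU
    rw [← Finset.mul_sum]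
    ring
  rw [e2]
  refine EEle_avg _ (fun m => (1 / ((MS d W κ A o y).card : ℝ)) *
      ∑ m' ∈ MS d W κ A o y, sl d A x y m m') hC0 (fun m => ?_) (fun m => ?_)
  · exact (EEle_avg _ (fun m' => sl d A x y m m') hC0 (fun m' => h0 m m') (fun m' => hC m m')).1
  · exact (EEle_avg _ (fun m' => sl d A x y m m') hC0 (fun m' => h0 m m') (fun m' => hC m m')).2

theorem n2_le_n1 {n : ℕ} (d : ℕ) (x y : Vc n (𝓞 K)) (X : ℝ) : n2 d x y X ≤ n1 d x X := by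
  unfold n2 n1
  refine Finset.card_le_card fun a ha => ?_
  rw [Finset.mem_filter] at ha ⊢
  exact ⟨ha.1, ha.2.1⟩

private theorem EEle_prod {r : ℕ} (a C : Fin r → ℝ) (h : ∀ i, 0 ≤ a i ∧ a i ≤ C i) :
    0 ≤ ∏ i, a i ∧ ∏ i, a i ≤ ∏ i, C i :=
  ⟨Finset.prod_nonneg fun i _ => (h i).1, Finset.prod_le_prod (fun i _ => (h i).1) fun i _ => (h i).2⟩

variable (K) in
theorem EEle (n : ℕ) {r : ℕ} (d : Fin r → ℕ) : ∃ C : ℝ, 1 ≤ C ∧
    ∀ (o : Fin (n + 1)) (W κ A : ℕ), 1 ≤ A → ∀ x y : Vc n (𝓞 K),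
    |EE d o W κ A x y| ≤ C * ∏ i, (n2 (d i) x y A : ℝ) := by
  have hsl := fun i : Fin r => slice K n (d i)
  choose c hc1 hc2 hc3 using hsl
  have hprod : (1 : ℝ) ≤ ∏ i, c i := by
    have h := Finset.prod_le_prod (s := Finset.univ) (f := fun _ : Fin r => (1 : ℝ)) (g := c)
      (fun _ _ => zero_le_one) (fun i _ => hc1 i)
    rwa [Finset.prod_const_one] at h
  refine ⟨2 * ∏ i, c i, by linarith, ?_⟩
  intro o W κ A hA x y
  obtain ⟨C, hC⟩ : ∃ C : Fin r → ℝ, ∀ i, C i = c i * (n2 (d i) x y A : ℝ) :=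
    ⟨fun i => c i * (n2 (d i) x y A : ℝ), fun i => rfl⟩
  have h1 : ∀ i m m', sl (d i) A x y m m' ≤ C i := fun i m m' => by
    rw [hC]
    exact hc2 i A hA x y m m'
  have eP : ∏ i, C i = (∏ i, c i) * ∏ i, (n2 (d i) x y A : ℝ) := by
    rw [← Finset.prod_mul_distrib]
    exact Finset.prod_congr rfl fun i _ => hC i
  have e1 : 2 * (∏ i, c i) * ∏ i, (n2 (d i) x y A : ℝ) = 2 * ∏ i, C i := by
    rw [eP, mul_assoc]
  rw [e1]
  unfold EE
  obtain ⟨a0, a1⟩ := EEle_prod (fun i => sl (d i) A x y 0 0) C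
    fun i => ⟨sl_nonneg (d i) A x y 0 0, h1 i 0 0⟩
  obtain ⟨b0, b1⟩ := EEle_prod (fun i => TT (d i) o W κ A x y) C
    fun i => TT_mem (d i) o W κ A x y (C i) (h1 i)
  obtain ⟨c0, c1⟩ := EEle_prod (fun i => TS (d i) o W κ A x y) C
    fun i => TS_mem (d i) o W κ A x y (C i) (h1 i)
  obtain ⟨d0, d1⟩ := EEle_prod (fun i => UU (d i) o W κ A x y) C
    fun i => UU_mem (d i) o W κ A x y (C i) (h1 i)
  rw [abs_le]
  constructor <;> linarith

end Pool.Agent.Lib.MP_1ad228_ntN
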