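import Pool.Agent.Lib.MP_1ad228_ntN.B_Def

/-!
JOB B_SzK.  Schwartz-Zippel in a box of integers of `K`, for an arbitrary finite set of variables. (Model: Lib/MP_1ad228_ntF/B_Sz.lean.)

One polynomial: `k = Fintype.card κ`, `w : κ ≃ Fin k` (`Fintype.equivFin`), `Q = MvPolynomial.rename w P ≠ 0`, `S` = image of `OBox K H` in `K` (injective, `RingOfIntegers.ext`), `S.card = (OBox K H).card > 0`.
`MvPolynomial.schwartz_zippel_totalDegree` (in `ℚ≥0`): the number of zeros of `Q` in `S^k` is at most `totalDegree * S.card^(k-1)` if `k ≥ 1`; `S.card ≤ CK K 0 * H^e` (`OBox_up`). If `k = 0`, `P` is a nonzero constant and the set is empty.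
Union over the finite set `I`: `Finset.card_biUnion_le`; `C = 1 + ∑ totalDegree * CK^(k-1)`; `(H^e)^(k-1) = (H^(k-1))^e`.
-/

namespace Pool.Agent.Lib.MP_1ad228_ntN

open NumberField Classical

set_option linter.unusedSectionVars false

variable {K : Type} [Field K] [NumberField K]

private theorem B_SzK_one {κ : Type} [Fintype κ] (P : MvPolynomial κ K) (hP : P ≠ 0) (H : ℕ) :
    (((Fintype.piFinset fun _ : κ => OBox K H).filter fun z =>
      MvPolynomial.eval (fun k => (z k : K)) P = 0).card : ℝ) ≤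
      (P.totalDegree : ℝ) * ((OBox K (H : ℝ)).card : ℝ) ^ (Fintype.card κ - 1) := by
  obtain ⟨w, -⟩ : ∃ w : κ ≃ Fin (Fintype.card κ), w = w := ⟨Fintype.equivFin κ, rfl⟩
  have hQ : MvPolynomial.rename w P ≠ 0 := by
    intro h
    apply hP
    apply MvPolynomial.rename_injective w w.injective
    rw [h, map_zero]
  have hdeg : (MvPolynomial.rename w P).totalDegree ≤ P.totalDegree :=
    MvPolynomial.totalDegree_rename_le _ _
  have hinj : Function.Injective (fun z : 𝓞 K => (z : K)) := fun a b h => RingOfIntegers.ext h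
  have h := MvPolynomial.schwartz_zippel_totalDegree hQ ((OBox K (H : ℝ)).image fun z : 𝓞 K => (z : K))
  have hS : ((OBox K (H : ℝ)).image fun z : 𝓞 K => (z : K)).card = (OBox K (H : ℝ)).card :=
    Finset.card_image_of_injective _ hinj
  have hS0 : 0 < (OBox K (H : ℝ)).card :=
    Finset.card_pos.2 ⟨0, zero_mem_OBox (Nat.cast_nonneg H)⟩
  rw [hS] at h
  have hcard : ((Fintype.piFinset fun _ : κ => OBox K (H : ℝ)).filter fun z =>
      MvPolynomial.eval (fun k => (z k : K)) P = 0).card =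
      ((Fintype.piFinset fun _ : Fin (Fintype.card κ) => ((OBox K (H : ℝ)).image fun z : 𝓞 K => (z : K))).filter
        fun z => MvPolynomial.eval z (MvPolynomial.rename w P) = 0).card := by
    refine Finset.card_bij (fun z _ j => (z (w.symm j) : K)) ?_ ?_ ?_
    · intro z hz
      have hz' := Finset.mem_filter.mp hz
      refine Finset.mem_filter.mpr ⟨?_, ?_⟩
      · rw [Fintype.mem_piFinset] at hz' ⊢
        intro j
        exact Finset.mem_image.2 ⟨z (w.symm j), hz'.1 (w.symm j), rfl⟩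
      · rw [MvPolynomial.eval_rename]
        have e : (fun j => (z (w.symm j) : K)) ∘ w = fun k => (z k : K) := by
          funext j
          simp
        rw [e]
        exact hz'.2
    · intro z _ z' _ hzz
      funext j
      have := congrFun hzz (w j)
      simp only [Equiv.symm_apply_apply] at this
      exact hinj this
    · intro y hy
      have hy' := Finset.mem_filter.mp hy
      have h1 := hy'.1
      rw [Fintype.mem_piFinset] at h1
      choose z hz hzy using fun j => Finset.mem_image.1 (h1 j)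
      refine ⟨z ∘ w, Finset.mem_filter.mpr ⟨?_, ?_⟩, ?_⟩
      · rw [Fintype.mem_piFinset]
        intro j
        exact hz (w j)
      · have h2 := hy'.2
        rw [MvPolynomial.eval_rename] at h2
        have e : y ∘ w = fun k => ((z ∘ w) k : K) := by
          funext j
          exact (hzy (w j)).symm
        rw [e] at h2
        exact h2
      · funext j
        simp only [Function.comp_apply, Equiv.apply_symm_apply]
        exact hzy j
  rw [hcard]
  obtain ⟨N, hN⟩ : ∃ N : ℕ, N = ((Fintype.piFinset fun _ : Fin (Fintype.card κ) => ((OBox K (H : ℝ)).image fun z : 𝓞 K => (z : K))).filter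
        fun z => MvPolynomial.eval z (MvPolynomial.rename w P) = 0).card := ⟨_, rfl⟩
  obtain ⟨D, hD⟩ : ∃ D : ℕ, D = (MvPolynomial.rename w P).totalDegree := ⟨_, rfl⟩
  obtain ⟨s, hs⟩ : ∃ s : ℕ, s = (OBox K (H : ℝ)).card := ⟨_, rfl⟩
  rw [← hD, ← hs] at h
  rw [← hD] at hdeg
  rw [← hs] at hS0
  rw [← hN, ← hs]
  have h' : (N : ℝ) / (s : ℝ) ^ (Fintype.card κ) ≤ (D : ℝ) / (s : ℝ) := by
    have h2 : (((N : ℚ≥0) / (s : ℚ≥0) ^ (Fintype.card κ) : ℚ≥0) : ℝ) ≤
        (((D : ℚ≥0) / (s : ℚ≥0) : ℚ≥0) : ℝ) := by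
      refine NNRat.cast_le.mpr ?_
      refine le_trans (le_of_eq ?_) h
      rw [hN]
    push_cast at h2 ⊢
    exact h2
  have hb1 : (1 : ℝ) ≤ (s : ℝ) := by exact_mod_cast hS0
  have hb : (0 : ℝ) < (s : ℝ) := by linarith
  rw [div_le_div_iff₀ (pow_pos hb _) hb] at h'
  have hDP : (D : ℝ) ≤ P.totalDegree := by exact_mod_cast hdeg
  have hN0 : (0 : ℝ) ≤ N := Nat.cast_nonneg _
  have hD0 : (0 : ℝ) ≤ D := Nat.cast_nonneg _
  rcases Nat.eq_zero_or_pos (Fintype.card κ) with h0 | h0
  · rw [h0, pow_zero, mul_one] at h'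
    rw [h0]
    simp only [Nat.zero_sub, pow_zero, mul_one]
    nlinarith
  · obtain ⟨k, hK⟩ : ∃ k, Fintype.card κ = k + 1 := ⟨Fintype.card κ - 1, by omega⟩
    rw [hK] at h' ⊢
    rw [Nat.add_sub_cancel]
    rw [pow_succ, ← mul_assoc] at h'
    have h3 := le_of_mul_le_mul_right h' hb
    refine h3.trans ?_
    exact mul_le_mul_of_nonneg_right hDP (pow_nonneg hb.le _)

variable (K) in
theorem szUnionK {κ ι : Type} [Fintype κ] (I : Finset ι) (P : ι → MvPolynomial κ K)
    (hP : ∀ i ∈ I, P i ≠ 0) : ∃ C : ℝ, 1 ≤ C ∧ ∀ H : ℕ, 1 ≤ H →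
    (((Fintype.piFinset fun _ : κ => OBox K H).filter fun z =>
      ∃ i ∈ I, MvPolynomial.eval (fun k => (z k : K)) (P i) = 0).card : ℝ) ≤
      C * ((H : ℝ) ^ (Fintype.card κ - 1)) ^ eK K := by
  refine ⟨1 + (∑ i ∈ I, ((P i).totalDegree : ℝ)) * CK K 0 ^ (Fintype.card κ - 1), ?_, ?_⟩
  · have h1 : 0 ≤ ∑ i ∈ I, ((P i).totalDegree : ℝ) := Finset.sum_nonneg fun _ _ => Nat.cast_nonneg _
    have h2 := CK_pos K 0
    have h3 : 0 ≤ (∑ i ∈ I, ((P i).totalDegree : ℝ)) * CK K 0 ^ (Fintype.card κ - 1) := by positivity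
    linarith
  · intro H hH
    have hH' : (1 : ℝ) ≤ H := by exact_mod_cast hH
    have hsub : ((Fintype.piFinset fun _ : κ => OBox K (H : ℝ)).filter fun z =>
        ∃ i ∈ I, MvPolynomial.eval (fun k => (z k : K)) (P i) = 0) ⊆
        I.biUnion fun i => (Fintype.piFinset fun _ : κ => OBox K (H : ℝ)).filter
          fun z => MvPolynomial.eval (fun k => (z k : K)) (P i) = 0 := by
      intro z hz
      obtain ⟨h1, i, hi, h2⟩ := Finset.mem_filter.mp hz
      exact Finset.mem_biUnion.mpr ⟨i, hi, Finset.mem_filter.mpr ⟨h1, h2⟩⟩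
    have h1 := (Finset.card_le_card hsub).trans Finset.card_biUnion_le
    have h2 : (((Fintype.piFinset fun _ : κ => OBox K (H : ℝ)).filter fun z =>
        ∃ i ∈ I, MvPolynomial.eval (fun k => (z k : K)) (P i) = 0).card : ℝ) ≤
        ∑ i ∈ I, (((Fintype.piFinset fun _ : κ => OBox K (H : ℝ)).filter
          fun z => MvPolynomial.eval (fun k => (z k : K)) (P i) = 0).card : ℝ) := by
      exact_mod_cast h1
    refine h2.trans ?_
    have h5 : ((OBox K (H : ℝ)).card : ℝ) ^ (Fintype.card κ - 1) ≤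
        CK K 0 ^ (Fintype.card κ - 1) * ((H : ℝ) ^ (Fintype.card κ - 1)) ^ eK K := by
      refine (pow_le_pow_left₀ (Nat.cast_nonneg _) (OBox_up K 0 hH') _).trans (le_of_eq ?_)
      rw [mul_pow, ← pow_mul, ← pow_mul, mul_comm (eK K)]
    have h3 : ∀ i ∈ I, (((Fintype.piFinset fun _ : κ => OBox K (H : ℝ)).filter
          fun z => MvPolynomial.eval (fun k => (z k : K)) (P i) = 0).card : ℝ) ≤
        ((P i).totalDegree : ℝ) * (CK K 0 ^ (Fintype.card κ - 1) *
          ((H : ℝ) ^ (Fintype.card κ - 1)) ^ eK K) := by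
      intro i hi
      exact (B_SzK_one (P i) (hP i hi) H).trans (mul_le_mul_of_nonneg_left h5 (Nat.cast_nonneg _))
    refine (Finset.sum_le_sum h3).trans ?_
    rw [← Finset.sum_mul]
    have h4 : 0 ≤ ((H : ℝ) ^ (Fintype.card κ - 1)) ^ eK K := by positivity
    nlinarith

end Pool.Agent.Lib.MP_1ad228_ntN
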