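import Pool.Agent.Lib.MP_1ad228_ntN.Alg

/-!
Elementary facts about the test points and the minors.
-/

namespace Pool.Agent.Lib.MP_1ad228_ntN

open NumberField Classical
open Pool.Agent.Lib.MP_219881_nt (mn)

set_option linter.unusedSectionVars false

section gg
variable {K : Type} [Field K] [NumberField K] {n B H q : ℕ} {o : Fin (n + 1)}

theorem GG_le {x : Vc n (𝓞 K)} (hx : x ∈ GG K B H q o) (i : Fin (n + 1)) (v : InfinitePlace K) :
    v (x i : K) ≤ (B : ℝ) := mem_VBox.1 (Finset.mem_filter.1 hx).1 i v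

theorem GG_pivot {x : Vc n (𝓞 K)} (hx : x ∈ GG K B H q o) (v : InfinitePlace K) :
    (B : ℝ) ≤ q * v (x o : K) := (Finset.mem_filter.1 hx).2.1 v

theorem GG_uni {x : Vc n (𝓞 K)} (hx : x ∈ GG K B H q o) : Uni x :=
  (Finset.mem_filter.1 hx).2.2.1

theorem GG_good {x : Vc n (𝓞 K)} (hx : x ∈ GG K B H q o) : HGood H x :=
  (Finset.mem_filter.1 hx).2.2.2

theorem GG_vpos (hB : 1 ≤ B) {x : Vc n (𝓞 K)} (hx : x ∈ GG K B H q o) (v : InfinitePlace K) :
    0 < v (x o : K) := by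
  have h1 := GG_pivot hx v
  have h2 : (1 : ℝ) ≤ B := by exact_mod_cast hB
  rcases (v_nonneg v (x o : K)).lt_or_eq with h3 | h3
  · exact h3
  · rw [← h3, mul_zero] at h1
    linarith

theorem GG_ne (hB : 1 ≤ B) {x : Vc n (𝓞 K)} (hx : x ∈ GG K B H q o) : x o ≠ 0 := by
  intro h
  obtain ⟨v⟩ := (inferInstance : Nonempty (InfinitePlace K))
  have h1 := GG_vpos hB hx v
  rw [h] at h1
  simp at h1

theorem GG_inv (hB : 1 ≤ B) {x : Vc n (𝓞 K)} (hx : x ∈ GG K B H q o) (v : InfinitePlace K) :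
    1 / v (x o : K) ≤ (q : ℝ) / B := by
  have hB0 : (0 : ℝ) < B := by exact_mod_cast hB
  rw [div_le_div_iff₀ (GG_vpos hB hx v) hB0, one_mul]
  exact GG_pivot hx v

theorem GG_q (hB : 1 ≤ B) {x : Vc n (𝓞 K)} (hx : x ∈ GG K B H q o) : 1 ≤ q := by
  rcases Nat.eq_zero_or_pos q with h | h
  · obtain ⟨v⟩ := (inferInstance : Nonempty (InfinitePlace K))
    have h1 := GG_pivot hx v
    have h2 : (1 : ℝ) ≤ B := by exact_mod_cast hB
    rw [h, Nat.cast_zero, zero_mul] at h1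
    linarith
  · exact h

theorem le_Del (o : Fin (n + 1)) (x y : Vc n (𝓞 K)) (j : Fin (n + 1)) (v : InfinitePlace K) :
    v ((mn x y o j : 𝓞 K) : K) ≤ Del o x y v :=
  Finset.le_sup' (fun j : Fin (n + 1) => v ((mn x y o j : 𝓞 K) : K)) (Finset.mem_univ j)

theorem Del_nonneg (o : Fin (n + 1)) (x y : Vc n (𝓞 K)) (v : InfinitePlace K) :
    0 ≤ Del o x y v := (v_nonneg v _).trans (le_Del o x y o v)

theorem Del_symm (o : Fin (n + 1)) (x y : Vc n (𝓞 K)) (v : InfinitePlace K) :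
    Del o y x v = Del o x y v := by
  unfold Del
  congr 1
  funext j
  rw [mn_swap]
  have h : ((-mn x y o j : 𝓞 K) : K) = -((mn x y o j : 𝓞 K) : K) := by simp
  rw [h, v_neg]

theorem Prp_symm {x y : Vc n (𝓞 K)} (h : Prp x y) : Prp y x := fun i j => by
  rw [mn_swap, h i j, neg_zero]

theorem mn_mem_Dd (x y : Vc n (𝓞 K)) (i j : Fin (n + 1)) : mn x y i j ∈ Dd x y :=
  Ideal.subset_span ⟨(i, j), rfl⟩

theorem Dd_le {x y : Vc n (𝓞 K)} {I : Ideal (𝓞 K)} (h : ∀ i j, mn x y i j ∈ I) : Dd x y ≤ I := by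
  rw [Dd, Ideal.span_le]
  rintro _ ⟨p, rfl⟩
  exact h p.1 p.2

theorem Dd_symm (x y : Vc n (𝓞 K)) : Dd y x = Dd x y := by
  refine le_antisymm (Dd_le fun i j => ?_) (Dd_le fun i j => ?_)
  · rw [mn_swap]
    exact (Ideal.neg_mem_iff _).2 (mn_mem_Dd x y i j)
  · rw [mn_swap]
    exact (Ideal.neg_mem_iff _).2 (mn_mem_Dd y x i j)

theorem nD_symm (x y : Vc n (𝓞 K)) : nD y x = nD x y := by
  unfold nD
  rw [Dd_symm]

theorem Dd_ne_bot {x y : Vc n (𝓞 K)} (h : ¬ Prp x y) : Dd x y ≠ ⊥ := by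
  intro h1
  apply h
  intro i j
  have h2 := mn_mem_Dd x y i j
  rw [h1] at h2
  exact h2

theorem one_le_nD {x y : Vc n (𝓞 K)} (h : ¬ Prp x y) : 1 ≤ nD x y :=
  one_le_absNorm (Dd_ne_bot h)

theorem exists_mn {x y : Vc n (𝓞 K)} (hx : x o ≠ 0) (h : ¬ Prp x y) :
    ∃ j, mn x y o j ≠ 0 := by
  by_contra hcon
  push Not at hcon
  apply h
  intro i j
  have h1 : x o * mn x y i j = x i * mn x y o j - x j * mn x y o i := by
    simp only [Pool.Agent.Lib.MP_219881_nt.mn]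
    ring
  rw [hcon j, hcon i, mul_zero, mul_zero, sub_zero] at h1
  exact (mul_eq_zero.1 h1).resolve_left hx

theorem Del_pos {x y : Vc n (𝓞 K)} (hx : x o ≠ 0) (h : ¬ Prp x y) (v : InfinitePlace K) :
    0 < Del o x y v := by
  obtain ⟨j, hj⟩ := exists_mn hx h
  exact lt_of_lt_of_le (v_pos v (by simpa using hj)) (le_Del o x y j v)

theorem Del_le {x y : Vc n (𝓞 K)} (hx : x ∈ GG K B H q o) (hy : y ∈ GG K B H q o)
    (v : InfinitePlace K) : Del o x y v ≤ 2 * (B : ℝ) ^ 2 := by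
  refine Finset.sup'_le _ _ fun j _ => ?_
  have h1 : ((mn x y o j : 𝓞 K) : K) = (x o : K) * (y j : K) - (x j : K) * (y o : K) := by
    simp [Pool.Agent.Lib.MP_219881_nt.mn]
  rw [h1]
  refine (v_sub_le v _ _).trans ?_
  rw [v_mul, v_mul]
  have hB : (0 : ℝ) ≤ B := Nat.cast_nonneg _
  have h2 := mul_le_mul (GG_le hx o v) (GG_le hy j v) (v_nonneg _ _) hB
  have h3 := mul_le_mul (GG_le hx j v) (GG_le hy o v) (v_nonneg _ _) hB
  calc _ ≤ (B : ℝ) * B + B * B := add_le_add h2 h3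
    _ = 2 * (B : ℝ) ^ 2 := by ring

/-- The norm of the ideal of the minors is at most the product of the `Del`. -/
theorem nD_le_pn {x y : Vc n (𝓞 K)} (hx : x o ≠ 0) (h : ¬ Prp x y) :
    nD x y ≤ pn (Del o x y) := by
  obtain ⟨j, hj⟩ := exists_mn hx h
  refine (absNorm_le_pn (mn_mem_Dd x y o j) hj).trans ?_
  exact pn_mono (fun v => v_nonneg v _) fun v => le_Del o x y j v

theorem one_le_pn_Del {x y : Vc n (𝓞 K)} (hx : x o ≠ 0) (h : ¬ Prp x y) :
    1 ≤ pn (Del o x y) := (one_le_nD h).trans (nD_le_pn hx h)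

/-- Balanced combination of the minors (B6). -/
theorem exists_bal {x y : Vc n (𝓞 K)} (hx : x o ≠ 0) (h : ¬ Prp x y) :
    ∃ c : Fin (n + 1) → ℕ, (∀ j, (c j : ℝ) ≤ CK K n) ∧
      (∑ j, (c j : 𝓞 K) * mn x y o j) ≠ 0 ∧ ∀ v : InfinitePlace K,
      Del o x y v ≤ CK K n * v ((∑ j, (c j : 𝓞 K) * mn x y o j : 𝓞 K) : K) ∧
      v ((∑ j, (c j : 𝓞 K) * mn x y o j : 𝓞 K) : K) ≤ (n + 1) * CK K n * Del o x y v := by
  obtain ⟨c, hc, hc2⟩ := balI (fun j => mn x y o j) (exists_mn hx h)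
  have h1 : ∀ v : InfinitePlace K,
      Del o x y v ≤ CK K n * v ((∑ j, (c j : 𝓞 K) * mn x y o j : 𝓞 K) : K) := fun v =>
    Finset.sup'_le _ _ fun j _ => hc2 v j
  refine ⟨c, hc, fun h0 => ?_, fun v => ⟨h1 v, ?_⟩⟩
  · obtain ⟨v⟩ := (inferInstance : Nonempty (InfinitePlace K))
    have h2 := h1 v
    rw [h0] at h2
    have h3 := Del_pos hx h v
    simp at h2
    linarith
  · have h2 : ((∑ j, (c j : 𝓞 K) * mn x y o j : 𝓞 K) : K) =
        ∑ j, (c j : K) * ((mn x y o j : 𝓞 K) : K) := by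
      push_cast
      rfl
    rw [h2]
    refine (v_sum_le v _ _).trans ?_
    calc ∑ j, v ((c j : K) * ((mn x y o j : 𝓞 K) : K)) ≤
          ∑ _j : Fin (n + 1), CK K n * Del o x y v := by
          refine Finset.sum_le_sum fun j _ => ?_
          rw [v_mul, v_natCast]
          exact mul_le_mul (hc j) (le_Del o x y j v) (v_nonneg _ _) (CK_pos K n).le
      _ = (n + 1) * CK K n * Del o x y v := by
          rw [Finset.sum_const, Finset.card_univ, Fintype.card_fin, nsmul_eq_mul]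
          push_cast
          ring

variable (K) in
theorem card_GG_le (n H q : ℕ) (o : Fin (n + 1)) {B : ℕ} (hB : 1 ≤ B) :
    ((GG K B H q o).card : ℝ) ≤ CK K n ^ (n + 1) * (B : ℝ) ^ (eK K * (n + 1)) := by
  have h1 : (GG K B H q o).card ≤ (VBox K n B).card := Finset.card_le_card (Finset.filter_subset _ _)
  have hB1 : (1 : ℝ) ≤ B := by exact_mod_cast hB
  calc ((GG K B H q o).card : ℝ) ≤ ((VBox K n B).card : ℝ) := by exact_mod_cast h1
    _ = ((OBox K B).card : ℝ) ^ (n + 1) := by rw [card_VBox]; push_cast; rfl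
    _ ≤ (CK K n * (B : ℝ) ^ eK K) ^ (n + 1) :=
        pow_le_pow_left₀ (Nat.cast_nonneg _) (OBox_up K n hB1) _
    _ = CK K n ^ (n + 1) * (B : ℝ) ^ (eK K * (n + 1)) := by rw [mul_pow, ← pow_mul]

/-- A test point has few proportional test points. -/
theorem card_Prp (hB : 1 ≤ B) {x : Vc n (𝓞 K)} (hx : x ∈ GG K B H q o) :
    (((GG K B H q o).filter fun y => Prp x y).card : ℝ) ≤ CK K n * (q : ℝ) ^ eK K := by
  have hq := GG_q hB hx
  have hq1 : (1 : ℝ) ≤ q := by exact_mod_cast hq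
  have hB0 : (0 : ℝ) < B := by exact_mod_cast hB
  obtain ⟨u, hu⟩ := GG_uni hx
  have hy : ∀ y ∈ (GG K B H q o).filter fun y => Prp x y, ∀ i, y i = lin u y * x i := by
    intro y hy i
    have h1 := (Finset.mem_filter.1 hy).2
    have h2 : y i * lin u x = lin u y * x i := by
      simp only [Pool.Agent.Lib.MP_219881_nt.lin, Finset.mul_sum, Finset.sum_mul]
      refine Finset.sum_congr rfl fun j _ => ?_
      have h3 := h1 i j
      simp only [Pool.Agent.Lib.MP_219881_nt.mn] at h3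
      have h4 : x i * y j = x j * y i := by rwa [sub_eq_zero] at h3
      calc y i * (u j * x j) = u j * (x j * y i) := by ring
        _ = u j * (x i * y j) := by rw [h4]
        _ = u j * y j * x i := by ring
    rw [hu, mul_one] at h2
    exact h2
  have hcard : ((GG K B H q o).filter fun y => Prp x y).card ≤ (OBox K q).card := by
    refine Finset.card_le_card_of_injOn (fun y => lin u y) (fun y hy' => ?_) (fun y hy' z hz' h => ?_)
    · rw [Finset.mem_coe, mem_OBox]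
      intro v
      have h1 := hy y hy' o
      have h2 : v (y o : K) = v ((lin u y : 𝓞 K) : K) * v (x o : K) := by
        rw [← v_mul, ← map_mul, ← h1]
      have h3 := GG_le (Finset.mem_filter.1 hy').1 o v
      have h4 := GG_pivot hx v
      have h5 := GG_vpos hB hx v
      rw [h2] at h3
      by_contra hcon
      push Not at hcon
      have h6 : (q : ℝ) * v (x o : K) < v ((lin u y : 𝓞 K) : K) * v (x o : K) :=
        mul_lt_mul_of_pos_right hcon h5
      linarith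
    · funext i
      rw [hy y hy' i, hy z hz' i]
      exact congrArg (fun t => t * x i) h
  calc (((GG K B H q o).filter fun y => Prp x y).card : ℝ) ≤ ((OBox K q).card : ℝ) := by
        exact_mod_cast hcard
    _ ≤ CK K n * (q : ℝ) ^ eK K := OBox_up K n hq1

end gg

end Pool.Agent.Lib.MP_1ad228_ntN
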