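import Pool.Agent.Lib.MP_1ad228_ntN.B_Dual
import Pool.Agent.Lib.MP_1ad228_ntN.B_PPnK
import Pool.Agent.Lib.MP_1ad228_ntN.B_SzK
import Pool.Agent.Lib.MP_1ad228_ntN.GGf
import Pool.Agent.Lib.MP_1ad228_ntF.B_PPv

/-!
JOB B_ExcK.  The number of exceptional pairs. (Model: Lib/MP_1ad228_ntF/B_Exc.lean; `bP_zero`, `bP_map` = `Pool.Agent.Lib.MP_1ad228_ntF.bP_zero` ...)

`excInj`.  Otherwise `exists_mn` gives `j` with `mn x x' o j ≠ 0`. The vector `u = x j • e_o - x o • e_j` over `K` satisfies `lin u (kv x) = 0`, so by `perp_mem` it is a `K`-combination of the `kv (f s)`, hence `lin u (kv x') = 0`; but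
`lin u (kv x') = x j * x' o - x o * x' j = -mn x x' o j ≠ 0`.
`excPoly`.  `κ = Bool × Fin n × Fin (n+1)`. For `e i j ≠ 0`, take `l, m` from `bP_neK` and `P = bP (fun k j => C (e k j)) i l m (fun k a => X (true, k, a)) (fun k a => X (false, k, a))` in `MvPolynomial κ K`. By `bP_map` for
`MvPolynomial.eval z` its value at `z` is `bP e i l m (fun k a => z (true, k, a)) (fun k a => z (false, k, a))`; at the point of `bP_neK` it is nonzero, so `P ≠ 0`; it vanishes at `z` if `e k j = ∑ a, ∑ b, z (true,k,a) E a b z (false,j,b)` with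
`E` symmetric (`bP_zero`).
`excCount`.  `I` = the finite set of the nonzero `e : Fin n → Fin n → K` with all `trB K T (e k j)` (`trB_finite`, `Set.Finite.pi'` or `Fintype.piFinset` twice), `P e` as in `excPoly`, `C1` from `szUnionK` (`card κ = 2 * n * (n+1)`).
The map `(x, y) ↦ z`, `z (true, k, a) = fb x k a`, `z (false, k, a) = fb y k a` maps exceptional pairs to `{z ∈ piFinset (OBox K H) | ∃ e ∈ I, eval z (P e) = 0}`, and each fibre has at most `(CK K n * q^e)^2` elements: two pairs `(x, y)`, `(x', y')` in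
one fibre have `fb x = fb x'`, `fb y = fb y'`, so `Prp x x'` and `Prp y y'` (`excInj`), `card_Prp`. (`Finset.card_le_mul_card_image` with a natural number `⌈(CK q^e)^2⌉₊`, or `Finset.card_eq_sum_card_image`.)
-/

namespace Pool.Agent.Lib.MP_1ad228_ntN

open NumberField Classical

set_option linter.unusedSectionVars false

variable {K : Type} [Field K] [NumberField K]

private theorem B_ExcK_lin {n : ℕ} (o j : Fin (n + 1)) (a b : K) (z : Vc n (𝓞 K)) :
    lin (fun i => (if i = o then a else 0) - (if i = j then b else 0)) (kv z) =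
      a * (z o : K) - b * (z j : K) := by
  simp only [lin, sub_mul, Finset.sum_sub_distrib, ite_mul, zero_mul,
    Finset.sum_ite_eq', Finset.mem_univ, if_true]
  rw [kv_apply, kv_apply]

omit [NumberField K] in
private theorem B_ExcK_span {n : ℕ} (f : Fin n → Vc n K) (z : Vc n K) (hz : ∀ s, lin (f s) z = 0)
    (u : Vc n K) (hu : u ∈ Submodule.span K (Set.range f)) : lin u z = 0 := by
  induction hu using Submodule.span_induction with
  | mem x hx =>
    obtain ⟨s, rfl⟩ := hx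
    exact hz s
  | zero => simp [lin]
  | add x y _ _ hx hy =>
    have : lin (x + y) z = lin x z + lin y z := by
      simp only [lin, Pi.add_apply, add_mul, Finset.sum_add_distrib]
    rw [this, hx, hy, add_zero]
  | smul c x _ hx =>
    have : lin (c • x) z = c * lin x z := by
      simp only [lin, Pi.smul_apply, smul_eq_mul, Finset.mul_sum, mul_assoc]
    rw [this, hx, mul_zero]

theorem excInj {n : ℕ} (B H q : ℕ) (o : Fin (n + 1)) (hB : 1 ≤ B) (x x' : Vc n (𝓞 K))
    (hx : x ∈ GG K B H q o) (f : Fin n → Vc n (𝓞 K))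
    (hf : LinearIndependent (𝓞 K) f) (h0 : ∀ s, lin (f s) x = 0) (h1 : ∀ s, lin (f s) x' = 0) :
    Prp x x' := by
  by_contra hne
  have hxo : x o ≠ 0 := GG_ne hB hx
  obtain ⟨j, hj⟩ := exists_mn hxo hne
  have hx0 : x ≠ 0 := by
    intro h
    rw [h] at hxo
    exact hxo rfl
  obtain ⟨u, hu⟩ : ∃ u : Vc n K, u = fun i => (if i = o then (x j : K) else 0) -
      (if i = j then (x o : K) else 0) := ⟨_, rfl⟩
  have hux : lin u (kv x) = 0 := by
    rw [hu, B_ExcK_lin]
    ring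
  have h2 := perp_mem x hx0 f hf h0 hux
  have h3 : lin u (kv x') = 0 := by
    refine B_ExcK_span _ _ (fun s => ?_) u h2
    rw [lin_kv, h1 s]
    exact map_zero _
  rw [hu, B_ExcK_lin] at h3
  apply hj
  have h4 : ((x j * x' o - x o * x' j : 𝓞 K) : K) = 0 := by
    push_cast
    exact h3
  have h5 : x j * x' o - x o * x' j = 0 := RingOfIntegers.ext h4
  simp only [mn]
  linear_combination -h5

theorem excPoly {n : ℕ} (hn : 3 ≤ n) (e : Fin n → Fin n → K) (he : ∃ i j, e i j ≠ 0) :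
    ∃ P : MvPolynomial (Bool × Fin n × Fin (n + 1)) K, P ≠ 0 ∧
      ∀ (z : Bool × Fin n × Fin (n + 1) → K) (E : Fin (n + 1) → Fin (n + 1) → K),
        (∀ i j, E i j = E j i) →
        (∀ k j, e k j = ∑ a, ∑ b, z (true, k, a) * E a b * z (false, j, b)) →
        MvPolynomial.eval z P = 0 := by
  obtain ⟨i, j, hij⟩ := he
  obtain ⟨l, m, f, g, hfg⟩ := bP_neK hn e i j hij
  obtain ⟨P, hP⟩ : ∃ P : MvPolynomial (Bool × Fin n × Fin (n + 1)) K,
      P = bP (fun k j => MvPolynomial.C (e k j)) i l m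
        (fun k a => MvPolynomial.X (true, k, a)) (fun k a => MvPolynomial.X (false, k, a)) := ⟨_, rfl⟩
  have heval : ∀ z : Bool × Fin n × Fin (n + 1) → K, MvPolynomial.eval z P =
      bP e i l m (fun k a => z (true, k, a)) (fun k a => z (false, k, a)) := by
    intro z
    have h := Pool.Agent.Lib.MP_1ad228_ntF.bP_map (MvPolynomial.eval z)
      (fun k j => MvPolynomial.C (e k j)) i l m
      (fun k a => MvPolynomial.X (true, k, a)) (fun k a => MvPolynomial.X (false, k, a))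
    simp only [MvPolynomial.eval_C, MvPolynomial.eval_X] at h
    rw [hP, h]
  refine ⟨P, ?_, ?_⟩
  · intro h0
    have h1 := heval fun c => if c.1 then f c.2.1 c.2.2 else g c.2.1 c.2.2
    rw [h0, map_zero] at h1
    apply hfg
    simp only [if_true, Bool.false_eq_true, if_false] at h1
    exact h1.symm
  · intro z E hE he
    rw [heval z]
    exact Pool.Agent.Lib.MP_1ad228_ntF.bP_zero E hE _ _ e he i l m

variable (K) in
theorem excCount (n : ℕ) (hn : 3 ≤ n) (T q : ℕ) (hq : 1 ≤ q) : ∃ C : ℝ, 1 ≤ C ∧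
    ∀ (B H : ℕ) (o : Fin (n + 1)), 1 ≤ B → 1 ≤ H → ∀ fb : Vc n (𝓞 K) → Fin n → Vc n (𝓞 K),
    (∀ x ∈ GG K B H q o, LinearIndependent (𝓞 K) (fb x) ∧ (∀ s, lin (fb x s) x = 0) ∧
      ∀ s i, ∀ v : InfinitePlace K, v (fb x s i : K) ≤ (H : ℝ)) →
    ((((GG K B H q o) ×ˢ (GG K B H q o)).filter fun p => ExcP T (fb p.1) (fb p.2)).card : ℝ) ≤
      C * ((H : ℝ) ^ (2 * n * (n + 1) - 1)) ^ eK K := by
  choose! P hP0 hPz using fun (e : Fin n → Fin n → K) (he : ∃ i j, e i j ≠ 0) => excPoly hn e he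
  obtain ⟨I, hI⟩ : ∃ I : Finset (Fin n → Fin n → K), ∀ e, e ∈ I ↔
      ((∀ i j, trB K T (e i j)) ∧ ∃ i j, e i j ≠ 0) := by
    refine ⟨((Fintype.piFinset fun _ : Fin n => Fintype.piFinset fun _ : Fin n =>
      (trB_finite K T).toFinset).filter fun e => ∃ i j, e i j ≠ 0), fun e => ?_⟩
    rw [Finset.mem_filter, Fintype.mem_piFinset]
    refine and_congr_left fun _ => forall_congr' fun i => ?_
    rw [Fintype.mem_piFinset]
    exact forall_congr' fun j => Set.Finite.mem_toFinset _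
  obtain ⟨C, hC, hcount⟩ := szUnionK K I P fun e he => hP0 e ((hI e).mp he).2
  obtain ⟨D, hD⟩ : ∃ D : ℕ, D = ⌈(CK K n * (q : ℝ) ^ eK K)⌉₊ := ⟨_, rfl⟩
  have hD1 : CK K n * (q : ℝ) ^ eK K ≤ D := by rw [hD]; exact Nat.le_ceil _
  have hq1 : (1 : ℝ) ≤ q := by exact_mod_cast hq
  have hDge : (1 : ℝ) ≤ D := by
    refine le_trans ?_ hD1
    calc (1 : ℝ) = 1 * 1 := (one_mul 1).symm
      _ ≤ CK K n * (q : ℝ) ^ eK K :=
        mul_le_mul (CK_one_le K n) (one_le_pow₀ hq1) zero_le_one (CK_pos K n).le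
  refine ⟨(D : ℝ) ^ 2 * C, ?_, ?_⟩
  · calc (1 : ℝ) = 1 * 1 := (one_mul 1).symm
      _ ≤ (D : ℝ) ^ 2 * C := mul_le_mul (one_le_pow₀ hDge) hC zero_le_one (by positivity)
  intro B H o hB hH fb hfb
  have h1 := hcount H hH
  have hcard : Fintype.card (Bool × Fin n × Fin (n + 1)) = 2 * n * (n + 1) := by
    rw [Fintype.card_prod, Fintype.card_prod, Fintype.card_bool, Fintype.card_fin, Fintype.card_fin,
      mul_assoc]
  rw [hcard] at h1
  obtain ⟨S, hS⟩ : ∃ S : Finset (Vc n (𝓞 K) × Vc n (𝓞 K)),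
      S = ((GG K B H q o) ×ˢ (GG K B H q o)).filter fun p => ExcP T (fb p.1) (fb p.2) := ⟨_, rfl⟩
  obtain ⟨Z, hZ, h1⟩ : ∃ Z : Finset (Bool × Fin n × Fin (n + 1) → 𝓞 K),
      (∀ z, ((∀ c, z c ∈ OBox K H) ∧
        ∃ i ∈ I, MvPolynomial.eval (fun k => (z k : K)) (P i) = 0) → z ∈ Z) ∧
      (Z.card : ℝ) ≤ C * ((H : ℝ) ^ (2 * n * (n + 1) - 1)) ^ eK K :=
    ⟨_, fun z hz => Finset.mem_filter.mpr
      ⟨(@Fintype.mem_piFinset _ (fun _ _ => Classical.propDecidable _) _ _ _ _).mpr hz.1, hz.2⟩, h1⟩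
  obtain ⟨F, hF⟩ : ∃ F : Vc n (𝓞 K) × Vc n (𝓞 K) → (Bool × Fin n × Fin (n + 1) → 𝓞 K),
      F = fun p c => if c.1 then fb p.1 c.2.1 c.2.2 else fb p.2 c.2.1 c.2.2 := ⟨_, rfl⟩
  rw [← hS]
  have hmap : ∀ p ∈ S, F p ∈ Z := by
    intro p hp
    rw [hS] at hp
    obtain ⟨hp1, hp2⟩ := Finset.mem_filter.mp hp
    obtain ⟨hpx, hpy⟩ := Finset.mem_product.mp hp1
    rw [hF]
    refine hZ _ ⟨?_, ?_⟩
    · intro c
      rw [mem_OBox]
      intro v
      by_cases hc : c.1 = true
      · simp only [hc, if_true]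
        exact (hfb p.1 hpx).2.2 _ _ v
      · simp only [hc]
        exact (hfb p.2 hpy).2.2 _ _ v
    · obtain ⟨E, hE, hEb, s, t, hst⟩ := hp2
      refine ⟨fun k j => ∑ a, ∑ b, (fb p.1 k a : K) * E a b * (fb p.2 j b : K), ?_, ?_⟩
      · rw [hI]
        exact ⟨fun k j => hEb k j, s, t, hst⟩
      · exact hPz _ ⟨s, t, hst⟩ _ E hE fun k j => by
          simp only [if_true, Bool.false_eq_true, if_false]
  have hfib : ∀ z ∈ Z, (S.filter fun p => F p = z).card ≤ D ^ 2 := by
    intro z _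
    rcases (S.filter fun p => F p = z).eq_empty_or_nonempty with h0 | ⟨p0, hp0⟩
    · rw [h0, Finset.card_empty]
      exact Nat.zero_le _
    obtain ⟨hp0S, hp0z⟩ := Finset.mem_filter.mp hp0
    rw [hS] at hp0S
    obtain ⟨hx0, hy0⟩ := Finset.mem_product.mp (Finset.mem_filter.mp hp0S).1
    have hsub : (S.filter fun p => F p = z) ⊆
        ((GG K B H q o).filter fun y => Prp p0.1 y) ×ˢ ((GG K B H q o).filter fun y => Prp p0.2 y) := by
      intro p hp
      obtain ⟨hpS, hpz⟩ := Finset.mem_filter.mp hp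
      rw [hS] at hpS
      obtain ⟨hx, hy⟩ := Finset.mem_product.mp (Finset.mem_filter.mp hpS).1
      have hpp : F p0 = F p := by rw [hp0z, hpz]
      rw [hF] at hpp
      have e1 : fb p0.1 = fb p.1 := by
        funext s i
        have := congrFun hpp (true, s, i)
        simpa only [if_true] using this
      have e2 : fb p0.2 = fb p.2 := by
        funext s i
        have := congrFun hpp (false, s, i)
        simpa only [Bool.false_eq_true, if_false] using this
      refine Finset.mem_product.mpr ⟨Finset.mem_filter.mpr ⟨hx, ?_⟩, Finset.mem_filter.mpr ⟨hy, ?_⟩⟩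
      · refine excInj B H q o hB p0.1 p.1 hx0 (fb p0.1) (hfb p0.1 hx0).1 (hfb p0.1 hx0).2.1 ?_
        intro s
        rw [e1]
        exact (hfb p.1 hx).2.1 s
      · refine excInj B H q o hB p0.2 p.2 hy0 (fb p0.2) (hfb p0.2 hy0).1 (hfb p0.2 hy0).2.1 ?_
        intro s
        rw [e2]
        exact (hfb p.2 hy).2.1 s
    have hc : ∀ x ∈ GG K B H q o, ((GG K B H q o).filter fun y => Prp x y).card ≤ D := by
      intro x hx
      have h := (card_Prp hB hx).trans hD1
      exact_mod_cast h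
    calc (S.filter fun p => F p = z).card
        ≤ (((GG K B H q o).filter fun y => Prp p0.1 y) ×ˢ
            ((GG K B H q o).filter fun y => Prp p0.2 y)).card := Finset.card_le_card hsub
      _ = ((GG K B H q o).filter fun y => Prp p0.1 y).card *
            ((GG K B H q o).filter fun y => Prp p0.2 y).card := Finset.card_product _ _
      _ ≤ D * D := Nat.mul_le_mul (hc _ hx0) (hc _ hy0)
      _ = D ^ 2 := (sq D).symm
  have h2 : S.card ≤ D ^ 2 * Z.card :=
    Finset.card_le_mul_card_image_of_maps_to hmap (D ^ 2) hfib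
  have h3 : (S.card : ℝ) ≤ (D : ℝ) ^ 2 * (Z.card : ℝ) := by exact_mod_cast h2
  calc (S.card : ℝ) ≤ (D : ℝ) ^ 2 * (Z.card : ℝ) := h3
    _ ≤ (D : ℝ) ^ 2 * (C * ((H : ℝ) ^ (2 * n * (n + 1) - 1)) ^ eK K) :=
        mul_le_mul_of_nonneg_left h1 (by positivity)
    _ = (D : ℝ) ^ 2 * C * ((H : ℝ) ^ (2 * n * (n + 1) - 1)) ^ eK K := by ring

end Pool.Agent.Lib.MP_1ad228_ntN
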