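import Pool.Agent.Lib.MP_1ad228_ntN.B_WtK
import Pool.Agent.Lib.MP_1ad228_ntN.Expand

/-!
JOB B_Exp.  The variance with the product weight is the sum over pairs of test points. (Copy of Expand.lean with `fw`, `slB`, `TTB`, `TSB`, `UUB`, `EEB`, `QvB` for `psi`, `sl`, `TT`, `TS`, `UU`, `EE`, `Qv`, and with the box of size
`((2 * kn K n ^ 2 : ℕ) : ℝ) * (A : ℝ)` instead of `2 * A`; only nonnegativity is not even needed. `mem_MS` is in Expand.lean.)
-/

namespace Pool.Agent.Lib.MP_1ad228_ntN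

open NumberField Classical

set_option linter.unusedSectionVars false

variable {K : Type} [Field K] [NumberField K]

/-- Indicator of `ev a x = m`. -/
private noncomputable def BExpD {n d : ℕ} (x : Vc n (𝓞 K)) (m : 𝓞 K) (a : Ten n d (𝓞 K)) : ℝ :=
  if ev a x = m then 1 else 0

/-- The local function. -/
private noncomputable def BExpL {n d : ℕ} (o : Fin (n + 1)) (W κ A : ℕ) (x : Vc n (𝓞 K)) (a : Ten n d (𝓞 K)) : ℝ :=
  (1 / ((MS d W κ A o x).card : ℝ)) * ∑ m ∈ MS d W κ A o x, BExpD x m a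

private theorem BExp_mem {n d : ℕ} (o : Fin (n + 1)) (W κ A : ℕ) (hK : 1 ≤ κ) (x : Vc n (𝓞 K)) (a : Ten n d (𝓞 K)) :
    ev a x ∈ MS d W κ A o x ↔ Loc W κ A o a x := mem_MS hK

private theorem BExp_L {n d : ℕ} (o : Fin (n + 1)) (W κ A : ℕ) (hK : 1 ≤ κ) (x : Vc n (𝓞 K)) (a : Ten n d (𝓞 K)) :
    BExpL o W κ A x a = if Loc W κ A o a x then 1 / ((MS d W κ A o x).card : ℝ) else 0 := by
  unfold BExpL BExpD
  rw [Finset.sum_ite_eq]
  by_cases h : Loc W κ A o a x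
  · rw [if_pos ((BExp_mem o W κ A hK x a).mpr h), if_pos h, mul_one]
  · rw [if_neg (fun h' => h ((BExp_mem o W κ A hK x a).mp h')), if_neg h, mul_zero]

private theorem BExp_sl {n : ℕ} (d A : ℕ) (x y : Vc n (𝓞 K)) (m m' : 𝓞 K) :
    slB d A x y m m' = ∑ a ∈ Box K n d (((2 * kn K n ^ 2 : ℕ) : ℝ) * (A : ℝ)), fw A a * (BExpD x m a * BExpD y m' a) := by
  unfold slB BExpD
  rw [Finset.sum_filter]
  refine Finset.sum_congr rfl fun a _ => ?_
  by_cases h1 : ev a x = m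
  · by_cases h2 : ev a y = m'
    · rw [if_pos ⟨h1, h2⟩, if_pos h1, if_pos h2]; ring
    · rw [if_neg (fun h => h2 h.2), if_neg h2]; ring
  · rw [if_neg (fun h => h1 h.1), if_neg h1]; ring

private theorem BExp_TT {n : ℕ} (d : ℕ) (o : Fin (n + 1)) (W κ A : ℕ) (x y : Vc n (𝓞 K)) :
    TTB d o W κ A x y = ∑ a ∈ Box K n d (((2 * kn K n ^ 2 : ℕ) : ℝ) * (A : ℝ)), fw A a * (BExpL o W κ A x a * BExpD y 0 a) := by
  unfold TTB
  simp only [BExp_sl, BExpL]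
  rw [Finset.sum_comm, Finset.mul_sum]
  refine Finset.sum_congr rfl fun a _ => ?_
  rw [← Finset.mul_sum, ← Finset.sum_mul]
  ring

private theorem BExp_TS {n : ℕ} (d : ℕ) (o : Fin (n + 1)) (W κ A : ℕ) (x y : Vc n (𝓞 K)) :
    TSB d o W κ A x y = ∑ a ∈ Box K n d (((2 * kn K n ^ 2 : ℕ) : ℝ) * (A : ℝ)), fw A a * (BExpD x 0 a * BExpL o W κ A y a) := by
  unfold TSB
  simp only [BExp_sl, BExpL]
  rw [Finset.sum_comm, Finset.mul_sum]
  refine Finset.sum_congr rfl fun a _ => ?_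
  rw [← Finset.mul_sum, ← Finset.mul_sum]
  ring

private theorem BExp_UU {n : ℕ} (d : ℕ) (o : Fin (n + 1)) (W κ A : ℕ) (x y : Vc n (𝓞 K)) :
    UUB d o W κ A x y = ∑ a ∈ Box K n d (((2 * kn K n ^ 2 : ℕ) : ℝ) * (A : ℝ)), fw A a * (BExpL o W κ A x a * BExpL o W κ A y a) := by
  unfold UUB
  simp only [BExp_sl, BExpL]
  have h1 : ∑ m ∈ MS d W κ A o x, ∑ m' ∈ MS d W κ A o y, ∑ a ∈ Box K n d (((2 * kn K n ^ 2 : ℕ) : ℝ) * (A : ℝ)),
        fw A a * (BExpD x m a * BExpD y m' a)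
      = ∑ a ∈ Box K n d (((2 * kn K n ^ 2 : ℕ) : ℝ) * (A : ℝ)), fw A a *
        ((∑ m ∈ MS d W κ A o x, BExpD x m a) * ∑ m' ∈ MS d W κ A o y, BExpD y m' a) := by
    calc ∑ m ∈ MS d W κ A o x, ∑ m' ∈ MS d W κ A o y, ∑ a ∈ Box K n d (((2 * kn K n ^ 2 : ℕ) : ℝ) * (A : ℝ)),
          fw A a * (BExpD x m a * BExpD y m' a)
        = ∑ m ∈ MS d W κ A o x, ∑ a ∈ Box K n d (((2 * kn K n ^ 2 : ℕ) : ℝ) * (A : ℝ)), ∑ m' ∈ MS d W κ A o y,
          fw A a * (BExpD x m a * BExpD y m' a) :=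
          Finset.sum_congr rfl fun m _ => Finset.sum_comm
      _ = ∑ a ∈ Box K n d (((2 * kn K n ^ 2 : ℕ) : ℝ) * (A : ℝ)), ∑ m ∈ MS d W κ A o x, ∑ m' ∈ MS d W κ A o y,
          fw A a * (BExpD x m a * BExpD y m' a) := Finset.sum_comm
      _ = _ := by
          refine Finset.sum_congr rfl fun a _ => ?_
          rw [Finset.sum_mul_sum, Finset.mul_sum]
          refine Finset.sum_congr rfl fun m _ => ?_
          rw [Finset.mul_sum]
  rw [h1, Finset.mul_sum]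
  refine Finset.sum_congr rfl fun a _ => ?_
  ring

private theorem BExp_prod {n r : ℕ} (d : Fin r → ℕ) (X : ℝ)
    (p f g u v : (i : Fin r) → Ten n (d i) (𝓞 K) → ℝ) :
    ∑ F ∈ TBox K n d X, (∏ i, p i (F i)) * ((∏ i, f i (F i) - ∏ i, u i (F i)) *
      (∏ i, g i (F i) - ∏ i, v i (F i))) =
    ∏ i, (∑ a ∈ Box K n (d i) X, p i a * (f i a * g i a)) - ∏ i, (∑ a ∈ Box K n (d i) X, p i a * (u i a * g i a))
      - ∏ i, (∑ a ∈ Box K n (d i) X, p i a * (f i a * v i a))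
      + ∏ i, (∑ a ∈ Box K n (d i) X, p i a * (u i a * v i a)) := by
  unfold TBox
  rw [Finset.prod_univ_sum, Finset.prod_univ_sum, Finset.prod_univ_sum, Finset.prod_univ_sum,
    ← Finset.sum_sub_distrib, ← Finset.sum_sub_distrib, ← Finset.sum_add_distrib]
  refine Finset.sum_congr rfl fun F _ => ?_
  simp only [Finset.prod_mul_distrib]
  ring

private theorem BExp_EE {n r : ℕ} (d : Fin r → ℕ) (o : Fin (n + 1)) (W κ A : ℕ) (x y : Vc n (𝓞 K)) :
    EEB d o W κ A x y = ∑ F ∈ TBox K n d (((2 * kn K n ^ 2 : ℕ) : ℝ) * (A : ℝ)), (∏ i, fw A (F i)) *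
      ((∏ i, BExpD x 0 (F i) - ∏ i, BExpL o W κ A x (F i)) *
        (∏ i, BExpD y 0 (F i) - ∏ i, BExpL o W κ A y (F i))) := by
  rw [BExp_prod d (((2 * kn K n ^ 2 : ℕ) : ℝ) * (A : ℝ)) (fun _ a => fw A a) (fun _ a => BExpD x 0 a) (fun _ a => BExpD y 0 a)
    (fun _ a => BExpL o W κ A x a) (fun _ a => BExpL o W κ A y a)]
  unfold EEB
  simp only [BExp_TT, BExp_TS, BExp_UU, BExp_sl]

private theorem BExp_ind {r : ℕ} (P : Fin r → Prop) [DecidablePred P] [Decidable (∀ i, P i)]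
    (c : Fin r → ℝ) :
    (if ∀ i, P i then ∏ i, c i else 0) = ∏ i, (if P i then c i else 0) := by
  by_cases h : ∀ i, P i
  · rw [if_pos h]
    exact Finset.prod_congr rfl fun i _ => (if_pos (h i)).symm
  · rw [if_neg h]
    obtain ⟨i, hi⟩ := not_forall.1 h
    exact (Finset.prod_eq_zero (Finset.mem_univ i) (if_neg hi)).symm

theorem expandB {n r : ℕ} (d : Fin r → ℕ) (B H q : ℕ) (o : Fin (n + 1)) (W κ A : ℕ)
    (hκ : 1 ≤ κ) :
    QvB K d B H q o W κ A = ∑ x ∈ GG K B H q o, ∑ y ∈ GG K B H q o, EEB d o W κ A x y := by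
  have hN : ∀ F : Tup n d (𝓞 K), (Nn B H q o F : ℝ) = ∑ x ∈ GG K B H q o, ∏ i, BExpD x 0 (F i) := by
    intro F
    unfold Nn BExpD
    rw [Finset.card_filter, Nat.cast_sum]
    refine Finset.sum_congr rfl fun x _ => ?_
    rw [← BExp_ind (fun i => ev (F i) x = 0) (fun _ => 1), Finset.prod_const_one]
    by_cases h : ∀ i, ev (F i) x = 0
    · rw [if_pos h, if_pos h, Nat.cast_one]
    · rw [if_neg h, if_neg h, Nat.cast_zero]
  have hL : ∀ F : Tup n d (𝓞 K), Ll B H q o W κ A F = ∑ x ∈ GG K B H q o, ∏ i, BExpL o W κ A x (F i) := by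
    intro F
    unfold Ll
    rw [Finset.sum_filter]
    refine Finset.sum_congr rfl fun x _ => ?_
    simp only [BExp_L o W κ A hκ x]
    rw [← BExp_ind (fun i => Loc W κ A o (F i) x) (fun i => 1 / ((MS (d i) W κ A o x).card : ℝ))]
  have hQ : ∀ F : Tup n d (𝓞 K), (∏ i, fw A (F i)) * ((Nn B H q o F : ℝ) - Ll B H q o W κ A F) ^ 2
      = ∑ x ∈ GG K B H q o, ∑ y ∈ GG K B H q o, (∏ i, fw A (F i)) *
      ((∏ i, BExpD x 0 (F i) - ∏ i, BExpL o W κ A x (F i)) *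
        (∏ i, BExpD y 0 (F i) - ∏ i, BExpL o W κ A y (F i))) := by
    intro F
    rw [hN, hL, ← Finset.sum_sub_distrib, sq, Finset.sum_mul_sum, Finset.mul_sum]
    refine Finset.sum_congr rfl fun x _ => ?_
    rw [Finset.mul_sum]
  unfold QvB
  rw [Finset.sum_congr rfl fun F _ => hQ F, Finset.sum_comm]
  refine Finset.sum_congr rfl fun x _ => ?_
  rw [Finset.sum_comm]
  refine Finset.sum_congr rfl fun y _ => ?_
  exact (BExp_EE d o W κ A x y).symm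

end Pool.Agent.Lib.MP_1ad228_ntN
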