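import Pool.Agent.Lib.MP_1ad228_ntN.B_Def

/-!
JOB B_FourA.  Finite Fourier expansion of the slices of a cube, nonnegative coefficients. (Pure finite Fourier analysis over the integers; model with two coordinates: Lib/MP_1ad228_ntF/B_Four.lean.)

PROOF.  `N0` = a natural number with `|∑ i, M k i * a i| ≤ N0` for all `k` and all `a` of the cube (finitely many; e.g. `∑ k, ∑ i, |M k i| * 2N`).  `Q = 2 (Mx + N0) + 1`, `e(t) = exp (2 π i t / Q)`.  For an integer `u`, `|u| < Q`: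
`∑_{j : Fin Q} e(j u) = Q` if `u = 0` and `0` otherwise (geometric sum).  So for `m` with `|m k| ≤ Mx` and `a` in the cube
`[∀ k, (M a) k = m k] = ∏ k, (1/Q) ∑_{j : Fin Q} e(j ((M a) k - m k)) = Q^(-card κ) ∑_{l : κ → Fin Q} e(∑ k, l k * ((M a) k - m k))` (`Finset.prod_univ_sum`, `Fintype.piFinset_univ`).  With `θ_i = aTh M l i = (∑ k, l k * M k i)/Q`:
`∑_{a in the cube} ∏ i, w1 N (a i) * e(∑ k, l k * (M a) k) = ∏ i, ∑_{z ∈ Icc (-2N) (2N)} w1 N z * exp (2 π i θ_i z)` (`Finset.prod_univ_sum`), and by `Pool.Agent.Lib.MP_1ad228_ntF.fej` this is a nonnegative real number `c l`.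
`ν l = c l / Q^(card κ)`; `aS N M m = ∑ l, ν l * e(- ∑ k, l k * m k)`; take real parts.
-/

namespace Pool.Agent.Lib.MP_1ad228_ntN

open NumberField Classical

set_option linter.unusedSectionVars false

variable {K : Type} [Field K] [NumberField K]

/-- The character. -/
private noncomputable def B_FourA_ex (Q : ℕ) (u : ℤ) : ℂ :=
  Complex.exp (2 * Real.pi * Complex.I * ((u : ℂ) / (Q : ℂ)))

private theorem B_FourA_ex_add (Q : ℕ) (u v : ℤ) :
    B_FourA_ex Q (u + v) = B_FourA_ex Q u * B_FourA_ex Q v := by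
  unfold B_FourA_ex
  rw [← Complex.exp_add]
  congr 1
  push_cast
  ring

private theorem B_FourA_ex_nat (Q i : ℕ) (u : ℤ) :
    B_FourA_ex Q ((i : ℤ) * u) = B_FourA_ex Q u ^ i := by
  unfold B_FourA_ex
  rw [← Complex.exp_nat_mul]
  congr 1
  push_cast
  ring

private theorem B_FourA_ex_zero (Q : ℕ) : B_FourA_ex Q 0 = 1 := by
  simp [B_FourA_ex]

private theorem B_FourA_ex_sum (Q : ℕ) {κ : Type} [Fintype κ] (f : κ → ℤ) :
    B_FourA_ex Q (∑ k, f k) = ∏ k, B_FourA_ex Q (f k) := by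
  unfold B_FourA_ex
  rw [← Complex.exp_sum]
  congr 1
  push_cast
  rw [Finset.sum_div, Finset.mul_sum]

private theorem B_FourA_ex_re (Q : ℕ) (u : ℤ) :
    (B_FourA_ex Q u).re = Real.cos (2 * Real.pi * ((u : ℝ) / Q)) := by
  unfold B_FourA_ex
  have h1 : (2 * Real.pi * Complex.I * ((u : ℂ) / (Q : ℂ)) : ℂ) =
      ((2 * Real.pi * ((u : ℝ) / Q) : ℝ) : ℂ) * Complex.I := by
    push_cast
    ring
  rw [h1, Complex.exp_ofReal_mul_I_re]

private theorem B_FourA_orth {Q : ℕ} (u : ℤ) (hu : |u| < (Q : ℤ)) :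
    ∑ i : Fin Q, B_FourA_ex Q (((i : ℕ) : ℤ) * u) = if u = 0 then (Q : ℂ) else 0 := by
  have hQ0 : 0 < (Q : ℤ) := lt_of_le_of_lt (abs_nonneg u) hu
  have hQ1 : Q ≠ 0 := by
    intro h
    rw [h] at hQ0
    exact absurd hQ0 (by norm_num)
  have hQ : (Q : ℂ) ≠ 0 := Nat.cast_ne_zero.2 hQ1
  rw [Fin.sum_univ_eq_sum_range (fun i => B_FourA_ex Q ((i : ℤ) * u)) Q]
  simp only [B_FourA_ex_nat]
  split_ifs with h
  · rw [h, B_FourA_ex_zero]
    simp
  · have hne : B_FourA_ex Q u ≠ 1 := by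
      intro h1
      rw [B_FourA_ex, Complex.exp_eq_one_iff] at h1
      obtain ⟨n, hn⟩ := h1
      have h2 : (u : ℂ) = n * Q := by
        have hpi : (2 * Real.pi * Complex.I : ℂ) ≠ 0 := Complex.two_pi_I_ne_zero
        have h3 : (2 * Real.pi * Complex.I : ℂ) * ((u : ℂ) / (Q : ℂ)) =
            (2 * Real.pi * Complex.I : ℂ) * n := by
          rw [hn]
          ring
        have h4 := mul_left_cancel₀ hpi h3
        rw [div_eq_iff hQ] at h4
        exact h4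
      have h5 : u = n * (Q : ℤ) := by exact_mod_cast h2
      have h6 : n ≠ 0 := by
        rintro rfl
        rw [zero_mul] at h5
        exact h h5
      rw [h5, abs_mul, abs_of_pos hQ0] at hu
      have h7 : 1 ≤ |n| := Int.one_le_abs h6
      nlinarith
    have hpow : B_FourA_ex Q u ^ Q = 1 := by
      rw [← B_FourA_ex_nat, B_FourA_ex, Complex.exp_eq_one_iff]
      refine ⟨u, ?_⟩
      push_cast
      field_simp
    rw [geom_sum_eq hne, hpow, sub_self, zero_div]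

/-- The transform of the weight is nonnegative. -/
private theorem B_FourA_c {ι κ : Type} [Fintype ι] [Fintype κ] (N : ℕ) (hN : 1 ≤ N) (M : κ → ι → ℤ)
    (Q : ℕ) (l : κ → Fin Q) :
    ∃ c : ℝ, 0 ≤ c ∧ ∑ a ∈ (Fintype.piFinset fun _ : ι =>
      Finset.Icc (-((2 * N : ℕ) : ℤ)) ((2 * N : ℕ) : ℤ)), ((∏ i, w1 N (a i) : ℝ) : ℂ) *
      B_FourA_ex Q (∑ k, ((l k : ℕ) : ℤ) * ∑ i, M k i * a i) = (c : ℂ) := by
  have h1 : ∀ i : ι, ∃ c : ℝ, 0 ≤ c ∧
      ∑ z ∈ Finset.Icc (-((2 * N : ℕ) : ℤ)) ((2 * N : ℕ) : ℤ),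
      ((w1 N z : ℝ) : ℂ) * Complex.exp (2 * Real.pi * Complex.I * (aTh M l i : ℝ) * z) = (c : ℂ) :=
    fun i => Pool.Agent.Lib.MP_1ad228_ntF.fej N hN _
  choose c hc0 hc using h1
  refine ⟨∏ i, c i, Finset.prod_nonneg fun s _ => hc0 s, ?_⟩
  rw [Complex.ofReal_prod, ← Finset.prod_congr rfl fun s _ => hc s, Finset.prod_univ_sum]
  refine Finset.sum_congr rfl fun a _ => ?_
  rw [Finset.prod_mul_distrib, ← Complex.exp_sum]
  unfold B_FourA_ex
  rw [Complex.ofReal_prod]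
  congr 2
  have h2 : ((((∑ k, ((l k : ℕ) : ℤ) * ∑ i, M k i * a i : ℤ)) : ℂ)) =
      ∑ i, (∑ k, ((l k : ℕ) : ℂ) * ((M k i : ℤ) : ℂ)) * ((a i : ℤ) : ℂ) := by
    push_cast
    simp only [Finset.mul_sum, Finset.sum_mul]
    rw [Finset.sum_comm]
    refine Finset.sum_congr rfl fun i _ => Finset.sum_congr rfl fun k _ => ?_
    ring
  rw [h2, Finset.sum_div, Finset.mul_sum]
  refine Finset.sum_congr rfl fun i _ => ?_
  unfold aTh
  push_cast
  ring

theorem fourA {ι κ : Type} [Fintype ι] [Fintype κ] (N : ℕ) (hN : 1 ≤ N) (M : κ → ι → ℤ)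
    (Mx : ℕ) :
    ∃ (Q : ℕ) (ν : (κ → Fin Q) → ℝ), 1 ≤ Q ∧ (∀ l, 0 ≤ ν l) ∧
      ∀ m : κ → ℤ, (∀ k, |m k| ≤ (Mx : ℤ)) →
        aS N M m = ∑ l : κ → Fin Q, ν l *
          Real.cos (2 * Real.pi * ((∑ k, ((l k : ℕ) : ℝ) * (m k : ℝ)) / Q)) := by
  obtain ⟨N0, hN0⟩ : ∃ N0 : ℕ, ∀ a ∈ (Fintype.piFinset fun _ : ι =>
      Finset.Icc (-((2 * N : ℕ) : ℤ)) ((2 * N : ℕ) : ℤ)), ∀ k, |∑ i, M k i * a i| ≤ (N0 : ℤ) := by
    refine ⟨∑ a ∈ (Fintype.piFinset fun _ : ι =>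
      Finset.Icc (-((2 * N : ℕ) : ℤ)) ((2 * N : ℕ) : ℤ)), ∑ k, (∑ i, M k i * a i).natAbs, fun a ha k => ?_⟩
    have h1 := Finset.single_le_sum (f := fun a : ι → ℤ => ∑ k, (∑ i, M k i * a i).natAbs)
      (fun _ _ => Nat.zero_le _) ha
    have h2 := Finset.single_le_sum (f := fun k : κ => (∑ i, M k i * a i).natAbs)
      (fun _ _ => Nat.zero_le _) (Finset.mem_univ k)
    rw [Int.abs_eq_natAbs]
    exact_mod_cast h2.trans h1
  obtain ⟨Q, hQ⟩ : ∃ Q : ℕ, Q = Mx + N0 + 1 := ⟨_, rfl⟩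
  have hQ1 : 1 ≤ Q := by omega
  have hQ0 : (Q : ℂ) ≠ 0 := Nat.cast_ne_zero.2 (by omega)
  choose c hc0 hc using fun (l : κ → Fin Q) => B_FourA_c N hN M Q l
  refine ⟨Q, fun l => c l / Q ^ Fintype.card κ, hQ1, fun l => by
    have := hc0 l
    positivity, ?_⟩
  intro m hm
  have hind : ∀ (v u : ℤ), |v| ≤ (N0 : ℤ) → |u| ≤ (Mx : ℤ) →
      (∑ i : Fin Q, B_FourA_ex Q (((i : ℕ) : ℤ) * (v - u))) = if v = u then (Q : ℂ) else 0 := by
    intro v u hv hu
    have h1 : |v - u| < (Q : ℤ) := by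
      have h2 : |v - u| ≤ |v| + |u| := abs_sub _ _
      rw [hQ]
      push_cast
      linarith
    rw [B_FourA_orth _ h1]
    by_cases h : v = u
    · rw [if_pos h, if_pos (sub_eq_zero.2 h)]
    · rw [if_neg h, if_neg (sub_ne_zero.2 h)]
  have hC : ((aS N M m : ℝ) : ℂ) = ∑ l : κ → Fin Q,
      ((c l / Q ^ Fintype.card κ : ℝ) : ℂ) * B_FourA_ex Q (-(∑ k, ((l k : ℕ) : ℤ) * m k)) := by
    have h1 : ((aS N M m : ℝ) : ℂ) = ∑ a ∈ (Fintype.piFinset fun _ : ι =>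
        Finset.Icc (-((2 * N : ℕ) : ℤ)) ((2 * N : ℕ) : ℤ)), ((∏ i, w1 N (a i) : ℝ) : ℂ) *
        (∏ k, ∑ j : Fin Q, B_FourA_ex Q (((j : ℕ) : ℤ) * (∑ i, M k i * a i - m k))) /
          Q ^ Fintype.card κ := by
      unfold aS
      rw [Complex.ofReal_sum, Finset.sum_filter]
      refine Finset.sum_congr rfl fun a ha => ?_
      have h2 : ∀ k, ∑ j : Fin Q, B_FourA_ex Q (((j : ℕ) : ℤ) * (∑ i, M k i * a i - m k)) =
          if ∑ i, M k i * a i = m k then (Q : ℂ) else 0 := fun k => hind _ _ (hN0 a ha k) (hm k)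
      rw [Finset.prod_congr rfl fun k _ => h2 k]
      by_cases h3 : ∀ k, ∑ i, M k i * a i = m k
      · rw [if_pos h3, Finset.prod_congr rfl fun k _ => if_pos (h3 k), Finset.prod_const,
          Finset.card_univ]
        field_simp
      · rw [if_neg h3]
        obtain ⟨k, hk⟩ := not_forall.1 h3
        rw [Finset.prod_eq_zero (Finset.mem_univ k) (if_neg hk), mul_zero, zero_div]
    have h4 : ∀ l : κ → Fin Q, ((c l / Q ^ Fintype.card κ : ℝ) : ℂ) *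
        B_FourA_ex Q (-(∑ k, ((l k : ℕ) : ℤ) * m k)) =
        ∑ a ∈ (Fintype.piFinset fun _ : ι =>
          Finset.Icc (-((2 * N : ℕ) : ℤ)) ((2 * N : ℕ) : ℤ)), ((∏ i, w1 N (a i) : ℝ) : ℂ) *
          (∏ k, B_FourA_ex Q (((l k : ℕ) : ℤ) * (∑ i, M k i * a i - m k))) /
            Q ^ Fintype.card κ := by
      intro l
      rw [Complex.ofReal_div, ← hc l, Finset.sum_div, Finset.sum_mul]
      refine Finset.sum_congr rfl fun a _ => ?_
      rw [← B_FourA_ex_sum]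
      have h5 : (∑ k, ((l k : ℕ) : ℤ) * (∑ i, M k i * a i - m k)) =
          (∑ k, ((l k : ℕ) : ℤ) * ∑ i, M k i * a i) + (-(∑ k, ((l k : ℕ) : ℤ) * m k)) := by
        simp only [mul_sub]
        rw [Finset.sum_sub_distrib, sub_eq_add_neg]
      rw [h5, B_FourA_ex_add Q (∑ k, ((l k : ℕ) : ℤ) * ∑ i, M k i * a i)]
      push_cast
      ring
    rw [h1]
    simp only [h4]
    have h6 : ∀ a : ι → ℤ, ((∏ i, w1 N (a i) : ℝ) : ℂ) *
        (∏ k, ∑ j : Fin Q, B_FourA_ex Q (((j : ℕ) : ℤ) * (∑ i, M k i * a i - m k))) /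
          Q ^ Fintype.card κ =
        ∑ l : κ → Fin Q, ((∏ i, w1 N (a i) : ℝ) : ℂ) *
          (∏ k, B_FourA_ex Q (((l k : ℕ) : ℤ) * (∑ i, M k i * a i - m k))) /
            Q ^ Fintype.card κ := by
      intro a
      rw [Finset.prod_univ_sum, Fintype.piFinset_univ, Finset.mul_sum, Finset.sum_div]
    rw [Finset.sum_congr rfl fun a _ => h6 a, Finset.sum_comm]
  have hR := congrArg Complex.re hC
  rw [Complex.ofReal_re, Complex.re_sum] at hR
  rw [hR]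
  refine Finset.sum_congr rfl fun l _ => ?_
  rw [Complex.re_ofReal_mul, B_FourA_ex_re]
  congr 1
  rw [← Real.cos_neg]
  congr 1
  push_cast
  ring

end Pool.Agent.Lib.MP_1ad228_ntN
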