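import Pool.Agent.Lib.MP_1ad228_ntN.LL
import Pool.Agent.Lib.MP_1ad228_ntN.GGf

/-!
JOB Pre.  Short tensors with given values at test points, explicit bounds.
(Model with proof: Lib/MP_1ad228_ntF/Pre.lean.)  GGf: `GG_le`, `GG_pivot`, `GG_inv`, `GG_ne`, `exists_mn`, `exists_bal`.

PROOF.  `balForms`: let `c` be as in `exists_bal` and `δ = ∑ j, c j * mn x y o j ≠ 0`. Take
`p = ∑ j, c j • (y_j e_o - y_o e_j) / δ`, `r = ∑ j, c j • (x_o e_j - x_j e_o) / δ` (vectors over `K`,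
`e_i = Pi.single i 1`). `lin p x = ∑ c_j (y_j x_o - y_o x_j)/δ = 1`, `lin p y = 0`, `lin r x = 0`, `lin r y = 1`.
Entries: each is `∑_j c_j (...)/δ` with at most ... : `v (p i) ≤ 2 (n+1) CK B / v δ ≤ 2 (n+1) CK^2 B / Del_v`
(crude: `v (c j) ≤ CK`, `v (y_j) ≤ B`, two terms for each `j`; `Del_v ≤ CK * v δ`).
`pre1`: `LL1`, `b = (ev a x / x_o^d) • tp (fun _ => e_o)`: `ev b x = ev a x`, entries at most
`v (ev a x) / v(x_o)^d ≤ v (ev a x) (q/B)^d` (`GG_inv`).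
`pre2` (`d ≥ 2`): `m = ev a x`, `m' = ev a y`, `s = m - m' x_o^d / y_o^d`,
`b = (m'/y_o^d) • tp (fun _ => e_o) + (s/x_o^(d-1)) • tp (fun k => if k = 0 then p else e_o)`.
`ev b y = m'`, `ev b x = m' x_o^d/y_o^d + s = m` (`ev_tp`; write `d = e + 1`, `Fin.prod_univ_succ`).
Entries at most `v(m') (q/B)^d + v(s) (q/B)^(d-1) * 2(n+1) CK^2 B/Del_v`. Then `LL2` with this function `β` of `v`.
-/

namespace Pool.Agent.Lib.MP_1ad228_ntN

open NumberField Classical
open Pool.Agent.Lib.MP_219881_nt (mn)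

set_option linter.unusedSectionVars false

variable {K : Type} [Field K] [NumberField K]

private theorem Pre_single {n d : ℕ} (o : Fin (n + 1)) (c : K) (x : Vc n K) :
    ev (c • tp (fun _ : Fin d => (Pi.single o 1 : Vc n K))) x = c * x o ^ d := by
  rw [ev_smul', ev_tp]
  simp only [lin_single, Finset.prod_const, Finset.card_univ, Fintype.card_fin]

private theorem Pre_sg {n : ℕ} (v : InfinitePlace K) (o i : Fin (n + 1)) :
    v ((Pi.single o 1 : Vc n K) i) ≤ 1 := by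
  by_cases h : i = o
  · subst h
    rw [Pi.single_eq_same, v_one]
  · rw [Pi.single_eq_of_ne h, v_zero]
    exact zero_le_one

private theorem Pre_single_le {n d : ℕ} (v : InfinitePlace K) (o : Fin (n + 1)) (c : K) (β : ℝ) (hc : v c ≤ β)
    (s : Fin d → Fin (n + 1)) :
    v ((c • tp (fun _ : Fin d => (Pi.single o 1 : Vc n K))) s) ≤ β := by
  have hβ : 0 ≤ β := (v_nonneg v c).trans hc
  show v (c * ∏ k, (Pi.single o 1 : Vc n K) (s k)) ≤ β
  have h2 : v (∏ k, (Pi.single o 1 : Vc n K) (s k)) ≤ 1 := by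
    rw [v_prod]
    exact Finset.prod_le_one (fun k _ => v_nonneg v _) fun k _ => Pre_sg v o (s k)
  rw [v_mul]
  calc v c * _ ≤ β * 1 := mul_le_mul hc h2 (v_nonneg v _) hβ
    _ = β := mul_one β

private theorem Pre_inv2 {n B H q : ℕ} {o : Fin (n + 1)} (hB : 1 ≤ B) {x : Vc n (𝓞 K)}
    (hx : x ∈ GG K B H q o) (v : InfinitePlace K) (d : ℕ) (m : K) :
    v (m / (x o : K) ^ d) ≤ v m * ((q : ℝ) ^ d / (B : ℝ) ^ d) := by
  have h0 := GG_vpos hB hx v
  have h1 := GG_inv hB hx v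
  have hB0 : (0 : ℝ) < B := by exact_mod_cast hB
  have h2 : v (m / (x o : K) ^ d) = v m * (1 / v (x o : K)) ^ d := by
    rw [v_div, v_pow, div_pow, one_pow]
    ring
  have hm := v_nonneg v m
  rw [h2]
  calc v m * (1 / v (x o : K)) ^ d ≤ v m * ((q : ℝ) / (B : ℝ)) ^ d := by
        gcongr
    _ = v m * ((q : ℝ) ^ d / (B : ℝ) ^ d) := by
        rw [div_pow]

/-- the linear form of the balanced combination -/
private noncomputable def Pre_F {n : ℕ} (o : Fin (n + 1)) (c : Fin (n + 1) → ℕ) (δ : K) (z : Vc n K) : Vc n K :=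
  fun i => (∑ j, (c j : K) * (z j * (Pi.single o 1 : Vc n K) i - z o * (Pi.single j 1 : Vc n K) i)) / δ

private theorem Pre_F_lin {n : ℕ} (o : Fin (n + 1)) (c : Fin (n + 1) → ℕ) (δ : K) (z w : Vc n K) :
    lin (Pre_F o c δ z) w = (∑ j, (c j : K) * (z j * w o - z o * w j)) / δ := by
  have h1 : ∀ i, Pre_F o c δ z i * w i =
      (∑ j, (c j : K) * (z j * ((Pi.single o 1 : Vc n K) i * w i) - z o * ((Pi.single j 1 : Vc n K) i * w i))) / δ := by
    intro i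
    unfold Pre_F
    rw [div_mul_eq_mul_div, Finset.sum_mul]
    congr 1
    exact Finset.sum_congr rfl fun j _ => by ring
  have h2 : ∀ j : Fin (n + 1), ∑ i, ((Pi.single j 1 : Vc n K) i * w i) = w j := fun j => lin_single j w
  show ∑ i, Pre_F o c δ z i * w i = _
  rw [Finset.sum_congr rfl fun i _ => h1 i, ← Finset.sum_div, Finset.sum_comm]
  congr 1
  refine Finset.sum_congr rfl fun j _ => ?_
  rw [← Finset.mul_sum, Finset.sum_sub_distrib, ← Finset.mul_sum, ← Finset.mul_sum, h2, h2]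

private theorem Pre_F_le {n B H q : ℕ} {o : Fin (n + 1)} {z : Vc n (𝓞 K)} (hz : z ∈ GG K B H q o)
    (c : Fin (n + 1) → ℕ) (hc : ∀ j, (c j : ℝ) ≤ CK K n) (δ : K) (D : ℝ) (v : InfinitePlace K) (hD : 0 < D)
    (hδ : D ≤ CK K n * v δ) (i : Fin (n + 1)) :
    v (Pre_F o c δ (kv z) i) ≤ 2 * (n + 1) * CK K n ^ 2 * B / D := by
  have hC := CK_pos K n
  have hB0 : (0 : ℝ) ≤ B := Nat.cast_nonneg _
  have hv : 0 < v δ := by
    by_contra h
    have h1 : v δ = 0 := le_antisymm (not_lt.1 h) (v_nonneg v δ)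
    rw [h1, mul_zero] at hδ
    linarith
  have h1 : v (∑ j, (c j : K) * ((kv z) j * (Pi.single o 1 : Vc n K) i - (kv z) o * (Pi.single j 1 : Vc n K) i)) ≤
      2 * (n + 1) * CK K n * B := by
    refine (v_sum_le v _ _).trans ?_
    calc _ ≤ ∑ _j : Fin (n + 1), CK K n * (2 * B) := by
          refine Finset.sum_le_sum fun j _ => ?_
          rw [v_mul, v_natCast]
          refine mul_le_mul (hc j) ?_ (v_nonneg _ _) hC.le
          refine (v_sub_le v _ _).trans ?_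
          rw [v_mul, v_mul]
          have h2 := mul_le_mul (GG_le hz j v) (Pre_sg v o i) (v_nonneg v _) hB0
          have h3 := mul_le_mul (GG_le hz o v) (Pre_sg v j i) (v_nonneg v _) hB0
          rw [kv_apply, kv_apply]
          linarith
      _ = 2 * (n + 1) * CK K n * B := by
          rw [Finset.sum_const, Finset.card_univ, Fintype.card_fin, nsmul_eq_mul]
          push_cast
          ring
  show v (_ / δ) ≤ _
  rw [v_div, div_le_div_iff₀ hv hD]
  calc _ ≤ (2 * (n + 1) * CK K n * B) * (CK K n * v δ) :=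
        mul_le_mul h1 hδ hD.le (by positivity)
    _ = 2 * (n + 1) * CK K n ^ 2 * B * v δ := by ring


theorem balForms {n B H q : ℕ} {o : Fin (n + 1)} (hB : 1 ≤ B) {x y : Vc n (𝓞 K)}
    (hx : x ∈ GG K B H q o) (hy : y ∈ GG K B H q o) (hxy : ¬ Prp x y) :
    ∃ p r : Vc n K, lin p (kv x) = 1 ∧ lin p (kv y) = 0 ∧ lin r (kv x) = 0 ∧ lin r (kv y) = 1 ∧
      ∀ i, ∀ v : InfinitePlace K,
        v (p i) ≤ 2 * (n + 1) * CK K n ^ 2 * B / Del o x y v ∧
        v (r i) ≤ 2 * (n + 1) * CK K n ^ 2 * B / Del o x y v := by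
  have hxo := GG_ne hB hx
  obtain ⟨c, hc, hne, hcD⟩ := exists_bal hxo hxy
  obtain ⟨δ, hδ⟩ : ∃ δ : K, δ = ((∑ j, (c j : 𝓞 K) * mn x y o j : 𝓞 K) : K) := ⟨_, rfl⟩
  have hδ0 : δ ≠ 0 := by
    rw [hδ]
    intro h
    exact hne ((map_eq_zero_iff (algebraMap (𝓞 K) K) (FaithfulSMul.algebraMap_injective (𝓞 K) K)).1 h)
  have hδe : δ = ∑ j, (c j : K) * ((x o : K) * (y j : K) - (x j : K) * (y o : K)) := by
    rw [hδ]
    simp [Pool.Agent.Lib.MP_219881_nt.mn]
  refine ⟨Pre_F o c δ (kv y), -Pre_F o c δ (kv x), ?_, ?_, ?_, ?_, fun i v => ⟨?_, ?_⟩⟩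
  · rw [Pre_F_lin]
    have h1 : ∑ j, (c j : K) * ((kv y) j * (kv x) o - (kv y) o * (kv x) j) = δ := by
      rw [hδe]
      refine Finset.sum_congr rfl fun j _ => ?_
      simp only [kv_apply]
      ring
    rw [h1, div_self hδ0]
  · rw [Pre_F_lin]
    have h1 : ∑ j, (c j : K) * ((kv y) j * (kv y) o - (kv y) o * (kv y) j) = 0 :=
      Finset.sum_eq_zero fun j _ => by ring
    rw [h1, zero_div]
  · have h0 : lin (-Pre_F o c δ (kv x)) (kv x) = -lin (Pre_F o c δ (kv x)) (kv x) := by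
      simp [Pool.Agent.Lib.MP_219881_nt.lin]
    rw [h0, Pre_F_lin]
    have h1 : ∑ j, (c j : K) * ((kv x) j * (kv x) o - (kv x) o * (kv x) j) = 0 :=
      Finset.sum_eq_zero fun j _ => by ring
    rw [h1, zero_div, neg_zero]
  · have h0 : lin (-Pre_F o c δ (kv x)) (kv y) = -lin (Pre_F o c δ (kv x)) (kv y) := by
      simp [Pool.Agent.Lib.MP_219881_nt.lin]
    rw [h0, Pre_F_lin]
    have h1 : ∑ j, (c j : K) * ((kv x) j * (kv y) o - (kv x) o * (kv y) j) = -δ := by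
      rw [hδe, ← Finset.sum_neg_distrib]
      refine Finset.sum_congr rfl fun j _ => ?_
      simp only [kv_apply]
      ring
    rw [h1, neg_div, neg_neg, div_self hδ0]
  · exact Pre_F_le hy c hc δ _ v (Del_pos hxo hxy v) (by rw [hδ]; exact (hcD v).1) i
  · rw [Pi.neg_apply, v_neg]
    exact Pre_F_le hx c hc δ _ v (Del_pos hxo hxy v) (by rw [hδ]; exact (hcD v).1) i

theorem pre1 {n d : ℕ} (B H q : ℕ) (o : Fin (n + 1)) (hB : 1 ≤ B) (x : Vc n (𝓞 K))
    (hx : x ∈ GG K B H q o) (a : Ten n d (𝓞 K)) :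
    ∃ a' : Ten n d (𝓞 K), ev a' x = ev a x ∧ ∀ s, ∀ v : InfinitePlace K,
      v (a' s : K) ≤ v ((ev a x : 𝓞 K) : K) * ((q : ℝ) ^ d / (B : ℝ) ^ d)
        + (d * n * (n + 1) ^ d : ℝ) * (CK K n * H) := by
  have hx0 : (x o : K) ≠ 0 := by
    have := GG_ne hB hx
    simpa using this
  obtain ⟨c, hc⟩ : ∃ c : K, c = ((ev a x : 𝓞 K) : K) / (x o : K) ^ d := ⟨_, rfl⟩
  have hcb : ∀ v : InfinitePlace K, v c ≤ v ((ev a x : 𝓞 K) : K) * ((q : ℝ) ^ d / (B : ℝ) ^ d) := by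
    intro v
    rw [hc]
    exact Pre_inv2 hB hx v d _
  exact LL1 H o x (GG_ne hB hx) (GG_good hx) a
    (c • tp (fun _ : Fin d => (Pi.single o 1 : Vc n K)))
    (fun v => v ((ev a x : 𝓞 K) : K) * ((q : ℝ) ^ d / (B : ℝ) ^ d))
    (fun s v => Pre_single_le v o c _ (hcb v) s)
    (by
      rw [Pre_single, hc, kv_apply]
      field_simp)

theorem pre2 {n d : ℕ} (hd : 2 ≤ d) (B H q : ℕ) (o : Fin (n + 1)) (hB : 1 ≤ B)
    (x y : Vc n (𝓞 K)) (hx : x ∈ GG K B H q o) (hy : y ∈ GG K B H q o) (hxy : ¬ Prp x y)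
    (a : Ten n d (𝓞 K)) :
    ∃ a' : Ten n d (𝓞 K), ev a' x = ev a x ∧ ev a' y = ev a y ∧ ∀ s, ∀ v : InfinitePlace K,
      v (a' s : K) ≤ v ((ev a y : 𝓞 K) : K) * ((q : ℝ) ^ d / (B : ℝ) ^ d)
        + v (((ev a x : 𝓞 K) : K) - ((ev a y : 𝓞 K) : K) * (x o : K) ^ d / (y o : K) ^ d) *
            (((q : ℝ) / B) ^ (d - 1) * (2 * (n + 1) * CK K n ^ 2 * B / Del o x y v))
        + (cc n d : ℝ) * (CK K n * (H : ℝ) ^ 2) := by
  obtain ⟨f, rfl⟩ : ∃ f, d = f + 1 := ⟨d - 1, by omega⟩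
  rw [Nat.add_sub_cancel]
  have hx0 : (x o : K) ≠ 0 := by
    have := GG_ne hB hx
    simpa using this
  have hy0 : (y o : K) ≠ 0 := by
    have := GG_ne hB hy
    simpa using this
  have hxo := GG_ne hB hx
  have hDp := Del_pos hxo hxy
  have hB0 : (0 : ℝ) < B := by exact_mod_cast hB
  have hCK := CK_pos K n
  obtain ⟨p, r, hpx, hpy, -, -, hpb⟩ := balForms hB hx hy hxy
  obtain ⟨m, hm⟩ : ∃ m : K, m = ((ev a x : 𝓞 K) : K) := ⟨_, rfl⟩
  obtain ⟨m', hm'⟩ : ∃ m' : K, m' = ((ev a y : 𝓞 K) : K) := ⟨_, rfl⟩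
  obtain ⟨s, hs⟩ : ∃ s : K, s = m - m' * (x o : K) ^ (f + 1) / (y o : K) ^ (f + 1) := ⟨_, rfl⟩
  obtain ⟨c, hc⟩ : ∃ c : K, c = m' / (y o : K) ^ (f + 1) := ⟨_, rfl⟩
  obtain ⟨e, he⟩ : ∃ e : K, e = s / (x o : K) ^ f := ⟨_, rfl⟩
  have hcb : ∀ v : InfinitePlace K, v c ≤ v m' * ((q : ℝ) ^ (f + 1) / (B : ℝ) ^ (f + 1)) := by
    intro v
    rw [hc]
    exact Pre_inv2 hB hy v _ _
  have heb : ∀ v : InfinitePlace K, v e ≤ v s * ((q : ℝ) / B) ^ f := by
    intro v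
    rw [he, div_pow]
    exact Pre_inv2 hB hx v _ _
  -- the two tensors
  obtain ⟨w, hw⟩ : ∃ w : Fin (f + 1) → Vc n K,
      w = fun k => if k = 0 then p else (Pi.single o 1 : Vc n K) := ⟨_, rfl⟩
  have hw0 : w 0 = p := by rw [hw]; rfl
  have hws : ∀ k : Fin f, w k.succ = (Pi.single o 1 : Vc n K) := by
    intro k
    rw [hw]
    show (if k.succ = 0 then p else (Pi.single o 1 : Vc n K)) = _
    rw [if_neg (Fin.succ_ne_zero k)]
  have hwe : ∀ z : Vc n K, ev (tp w) z = lin p z * z o ^ f := by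
    intro z
    rw [ev_tp, Fin.prod_univ_succ, hw0]
    simp only [hws, lin_single, Finset.prod_const, Finset.card_univ, Fintype.card_fin]
  have hwb : ∀ (t : Fin (f + 1) → Fin (n + 1)) (v : InfinitePlace K),
      v (tp w t) ≤ 2 * (n + 1) * CK K n ^ 2 * B / Del o x y v := by
    intro t v
    show v (∏ k, w k (t k)) ≤ _
    rw [Fin.prod_univ_succ, hw0, v_mul, v_prod]
    have h3 : ∏ k : Fin f, v (w k.succ (t k.succ)) ≤ 1 := by
      refine Finset.prod_le_one (fun k _ => v_nonneg v _) fun k _ => ?_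
      rw [hws]
      exact Pre_sg v o _
    have h4 := hDp v
    calc v (p (t 0)) * ∏ k : Fin f, v (w k.succ (t k.succ)) ≤
        (2 * (n + 1) * CK K n ^ 2 * B / Del o x y v) * 1 :=
          mul_le_mul (hpb _ v).1 h3 (Finset.prod_nonneg fun k _ => v_nonneg v _) (by positivity)
      _ = _ := mul_one _
  obtain ⟨b, hb⟩ : ∃ b : Ten n (f + 1) K,
      b = c • tp (fun _ : Fin (f + 1) => (Pi.single o 1 : Vc n K)) + e • tp w := ⟨_, rfl⟩
  have hbx : ev b (kv x) = m := by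
    rw [hb, ev_add, Pre_single, ev_smul', hwe, hpx, kv_apply]
    have h5 : e * (1 * (x o : K) ^ f) = s := by
      rw [he, one_mul]
      field_simp
    rw [h5, hc, hs]
    ring
  have hby : ev b (kv y) = m' := by
    rw [hb, ev_add, Pre_single, ev_smul', hwe, hpy, kv_apply, zero_mul, mul_zero, add_zero, hc]
    field_simp
  obtain ⟨a', ha1, ha2, ha3⟩ := LL2 hd H o x y (exists_mn hxo hxy) (GG_good hx) (GG_good hy) a b
    (fun v => v m' * ((q : ℝ) ^ (f + 1) / (B : ℝ) ^ (f + 1)) +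
      v s * (((q : ℝ) / B) ^ f * (2 * (n + 1) * CK K n ^ 2 * B / Del o x y v)))
    (fun t v => by
      have h1 := Pre_single_le v o c _ (hcb v) t
      have h2 : v ((e • tp w) t) ≤
          v s * (((q : ℝ) / B) ^ f * (2 * (n + 1) * CK K n ^ 2 * B / Del o x y v)) := by
        show v (e * tp w t) ≤ _
        rw [v_mul, ← mul_assoc]
        have h6 := v_nonneg v s
        exact mul_le_mul (heb v) (hwb t v) (v_nonneg v _) (by positivity)
      rw [hb]
      exact (v_add_le v _ _).trans (add_le_add h1 h2))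
    (by rw [hbx, hm]) (by rw [hby, hm'])
  refine ⟨a', ha1, ha2, fun t v => ?_⟩
  have h3 := ha3 t v
  rw [hs, hm, hm'] at h3
  exact h3

end Pool.Agent.Lib.MP_1ad228_ntN
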