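import Pool.Agent.Lib.MP_1ad228_ntN.LL

/-!
JOB Psi.  The weight function.  (Model with proof: Lib/MP_1ad228_ntF/Psi.lean; `tn` is real here: `tn_le`, `le_tn`,
`mem_Box_iff_tn`, `tn_nonneg` in NB_Em.)
-/

namespace Pool.Agent.Lib.MP_1ad228_ntN

open NumberField Classical
open Pool.Agent.Lib.MP_219881_nt (mn)

set_option linter.unusedSectionVars false

variable {K : Type} [Field K] [NumberField K]

theorem tn_add {n d : ℕ} (a b : Ten n d (𝓞 K)) : tn (a + b) ≤ tn a + tn b := by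
  rw [tn_le]
  intro s v
  have e : (((a + b) s : 𝓞 K) : K) = (a s : K) + (b s : K) := by
    rw [Pi.add_apply]
    push_cast
    rfl
  rw [e]
  exact (v_add_le v _ _).trans (add_le_add (le_tn a s v) (le_tn b s v))

theorem tn_neg {n d : ℕ} (a : Ten n d (𝓞 K)) : tn (-a) = tn a := by
  have h : ∀ b : Ten n d (𝓞 K), tn (-b) ≤ tn b := by
    intro b
    rw [tn_le]
    intro s v
    have e : (((-b) s : 𝓞 K) : K) = -(b s : K) := by
      rw [Pi.neg_apply]
      push_cast
      rfl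
    rw [e, v_neg]
    exact le_tn b s v
  refine le_antisymm (h a) ?_
  have h2 := h (-a)
  rwa [neg_neg] at h2

theorem psi_nonneg {n d : ℕ} (A : ℕ) (a : Ten n d (𝓞 K)) : 0 ≤ psi A a := by
  exact le_max_left _ _

theorem psi_le_one {n d : ℕ} (A : ℕ) (a : Ten n d (𝓞 K)) : psi A a ≤ 1 := by
  unfold psi
  refine max_le zero_le_one ?_
  have h0 := tn_nonneg a
  have h : (0 : ℝ) ≤ tn a / (2 * A) := by positivity
  linarith

theorem psi_half {n d : ℕ} {A : ℕ} (hA : 1 ≤ A) {a : Ten n d (𝓞 K)} (ha : a ∈ Box K n d A) :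
    1 / 2 ≤ psi A a := by
  have h2 : tn a ≤ (A : ℝ) := mem_Box_iff_tn.1 ha
  have hA' : (0 : ℝ) < (A : ℝ) := by exact_mod_cast hA
  have h3 : tn a / (2 * A) ≤ 1 / 2 := by
    rw [div_le_iff₀ (by positivity)]
    linarith
  unfold psi
  refine le_trans ?_ (le_max_right _ _)
  linarith

theorem psi_zero {n d : ℕ} {A : ℕ} (hA : 1 ≤ A) {a : Ten n d (𝓞 K)}
    (ha : a ∉ Box K n d (2 * A)) : psi A a = 0 := by
  have h1 : 2 * (A : ℝ) < tn a := by
    by_contra h
    exact ha (mem_Box_iff_tn.2 (not_lt.1 h))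
  have hA' : (0 : ℝ) < (A : ℝ) := by exact_mod_cast hA
  have h3 : 1 ≤ tn a / (2 * A) := by
    rw [le_div_iff₀ (by positivity)]
    linarith
  unfold psi
  exact max_eq_left (by linarith)

theorem psi_lip {n d : ℕ} {A : ℕ} (hA : 1 ≤ A) (a c : Ten n d (𝓞 K)) :
    |psi A (a + c) - psi A a| ≤ tn c / (2 * A) := by
  have hA' : (0 : ℝ) < (A : ℝ) := by exact_mod_cast hA
  have h1 : tn (a + c) ≤ tn a + tn c := tn_add a c
  have h2 : tn a ≤ tn (a + c) + tn c := by
    have h := tn_add (a + c) (-c)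
    rw [add_neg_cancel_right, tn_neg] at h
    exact h
  have h3 : |tn a - tn (a + c)| ≤ tn c := abs_le.2 ⟨by linarith, by linarith⟩
  unfold psi
  have h4 := abs_max_sub_max_le_max 0 (1 - tn (a + c) / (2 * A)) 0 (1 - tn a / (2 * A))
  rw [sub_self, abs_zero] at h4
  refine h4.trans ((max_eq_right (abs_nonneg _)).le.trans ?_)
  have h5 : 1 - tn (a + c) / (2 * A) - (1 - tn a / (2 * A)) = (tn a - tn (a + c)) / (2 * A) := by ring
  rw [h5, abs_div, abs_of_pos (by positivity : (0 : ℝ) < 2 * A)]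
  exact div_le_div_of_nonneg_right h3 (by positivity)

end Pool.Agent.Lib.MP_1ad228_ntN
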