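import Pool.Agent.Lib.MP_1ad228_ntN.Vals
import Pool.Agent.Lib.MP_1ad228_ntN.Pre
import Pool.Agent.Lib.MP_1ad228_ntN.Psi

/-!
JOB Near.  Short tensors with small prescribed values.  (Model: Lib/MP_1ad228_ntF/Near.lean)

PROOF.  `κ = CK K n`. `W ∈ Dd x y` divides `m` and `m'` (membership in `MS`), so `m, m' ∈ Dd x y`. A tensor with values
`(m, m')`: with `lin v y = 1` (`GG_uni hy`) the tensor `m' • tp (fun _ => v)` has value `m'` at `y` and
`m' (lin v x)^d ∈ Dd x y` at `x`; add the tensor of `valD` for `m - m' (lin v x)^d`.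
Tensor over `K`: `p`, `r` of `balForms`; `b = (m/x_o^(d-1)) • tp (p, e_o, ..., e_o) +
(m'/y_o^(d-1)) • tp (r, e_o, ..., e_o)`: values `m` at `x`, `m'` at `y` (`ev_tp`; write `d = e + 1`,
`Fin.prod_univ_succ`). Entries: `k^2 v(m) ≤ A v(x_o)^d` (definition of `LV` in `MS`; `k ^ 2` cast), so
`v(m)/v(x_o)^(d-1) ≤ A v(x_o)/k^2 ≤ A B/k^2`, and the entries of `p`, `r` are at most `2(n+1) κ^2 B/Del_v`, so each of the
two terms is at most `2(n+1) κ^2 A B^2/(k^2 Del_v) ≤ 2(n+1) κ^2 A/k` (`B^2 ≤ k Del_v`). `LL2`: entries of `a0` at most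
`4(n+1) κ^2 A/k + cc κ H^2 ≤ (4(n+1) κ^2 + 1) A/k` when `cc κ H^2 k ≤ A`.
`k * tn a0 ≤ C * A` by `tn_le`.  `C = 4(n+1) κ^2 + 1 + cc κ`.
-/

namespace Pool.Agent.Lib.MP_1ad228_ntN

open NumberField Classical
open Pool.Agent.Lib.MP_219881_nt (mn)

set_option linter.unusedSectionVars false

variable {K : Type} [Field K] [NumberField K]

private theorem Near_int {n e : ℕ} (x y : Vc n (𝓞 K)) (hx : Uni x) (hy : Uni y) (m m' : 𝓞 K)
    (h : m ∈ Dd x y) (h' : m' ∈ Dd x y) :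
    ∃ a : Ten n (e + 1) (𝓞 K), ev a x = m ∧ ev a y = m' := by
  obtain ⟨v, hv⟩ := hy
  obtain ⟨aD, h0, h1⟩ := valD (e + 1) (by omega) x y hx (m - m' * (lin v x) ^ (e + 1))
    (Ideal.sub_mem _ h (Ideal.mul_mem_right _ _ h'))
  refine ⟨m' • tp (fun _ => v) + aD, ?_, ?_⟩
  · rw [ev_add, ev_smul', ev_tp, h1, Finset.prod_const, Finset.card_univ, Fintype.card_fin]
    ring
  · rw [ev_add, ev_smul', ev_tp, h0, hv, Finset.prod_const_one]
    ring

/-- value of the tensor `(P, E, ..., E)` -/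
private theorem Near_val {n e : ℕ} (P E : Vc n K) (z : Vc n K) :
    ev (tp (Fin.cons P (fun _ => E) : Fin (e + 1) → Vc n K)) z = lin P z * lin E z ^ e := by
  rw [ev_tp, Fin.prod_univ_succ, Fin.cons_zero]
  simp only [Fin.cons_succ, Finset.prod_const, Finset.card_univ, Fintype.card_fin]

/-- entries of the tensor `(P, E, ..., E)` -/
private theorem Near_ent {n e : ℕ} (v : InfinitePlace K) (P E : Vc n K) (G : ℝ) (hP : ∀ i, v (P i) ≤ G)
    (hE : ∀ i, v (E i) ≤ 1) (s : Fin (e + 1) → Fin (n + 1)) :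
    v (tp (Fin.cons P (fun _ => E) : Fin (e + 1) → Vc n K) s) ≤ G := by
  have e1 : tp (Fin.cons P (fun _ => E) : Fin (e + 1) → Vc n K) s
      = P (s 0) * ∏ k : Fin e, E (s k.succ) := by
    unfold Pool.Agent.Lib.MP_1ad228_ntF.tp
    rw [Fin.prod_univ_succ, Fin.cons_zero]
    simp only [Fin.cons_succ]
  have h2 : v (∏ k : Fin e, E (s k.succ)) ≤ 1 := by
    rw [v_prod]
    exact Finset.prod_le_one (fun k _ => v_nonneg _ _) fun k _ => hE _
  rw [e1, v_mul]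
  calc v (P (s 0)) * v (∏ k : Fin e, E (s k.succ)) ≤ v (P (s 0)) * 1 :=
        mul_le_mul_of_nonneg_left h2 (v_nonneg _ _)
    _ ≤ G := by rw [mul_one]; exact hP _

private theorem Near_single {n : ℕ} (v : InfinitePlace K) (o i : Fin (n + 1)) :
    v ((Pi.single o 1 : Vc n K) i) ≤ 1 := by
  rw [Pi.single_apply]
  split_ifs
  · rw [v_one]
  · rw [v_zero]
    exact zero_le_one

private theorem Near_term {B k A e : ℕ} (hk : 1 ≤ k) {D G P xo vm : ℝ} (hD : 0 < D)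
    (hgD : (B : ℝ) ^ 2 ≤ k * D) (hx0 : 0 < xo) (hxB : xo ≤ B)
    (hm : (k : ℝ) ^ 2 * vm ≤ A * xo ^ (e + 1)) (hG : 0 ≤ G) (hP0 : 0 ≤ P)
    (hP : P ≤ G * B / D) : vm / xo ^ e * P ≤ G * A / k := by
  have hk0 : (0 : ℝ) < k := by exact_mod_cast hk
  have hA0 : (0 : ℝ) ≤ A := Nat.cast_nonneg _
  have hB0 : (0 : ℝ) ≤ B := Nat.cast_nonneg _
  have hxe : (0 : ℝ) < xo ^ e := pow_pos hx0 e
  have h1 : vm / xo ^ e ≤ A * B / (k : ℝ) ^ 2 := by
    rw [div_le_div_iff₀ hxe (pow_pos hk0 2)]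
    calc vm * (k : ℝ) ^ 2 = (k : ℝ) ^ 2 * vm := by ring
      _ ≤ A * xo ^ (e + 1) := hm
      _ = A * xo * xo ^ e := by ring
      _ ≤ A * B * xo ^ e := by gcongr
  have h2 : vm / xo ^ e * P ≤ A * B / (k : ℝ) ^ 2 * (G * B / D) :=
    mul_le_mul h1 hP hP0 (by positivity)
  refine h2.trans ?_
  rw [div_mul_div_comm, div_le_div_iff₀ (by positivity) hk0]
  calc (A : ℝ) * B * (G * B) * k = A * G * k * (B : ℝ) ^ 2 := by ring
    _ ≤ A * G * k * (k * D) := by gcongr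
    _ = G * A * ((k : ℝ) ^ 2 * D) := by ring

theorem near (n d : ℕ) (hd : 2 ≤ d) : ∃ C : ℝ, 1 ≤ C ∧
    ∀ (B H q : ℕ) (o : Fin (n + 1)) (k A W : ℕ), 1 ≤ B → 1 ≤ k → C * (H : ℝ) ^ 2 * k ≤ A →
    ∀ x ∈ GG K B H q o, ∀ y ∈ GG K B H q o, ¬ Prp x y → ((W : ℕ) : 𝓞 K) ∈ Dd x y →
    (∀ v, (B : ℝ) ^ 2 ≤ k * Del o x y v) →
    ∀ m ∈ MS d W (k ^ 2) A o x, ∀ m' ∈ MS d W (k ^ 2) A o y,
    ∃ a0 : Ten n d (𝓞 K), ev a0 x = m ∧ ev a0 y = m' ∧ k * tn a0 ≤ C * A := by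
  obtain ⟨e, rfl⟩ : ∃ e, d = e + 1 := ⟨d - 1, by omega⟩
  have hκ := CK_pos K n
  obtain ⟨G, hG⟩ : ∃ G : ℝ, G = 2 * (n + 1) * CK K n ^ 2 := ⟨_, rfl⟩
  obtain ⟨c1, hc1⟩ : ∃ c1 : ℝ, c1 = (cc n (e + 1) : ℝ) * CK K n := ⟨_, rfl⟩
  have hG0 : 0 ≤ G := by
    rw [hG]
    positivity
  have hc0 : 0 ≤ c1 := by
    rw [hc1]
    positivity
  refine ⟨2 * G + 1 + c1, by linarith, ?_⟩
  intro B H q o k A W hB hk hA x hx y hy hxy hW hΔ m hm m' hm'
  have hxU := GG_uni hx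
  have hyU := GG_uni hy
  have hx0 := GG_ne hB hx
  have hy0 := GG_ne hB hy
  obtain ⟨⟨t, ht⟩, hmK⟩ := (Finset.mem_filter.1 hm).2
  obtain ⟨⟨t', ht'⟩, hmK'⟩ := (Finset.mem_filter.1 hm').2
  have hmD : m ∈ Dd x y := by
    rw [ht]
    exact Ideal.mul_mem_right _ _ hW
  have hmD' : m' ∈ Dd x y := by
    rw [ht']
    exact Ideal.mul_mem_right _ _ hW
  obtain ⟨a, hax, hay⟩ := Near_int (e := e) x y hxU hyU m m' hmD hmD'
  obtain ⟨p, r, hpx, hpy, hrx, hry, hpr⟩ := balForms hB hx hy hxy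
  have hk0 : (0 : ℝ) < k := by exact_mod_cast hk
  obtain ⟨E, hE⟩ : ∃ E : Vc n K, E = Pi.single o 1 := ⟨_, rfl⟩
  have hEl : ∀ z : Vc n (𝓞 K), lin E (kv z) = (z o : K) := by
    intro z
    rw [hE, lin_single]
    rfl
  have hEE : ∀ v : InfinitePlace K, ∀ i, v (E i) ≤ 1 := fun v i => by
    rw [hE]
    exact Near_single v o i
  obtain ⟨b, hb⟩ : ∃ b : Ten n (e + 1) K, b = ((m : K) / (x o : K) ^ e) •
      tp (Fin.cons p (fun _ => E) : Fin (e + 1) → Vc n K) + ((m' : K) / (y o : K) ^ e) •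
      tp (Fin.cons r (fun _ => E) : Fin (e + 1) → Vc n K) := ⟨_, rfl⟩
  have hx1q : (x o : K) ^ e ≠ 0 := pow_ne_zero _ (by simpa using hx0)
  have hy1q : (y o : K) ^ e ≠ 0 := pow_ne_zero _ (by simpa using hy0)
  have hbx : ev b (kv x) = (m : K) := by
    rw [hb, ev_add, ev_smul', ev_smul', Near_val, Near_val, hpx, hrx, hEl, one_mul, zero_mul,
      mul_zero, add_zero, div_mul_cancel₀ _ hx1q]
  have hby : ev b (kv y) = (m' : K) := by
    rw [hb, ev_add, ev_smul', ev_smul', Near_val, Near_val, hpy, hry, hEl, one_mul, zero_mul,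
      mul_zero, zero_add, div_mul_cancel₀ _ hy1q]
  have hbb : ∀ s, ∀ v : InfinitePlace K, v (b s) ≤ 2 * (G * A / k) := by
    intro s v
    have e1 : b s = ((m : K) / (x o : K) ^ e) *
          tp (Fin.cons p (fun _ => E) : Fin (e + 1) → Vc n K) s
        + ((m' : K) / (y o : K) ^ e) *
          tp (Fin.cons r (fun _ => E) : Fin (e + 1) → Vc n K) s := by
      rw [hb]
      rfl
    have t1 := Near_ent (e := e) v p E (G * B / Del o x y v)
      (fun i => by rw [hG]; exact (hpr i v).1) (hEE v) s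
    have t2 := Near_ent (e := e) v r E (G * B / Del o x y v)
      (fun i => by rw [hG]; exact (hpr i v).2) (hEE v) s
    have hD0 := Del_pos hx0 hxy v
    have k1 : (k : ℝ) ^ 2 * v (m : K) ≤ A * (v (x o : K)) ^ (e + 1) := by
      have h1 := hmK v
      push_cast at h1
      exact h1
    have k2 : (k : ℝ) ^ 2 * v (m' : K) ≤ A * (v (y o : K)) ^ (e + 1) := by
      have h1 := hmK' v
      push_cast at h1
      exact h1
    have u1 := Near_term (A := A) hk hD0 (hΔ v) (GG_vpos hB hx v) (GG_le hx o v) k1 hG0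
      (v_nonneg v _) t1
    have u2 := Near_term (A := A) hk hD0 (hΔ v) (GG_vpos hB hy v) (GG_le hy o v) k2 hG0
      (v_nonneg v _) t2
    rw [e1]
    refine (v_add_le _ _ _).trans ?_
    rw [v_mul, v_mul, v_div, v_div, v_pow, v_pow, two_mul]
    exact add_le_add u1 u2
  obtain ⟨a', h1, h2, h3⟩ := LL2 hd H o x y (exists_mn hx0 hxy) (GG_good hx) (GG_good hy) a b
    (fun _ => 2 * (G * A / k)) hbb (by rw [hax, hbx]) (by rw [hay, hby])
  refine ⟨a', by rw [h1, hax], by rw [h2, hay], ?_⟩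
  have h4 : tn a' ≤ 2 * (G * A / k) + (cc n (e + 1) : ℝ) * (CK K n * (H : ℝ) ^ 2) :=
    tn_le.2 h3
  have h5 : (k : ℝ) * (2 * (G * A / k) + (cc n (e + 1) : ℝ) * (CK K n * (H : ℝ) ^ 2)) =
      2 * G * A + c1 * (H : ℝ) ^ 2 * k := by
    rw [hc1]
    field_simp
  have h6 : c1 * (H : ℝ) ^ 2 * k ≤ A := by
    refine le_trans ?_ hA
    gcongr
    linarith
  have h7 : (0 : ℝ) ≤ c1 * A := mul_nonneg hc0 (Nat.cast_nonneg _)
  calc (k : ℝ) * tn a' ≤ k * (2 * (G * A / k) + (cc n (e + 1) : ℝ) * (CK K n * (H : ℝ) ^ 2)) :=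
        mul_le_mul_of_nonneg_left h4 hk0.le
    _ = 2 * G * A + c1 * (H : ℝ) ^ 2 * k := h5
    _ ≤ (2 * G + 1 + c1) * A := by linarith

end Pool.Agent.Lib.MP_1ad228_ntN
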