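import Pool.Agent.Lib.MP_1ad228_ntN.EEle
import Pool.Agent.Lib.MP_1ad228_ntN.Near

/-!
JOB EEgood.  Good pairs contribute little.  (Model with proof: Lib/MP_1ad228_ntF/EEgood.lean)

`prod_close`: if `0 ≤ a i ≤ M i`, `0 ≤ b i ≤ M i` and `|a i - b i| ≤ ε * M i` for all `i ∈ s` then
`|∏ a - ∏ b| ≤ card s * ε * ∏ M` (copy it from the model).

PROOF of EEgood.  `C0 ≥ 1` larger than all the constants of `near`, `slice` (for the degrees `d i`) and of `EEle`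
(e.g. the sum, or the product, of all of them). For every `i`: `ν = n2 (d i) x y A`, `S = sl (d i) A x y 0 0`,
`M i = C0 ν`. If `k ≤ C0`: `EEle` gives `|EE| ≤ C0 ∏ n2 ≤ (C0^2/k) ∏ n2`.
If `k ≥ C0`: for all `m ∈ MS (d i) W (k^2) A o x`, `m' ∈ MS (d i) W (k^2) A o y`, `near` gives `a0` with these values and
`k * tn a0 ≤ C0 A`, so `tn a0 ≤ A` and `tn a0/(2A) ≤ C0/(2k)`; by `slice`
`|sl (d i) A x y m m' - S| ≤ (C0/(2k)) * M i`. `0 ∈ MS (d i) W (k^2) A o x` and `0 ∈ MS (d i) W (k^2) A o y`: so the same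
holds for `sl (d i) A x y m 0`, `sl (d i) A x y 0 m'`, and the cardinalities are positive, the averages
`TT, TS, UU` are true averages: `|TT - S|, |TS - S|, |UU - S| ≤ (C0/(2k)) M i`,
and all of `S, TT, TS, UU` are in `[0, M i]` (`sl_nonneg`, `slice`, `TT_mem` etc.). By `prod_close` with
`ε = C0/(2k)`: `|∏ S - ∏ TT| ≤ r ε ∏ M`, `|∏ UU - ∏ TS| ≤ |∏ UU - ∏ S| + |∏ S - ∏ TS| ≤ 2 r ε ∏ M`; so
`|EE| ≤ 3 r ε ∏ M = 3 r C0/(2k) C0^r ∏ n2`.  `C = 2 (r+1) C0^(r+2)`.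
-/

namespace Pool.Agent.Lib.MP_1ad228_ntN

open NumberField Classical
open Pool.Agent.Lib.MP_219881_nt (mn)

set_option linter.unusedSectionVars false

variable {K : Type} [Field K] [NumberField K]

private theorem EEgood_avg {ι : Type*} (s : Finset ι) (f : ι → ℝ) (S δ : ℝ) (hs : s.Nonempty)
    (h : ∀ m ∈ s, |f m - S| ≤ δ) : |(1 / (s.card : ℝ)) * ∑ m ∈ s, f m - S| ≤ δ := by
  have hc : (0 : ℝ) < (s.card : ℝ) := by exact_mod_cast hs.card_pos
  have h1 : (1 / (s.card : ℝ)) * ∑ m ∈ s, f m - S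
      = (1 / (s.card : ℝ)) * ∑ m ∈ s, (f m - S) := by
    rw [Finset.sum_sub_distrib, Finset.sum_const, nsmul_eq_mul]
    field_simp
  rw [h1, abs_mul, abs_of_pos (one_div_pos.mpr hc)]
  have h2 : |∑ m ∈ s, (f m - S)| ≤ (s.card : ℝ) * δ := by
    refine (Finset.abs_sum_le_sum_abs _ _).trans ?_
    calc ∑ m ∈ s, |f m - S| ≤ ∑ _m ∈ s, δ := Finset.sum_le_sum h
      _ = (s.card : ℝ) * δ := by rw [Finset.sum_const, nsmul_eq_mul]
  calc 1 / (s.card : ℝ) * |∑ m ∈ s, (f m - S)| ≤ 1 / (s.card : ℝ) * ((s.card : ℝ) * δ) := by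
        gcongr
    _ = δ := by field_simp

private theorem EEgood_zero_mem {n d W κ A : ℕ} {o : Fin (n + 1)} {x : Vc n (𝓞 K)} :
    (0 : 𝓞 K) ∈ MS d W κ A o x := by
  have hh : 0 ≤ hs (x o : K) := hs_nonneg _
  unfold MS
  rw [Finset.mem_filter]
  refine ⟨zero_mem_OBox (by positivity), dvd_zero _, fun v => ?_⟩
  have h1 : v ((0 : 𝓞 K) : K) = 0 := by simp
  rw [h1, mul_zero]
  exact mul_nonneg (Nat.cast_nonneg _) (pow_nonneg (v_nonneg v _) _)

theorem prod_close {ι : Type*} (s : Finset ι) (a b M : ι → ℝ) (ε : ℝ) (hε : 0 ≤ ε)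
    (ha : ∀ i ∈ s, 0 ≤ a i ∧ a i ≤ M i) (hb : ∀ i ∈ s, 0 ≤ b i ∧ b i ≤ M i)
    (h : ∀ i ∈ s, |a i - b i| ≤ ε * M i) :
    |∏ i ∈ s, a i - ∏ i ∈ s, b i| ≤ s.card * ε * ∏ i ∈ s, M i := by
  induction s using Finset.induction_on with
  | empty => simp
  | insert i s hi ih =>
    have ih' := ih (fun j hj => ha j (Finset.mem_insert_of_mem hj))
      (fun j hj => hb j (Finset.mem_insert_of_mem hj)) (fun j hj => h j (Finset.mem_insert_of_mem hj))
    rw [Finset.prod_insert hi, Finset.prod_insert hi, Finset.prod_insert hi,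
      Finset.card_insert_of_notMem hi]
    have hai := ha i (Finset.mem_insert_self i s)
    have hbi := hb i (Finset.mem_insert_self i s)
    have hi' := h i (Finset.mem_insert_self i s)
    have hM : 0 ≤ M i := hai.1.trans hai.2
    have hP0 : 0 ≤ ∏ j ∈ s, a j := Finset.prod_nonneg fun j hj => (ha j (Finset.mem_insert_of_mem hj)).1
    have hP1 : ∏ j ∈ s, a j ≤ ∏ j ∈ s, M j :=
      Finset.prod_le_prod (fun j hj => (ha j (Finset.mem_insert_of_mem hj)).1)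
        fun j hj => (ha j (Finset.mem_insert_of_mem hj)).2
    have e : a i * ∏ j ∈ s, a j - b i * ∏ j ∈ s, b j =
        (a i - b i) * ∏ j ∈ s, a j + b i * (∏ j ∈ s, a j - ∏ j ∈ s, b j) := by ring
    rw [e]
    refine (abs_add_le _ _).trans ?_
    rw [abs_mul, abs_mul, abs_of_nonneg hP0, abs_of_nonneg hbi.1]
    have h1 : |a i - b i| * ∏ j ∈ s, a j ≤ (ε * M i) * ∏ j ∈ s, M j :=
      mul_le_mul hi' hP1 hP0 (mul_nonneg hε hM)
    have h2 : b i * |∏ j ∈ s, a j - ∏ j ∈ s, b j| ≤ M i * (s.card * ε * ∏ j ∈ s, M j) :=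
      mul_le_mul hbi.2 ih' (abs_nonneg _) hM
    refine (add_le_add h1 h2).trans (le_of_eq ?_)
    push_cast
    ring

variable (K) in
theorem EEgood (n : ℕ) {r : ℕ} (d : Fin r → ℕ) (hd : ∀ i, 2 ≤ d i) : ∃ C : ℝ, 1 ≤ C ∧
    ∀ (B H q : ℕ) (o : Fin (n + 1)) (k A W : ℕ), 1 ≤ B → 1 ≤ k → 1 ≤ A →
    C * (H : ℝ) ^ 2 * k ≤ A →
    ∀ x ∈ GG K B H q o, ∀ y ∈ GG K B H q o, ¬ Prp x y → ((W : ℕ) : 𝓞 K) ∈ Dd x y →
    (∀ v, (B : ℝ) ^ 2 ≤ k * Del o x y v) →
    |EE d o W (k ^ 2) A x y| ≤ C / (k : ℝ) * ∏ i, (n2 (d i) x y A : ℝ) := by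
  choose Cn hCn1 hnear using fun i => near (K := K) n (d i) (hd i)
  choose Cs hCs1 hsl1 hsl2 using fun i => slice K n (d i)
  obtain ⟨Ce, hCe1, hEE⟩ := EEle K n d
  obtain ⟨C0, hC0⟩ : ∃ C0 : ℝ, C0 = Ce + ∑ i, (Cn i + Cs i) := ⟨_, rfl⟩
  have hsum0 : 0 ≤ ∑ i, (Cn i + Cs i) :=
    Finset.sum_nonneg fun i _ => by linarith [hCn1 i, hCs1 i]
  have hCe : Ce ≤ C0 := by linarith
  have hC01 : 1 ≤ C0 := hCe1.trans hCe
  have hle : ∀ i, Cn i + Cs i ≤ C0 := by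
    intro i
    have h1 := Finset.single_le_sum (f := fun i => Cn i + Cs i)
      (fun j _ => by linarith [hCn1 j, hCs1 j]) (Finset.mem_univ i)
    linarith
  have hCn : ∀ i, Cn i ≤ C0 := fun i => by linarith [hle i, hCs1 i]
  have hCs : ∀ i, Cs i ≤ C0 := fun i => by linarith [hle i, hCn1 i]
  have hr0 : (0 : ℝ) ≤ r := Nat.cast_nonneg r
  have hpow1 : 1 ≤ C0 ^ (r + 1) := one_le_pow₀ hC01
  have hpow0 : 1 ≤ C0 ^ r := one_le_pow₀ hC01
  have hpow : C0 ^ (r + 2) = C0 * C0 * C0 ^ r := by ring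
  have hbig : C0 * C0 ≤ 2 * (r + 1) * C0 ^ (r + 2) := by
    rw [hpow]
    have h1 : 0 ≤ C0 * C0 := by positivity
    have h2 : C0 * C0 * 1 ≤ C0 * C0 * C0 ^ r := mul_le_mul_of_nonneg_left hpow0 h1
    nlinarith
  have hbig1 : C0 ≤ 2 * (r + 1) * C0 ^ (r + 2) := by nlinarith
  refine ⟨2 * (r + 1) * C0 ^ (r + 2), hC01.trans hbig1, ?_⟩
  intro B H q o k A W hB hk hA1 hA x hx y hy hxy hD hΔ
  have hk0 : (0 : ℝ) < (k : ℝ) := by exact_mod_cast hk
  have hN : (0 : ℝ) ≤ ∏ i, (n2 (d i) x y A : ℝ) := Finset.prod_nonneg fun i _ => Nat.cast_nonneg _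
  have hAr : (0 : ℝ) < (A : ℝ) := by exact_mod_cast hA1
  by_cases hk2 : (k : ℝ) ≤ C0
  · refine (hEE o W (k ^ 2) A hA1 x y).trans ?_
    apply mul_le_mul_of_nonneg_right _ hN
    refine hCe.trans ?_
    rw [le_div_iff₀ hk0]
    exact (mul_le_mul_of_nonneg_left hk2 (by linarith)).trans hbig
  · have hk3 : C0 < k := not_le.1 hk2
    obtain ⟨M, hM⟩ : ∃ M : Fin r → ℝ, ∀ i, M i = C0 * (n2 (d i) x y A : ℝ) :=
      ⟨fun i => C0 * (n2 (d i) x y A : ℝ), fun i => rfl⟩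
    obtain ⟨ε, hε⟩ : ∃ ε : ℝ, ε = C0 / (2 * (k : ℝ)) := ⟨_, rfl⟩
    have hε0 : 0 ≤ ε := by rw [hε]; positivity
    have hn : ∀ i, (0 : ℝ) ≤ (n2 (d i) x y A : ℝ) := fun i => Nat.cast_nonneg _
    have hC : ∀ i m m', sl (d i) A x y m m' ≤ M i := by
      intro i m m'
      refine (hsl1 i A hA1 x y m m').trans ?_
      rw [hM]
      exact mul_le_mul_of_nonneg_right (hCs i) (hn i)
    have key : ∀ i, ∀ m ∈ MS (d i) W (k ^ 2) A o x, ∀ m' ∈ MS (d i) W (k ^ 2) A o y,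
        |sl (d i) A x y m m' - sl (d i) A x y 0 0| ≤ ε * M i := by
      intro i m hm m' hm'
      have hAi : Cn i * (H : ℝ) ^ 2 * k ≤ A := by
        refine le_trans ?_ hA
        have h1 : 0 ≤ (H : ℝ) ^ 2 * k := by positivity
        have h2 := mul_le_mul_of_nonneg_right ((hCn i).trans hbig1) h1
        linarith
      obtain ⟨a0, h1, h2, h3⟩ := hnear i B H q o k A W hB hk hAi x hx y hy hxy hD hΔ m hm m' hm'
      have h3' : (k : ℝ) * tn a0 ≤ C0 * A := h3.trans (mul_le_mul_of_nonneg_right (hCn i) hAr.le)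
      have h4 : tn a0 ≤ A := by
        by_contra hcon
        push Not at hcon
        have h5 : (k : ℝ) * A < k * tn a0 := mul_lt_mul_of_pos_left hcon hk0
        have h6 : C0 * A < k * A := mul_lt_mul_of_pos_right hk3 hAr
        linarith
      have h5 := hsl2 i A hA1 x y a0 h4
      rw [h1, h2] at h5
      refine h5.trans ?_
      rw [hε, hM]
      have h6 : tn a0 / (2 * (A : ℝ)) ≤ C0 / (2 * (k : ℝ)) := by
        rw [div_le_div_iff₀ (by positivity) (by positivity)]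
        nlinarith
      exact mul_le_mul h6 (mul_le_mul_of_nonneg_right (hCs i) (hn i))
        (mul_nonneg (by linarith [hCs1 i]) (hn i)) (by positivity)
    have z1 : ∀ i, (0 : 𝓞 K) ∈ MS (d i) W (k ^ 2) A o x := fun i => EEgood_zero_mem
    have z2 : ∀ i, (0 : 𝓞 K) ∈ MS (d i) W (k ^ 2) A o y := fun i => EEgood_zero_mem
    have hS : ∀ i ∈ Finset.univ, 0 ≤ sl (d i) A x y 0 0 ∧ sl (d i) A x y 0 0 ≤ M i :=
      fun i _ => ⟨sl_nonneg (d i) A x y 0 0, hC i 0 0⟩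
    have hT := fun (i : Fin r) (_ : i ∈ Finset.univ) => TT_mem (d i) o W (k ^ 2) A x y (M i) (hC i)
    have hT' := fun (i : Fin r) (_ : i ∈ Finset.univ) => TS_mem (d i) o W (k ^ 2) A x y (M i) (hC i)
    have hU := fun (i : Fin r) (_ : i ∈ Finset.univ) => UU_mem (d i) o W (k ^ 2) A x y (M i) (hC i)
    have g1 := prod_close Finset.univ (fun i => sl (d i) A x y 0 0)
      (fun i => TT (d i) o W (k ^ 2) A x y) M ε hε0 hS hT (fun i _ => by
        rw [abs_sub_comm]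
        exact EEgood_avg _ _ _ _ ⟨0, z1 i⟩ fun m hm => key i m hm 0 (z2 i))
    have g2 := prod_close Finset.univ (fun i => sl (d i) A x y 0 0)
      (fun i => TS (d i) o W (k ^ 2) A x y) M ε hε0 hS hT' (fun i _ => by
        rw [abs_sub_comm]
        exact EEgood_avg _ _ _ _ ⟨0, z2 i⟩ fun m' hm' => key i 0 (z1 i) m' hm')
    have g3 := prod_close Finset.univ (fun i => UU (d i) o W (k ^ 2) A x y)
      (fun i => sl (d i) A x y 0 0) M ε hε0 hU hS (fun i _ => by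
        have hU0 : UU (d i) o W (k ^ 2) A x y
            = (1 / ((MS (d i) W (k ^ 2) A o x).card : ℝ)) * ∑ m ∈ MS (d i) W (k ^ 2) A o x,
              ((1 / ((MS (d i) W (k ^ 2) A o y).card : ℝ)) *
                ∑ m' ∈ MS (d i) W (k ^ 2) A o y, sl (d i) A x y m m') := by
          unfold UU
          rw [← Finset.mul_sum, mul_assoc]
        rw [hU0]
        exact EEgood_avg _ _ _ _ ⟨0, z1 i⟩ fun m hm =>
          EEgood_avg _ _ _ _ ⟨0, z2 i⟩ fun m' hm' => key i m hm m' hm')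
    have hcard : ((Finset.univ : Finset (Fin r)).card : ℝ) = r := by
      rw [Finset.card_univ, Fintype.card_fin]
    rw [hcard] at g1 g2 g3
    have hP : ∏ i, M i = C0 ^ r * ∏ i, (n2 (d i) x y A : ℝ) := by
      have e : ∏ i, M i = ∏ i, (C0 * (n2 (d i) x y A : ℝ)) :=
        Finset.prod_congr rfl fun i _ => hM i
      rw [e, Finset.prod_mul_distrib, Finset.prod_const, Finset.card_univ, Fintype.card_fin]
    have hEE2 : |EE d o W (k ^ 2) A x y| ≤ 3 * (r * ε * ∏ i, M i) := by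
      unfold EE
      have e : ∏ i, sl (d i) A x y 0 0 - ∏ i, TT (d i) o W (k ^ 2) A x y
          - ∏ i, TS (d i) o W (k ^ 2) A x y + ∏ i, UU (d i) o W (k ^ 2) A x y =
          (∏ i, sl (d i) A x y 0 0 - ∏ i, TT (d i) o W (k ^ 2) A x y) +
          (∏ i, sl (d i) A x y 0 0 - ∏ i, TS (d i) o W (k ^ 2) A x y) +
          (∏ i, UU (d i) o W (k ^ 2) A x y - ∏ i, sl (d i) A x y 0 0) := by ring
      rw [e]
      refine (abs_add_le _ _).trans ?_
      have := abs_add_le (∏ i, sl (d i) A x y 0 0 - ∏ i, TT (d i) o W (k ^ 2) A x y)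
        (∏ i, sl (d i) A x y 0 0 - ∏ i, TS (d i) o W (k ^ 2) A x y)
      linarith
    refine hEE2.trans ?_
    rw [hP, hε]
    have e3 : 3 * (r * (C0 / (2 * (k : ℝ))) * (C0 ^ r * ∏ i, (n2 (d i) x y A : ℝ))) =
        (3 / 2 * r * (C0 * C0 ^ r)) / k * ∏ i, (n2 (d i) x y A : ℝ) := by
      field_simp
    rw [e3]
    apply mul_le_mul_of_nonneg_right _ hN
    apply div_le_div_of_nonneg_right _ hk0.le
    rw [hpow]
    have h1 : 0 ≤ C0 * C0 ^ r := by positivity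
    have h2 : C0 * C0 ^ r ≤ C0 * C0 * C0 ^ r := by
      have h3 : C0 ^ r * 1 ≤ C0 ^ r * C0 := mul_le_mul_of_nonneg_left hC01 (by positivity)
      nlinarith
    nlinarith

end Pool.Agent.Lib.MP_1ad228_ntN
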