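import Pool.Agent.Lib.MP_1ad228_ntN.B_CloK
import Pool.Agent.Lib.MP_1ad228_ntN.B_NearR
import Pool.Agent.Lib.MP_1ad228_ntN.B_EE
import Pool.Agent.Lib.MP_1ad228_ntN.EEgood

/-!
JOB B_GoodK.  Non exceptional good pairs contribute little (degree 2, borderline case). (Models: EEgood.lean of this folder and Lib/MP_1ad228_ntF/B_Good.lean.)

PROOF.  `C1` of `slB_close K n`, `C2` of `nearR K n 2`, `C3` of `sliB K n 2`. `k = T^2`. Let `J = Nat.log 2 (A / T)` (natural division, `A/T ≥ 1`): `2^J ≤ A/T ≤ A`, so `2^J T ≤ A` and `A < T 2^(J+1)`. If `C ≥ 2 C1` the hypothesis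
`C H^2 T ≤ A T' < T 2^(J+1) T'` gives `C1 H^2 ≤ T' 2^J`. For `m ∈ MS`, `m' ∈ MS` take `a0, b` from `nearR` (`β0 = C2 A/T^2`). `slB_close`: `|slB m m' - slB 0 0| ≤ C1 (2^J/A + (β0/2^J)^2) n2`; `2^J/A ≤ 1/T`,
`β0/2^J = C2 A/(T^2 2^J) ≤ 2 C2/T`. So the difference is at most `C1 (1/T + 4 C2^2/T^2) n2 ≤ (C4/T) * M`, `C4 = C1 (1 + 4 C2^2)`, `M = C3 n2` (`C3 ≥ 1`).
The values `slB 0 0`, `TTB`, `TSB`, `UUB` are in `[0, M]` (`sliB`, `TTB_mem` ...), and `TTB, TSB, UUB` are averages over nonempty sets (`0 ∈ MS`) of slices within `(C4/T) M` of `slB 0 0`. `prod_close` (EEgood.lean) with `ε = C4/T` (r equal factors):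
`|∏ slB - ∏ TTB| ≤ r ε M^r`, `|∏ UUB - ∏ TSB| ≤ 2 r ε M^r`. So `|EEB| ≤ 3 r (C4/T) C3^r n2^r`.
-/

namespace Pool.Agent.Lib.MP_1ad228_ntN

open NumberField Classical
open Pool.Agent.Lib.MP_219881_nt (mn)

set_option linter.unusedSectionVars false

variable {K : Type} [Field K] [NumberField K]

private theorem B_GoodK_avg {ι : Type*} (s : Finset ι) (f : ι → ℝ) (S δ : ℝ) (hs : s.Nonempty)
    (h : ∀ m ∈ s, |f m - S| ≤ δ) : |(1 / (s.card : ℝ)) * ∑ m ∈ s, f m - S| ≤ δ := by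
  have hc : (0 : ℝ) < (s.card : ℝ) := by exact_mod_cast hs.card_pos
  have h1 : (1 / (s.card : ℝ)) * ∑ m ∈ s, f m - S
      = (1 / (s.card : ℝ)) * ∑ m ∈ s, (f m - S) := by
    rw [Finset.sum_sub_distrib, Finset.sum_const, nsmul_eq_mul]
    field_simp
  rw [h1, abs_mul, abs_of_pos (one_div_pos.mpr hc)]
  have h2 : |∑ m ∈ s, (f m - S)| ≤ (s.card : ℝ) * δ := by
    refine (Finset.abs_sum_le_sum_abs _ _).trans ?_
    calc ∑ m ∈ s, |f m - S| ≤ ∑ _m ∈ s, δ := Finset.sum_le_sum h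
      _ = (s.card : ℝ) * δ := by rw [Finset.sum_const, nsmul_eq_mul]
  calc 1 / (s.card : ℝ) * |∑ m ∈ s, (f m - S)| ≤ 1 / (s.card : ℝ) * ((s.card : ℝ) * δ) := by
        gcongr
    _ = δ := by field_simp

private theorem B_GoodK_zero_mem {n d W κ A : ℕ} {o : Fin (n + 1)} {x : Vc n (𝓞 K)} :
    (0 : 𝓞 K) ∈ MS d W κ A o x := by
  have hh : 0 ≤ hs (x o : K) := hs_nonneg _
  unfold MS
  rw [Finset.mem_filter]
  refine ⟨zero_mem_OBox (by positivity), dvd_zero _, fun v => ?_⟩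
  have h1 : v ((0 : 𝓞 K) : K) = 0 := by simp
  rw [h1, mul_zero]
  exact mul_nonneg (Nat.cast_nonneg _) (pow_nonneg (v_nonneg v _) _)

/-- The scale `J`. -/
private theorem B_GoodK_scale (T A : ℕ) (hT : 1 ≤ T) (hTA : T ≤ A) :
    ∃ J : ℕ, 2 ^ J ≤ A ∧ 2 ^ J * T ≤ A ∧ A ≤ T * 2 ^ (J + 1) := by
  have h1 : 1 ≤ A / T := (Nat.one_le_div_iff hT).mpr hTA
  refine ⟨Nat.log 2 (A / T), ?_⟩
  have h2 : 2 ^ Nat.log 2 (A / T) ≤ A / T := Nat.pow_log_le_self 2 (by omega)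
  have h3 : A / T < 2 ^ (Nat.log 2 (A / T) + 1) := Nat.lt_pow_succ_log_self (by norm_num) _
  generalize Nat.log 2 (A / T) = J at h2 h3
  have h4 : 2 ^ J * T ≤ A := (Nat.le_div_iff_mul_le hT).mp h2
  have h5 : A < 2 ^ (J + 1) * T := (Nat.div_lt_iff_lt_mul hT).mp h3
  exact ⟨h2.trans (Nat.div_le_self _ _), h4, by rw [mul_comm]; exact h5.le⟩

/-- Real arithmetic of the bound. -/
private theorem B_GoodK_num (C1 C2 T A P : ℝ) (hC1 : 1 ≤ C1) (hC2 : 1 ≤ C2) (hT : 1 ≤ T) (hA : 0 < A)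
    (hP : 0 < P) (h1 : P * T ≤ A) (h2 : A ≤ T * (P * 2)) :
    C1 * (P / A + (C2 * A / T ^ 2 / P) ^ 2) ≤ C1 * (1 + 4 * C2 ^ 2) / T := by
  have hT0 : 0 < T := by linarith
  have e1 : P / A ≤ 1 / T := by
    rw [div_le_div_iff₀ hA hT0]
    linarith
  have e2 : C2 * A / T ^ 2 / P ≤ 2 * C2 / T := by
    rw [div_div, div_le_div_iff₀ (by positivity) hT0]
    have h3 : C2 * A * T ≤ C2 * (T * (P * 2)) * T :=
      mul_le_mul_of_nonneg_right (mul_le_mul_of_nonneg_left h2 (by linarith)) hT0.le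
    calc C2 * A * T ≤ C2 * (T * (P * 2)) * T := h3
      _ = 2 * C2 * (T ^ 2 * P) := by ring
  have e3 : (C2 * A / T ^ 2 / P) ^ 2 ≤ (2 * C2 / T) ^ 2 := pow_le_pow_left₀ (by positivity) e2 2
  have e4 : (2 * C2 / T) ^ 2 ≤ 4 * C2 ^ 2 / T := by
    rw [div_pow, div_le_div_iff₀ (by positivity) hT0]
    have h3 : T * 1 ≤ T * T := mul_le_mul_of_nonneg_left hT hT0.le
    have h4 : 0 ≤ 4 * C2 ^ 2 := by positivity
    calc (2 * C2) ^ 2 * T = 4 * C2 ^ 2 * (T * 1) := by ring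
      _ ≤ 4 * C2 ^ 2 * (T * T) := mul_le_mul_of_nonneg_left h3 h4
      _ = 4 * C2 ^ 2 * T ^ 2 := by ring
  have e5 : P / A + (C2 * A / T ^ 2 / P) ^ 2 ≤ 1 / T + 4 * C2 ^ 2 / T := add_le_add e1 (e3.trans e4)
  calc C1 * (P / A + (C2 * A / T ^ 2 / P) ^ 2) ≤ C1 * (1 / T + 4 * C2 ^ 2 / T) :=
        mul_le_mul_of_nonneg_left e5 (by linarith)
    _ = C1 * (1 + 4 * C2 ^ 2) / T := by ring

variable (K) in
theorem EEgoodB (n r : ℕ) : ∃ C : ℝ, 1 ≤ C ∧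
    ∀ (B H q : ℕ) (o : Fin (n + 1)) (T T' A W : ℕ), 1 ≤ B → 1 ≤ T → T ≤ A →
    C * (H : ℝ) ^ 2 * T ≤ (A : ℝ) * T' →
    ∀ x ∈ GG K B H q o, ∀ y ∈ GG K B H q o, ¬ Prp x y → ((W : ℕ) : 𝓞 K) ∈ Dd x y →
    (∀ v, (B : ℝ) ^ 2 ≤ ((T ^ 2 : ℕ) : ℝ) * Del o x y v) →
    ∀ f g : Fin n → Vc n (𝓞 K), LinearIndependent (𝓞 K) f →
    LinearIndependent (𝓞 K) g → (∀ s, lin (f s) x = 0) → (∀ s, lin (g s) y = 0) →
    (∀ s i, ∀ v : InfinitePlace K, v (f s i : K) ≤ H) →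
    (∀ s i, ∀ v : InfinitePlace K, v (g s i : K) ≤ H) → ¬ ExcP T' f g →
    |EEB (fun _ : Fin r => 2) o W ((T ^ 2) ^ 2) A x y| ≤ C / (T : ℝ) * (n2 2 x y A : ℝ) ^ r := by
  obtain ⟨C1, hC1, hclose⟩ := slB_close K n
  obtain ⟨C2, hC2, hnear⟩ := nearR K n 2 (by norm_num)
  obtain ⟨C3, hC3, hsl, -⟩ := sliB K n 2
  obtain ⟨C4, hC4⟩ : ∃ C4 : ℝ, C4 = C1 * (1 + 4 * C2 ^ 2) := ⟨_, rfl⟩
  have hC40 : 0 ≤ C4 := by
    rw [hC4]
    positivity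
  have hC0 : 0 ≤ 3 * r * C4 * C3 ^ r := by positivity
  refine ⟨2 * C1 + 3 * r * C4 * C3 ^ r, by linarith, ?_⟩
  intro B H q o T T' A W hB hT hTA hTT x hx y hy hxy hD hΔ f g hf hg f0 g0 hfH hgH hE
  have hT0 : (0 : ℝ) < (T : ℝ) := by exact_mod_cast hT
  have hT1 : (1 : ℝ) ≤ (T : ℝ) := by exact_mod_cast hT
  have hA1 : 1 ≤ A := hT.trans hTA
  have hAr : (0 : ℝ) < (A : ℝ) := by exact_mod_cast hA1
  have hk : 1 ≤ T ^ 2 := Nat.one_le_pow _ _ hT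
  have hn : (0 : ℝ) ≤ (n2 2 x y A : ℝ) := Nat.cast_nonneg _
  obtain ⟨M, hM⟩ : ∃ M : ℝ, M = C3 * (n2 2 x y A : ℝ) := ⟨_, rfl⟩
  have hM0 : 0 ≤ M := by rw [hM]; positivity
  obtain ⟨ε, hε⟩ : ∃ ε : ℝ, ε = C4 / (T : ℝ) := ⟨_, rfl⟩
  have hε0 : 0 ≤ ε := by rw [hε]; positivity
  have hmn : ∃ j, mn x y o j ≠ 0 := by
    obtain ⟨v⟩ : Nonempty (InfinitePlace K) := inferInstance
    have h1 := hΔ v
    obtain ⟨j, -, hj⟩ := Finset.exists_mem_eq_sup' (Finset.univ_nonempty (α := Fin (n + 1)))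
      (fun j : Fin (n + 1) => v ((mn x y o j : 𝓞 K) : K))
    have h2 : Del o x y v = v ((mn x y o j : 𝓞 K) : K) := hj
    refine ⟨j, fun h0 => ?_⟩
    have h3 : v ((mn x y o j : 𝓞 K) : K) = 0 := by
      rw [h0]
      simp
    rw [h2, h3, mul_zero] at h1
    have h4 : (1 : ℝ) ≤ (B : ℝ) ^ 2 := one_le_pow₀ (by exact_mod_cast hB)
    linarith
  obtain ⟨J, hJ1, hJ2, hJ3⟩ := B_GoodK_scale T A hT hTA
  have hJ2r : (2 : ℝ) ^ J * T ≤ A := by exact_mod_cast hJ2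
  have hJ3r : (A : ℝ) ≤ (T : ℝ) * (2 ^ J * 2) := by
    have h1 : (A : ℝ) ≤ (T : ℝ) * 2 ^ (J + 1) := by exact_mod_cast hJ3
    rwa [pow_succ] at h1
  have hJ4 : C1 * (H : ℝ) ^ 2 ≤ T' * 2 ^ J := by
    have h1 : 2 * (C1 * (H : ℝ) ^ 2) * T ≤ (2 * C1 + 3 * r * C4 * C3 ^ r) * (H : ℝ) ^ 2 * T := by
      have h2 : 2 * C1 * (H : ℝ) ^ 2 ≤ (2 * C1 + 3 * r * C4 * C3 ^ r) * (H : ℝ) ^ 2 :=
        mul_le_mul_of_nonneg_right (by linarith) (by positivity)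
      calc 2 * (C1 * (H : ℝ) ^ 2) * T = (2 * C1 * (H : ℝ) ^ 2) * T := by ring
        _ ≤ _ := mul_le_mul_of_nonneg_right h2 hT0.le
    have h3 : (A : ℝ) * T' ≤ (T : ℝ) * (2 ^ J * 2) * T' :=
      mul_le_mul_of_nonneg_right hJ3r (Nat.cast_nonneg _)
    have h4 : C1 * (H : ℝ) ^ 2 * (2 * T) ≤ (T' * 2 ^ J) * (2 * T) := by
      calc C1 * (H : ℝ) ^ 2 * (2 * T) = 2 * (C1 * (H : ℝ) ^ 2) * T := by ring
        _ ≤ (A : ℝ) * T' := h1.trans hTT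
        _ ≤ (T : ℝ) * (2 ^ J * 2) * T' := h3
        _ = _ := by ring
    exact le_of_mul_le_mul_right h4 (by positivity)
  have hC : ∀ m m', slB 2 A x y m m' ≤ M := by
    intro m m'
    rw [hM]
    exact hsl A hA1 x y m m'
  have key : ∀ m ∈ MS 2 W ((T ^ 2) ^ 2) A o x, ∀ m' ∈ MS 2 W ((T ^ 2) ^ 2) A o y,
      |slB 2 A x y m m' - slB 2 A x y 0 0| ≤ ε * M := by
    intro m hm m' hm'
    obtain ⟨a0, b, h1, h2, h3, h4, h5⟩ := hnear B H q o (T ^ 2) A W hB hk x hx y hy hxy hD hΔ m hm m' hm'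
    have h6 := hclose A hA1 x y o hmn f g hf hg f0 g0 H T' J hfH hgH hE hJ4 hJ1 a0 b
      (by rw [h1, h3]) (by rw [h2, h4]) _ h5
    rw [h1, h2] at h6
    have h7 := B_GoodK_num C1 C2 T A (2 ^ J) hC1 hC2 hT1 hAr (by positivity) hJ2r hJ3r
    rw [← hC4, ← hε] at h7
    refine h6.trans ?_
    have h8 : ε * (n2 2 x y A : ℝ) ≤ ε * M := by
      refine mul_le_mul_of_nonneg_left ?_ hε0
      rw [hM]
      exact le_mul_of_one_le_left hn hC3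
    refine le_trans (mul_le_mul_of_nonneg_right ?_ hn) h8
    push_cast
    exact h7
  have z1 : (0 : 𝓞 K) ∈ MS 2 W ((T ^ 2) ^ 2) A o x := B_GoodK_zero_mem
  have z2 : (0 : 𝓞 K) ∈ MS 2 W ((T ^ 2) ^ 2) A o y := B_GoodK_zero_mem
  have hS : ∀ i ∈ (Finset.univ : Finset (Fin r)), 0 ≤ slB 2 A x y 0 0 ∧ slB 2 A x y 0 0 ≤ M :=
    fun i _ => ⟨slB_nonneg 2 A x y 0 0, hC 0 0⟩
  have hTm := fun (i : Fin r) (_ : i ∈ Finset.univ) => TTB_mem 2 o W ((T ^ 2) ^ 2) A x y M hC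
  have hTm' := fun (i : Fin r) (_ : i ∈ Finset.univ) => TSB_mem 2 o W ((T ^ 2) ^ 2) A x y M hC
  have hU := fun (i : Fin r) (_ : i ∈ Finset.univ) => UUB_mem 2 o W ((T ^ 2) ^ 2) A x y M hC
  have g1 := prod_close (Finset.univ : Finset (Fin r)) (fun _ => slB 2 A x y 0 0)
    (fun _ => TTB 2 o W ((T ^ 2) ^ 2) A x y) (fun _ => M) ε hε0 hS hTm (fun i _ => by
      rw [abs_sub_comm]
      exact B_GoodK_avg _ _ _ _ ⟨0, z1⟩ fun m hm => key m hm 0 z2)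
  have g2 := prod_close (Finset.univ : Finset (Fin r)) (fun _ => slB 2 A x y 0 0)
    (fun _ => TSB 2 o W ((T ^ 2) ^ 2) A x y) (fun _ => M) ε hε0 hS hTm' (fun i _ => by
      rw [abs_sub_comm]
      exact B_GoodK_avg _ _ _ _ ⟨0, z2⟩ fun m' hm' => key 0 z1 m' hm')
  have g3 := prod_close (Finset.univ : Finset (Fin r)) (fun _ => UUB 2 o W ((T ^ 2) ^ 2) A x y)
    (fun _ => slB 2 A x y 0 0) (fun _ => M) ε hε0 hU hS (fun i _ => by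
      have hU0 : UUB 2 o W ((T ^ 2) ^ 2) A x y
          = (1 / ((MS 2 W ((T ^ 2) ^ 2) A o x).card : ℝ)) * ∑ m ∈ MS 2 W ((T ^ 2) ^ 2) A o x,
            ((1 / ((MS 2 W ((T ^ 2) ^ 2) A o y).card : ℝ)) *
              ∑ m' ∈ MS 2 W ((T ^ 2) ^ 2) A o y, slB 2 A x y m m') := by
        unfold UUB
        rw [← Finset.mul_sum, mul_assoc]
      rw [hU0]
      exact B_GoodK_avg _ _ _ _ ⟨0, z1⟩ fun m hm =>
        B_GoodK_avg _ _ _ _ ⟨0, z2⟩ fun m' hm' => key m hm m' hm')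
  have hcard : ((Finset.univ : Finset (Fin r)).card : ℝ) = r := by
    rw [Finset.card_univ, Fintype.card_fin]
  rw [hcard] at g1 g2 g3
  have hP : ∏ _i : Fin r, M = M ^ r := by
    rw [Finset.prod_const, Finset.card_univ, Fintype.card_fin]
  rw [hP] at g1 g2 g3
  have hEE : |EEB (fun _ : Fin r => 2) o W ((T ^ 2) ^ 2) A x y| ≤ 3 * (r * ε * M ^ r) := by
    unfold EEB
    have e : ∏ _i : Fin r, slB 2 A x y 0 0 - ∏ _i : Fin r, TTB 2 o W ((T ^ 2) ^ 2) A x y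
        - ∏ _i : Fin r, TSB 2 o W ((T ^ 2) ^ 2) A x y + ∏ _i : Fin r, UUB 2 o W ((T ^ 2) ^ 2) A x y =
        (∏ _i : Fin r, slB 2 A x y 0 0 - ∏ _i : Fin r, TTB 2 o W ((T ^ 2) ^ 2) A x y) +
        (∏ _i : Fin r, slB 2 A x y 0 0 - ∏ _i : Fin r, TSB 2 o W ((T ^ 2) ^ 2) A x y) +
        (∏ _i : Fin r, UUB 2 o W ((T ^ 2) ^ 2) A x y - ∏ _i : Fin r, slB 2 A x y 0 0) := by ring
    rw [e]
    refine (abs_add_le _ _).trans ?_
    have := abs_add_le (∏ _i : Fin r, slB 2 A x y 0 0 - ∏ _i : Fin r, TTB 2 o W ((T ^ 2) ^ 2) A x y)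
      (∏ _i : Fin r, slB 2 A x y 0 0 - ∏ _i : Fin r, TSB 2 o W ((T ^ 2) ^ 2) A x y)
    linarith
  refine hEE.trans ?_
  have hn' : 0 ≤ (n2 2 x y A : ℝ) ^ r := pow_nonneg hn r
  rw [hε, hM]
  have e3 : 3 * (r * (C4 / (T : ℝ)) * (C3 * (n2 2 x y A : ℝ)) ^ r) =
      (3 * r * C4 * C3 ^ r) / T * (n2 2 x y A : ℝ) ^ r := by
    rw [mul_pow]
    ring
  rw [e3]
  refine mul_le_mul_of_nonneg_right ?_ hn'
  exact div_le_div_of_nonneg_right (by linarith) hT0.le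

end Pool.Agent.Lib.MP_1ad228_ntN
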