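import Pool.Agent.Lib.MP_1ad228_ntN.NB_Const

/-!
JOB CN_Cls.  Integers in a residue class modulo a natural number `W` near given points of all completions (paper sections 0, 7).

`absNorm_natCast`: `absNorm_span_eq`, `v_natCast`, `pn_const`.

`clsLow` PROOF.  `lowI` with `I = span {(W : 𝓞 K)}`, `δ = (W : 𝓞 K)` (`≠ 0`), `T = ρ / (CK K n * W) ≥ 1`: the finset satisfies `‖em v z - c v‖ ≤ CK * T * v (W) = ρ` (`v_natCast`), and
`T^e * (pn (v W) / absNorm I) = T^e = (ρ/W)^e / CK^e ≤ CK * S.card`  (`absNorm_span_eq`).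

`clsUp` PROOF.  `upI'` with `I = span {(W : 𝓞 K)}`, constant `ρ`, centre `c = 0`: `‖em v z - 0‖ = v z ≤ ρ` (`norm_em`); `pn_const`, `absNorm_natCast`; `ρ^e / W^e = (ρ/W)^e`.

`muUp` PROOF.  `MS d W κ A o x` is a set of integers `m` divisible by `W` with `κ v(m) ≤ A v(x o)^d ≤ A B^d`, so `v m ≤ ρ := A B^d / κ`.  `clsUp` with `z0 = 0`: `≤ CK (1 + (A B^d/(κ W))^e)` and `1 ≤ A B^d/(κ W)` by `hB`.
It contains `0` (`v_zero`; `0 ∈ OBox K (..)` by `zero_mem_OBox`, `hs_nonneg`; `A v(x o)^d ≥ 0`).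
-/

namespace Pool.Agent.Lib.MP_1ad228_ntN

open NumberField Classical

set_option linter.unusedSectionVars false

variable {K : Type} [Field K] [NumberField K]

private theorem CN_Cls_pn (W : ℕ) :
    pn (fun v : InfinitePlace K => v (((W : ℕ) : 𝓞 K) : K)) = (W : ℝ) ^ eK K := by
  have h1 : (fun v : InfinitePlace K => v (((W : ℕ) : 𝓞 K) : K)) = fun _ => (W : ℝ) := by
    funext v
    have h2 : (((W : ℕ) : 𝓞 K) : K) = (W : K) := map_natCast (algebraMap (𝓞 K) K) W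
    rw [h2, v_natCast]
  rw [h1, pn_const]

private theorem CN_Cls_v (W : ℕ) (v : InfinitePlace K) : v (((W : ℕ) : 𝓞 K) : K) = (W : ℝ) := by
  have h2 : (((W : ℕ) : 𝓞 K) : K) = (W : K) := map_natCast (algebraMap (𝓞 K) K) W
  rw [h2, v_natCast]

theorem absNorm_natCast (W : ℕ) :
    (Ideal.absNorm (Ideal.span {(W : 𝓞 K)}) : ℝ) = (W : ℝ) ^ eK K := by
  rw [absNorm_span_eq, CN_Cls_pn]

theorem clsLow (n : ℕ) (W : ℕ) (hW : 1 ≤ W) (ρ : ℝ) (h : CK K n * W ≤ ρ)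
    (c : InfinitePlace K → ℂ) (hc : ∀ v, c v ∈ KK v) (z0 : 𝓞 K) :
    ∃ S : Finset (𝓞 K), (∀ z ∈ S, (W : 𝓞 K) ∣ z - z0 ∧
      ∀ v : InfinitePlace K, ‖em v z - c v‖ ≤ ρ) ∧
      (ρ / W) ^ eK K ≤ CK K n ^ (eK K + 1) * (S.card : ℝ) := by
  have hW0 : (0 : ℝ) < W := by exact_mod_cast hW
  have hWO : ((W : ℕ) : 𝓞 K) ≠ 0 := Nat.cast_ne_zero.2 (by omega)
  have hCK := CK_pos K n
  obtain ⟨T, hT⟩ : ∃ T, T = ρ / (CK K n * W) := ⟨_, rfl⟩
  have hT1 : 1 ≤ T := by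
    rw [hT, le_div_iff₀ (by positivity), one_mul]
    exact h
  obtain ⟨S, hS1, hS2⟩ := lowI n (Ideal.span {(W : 𝓞 K)}) (W : 𝓞 K) (Ideal.mem_span_singleton_self _) hWO T hT1 c hc z0
  refine ⟨S, fun z hz => ⟨Ideal.mem_span_singleton.1 (hS1 z hz).1, fun v => ?_⟩, ?_⟩
  · have h1 := (hS1 z hz).2 v
    rw [CN_Cls_v] at h1
    have h2 : CK K n * T * (W : ℝ) = ρ := by
      rw [hT]
      field_simp
    rwa [h2] at h1
  · rw [CN_Cls_pn, absNorm_natCast, div_self (by positivity), mul_one] at hS2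
    have h1 : (ρ / W) ^ eK K = CK K n ^ eK K * T ^ eK K := by
      rw [← mul_pow, hT]
      congr 1
      field_simp
    rw [h1, pow_succ, mul_assoc]
    exact mul_le_mul_of_nonneg_left hS2 (by positivity)

theorem clsUp (n : ℕ) (W : ℕ) (hW : 1 ≤ W) (ρ : ℝ) (hρ : 0 < ρ) (z0 : 𝓞 K)
    (S : Finset (𝓞 K)) (h : ∀ z ∈ S, (W : 𝓞 K) ∣ z - z0 ∧
      ∀ v : InfinitePlace K, v (z : K) ≤ ρ) :
    (S.card : ℝ) ≤ CK K n * (1 + (ρ / W) ^ eK K) := by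
  have hWO : ((W : ℕ) : 𝓞 K) ≠ 0 := Nat.cast_ne_zero.2 (by omega)
  have hI : Ideal.span {((W : ℕ) : 𝓞 K)} ≠ ⊥ := by
    rw [Ne, Ideal.span_singleton_eq_bot]
    exact hWO
  have h1 := upI' n S (Ideal.span {(W : 𝓞 K)}) hI (fun _ => ρ) (fun _ => hρ) (fun _ => 0) z0 (fun z hz => by
    refine ⟨Ideal.mem_span_singleton.2 (h z hz).1, fun v => ?_⟩
    rw [sub_zero, norm_em]
    exact (h z hz).2 v)
  rw [pn_const, absNorm_natCast, ← div_pow] at h1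
  exact h1

theorem muUp {n : ℕ} (d W κ A B : ℕ) (o : Fin (n + 1)) (hW : 1 ≤ W) (hκ : 1 ≤ κ) (hA : 1 ≤ A)
    (hB1 : 1 ≤ B) (hB : κ * W ≤ A * B ^ d) (x : Vc n (𝓞 K)) (hx : x ∈ VBox K n B) :
    0 < ((MS d W κ A o x).card : ℝ) ∧
      ((MS d W κ A o x).card : ℝ) ≤ 2 * CK K n * ((A : ℝ) * (B : ℝ) ^ d / (κ * W)) ^ eK K := by
  have hW0 : (0 : ℝ) < W := by exact_mod_cast hW
  have hκ0 : (0 : ℝ) < κ := by exact_mod_cast hκ
  have hA0 : (0 : ℝ) < A := by exact_mod_cast hA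
  have hB0 : (0 : ℝ) < B := by exact_mod_cast hB1
  have hCK := CK_pos K n
  refine ⟨?_, ?_⟩
  · have h0 : (0 : 𝓞 K) ∈ MS d W κ A o x := by
      unfold MS
      rw [Finset.mem_filter]
      have hz : ((0 : 𝓞 K) : K) = 0 := map_zero (algebraMap (𝓞 K) K)
      refine ⟨zero_mem_OBox (mul_nonneg hA0.le (pow_nonneg (hs_nonneg _) _)), dvd_zero _, fun v => ?_⟩
      rw [hz, v_zero, mul_zero]
      exact mul_nonneg hA0.le (pow_nonneg (v_nonneg v _) _)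
    have h1 : 0 < (MS d W κ A o x).card := Finset.card_pos.2 ⟨0, h0⟩
    exact_mod_cast h1
  · have h1 := clsUp n W hW ((A : ℝ) * (B : ℝ) ^ d / κ) (by positivity) 0 (MS d W κ A o x) (fun z hz => by
      unfold MS at hz
      obtain ⟨-, hz1, hz2⟩ := Finset.mem_filter.1 hz
      rw [sub_zero]
      refine ⟨hz1, fun v => ?_⟩
      rw [le_div_iff₀ hκ0, mul_comm]
      refine (hz2 v).trans (mul_le_mul_of_nonneg_left ?_ hA0.le)
      exact pow_le_pow_left₀ (v_nonneg v _) (mem_VBox.1 hx o v) d)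
    rw [div_div] at h1
    have h2 : (1 : ℝ) ≤ (A : ℝ) * (B : ℝ) ^ d / (κ * W) := by
      rw [le_div_iff₀ (by positivity), one_mul]
      exact_mod_cast hB
    have h3 : (1 : ℝ) ≤ ((A : ℝ) * (B : ℝ) ^ d / (κ * W)) ^ eK K := one_le_pow₀ h2
    refine h1.trans ?_
    rw [mul_comm 2 (CK K n), mul_assoc]
    exact mul_le_mul_of_nonneg_left (by linarith) hCK.le

end Pool.Agent.Lib.MP_1ad228_ntN
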