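import Pool.Agent.Lib.MP_1ad228_ntN.CN_Count
import Pool.Agent.Lib.MP_1ad228_ntN.B_BadK
import Pool.Agent.Lib.MP_1ad228_ntN.CN_Cls
import Pool.Agent.Lib.MP_1ad228_ntN.GGf

/-!
JOB B_LowK.  Lower bound for the local prediction, with the local points which are not `H`-good subtracted. (Models: CN_Low.lean of this folder and Lib/MP_1ad228_ntF/B_Low.lean.)

PROOF.  As `low` in CN_Low.lean. `e = eK K`, `CC = CK K n`, `c1, C1` of `countLow`, `c = c1/(2 (2 CC)^r)`. Given `κ`, `w0 ≥ 1` with `C1/(w+1) ≤ c1/(4 κ^(r e))` for `w ≥ w0`. Given `w`, `B0` such that for `B ≥ B0`: `B ≥ 1`, `κ W ≤ c1 B`, `κ W ≤ B`,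
`C1 B^e ≤ (c1/4) V1`, `V1 = (B^(n+1)/(κ^r W^(n+1)))^e` (`n ≥ 1`). `countLow` with `H := B`: the set of not `B`-good vectors of `VBox K n B` is empty (`allGood`), so `smI * (c1/2) V1 ≤ #{x ∈ GG K B B q o | ∀ i, Loc ..}`.
A point of this set is either `H`-good, and then in `GG K B H q o`, or counted in `R = #{x ∈ GG K B B q o | ¬ HGood H x ∧ ∀ i, Loc ..}`. So `#{x ∈ GG K B H q o | ∀ i, Loc ..} ≥ smI * (c1/2) V1 - R`. Each term of `Ll` is at least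
`∏ 1/(2 CC (A B^(d i)/(κ W))^e) = ((κ W)^r/(A^r B^D))^e/(2 CC)^r` (`muUp`; `κ W ≤ B ≤ A B^(d i)`), so `Ll ≥ (B^(n+1)/(A^r B^D))^e * (c smI W^(er)/W^(e(n+1)) - ((κ W)^r)^e R/((2 CC)^r (B^(n+1))^e))`, and `(2 CC)^r ≥ 1` (if the bracket is negative the
bound with the factor `1/(2 CC)^r` dropped is weaker: `R ≥ 0`).
-/

namespace Pool.Agent.Lib.MP_1ad228_ntN

open NumberField Classical

set_option linter.unusedSectionVars false

variable {K : Type} [Field K] [NumberField K]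

private theorem B_LowK_alg (s b k u z a T c1 R P : ℝ) (hb : 0 < b) (hk : 0 < k)
    (hu : 0 < u) (hz : 0 < z) (ha : 0 < a) (hT : 1 ≤ T) (hR : 0 ≤ R)
    (h1 : s * (c1 / 2 * (b / (k * u))) ≤ P + R) :
    b / a * (c1 / (2 * T) * (s * z / u) - k * z * R / b) ≤ P * (k * z / (T * a)) := by
  have hT0 : 0 < T := lt_of_lt_of_le one_pos hT
  have hf : 0 ≤ b / a := by positivity
  have hf2 : 0 ≤ k * z / (T * a) := by positivity
  have h3 : k * z * R / (T * b) ≤ k * z * R / b := by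
    refine div_le_div_of_nonneg_left (by positivity) hb ?_
    nlinarith
  calc b / a * (c1 / (2 * T) * (s * z / u) - k * z * R / b) ≤
        b / a * (c1 / (2 * T) * (s * z / u) - k * z * R / (T * b)) :=
        mul_le_mul_of_nonneg_left (by linarith) hf
    _ = (s * (c1 / 2 * (b / (k * u))) - R) * (k * z / (T * a)) := by
        field_simp
    _ ≤ P * (k * z / (T * a)) := mul_le_mul_of_nonneg_right (by linarith) hf2

private theorem B_LowK_cls (b k u c1 C1 w Be : ℝ) (hb : 0 < b) (hk : 0 < k) (hu : 0 < u)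
    (hc1 : 0 < c1) (hw : 0 < w) (h1 : 4 * C1 * k / c1 ≤ w) (h2 : C1 * Be * (4 * (k * u)) ≤ c1 * b) :
    c1 / 2 * (b / (k * u)) ≤ c1 * (b / (k * u)) - C1 * (b / u / w + Be) := by
  have h3 : C1 * (b / u / w) ≤ c1 / 4 * (b / (k * u)) := by
    rw [div_le_iff₀ hc1] at h1
    have h4 : C1 * (b / u / w) = (4 * C1 * k) * (b / (4 * (k * u) * w)) := by
      field_simp
    have h5 : c1 / 4 * (b / (k * u)) = (w * c1) * (b / (4 * (k * u) * w)) := by
      field_simp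
    rw [h4, h5]
    exact mul_le_mul_of_nonneg_right h1 (by positivity)
  have h6 : C1 * Be ≤ c1 / 4 * (b / (k * u)) := by
    have h7 : c1 / 4 * (b / (k * u)) = c1 * b / (4 * (k * u)) := by
      field_simp
    rw [h7, le_div_iff₀ (by positivity)]
    exact h2
  linarith

variable (K) in
theorem lowB {r : ℕ} (hr : 1 ≤ r) (n : ℕ) (hn : r + 2 ≤ n) (d : Fin r → ℕ) (hd : ∀ i, 1 ≤ d i)
    (ρ : ℝ) (hρ : 0 < ρ) (hρ1 : ρ ≤ 1) (q : ℕ) (hq : 1 ≤ ρ * q) :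
    ∃ c : ℝ, 0 < c ∧ ∀ κ : ℕ, 1 ≤ κ → ∃ w0 : ℕ, ∀ w : ℕ, w0 ≤ w → ∃ B0 : ℕ, ∀ B : ℕ, B0 ≤ B →
      ∀ H A : ℕ, 1 ≤ A → ∀ F ∈ TBox K n d A, ∀ o : Fin (n + 1),
        (∀ v : InfinitePlace K, ∃ S : Fin r → Fin (n + 1), Function.Injective S ∧
          Rob v o S ρ (scF v A F)) →
        ((B : ℝ) ^ (n + 1) / ((A : ℝ) ^ r * (B : ℝ) ^ (∑ i, d i))) ^ eK K *
          (c * ((smI (WI K w) F : ℝ) * (WW w : ℝ) ^ (eK K * r) /
            (WW w : ℝ) ^ (eK K * (n + 1))) -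
            (((κ : ℝ) * WW w) ^ r) ^ eK K * (((GG K B B q o).filter fun x => ¬ HGood H x ∧
              ∀ i, Loc (WW w) κ A o (F i) x).card : ℝ) / ((B : ℝ) ^ (n + 1)) ^ eK K) ≤
          Ll B H q o (WW w) κ A F := by
  obtain ⟨c1, C1, hc1, hc11, hC1, hcnt⟩ := countLow (n := n) K d hr (by omega) (by omega) hd ρ hρ hρ1
  have hCC := CK_one_le K n
  have hCCp := CK_pos K n
  have he : 1 ≤ eK K := eK_pos
  refine ⟨c1 / (2 * (2 * CK K n) ^ r), by positivity, ?_⟩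
  intro κ hκ
  have hκp : (0 : ℝ) < κ := by exact_mod_cast hκ
  refine ⟨max 1 ⌈4 * C1 * ((κ : ℝ) ^ r) ^ eK K / c1⌉₊, ?_⟩
  intro w hw
  have hw1 : 1 ≤ w := (le_max_left _ _).trans hw
  have hw2 : 4 * C1 * ((κ : ℝ) ^ r) ^ eK K / c1 ≤ (w : ℝ) :=
    (Nat.le_ceil _).trans (by exact_mod_cast (le_max_right _ _).trans hw)
  have hwp : (0 : ℝ) < w := by exact_mod_cast hw1
  have hWn : 1 ≤ WW w := Pool.Agent.Lib.MP_219881_nt.WWpos w
  have hWp : (0 : ℝ) < (WW w : ℝ) := by exact_mod_cast hWn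
  refine ⟨max (max 1 ⌈(κ : ℝ) * (WW w : ℝ) / c1⌉₊)
    ⌈4 * C1 * ((κ : ℝ) ^ r * (WW w : ℝ) ^ (n + 1)) ^ eK K / c1⌉₊, ?_⟩
  intro B hB H A hA F hF o hS
  have hB1 : 1 ≤ B := le_trans (le_trans (le_max_left _ _) (le_max_left _ _)) hB
  have hg3 : (κ : ℝ) * (WW w : ℝ) / c1 ≤ (B : ℝ) :=
    (Nat.le_ceil _).trans (by
      exact_mod_cast le_trans (le_trans (le_max_right _ _) (le_max_left _ _)) hB)
  have hg4 : 4 * C1 * ((κ : ℝ) ^ r * (WW w : ℝ) ^ (n + 1)) ^ eK K / c1 ≤ (B : ℝ) :=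
    (Nat.le_ceil _).trans (by
      exact_mod_cast le_trans (le_max_right _ _) hB)
  have hB1' : (1 : ℝ) ≤ B := by exact_mod_cast hB1
  have hBp : (0 : ℝ) < B := by exact_mod_cast hB1
  have hAp : (0 : ℝ) < A := by exact_mod_cast hA
  have hA1 : (1 : ℝ) ≤ A := by exact_mod_cast hA
  have hKW : (κ : ℝ) * (WW w : ℝ) ≤ c1 * B := by
    rw [div_le_iff₀ hc1] at hg3
    linarith
  have hKWA : ∀ i, κ * WW w ≤ A * B ^ d i := by
    intro i
    have h1 : (κ : ℝ) * (WW w : ℝ) ≤ A * (B : ℝ) ^ d i := by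
      have h2 : c1 * B ≤ 1 * B := mul_le_mul_of_nonneg_right hc11 hBp.le
      have h5 : (B : ℝ) ≤ (B : ℝ) ^ d i := by
        calc (B : ℝ) = (B : ℝ) ^ 1 := (pow_one _).symm
          _ ≤ (B : ℝ) ^ d i := pow_le_pow_right₀ hB1' (hd i)
      have h6 : (B : ℝ) ^ d i ≤ A * (B : ℝ) ^ d i := le_mul_of_one_le_left (by positivity) hA1
      linarith
    exact_mod_cast h1
  have hcount := hcnt o q κ w B B A hq hκ hw1 hB1 hKW hA F hF hS
  have hall : (((VBox K n B).filter fun x => ¬ HGood B x).card : ℝ) = 0 := by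
    have h0 : ((VBox K n B).filter fun x => ¬ HGood B x) = ∅ := by
      rw [Finset.filter_eq_empty_iff]
      intro x hx hn'
      exact hn' (allGood hB1 x hx)
    rw [h0, Finset.card_empty, Nat.cast_zero]
  rw [hall, add_zero] at hcount
  have hsplit : (((GG K B B q o).filter (fun x => ∀ i, Loc (WW w) κ A o (F i) x)).card : ℝ) ≤
      (((GG K B H q o).filter (fun x => ∀ i, Loc (WW w) κ A o (F i) x)).card : ℝ) +
        (((GG K B B q o).filter fun x => ¬ HGood H x ∧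
              ∀ i, Loc (WW w) κ A o (F i) x).card : ℝ) := by
    have h0 : ((GG K B B q o).filter (fun x => ∀ i, Loc (WW w) κ A o (F i) x)) ⊆
        ((GG K B H q o).filter (fun x => ∀ i, Loc (WW w) κ A o (F i) x)) ∪
        ((GG K B B q o).filter fun x => ¬ HGood H x ∧
              ∀ i, Loc (WW w) κ A o (F i) x) := by
      intro x hx
      obtain ⟨hx1, hx2⟩ := Finset.mem_filter.mp hx
      rw [Finset.mem_union]
      by_cases hH : HGood H x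
      · left
        refine Finset.mem_filter.mpr ⟨?_, hx2⟩
        unfold GG at hx1 ⊢
        obtain ⟨hx3, hx4, hx5, _⟩ := Finset.mem_filter.mp hx1
        exact Finset.mem_filter.mpr ⟨hx3, hx4, hx5, hH⟩
      · right
        exact Finset.mem_filter.mpr ⟨hx1, hH, hx2⟩
    have h1 := (Finset.card_le_card h0).trans (Finset.card_union_le _ _)
    exact_mod_cast h1
  have hcount2 := hcount.trans hsplit
  generalize (smI (WI K w) F : ℕ) = s at hcount2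
  have hL0 : (((GG K B H q o).filter
      (fun x => ∀ i, Loc (WW w) κ A o (F i) x)).card : ℝ) *
      (((κ : ℝ) ^ r) ^ eK K * ((WW w : ℝ) ^ r) ^ eK K / ((2 * CK K n) ^ r *
        ((A : ℝ) ^ r * (B : ℝ) ^ (∑ i, d i)) ^ eK K)) ≤
        Ll B H q o (WW w) κ A F := by
    unfold Ll
    rw [← nsmul_eq_mul]
    refine Finset.card_nsmul_le_sum _ _ _ ?_
    intro x hx
    have hxV : x ∈ VBox K n B := (Finset.mem_filter.mp (Finset.mem_filter.mp hx).1).1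
    have e1 : ((κ : ℝ) ^ r) ^ eK K * ((WW w : ℝ) ^ r) ^ eK K / ((2 * CK K n) ^ r *
        ((A : ℝ) ^ r * (B : ℝ) ^ (∑ i, d i)) ^ eK K) =
        ∏ i : Fin r, (1 / (2 * CK K n * ((A : ℝ) * (B : ℝ) ^ d i / (κ * (WW w : ℝ))) ^ eK K)) := by
      have e2 : ∏ i : Fin r, (2 * CK K n * ((A : ℝ) * (B : ℝ) ^ d i / (κ * (WW w : ℝ))) ^ eK K) =
          (2 * CK K n) ^ r * ((A : ℝ) ^ r * (B : ℝ) ^ (∑ i, d i) / ((κ : ℝ) ^ r * (WW w : ℝ) ^ r)) ^
            eK K := by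
        have e3 : ∏ i : Fin r, ((A : ℝ) * (B : ℝ) ^ d i / (κ * (WW w : ℝ))) =
            (A : ℝ) ^ r * (B : ℝ) ^ (∑ i, d i) / ((κ : ℝ) ^ r * (WW w : ℝ) ^ r) := by
          rw [Finset.prod_div_distrib, Finset.prod_mul_distrib, Finset.prod_const,
            Finset.prod_const, Finset.card_univ, Fintype.card_fin, Finset.prod_pow_eq_pow_sum,
            mul_pow (κ : ℝ)]
        rw [Finset.prod_mul_distrib, Finset.prod_pow, e3, Finset.prod_const,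
          Finset.card_univ, Fintype.card_fin]
      rw [Finset.prod_div_distrib, Finset.prod_const_one, e2, div_pow, mul_pow ((κ : ℝ) ^ r)]
      have p1 : ((κ : ℝ) ^ r) ^ eK K ≠ 0 := by positivity
      have p2 : ((WW w : ℝ) ^ r) ^ eK K ≠ 0 := by positivity
      have p3 : ((A : ℝ) ^ r * (B : ℝ) ^ (∑ i, d i)) ^ eK K ≠ 0 := by positivity
      have p4 : (2 * CK K n) ^ r ≠ 0 := by positivity
      generalize ((κ : ℝ) ^ r) ^ eK K = u1 at p1
      generalize ((WW w : ℝ) ^ r) ^ eK K = u2 at p2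
      generalize ((A : ℝ) ^ r * (B : ℝ) ^ (∑ i, d i)) ^ eK K = u3 at p3
      generalize (2 * CK K n) ^ r = u4 at p4
      field_simp
    rw [e1]
    refine Finset.prod_le_prod (fun i _ => by positivity) fun i _ => ?_
    obtain ⟨h1, h2⟩ := muUp (d i) (WW w) κ A B o hWn hκ hA hB1 (hKWA i) x hxV
    exact one_div_le_one_div_of_le h1 h2
  refine le_trans ?_ hL0
  generalize (((GG K B H q o).filter
      (fun x => ∀ i, Loc (WW w) κ A o (F i) x)).card : ℝ) = P at hcount2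
  have hR0 : (0 : ℝ) ≤ (((GG K B B q o).filter fun x => ¬ HGood H x ∧
              ∀ i, Loc (WW w) κ A o (F i) x).card : ℝ) := Nat.cast_nonneg _
  generalize (((GG K B B q o).filter fun x => ¬ HGood H x ∧
              ∀ i, Loc (WW w) κ A o (F i) x).card : ℝ) = R at hcount2 hR0
  have hb : (0 : ℝ) < ((B : ℝ) ^ (n + 1)) ^ eK K := by positivity
  have hk : (0 : ℝ) < ((κ : ℝ) ^ r) ^ eK K := by positivity
  have hu : (0 : ℝ) < ((WW w : ℝ) ^ (n + 1)) ^ eK K := by positivity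
  have hz : (0 : ℝ) < ((WW w : ℝ) ^ r) ^ eK K := by positivity
  have ha : (0 : ℝ) < ((A : ℝ) ^ r * (B : ℝ) ^ (∑ i, d i)) ^ eK K := by positivity
  have hT : (1 : ℝ) ≤ (2 * CK K n) ^ r := one_le_pow₀ (by linarith)
  have hkey : C1 * (B : ℝ) ^ eK K * (4 * (((κ : ℝ) ^ r) ^ eK K * ((WW w : ℝ) ^ (n + 1)) ^ eK K)) ≤
      c1 * ((B : ℝ) ^ (n + 1)) ^ eK K := by
    rw [div_le_iff₀ hc1, mul_pow ((κ : ℝ) ^ r)] at hg4
    have h4 : (B : ℝ) ≤ ((B : ℝ) ^ n) ^ eK K := by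
      rw [← pow_mul]
      calc (B : ℝ) = (B : ℝ) ^ 1 := (pow_one _).symm
        _ ≤ (B : ℝ) ^ (n * eK K) := pow_le_pow_right₀ hB1' (Nat.mul_pos (by omega) he)
    have h5 : ((B : ℝ) ^ (n + 1)) ^ eK K = ((B : ℝ) ^ n) ^ eK K * (B : ℝ) ^ eK K := by
      rw [← mul_pow, ← pow_succ]
    have h6 : (B : ℝ) * c1 ≤ ((B : ℝ) ^ n) ^ eK K * c1 := mul_le_mul_of_nonneg_right h4 hc1.le
    have h7 : (0 : ℝ) ≤ (B : ℝ) ^ eK K := by positivity
    rw [h5]
    have h8 := mul_le_mul_of_nonneg_right (hg4.trans h6) h7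
    linarith
  have hcls := B_LowK_cls _ _ _ c1 C1 ((w : ℝ) + 1) ((B : ℝ) ^ eK K) hb hk hu hc1 (by positivity)
    (hw2.trans (by linarith)) hkey
  have hs0 : (0 : ℝ) ≤ s := Nat.cast_nonneg _
  have e3 : ((B : ℝ) ^ (n + 1) / ((κ : ℝ) ^ r * (WW w : ℝ) ^ (n + 1))) ^ eK K =
      ((B : ℝ) ^ (n + 1)) ^ eK K / (((κ : ℝ) ^ r) ^ eK K * ((WW w : ℝ) ^ (n + 1)) ^ eK K) := by
    rw [div_pow, mul_pow ((κ : ℝ) ^ r)]
  have e4 : ((B : ℝ) / (WW w : ℝ)) ^ (eK K * (n + 1)) =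
      ((B : ℝ) ^ (n + 1)) ^ eK K / ((WW w : ℝ) ^ (n + 1)) ^ eK K := by
    rw [div_pow, mul_comm (eK K), pow_mul, pow_mul]
  rw [e3, e4] at hcount2
  have e5 : ((B : ℝ) ^ (n + 1) / ((A : ℝ) ^ r * (B : ℝ) ^ (∑ i, d i))) ^ eK K =
      ((B : ℝ) ^ (n + 1)) ^ eK K / ((A : ℝ) ^ r * (B : ℝ) ^ (∑ i, d i)) ^ eK K := div_pow _ _ _
  have e6 : (WW w : ℝ) ^ (eK K * r) = ((WW w : ℝ) ^ r) ^ eK K := by
    rw [mul_comm, pow_mul]
  have e7 : (WW w : ℝ) ^ (eK K * (n + 1)) = ((WW w : ℝ) ^ (n + 1)) ^ eK K := by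
    rw [mul_comm, pow_mul]
  have e8 : (((κ : ℝ) * WW w) ^ r) ^ eK K = ((κ : ℝ) ^ r) ^ eK K * ((WW w : ℝ) ^ r) ^ eK K := by
    rw [mul_pow, mul_pow ((κ : ℝ) ^ r)]
  rw [e5, e6, e7, e8]
  refine B_LowK_alg s _ _ _ _ _ _ c1 R P hb hk hu hz ha hT hR0 ?_
  have h1 := mul_le_mul_of_nonneg_left hcls hs0
  linarith

end Pool.Agent.Lib.MP_1ad228_ntN
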