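import Pool.Agent.Lib.MP_1ad228_ntN.LL

/-!
JOB Cover.  A coset of a subgroup of the tensors in a large box; the two instances which are used.
(Models: Lib/MP_1ad228_ntF/Cover.lean and CoverC.lean.)

PROOF.  `cover`: put `N = (eK K) * (n+1)^d`, `h = X / CK K n > 0`. Coordinates of a tensor `a`: the integers
`co (a s) i`. For `a ∈ Box K n d (M*X)` : `|co (a s) i| ≤ CK * (M * X)` (`co_low`). Cell of `a`: the family
`⌊(co (a s) i : ℝ) / h⌋`, `s : Fin d → Fin (n+1)`, `i : Fin (eK K)`; it lies in the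
`Fintype.piFinset` of `Finset.Icc ⌊-CK M X/h⌋ ⌊CK M X/h⌋` (`card_floor` of NB_Up with `b = 0`,
`ρ = CK*M*X`, `s = h`: at most `2 CK M X/h + 2 = 2 CK^2 M + 2` values each). So at most `(2 CK^2 M + 2)^N` cells, which is the constant `C`.
Two tensors of the coset in the same cell: `|co (a s) i - co (b s) i| ≤ h` (`floor_close`), so by `co_up`
`v (a s - b s) ≤ CK * h = X`: the difference is in `S` and in `Box K n d X`; with `b` fixed the map `a ↦ a - b` is
injective. (`Finset.card_le_mul_card_image` or `Finset.card_eq_sum_card_fiberwise`.)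
`cover1`: `S = {a | ev a x = 0}`; if the set is empty nothing to prove, otherwise `a0` in it and `ev a x = m` iff
`ev (a - a0) x = 0`. `cover2` the same.
-/

namespace Pool.Agent.Lib.MP_1ad228_ntN

open NumberField Classical
open Pool.Agent.Lib.MP_219881_nt (mn)

set_option linter.unusedSectionVars false

variable {K : Type} [Field K] [NumberField K]

theorem cover (n d : ℕ) (M : ℝ) (hM : 1 ≤ M) : ∃ C : ℝ, 1 ≤ C ∧
    ∀ (S : AddSubgroup (Ten n d (𝓞 K))) (a0 : Ten n d (𝓞 K)) (X : ℝ), 1 ≤ X →
    (((Box K n d (M * X)).filter fun a => a - a0 ∈ S).card : ℝ) ≤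
      C * ((Box K n d X).filter fun a => a ∈ S).card := by
  have hC1 := CK_one_le K n
  set C0 := CK K n with hC0
  have hC0p : 0 < C0 := by linarith
  have hbase : (1 : ℝ) ≤ 2 * (C0 ^ 2 * M) + 2 := by
    have : 0 ≤ C0 ^ 2 * M := by positivity
    linarith
  refine ⟨((2 * (C0 ^ 2 * M) + 2) ^ eK K) ^ (n + 1) ^ d, one_le_pow₀ (one_le_pow₀ hbase), ?_⟩
  intro S a0 X hX
  have hX0 : 0 < X := by linarith
  set h : ℝ := X / C0 with hh0
  have hh : 0 < h := by positivity
  set ρ : ℝ := C0 * (M * X) with hρ0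
  have hρ : 0 ≤ ρ := by positivity
  set I : Finset ℤ := Finset.Icc (⌊(0 - ρ) / h⌋) (⌊(0 + ρ) / h⌋) with hI0
  have hI : (I.card : ℝ) ≤ 2 * (C0 ^ 2 * M) + 2 := by
    refine (card_floor hh hρ).trans (le_of_eq ?_)
    rw [hρ0, hh0]
    field_simp
  set c : Ten n d (𝓞 K) → ((Fin d → Fin (n + 1)) → Fin (eK K) → ℤ) :=
    fun a s i => ⌊(co (a s) i : ℝ) / h⌋ with hc
  set T : Finset ((Fin d → Fin (n + 1)) → Fin (eK K) → ℤ) :=
    Fintype.piFinset fun _ => Fintype.piFinset fun _ => I with hT0
  have hTc : T.card = (I.card ^ eK K) ^ (n + 1) ^ d := by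
    rw [hT0]
    simp [Fintype.card_piFinset]
  have hT : (T.card : ℝ) ≤ ((2 * (C0 ^ 2 * M) + 2) ^ eK K) ^ (n + 1) ^ d := by
    rw [hTc]
    push_cast
    exact pow_le_pow_left₀ (by positivity) (pow_le_pow_left₀ (by positivity) hI _) _
  have key : ((Box K n d (M * X)).filter fun a => a - a0 ∈ S).card ≤
      ((Box K n d X).filter fun a => a ∈ S).card * T.card := by
    refine Finset.card_le_mul_card_image_of_maps_to (f := c) ?_ _ ?_
    · intro a ha
      have h1 := mem_Box.mp (Finset.mem_filter.mp ha).1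
      rw [hT0, Fintype.mem_piFinset]
      intro s
      rw [Fintype.mem_piFinset]
      intro i
      refine floor_mem hh ?_
      rw [sub_zero]
      exact co_low n (a s) (M * X) (h1 s) i
    · intro t _
      set F := (((Box K n d (M * X)).filter fun a => a - a0 ∈ S).filter fun a => c a = t) with hF
      rcases F.eq_empty_or_nonempty with he | ⟨a1, ha1⟩
      · rw [he]
        exact Nat.zero_le _
      · refine Finset.card_le_card_of_injOn (fun a => a - a1) ?_ ?_
        · intro a ha
          have ha' : a ∈ F := ha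
          rw [hF, Finset.mem_filter, Finset.mem_filter] at ha' ha1
          simp only [Finset.coe_filter]
          refine ⟨?_, ?_⟩
          · rw [mem_Box]
            intro s v
            have h3 : ∀ i, |(co ((a - a1) s) i : ℝ)| ≤ h := by
              intro i
              have h4 : c a s i = c a1 s i := by rw [ha'.2, ha1.2]
              have h5 := floor_close hh h4
              rw [Pi.sub_apply, co_sub, Int.cast_sub]
              exact h5
            refine (co_up n ((a - a1) s) h h3 v).trans (le_of_eq ?_)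
            rw [← hC0, hh0]
            field_simp
          · have h1 := S.sub_mem ha'.1.2 ha1.1.2
            have h2 : a - a0 - (a1 - a0) = a - a1 := by abel
            rw [h2] at h1
            exact h1
        · intro a _ b _ hab
          exact sub_left_injective hab
  have key' : (((Box K n d (M * X)).filter fun a => a - a0 ∈ S).card : ℝ) ≤
      (((Box K n d X).filter fun a => a ∈ S).card : ℝ) * (T.card : ℝ) := by exact_mod_cast key
  refine key'.trans ?_
  rw [mul_comm]
  exact mul_le_mul_of_nonneg_right hT (Nat.cast_nonneg _)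

private def Cover_S1 {n d : ℕ} (x : Vc n (𝓞 K)) : AddSubgroup (Ten n d (𝓞 K)) where
  carrier := {a | ev a x = 0}
  zero_mem' := ev_zero x
  add_mem' := by
    intro a b ha hb
    have ha' : ev a x = 0 := ha
    have hb' : ev b x = 0 := hb
    show ev (a + b) x = 0
    rw [ev_add, ha', hb', add_zero]
  neg_mem' := by
    intro a ha
    have ha' : ev a x = 0 := ha
    show ev (-a) x = 0
    rw [ev_neg, ha', neg_zero]

theorem cover1 (n d : ℕ) (M : ℝ) (hM : 1 ≤ M) : ∃ C : ℝ, 1 ≤ C ∧
    ∀ (x : Vc n (𝓞 K)) (m : 𝓞 K) (X : ℝ), 1 ≤ X →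
    (((Box K n d (M * X)).filter fun a => ev a x = m).card : ℝ) ≤ C * n1 d x X := by
  obtain ⟨C, hC, hcov⟩ := cover (K := K) n d M hM
  refine ⟨C, hC, fun x m X hX => ?_⟩
  by_cases hne : ((Box K n d (M * X)).filter fun a => ev a x = m).Nonempty
  · obtain ⟨a0, ha0⟩ := hne
    have h0 : ev a0 x = m := (Finset.mem_filter.mp ha0).2
    refine (Nat.cast_le.2 (Finset.card_le_card ?_)).trans ((hcov (Cover_S1 x) a0 X hX).trans
      (mul_le_mul_of_nonneg_left (Nat.cast_le.2 (Finset.card_le_card ?_)) (by linarith)))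
    · intro a ha
      rw [Finset.mem_filter] at ha ⊢
      refine ⟨ha.1, ?_⟩
      show ev (a - a0) x = 0
      rw [ev_sub, ha.2, h0, sub_self]
    · intro a ha
      rw [Finset.mem_filter] at ha ⊢
      exact ha
  · rw [Finset.not_nonempty_iff_eq_empty] at hne
    rw [hne, Finset.card_empty, Nat.cast_zero]
    have : (0 : ℝ) ≤ n1 d x X := Nat.cast_nonneg _
    exact mul_nonneg (by linarith) this

theorem cover2 (n d : ℕ) (M : ℝ) (hM : 1 ≤ M) : ∃ C : ℝ, 1 ≤ C ∧
    ∀ (x y : Vc n (𝓞 K)) (m m' : 𝓞 K) (X : ℝ), 1 ≤ X →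
    (((Box K n d (M * X)).filter fun a => ev a x = m ∧ ev a y = m').card : ℝ) ≤
      C * n2 d x y X := by
  obtain ⟨C, hC, hcov⟩ := cover (K := K) n d M hM
  refine ⟨C, hC, fun x y m m' X hX => ?_⟩
  by_cases hne : ((Box K n d (M * X)).filter fun a => ev a x = m ∧ ev a y = m').Nonempty
  · obtain ⟨a0, ha0⟩ := hne
    have h0 : ev a0 x = m ∧ ev a0 y = m' := (Finset.mem_filter.mp ha0).2
    refine (Nat.cast_le.2 (Finset.card_le_card ?_)).trans
      ((hcov (Cover_S1 x ⊓ Cover_S1 y) a0 X hX).trans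
      (mul_le_mul_of_nonneg_left (Nat.cast_le.2 (Finset.card_le_card ?_)) (by linarith)))
    · intro a ha
      rw [Finset.mem_filter] at ha ⊢
      refine ⟨ha.1, ?_, ?_⟩
      · show ev (a - a0) x = 0
        rw [ev_sub, ha.2.1, h0.1, sub_self]
      · show ev (a - a0) y = 0
        rw [ev_sub, ha.2.2, h0.2, sub_self]
    · intro a ha
      rw [Finset.mem_filter] at ha ⊢
      exact ha
  · rw [Finset.not_nonempty_iff_eq_empty] at hne
    rw [hne, Finset.card_empty, Nat.cast_zero]
    have : (0 : ℝ) ≤ n2 d x y X := Nat.cast_nonneg _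
    exact mul_nonneg (by linarith) this

end Pool.Agent.Lib.MP_1ad228_ntN
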