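import Pool.Agent.Lib.MP_1ad228_ntN.LL

/-!
JOB Trans.  Disjoint translates (pigeonhole).  (Model with proof: Lib/MP_1ad228_ntF/Trans.lean.)

PROOF.  `trans1`: for `v ∈ S` choose `a_v ∈ Box K n d X` with value `v`; the translates
`a_v + {c ∈ Box K n d X | ev c x = 0}` are in `Box K n d (2 * X)` (`v_add_le`) and disjoint for different `v` (values
at `x`). `trans2` the same with pairs. `boxTwo`: `card_Box`, `OBox_up` with `2 A ≥ 1`:
`card ≤ (CK * (2A)^e)^((n+1)^d)`.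
-/

namespace Pool.Agent.Lib.MP_1ad228_ntN

open NumberField Classical
open Pool.Agent.Lib.MP_219881_nt (mn)

set_option linter.unusedSectionVars false

variable {K : Type} [Field K] [NumberField K]

private theorem Trans_add_mem {n d : ℕ} {X : ℝ} {a c : Ten n d (𝓞 K)} (ha : a ∈ Box K n d X)
    (hc : c ∈ Box K n d X) : a + c ∈ Box K n d (2 * X) := by
  rw [mem_Box] at ha hc ⊢
  intro s v
  have h1 := ha s v
  have h2 := hc s v
  have h3 : (((a + c) s : 𝓞 K) : K) = (a s : K) + (c s : K) :=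
    map_add (algebraMap (𝓞 K) K) (a s) (c s)
  rw [h3]
  exact (v_add_le v _ _).trans (by linarith)

theorem trans1 {n : ℕ} (d : ℕ) (S : Finset (𝓞 K)) (x : Vc n (𝓞 K)) (X : ℝ)
    (h : ∀ v ∈ S, ∃ a ∈ Box K n d X, ev a x = v) :
    S.card * n1 d x X ≤ (Box K n d (2 * X)).card := by
  choose! t ht using h
  rw [n1, ← Finset.card_product]
  apply Finset.card_le_card_of_injOn (fun p : 𝓞 K × Ten n d (𝓞 K) => t p.1 + p.2)
  · rintro ⟨v, c⟩ hp
    rw [Finset.mem_coe, Finset.mem_product, Finset.mem_filter] at hp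
    exact Finset.mem_coe.mpr (Trans_add_mem (ht v hp.1).1 hp.2.1)
  · rintro ⟨v, c⟩ hp ⟨v', c'⟩ hp' heq
    rw [Finset.mem_coe, Finset.mem_product, Finset.mem_filter] at hp hp'
    have h1 : t v + c = t v' + c' := heq
    have h2 : ev (t v + c) x = v := by
      rw [ev_add, (ht v hp.1).2, hp.2.2, add_zero]
    have h3 : ev (t v' + c') x = v' := by
      rw [ev_add, (ht v' hp'.1).2, hp'.2.2, add_zero]
    have h4 : v = v' := by rw [← h2, ← h3, h1]
    subst h4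
    have h5 : c = c' := add_left_cancel h1
    rw [h5]

theorem trans2 {n : ℕ} (d : ℕ) (S : Finset (𝓞 K × 𝓞 K)) (x y : Vc n (𝓞 K)) (X : ℝ)
    (h : ∀ v ∈ S, ∃ a ∈ Box K n d X, ev a x = v.1 ∧ ev a y = v.2) :
    S.card * n2 d x y X ≤ (Box K n d (2 * X)).card := by
  choose! t ht using h
  rw [n2, ← Finset.card_product]
  apply Finset.card_le_card_of_injOn (fun p : (𝓞 K × 𝓞 K) × Ten n d (𝓞 K) => t p.1 + p.2)
  · rintro ⟨v, c⟩ hp
    rw [Finset.mem_coe, Finset.mem_product, Finset.mem_filter] at hp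
    exact Finset.mem_coe.mpr (Trans_add_mem (ht v hp.1).1 hp.2.1)
  · rintro ⟨v, c⟩ hp ⟨v', c'⟩ hp' heq
    rw [Finset.mem_coe, Finset.mem_product, Finset.mem_filter] at hp hp'
    have h1 : t v + c = t v' + c' := heq
    have h2 : ev (t v + c) x = v.1 := by
      rw [ev_add, (ht v hp.1).2.1, hp.2.2.1, add_zero]
    have h3 : ev (t v' + c') x = v'.1 := by
      rw [ev_add, (ht v' hp'.1).2.1, hp'.2.2.1, add_zero]
    have h6 : ev (t v + c) y = v.2 := by
      rw [ev_add, (ht v hp.1).2.2, hp.2.2.2, add_zero]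
    have h7 : ev (t v' + c') y = v'.2 := by
      rw [ev_add, (ht v' hp'.1).2.2, hp'.2.2.2, add_zero]
    have h4 : v = v' := by
      apply Prod.ext
      · rw [← h2, ← h3, h1]
      · rw [← h6, ← h7, h1]
    subst h4
    have h5 : c = c' := add_left_cancel h1
    rw [h5]

variable (K) in
theorem boxTwo (n d : ℕ) : ∃ C : ℝ, 1 ≤ C ∧ ∀ A : ℕ, 1 ≤ A →
    ((Box K n d (2 * A)).card : ℝ) ≤ C * (A : ℝ) ^ (eK K * (n + 1) ^ d) := by
  have hC : (1 : ℝ) ≤ CK K n := CK_one_le K n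
  have h2 : (1 : ℝ) ≤ 2 ^ eK K := one_le_pow₀ (by norm_num)
  refine ⟨(CK K n * 2 ^ eK K) ^ (n + 1) ^ d, one_le_pow₀ (one_le_mul_of_one_le_of_one_le hC h2), fun A hA => ?_⟩
  have hA' : (1 : ℝ) ≤ A := by exact_mod_cast hA
  rw [card_Box]
  push_cast
  have h3 := OBox_up K n (X := 2 * (A : ℝ)) (by linarith)
  calc ((OBox K (2 * (A : ℝ))).card : ℝ) ^ (n + 1) ^ d
      ≤ (CK K n * (2 * (A : ℝ)) ^ eK K) ^ (n + 1) ^ d := pow_le_pow_left₀ (Nat.cast_nonneg _) h3 _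
    _ = (CK K n * 2 ^ eK K) ^ (n + 1) ^ d * (A : ℝ) ^ (eK K * (n + 1) ^ d) := by
        rw [mul_pow 2 (A : ℝ), ← mul_assoc, mul_pow (CK K n * 2 ^ eK K), ← pow_mul]

end Pool.Agent.Lib.MP_1ad228_ntN
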