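import Pool.Agent.Lib.MP_1ad228_ntN.Vals
import Pool.Agent.Lib.MP_1ad228_ntN.Trans
import Pool.Agent.Lib.MP_1ad228_ntN.Pre

/-!
JOB N1.  Upper bound for the number of tensors vanishing at one test point.
(Model: Lib/MP_1ad228_ntF/N1.lean)

PROOF.  `P = A B^d/(2 q^d)`, `e = eK K`. Let `C2` be the constant of `boxTwo`. If `P ≥ 1`: `S = OBox K P`,
`P^e ≤ CK * #S` (`OBox_low`); for every `m ∈ S` there is a tensor with value `m` at `x` (`val1`, `GG_uni`), so by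
`pre1` one with all `v(.) ≤ P q^d/B^d + d n (n+1)^d CK H ≤ A/2 + A/2 = A` when `2 d n (n+1)^d CK H ≤ A`.
`trans1` (with `X = A`) and `boxTwo`: `#S * n1 d x A ≤ C2 A^(e (n+1)^d)`; hence
`n1 ≤ C2 CK A^(e (n+1)^d) / P^e = C2 CK (2 q^d)^e A^(...) / (A B^d)^e`.
If `P < 1`: `A B^d < 2 q^d`, `n1 ≤ #(Box K n d A) ≤ #(Box K n d (2A)) ≤ C2 A^(...)` and `1 ≤ (2 q^d)^e / (A B^d)^e`.
-/

namespace Pool.Agent.Lib.MP_1ad228_ntN

open NumberField Classical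
open Pool.Agent.Lib.MP_219881_nt (mn)

set_option linter.unusedSectionVars false

variable {K : Type} [Field K] [NumberField K]

theorem N1 (n d q : ℕ) (hq : 1 ≤ q) : ∃ C : ℝ, 1 ≤ C ∧
    ∀ (B H A : ℕ) (o : Fin (n + 1)), 1 ≤ B → 1 ≤ A → C * H ≤ A → ∀ x ∈ GG K B H q o,
    (n1 d x A : ℝ) ≤ C * (A : ℝ) ^ (eK K * (n + 1) ^ d) / ((A : ℝ) * (B : ℝ) ^ d) ^ eK K := by
  obtain ⟨C2, hC2, hbox⟩ := boxTwo K n d
  have hCK : (1 : ℝ) ≤ CK K n := CK_one_le K n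
  have hq' : (1 : ℝ) ≤ q := by exact_mod_cast hq
  obtain ⟨c1, hc1⟩ : ∃ c1 : ℝ, c1 = (d * n * (n + 1) ^ d : ℝ) * CK K n := ⟨_, rfl⟩
  have hc10 : 0 ≤ c1 := by
    rw [hc1]
    positivity
  obtain ⟨Q, hQ⟩ : ∃ Q : ℝ, Q = (2 * (q : ℝ) ^ d) ^ eK K := ⟨_, rfl⟩
  have hQ1 : 1 ≤ Q := by
    rw [hQ]
    refine one_le_pow₀ ?_
    have h1 : (1 : ℝ) ≤ (q : ℝ) ^ d := one_le_pow₀ hq'
    linarith
  have hC20 : 0 ≤ C2 := by linarith
  have hm : 0 ≤ C2 * CK K n * Q := by positivity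
  refine ⟨1 + 2 * c1 + C2 * CK K n * Q, by linarith, ?_⟩
  intro B H A o hB hA hH x hx
  have hB0 : (0 : ℝ) < B := by exact_mod_cast hB
  have hA1 : (1 : ℝ) ≤ A := by exact_mod_cast hA
  have hA0 : (0 : ℝ) < A := by linarith
  have hH0 : (0 : ℝ) ≤ H := Nat.cast_nonneg H
  have hcH : 2 * (c1 * H) ≤ A := by
    refine le_trans ?_ hH
    have h1 : 0 ≤ (1 + C2 * CK K n * Q) * H := by positivity
    nlinarith
  obtain ⟨M, hM⟩ : ∃ M : ℕ, M = eK K * (n + 1) ^ d := ⟨_, rfl⟩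
  have hbA := hbox A hA
  rw [← hM] at hbA ⊢
  obtain ⟨T, hT⟩ : ∃ T : ℝ, T = ((A : ℝ) * (B : ℝ) ^ d) ^ eK K := ⟨_, rfl⟩
  have hT0 : 0 < T := by
    rw [hT]
    positivity
  rw [← hT, le_div_iff₀ hT0]
  obtain ⟨P, hP⟩ : ∃ P : ℝ, P = (A : ℝ) * (B : ℝ) ^ d / (2 * (q : ℝ) ^ d) := ⟨_, rfl⟩
  have hq0 : (0 : ℝ) < 2 * (q : ℝ) ^ d := by positivity
  have hPT : P ^ eK K * Q = T := by
    rw [hP, hQ, hT, div_pow, div_mul_cancel₀]
    positivity
  have hAM : 0 ≤ (A : ℝ) ^ M := by positivity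
  rcases le_or_gt 1 P with h | h
  · have hlow := OBox_low K n h
    have h1 : ∀ m ∈ OBox K P, ∃ a ∈ Box K n d (A : ℝ), ev a x = m := by
      intro m hm
      obtain ⟨a, ha⟩ := val1 d x (GG_uni hx) m
      obtain ⟨a', ha1, ha2⟩ := pre1 B H q o hB x hx a
      refine ⟨a', mem_Box.2 fun s v => ?_, ha1.trans ha⟩
      have h2 := ha2 s v
      rw [ha] at h2
      have h3 : v (m : K) * ((q : ℝ) ^ d / (B : ℝ) ^ d) ≤ (A : ℝ) / 2 := by
        calc v (m : K) * ((q : ℝ) ^ d / (B : ℝ) ^ d) ≤ P * ((q : ℝ) ^ d / (B : ℝ) ^ d) := by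
              gcongr
              exact mem_OBox.1 hm v
          _ = (A : ℝ) / 2 := by
              rw [hP]
              field_simp
      have h4 : (d * n * (n + 1) ^ d : ℝ) * (CK K n * H) = c1 * H := by
        rw [hc1]
        ring
      rw [h4] at h2
      linarith
    have h4 : ((OBox K P).card : ℝ) * (n1 d x A : ℝ) ≤ C2 * (A : ℝ) ^ M := by
      refine le_trans ?_ hbA
      exact_mod_cast trans1 d (OBox K P) x (A : ℝ) h1
    have hn1 : (0 : ℝ) ≤ (n1 d x A : ℝ) := Nat.cast_nonneg _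
    calc (n1 d x A : ℝ) * T = (P ^ eK K * (n1 d x A : ℝ)) * Q := by
          rw [← hPT]
          ring
      _ ≤ (CK K n * ((OBox K P).card : ℝ) * (n1 d x A : ℝ)) * Q := by gcongr
      _ = CK K n * (((OBox K P).card : ℝ) * (n1 d x A : ℝ)) * Q := by ring
      _ ≤ CK K n * (C2 * (A : ℝ) ^ M) * Q := by gcongr
      _ = (C2 * CK K n * Q) * (A : ℝ) ^ M := by ring
      _ ≤ (1 + 2 * c1 + C2 * CK K n * Q) * (A : ℝ) ^ M := by
          gcongr
          linarith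
  · have hP0 : 0 ≤ P := by
      rw [hP]
      positivity
    have hPe : P ^ eK K ≤ 1 := pow_le_one₀ hP0 h.le
    have hTQ : T ≤ Q := by
      rw [← hPT]
      exact mul_le_of_le_one_left (by linarith) hPe
    have h5 : (n1 d x A : ℝ) ≤ C2 * (A : ℝ) ^ M := by
      refine le_trans ?_ hbA
      have h6 : n1 d x A ≤ (Box K n d (2 * (A : ℝ))).card := by
        unfold n1
        exact (Finset.card_filter_le _ _).trans (Finset.card_le_card (Box_mono (by linarith)))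
      exact_mod_cast h6
    calc (n1 d x A : ℝ) * T ≤ (C2 * (A : ℝ) ^ M) * Q := by gcongr
      _ = (C2 * 1 * Q) * (A : ℝ) ^ M := by ring
      _ ≤ (C2 * CK K n * Q) * (A : ℝ) ^ M := by gcongr
      _ ≤ (1 + 2 * c1 + C2 * CK K n * Q) * (A : ℝ) ^ M := by
          gcongr
          linarith

end Pool.Agent.Lib.MP_1ad228_ntN
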