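import Pool.Agent.Lib.MP_1ad228_ntN.CN_Cls
import Pool.Agent.Lib.MP_1ad228_ntN.N1
import Pool.Agent.Lib.MP_1ad228_ntN.Cover
import Pool.Agent.Lib.MP_1ad228_ntN.NB_Const
import Pool.Agent.Lib.MP_1ad228_ntN.Expand

/-!
JOB B_MkK.  Average over the tuples of the number of local points which are not `H`-good. (Model: Lib/MP_1ad228_ntF/B_Mk.lean.)

`locCnt`: for `x ∈ GG K B H' q o`, `C H' ≤ A`: `#{a ∈ Box K n d A | Loc W κ A o a x} ≤ ∑_{m ∈ MS d W κ A o x} #{a ∈ Box K n d A | ev a x = m}` (`Loc` implies `ev a x ∈ MS`: `mem_MS` in Expand.lean or directly)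
`≤ #MS * C n1 d x A` (`cover1` with `M = 1`) `≤ 2 CK (A B^d/(κ W))^e * C * C' A^(e V)/(A B^d)^e` (`muUp`: `κ W ≤ A B ≤ A B^d`; `N1`) `= C'' A^(eV)/(κ W)^e`, `V = (n+1)^d`.
`markB`: exchanging sums (`R(F) = #{x ∈ GG K B B q o | ¬ HGood H x ∧ ∀ i, Loc W κ A o (F i) x}`): `∑_{F ∈ TBox K n d A} R(F) = ∑_{x ∈ GG K B B q o, ¬ HGood H x} ∏ i, #{a ∈ Box K n (d i) A | Loc W κ A o a x}` (`TBox` is a `piFinset`: the filter of a
`piFinset` by `∀ i, P i (F i)` is the `piFinset` of the filters; `Fintype.card_piFinset`). A point `x ∈ GG K B B q o` with `¬ HGood H x` is either `H'`-good (then it is in `GG K B H' q o`, and the product is at most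
`∏ C_i A^(e (n+1)^(d i))/(κ W)^e = C A^(e VV)/(κ W)^(e r)`), or not `H'`-good (then the product is at most `∏ #Box K n (d i) A ≤ ∏ (CK A^e)^((n+1)^(d i)) = C A^(e VV)`: `card_Box`, `OBox_up`).
-/

namespace Pool.Agent.Lib.MP_1ad228_ntN

open NumberField Classical

set_option linter.unusedSectionVars false

variable {K : Type} [Field K] [NumberField K]

variable (K) in
theorem locCnt (n : ℕ) (d : ℕ) (hd : 1 ≤ d) (q : ℕ) (hq : 1 ≤ q) : ∃ C : ℝ, 1 ≤ C ∧
    ∀ (B H' A κ W : ℕ) (o : Fin (n + 1)), 1 ≤ B → 1 ≤ A → 1 ≤ κ → 1 ≤ W → κ * W ≤ A * B →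
    C * H' ≤ A → ∀ x ∈ GG K B H' q o,
    (((Box K n d A).filter fun a => Loc W κ A o a x).card : ℝ) ≤
      C * (A : ℝ) ^ (eK K * (n + 1) ^ d) / ((κ : ℝ) * W) ^ eK K := by
  obtain ⟨C1, hC1, hcov⟩ := cover1 (K := K) n d 1 le_rfl
  obtain ⟨C2, hC2, hN1⟩ := N1 (K := K) n d q hq
  have hCK := CK_one_le K n
  have hD : 0 ≤ 2 * CK K n * C1 * C2 := by positivity
  refine ⟨2 * CK K n * C1 * C2 + C2, by linarith, ?_⟩
  intro B H' A κ W o hB hA hκ hW hκW hCH x hx
  have hB0 : (0 : ℝ) < B := by exact_mod_cast hB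
  have hA0 : (0 : ℝ) < A := by exact_mod_cast hA
  have hA1 : (1 : ℝ) ≤ A := by exact_mod_cast hA
  have hκ0 : (0 : ℝ) < κ := by exact_mod_cast hκ
  have hW0 : (0 : ℝ) < W := by exact_mod_cast hW
  have hH0 : (0 : ℝ) ≤ H' := Nat.cast_nonneg _
  have hxV : x ∈ VBox K n B := (Finset.mem_filter.1 hx).1
  have hsub : ((Box K n d A).filter fun a => Loc W κ A o a x) ⊆
      (MS d W κ A o x).biUnion fun m => (Box K n d A).filter fun a => ev a x = m := by
    intro a ha
    rw [Finset.mem_filter] at ha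
    rw [Finset.mem_biUnion]
    exact ⟨ev a x, (mem_MS hκ).2 ha.2, Finset.mem_filter.2 ⟨ha.1, rfl⟩⟩
  have h1 : (((Box K n d A).filter fun a => Loc W κ A o a x).card : ℝ) ≤
      ((MS d W κ A o x).card : ℝ) * (C1 * (n1 d x A : ℝ)) := by
    have h2 : (((Box K n d A).filter fun a => Loc W κ A o a x).card : ℝ) ≤
        ∑ m ∈ MS d W κ A o x, (((Box K n d A).filter fun a => ev a x = m).card : ℝ) := by
      have h3 := (Finset.card_le_card hsub).trans Finset.card_biUnion_le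
      exact_mod_cast h3
    refine h2.trans ?_
    have h3 : ∀ m ∈ MS d W κ A o x, (((Box K n d A).filter fun a => ev a x = m).card : ℝ) ≤
        C1 * (n1 d x A : ℝ) := by
      intro m _
      have h4 := hcov x m A hA1
      rw [one_mul] at h4
      exact h4
    refine (Finset.sum_le_card_nsmul _ _ _ h3).trans (le_of_eq ?_)
    rw [nsmul_eq_mul]
  have hκW' : κ * W ≤ A * B ^ d := by
    refine hκW.trans (Nat.mul_le_mul_left _ ?_)
    exact Nat.le_self_pow (by omega) B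
  have h2 := (muUp d W κ A B o hW hκ hA hB hκW' x hxV).2
  have h3 := hN1 B H' A o hB hA (by
    refine le_trans (mul_le_mul_of_nonneg_right ?_ hH0) hCH
    linarith) x hx
  have h5 : ((MS d W κ A o x).card : ℝ) * (C1 * (n1 d x A : ℝ)) ≤
      (2 * CK K n * ((A : ℝ) * (B : ℝ) ^ d / (κ * W)) ^ eK K) *
        (C1 * (C2 * (A : ℝ) ^ (eK K * (n + 1) ^ d) / ((A : ℝ) * (B : ℝ) ^ d) ^ eK K)) := by
    refine mul_le_mul h2 (mul_le_mul_of_nonneg_left h3 (by positivity)) (by positivity)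
      (by positivity)
  refine h1.trans (h5.trans ?_)
  have hP : (0 : ℝ) < ((A : ℝ) * (B : ℝ) ^ d) ^ eK K := by positivity
  have hP2 : (0 : ℝ) < ((κ : ℝ) * W) ^ eK K := by positivity
  have e1 : (2 * CK K n * ((A : ℝ) * (B : ℝ) ^ d / (κ * W)) ^ eK K) *
        (C1 * (C2 * (A : ℝ) ^ (eK K * (n + 1) ^ d) / ((A : ℝ) * (B : ℝ) ^ d) ^ eK K)) =
      2 * CK K n * C1 * C2 * (A : ℝ) ^ (eK K * (n + 1) ^ d) / ((κ : ℝ) * W) ^ eK K := by
    rw [div_pow]
    field_simp
  rw [e1]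
  refine div_le_div_of_nonneg_right ?_ hP2.le
  refine mul_le_mul_of_nonneg_right ?_ (by positivity)
  linarith

private theorem BMkK_prod {n r : ℕ} (d : Fin r → ℕ) (A W κ : ℕ) (o : Fin (n + 1))
    (x : Vc n (𝓞 K)) :
    ((TBox K n d A).filter fun F => ∀ i, Loc W κ A o (F i) x).card =
      ∏ i, ((Box K n (d i) A).filter fun a => Loc W κ A o a x).card := by
  have h1 : ((TBox K n d A).filter fun F => ∀ i, Loc W κ A o (F i) x) =
      Fintype.piFinset fun i => (Box K n (d i) A).filter fun a => Loc W κ A o a x := by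
    apply Finset.ext
    intro F
    rw [Finset.mem_filter, Fintype.mem_piFinset]
    unfold TBox
    rw [Fintype.mem_piFinset]
    constructor
    · intro h i
      exact Finset.mem_filter.2 ⟨h.1 i, h.2 i⟩
    · intro h
      exact ⟨fun i => (Finset.mem_filter.1 (h i)).1, fun i => (Finset.mem_filter.1 (h i)).2⟩
  rw [h1, Fintype.card_piFinset]

private theorem BMkK_VV {n r : ℕ} (d : Fin r → ℕ) (a : ℝ) :
    ∏ i, a ^ (n + 1) ^ d i = a ^ VV n d := by
  unfold Pool.Agent.Lib.MP_1ad228_ntF.VV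
  exact Finset.prod_pow_eq_pow_sum _ _ _

variable (K) in
theorem markB (n : ℕ) {r : ℕ} (d : Fin r → ℕ) (hd : ∀ i, 1 ≤ d i) (q : ℕ) (hq : 1 ≤ q) :
    ∃ C : ℝ, 1 ≤ C ∧ ∀ (B H H' A κ W : ℕ) (o : Fin (n + 1)), 1 ≤ B → 1 ≤ A → 1 ≤ κ → 1 ≤ W →
    κ * W ≤ A * B → C * H' ≤ A →
    ∑ F ∈ TBox K n d A, (((GG K B B q o).filter fun x => ¬ HGood H x ∧
        ∀ i, Loc W κ A o (F i) x).card : ℝ) ≤
      C * (A : ℝ) ^ (eK K * VV n d) *
        ((((VBox K n B).filter fun x => ¬ HGood H x).card : ℝ) / (((κ : ℝ) * W) ^ r) ^ eK K +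
          (((VBox K n B).filter fun x => ¬ HGood H' x).card : ℝ)) := by
  choose Cl hCl hloc using fun i => locCnt K n (d i) (hd i) q hq
  have hCK := CK_one_le K n
  have hCK0 : 0 ≤ CK K n := le_trans zero_le_one hCK
  have hCl0 : ∀ i, 0 ≤ Cl i := fun i => le_trans zero_le_one (hCl i)
  set P1 : ℝ := ∏ i, Cl i with hP1
  set S1 : ℝ := ∑ i, Cl i with hS1
  set P2 : ℝ := CK K n ^ VV n d with hP2
  have hP10 : 0 ≤ P1 := Finset.prod_nonneg fun i _ => hCl0 i
  have hS10 : 0 ≤ S1 := Finset.sum_nonneg fun i _ => hCl0 i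
  have hP21 : 1 ≤ P2 := one_le_pow₀ hCK
  refine ⟨P1 + S1 + P2, by linarith, ?_⟩
  intro B H H' A κ W o hB hA hκ hW hκW hCH
  have hA0 : (0 : ℝ) < A := by exact_mod_cast hA
  have hA1 : (1 : ℝ) ≤ A := by exact_mod_cast hA
  have hκ0 : (0 : ℝ) < κ := by exact_mod_cast hκ
  have hW0 : (0 : ℝ) < W := by exact_mod_cast hW
  have hH0 : (0 : ℝ) ≤ H' := Nat.cast_nonneg _
  set X : Finset (Vc n (𝓞 K)) := (GG K B B q o).filter fun x => ¬ HGood H x with hX
  set D : ℝ := (((κ : ℝ) * W) ^ r) ^ eK K with hD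
  have hD0 : 0 < D := by positivity
  set G : ℝ := (A : ℝ) ^ (eK K * VV n d) with hG
  have hG0 : 0 < G := by positivity
  have key : ∀ x ∈ X, (((TBox K n d A).filter fun F => ∀ i, Loc W κ A o (F i) x).card : ℝ) ≤
      (P1 + S1 + P2) * G * (1 / D + if ¬ HGood H' x then 1 else 0) := by
    intro x hx
    have hx1 : x ∈ GG K B B q o := (Finset.mem_filter.1 hx).1
    rw [BMkK_prod, Nat.cast_prod]
    by_cases hg : HGood H' x
    · have hx2 : x ∈ GG K B H' q o := by
        unfold GG at hx1 ⊢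
        rw [Finset.mem_filter] at hx1 ⊢
        exact ⟨hx1.1, hx1.2.1, hx1.2.2.1, hg⟩
      rw [if_neg (not_not.2 hg), add_zero]
      have h1 : ∏ i, (((Box K n (d i) A).filter fun a => Loc W κ A o a x).card : ℝ) ≤
          ∏ i, (Cl i * (A : ℝ) ^ (eK K * (n + 1) ^ d i) / ((κ : ℝ) * W) ^ eK K) := by
        refine Finset.prod_le_prod (fun i _ => Nat.cast_nonneg _) fun i _ => ?_
        refine hloc i B H' A κ W o hB hA hκ hW hκW ?_ x hx2
        refine le_trans (mul_le_mul_of_nonneg_right ?_ hH0) hCH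
        have h2 : Cl i ≤ S1 := Finset.single_le_sum (fun j _ => hCl0 j) (Finset.mem_univ i)
        linarith
      refine h1.trans ?_
      have e1 : ∏ i, (Cl i * (A : ℝ) ^ (eK K * (n + 1) ^ d i) / ((κ : ℝ) * W) ^ eK K) =
          P1 * G * (1 / D) := by
        rw [Finset.prod_div_distrib, Finset.prod_mul_distrib, Finset.prod_const, Finset.card_univ,
          Fintype.card_fin]
        have e2 : ∏ i, (A : ℝ) ^ (eK K * (n + 1) ^ d i) = G := by
          rw [hG, pow_mul, ← BMkK_VV]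
          exact Finset.prod_congr rfl fun i _ => pow_mul _ _ _
        have e3 : (((κ : ℝ) * W) ^ eK K) ^ r = D := by
          rw [hD, ← pow_mul, ← pow_mul, mul_comm (eK K) r]
        rw [e2, e3, ← hP1]
        ring
      rw [e1]
      refine mul_le_mul_of_nonneg_right ?_ (by positivity)
      refine mul_le_mul_of_nonneg_right ?_ hG0.le
      linarith
    · rw [if_pos hg]
      have h1 : ∏ i, (((Box K n (d i) A).filter fun a => Loc W κ A o a x).card : ℝ) ≤
          ∏ i, (CK K n * (A : ℝ) ^ eK K) ^ (n + 1) ^ d i := by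
        refine Finset.prod_le_prod (fun i _ => Nat.cast_nonneg _) fun i _ => ?_
        have h2 : ((Box K n (d i) A).filter fun a => Loc W κ A o a x).card ≤
            (OBox K (A : ℝ)).card ^ (n + 1) ^ d i := by
          rw [← card_Box]
          exact Finset.card_le_card (Finset.filter_subset _ _)
        have h3 : (((Box K n (d i) A).filter fun a => Loc W κ A o a x).card : ℝ) ≤
            ((OBox K (A : ℝ)).card : ℝ) ^ (n + 1) ^ d i := by exact_mod_cast h2
        refine h3.trans ?_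
        exact pow_le_pow_left₀ (Nat.cast_nonneg _) (OBox_up K n hA1) _
      rw [BMkK_VV, mul_pow, ← pow_mul] at h1
      refine h1.trans ?_
      rw [← hP2, ← hG]
      have h4 : 0 ≤ 1 / D := by positivity
      have h5 : P2 * G ≤ (P1 + S1 + P2) * G :=
        mul_le_mul_of_nonneg_right (by linarith) hG0.le
      refine h5.trans ?_
      refine le_mul_of_one_le_right ?_ (by linarith)
      have h6 : 0 ≤ P1 + S1 + P2 := by linarith
      exact mul_nonneg h6 hG0.le
  have e1 : ∀ F ∈ TBox K n d A, (((GG K B B q o).filter fun x => ¬ HGood H x ∧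
      ∀ i, Loc W κ A o (F i) x).card : ℝ) =
      ∑ x ∈ X, (if ∀ i, Loc W κ A o (F i) x then (1 : ℝ) else 0) := by
    intro F _
    rw [hX, Finset.sum_boole, Finset.filter_filter]
  have e2 : ∀ x ∈ X, ∑ F ∈ TBox K n d A, (if ∀ i, Loc W κ A o (F i) x then (1 : ℝ) else 0) =
      (((TBox K n d A).filter fun F => ∀ i, Loc W κ A o (F i) x).card : ℝ) := by
    intro x _
    rw [Finset.sum_boole]
  rw [Finset.sum_congr rfl e1, Finset.sum_comm, Finset.sum_congr rfl e2]
  refine (Finset.sum_le_sum key).trans ?_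
  rw [← Finset.mul_sum, Finset.sum_add_distrib, Finset.sum_const, nsmul_eq_mul, Finset.sum_boole]
  have h6 : 0 ≤ P1 + S1 + P2 := by linarith
  refine mul_le_mul_of_nonneg_left ?_ (mul_nonneg h6 hG0.le)
  have hXV : X ⊆ (VBox K n B).filter fun x => ¬ HGood H x := by
    intro x hx
    rw [hX, Finset.mem_filter] at hx
    exact Finset.mem_filter.2 ⟨(Finset.mem_filter.1 hx.1).1, hx.2⟩
  have hXV' : (X.filter fun x => ¬ HGood H' x) ⊆
      (VBox K n B).filter fun x => ¬ HGood H' x := by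
    intro x hx
    rw [Finset.mem_filter] at hx
    exact Finset.mem_filter.2 ⟨(Finset.mem_filter.1 (hXV hx.1)).1, hx.2⟩
  have h1 : (X.card : ℝ) ≤ (((VBox K n B).filter fun x => ¬ HGood H x).card : ℝ) := by
    exact_mod_cast Finset.card_le_card hXV
  have h2 : ((X.filter fun x => ¬ HGood H' x).card : ℝ) ≤
      (((VBox K n B).filter fun x => ¬ HGood H' x).card : ℝ) := by
    exact_mod_cast Finset.card_le_card hXV'
  refine add_le_add ?_ h2
  rw [mul_one_div]
  exact div_le_div_of_nonneg_right h1 hD0.le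

end Pool.Agent.Lib.MP_1ad228_ntN
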