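import Pool.Agent.Lib.MP_1ad228_ntN.MN_Par

/-!
JOB B_ParK.  Parameters of the borderline case.

`parB`: `g = Nat.sqrt (μ * A)`: `g^2 ≤ μ A < (g+1)^2 ≤ 4 g^2` (`Nat.sqrt_le'`, `Nat.lt_succ_sqrt'`); `g → ∞`; `g * g ≤ μ A`, so `c g ≤ A` as soon as `g ≥ c μ` (`c μ g ≤ g^2 ≤ μ A`).
`EB`: `n = 2 r`, `B = g^(2r)`: `B^(2r+1)/(A^r B^(2r)) = B/A^r = (g^2/A)^r`; `g^2/A ≤ μ`, `g^2/A ≥ μ/4`.
`HB1`: `(h g)^(2r+1+r) * (g^(2r))^r / (g^(2r))^(2r) = h^(3r+1) g^(3r+1+2r^2-4r^2) ≤ h^(3r+1)/g` because `3 r + 2 ≤ 2 r^2` for `r ≥ 2` (`g ≥ 1`).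
`HB2`: `(h g)^(2 (2r) (2r+1) - 1)/(g^(2r))^(2 (2r+1)) = h^(..)/g`.
-/

namespace Pool.Agent.Lib.MP_1ad228_ntN

open NumberField Classical

set_option linter.unusedSectionVars false

variable {K : Type} [Field K] [NumberField K]

omit [Field K] [NumberField K] in
theorem parB (μ g0 c : ℕ) (hμ : 1 ≤ μ) : ∃ A0 : ℕ, 1 ≤ A0 ∧ ∀ A : ℕ, A0 ≤ A →
    ∃ g : ℕ, g0 ≤ g ∧ 1 ≤ g ∧ g ^ 2 ≤ μ * A ∧ μ * A ≤ 4 * g ^ 2 ∧ c * g ≤ A := by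
  obtain ⟨M, hM⟩ : ∃ M : ℕ, M = g0 + c * μ + 1 := ⟨_, rfl⟩
  refine ⟨M ^ 2, ?_, ?_⟩
  · have : 1 ≤ M := by omega
    exact Nat.one_le_pow _ _ this
  intro A hA
  have h1 : Nat.sqrt (μ * A) ^ 2 ≤ μ * A := Nat.sqrt_le' _
  have h2 : μ * A < (Nat.sqrt (μ * A) + 1) ^ 2 := Nat.lt_succ_sqrt' _
  have h3 : M ≤ Nat.sqrt (μ * A) := by
    rw [Nat.le_sqrt']
    calc M ^ 2 ≤ A := hA
      _ = 1 * A := (one_mul A).symm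
      _ ≤ μ * A := Nat.mul_le_mul_right A hμ
  obtain ⟨g, hg⟩ : ∃ g : ℕ, g = Nat.sqrt (μ * A) := ⟨_, rfl⟩
  rw [← hg] at h1 h2 h3
  have hg1 : 1 ≤ g := by omega
  refine ⟨g, by omega, hg1, h1, ?_, ?_⟩
  · have h4 : (g + 1) ^ 2 ≤ (2 * g) ^ 2 := Nat.pow_le_pow_left (by omega) 2
    have h5 : (2 * g) ^ 2 = 4 * g ^ 2 := by ring
    omega
  · have h6 : c * μ ≤ g := by omega
    have h7 : μ * (c * g) ≤ μ * A := by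
      calc μ * (c * g) = (c * μ) * g := by ring
        _ ≤ g * g := Nat.mul_le_mul_right g h6
        _ = g ^ 2 := by ring
        _ ≤ μ * A := h1
    exact Nat.le_of_mul_le_mul_left h7 hμ

theorem EB (r μ g A : ℕ) (hμ : 1 ≤ μ) (hg : 1 ≤ g) (hA : 1 ≤ A) (h1 : g ^ 2 ≤ μ * A)
    (h2 : μ * A ≤ 4 * g ^ 2) :
    ((μ : ℝ) / 4) ^ r ≤ ((g ^ (2 * r) : ℕ) : ℝ) ^ (2 * r + 1) /
        ((A : ℝ) ^ r * ((g ^ (2 * r) : ℕ) : ℝ) ^ (2 * r)) ∧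
      ((g ^ (2 * r) : ℕ) : ℝ) ^ (2 * r + 1) /
        ((A : ℝ) ^ r * ((g ^ (2 * r) : ℕ) : ℝ) ^ (2 * r)) ≤ (μ : ℝ) ^ r := by
  have hg0 : (0 : ℝ) < g := by exact_mod_cast hg
  have hA0 : (0 : ℝ) < A := by exact_mod_cast hA
  have hμ0 : (0 : ℝ) < μ := by exact_mod_cast hμ
  have h1' : (g : ℝ) ^ 2 ≤ μ * A := by exact_mod_cast h1
  have h2' : (μ : ℝ) * A ≤ 4 * (g : ℝ) ^ 2 := by exact_mod_cast h2
  have key : ((g ^ (2 * r) : ℕ) : ℝ) ^ (2 * r + 1) /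
      ((A : ℝ) ^ r * ((g ^ (2 * r) : ℕ) : ℝ) ^ (2 * r)) = ((g : ℝ) ^ 2 / A) ^ r := by
    have hb : ((g ^ (2 * r) : ℕ) : ℝ) = ((g : ℝ) ^ 2) ^ r := by
      push_cast
      rw [pow_mul]
    rw [hb]
    have hb0 : (((g : ℝ) ^ 2) ^ r) ≠ 0 := by positivity
    have hA1 : (A : ℝ) ^ r ≠ 0 := by positivity
    rw [div_pow, pow_succ, div_eq_div_iff (by positivity) hA1]
    ring
  rw [key]
  refine ⟨pow_le_pow_left₀ (by positivity) ?_ r, pow_le_pow_left₀ (by positivity) ?_ r⟩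
  · rw [div_le_div_iff₀ (by norm_num) hA0]
    linarith
  · rw [div_le_iff₀ hA0]
    exact h1'

theorem HB1 (r h g : ℕ) (hr : 2 ≤ r) (hg : 1 ≤ g) :
    (((h * g : ℕ) : ℝ)) ^ (2 * r + 1 + r) * ((g ^ (2 * r) : ℕ) : ℝ) ^ r /
      ((g ^ (2 * r) : ℕ) : ℝ) ^ (2 * r) ≤ (h : ℝ) ^ (3 * r + 1) / g := by
  have hg0 : (0 : ℝ) < g := by exact_mod_cast hg
  have hg1 : (1 : ℝ) ≤ g := by exact_mod_cast hg
  have hb : ((g ^ (2 * r) : ℕ) : ℝ) = (g : ℝ) ^ (2 * r) := by push_cast; rfl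
  have hc : ((h * g : ℕ) : ℝ) = h * g := by push_cast; rfl
  rw [hb, hc, ← pow_mul, ← pow_mul, div_le_div_iff₀ (by positivity) hg0, mul_pow]
  have e1 : 2 * r + 1 + r = 3 * r + 1 := by ring
  rw [e1]
  have hr2 : 3 * r + 2 ≤ 2 * r * r := by nlinarith
  have e2 : (g : ℝ) ^ (3 * r + 1) * (g : ℝ) ^ (2 * r * r) * g ≤ (g : ℝ) ^ (2 * r * (2 * r)) := by
    rw [← pow_add, ← pow_succ]
    refine pow_le_pow_right₀ hg1 ?_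
    have : 2 * r * (2 * r) = 2 * r * r + 2 * r * r := by ring
    omega
  calc (h : ℝ) ^ (3 * r + 1) * (g : ℝ) ^ (3 * r + 1) * (g : ℝ) ^ (2 * r * r) * g
      = (h : ℝ) ^ (3 * r + 1) * ((g : ℝ) ^ (3 * r + 1) * (g : ℝ) ^ (2 * r * r) * g) := by ring
    _ ≤ (h : ℝ) ^ (3 * r + 1) * (g : ℝ) ^ (2 * r * (2 * r)) :=
        mul_le_mul_of_nonneg_left e2 (by positivity)

theorem HB2 (r h g : ℕ) (hr : 1 ≤ r) (hg : 1 ≤ g) :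
    (((h * g : ℕ) : ℝ)) ^ (2 * (2 * r) * (2 * r + 1) - 1) /
      ((g ^ (2 * r) : ℕ) : ℝ) ^ (2 * (2 * r + 1)) = (h : ℝ) ^ (2 * (2 * r) * (2 * r + 1) - 1) / g := by
  have hg0 : (0 : ℝ) < g := by exact_mod_cast hg
  have hb : ((g ^ (2 * r) : ℕ) : ℝ) = (g : ℝ) ^ (2 * r) := by push_cast; rfl
  have hc : ((h * g : ℕ) : ℝ) = h * g := by push_cast; rfl
  rw [hb, hc, ← pow_mul, mul_pow]
  obtain ⟨k, hk⟩ : ∃ k : ℕ, 2 * (2 * r) * (2 * r + 1) = k + 1 := by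
    refine ⟨2 * (2 * r) * (2 * r + 1) - 1, ?_⟩
    have : 1 ≤ 2 * (2 * r) * (2 * r + 1) := by
      have : 0 < 2 * (2 * r) * (2 * r + 1) := by positivity
      omega
    omega
  have e1 : 2 * r * (2 * (2 * r + 1)) = k + 1 := by rw [← hk]; ring
  rw [e1, hk, Nat.add_sub_cancel, div_eq_div_iff (by positivity) hg0.ne', pow_succ]
  ring

end Pool.Agent.Lib.MP_1ad228_ntN
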