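import Pool.Agent.Lib.MP_1ad228_ntN.CN_Cls

/-!
JOB CN_Np.  Non unimodular vectors in a unimodular residue class (paper section 8). (Model over Q: Lib/MP_219881_nt/CN_Np.lean, nonPrim.)

`nonUni` PROOF.  `Ideal.span (Set.range x) ≠ ⊤` (otherwise `1 = ∑ u l * x l`, so `Uni x`): contained in a maximal ideal `P` (`Ideal.exists_le_maximal`); `P ≠ ⊥` because some `x l ≠ 0`.

`nonPrim` PROOF.  `e = eK K`, `c = CK K n`, `W = WW w`.
(a) Let `x` be in the filter and `P` from `nonUni`.  `(W : 𝓞 K) ∉ P`: `Uni (vmap mk x0)` gives `∑ u l * x0 l - 1 ∈ span {W}` for some `u : Vc n (𝓞 K)` (lift by `Ideal.Quotient.mk_surjective`, `Ideal.Quotient.eq`), and `x l - x0 l ∈ span {W}`;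
if `W ∈ P` then all `x0 l ∈ P`, so `1 ∈ P`.  Let `p = absNorm P`'s prime: more simply, `(absNorm P : 𝓞 K) ∈ P` (`Ideal.absNorm_mem`), `absNorm P ≥ 2`.  If `absNorm P ≤ w` then every prime divisor of `absNorm P` is `≤ w`, hence divides
`W = WW w` (`w ≥ 1`; `Pool.Agent.Lib.MP_219881_nt.WWdvd`: every `m` with `1 ≤ m ≤ w` divides `WW w`), in particular `absNorm P ∣ WW w`, so `W ∈ P`, contradiction.  So `w < absNorm P`.  `absNorm P ≤ pn (v (x l)) ≤ B^e` for an `l`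
with `x l ≠ 0` (`absNorm_le_pn`, `pn_mono`, `pn_const`).
(b) For a maximal ideal `P ∌ W` the set `X_P = {x ∈ VBox K n B | ∀ l, x l ∈ P ∧ W ∣ x l - x0 l}` has at most `(c (1 + (2B)^e/(W^e N(P))))^(n+1)` elements: for two elements `x l - y l ∈ P ⊓ span {W} = P * span {W}` (coprime: `P` maximal,
`W ∉ P`; `Ideal.inf_eq_mul_of_isCoprime` or `Ideal.mul_eq_inf_of_isCoprime..`), of norm `W^e N(P)` (`absNorm_natCast`), `v (x l - y l) ≤ 2B`; `upI` for each coordinate (`Fintype.card_piFinset`, the image of `X_P` under each coordinate).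
`(1 + t)^(n+1) ≤ 2^(n+1) (1 + t^(n+1))`, so `#X_P ≤ C1 (1 + (B/W)^(e(n+1)) / N(P)^2)`, `C1 = (2 c)^(n+1) 2^(e(n+1))` (`N(P)^(n+1) ≥ N(P)^2`, `n ≥ 1`).
(c) The filter is contained in the union of the `X_P` over the finite set of maximal ideals `P` with `w < N(P) ≤ B^e` (finite: `Ideal.finite_setOf_absNorm_le`), so its cardinality is at most
`∑_P C1 (1 + (B/W)^(e(n+1)) / N(P)^2) ≤ C1 c B^e + C1 (B/W)^(e(n+1)) c/(w+1)` (`idCount` with `X = B^e ≥ 1`, `idTail`).  `C = C1 c`.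
-/

namespace Pool.Agent.Lib.MP_1ad228_ntN

open NumberField Classical

set_option linter.unusedSectionVars false

theorem nonUni {K : Type} [Field K] [NumberField K] {n : ℕ} (x : Vc n (𝓞 K)) (hx : x ≠ 0)
    (h : ¬ Uni x) : ∃ P : Ideal (𝓞 K), P.IsMaximal ∧ P ≠ ⊥ ∧ ∀ l, x l ∈ P := by
  have h1 : Ideal.span (Set.range x) ≠ ⊤ := by
    intro ht
    apply h
    have h1 : (1 : 𝓞 K) ∈ Ideal.span (Set.range x) := by
      rw [ht]
      trivial
    obtain ⟨c, hc⟩ := Ideal.mem_span_range_iff_exists_fun.mp h1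
    exact ⟨c, hc⟩
  obtain ⟨P, hP, hle⟩ := Ideal.exists_le_maximal _ h1
  have h2 : ∀ l, x l ∈ P := fun l => hle (Ideal.subset_span ⟨l, rfl⟩)
  refine ⟨P, hP, ?_, h2⟩
  intro h0
  apply hx
  funext l
  have h3 := h2 l
  rw [h0, Ideal.mem_bot] at h3
  exact h3

private theorem CN_Np_WWpos (w : ℕ) : 1 ≤ WW w := by
  have h : 0 < ∏ p ∈ (Finset.range (w + 1)).filter Nat.Prime, p ^ w := by
    refine Finset.prod_pos fun p hp => ?_
    have hp' : p.Prime := (Finset.mem_filter.mp hp).2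
    exact pow_pos hp'.pos w
  exact h

private theorem CN_Np_WWdvd (w m : ℕ) (h1 : 1 ≤ m) (h2 : m ≤ w) : m ∣ WW w := by
  have hm0 : m ≠ 0 := by omega
  have hW0 : WW w ≠ 0 := by
    have := CN_Np_WWpos w
    omega
  rw [← Nat.factorization_le_iff_dvd hm0 hW0]
  intro p
  by_cases hp : p.Prime
  · by_cases hpm : p ∣ m
    · have hpw : p ≤ w := (Nat.le_of_dvd (by omega) hpm).trans h2
      have h3 : m.factorization p ≤ w := by
        have h4 : p ^ m.factorization p ≤ m := Nat.ordProj_le p hm0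
        have h5 : m.factorization p < p ^ m.factorization p :=
          Nat.lt_pow_self hp.one_lt
        omega
      refine h3.trans ?_
      have h6 : p ^ w ∣ WW w := by
        unfold WW
        exact Finset.dvd_prod_of_mem (fun p => p ^ w)
          (Finset.mem_filter.mpr ⟨Finset.mem_range.mpr (by omega), hp⟩)
      exact (hp.pow_dvd_iff_le_factorization hW0).mp h6
    · rw [Nat.factorization_eq_zero_of_not_dvd hpm]
      exact Nat.zero_le _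
  · rw [Nat.factorization_eq_zero_of_not_prime m hp]
    exact Nat.zero_le _

variable (K : Type) [Field K] [NumberField K]

/-- A maximal ideal which contains all coordinates of a vector in a unimodular class modulo `W` does not contain `W`. -/
private theorem CN_Np_notMem {n w : ℕ} (x0 x : Vc n (𝓞 K)) (h0 : Uni (vmap (Ideal.Quotient.mk (WI K w)) x0))
    (h1 : ∀ l, ((WW w : ℕ) : 𝓞 K) ∣ x l - x0 l) (P : Ideal (𝓞 K)) (hP : P.IsMaximal) (h2 : ∀ l, x l ∈ P) :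
    ((WW w : ℕ) : 𝓞 K) ∉ P := by
  intro hW
  obtain ⟨u, hu⟩ := h0
  have hle : WI K w ≤ P := by
    unfold WI
    rw [Ideal.span_singleton_le_iff_mem]
    exact hW
  choose u' hu' using fun l => Ideal.Quotient.mk_surjective (u l)
  have h3 : ∀ l, x0 l ∈ P := by
    intro l
    have h4 : x0 l = x l - (x l - x0 l) := by ring
    rw [h4]
    refine P.sub_mem (h2 l) ?_
    obtain ⟨t, ht⟩ := h1 l
    rw [ht]
    exact P.mul_mem_right _ hW
  have h4 : Ideal.Quotient.mk (WI K w) (∑ l, u' l * x0 l) = 1 := by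
    rw [← hu, map_sum]
    refine Finset.sum_congr rfl fun l _ => ?_
    rw [map_mul, hu' l]
    rfl
  have h5 : (∑ l, u' l * x0 l) - 1 ∈ P := by
    apply hle
    rw [← Ideal.Quotient.eq, h4, map_one]
  have h6 : ∑ l, u' l * x0 l ∈ P := P.sum_mem fun l _ => P.mul_mem_left _ (h3 l)
  have h7 : (1 : 𝓞 K) ∈ P := by
    have h8 : (1 : 𝓞 K) = (∑ l, u' l * x0 l) - ((∑ l, u' l * x0 l) - 1) := by ring
    rw [h8]
    exact P.sub_mem h6 h5
  exact hP.ne_top ((Ideal.eq_top_iff_one P).2 h7)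

private theorem CN_Np_norm_gt {w : ℕ} (P : Ideal (𝓞 K)) (hP0 : P ≠ ⊥)
    (hW : ((WW w : ℕ) : 𝓞 K) ∉ P) : (w : ℝ) < Ideal.absNorm P := by
  by_contra hcon
  have hle : Ideal.absNorm P ≤ w := by
    have : (Ideal.absNorm P : ℝ) ≤ w := not_lt.1 hcon
    exact_mod_cast this
  have h1 : 1 ≤ Ideal.absNorm P := by
    have := one_le_absNorm hP0
    exact_mod_cast this
  obtain ⟨t, ht⟩ := CN_Np_WWdvd w _ h1 hle
  apply hW
  rw [ht]
  push_cast
  exact P.mul_mem_right _ (Ideal.absNorm_mem P)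

private theorem CN_Np_norm_le {n B : ℕ} (x : Vc n (𝓞 K)) (hx : x ∈ VBox K n B) (hx0 : x ≠ 0)
    (P : Ideal (𝓞 K)) (h2 : ∀ l, x l ∈ P) : (Ideal.absNorm P : ℝ) ≤ (B : ℝ) ^ eK K := by
  obtain ⟨l, hl⟩ : ∃ l, x l ≠ 0 := by
    by_contra hcon
    push Not at hcon
    exact hx0 (funext hcon)
  refine (absNorm_le_pn (h2 l) hl).trans ?_
  rw [← pn_const (K := K)]
  exact pn_mono (fun v => v_nonneg _ _) (fun v => mem_VBox.mp hx l v)

private theorem CN_Np_pow (n : ℕ) (t : ℝ) (ht : 0 ≤ t) :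
    (1 + t) ^ (n + 1) ≤ 2 ^ (n + 1) * (1 + t ^ (n + 1)) := by
  rcases le_total 1 t with h | h
  · have h1 : (1 + t) ^ (n + 1) ≤ (2 * t) ^ (n + 1) := pow_le_pow_left₀ (by linarith) (by linarith) _
    rw [mul_pow] at h1
    have h2 : (0 : ℝ) ≤ 2 ^ (n + 1) := by positivity
    linarith
  · have h1 : (1 + t) ^ (n + 1) ≤ 2 ^ (n + 1) := pow_le_pow_left₀ (by linarith) (by linarith) _
    have h2 : (0 : ℝ) ≤ 2 ^ (n + 1) * t ^ (n + 1) := by positivity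
    linarith

/-- the vectors of the box in the ideal `P` and in a residue class modulo `W` -/
private theorem CN_Np_class (n : ℕ) (hn : 1 ≤ n) (B W : ℕ) (hB : 1 ≤ B) (hW1 : 1 ≤ W) (P : Ideal (𝓞 K)) (hP : P.IsMaximal)
    (hP0 : P ≠ ⊥) (hW : (W : 𝓞 K) ∉ P) (x0 : Vc n (𝓞 K)) :
    (((VBox K n B).filter fun x => ∀ l, x l ∈ P ∧ (W : 𝓞 K) ∣ x l - x0 l).card : ℝ) ≤
      (CK K n ^ (n + 1) * 2 ^ (n + 1) * 2 ^ (eK K * (n + 1))) *
        (1 + ((B : ℝ) / W) ^ (eK K * (n + 1)) * (1 / (Ideal.absNorm P : ℝ) ^ 2)) := by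
  have hC := CK_pos K n
  have hW0 : (0 : ℝ) < W := by exact_mod_cast hW1
  have hB0 : (0 : ℝ) < B := by exact_mod_cast hB
  have hN1 := one_le_absNorm hP0
  have hN0 : (0 : ℝ) < Ideal.absNorm P := by linarith
  set N : ℝ := (Ideal.absNorm P : ℝ) with hN
  set XP := (VBox K n B).filter fun x => ∀ l, x l ∈ P ∧ (W : 𝓞 K) ∣ x l - x0 l with hXP
  have hWne : Ideal.span {(W : 𝓞 K)} ≠ ⊥ := by
    rw [Ne, Ideal.span_singleton_eq_bot]
    have : W ≠ 0 := by omega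
    exact_mod_cast this
  have hsup : P ⊔ Ideal.span {(W : 𝓞 K)} = ⊤ := by
    refine hP.out.2 _ (lt_of_le_of_ne le_sup_left fun he => hW ?_)
    rw [he]
    exact Ideal.mem_sup_right (Ideal.mem_span_singleton_self _)
  have hco : IsCoprime P (Ideal.span {(W : 𝓞 K)}) := Ideal.isCoprime_iff_sup_eq.2 hsup
  have hmul : P ⊓ Ideal.span {(W : 𝓞 K)} = P * Ideal.span {(W : 𝓞 K)} := (Ideal.mul_eq_inf_of_isCoprime hco).symm
  set I : Ideal (𝓞 K) := P * Ideal.span {(W : 𝓞 K)} with hI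
  have hIne : I ≠ ⊥ := by
    rw [hI, Ne, Ideal.mul_eq_bot]
    rintro (h | h)
    · exact hP0 h
    · exact hWne h
  have hIN : (Ideal.absNorm I : ℝ) = N * (W : ℝ) ^ eK K := by
    rw [hI, map_mul, Nat.cast_mul, absNorm_natCast]
  have hcoord : ∀ l, ((XP.image fun x => x l).card : ℝ) ≤ CK K n * (1 + (2 * (B : ℝ)) ^ eK K / (N * (W : ℝ) ^ eK K)) := by
    intro l
    have h1 := upI n (XP.image fun x => x l) I hIne (fun _ => 2 * (B : ℝ)) (fun _ => by positivity) (by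
      intro z hz w hw
      rw [Finset.mem_image] at hz hw
      obtain ⟨x, hx, rfl⟩ := hz
      obtain ⟨y, hy, rfl⟩ := hw
      rw [hXP, Finset.mem_filter] at hx hy
      refine ⟨?_, fun v => ?_⟩
      · rw [← hmul]
        refine ⟨P.sub_mem (hx.2 l).1 (hy.2 l).1, ?_⟩
        have h1 : x l - y l = (x l - x0 l) - (y l - x0 l) := by ring
        rw [h1]
        exact Ideal.mem_span_singleton.2 (dvd_sub (hx.2 l).2 (hy.2 l).2)
      · push_cast
        refine (v_sub_le v _ _).trans ?_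
        have h2 := mem_VBox.mp hx.1 l v
        have h3 := mem_VBox.mp hy.1 l v
        linarith)
    rw [pn_const, hIN] at h1
    exact h1
  have hsub : XP ⊆ Fintype.piFinset fun l : Fin (n + 1) => XP.image fun x => x l := by
    intro x hx
    rw [Fintype.mem_piFinset]
    intro l
    exact Finset.mem_image_of_mem _ hx
  have h1 : (XP.card : ℝ) ≤ (CK K n * (1 + (2 * (B : ℝ)) ^ eK K / (N * (W : ℝ) ^ eK K))) ^ (n + 1) := by
    calc (XP.card : ℝ) ≤ ((Fintype.piFinset fun l : Fin (n + 1) => XP.image fun x => x l).card : ℝ) := by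
          exact_mod_cast Finset.card_le_card hsub
      _ = ∏ l : Fin (n + 1), ((XP.image fun x => x l).card : ℝ) := by
          rw [Fintype.card_piFinset]
          push_cast
          rfl
      _ ≤ ∏ _l : Fin (n + 1), (CK K n * (1 + (2 * (B : ℝ)) ^ eK K / (N * (W : ℝ) ^ eK K))) :=
          Finset.prod_le_prod (fun _ _ => Nat.cast_nonneg _) fun l _ => hcoord l
      _ = _ := by rw [Finset.prod_const, Finset.card_univ, Fintype.card_fin]
  have h2 := CN_Np_pow n ((2 * (B : ℝ)) ^ eK K / (N * (W : ℝ) ^ eK K)) (by positivity)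
  have h3 : ((2 * (B : ℝ)) ^ eK K / (N * (W : ℝ) ^ eK K)) ^ (n + 1) ≤
      2 ^ (eK K * (n + 1)) * (((B : ℝ) / W) ^ (eK K * (n + 1)) * (1 / N ^ 2)) := by
    have e1 : ((2 * (B : ℝ)) ^ eK K / (N * (W : ℝ) ^ eK K)) ^ (n + 1) =
        2 ^ (eK K * (n + 1)) * (((B : ℝ) / W) ^ (eK K * (n + 1)) * (1 / N ^ (n + 1))) := by
      rw [div_pow, mul_pow, mul_pow, mul_pow, div_pow, ← pow_mul, ← pow_mul, ← pow_mul]
      field_simp
    rw [e1]
    have e2 : 1 / N ^ (n + 1) ≤ 1 / N ^ 2 :=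
      one_div_le_one_div_of_le (by positivity) (pow_le_pow_right₀ hN1 (by omega))
    exact mul_le_mul_of_nonneg_left (mul_le_mul_of_nonneg_left e2 (by positivity)) (by positivity)
  have h4 : (1 : ℝ) ≤ 2 ^ (eK K * (n + 1)) := one_le_pow₀ (by norm_num)
  have h5 : 1 + ((2 * (B : ℝ)) ^ eK K / (N * (W : ℝ) ^ eK K)) ^ (n + 1) ≤
      2 ^ (eK K * (n + 1)) * (1 + ((B : ℝ) / W) ^ (eK K * (n + 1)) * (1 / N ^ 2)) := by
    rw [mul_add, mul_one]
    exact add_le_add h4 h3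
  calc (XP.card : ℝ) ≤ (CK K n * (1 + (2 * (B : ℝ)) ^ eK K / (N * (W : ℝ) ^ eK K))) ^ (n + 1) := h1
    _ = CK K n ^ (n + 1) * (1 + (2 * (B : ℝ)) ^ eK K / (N * (W : ℝ) ^ eK K)) ^ (n + 1) := by rw [mul_pow]
    _ ≤ CK K n ^ (n + 1) * (2 ^ (n + 1) * (2 ^ (eK K * (n + 1)) *
          (1 + ((B : ℝ) / W) ^ (eK K * (n + 1)) * (1 / N ^ 2)))) := by
        refine mul_le_mul_of_nonneg_left (h2.trans ?_) (by positivity)
        exact mul_le_mul_of_nonneg_left h5 (by positivity)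
    _ = _ := by ring

theorem nonPrim (n : ℕ) (hn : 1 ≤ n) : ∃ C : ℝ, 1 ≤ C ∧ ∀ w B : ℕ, 1 ≤ w → 1 ≤ B →
    ∀ x0 : Vc n (𝓞 K), Uni (vmap (Ideal.Quotient.mk (WI K w)) x0) →
    (((VBox K n B).filter fun x => (∀ l, ((WW w : ℕ) : 𝓞 K) ∣ x l - x0 l) ∧ x ≠ 0 ∧
      ¬ Uni x).card : ℝ) ≤
      C * (((B : ℝ) / (WW w : ℝ)) ^ (eK K * (n + 1)) / (w + 1) + (B : ℝ) ^ eK K) := by
  have hCK := CK_one_le K n
  have hCK0 := CK_pos K n
  set C1 : ℝ := CK K n ^ (n + 1) * 2 ^ (n + 1) * 2 ^ (eK K * (n + 1)) with hC1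
  have hC1' : 1 ≤ C1 := by
    rw [hC1]
    refine one_le_mul_of_one_le_of_one_le (one_le_mul_of_one_le_of_one_le (one_le_pow₀ hCK) ?_) ?_
    · exact one_le_pow₀ (by norm_num)
    · exact one_le_pow₀ (by norm_num)
  refine ⟨C1 * CK K n, one_le_mul_of_one_le_of_one_le hC1' hCK, ?_⟩
  intro w B hw hB x0 h0
  have hW1 := CN_Np_WWpos w
  have hB1 : (1 : ℝ) ≤ B := by exact_mod_cast hB
  set F := (VBox K n B).filter fun x => (∀ l, ((WW w : ℕ) : 𝓞 K) ∣ x l - x0 l) ∧ x ≠ 0 ∧ ¬ Uni x with hF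
  have hex : ∀ x ∈ F, ∃ P : Ideal (𝓞 K), (P.IsMaximal ∧ P ≠ ⊥ ∧ ((WW w : ℕ) : 𝓞 K) ∉ P ∧
      (w : ℝ) < Ideal.absNorm P ∧ (Ideal.absNorm P : ℝ) ≤ (B : ℝ) ^ eK K) ∧ ∀ l, x l ∈ P := by
    intro x hx
    rw [hF, Finset.mem_filter] at hx
    obtain ⟨P, hP, hP0, hPx⟩ := nonUni x hx.2.2.1 hx.2.2.2
    have h1 := CN_Np_notMem K x0 x h0 hx.2.1 P hP hPx
    exact ⟨P, ⟨hP, hP0, h1, CN_Np_norm_gt K P hP0 h1, CN_Np_norm_le K x hx.1 hx.2.2.1 P hPx⟩, hPx⟩
  choose! P hP using hex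
  set PS := F.image P with hPS
  have hgood : ∀ Q ∈ PS, Q.IsMaximal ∧ Q ≠ ⊥ ∧ ((WW w : ℕ) : 𝓞 K) ∉ Q ∧
      (w : ℝ) < Ideal.absNorm Q ∧ (Ideal.absNorm Q : ℝ) ≤ (B : ℝ) ^ eK K := by
    intro Q hQ
    rw [hPS, Finset.mem_image] at hQ
    obtain ⟨x, hx, rfl⟩ := hQ
    exact (hP x hx).1
  have hsub : F ⊆ PS.biUnion fun Q => (VBox K n B).filter fun x => ∀ l, x l ∈ Q ∧ ((WW w : ℕ) : 𝓞 K) ∣ x l - x0 l := by
    intro x hx
    rw [Finset.mem_biUnion]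
    refine ⟨P x, Finset.mem_image_of_mem _ hx, ?_⟩
    have h1 := (hP x hx).2
    rw [hF, Finset.mem_filter] at hx
    rw [Finset.mem_filter]
    exact ⟨hx.1, fun l => ⟨h1 l, hx.2.1 l⟩⟩
  have h1 : (F.card : ℝ) ≤ ∑ Q ∈ PS,
      (((VBox K n B).filter fun x => ∀ l, x l ∈ Q ∧ ((WW w : ℕ) : 𝓞 K) ∣ x l - x0 l).card : ℝ) := by
    exact_mod_cast (Finset.card_le_card hsub).trans Finset.card_biUnion_le
  have h2 : ∀ Q ∈ PS, (((VBox K n B).filter fun x => ∀ l, x l ∈ Q ∧ ((WW w : ℕ) : 𝓞 K) ∣ x l - x0 l).card : ℝ) ≤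
      C1 * (1 + ((B : ℝ) / (WW w : ℝ)) ^ (eK K * (n + 1)) * (1 / (Ideal.absNorm Q : ℝ) ^ 2)) := by
    intro Q hQ
    obtain ⟨q1, q2, q3, -, -⟩ := hgood Q hQ
    exact CN_Np_class K n hn B (WW w) hB hW1 Q q1 q2 q3 x0
  have h3 := idCount n (X := (B : ℝ) ^ eK K) (one_le_pow₀ hB1) PS (fun Q hQ => (hgood Q hQ).2.2.2.2)
  have h4 := idTail n w PS (fun Q hQ => (hgood Q hQ).2.2.2.1)
  refine h1.trans ((Finset.sum_le_sum h2).trans ?_)
  rw [← Finset.mul_sum, Finset.sum_add_distrib, Finset.sum_const, nsmul_eq_mul, mul_one, ← Finset.mul_sum, mul_assoc C1]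
  refine mul_le_mul_of_nonneg_left ?_ (by linarith)
  have h5 : ((B : ℝ) / (WW w : ℝ)) ^ (eK K * (n + 1)) * ∑ Q ∈ PS, 1 / (Ideal.absNorm Q : ℝ) ^ 2 ≤
      ((B : ℝ) / (WW w : ℝ)) ^ (eK K * (n + 1)) * (CK K n / (w + 1)) :=
    mul_le_mul_of_nonneg_left h4 (by positivity)
  have h6 : CK K n * (((B : ℝ) / (WW w : ℝ)) ^ (eK K * (n + 1)) / (w + 1) + (B : ℝ) ^ eK K) =
      CK K n * (B : ℝ) ^ eK K + ((B : ℝ) / (WW w : ℝ)) ^ (eK K * (n + 1)) * (CK K n / (w + 1)) := by ring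
  rw [h6]
  exact add_le_add h3 h5

end Pool.Agent.Lib.MP_1ad228_ntN
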