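import Pool.Agent.Lib.MP_1ad228_ntN.LD_Base

/-!
JOB LD_Crt.  Chinese remainders.  (Model with proof: Lib/MP_1ad228_ntF/LD_Crt.lean; adapt it: `ZMod.chineseRemainder` becomes
`Ideal.quotientMulEquivQuotientProd I J h : 𝓞 K ⧸ I * J ≃+* (𝓞 K ⧸ I) × (𝓞 K ⧸ J)`, with
`Ideal.quotientMulEquivQuotientProd_fst`, `.._snd` describing its components; casts become `Ideal.Quotient.mk`: `red I F i = fun s => Ideal.Quotient.mk I (F i s)` by `rfl`.)

LD_mul.  The map `(x, y) ↦ (i ↦ e.symm (x i, y i))` sends a pair of unimodular common zeros modulo `I` and `J` to a unimodular common zero modulo `I * J` and is injective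
(`Nat.card_le_card_of_injective`; the target is finite: `I * J ≠ ⊥` (`mul_ne_zero`), `finite_quot`). For the values: `ev_map` for the ring homs
`(RingHom.fst _ _).comp e`, `(RingHom.snd _ _).comp e : 𝓞 K ⧸ I * J →+* ..`, which send `mk z` to `mk z` (`Ideal.quotientMulEquivQuotientProd_fst`/`Ideal.Quotient.factor_mk`).
LD_prod.  Induction on `s` (`Finset.induction_on`), `IsCoprime.prod_right`; the empty product is `1 = ⊤`, and over the zero ring `𝓞 K ⧸ ⊤` there is a unimodular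
zero (`Subsingleton.elim`).
-/

namespace Pool.Agent.Lib.MP_1ad228_ntN

open NumberField Classical

variable {K : Type} [Field K] [NumberField K]

private theorem LD_Crt_lin {n : ℕ} {R S : Type*} [CommRing R] [CommRing S] (f : R →+* S)
    (u x : Vc n R) : lin (fun i => f (u i)) (fun i => f (x i)) = f (lin u x) := by
  simp [lin, map_sum, map_mul]

theorem LD_mul {n r : ℕ} {d : Fin r → ℕ} (I J : Ideal (𝓞 K)) (hI : I ≠ ⊥) (hJ : J ≠ ⊥)
    (h : IsCoprime I J) (F : Tup n d (𝓞 K)) : smI I F * smI J F ≤ smI (I * J) F := by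
  have hfin1 : Finite (𝓞 K ⧸ I) := finite_quot hI
  have hfin2 : Finite (𝓞 K ⧸ J) := finite_quot hJ
  have hfin3 : Finite (𝓞 K ⧸ I * J) := finite_quot (mul_ne_zero hI hJ)
  let e : 𝓞 K ⧸ I * J ≃+* (𝓞 K ⧸ I) × (𝓞 K ⧸ J) := Ideal.quotientMulEquivQuotientProd I J h
  have hinj : Function.Injective e := e.injective
  let f1 : 𝓞 K ⧸ I * J →+* 𝓞 K ⧸ I := (RingHom.fst (𝓞 K ⧸ I) (𝓞 K ⧸ J)).comp e.toRingHom
  let f2 : 𝓞 K ⧸ I * J →+* 𝓞 K ⧸ J := (RingHom.snd (𝓞 K ⧸ I) (𝓞 K ⧸ J)).comp e.toRingHom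
  have hf1 : ∀ z : 𝓞 K, f1 (Ideal.Quotient.mk (I * J) z) = Ideal.Quotient.mk I z := by
    intro z
    change (Ideal.quotientMulEquivQuotientProd I J h (Ideal.Quotient.mk (I * J) z)).fst = _
    rw [Ideal.quotientMulEquivQuotientProd_fst, Ideal.Quotient.factor_mk]
  have hf2 : ∀ z : 𝓞 K, f2 (Ideal.Quotient.mk (I * J) z) = Ideal.Quotient.mk J z := by
    intro z
    change (Ideal.quotientMulEquivQuotientProd I J h (Ideal.Quotient.mk (I * J) z)).snd = _
    rw [Ideal.quotientMulEquivQuotientProd_snd, Ideal.Quotient.factor_mk]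
  have hr1 : ∀ k : Fin r, (fun s => f1 (red (I * J) F k s)) = red I F k := fun k => funext fun s => hf1 (F k s)
  have hr2 : ∀ k : Fin r, (fun s => f2 (red (I * J) F k s)) = red J F k := fun k => funext fun s => hf2 (F k s)
  have key : ∀ (k : Fin r) (z : Vc n (𝓞 K ⧸ I * J)) (x : Vc n (𝓞 K ⧸ I)) (y : Vc n (𝓞 K ⧸ J)),
      (∀ i, e (z i) = (x i, y i)) →
      e (ev (red (I * J) F k) z) = (ev (red I F k) x, ev (red J F k) y) := by
    intro k z x y hz
    have h1 := ev_map f1 (red (I * J) F k) z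
    have h2 := ev_map f2 (red (I * J) F k) z
    have e1 : (fun i => f1 (z i)) = x := by
      funext i
      exact congrArg Prod.fst (hz i)
    have e2 : (fun i => f2 (z i)) = y := by
      funext i
      exact congrArg Prod.snd (hz i)
    rw [e1, hr1] at h1
    rw [e2, hr2] at h2
    exact Prod.ext h1.symm h2.symm
  have keyl : ∀ (v z : Vc n (𝓞 K ⧸ I * J)) (u x : Vc n (𝓞 K ⧸ I)) (w y : Vc n (𝓞 K ⧸ J)),
      (∀ i, e (v i) = (u i, w i)) → (∀ i, e (z i) = (x i, y i)) →
      e (lin v z) = (lin u x, lin w y) := by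
    intro v z u x w y hv hz
    have h1 := LD_Crt_lin f1 v z
    have h2 := LD_Crt_lin f2 v z
    have e1 : (fun i => f1 (z i)) = x := by
      funext i
      exact congrArg Prod.fst (hz i)
    have e2 : (fun i => f2 (z i)) = y := by
      funext i
      exact congrArg Prod.snd (hz i)
    have e3 : (fun i => f1 (v i)) = u := by
      funext i
      exact congrArg Prod.fst (hv i)
    have e4 : (fun i => f2 (v i)) = w := by
      funext i
      exact congrArg Prod.snd (hv i)
    rw [e1, e3] at h1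
    rw [e2, e4] at h2
    exact Prod.ext h1.symm h2.symm
  unfold smI smR
  rw [← Nat.card_prod]
  let Φ : {x : Vc n (𝓞 K ⧸ I) // Uni x ∧ ∀ k, ev (red I F k) x = 0} ×
      {y : Vc n (𝓞 K ⧸ J) // Uni y ∧ ∀ k, ev (red J F k) y = 0} →
      {z : Vc n (𝓞 K ⧸ I * J) // Uni z ∧ ∀ k, ev (red (I * J) F k) z = 0} := fun p =>
    ⟨fun i => e.symm (p.1.1 i, p.2.1 i), by
      obtain ⟨⟨x, ⟨u, hu⟩, hx⟩, ⟨y, ⟨w, hw⟩, hy⟩⟩ := p
      refine ⟨?_, ?_⟩
      · refine ⟨fun i => e.symm (u i, w i), hinj ?_⟩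
        rw [keyl _ _ u x w y (fun i => e.apply_symm_apply _) (fun i => e.apply_symm_apply _),
          hu, hw, map_one]
        rfl
      · intro k
        apply hinj
        have h1 : ev (red I F k) x = 0 := hx k
        have h2 : ev (red J F k) y = 0 := hy k
        have h3 := key k (fun i => e.symm (x i, y i)) x y (fun i => e.apply_symm_apply _)
        rw [h1, h2] at h3
        rw [map_zero]
        exact h3⟩
  have hΦ : Function.Injective Φ := by
    intro p p' hpp
    have h1 : ∀ i, (p.1.1 i, p.2.1 i) = (p'.1.1 i, p'.2.1 i) := by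
      intro i
      have h2 := congrFun (congrArg Subtype.val hpp) i
      exact e.symm.injective h2
    refine Prod.ext (Subtype.ext (funext fun i => congrArg Prod.fst (h1 i)))
      (Subtype.ext (funext fun i => congrArg Prod.snd (h1 i)))
  exact Nat.card_le_card_of_injective Φ hΦ

theorem LD_prod {n r : ℕ} {d : Fin r → ℕ} {ι : Type*} (s : Finset ι) (f : ι → Ideal (𝓞 K))
    (hf : ∀ i ∈ s, f i ≠ ⊥) (hc : ∀ i ∈ s, ∀ j ∈ s, i ≠ j → IsCoprime (f i) (f j))
    (F : Tup n d (𝓞 K)) : ∏ i ∈ s, smI (f i) F ≤ smI (∏ i ∈ s, f i) F := by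
  induction s using Finset.induction_on with
  | empty =>
    rw [Finset.prod_empty, Finset.prod_empty]
    have hss : Subsingleton (𝓞 K ⧸ (1 : Ideal (𝓞 K))) :=
      Ideal.Quotient.subsingleton_iff.2 Ideal.one_eq_top
    have hne : Nonempty {x : Vc n (𝓞 K ⧸ (1 : Ideal (𝓞 K))) // Uni x ∧ ∀ i, ev (red 1 F i) x = 0} :=
      ⟨⟨0, ⟨0, Subsingleton.elim _ _⟩, fun _ => Subsingleton.elim _ _⟩⟩
    have hfin : Finite (𝓞 K ⧸ (1 : Ideal (𝓞 K))) := inferInstance
    have hfin2 : Finite {x : Vc n (𝓞 K ⧸ (1 : Ideal (𝓞 K))) // Uni x ∧ ∀ i, ev (red 1 F i) x = 0} := inferInstance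
    unfold smI smR
    exact Nat.card_pos
  | insert i s hi ih =>
    have h1 := ih (fun j hj => hf j (Finset.mem_insert_of_mem hj))
      (fun j hj k hk => hc j (Finset.mem_insert_of_mem hj) k (Finset.mem_insert_of_mem hk))
    have h2 : IsCoprime (f i) (∏ j ∈ s, f j) := by
      apply IsCoprime.prod_right
      intro j hj
      refine hc i (Finset.mem_insert_self _ _) j (Finset.mem_insert_of_mem hj) ?_
      rintro rfl
      exact hi hj
    have h3 : ∏ j ∈ s, f j ≠ ⊥ :=
      Finset.prod_ne_zero_iff.2 fun j hj => hf j (Finset.mem_insert_of_mem hj)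
    have h4 := LD_mul (f i) (∏ j ∈ s, f j) (hf i (Finset.mem_insert_self _ _)) h3 h2 F
    rw [Finset.prod_insert hi, Finset.prod_insert hi]
    exact (Nat.mul_le_mul_left _ h1).trans h4

end Pool.Agent.Lib.MP_1ad228_ntN
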