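import Pool.Agent.Lib.MP_1ad228_ntN.LD_Cnt
import Pool.Agent.Lib.MP_1ad228_ntN.NB_Const

/-!
JOB LD_Del.  The sum over the ideals of a quotient of the ring of integers without small prime factors.

`R = 𝓞 K ⧸ I`, all prime ideals containing `I` have norm `> p0`. Let `T` be a finite set of proper ideals of `R`. For `J ∈ T` put `J' = J.comap (Ideal.Quotient.mk I)`: `I ≤ J'`
(`Ideal.mk_ker`, `Ideal.ker_le_comap`), `J' ≠ ⊤` (`Ideal.comap_ne_top`, or `Ideal.comap_map_of_surjective`), `J' ≠ ⊥` (as `I ≠ ⊥`), and `J ↦ J'` is injective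
(`Ideal.comap_injective_of_surjective _ Ideal.Quotient.mk_surjective`). The rings `R ⧸ J` and `𝓞 K ⧸ J'` are isomorphic
(`Ideal.quotientEquiv`, `DoubleQuot.quotQuotEquivQuotOfLE`, or directly: the composition `𝓞 K → R → R ⧸ J` is surjective with kernel `J'`,
`RingHom.quotientKerEquivOfSurjective`), so `Nat.card (R ⧸ J) = Ideal.absNorm J'` (`card_quotO`).
`J'` is contained in a maximal ideal `P` (`Ideal.exists_le_maximal`), `I ≤ P`, so `p0 < absNorm P`, and `absNorm P ∣ absNorm J'` (`Ideal.absNorm_dvd_absNorm_of_le`), `absNorm J' ≠ 0`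
(`Ideal.absNorm_ne_zero_iff`/`finite_quot`), so `p0 < absNorm J'`. Hence the sum is at most `∑ over the image of 1 / (absNorm J')^2 ≤ CK K 0 / (p0 + 1)` (`idTail 0 p0`).
-/

namespace Pool.Agent.Lib.MP_1ad228_ntN

open NumberField Classical

private theorem LD_Del_card {K : Type} [Field K] [NumberField K] (I : Ideal (𝓞 K)) (J : Ideal (𝓞 K ⧸ I)) :
    Nat.card ((𝓞 K ⧸ I) ⧸ J) = Ideal.absNorm (J.comap (Ideal.Quotient.mk I)) := by
  rw [← card_quotO]
  have hsurj : Function.Surjective ((Ideal.Quotient.mk J).comp (Ideal.Quotient.mk I)) := by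
    rw [RingHom.coe_comp]
    exact Ideal.Quotient.mk_surjective.comp Ideal.Quotient.mk_surjective
  have hker : RingHom.ker ((Ideal.Quotient.mk J).comp (Ideal.Quotient.mk I)) = J.comap (Ideal.Quotient.mk I) := by
    rw [← RingHom.comap_ker, Ideal.mk_ker]
  have e := RingHom.quotientKerEquivOfSurjective hsurj
  rw [← hker]
  exact (Nat.card_congr e.toEquiv).symm

theorem LD_del {K : Type} [Field K] [NumberField K] (p0 : ℕ) (I : Ideal (𝓞 K)) (hI : I ≠ ⊥)
    (h : ∀ P : Ideal (𝓞 K), P.IsPrime → I ≤ P → p0 < Ideal.absNorm P) :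
    IdS (𝓞 K ⧸ I) (CK K 0 / (p0 + 1)) := by
  intro T hT
  have hinj : Function.Injective (fun J : Ideal (𝓞 K ⧸ I) => J.comap (Ideal.Quotient.mk I)) :=
    Ideal.comap_injective_of_surjective _ Ideal.Quotient.mk_surjective
  have hIle : ∀ J : Ideal (𝓞 K ⧸ I), I ≤ J.comap (Ideal.Quotient.mk I) := by
    intro J x hx
    rw [Ideal.mem_comap, Ideal.Quotient.eq_zero_iff_mem.2 hx]
    exact J.zero_mem
  have hsum : ∑ J ∈ T, (1 / (Nat.card ((𝓞 K ⧸ I) ⧸ J) : ℝ)) ^ 2
      = ∑ J' ∈ T.image (fun J : Ideal (𝓞 K ⧸ I) => J.comap (Ideal.Quotient.mk I)),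
        1 / (Ideal.absNorm J' : ℝ) ^ 2 := by
    rw [Finset.sum_image fun a _ b _ hab => hinj hab]
    refine Finset.sum_congr rfl fun J _ => ?_
    rw [LD_Del_card, one_div, one_div, inv_pow]
  rw [hsum]
  refine idTail 0 p0 _ fun J' hJ' => ?_
  obtain ⟨J, hJ, rfl⟩ := Finset.mem_image.1 hJ'
  have hne_top : J.comap (Ideal.Quotient.mk I) ≠ ⊤ := by
    intro h0
    have h1 : J = ⊤ := by
      rw [Ideal.eq_top_iff_one]
      have h2 : (1 : 𝓞 K) ∈ J.comap (Ideal.Quotient.mk I) := by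
        rw [h0]
        exact Submodule.mem_top
      rw [Ideal.mem_comap, map_one] at h2
      exact h2
    rw [h1] at hJ
    exact hT hJ
  have hne_bot : J.comap (Ideal.Quotient.mk I) ≠ ⊥ := by
    intro h0
    have h1 := hIle J
    rw [h0, le_bot_iff] at h1
    exact hI h1
  obtain ⟨P, hP, hle⟩ := Ideal.exists_le_maximal _ hne_top
  have hIP : I ≤ P := (hIle J).trans hle
  have h1 : p0 < Ideal.absNorm P := h P hP.isPrime hIP
  have h2 : Ideal.absNorm P ∣ Ideal.absNorm (J.comap (Ideal.Quotient.mk I)) :=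
    Ideal.absNorm_dvd_absNorm_of_le hle
  have h3 : Ideal.absNorm (J.comap (Ideal.Quotient.mk I)) ≠ 0 := by
    intro h0
    exact hne_bot (Ideal.absNorm_eq_zero_iff.1 h0)
  have h4 := Nat.le_of_dvd (Nat.pos_of_ne_zero h3) h2
  exact_mod_cast lt_of_lt_of_le h1 h4

end Pool.Agent.Lib.MP_1ad228_ntN
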