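import Pool.Agent.Lib.MP_1ad228_ntN.LD_Base
import Pool.Agent.Lib.MP_1ad228_ntN.NB_Const

/-!
JOB LD_Equi.  Residue classes of tuples in a box.  (Model with proof: Lib/MP_1ad228_ntF/LD_Equi.lean; adapt it.)

One residue class: for `c : 𝓞 K ⧸ I`, `A ≥ 1`, the finset `(OBox K A).filter (fun z => Ideal.Quotient.mk I z = c)` has differences in `I` (`Ideal.Quotient.eq`) and of size `v(z - w) ≤ 2 A`
(`mem_OBox`, `v_sub_le`), so by `upI 0` (file NB_Const) with `ρ = fun _ => 2 * A`: `pn ρ = (2A)^(eK K)` (`pn` of a constant, `∏ v, c ^ v.mult = c ^ ∑ v, v.mult`, `InfinitePlace.sum_mult_eq`; there may be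
a lemma in NB_Em) and `# ≤ CK K 0 * (1 + (2A)^e / N(I)) ≤ 2 * CK K 0 * 2^e * (A^e / N(I))` if `A^e ≥ N(I)`, e.g. if `A ≥ N(I)` (`e ≥ 1`, `A ≥ 1`).
All entries: `F ∈ TBox K n d A` with `red I F = G` has its entries in `V = VV n d` such classes: `# ≤ (2 * CK K 0 * 2^e * (A^e / N(I)))^V`
(`Fintype.piFinset` twice, `Fintype.card_piFinset`, `Finset.prod_le_prod`, `Finset.prod_pow_eq_pow_sum`). Sum over the `G` with `p G` (a finite type: `finite_quot`; `Finset.card_biUnion_le`; or write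
the set as the union of the fibres over `Set.Finite.toFinset`). So `C = (2 * CK K 0 * 2^e)^V`, `A0 = absNorm I + 1`.
-/

namespace Pool.Agent.Lib.MP_1ad228_ntN

open NumberField Classical

private theorem LD_Equi_one (K : Type) [Field K] [NumberField K] (I : Ideal (𝓞 K)) (hI : I ≠ ⊥)
    (A : ℕ) (hA1 : 1 ≤ A) (hA : (Ideal.absNorm I : ℝ) ≤ (A : ℝ) ^ eK K) (c : 𝓞 K ⧸ I) :
    (((OBox K (A : ℝ)).filter fun z => Ideal.Quotient.mk I z = c).card : ℝ) ≤
      2 * CK K 0 * 2 ^ eK K * ((A : ℝ) ^ eK K / (Ideal.absNorm I : ℝ)) := by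
  have hA1' : (1 : ℝ) ≤ A := by exact_mod_cast hA1
  have hN : (0 : ℝ) < Ideal.absNorm I := lt_of_lt_of_le one_pos (one_le_absNorm hI)
  have h1 := upI 0 ((OBox K (A : ℝ)).filter fun z => Ideal.Quotient.mk I z = c) I hI
    (fun _ => 2 * (A : ℝ)) (fun _ => by positivity) (by
      intro z hz w hw
      obtain ⟨hz1, hz2⟩ := Finset.mem_filter.1 hz
      obtain ⟨hw1, hw2⟩ := Finset.mem_filter.1 hw
      refine ⟨Ideal.Quotient.eq.1 (hz2.trans hw2.symm), fun v => ?_⟩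
      have h2 := v_sub_le v (z : K) (w : K)
      have h3 := mem_OBox.1 hz1 v
      have h4 := mem_OBox.1 hw1 v
      have h5 : (((z - w : 𝓞 K)) : K) = (z : K) - (w : K) := map_sub (algebraMap (𝓞 K) K) z w
      rw [h5]
      linarith)
  rw [pn_const] at h1
  have hC : (0 : ℝ) ≤ CK K 0 := by linarith [CK_one_le K 0]
  have h6 : (1 : ℝ) ≤ (A : ℝ) ^ eK K / (Ideal.absNorm I : ℝ) := by
    rw [le_div_iff₀ hN, one_mul]
    exact hA
  have h7 : (1 : ℝ) ≤ 2 ^ eK K := one_le_pow₀ (by norm_num)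
  have h8 : (2 * (A : ℝ)) ^ eK K / (Ideal.absNorm I : ℝ) =
      2 ^ eK K * ((A : ℝ) ^ eK K / (Ideal.absNorm I : ℝ)) := by
    rw [mul_pow, mul_div_assoc]
  rw [h8] at h1
  refine h1.trans ?_
  have h9 : 1 + (2 : ℝ) ^ eK K * ((A : ℝ) ^ eK K / (Ideal.absNorm I : ℝ)) ≤
      2 * 2 ^ eK K * ((A : ℝ) ^ eK K / (Ideal.absNorm I : ℝ)) := by
    nlinarith
  calc CK K 0 * (1 + (2 : ℝ) ^ eK K * ((A : ℝ) ^ eK K / (Ideal.absNorm I : ℝ)))
      ≤ CK K 0 * (2 * 2 ^ eK K * ((A : ℝ) ^ eK K / (Ideal.absNorm I : ℝ))) :=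
        mul_le_mul_of_nonneg_left h9 hC
    _ = _ := by ring

private theorem LD_Equi_tup (K : Type) [Field K] [NumberField K] (n : ℕ) {r : ℕ} (d : Fin r → ℕ)
    (I : Ideal (𝓞 K)) (hI : I ≠ ⊥)
    (A : ℕ) (hA1 : 1 ≤ A) (hA : (Ideal.absNorm I : ℝ) ≤ (A : ℝ) ^ eK K) (G : Tup n d (𝓞 K ⧸ I)) :
    (((TBox K n d A).filter fun F => red I F = G).card : ℝ) ≤
      (2 * CK K 0 * 2 ^ eK K * ((A : ℝ) ^ eK K / (Ideal.absNorm I : ℝ))) ^ VV n d := by
  have hsub : ((TBox K n d A).filter fun F => red I F = G) ⊆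
      Fintype.piFinset fun i => Fintype.piFinset fun s =>
        (OBox K (A : ℝ)).filter fun z => Ideal.Quotient.mk I z = G i s := by
    intro F hF
    have hF' := Finset.mem_filter.1 hF
    have hF1 := Fintype.mem_piFinset.1 hF'.1
    simp only [Fintype.mem_piFinset]
    intro i s
    rw [Finset.mem_filter]
    refine ⟨Fintype.mem_piFinset.1 (hF1 i) s, ?_⟩
    exact congrFun (congrFun hF'.2 i) s
  refine (Nat.cast_le.2 (Finset.card_le_card hsub)).trans ?_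
  simp only [Fintype.card_piFinset]
  push_cast
  calc ∏ i : Fin r, ∏ s : Fin (d i) → Fin (n + 1),
        (((OBox K (A : ℝ)).filter fun z => Ideal.Quotient.mk I z = G i s).card : ℝ)
      ≤ ∏ i : Fin r, ∏ _s : Fin (d i) → Fin (n + 1),
        (2 * CK K 0 * 2 ^ eK K * ((A : ℝ) ^ eK K / (Ideal.absNorm I : ℝ))) :=
        Finset.prod_le_prod (fun i _ => Finset.prod_nonneg fun s _ => Nat.cast_nonneg _)
          fun i _ => Finset.prod_le_prod (fun s _ => Nat.cast_nonneg _)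
            fun s _ => LD_Equi_one K I hI A hA1 hA (G i s)
    _ = (2 * CK K 0 * 2 ^ eK K * ((A : ℝ) ^ eK K / (Ideal.absNorm I : ℝ))) ^ VV n d := by
        simp only [Finset.prod_const, Finset.card_univ, Fintype.card_fun, Fintype.card_fin, VV]
        exact Finset.prod_pow_eq_pow_sum _ _ _

theorem LD_equi (K : Type) [Field K] [NumberField K] (n : ℕ) {r : ℕ} (d : Fin r → ℕ) :
    ∃ C : ℝ, 0 < C ∧ ∀ I : Ideal (𝓞 K), I ≠ ⊥ → ∃ A0 : ℕ, ∀ A : ℕ, A0 ≤ A →
      ∀ p : Tup n d (𝓞 K ⧸ I) → Prop,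
        (((TBox K n d A).filter fun F => p (red I F)).card : ℝ) ≤
          C * ((Nat.card {G : Tup n d (𝓞 K ⧸ I) // p G} : ℝ) /
            (Ideal.absNorm I : ℝ) ^ VV n d) * (A : ℝ) ^ (eK K * VV n d) := by
  have hC : (1 : ℝ) ≤ CK K 0 := CK_one_le K 0
  refine ⟨(2 * CK K 0 * 2 ^ eK K) ^ VV n d, by positivity, fun I hI => ?_⟩
  refine ⟨Ideal.absNorm I + 1, fun A hA p => ?_⟩
  have hfin : Finite (𝓞 K ⧸ I) := finite_quot hI
  have : Fintype (𝓞 K ⧸ I) := Fintype.ofFinite _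
  have : Fintype (Tup n d (𝓞 K ⧸ I)) := Fintype.ofFinite _
  have hA1 : 1 ≤ A := le_trans (by omega) hA
  have hA1' : (1 : ℝ) ≤ A := by exact_mod_cast hA1
  have hA2 : (Ideal.absNorm I : ℝ) ≤ (A : ℝ) ^ eK K := by
    have h1 : (Ideal.absNorm I : ℝ) ≤ A := by
      have h2 : Ideal.absNorm I ≤ A := by omega
      exact_mod_cast h2
    exact h1.trans (le_self_pow₀ hA1' (eK_pos (K := K)).ne')
  have hsub : ((TBox K n d A).filter fun F => p (red I F)) ⊆
      (Finset.univ.filter fun G : Tup n d (𝓞 K ⧸ I) => p G).biUnion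
        fun G => (TBox K n d A).filter fun F => red I F = G := by
    intro F hF
    have hF' := Finset.mem_filter.1 hF
    rw [Finset.mem_biUnion]
    exact ⟨red I F, Finset.mem_filter.2 ⟨Finset.mem_univ _, hF'.2⟩,
      Finset.mem_filter.2 ⟨hF'.1, rfl⟩⟩
  have h1 : (((TBox K n d A).filter fun F => p (red I F)).card : ℝ) ≤
      ∑ G ∈ Finset.univ.filter fun G : Tup n d (𝓞 K ⧸ I) => p G,
        (((TBox K n d A).filter fun F => red I F = G).card : ℝ) := by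
    have h2 := (Finset.card_le_card hsub).trans Finset.card_biUnion_le
    exact_mod_cast h2
  refine h1.trans ((Finset.sum_le_sum fun G _ => LD_Equi_tup K n d I hI A hA1 hA2 G).trans ?_)
  have h3 : Nat.card {G : Tup n d (𝓞 K ⧸ I) // p G} =
      (Finset.univ.filter fun G : Tup n d (𝓞 K ⧸ I) => p G).card := by
    rw [Nat.card_eq_fintype_card, Fintype.card_subtype]
  rw [Finset.sum_const, nsmul_eq_mul, h3, mul_pow, div_pow, ← pow_mul]
  exact le_of_eq (by ring)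

end Pool.Agent.Lib.MP_1ad228_ntN
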