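import Pool.Agent.Lib.MP_1ad228_ntN.LD_Base

/-!
JOB LD_Lin.  The fibres of the first jet of a tensor at a point with a coordinate 1.  (Model with proof: `LD_lin` in Lib/MP_1ad228_ntF/LD_Lin.lean; adapt it.)

`lsec`, `lsec_ev`, `lsec_dev` (the section of one tensor, over any commutative ring) are proved in the model and exported in LD_Base.
LD_lin.  The additive map `P : a ↦ (ev a x, (dev a x j)_{j ≠ i})` (`P a j = if j = i then ev a x else dev a x j`)
has the section `t ↦ lsec i x (t i) t`; `a ↦ (a - lsec (P a - t0), P a)` is a bijection from `Ten n d R` to (fibre over `t0`) × `Vc n R`;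
`card_TenR`, `card_VcR`.
-/

namespace Pool.Agent.Lib.MP_1ad228_ntN

open Classical

theorem LD_lin {n d : ℕ} (hd : 1 ≤ d) {R : Type*} [CommRing R] [Finite R] (x : Vc n R)
    (i : Fin (n + 1)) (hi : x i = 1) (c : R) (b : Vc n R) :
    Nat.card {a : Ten n d R // ev a x = c ∧ ∀ j, j ≠ i → dev a x j = b j} *
      Nat.card R ^ (n + 1) = Nat.card R ^ (n + 1) ^ d := by
  let P : Ten n d R → Vc n R := fun a j => if j = i then ev a x else dev a x j
  let T : Vc n R → Ten n d R := fun t => lsec i x (t i) t
  let t0 : Vc n R := fun j => if j = i then c else b j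
  have hPs : ∀ t, P (T t) = t := by
    intro t
    funext j
    by_cases hj : j = i
    · subst hj
      exact (if_pos rfl).trans (lsec_ev hd j x hi (t j) t)
    · exact (if_neg hj).trans (lsec_dev hd i x hi (t i) t j hj)
  have hPadd : ∀ a b, P (a + b) = P a + P b := by
    intro a b
    funext j
    simp only [P, Pi.add_apply]
    split_ifs
    · exact ev_add a b x
    · exact dev_add a b x j
  have hPsub : ∀ a b, P (a - b) = P a - P b := by
    intro a b
    funext j
    simp only [P, Pi.sub_apply]
    split_ifs
    · exact ev_sub a b x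
    · exact dev_sub a b x j
  have hPk : ∀ a, P a = t0 ↔ (ev a x = c ∧ ∀ j, j ≠ i → dev a x j = b j) := by
    intro a
    constructor
    · intro h
      refine ⟨?_, fun j hj => ?_⟩
      · have := congrFun h i
        simpa [P, t0] using this
      · have := congrFun h j
        simpa [P, t0, hj] using this
    · rintro ⟨h1, h2⟩
      funext j
      by_cases hj : j = i
      · simp [P, t0, hj, h1]
      · simp [P, t0, hj, h2 j hj]
  have e : Ten n d R ≃
      {a : Ten n d R // ev a x = c ∧ ∀ j, j ≠ i → dev a x j = b j} × Vc n R :=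
    { toFun := fun a => (⟨a - T (P a - t0), by
        rw [← hPk, hPsub, hPs, sub_sub_cancel]⟩, P a)
      invFun := fun p => p.1.1 + T (p.2 - t0)
      left_inv := fun a => sub_add_cancel _ _
      right_inv := by
        rintro ⟨⟨k, hk⟩, t⟩
        have h1 : P (k + T (t - t0)) = t := by
          rw [hPadd, hPs, (hPk k).2 hk, add_sub_cancel]
        refine Prod.ext (Subtype.ext ?_) h1
        change k + T (t - t0) - T (P (k + T (t - t0)) - t0) = k
        rw [h1, add_sub_cancel_right] }
  have h1 := Nat.card_congr e
  rw [Nat.card_prod] at h1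
  rw [card_TenR, card_VcR] at h1
  exact h1.symm

end Pool.Agent.Lib.MP_1ad228_ntN
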