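import Mathlib

/-!
JOB LD_ElimD.  A large maximal minor over a discrete valuation ring.  (Compare Lib/MP_1ad228_ntF/LD_Elim.lean: the same over a field with a real absolute value; the
private lemma `elim_det` there is the determinant computation with pivot row 0.)

PROOF.  Induction on `r` (for all `J`). `r = 0`: the determinant of the empty matrix is `1`, and `π ^ 1` does not divide `1` (`hπ.not_isUnit`, `isUnit_of_dvd_one`).
Step `r + 1`. `ι` is nonempty (apply `h` to `t = Pi.single 0 1`), and some entry of `J` is nonzero. Among all pairs `(l, j)` choose `(l0, j0)` such that `J l0 j0` divides all entries `J l j`: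
in a discrete valuation ring divisibility is a total relation (`ValuationRing.dvd_total`), `Fin (r+1) × ι` is finite and nonempty, so there is a smallest element (induction over a
finset; or `Finite.exists_min` for the function `IsDiscreteValuationRing.addVal A (J l j)` with `IsDiscreteValuationRing.addVal_le_iff_dvd`).
`J l0 j0 = u * π ^ a` with `u` a unit (`IsDiscreteValuationRing.eq_unit_mul_pow_irreducible`, `J l0 j0 ≠ 0`: otherwise all entries vanish, against `h`) and `a ≤ e`: by `h` for `t = Pi.single l0 1`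
there is `j` with `¬ π ^ (e+1) ∣ J l0 j`, but `J l0 j0 ∣ J l0 j`, so `¬ π ^ (e+1) ∣ J l0 j0`.
Let `J l j = c l * J l0 j0` at `j = j0` (choose `c : Fin (r+1) → A` with `J l j0 = c l * J l0 j0`) and `J' : Fin r → ι → A`, `J' l j = J (l0.succAbove l) j - c (l0.succAbove l) * J l0 j`.
`J'` satisfies the hypothesis: for `t' : Fin r → A` with `t' l = 1` apply `h` to `t = l0.insertNth (-(∑ l, t' l * c (l0.succAbove l))) t'` (`Fin.insertNth`; `t (l0.succAbove l) = t' l`):
`∑ l, t l * J l j = ∑ l, t' l * J' l j` (`Fin.sum_univ_succAbove _ l0`). The induction hypothesis gives `S'` with `¬ π ^ (r * e + 1) ∣ det (J' l (S' k))`. Put `S = Fin.cons j0 S'`.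
`det (fun l k => J l (S k)) = (unit) * J l0 j0 * det (fun l k => J' l (S' k))`: subtract `c l` times row `l0` from row `l` for all `l ≠ l0`
(`Matrix.det_eq_of_forall_row_eq_smul_add_const`), expand along the column 0 (`Matrix.det_succ_column_zero`), whose entries are `0` except the one in row `l0`; the unit is `(-1)^(l0 : ℕ)`.
So `det = u' * π ^ a * det'` with `u'` a unit; if `π ^ ((r+1) * e + 1)` divided it then, as `a ≤ e`, `π ^ (r * e + 1 + a) ∣ π ^ a * det'`, so `π ^ (r * e + 1) ∣ det'` (`mul_dvd_mul_iff_left`), contradiction.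
-/

namespace Pool.Agent.Lib.MP_1ad228_ntN

open Classical

private theorem LD_ElimD_det {A : Type*} [CommRing A] {ι : Type*} {r : ℕ}
    (J : Fin (r + 1) → ι → A) (j0 : ι) (l0 : Fin (r + 1)) (c : Fin (r + 1) → A)
    (hc : ∀ l, J l j0 = c l * J l0 j0) (S' : Fin r → ι) :
    Matrix.det (fun l k => J l ((Fin.cons j0 S' : Fin (r + 1) → ι) k)) =
      (-1) ^ (l0 : ℕ) * J l0 j0 * Matrix.det (fun l k => J (l0.succAbove l) (S' k) -
        c (l0.succAbove l) * J l0 (S' k)) := by
  have h1 := Matrix.det_eq_of_forall_row_eq_smul_add_const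
    (A := fun l k => J l ((Fin.cons j0 S' : Fin (r + 1) → ι) k))
    (B := fun l k => if l = l0 then J l0 ((Fin.cons j0 S' : Fin (r + 1) → ι) k) else
      J l ((Fin.cons j0 S' : Fin (r + 1) → ι) k) -
        c l * J l0 ((Fin.cons j0 S' : Fin (r + 1) → ι) k))
    (fun l => if l = l0 then 0 else c l) l0 (if_pos rfl) (by
      intro i j
      by_cases hi : i = l0
      · simp [hi]
      · simp [hi])
  rw [h1, Matrix.det_succ_column_zero, Finset.sum_eq_single l0]
  · simp only [Fin.cons_zero, if_true]
    congr 2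
    ext l k
    simp only [Matrix.submatrix_apply, Fin.cons_succ, if_neg (Fin.succAbove_ne l0 l)]
  · intro i _ hi
    simp only [Fin.cons_zero, if_neg hi]
    rw [hc i, sub_self, mul_zero, zero_mul]
  · intro h
    exact absurd (Finset.mem_univ _) h

private theorem LD_ElimD_min {A : Type*} [CommRing A] [IsDomain A] [IsDiscreteValuationRing A]
    {α : Type*} (s : Finset α) (f : α → A) (hs : s.Nonempty) :
    ∃ a ∈ s, ∀ b ∈ s, f a ∣ f b := by
  induction hs using Finset.Nonempty.cons_induction with
  | singleton a =>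
    refine ⟨a, Finset.mem_singleton_self a, fun b hb => ?_⟩
    rw [Finset.mem_singleton.1 hb]
  | cons a s h hs ih =>
    obtain ⟨a', ha', h'⟩ := ih
    rcases ValuationRing.dvd_total (f a) (f a') with k | k
    · refine ⟨a, Finset.mem_cons_self _ _, fun b hb => ?_⟩
      rcases Finset.mem_cons.1 hb with hb | hb
      · rw [hb]
      · exact k.trans (h' b hb)
    · refine ⟨a', Finset.mem_cons.2 (Or.inr ha'), fun b hb => ?_⟩
      rcases Finset.mem_cons.1 hb with hb | hb
      · rw [hb]
        exact k
      · exact h' b hb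

theorem elimD {A : Type*} [CommRing A] [IsDomain A] [IsDiscreteValuationRing A] {π : A}
    (hπ : Irreducible π) {ι : Type*} [Finite ι] {r : ℕ} (e : ℕ) (J : Fin r → ι → A)
    (h : ∀ t : Fin r → A, (∃ l, t l = 1) → ∃ j, ¬ π ^ (e + 1) ∣ ∑ l, t l * J l j) :
    ∃ S : Fin r → ι, ¬ π ^ (r * e + 1) ∣ Matrix.det (fun l k => J l (S k)) := by
  have : Fintype ι := Fintype.ofFinite ι
  induction r with
  | zero =>
    refine ⟨Fin.elim0, ?_⟩
    rw [Matrix.det_isEmpty, zero_mul, zero_add, pow_one]
    exact fun h1 => hπ.not_isUnit (isUnit_of_dvd_one h1)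
  | succ r ih =>
    have hsingle : ∀ (l0 : Fin (r + 1)) (j : ι),
        ∑ l, (Pi.single l0 1 : Fin (r + 1) → A) l * J l j = J l0 j := by
      intro l0 j
      rw [Finset.sum_eq_single l0]
      · rw [Pi.single_eq_same, one_mul]
      · intro b _ hb
        rw [Pi.single_eq_of_ne hb, zero_mul]
      · intro h2
        exact absurd (Finset.mem_univ _) h2
    have hne : (Finset.univ : Finset (Fin (r + 1) × ι)).Nonempty := by
      obtain ⟨j, _⟩ := h (Pi.single 0 1) ⟨0, Pi.single_eq_same _ _⟩
      exact ⟨(0, j), Finset.mem_univ _⟩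
    obtain ⟨⟨l0, j0⟩, _, hmin⟩ := LD_ElimD_min Finset.univ
      (fun p : Fin (r + 1) × ι => J p.1 p.2) hne
    have hmin' : ∀ l j, J l0 j0 ∣ J l j := fun l j => hmin (l, j) (Finset.mem_univ _)
    -- the pivot is not divisible by a high power
    have hpiv : ¬ π ^ (e + 1) ∣ J l0 j0 := by
      obtain ⟨j, hj⟩ := h (Pi.single l0 1) ⟨l0, Pi.single_eq_same _ _⟩
      rw [hsingle] at hj
      exact fun hd => hj (hd.trans (hmin' l0 j))
    have hp0 : J l0 j0 ≠ 0 := by
      intro h0
      rw [h0] at hpiv
      exact hpiv (dvd_zero _)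
    obtain ⟨a, u, hu⟩ := IsDiscreteValuationRing.eq_unit_mul_pow_irreducible hp0 hπ
    have ha : a ≤ e := by
      by_contra hlt
      have h2 : e + 1 ≤ a := by omega
      refine hpiv ?_
      rw [hu]
      exact (pow_dvd_pow π h2).mul_left _
    choose c hc using fun l => hmin' l j0
    have hc' : ∀ l, J l j0 = c l * J l0 j0 := fun l => by rw [hc l, mul_comm]
    obtain ⟨S', hS'⟩ := ih (fun l j => J (l0.succAbove l) j - c (l0.succAbove l) * J l0 j) (by
      rintro t' ⟨l, hl⟩
      obtain ⟨j, hj⟩ := h (l0.insertNth (-(∑ l, t' l * c (l0.succAbove l))) t')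
        ⟨l0.succAbove l, by rw [Fin.insertNth_apply_succAbove]; exact hl⟩
      refine ⟨j, ?_⟩
      have h3 : ∑ l, (l0.insertNth (-(∑ l, t' l * c (l0.succAbove l))) t' : Fin (r + 1) → A) l *
          J l j = ∑ l, t' l * (J (l0.succAbove l) j - c (l0.succAbove l) * J l0 j) := by
        rw [Fin.sum_univ_succAbove _ l0]
        simp only [Fin.insertNth_apply_same, Fin.insertNth_apply_succAbove, mul_sub,
          Finset.sum_sub_distrib]
        have h4 : ∑ l, t' l * (c (l0.succAbove l) * J l0 j) =
            (∑ l, t' l * c (l0.succAbove l)) * J l0 j := by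
          rw [Finset.sum_mul]
          refine Finset.sum_congr rfl fun l _ => ?_
          ring
        rw [h4]
        ring
      rw [← h3]
      exact hj)
    refine ⟨Fin.cons j0 S', ?_⟩
    rw [LD_ElimD_det J j0 l0 c hc' S', hu]
    set Dt := Matrix.det (fun l k => J (l0.succAbove l) (S' k) -
        c (l0.succAbove l) * J l0 (S' k)) with hDt
    intro hdvd
    apply hS'
    -- remove the units
    have h5 : π ^ ((r + 1) * e + 1) ∣ π ^ a * Dt := by
      have h6 : IsUnit ((-1 : A) ^ (l0 : ℕ) * (u : A)) :=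
        (IsUnit.pow _ (isUnit_one.neg)).mul u.isUnit
      have h7 : (-1 : A) ^ (l0 : ℕ) * ((u : A) * π ^ a) * Dt =
          ((-1 : A) ^ (l0 : ℕ) * (u : A)) * (π ^ a * Dt) := by ring
      rw [h7] at hdvd
      exact (h6.dvd_mul_left).1 hdvd
    have h8 : π ^ (a + (r * e + 1)) ∣ π ^ a * Dt := by
      refine (pow_dvd_pow π ?_).trans h5
      have : (r + 1) * e = r * e + e := by ring
      omega
    rw [pow_add] at h8
    exact (mul_dvd_mul_iff_left (pow_ne_zero a hπ.ne_zero)).1 h8

end Pool.Agent.Lib.MP_1ad228_ntN
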