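import Pool.Agent.Lib.MP_1ad228_ntN.LD_Base
import Pool.Agent.Lib.MP_1ad228_ntN.LD_ElimD

/-!
JOB LD_Minor.  A good minor at an approximate zero.  (Compare `LD_minor` in Lib/MP_1ad228_ntF/LD_Norm.lean. LD_ElimD is another job.)

`e = f + 1`. Apply `elimD` with `ι = {j // j ≠ i}`, `e := f`, `J l j = dev (F l) x j`. Its hypothesis: let `t : Fin r → A` with `t l = 1` and suppose that
`π ^ e ∣ ∑ k, t k * dev (F k) x j` for all `j ≠ i`. Apply `ρ`: `∑ k, ρ (t k) * dev (fmap ρ F k) (ρ ∘ x) j = 0` for `j ≠ i` (`dev_map`, `map_sum`, `hρ`; `fmap ρ F k = fun s => ρ (F k s)` by `rfl`),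
`ev (fmap ρ F k) (ρ ∘ x) = ρ (ev (F k) x) = 0` (`ev_map`), `ρ (x i) = 1`, `ρ (t l) = 1`: so `ExcR (fmap ρ F)`, contradiction.
`elimD` gives `S' : Fin r → {j // j ≠ i}`; `S k = (S' k).1`. Injective: if `S a = S b` with `a ≠ b` the determinant has two equal columns, so it is `0` (`elim_inj`, or `Matrix.det_zero_of_column_eq`), and `0` is
divisible by everything.
-/

namespace Pool.Agent.Lib.MP_1ad228_ntN

open Classical

theorem LD_minor {A : Type*} [CommRing A] [IsDomain A] [IsDiscreteValuationRing A] {π : A}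
    (hπ : Irreducible π) {Q : Type*} [CommRing Q] (ρ : A →+* Q) {n r : ℕ} {d : Fin r → ℕ}
    (e : ℕ) (he : 1 ≤ e) (hρ : ∀ a, π ^ e ∣ a → ρ a = 0) (F : Tup n d A) (x : Vc n A)
    (i : Fin (n + 1)) (hi : x i = 1) (h0 : ∀ k, ρ (ev (F k) x) = 0)
    (hex : ¬ ExcR (fmap ρ F)) :
    ∃ S : Fin r → Fin (n + 1), (∀ k, S k ≠ i) ∧ Function.Injective S ∧
      ¬ (π ^ (r * (e - 1) + 1) ∣ Matrix.det fun l k => dev (F l) x (S k)) := by
  obtain ⟨f, rfl⟩ : ∃ f, e = f + 1 := ⟨e - 1, by omega⟩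
  rw [Nat.add_sub_cancel]
  obtain ⟨S', hS'⟩ := elimD hπ (ι := {j : Fin (n + 1) // j ≠ i}) f
    (fun l j => dev (F l) x j.1) (fun t ht => by
      by_contra hcon
      push Not at hcon
      obtain ⟨l, hl⟩ := ht
      refine hex ⟨fun j => ρ (x j), i, fun k => ρ (t k), l, ?_, ?_, fun k => ?_, fun j hj => ?_⟩
      · show ρ (x i) = 1
        rw [hi, map_one]
      · show ρ (t l) = 1
        rw [hl, map_one]
      · have h1 : ev (fmap ρ F k) (fun j => ρ (x j)) = ρ (ev (F k) x) := ev_map ρ (F k) x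
        rw [h1, h0 k]
      · have h1 : ∀ k, dev (fmap ρ F k) (fun j => ρ (x j)) j = ρ (dev (F k) x j) := fun k =>
          dev_map ρ (F k) x j
        have h2 : ∑ k, ρ (t k) * dev (fmap ρ F k) (fun j => ρ (x j)) j =
            ρ (∑ k, t k * dev (F k) x j) := by
          rw [map_sum]
          exact Finset.sum_congr rfl fun k _ => by rw [h1 k, map_mul]
        rw [h2]
        exact hρ _ (hcon ⟨j, hj⟩))
  refine ⟨fun k => (S' k).1, fun k => (S' k).2, fun a b hab => ?_, hS'⟩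
  by_contra hne
  apply hS'
  have h1 : Matrix.det (fun l k => dev (F l) x (S' k).1) = 0 := by
    refine Matrix.det_zero_of_column_eq hne fun l => ?_
    show dev (F l) x (S' a).1 = dev (F l) x (S' b).1
    have h2 : (S' a).1 = (S' b).1 := hab
    rw [h2]
  rw [h1]
  exact dvd_zero _

end Pool.Agent.Lib.MP_1ad228_ntN
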