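import Pool.Agent.Lib.MP_1ad228_ntN.LD_Base

/-!
JOB LD_Newt.  Newton's method in `r` coordinates over a discrete valuation ring.
(Model with proof: Lib/MP_1ad228_ntF/LD_Newt.lean; adapt it: `ℤ_[p]` becomes a discrete valuation ring `A`, `(p : ℤ_[p])` becomes the uniformizer `π`; no completeness is needed.)

Notation: `M l k = dev (F l) x (S k)` (matrix), `δ = det M`.
LD_step.  `δ` is not divisible by `π^(D+1)`, so `δ ≠ 0`, `δ = u * π^v`, `u` a unit (`IsDiscreteValuationRing.eq_unit_mul_pow_irreducible`), `v ≤ D`.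
`ev (F l) x = π^m * P l`. Put `s = -u⁻¹ • (M.adjugate.mulVec P)`, `c = π^(m-v)`, and `h` = the vector with `h (S k) = c * s k` (`S` injective)
and `h j = 0` for `j` not in the range of `S` (`h j = ∑ k, if S k = j then c * s k else 0`). Then
`∑ j, dev (F l) x j * h j = c * (M.mulVec s) l = -ev (F l) x` (`Matrix.mul_adjugate`, `δ c u⁻¹ = π^v π^(m-v) = π^m`).
All `h j` are divisible by `c`, so by `ev_taylor_dvd` `c^2 ∣ ev (F l) (x + h)`, and `2 (m - v) ≥ m + 1` because `m ≥ 2D+1 ≥ 2v+1`.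
LD_stay.  `x' ≡ x mod π^c` implies `dev (F l) x' j ≡ dev (F l) x j` (`dev_congr_dvd`), hence the determinants are congruent mod `π^(D+1)` (quotient by the ideal, `RingHom.map_det`).
LD_lift.  Induction on `w ≥ m`: step from `w` to `w + 1` by LD_step (with `m := w`), the new point is
congruent to the old one mod `π^(w-D)`, so mod `π^(D+1)`, and LD_stay keeps the condition.
-/

namespace Pool.Agent.Lib.MP_1ad228_ntN

open Classical

private theorem LD_Newt_sum {n r : ℕ} {R : Type*} [CommRing R] (f : Vc n R)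
    (S : Fin r → Fin (n + 1)) (g : Fin r → R) :
    ∑ j, f j * (∑ k, if S k = j then g k else 0) = ∑ k, f (S k) * g k := by
  simp only [Finset.mul_sum]
  rw [Finset.sum_comm]
  refine Finset.sum_congr rfl fun k _ => ?_
  rw [Finset.sum_eq_single (S k)]
  · rw [if_pos rfl]
  · intro j _ hj
    rw [if_neg (Ne.symm hj), mul_zero]
  · intro h
    exact absurd (Finset.mem_univ _) h

private theorem LD_Newt_adj {r : ℕ} {R : Type*} [CommRing R] (M : Matrix (Fin r) (Fin r) R)
    (P : Fin r → R) (l : Fin r) : ∑ k, M l k * (M.adjugate.mulVec P) k = M.det * P l := by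
  have h1 : M.mulVec (M.adjugate.mulVec P) = M.det • P := by
    rw [Matrix.mulVec_mulVec, Matrix.mul_adjugate, Matrix.smul_mulVec, Matrix.one_mulVec]
  have h2 := congrFun h1 l
  rw [Pi.smul_apply, smul_eq_mul] at h2
  rw [← h2]
  rfl

theorem LD_step {A : Type*} [CommRing A] [IsDomain A] [IsDiscreteValuationRing A] {π : A}
    (hπ : Irreducible π) {n r : ℕ} {d : Fin r → ℕ} (D m : ℕ) (hm : 2 * D + 1 ≤ m)
    (F : Tup n d A) (x : Vc n A) (S : Fin r → Fin (n + 1)) (hS : Function.Injective S)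
    (h0 : ∀ l, π ^ m ∣ ev (F l) x)
    (hJ : ¬ (π ^ (D + 1) ∣ Matrix.det fun l k => dev (F l) x (S k))) :
    ∃ x' : Vc n A, (∀ j, (∀ k, j ≠ S k) → x' j = x j) ∧
      (∀ j, π ^ (m - D) ∣ x' j - x j) ∧ ∀ l, π ^ (m + 1) ∣ ev (F l) x' := by
  set M : Matrix (Fin r) (Fin r) A := fun l k => dev (F l) x (S k) with hM
  have hδ0 : M.det ≠ 0 := by
    intro h1
    rw [h1] at hJ
    exact hJ (dvd_zero _)
  obtain ⟨v, u, huv⟩ : ∃ (v : ℕ) (u : Aˣ), M.det = (u : A) * π ^ v :=
    IsDiscreteValuationRing.eq_unit_mul_pow_irreducible hδ0 hπ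
  have hv : v ≤ D := by
    by_contra hcon
    apply hJ
    rw [huv]
    exact Dvd.dvd.mul_left (pow_dvd_pow _ (by omega)) _
  choose P hP using h0
  set c : A := π ^ (m - v) with hc
  have hcm : π ^ v * c = π ^ m := by
    rw [hc, ← pow_add]
    congr 1
    omega
  have huu : (u : A) * ((u⁻¹ : Aˣ) : A) = 1 := Units.mul_inv u
  set s : Fin r → A := fun k => c * (-((u⁻¹ : Aˣ) : A) * (M.adjugate.mulVec P) k) with hs
  set h : Vc n A := fun j => ∑ k, if S k = j then s k else 0 with hh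
  have hdvd : ∀ j, c ∣ h j := by
    intro j
    refine Finset.dvd_sum fun k _ => ?_
    split_ifs
    · exact dvd_mul_right _ _
    · exact dvd_zero _
  have hpw : π ^ (m + 1) ∣ c ^ 2 := by
    rw [hc, ← pow_mul]
    exact pow_dvd_pow _ (by omega)
  have hlin : ∀ l, ∑ j, dev (F l) x j * h j = -ev (F l) x := by
    intro l
    have e1 : ∑ j, dev (F l) x j * h j = ∑ k, dev (F l) x (S k) * s k :=
      LD_Newt_sum (fun j => dev (F l) x j) S s
    have e2 : ∑ k, dev (F l) x (S k) * s k =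
        (-(c * ((u⁻¹ : Aˣ) : A))) * ∑ k, M l k * (M.adjugate.mulVec P) k := by
      rw [Finset.mul_sum]
      refine Finset.sum_congr rfl fun k _ => ?_
      simp only [hs, hM]
      ring
    rw [e1, e2, LD_Newt_adj, huv, hP l]
    have e3 : -(c * ((u⁻¹ : Aˣ) : A)) * ((u : A) * π ^ v * P l) =
        -(((u : A) * ((u⁻¹ : Aˣ) : A)) * (π ^ v * c) * P l) := by ring
    rw [e3, huu, hcm, one_mul]
  refine ⟨x + h, ?_, ?_, ?_⟩
  · intro j hj
    have h1 : h j = 0 := by
      refine Finset.sum_eq_zero fun k _ => ?_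
      rw [if_neg (Ne.symm (hj k))]
    rw [Pi.add_apply, h1, add_zero]
  · intro j
    rw [Pi.add_apply, add_sub_cancel_left]
    exact (pow_dvd_pow _ (by omega)).trans (hdvd j)
  · intro l
    have h1 := ev_taylor_dvd (F l) x h c hdvd
    rw [hlin l] at h1
    have e4 : ev (F l) (x + h) - ev (F l) x - -ev (F l) x = ev (F l) (x + h) := by ring
    rw [e4] at h1
    exact hpw.trans h1

theorem LD_stay {A : Type*} [CommRing A] (π : A) {n r : ℕ} {d : Fin r → ℕ} (c D : ℕ)
    (hc : D + 1 ≤ c) (F : Tup n d A) (x x' : Vc n A) (S : Fin r → Fin (n + 1))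
    (hx : ∀ l, π ^ c ∣ x' l - x l)
    (hJ : ¬ (π ^ (D + 1) ∣ Matrix.det fun l k => dev (F l) x (S k))) :
    ¬ (π ^ (D + 1) ∣ Matrix.det fun l k => dev (F l) x' (S k)) := by
  intro hcon
  apply hJ
  have hx' : ∀ l, π ^ (D + 1) ∣ x' l - x l := fun l => (pow_dvd_pow _ hc).trans (hx l)
  set I : Ideal A := Ideal.span {π ^ (D + 1)} with hI
  have hmem : ∀ z : A, π ^ (D + 1) ∣ z ↔ Ideal.Quotient.mk I z = 0 := by
    intro z
    rw [Ideal.Quotient.eq_zero_iff_mem, hI, Ideal.mem_span_singleton]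
  rw [hmem] at hcon ⊢
  rw [← hcon]
  have h1 := RingHom.map_det (Ideal.Quotient.mk I)
    (fun l k => dev (F l) x (S k) : Matrix (Fin r) (Fin r) A)
  have h2 := RingHom.map_det (Ideal.Quotient.mk I)
    (fun l k => dev (F l) x' (S k) : Matrix (Fin r) (Fin r) A)
  rw [h1, h2]
  congr 1
  ext l k
  show Ideal.Quotient.mk I (dev (F l) x (S k)) = Ideal.Quotient.mk I (dev (F l) x' (S k))
  symm
  rw [← sub_eq_zero, ← map_sub, ← hmem]
  exact dev_congr_dvd (F l) x x' _ hx' (S k)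

theorem LD_lift {A : Type*} [CommRing A] [IsDomain A] [IsDiscreteValuationRing A] {π : A}
    (hπ : Irreducible π) {n r : ℕ} {d : Fin r → ℕ} (D m w : ℕ)
    (hm : 2 * D + 1 ≤ m) (hw : m ≤ w) (F : Tup n d A) (x : Vc n A)
    (S : Fin r → Fin (n + 1)) (hS : Function.Injective S)
    (h0 : ∀ l, π ^ m ∣ ev (F l) x)
    (hJ : ¬ (π ^ (D + 1) ∣ Matrix.det fun l k => dev (F l) x (S k))) :
    ∃ x' : Vc n A, (∀ j, (∀ k, j ≠ S k) → x' j = x j) ∧
      (∀ j, π ^ (D + 1) ∣ x' j - x j) ∧ ∀ l, π ^ w ∣ ev (F l) x' := by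
  induction w, hw using Nat.le_induction with
  | base =>
    exact ⟨x, fun _ _ => rfl, fun l => by rw [sub_self]; exact dvd_zero _, h0⟩
  | succ w hmw ih =>
    obtain ⟨y, hy1, hy2, hy3⟩ := ih
    have hJy := LD_stay π (D + 1) D le_rfl F x y S hy2 hJ
    obtain ⟨z, hz1, hz2, hz3⟩ := LD_step hπ D w (by omega) F y S hS hy3 hJy
    refine ⟨z, fun j hj => (hz1 j hj).trans (hy1 j hj), fun l => ?_, hz3⟩
    have e : z l - x l = (z l - y l) + (y l - x l) := by ring
    rw [e]
    exact dvd_add ((pow_dvd_pow _ (by omega)).trans (hz2 l)) (hy2 l)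

end Pool.Agent.Lib.MP_1ad228_ntN
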