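import Pool.Agent.Lib.MP_1ad228_ntN.LD_Base

/-!
JOB LD_Split.  Factorisation of an ideal with respect to a finite set of prime ideals; the ideal `WI K w`.

LD_cop.  `P`, `Q` are maximal (`Ideal.IsPrime.isMaximal`, nonzero primes), `P ≠ Q`, so `P ⊔ Q = ⊤` (`Ideal.IsMaximal.coprime_of_ne`), `Ideal.isCoprime_iff_sup_eq`, `IsCoprime.pow`.
LD_cop2.  `¬ J ≤ P`, `P` maximal: `IsCoprime P J` (`Ideal.isCoprime_iff_sup_eq`, `Ideal.IsMaximal.eq_of_le`..), then `IsCoprime.pow_left`, `IsCoprime.prod_left`.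
LD_split.  Induction on `T` (`Finset.induction_on`). Empty `T`: `J = I`. Step `insert Q T`: let `I = (∏ P ∈ T, P ^ m P) * J` as in the statement for `T`. Let `a` be the largest number with `J ≤ Q ^ a`
(exists: `J ≠ ⊥`; e.g. `a = multiplicity Q J`, `FiniteMultiplicity` by `UniqueFactorizationMonoid`/`Ideal.dvd_iff_le`, `Q` is not a unit; or because `absNorm Q ^ a ∣ absNorm J`), `J = Q ^ a * J'`
(`Ideal.dvd_iff_le`), `¬ J' ≤ Q` (otherwise `J ≤ Q ^ (a+1)`). New `m = Function.update m Q a`, new `J'` (`J' ≠ ⊥`, `¬ J' ≤ P` for `P ∈ T` because `J ≤ J'`).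
Last clause for `P ∈ insert Q T`: `I = (∏ P' ∈ insert Q T, P' ^ m' P') * J'` and `P ^ k ∣ I`; `P ^ k` is coprime to the factors `P' ^ _` (`P' ≠ P`, LD_cop) and to `J'` (LD_cop2), so `P ^ k ∣ P ^ (m' P)`
(`IsCoprime.dvd_of_dvd_mul_left`), hence `k ≤ m' P` (`pow_dvd_pow_iff`/`Ideal.pow_right_strictAnti`, or norms). It is best to prove this clause at the end, from the other clauses, for every `P ∈ T`.
LD_WI.  The characteristic `p` of the finite field `𝓞 K ⧸ P`: `p` is a prime number with `(p : 𝓞 K) ∈ P` and `p ≤ absNorm P ≤ w` (e.g. `p ∣ absNorm P`: `Ideal.absNorm_mem P : (absNorm P : 𝓞 K) ∈ P`, so, `P` being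
prime, some prime factor `p` of the number `absNorm P ≥ 2` lies in `P`: `Nat.factors`/induction; `p ∣ absNorm P`, so `p ≤ absNorm P`). `WW w = ∏ p ∈ (range (w+1)).filter Nat.Prime, p ^ w` is divisible by `p ^ w`, so
`(WW w : 𝓞 K) ∈ P ^ w` (`Ideal.pow_mem_pow`, `Ideal.mul_mem_left`, `Finset.dvd_prod_of_mem`, `map_dvd`/`Nat.cast_dvd_cast`), `Ideal.span_singleton_le_iff_mem`. (`WW` is the definition in Lib/MP_219881_nt/Defs.lean: `unfold Pool.Agent.Lib.MP_219881_nt.WW`.)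
absNorm_WI.  `Ideal.absNorm_span_singleton`, `Algebra.norm` of a natural number `a` in `𝓞 K` over `ℤ` is `a ^ (finrank ℤ (𝓞 K))` (`Algebra.norm_algebraMap`, `map_natCast`), `RingOfIntegers.rank`, `Int.natAbs_pow`.
-/

namespace Pool.Agent.Lib.MP_1ad228_ntN

open NumberField Classical

variable {K : Type} [Field K] [NumberField K]

theorem LD_cop {P Q : Ideal (𝓞 K)} (hP : P.IsPrime) (hP0 : P ≠ ⊥) (hQ : Q.IsPrime)
    (hQ0 : Q ≠ ⊥) (h : P ≠ Q) (a b : ℕ) : IsCoprime (P ^ a) (Q ^ b) := by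
  have hPm : P.IsMaximal := hP.isMaximal hP0
  have hQm : Q.IsMaximal := hQ.isMaximal hQ0
  exact (Ideal.isCoprime_iff_sup_eq.2 (Ideal.IsMaximal.coprime_of_ne hPm hQm h)).pow

private theorem LD_Split_cop1 {P J : Ideal (𝓞 K)} (hP : P.IsPrime) (hP0 : P ≠ ⊥) (hJ : ¬ J ≤ P) :
    IsCoprime P J := by
  have hPm : P.IsMaximal := hP.isMaximal hP0
  rw [Ideal.isCoprime_iff_sup_eq]
  refine hPm.1.2 _ (lt_of_le_of_ne le_sup_left ?_)
  intro h
  apply hJ
  rw [h]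
  exact le_sup_right

theorem LD_cop2 (T : Finset (Ideal (𝓞 K))) (hT : ∀ P ∈ T, P.IsPrime ∧ P ≠ ⊥)
    (m : Ideal (𝓞 K) → ℕ) (J : Ideal (𝓞 K)) (hJ : ∀ P ∈ T, ¬ J ≤ P) :
    IsCoprime (∏ P ∈ T, P ^ m P) J := by
  refine IsCoprime.prod_left fun P hP => ?_
  exact (LD_Split_cop1 (hT P hP).1 (hT P hP).2 (hJ P hP)).pow_left

private theorem LD_Split_fac {Q J : Ideal (𝓞 K)} (hQ : Q.IsPrime) (hQ0 : Q ≠ ⊥) (hJ : J ≠ ⊥) :
    ∃ (a : ℕ) (J' : Ideal (𝓞 K)), J = Q ^ a * J' ∧ J' ≠ ⊥ ∧ ¬ J' ≤ Q := by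
  have hirr : Irreducible Q := (Ideal.prime_of_isPrime hQ0 hQ).irreducible
  obtain ⟨a, J', hnd, heq⟩ := WfDvdMonoid.max_power_factor hJ hirr
  refine ⟨a, J', heq, ?_, fun h => hnd (Ideal.dvd_iff_le.2 h)⟩
  rintro rfl
  apply hJ
  rw [heq]
  exact Ideal.mul_bot _

private theorem LD_Split_ex (I : Ideal (𝓞 K)) (hI : I ≠ ⊥) (T : Finset (Ideal (𝓞 K)))
    (hT : ∀ P ∈ T, P.IsPrime ∧ P ≠ ⊥) :
    ∃ (m : Ideal (𝓞 K) → ℕ) (J : Ideal (𝓞 K)), I = (∏ P ∈ T, P ^ m P) * J ∧ J ≠ ⊥ ∧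
      ∀ P ∈ T, ¬ J ≤ P := by
  induction T using Finset.induction_on with
  | empty =>
    refine ⟨fun _ => 0, I, ?_, hI, ?_⟩
    · rw [Finset.prod_empty, one_mul]
    · intro P hP
      exact absurd hP (Finset.notMem_empty P)
  | insert Q T hQT ih =>
    obtain ⟨m, J, h1, h2, h3⟩ := ih (fun P hP => hT P (Finset.mem_insert_of_mem hP))
    have hQ := hT Q (Finset.mem_insert_self Q T)
    obtain ⟨a, J', h4, h5, h6⟩ := LD_Split_fac hQ.1 hQ.2 h2
    refine ⟨Function.update m Q a, J', ?_, h5, ?_⟩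
    · rw [Finset.prod_insert hQT, Function.update_self]
      have h7 : ∏ P ∈ T, P ^ Function.update m Q a P = ∏ P ∈ T, P ^ m P := by
        refine Finset.prod_congr rfl fun P hP => ?_
        have hne : P ≠ Q := by
          rintro rfl
          exact hQT hP
        rw [Function.update_of_ne hne]
      rw [h7]
      calc I = (∏ P ∈ T, P ^ m P) * J := h1
        _ = (∏ P ∈ T, P ^ m P) * (Q ^ a * J') := by rw [← h4]
        _ = Q ^ a * (∏ P ∈ T, P ^ m P) * J' := by ring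
    · intro P hP
      rcases Finset.mem_insert.1 hP with h | h
      · rw [h]
        exact h6
      · intro h7
        apply h3 P h
        rw [h4]
        exact Ideal.mul_le_right.trans h7

theorem LD_split (I : Ideal (𝓞 K)) (hI : I ≠ ⊥) (T : Finset (Ideal (𝓞 K)))
    (hT : ∀ P ∈ T, P.IsPrime ∧ P ≠ ⊥) :
    ∃ (m : Ideal (𝓞 K) → ℕ) (J : Ideal (𝓞 K)), I = (∏ P ∈ T, P ^ m P) * J ∧ J ≠ ⊥ ∧
      (∀ P ∈ T, ¬ J ≤ P) ∧ ∀ P ∈ T, ∀ k, I ≤ P ^ k → k ≤ m P := by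
  obtain ⟨m, J, h1, h2, h3⟩ := LD_Split_ex I hI T hT
  refine ⟨m, J, h1, h2, h3, ?_⟩
  intro P hP k hk
  have hPp := hT P hP
  have hdvd : P ^ k ∣ (∏ P ∈ T, P ^ m P) * J := by
    rw [← h1]
    exact Ideal.dvd_iff_le.2 hk
  have hcJ : IsCoprime (P ^ k) J := (LD_Split_cop1 hPp.1 hPp.2 (h3 P hP)).pow_left
  have hd2 : P ^ k ∣ ∏ P ∈ T, P ^ m P := hcJ.dvd_of_dvd_mul_right hdvd
  rw [← Finset.mul_prod_erase T (fun P => P ^ m P) hP] at hd2
  have hc3 : IsCoprime (P ^ k) (∏ P' ∈ T.erase P, P' ^ m P') := by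
    refine IsCoprime.prod_right fun P' hP' => ?_
    have hP'' := hT P' (Finset.mem_of_mem_erase hP')
    exact LD_cop hPp.1 hPp.2 hP''.1 hP''.2 (Finset.ne_of_mem_erase hP').symm _ _
  have hd4 : P ^ k ∣ P ^ m P := hc3.dvd_of_dvd_mul_right hd2
  have hprime := Ideal.prime_of_isPrime hPp.2 hPp.1
  exact (pow_dvd_pow_iff hprime.ne_zero hprime.not_isUnit).1 hd4

theorem LD_WI (w : ℕ) (P : Ideal (𝓞 K)) (hP : P.IsPrime) (hP0 : P ≠ ⊥)
    (h : Ideal.absNorm P ≤ w) : WI K w ≤ P ^ w := by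
  have hN0 : Ideal.absNorm P ≠ 0 := by
    intro h0
    exact hP0 (Ideal.absNorm_eq_zero_iff.1 h0)
  have hmem : ((Ideal.absNorm P : ℕ) : 𝓞 K) ∈ P := Ideal.absNorm_mem P
  -- a prime factor in `P`
  have hex : ∀ N : ℕ, N ≠ 0 → ((N : ℕ) : 𝓞 K) ∈ P → ∃ p : ℕ, p.Prime ∧ p ∣ N ∧ ((p : ℕ) : 𝓞 K) ∈ P := by
    intro N
    induction N using Nat.recOnMul with
    | zero => intro h0; exact absurd rfl h0
    | one =>
      intro _ h1
      exfalso
      apply hP.ne_top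
      rw [Ideal.eq_top_iff_one]
      simpa using h1
    | prime q hq =>
      intro _ h1
      exact ⟨q, hq, dvd_rfl, h1⟩
    | mul a b iha ihb =>
      intro h0 h1
      rw [Nat.cast_mul] at h1
      rcases hP.mem_or_mem h1 with h2 | h2
      · obtain ⟨p, hp, hd, hm⟩ := iha (left_ne_zero_of_mul h0) h2
        exact ⟨p, hp, hd.mul_right b, hm⟩
      · obtain ⟨p, hp, hd, hm⟩ := ihb (right_ne_zero_of_mul h0) h2
        exact ⟨p, hp, hd.mul_left a, hm⟩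
  obtain ⟨p, hp, hd, hm⟩ := hex _ hN0 hmem
  have hpw : p ≤ w := (Nat.le_of_dvd (Nat.pos_of_ne_zero hN0) hd).trans h
  have hdvd : p ^ w ∣ WW w := by
    unfold Pool.Agent.Lib.MP_219881_nt.WW
    refine Finset.dvd_prod_of_mem (fun p => p ^ w) ?_
    rw [Finset.mem_filter, Finset.mem_range]
    exact ⟨by omega, hp⟩
  obtain ⟨c, hc⟩ := hdvd
  unfold WI
  rw [Ideal.span_singleton_le_iff_mem, hc]
  push_cast
  exact Ideal.mul_mem_right _ _ (Ideal.pow_mem_pow hm w)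

variable (K) in
theorem absNorm_WI (w : ℕ) : Ideal.absNorm (WI K w) = WW w ^ eK K := by
  unfold WI eK
  rw [Ideal.absNorm_span_natCast, RingOfIntegers.rank]

variable (K) in
theorem WI_ne_bot (w : ℕ) : WI K w ≠ ⊥ := by
  have hW : WW w ≠ 0 := by
    unfold Pool.Agent.Lib.MP_219881_nt.WW
    refine Finset.prod_ne_zero_iff.2 fun p hp => ?_
    rw [Finset.mem_filter] at hp
    exact pow_ne_zero _ hp.2.ne_zero
  intro h
  unfold WI at h
  rw [Ideal.span_singleton_eq_bot] at h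
  exact hW (by exact_mod_cast h)

end Pool.Agent.Lib.MP_1ad228_ntN
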