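import Pool.Agent.Lib.MP_1ad228_ntN.LD_MomC
import Pool.Agent.Lib.MP_1ad228_ntN.LD_Exc
import Pool.Agent.Lib.MP_1ad228_ntN.LD_Del
import Pool.Agent.Lib.MP_1ad228_ntN.LD_Equi
import Pool.Agent.Lib.MP_1ad228_ntN.LD_Hensel
import Pool.Agent.Lib.MP_1ad228_ntN.LD_Crt
import Pool.Agent.Lib.MP_1ad228_ntN.LD_Split

/-!
Assembly of the local densities.

`V = VV n d`, `C1` = the constant of LD_equi, `C2 = CK K 0`. Given `ε`, choose `p0` with `C2 / (p0 + 1) ≤ 1/8` and `16 C1 C2 / (p0 + 1) ≤ ε / 2`. Let `T` be the finite set of the nonzero prime ideals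
`P` with `absNorm P ≤ p0`. Choose `e ≥ 1` with `C1 r (n+1) (#T + 1) / 2^e ≤ ε / 2`.
`τ = 1/2 * ∏_{P ∈ T} 1 / (absNorm P)^(2 r e (n+1-r))`, `w0 = 2 r e + p0`. Let `w ≥ w0`.
LD_split for `I = WI K w` and `T`: `WI K w = (∏ P ∈ T, P ^ m P) * J`, `m P ≥ w` (LD_WI: `absNorm P ≤ p0 ≤ w`). Every prime `Q ≥ J` is nonzero and not in `T`, so `absNorm Q > p0`: LD_del and LD_M1,
LD_equi for `J` bound the tuples with few zeros modulo `J`; LD_exc and LD_equi for `P ^ e`, `P ∈ T`, bound the tuples with `ExcR (red (P^e) F)`.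
Outside of these sets, for `F` with `PSol F`, LD_hensel for `P ∈ T`, LD_prod and LD_mul give many zeros modulo `WI K w`.
-/

namespace Pool.Agent.Lib.MP_1ad228_ntN

open NumberField Classical

/-- Counting for the singular classes. -/
private theorem locdens_excBox (K : Type) [Field K] [NumberField K] (n : ℕ) {r : ℕ}
    (d : Fin r → ℕ) (hd : ∀ i, 1 ≤ d i) (C1 : ℝ) (hC1 : 0 < C1)
    (hE : ∀ I : Ideal (𝓞 K), I ≠ ⊥ → ∃ A0 : ℕ, ∀ A : ℕ, A0 ≤ A →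
      ∀ p : Tup n d (𝓞 K ⧸ I) → Prop,
        (((TBox K n d A).filter fun F => p (red I F)).card : ℝ) ≤
          C1 * ((Nat.card {G : Tup n d (𝓞 K ⧸ I) // p G} : ℝ) /
            (Ideal.absNorm I : ℝ) ^ VV n d) * (A : ℝ) ^ (eK K * VV n d))
    (P : Ideal (𝓞 K)) (hP0 : P ≠ ⊥) (e : ℕ) : ∃ A0 : ℕ, ∀ A : ℕ, A0 ≤ A →
    (((TBox K n d A).filter fun F => ExcR (red (P ^ e) F)).card : ℝ) ≤
      C1 * (r * (n + 1)) / (Ideal.absNorm P : ℝ) ^ e * (A : ℝ) ^ (eK K * VV n d) := by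
  have hPe : P ^ e ≠ ⊥ := pow_ne_zero e hP0
  obtain ⟨A0, hA0⟩ := hE (P ^ e) hPe
  refine ⟨A0, fun A hA => ?_⟩
  have h1 := hA0 A hA (fun G => ExcR G)
  refine h1.trans ?_
  have hfin : Finite (𝓞 K ⧸ P ^ e) := finite_quot hPe
  have h3 := LD_exc n d hd (𝓞 K ⧸ P ^ e)
  rw [card_quotO] at h3
  have hN : (0 : ℝ) < (Ideal.absNorm (P ^ e) : ℝ) := by
    have : Ideal.absNorm (P ^ e) ≠ 0 := by
      intro h
      exact hPe (Ideal.absNorm_eq_zero_iff.1 h)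
    exact_mod_cast Nat.pos_of_ne_zero this
  have hNe : (Ideal.absNorm (P ^ e) : ℝ) = (Ideal.absNorm P : ℝ) ^ e := by
    rw [map_pow]
    push_cast
    rfl
  have h4 : (Nat.card {G : Tup n d (𝓞 K ⧸ P ^ e) // ExcR G} : ℝ) *
      (Ideal.absNorm (P ^ e) : ℝ) ≤ r * (n + 1) * (Ideal.absNorm (P ^ e) : ℝ) ^ VV n d := by
    exact_mod_cast h3
  rw [← hNe]
  generalize (Nat.card {G : Tup n d (𝓞 K ⧸ P ^ e) // ExcR G} : ℝ) = c at h4 ⊢
  generalize (Ideal.absNorm (P ^ e) : ℝ) = N at h4 hN ⊢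
  have h6 : c / (N ^ VV n d) ≤ (r * (n + 1)) / N := by
    rw [div_le_div_iff₀ (by positivity) hN]
    exact h4
  have h5 : C1 * (c / (N ^ VV n d)) ≤ C1 * (r * (n + 1)) / N := by
    calc C1 * (c / (N ^ VV n d)) ≤ C1 * ((r * (n + 1)) / N) :=
          mul_le_mul_of_nonneg_left h6 hC1.le
      _ = C1 * (r * (n + 1)) / N := by ring
  exact mul_le_mul_of_nonneg_right h5 (by positivity)

/-- Counting for the classes with few zeros. -/
private theorem locdens_fewBox (K : Type) [Field K] [NumberField K] (n : ℕ) {r : ℕ}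
    (hn : r + 2 ≤ n) (d : Fin r → ℕ) (hd : ∀ i, 1 ≤ d i) (C1 : ℝ) (hC1 : 0 < C1)
    (hE : ∀ I : Ideal (𝓞 K), I ≠ ⊥ → ∃ A0 : ℕ, ∀ A : ℕ, A0 ≤ A →
      ∀ p : Tup n d (𝓞 K ⧸ I) → Prop,
        (((TBox K n d A).filter fun F => p (red I F)).card : ℝ) ≤
          C1 * ((Nat.card {G : Tup n d (𝓞 K ⧸ I) // p G} : ℝ) /
            (Ideal.absNorm I : ℝ) ^ VV n d) * (A : ℝ) ^ (eK K * VV n d))
    (J : Ideal (𝓞 K)) (hJ : J ≠ ⊥) (p0 : ℕ) (h8 : CK K 0 / (p0 + 1) ≤ 1 / 8)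
    (hJp : ∀ Q : Ideal (𝓞 K), Q.IsPrime → J ≤ Q → p0 < Ideal.absNorm Q) :
    ∃ A0 : ℕ, ∀ A : ℕ, A0 ≤ A →
    (((TBox K n d A).filter fun F => (smI J F : ℝ) * (Ideal.absNorm J : ℝ) ^ r ≤
        (Ideal.absNorm J : ℝ) ^ (n + 1) / 2).card : ℝ) ≤
      C1 * (16 * (CK K 0 / (p0 + 1))) * (A : ℝ) ^ (eK K * VV n d) := by
  obtain ⟨A0, hA0⟩ := hE J hJ
  refine ⟨A0, fun A hA => ?_⟩
  have h1 := hA0 A hA (fun G => (smR G : ℝ) * (Ideal.absNorm J : ℝ) ^ r ≤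
        (Ideal.absNorm J : ℝ) ^ (n + 1) / 2)
  refine h1.trans ?_
  have hfin : Finite (𝓞 K ⧸ J) := finite_quot hJ
  have h3 := LD_M1 n hn d hd (𝓞 K ⧸ J) (LD_del p0 J hJ hJp) h8
  rw [card_quotO] at h3
  have hN : (0 : ℝ) < (Ideal.absNorm J : ℝ) := by
    have : Ideal.absNorm J ≠ 0 := by
      intro h
      exact hJ (Ideal.absNorm_eq_zero_iff.1 h)
    exact_mod_cast Nat.pos_of_ne_zero this
  generalize (Nat.card {G : Tup n d (𝓞 K ⧸ J) // (smR G : ℝ) * (Ideal.absNorm J : ℝ) ^ r ≤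
        (Ideal.absNorm J : ℝ) ^ (n + 1) / 2} : ℝ) = c at h3 ⊢
  generalize (Ideal.absNorm J : ℝ) = N at h3 hN ⊢
  have h6 : c / (N ^ VV n d) ≤ 16 * (CK K 0 / (p0 + 1)) := by
    rw [div_le_iff₀ (by positivity)]
    exact h3
  exact mul_le_mul_of_nonneg_right (mul_le_mul_of_nonneg_left h6 hC1.le) (by positivity)

/-- Lower bound for the number of zeros outside the exceptional sets. -/
private theorem locdens_lower {K : Type} [Field K] [NumberField K] {n r : ℕ} (hr : 1 ≤ r)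
    (hn : r + 2 ≤ n) {d : Fin r → ℕ} (T : Finset (Ideal (𝓞 K)))
    (hT : ∀ P ∈ T, P.IsPrime ∧ P ≠ ⊥) (m : Ideal (𝓞 K) → ℕ) (J : Ideal (𝓞 K)) (hJ : J ≠ ⊥)
    (hJT : ∀ P ∈ T, ¬ J ≤ P) (w e : ℕ) (he : 1 ≤ e) (hI : WI K w = (∏ P ∈ T, P ^ m P) * J)
    (hm : ∀ P ∈ T, 2 * r * e ≤ m P) (F : Tup n d (𝓞 K)) (hsol : PSol F)
    (h1 : ∀ P ∈ T, ¬ ExcR (red (P ^ e) F))
    (h2 : (Ideal.absNorm J : ℝ) ^ (n + 1) / 2 < (smI J F : ℝ) * (Ideal.absNorm J : ℝ) ^ r) :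
    (1 / 2 * ∏ P ∈ T, (1 / ((Ideal.absNorm P : ℝ) ^ (2 * r * e * (n + 1 - r))))) *
        (WW w : ℝ) ^ (eK K * (n + 1)) ≤
      (smI (WI K w) F : ℝ) * (WW w : ℝ) ^ (eK K * r) := by
  have hNP : ∀ P ∈ T, (0 : ℝ) < (Ideal.absNorm P : ℝ) := by
    intro P hP
    have : Ideal.absNorm P ≠ 0 := by
      intro h
      exact (hT P hP).2 (Ideal.absNorm_eq_zero_iff.1 h)
    exact_mod_cast Nat.pos_of_ne_zero this
  have hprod0 : (∏ P ∈ T, P ^ m P) ≠ ⊥ := by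
    have : (∏ P ∈ T, P ^ m P) ≠ 0 :=
      Finset.prod_ne_zero_iff.2 fun P hP => pow_ne_zero _ (hT P hP).2
    exact this
  have hmul := LD_mul (∏ P ∈ T, P ^ m P) J hprod0 hJ (LD_cop2 T hT m J hJT) F
  have hprod := LD_prod T (fun P => P ^ m P) (fun P hP => pow_ne_zero _ (hT P hP).2)
    (fun P hP Q hQ hPQ => LD_cop (hT P hP).1 (hT P hP).2 (hT Q hQ).1 (hT Q hQ).2 hPQ _ _) F
  have hloc : ∏ P ∈ T, Ideal.absNorm P ^ ((n + 1 - r) * (m P - 2 * r * e)) ≤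
      ∏ P ∈ T, smI (P ^ m P) F := by
    refine Finset.prod_le_prod' fun P hP => ?_
    exact LD_hensel hr P (hT P hP).1 (hT P hP).2 e (m P) he (hm P hP) F
      (hsol P (hT P hP).1 (hT P hP).2) (h1 P hP)
  have hnat : (∏ P ∈ T, Ideal.absNorm P ^ ((n + 1 - r) * (m P - 2 * r * e))) *
      smI J F ≤ smI (WI K w) F := by
    rw [hI]
    exact (Nat.mul_le_mul_right _ (hloc.trans hprod)).trans hmul
  have hall : (∏ P ∈ T, (Ideal.absNorm P : ℝ) ^ ((n + 1 - r) * (m P - 2 * r * e))) *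
      (smI J F : ℝ) ≤ (smI (WI K w) F : ℝ) := by
    exact_mod_cast hnat
  have hcast : (WW w : ℝ) ^ eK K = (∏ P ∈ T, (Ideal.absNorm P : ℝ) ^ m P) *
      (Ideal.absNorm J : ℝ) := by
    have h3 : Ideal.absNorm (WI K w) = (∏ P ∈ T, Ideal.absNorm P ^ m P) * Ideal.absNorm J := by
      rw [hI, map_mul, map_prod]
      simp only [map_pow]
    rw [absNorm_WI] at h3
    exact_mod_cast h3
  have hrr : ∀ P ∈ T,
      (1 / ((Ideal.absNorm P : ℝ) ^ (2 * r * e * (n + 1 - r)))) *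
          ((Ideal.absNorm P : ℝ) ^ m P) ^ (n + 1) =
        (Ideal.absNorm P : ℝ) ^ ((n + 1 - r) * (m P - 2 * r * e)) *
          ((Ideal.absNorm P : ℝ) ^ m P) ^ r := by
    intro P hP
    have hp0 := hNP P hP
    rw [one_div, inv_mul_eq_div, div_eq_iff (pow_pos hp0 _).ne', ← pow_mul, ← pow_mul, ← pow_add,
      ← pow_add]
    obtain ⟨k, hk⟩ : ∃ k, n + 1 = r + k := ⟨n + 1 - r, by omega⟩
    obtain ⟨v, hv⟩ : ∃ v, m P = 2 * r * e + v := ⟨m P - 2 * r * e, by have := hm P hP; omega⟩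
    rw [hk, hv, Nat.add_sub_cancel_left, Nat.add_sub_cancel_left]
    congr 1
    ring
  have hstep : (1 / 2 * ∏ P ∈ T, (1 / ((Ideal.absNorm P : ℝ) ^ (2 * r * e * (n + 1 - r))))) *
        (WW w : ℝ) ^ (eK K * (n + 1)) =
      ((∏ P ∈ T, (Ideal.absNorm P : ℝ) ^ ((n + 1 - r) * (m P - 2 * r * e))) *
        (∏ P ∈ T, (Ideal.absNorm P : ℝ) ^ m P) ^ r) *
        ((Ideal.absNorm J : ℝ) ^ (n + 1) / 2) := by
    rw [pow_mul, hcast, mul_pow, ← Finset.prod_pow, ← Finset.prod_pow, ← Finset.prod_mul_distrib,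
      ← Finset.prod_congr rfl hrr, Finset.prod_mul_distrib]
    ring
  rw [hstep]
  have hpos : 0 ≤ (∏ P ∈ T, (Ideal.absNorm P : ℝ) ^ ((n + 1 - r) * (m P - 2 * r * e))) *
        (∏ P ∈ T, (Ideal.absNorm P : ℝ) ^ m P) ^ r := by positivity
  refine (mul_le_mul_of_nonneg_left h2.le hpos).trans ?_
  have hall2 := mul_le_mul_of_nonneg_right hall
    (pow_nonneg (Nat.cast_nonneg (α := ℝ) (WW w)) (eK K * r))
  refine le_trans (le_of_eq ?_) hall2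
  rw [pow_mul, hcast, mul_pow]
  ring

theorem locDens (K : Type) [Field K] [NumberField K] (n : ℕ) {r : ℕ} (hr : 1 ≤ r)
    (hn : r + 2 ≤ n) (d : Fin r → ℕ) (hd : ∀ i, 1 ≤ d i) (ε : ℝ) (hε : 0 < ε) :
    ∃ τ : ℝ, 0 < τ ∧ ∃ w0 : ℕ, ∀ w : ℕ, w0 ≤ w → ∃ A0 : ℕ, ∀ A : ℕ, A0 ≤ A →
      (((TBox K n d A).filter fun F => PSol F ∧
          (smI (WI K w) F : ℝ) * (WW w : ℝ) ^ (eK K * r) <
            τ * (WW w : ℝ) ^ (eK K * (n + 1))).card : ℝ) ≤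
        ε * (A : ℝ) ^ (eK K * VV n d) := by
  obtain ⟨C1, hC1, hE⟩ := LD_equi K n d
  have hC2 : 0 < CK K 0 := CK_pos K 0
  obtain ⟨p0, hp0⟩ := exists_nat_gt (CK K 0 * 8 + 32 * C1 * CK K 0 / ε)
  have hp0pos : (0 : ℝ) < (p0 : ℝ) + 1 := by positivity
  have hq1 : 0 < 32 * C1 * CK K 0 / ε := by positivity
  have h8 : CK K 0 / (p0 + 1) ≤ 1 / 8 := by
    rw [div_le_div_iff₀ hp0pos (by norm_num)]
    linarith
  have h16 : C1 * (16 * (CK K 0 / (p0 + 1))) ≤ ε / 2 := by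
    have h1 : 32 * C1 * CK K 0 / ε ≤ (p0 : ℝ) + 1 := by linarith
    rw [div_le_iff₀ hε] at h1
    have h2 : C1 * (16 * (CK K 0 / (p0 + 1))) = (16 * C1 * CK K 0) / (p0 + 1) := by ring
    rw [h2, div_le_div_iff₀ hp0pos (by norm_num)]
    linarith
  have hTfin := Ideal.finite_setOfPred_absNorm_le (S := 𝓞 K) p0
  obtain ⟨T, hTdef⟩ : ∃ T : Finset (Ideal (𝓞 K)),
      T = hTfin.toFinset.filter (fun P => P.IsPrime ∧ P ≠ ⊥) := ⟨_, rfl⟩
  have hTmem : ∀ P : Ideal (𝓞 K), P ∈ T ↔ Ideal.absNorm P ≤ p0 ∧ P.IsPrime ∧ P ≠ ⊥ := by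
    intro P
    rw [hTdef, Finset.mem_filter, Set.Finite.mem_toFinset]
    rfl
  have hT : ∀ P ∈ T, P.IsPrime ∧ P ≠ ⊥ := fun P hP => ((hTmem P).1 hP).2
  have hN2 : ∀ P ∈ T, 2 ≤ Ideal.absNorm P := by
    intro P hP
    have h0 : Ideal.absNorm P ≠ 0 := by
      intro h
      exact (hT P hP).2 (Ideal.absNorm_eq_zero_iff.1 h)
    have h1 : Ideal.absNorm P ≠ 1 := by
      intro h
      exact (hT P hP).1.ne_top (Ideal.absNorm_eq_one_iff.1 h)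
    omega
  obtain ⟨e1, he1⟩ := pow_unbounded_of_one_lt
    (2 * C1 * ((r : ℝ) * (n + 1)) * ((T.card : ℝ) + 1) / ε) (by norm_num : (1 : ℝ) < 2)
  obtain ⟨e, hedef⟩ : ∃ e : ℕ, e = e1 + 1 := ⟨_, rfl⟩
  have he : 1 ≤ e := by omega
  have he2 : 2 * C1 * ((r : ℝ) * (n + 1)) * ((T.card : ℝ) + 1) / ε ≤ 2 ^ e := by
    refine he1.le.trans ?_
    exact pow_le_pow_right₀ (by norm_num) (by omega)
  refine ⟨1 / 2 * ∏ P ∈ T, (1 / ((Ideal.absNorm P : ℝ) ^ (2 * r * e * (n + 1 - r)))), ?_,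
    2 * r * e + p0, fun w hw => ?_⟩
  · refine mul_pos (by norm_num) (Finset.prod_pos fun P hP => ?_)
    have hp0 : (0 : ℝ) < (Ideal.absNorm P : ℝ) := by
      have := hN2 P hP
      exact_mod_cast (by omega : 0 < Ideal.absNorm P)
    positivity
  have hw0 : p0 ≤ w := by omega
  have hwe : 2 * r * e ≤ w := by omega
  obtain ⟨m, J, hI, hJ, hJT, hmax⟩ := LD_split (WI K w) (WI_ne_bot K w) T hT
  have hm : ∀ P ∈ T, 2 * r * e ≤ m P := fun P hP => by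
    have h1 := hmax P hP w (LD_WI w P (hT P hP).1 (hT P hP).2 (((hTmem P).1 hP).1.trans hw0))
    omega
  have hJp : ∀ Q : Ideal (𝓞 K), Q.IsPrime → J ≤ Q → p0 < Ideal.absNorm Q := by
    intro Q hQ hJQ
    by_contra hcon
    have hQ0 : Q ≠ ⊥ := by
      intro h
      rw [h] at hJQ
      exact hJ (le_bot_iff.1 hJQ)
    exact hJT Q ((hTmem Q).2 ⟨not_lt.1 hcon, hQ, hQ0⟩) hJQ
  obtain ⟨A1, hA1⟩ := locdens_fewBox K n hn d hd C1 hC1 hE J hJ p0 h8 hJp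
  choose! A2 hA2 using fun (P : Ideal (𝓞 K)) (hP : P ≠ ⊥) =>
    locdens_excBox K n d hd C1 hC1 hE P hP e
  refine ⟨A1 + ∑ P ∈ T, A2 P, fun A hA => ?_⟩
  have hsub : ((TBox K n d A).filter fun F => PSol F ∧
        (smI (WI K w) F : ℝ) * (WW w : ℝ) ^ (eK K * r) <
          (1 / 2 * ∏ P ∈ T, (1 / ((Ideal.absNorm P : ℝ) ^ (2 * r * e * (n + 1 - r))))) *
            (WW w : ℝ) ^ (eK K * (n + 1))) ⊆
      ((TBox K n d A).filter fun F => (smI J F : ℝ) * (Ideal.absNorm J : ℝ) ^ r ≤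
        (Ideal.absNorm J : ℝ) ^ (n + 1) / 2) ∪
        T.biUnion (fun P => (TBox K n d A).filter fun F => ExcR (red (P ^ e) F)) := by
    intro F hF
    rw [Finset.mem_filter] at hF
    obtain ⟨hbox, hsol, hlt⟩ := hF
    rw [Finset.mem_union, Finset.mem_biUnion, Finset.mem_filter]
    by_contra hcon
    rw [not_or] at hcon
    have h2 : (Ideal.absNorm J : ℝ) ^ (n + 1) / 2 <
        (smI J F : ℝ) * (Ideal.absNorm J : ℝ) ^ r := by
      by_contra h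
      exact hcon.1 ⟨hbox, not_lt.1 h⟩
    have h1 : ∀ P ∈ T, ¬ ExcR (red (P ^ e) F) := by
      intro P hP h
      exact hcon.2 ⟨P, hP, Finset.mem_filter.2 ⟨hbox, h⟩⟩
    have := locdens_lower hr hn T hT m J hJ hJT w e he hI hm F hsol h1 h2
    exact absurd this (not_le.2 hlt)
  have hc1 : (((TBox K n d A).filter fun F => PSol F ∧
        (smI (WI K w) F : ℝ) * (WW w : ℝ) ^ (eK K * r) <
          (1 / 2 * ∏ P ∈ T, (1 / ((Ideal.absNorm P : ℝ) ^ (2 * r * e * (n + 1 - r))))) *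
            (WW w : ℝ) ^ (eK K * (n + 1))).card : ℝ) ≤
      (((TBox K n d A).filter fun F => (smI J F : ℝ) * (Ideal.absNorm J : ℝ) ^ r ≤
        (Ideal.absNorm J : ℝ) ^ (n + 1) / 2).card : ℝ) +
        ∑ P ∈ T, (((TBox K n d A).filter fun F => ExcR (red (P ^ e) F)).card : ℝ) := by
    have h1 := (Finset.card_le_card hsub).trans (Finset.card_union_le _ _)
    have h2 := h1.trans (Nat.add_le_add_left Finset.card_biUnion_le _)
    exact_mod_cast h2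
  refine hc1.trans ?_
  have hA1' : A1 ≤ A := le_trans (Nat.le_add_right _ _) hA
  have hV : (0 : ℝ) ≤ (A : ℝ) ^ (eK K * VV n d) := by positivity
  have h3 : ∀ P ∈ T, (((TBox K n d A).filter fun F => ExcR (red (P ^ e) F)).card : ℝ) ≤
      (ε / (2 * ((T.card : ℝ) + 1))) * (A : ℝ) ^ (eK K * VV n d) := by
    intro P hP
    have hAp : A2 P ≤ A := by
      have : A2 P ≤ ∑ P ∈ T, A2 P := Finset.single_le_sum (f := A2) (fun _ _ => Nat.zero_le _) hP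
      omega
    refine (hA2 P (hT P hP).2 A hAp).trans ?_
    have hpe : (2 : ℝ) ^ e ≤ (Ideal.absNorm P : ℝ) ^ e := by
      gcongr
      exact_mod_cast hN2 P hP
    have hlow : 2 * C1 * ((r : ℝ) * (n + 1)) * ((T.card : ℝ) + 1) / ε ≤
        (Ideal.absNorm P : ℝ) ^ e := he2.trans hpe
    have h8 : C1 * ((r : ℝ) * (n + 1)) / (Ideal.absNorm P : ℝ) ^ e ≤
        ε / (2 * ((T.card : ℝ) + 1)) := by
      have hpp' : (0 : ℝ) < (Ideal.absNorm P : ℝ) ^ e := lt_of_lt_of_le (by positivity) hpe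
      rw [div_le_div_iff₀ hpp' (by positivity)]
      rw [div_le_iff₀ hε] at hlow
      linarith
    exact mul_le_mul_of_nonneg_right h8 hV
  have h4 : ∑ P ∈ T, (((TBox K n d A).filter fun F => ExcR (red (P ^ e) F)).card : ℝ) ≤
      (ε / 2) * (A : ℝ) ^ (eK K * VV n d) := by
    refine (Finset.sum_le_sum h3).trans ?_
    rw [Finset.sum_const, nsmul_eq_mul]
    generalize (A : ℝ) ^ (eK K * VV n d) = U at hV
    have hcard : (T.card : ℝ) ≤ (T.card : ℝ) + 1 := by linarith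
    calc (T.card : ℝ) * (ε / (2 * ((T.card : ℝ) + 1)) * U)
        ≤ ((T.card : ℝ) + 1) * (ε / (2 * ((T.card : ℝ) + 1)) * U) :=
          mul_le_mul_of_nonneg_right hcard (by positivity)
      _ = (ε / 2) * U := by
          field_simp
  have h5 := hA1 A hA1'
  have h6 : C1 * (16 * (CK K 0 / (p0 + 1))) * (A : ℝ) ^ (eK K * VV n d) ≤
      (ε / 2) * (A : ℝ) ^ (eK K * VV n d) := mul_le_mul_of_nonneg_right h16 hV
  calc _ ≤ (ε / 2) * (A : ℝ) ^ (eK K * VV n d) + (ε / 2) * (A : ℝ) ^ (eK K * VV n d) :=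
        add_le_add (h5.trans h6) h4
    _ = ε * (A : ℝ) ^ (eK K * VV n d) := by ring

end Pool.Agent.Lib.MP_1ad228_ntN
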