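import Pool.Agent.Lib.MP_1ad228_ntN.RP_Point

/-!
JOB RP_Cpt.  Uniformity by compactness.  (Model with proof: Lib/MP_1ad228_ntF/RP_Cpt.lean (`RP_Cpt_compact`, `robCpt`); adapt it. RP_Point is another job.)

PROOF.  Let `Cu = Metric.closedBall 0 C` in `κ → ℝ` (`∀ t, |u t| ≤ C` : `pi_norm_le_iff_of_nonneg`; if `C < 0` there is no `u` unless `κ` is empty: use `max C 0` or assume as given `0 ≤ C`), `Sp = {x : Vc n 𝕜 | ‖x‖ = 1/4}`,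
`P = {(u, x) ∈ Cu × Sp | ∀ k, ev (pt (a u) k) x = 0}` (closed in a compact set: `ev_contK` composed with `(u, x) ↦ (a u, x)`, `ha`) and `Cc = (Prod.fst '' P) \ O`: compact. If `u` is in `Cu`, not in `O`,
with a common zero `x ≠ 0`, then `u ∈ Cc` (scale `x` by `1/(4‖x‖)`, `ev_scale`). For `u0 ∈ Cc`: `¬ Sing (pt (a u0))`, `¬ Sing0 (pt (a u0))` (hypothesis `hZ`), so `robPoint` gives `ρ`, `S` and an open `U ∋ a u0`; use the open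
neighbourhood `a ⁻¹' U` of `u0`. `IsCompact.induction_on`: the property of a set `T` : there is `ρ`, `0 < ρ ≤ 1`, such that all `u ∈ T` are `RobF 0 S ρ` for some injective `S` is inherited by subsets and
finite unions (`RobF_mono` with the minimum).
-/

namespace Pool.Agent.Lib.MP_1ad228_ntN

open Classical

/-- the set of the parameters in the ball, outside of `O`, with a common zero -/
private theorem RP_Cpt_compact {𝕜 : Type} [RCLike 𝕜] (n : ℕ) {r : ℕ} (d : Fin r → ℕ) {κ : Type}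
    [Fintype κ] (a : (κ → ℝ) → Kp n d → 𝕜) (ha : Continuous a) (C : ℝ) (O : Set (κ → ℝ))
    (hO : IsOpen O) :
    IsCompact ((Prod.fst '' ((Metric.closedBall (0 : κ → ℝ) C ×ˢ
      Metric.sphere (0 : Vc n 𝕜) (1 / 4)) ∩
      {q : (κ → ℝ) × Vc n 𝕜 | ∀ k, ev (pt (a q.1) k) q.2 = 0})) \ O) := by
  refine IsCompact.diff (IsCompact.image (IsCompact.inter_right
    ((isCompact_closedBall _ _).prod (isCompact_sphere _ _)) ?_) continuous_fst) hO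
  rw [Set.ofPred_forall]
  refine isClosed_iInter fun k => isClosed_eq ?_ continuous_const
  exact (ev_contK 𝕜 n d k).comp ((ha.comp continuous_fst).prodMk continuous_snd)

theorem robCpt {𝕜 : Type} [RCLike 𝕜] (n : ℕ) {r : ℕ} (d : Fin r → ℕ) {κ : Type} [Fintype κ]
    (a : (κ → ℝ) → Kp n d → 𝕜) (ha : Continuous a) (C : ℝ) (hC : 0 ≤ C) (O : Set (κ → ℝ))
    (hO : IsOpen O)
    (hZ : ∀ u : κ → ℝ, (∀ t, |u t| ≤ C) →
      (Sing (pt (a u) : Tup n d 𝕜) ∨ Sing0 (pt (a u) : Tup n d 𝕜)) → u ∈ O) :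
    ∃ ρ : ℝ, 0 < ρ ∧ ρ ≤ 1 ∧ ∀ u : κ → ℝ, (∀ t, |u t| ≤ C) → u ∉ O →
      (∃ x : Vc n 𝕜, x ≠ 0 ∧ ∀ k, ev (pt (a u) k) x = 0) →
      ∃ S : Fin r → Fin (n + 1), Function.Injective S ∧ RobF 0 S ρ (pt (a u)) := by
  have hcube : ∀ u : κ → ℝ, u ∈ Metric.closedBall (0 : κ → ℝ) C ↔ ∀ t, |u t| ≤ C := by
    intro u
    rw [mem_closedBall_zero_iff, pi_norm_le_iff_of_nonneg hC]
    rfl
  have main : ∃ ρ : ℝ, 0 < ρ ∧ ρ ≤ 1 ∧ ∀ u ∈ ((Prod.fst '' ((Metric.closedBall (0 : κ → ℝ) C ×ˢ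
      Metric.sphere (0 : Vc n 𝕜) (1 / 4)) ∩
      {q : (κ → ℝ) × Vc n 𝕜 | ∀ k, ev (pt (a q.1) k) q.2 = 0})) \ O),
      ∃ S : Fin r → Fin (n + 1), Function.Injective S ∧ RobF 0 S ρ (pt (a u)) := by
    refine IsCompact.induction_on (RP_Cpt_compact n d a ha C O hO)
      (p := fun T => ∃ ρ : ℝ, 0 < ρ ∧ ρ ≤ 1 ∧ ∀ u ∈ T,
        ∃ S : Fin r → Fin (n + 1), Function.Injective S ∧ RobF 0 S ρ (pt (a u))) ?_ ?_ ?_ ?_
    · exact ⟨1, one_pos, le_rfl, fun u hu => absurd hu (Set.notMem_empty u)⟩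
    · rintro S T hST ⟨ρ, hρ, hρ1, h⟩
      exact ⟨ρ, hρ, hρ1, fun u hu => h u (hST hu)⟩
    · rintro S T ⟨ρ, hρ, hρ1, h⟩ ⟨ρ', hρ', hρ1', h'⟩
      refine ⟨min ρ ρ', lt_min hρ hρ', (min_le_left _ _).trans hρ1, fun u hu => ?_⟩
      rcases hu with hu | hu
      · obtain ⟨S, hS, hR⟩ := h u hu
        exact ⟨S, hS, RobF_mono (min_le_left _ _) hR⟩
      · obtain ⟨S, hS, hR⟩ := h' u hu
        exact ⟨S, hS, RobF_mono (min_le_right _ _) hR⟩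
    · rintro u0 ⟨⟨⟨u, ξ⟩, ⟨⟨h1, h2⟩, h3⟩, rfl⟩, h5⟩
      have hns : ¬ Sing (pt (a u) : Tup n d 𝕜) := fun h => h5 (hZ u ((hcube u).1 h1) (Or.inl h))
      have hns0 : ¬ Sing0 (pt (a u) : Tup n d 𝕜) := fun h => h5 (hZ u ((hcube u).1 h1) (Or.inr h))
      have hξ0 : ξ ≠ 0 := by
        intro h0
        have h4 : ‖ξ‖ = 1 / 4 := mem_sphere_zero_iff_norm.1 h2
        rw [h0, norm_zero] at h4
        norm_num at h4
      obtain ⟨ρ, hρ, U, hU, hU0, S, hS, hR⟩ := robPoint n d (a u) hns hns0 ξ hξ0 h3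
      refine ⟨a ⁻¹' U, mem_nhdsWithin_of_mem_nhds ((hU.preimage ha).mem_nhds hU0), min ρ 1,
        lt_min hρ one_pos, min_le_right _ _,
        fun u' hu' => ⟨S, hS, RobF_mono (min_le_left _ _) (hR (a u') hu')⟩⟩
  obtain ⟨ρ, hρ, hρ1, h⟩ := main
  refine ⟨ρ, hρ, hρ1, fun u hu huO hx => ?_⟩
  obtain ⟨x, hx0, hxa⟩ := hx
  have hn : ‖x‖ ≠ 0 := norm_ne_zero_iff.2 hx0
  refine h u ⟨⟨(u, fun i => ((1 / (4 * ‖x‖) : ℝ) : 𝕜) * x i), ⟨⟨(hcube u).2 hu, ?_⟩, ?_⟩, rfl⟩, huO⟩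
  · rw [mem_sphere_zero_iff_norm]
    show ‖((1 / (4 * ‖x‖) : ℝ) : 𝕜) • x‖ = 1 / 4
    rw [norm_smul, RCLike.norm_ofReal, abs_of_nonneg (by positivity)]
    field_simp
  · intro k
    show ev (pt (a u) k) (fun i => ((1 / (4 * ‖x‖) : ℝ) : 𝕜) * x i) = 0
    rw [ev_scale, hxa k, mul_zero]

end Pool.Agent.Lib.MP_1ad228_ntN
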