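import Pool.Agent.Lib.MP_1ad228_ntN.RP_ChartO

/-!
JOB RP_PhiO.  A nonzero polynomial vanishing on all tuples with a zero on the hyperplane `x 0 = 0` which is singular along it.  (Compare Lib/MP_1ad228_ntF/RP_Phi.lean; RP_ChartO is another job.)

`chartPhiO`.  Fix `p ≠ 0`, `i0`; `c0 = ⟨i0, fun _ => p⟩`, `c1 = ⟨i0, spi p 0⟩ : Kp n d`; `c1 ≠ c0` (compare the entries at slot `⟨0, _⟩`: `0 ≠ p`). `σ = {c : Kp n d // c ≠ c0}`,
`y0 : Kp n d → MvPolynomial σ ℤ`, `y0 c = if h : c ≠ c0 then (if c = c1 then 0 else X ⟨c, h⟩) else 0`, `G c = if c = c1 then X ⟨c1, _⟩ else chart p i0 y0 c.1 c.2`.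
`G` is not algebraically independent over `ℤ` (as in `chartPhi` of the model: `card σ < card (Kp n d)`), so there is `Φ ≠ 0` with `aeval G Φ = 0`.
Let `F`, `x`, `t` over the field `K` be as in the statement (`x p = 1`, `x 0 = 0`, `t i0 = 1`, ...). Put `c = ∑ l, t l * dev (F l) x 0`, `E : Ten n (d i0) K` the tensor with the only nonzero entry `1` at `spi p 0`,
`F' = Function.update F i0 (F i0 - c • E)`. `E` is supported on the `spi p j`, so `ev E x = ∑ j, E (spi p j) * x j = x 0 = 0` (`supp_ev`; `spi p` is injective as `d i0 ≥ 1`) and `dev E x j = E (spi p j)` is `1` for `j = 0` and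
`0` for `j ≠ 0, p` (`supp_dev`). Hence `ev (F' l) x = 0` for all `l` and `∑ l, t l * dev (F' l) x j = 0` for all `j ≠ p` (`ev_sub`, `ev_smul'`, `dev_sub`, `dev_smul'`, `Finset.add_sum_erase`).
`chart_surj'` gives `y` with `y c0 = 0`, `y c1 = x 0 = 0` and `chart p i0 y = F'`. Let `f : MvPolynomial σ ℤ →ₐ[ℤ] K` send `X c` to `if c = c1 then F c.1 c.2 else y c`. Then `f (y0 c) = y c` for all `c`, so
`f (G c) = F c.1 c.2` for all `c` (`chart_map`; for `c ≠ c1` the entries of `F` and `F'` at `c` agree), and `aeval (fun c => F c.1 c.2) Φ = f (aeval G Φ) = 0` (`MvPolynomial.comp_aeval_apply`).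
`exPhiO`.  `Φ = ∏ p ∈ univ.erase 0, ∏ i0, Φ_(p,i0)`. Let `x, t` be as in `Sing0 F`; `x p ≠ 0` for some `p`, `p ≠ 0` as `x 0 = 0`; `t i0 ≠ 0` for some `i0`. Normalise `x p = 1`, `t i0 = 1` exactly as in `exPhi` of the model
(`ev_scale`, `dev_scale`; `x 0 = 0` is preserved).
-/

namespace Pool.Agent.Lib.MP_1ad228_ntN

open Classical

private theorem RP_PhiO_spi_zero {n d : ℕ} (hd : 1 ≤ d) (p j : Fin (n + 1)) :
    (spi p j : Fin d → Fin (n + 1)) ⟨0, hd⟩ = j := by
  simp [spi]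

theorem chartPhiO (n : ℕ) {r : ℕ} (d : Fin r → ℕ) (hd : ∀ i, 1 ≤ d i) (p : Fin (n + 1))
    (hp0 : p ≠ 0) (i0 : Fin r) : ∃ Φ : MvPolynomial (Kp n d) ℤ, Φ ≠ 0 ∧
      ∀ (K : Type) [Field K] (F : Tup n d K) (x : Vc n K) (t : Fin r → K), x p = 1 → x 0 = 0 →
        t i0 = 1 → (∀ l, ev (F l) x = 0) →
        (∀ j, j ≠ p → j ≠ 0 → ∑ l, t l * dev (F l) x j = 0) →
        MvPolynomial.aeval (fun c : Kp n d => F c.1 c.2) Φ = 0 := by
  set c0 : Kp n d := ⟨i0, fun _ => p⟩ with hc0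
  set c1 : Kp n d := ⟨i0, spi p 0⟩ with hc1
  have hc10 : c1 ≠ c0 := by
    intro h
    have h1 : (spi p 0 : Fin (d i0) → Fin (n + 1)) = fun _ => p := eq_of_heq (Sigma.mk.inj h).2
    have h2 := congrFun h1 ⟨0, hd i0⟩
    rw [RP_PhiO_spi_zero (hd i0)] at h2
    exact hp0 h2.symm
  set y0 : Kp n d → MvPolynomial {c : Kp n d // c ≠ c0} ℤ := fun c =>
    if h : c ≠ c0 then (if c = c1 then 0 else MvPolynomial.X ⟨c, h⟩) else 0 with hy0
  set G : Kp n d → MvPolynomial {c : Kp n d // c ≠ c0} ℤ := fun c =>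
    if c = c1 then MvPolynomial.X ⟨c1, hc10⟩ else chart p i0 y0 c.1 c.2 with hG
  have hna : ¬ AlgebraicIndependent ℤ G := by
    intro h
    have h1 := h.cardinalMk_le_trdeg
    rw [MvPolynomial.trdeg_of_isDomain, Cardinal.lift_id, Cardinal.mk_fintype,
      Cardinal.mk_fintype] at h1
    have h2 : Fintype.card (Kp n d) ≤ Fintype.card {c : Kp n d // c ≠ c0} := by exact_mod_cast h1
    have h3 : Fintype.card {c : Kp n d // c ≠ c0} < Fintype.card (Kp n d) :=
      Fintype.card_subtype_lt (x := c0) (by simp)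
    omega
  rw [algebraicIndependent_iff] at hna
  push Not at hna
  obtain ⟨Φ, hΦ, hΦ0⟩ := hna
  refine ⟨Φ, hΦ0, ?_⟩
  intro K _ F x t hp hx0 ht h0 h1
  set c : K := ∑ l, t l * dev (F l) x 0 with hc
  set E : Ten n (d i0) K := fun s => if s = spi p 0 then 1 else 0 with hE
  have hEs : ∀ s, (¬ ∃ j, s = spi p j) → E s = 0 := fun s hs => if_neg fun h => hs ⟨0, h⟩
  have hEj : ∀ j, E (spi p j) = if j = 0 then 1 else 0 := by
    intro j
    by_cases h : j = 0
    · rw [if_pos h, h]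
      exact if_pos rfl
    · rw [if_neg h]
      refine if_neg fun h2 => h ?_
      have h3 := congrFun h2 ⟨0, hd i0⟩
      rw [RP_PhiO_spi_zero (hd i0), RP_PhiO_spi_zero (hd i0)] at h3
      exact h3
  have hEev : ev E x = 0 := by
    rw [supp_ev (hd i0) p x hp E hEs]
    refine Finset.sum_eq_zero fun j _ => ?_
    rw [hEj]
    split_ifs with h
    · rw [h, hx0, mul_zero]
    · rw [zero_mul]
  have hEdev : ∀ j, j ≠ p → dev E x j = if j = 0 then 1 else 0 := fun j hj => by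
    rw [supp_dev (hd i0) p x hp E hEs j hj, hEj]
  set F' : Tup n d K := Function.update F i0 (F i0 - c • E) with hF'
  have hF'0 : F' i0 = F i0 - c • E := Function.update_self _ _ _
  have hF'l : ∀ l, l ≠ i0 → F' l = F l := fun l hl => Function.update_of_ne hl _ _
  have h0' : ∀ l, ev (F' l) x = 0 := by
    intro l
    by_cases hl : l = i0
    · subst hl
      rw [hF'0, ev_sub, ev_smul', hEev, h0, mul_zero, sub_zero]
    · rw [hF'l l hl, h0]
  have h1' : ∀ j, j ≠ p → ∑ l, t l * dev (F' l) x j = 0 := by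
    intro j hj
    have e1 : ∑ l ∈ Finset.univ.erase i0, t l * dev (F' l) x j =
        ∑ l ∈ Finset.univ.erase i0, t l * dev (F l) x j := by
      refine Finset.sum_congr rfl fun l hl => ?_
      rw [hF'l l (Finset.ne_of_mem_erase hl)]
    have e2 := Finset.add_sum_erase Finset.univ (fun l => t l * dev (F l) x j) (Finset.mem_univ i0)
    have e3 := Finset.add_sum_erase Finset.univ (fun l => t l * dev (F' l) x j) (Finset.mem_univ i0)
    rw [hF'0, dev_sub, dev_smul', e1, hEdev j hj] at e3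
    by_cases h : j = 0
    · rw [if_pos h] at e3
      rw [h] at e2 e3 ⊢
      rw [ht] at e2 e3
      rw [← e3]
      rw [← hc] at e2
      linear_combination e2
    · rw [if_neg h] at e3
      rw [h1 j hj h] at e2
      rw [← e3]
      linear_combination e2
  obtain ⟨y, hy, hyj, hF⟩ := chart_surj' hd p i0 F' x t hp ht h0' h1'
  have hy1 : y c1 = 0 := by
    rw [hc1, hyj 0 (Ne.symm hp0), hx0]
  set f : MvPolynomial {c : Kp n d // c ≠ c0} ℤ →ₐ[ℤ] K :=
    MvPolynomial.aeval (fun c : {c : Kp n d // c ≠ c0} =>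
      if c.1 = c1 then F c1.1 c1.2 else y c.1) with hf
  have hfy : (fun c => (f : MvPolynomial {c : Kp n d // c ≠ c0} ℤ →+* K) (y0 c)) = y := by
    funext c'
    by_cases h : c' ≠ c0
    · by_cases h' : c' = c1
      · have e : y0 c' = 0 := (dif_pos h).trans (if_pos h')
        rw [e, map_zero, h', hy1]
      · have e : y0 c' = MvPolynomial.X ⟨c', h⟩ := (dif_pos h).trans (if_neg h')
        rw [e]
        show f (MvPolynomial.X ⟨c', h⟩) = y c'
        rw [hf, MvPolynomial.aeval_X]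
        exact if_neg h'
    · have e : y0 c' = 0 := dif_neg h
      rw [e, map_zero]
      push Not at h
      rw [h]
      exact hy.symm
  have hfG : ∀ c : Kp n d, f (G c) = F c.1 c.2 := by
    intro c'
    by_cases h : c' = c1
    · have e : G c' = MvPolynomial.X ⟨c1, hc10⟩ := if_pos h
      rw [e, hf, MvPolynomial.aeval_X, h]
      exact if_pos rfl
    · have e : G c' = chart p i0 y0 c'.1 c'.2 := if_neg h
      have h2 := chart_map (f : MvPolynomial {c : Kp n d // c ≠ c0} ℤ →+* K) p i0 y0 c'.1 c'.2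
      rw [hfy, hF] at h2
      have h3 : F' c'.1 c'.2 = F c'.1 c'.2 := by
        obtain ⟨l, s⟩ := c'
        show F' l s = F l s
        by_cases hl : l = i0
        · subst hl
          rw [hF'0]
          have hs : s ≠ spi p 0 := by
            rintro rfl
            exact h rfl
          have hEs0 : E s = 0 := if_neg hs
          rw [Pi.sub_apply, Pi.smul_apply, hEs0, smul_zero, sub_zero]
        · rw [hF'l l hl]
      rw [e, ← h3]
      exact h2.symm
  have h3 := MvPolynomial.comp_aeval_apply G f Φ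
  rw [hΦ, map_zero] at h3
  have h4 : (fun c : Kp n d => F c.1 c.2) = fun c => f (G c) := by
    funext c'
    exact (hfG c').symm
  rw [h4]
  exact h3.symm

theorem exPhiO (n : ℕ) {r : ℕ} (d : Fin r → ℕ) (hd : ∀ i, 1 ≤ d i) :
    ∃ Φ : MvPolynomial (Kp n d) ℤ, Φ ≠ 0 ∧ ∀ (K : Type) [Field K] (F : Tup n d K), Sing0 F →
      MvPolynomial.aeval (fun c : Kp n d => F c.1 c.2) Φ = 0 := by
  choose Φ hΦ0 hΦ using fun (p : {p : Fin (n + 1) // p ≠ 0}) i0 => chartPhiO n d hd p.1 p.2 i0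
  refine ⟨∏ p, ∏ i0, Φ p i0, ?_, ?_⟩
  · exact Finset.prod_ne_zero_iff.mpr fun p _ => Finset.prod_ne_zero_iff.mpr fun i0 _ => hΦ0 p i0
  · intro K _ F hS
    obtain ⟨x, t, hx, hx0, ht, h0, h1⟩ := hS
    obtain ⟨p, hp⟩ := Function.ne_iff.mp hx
    obtain ⟨i0, hi0⟩ := Function.ne_iff.mp ht
    have hp' : x p ≠ 0 := hp
    have hi0' : t i0 ≠ 0 := hi0
    have hp0 : p ≠ 0 := by
      rintro rfl
      exact hp' hx0
    rw [map_prod]
    apply Finset.prod_eq_zero (Finset.mem_univ (⟨p, hp0⟩ : {p : Fin (n + 1) // p ≠ 0}))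
    rw [map_prod]
    apply Finset.prod_eq_zero (Finset.mem_univ i0)
    have hti : t i0 * x p ^ (d i0 - 1) ≠ 0 := mul_ne_zero hi0' (pow_ne_zero _ hp')
    refine hΦ ⟨p, hp0⟩ i0 K F (fun j => (x p)⁻¹ * x j)
      (fun l => t l * x p ^ (d l - 1) * (t i0 * x p ^ (d i0 - 1))⁻¹) ?_ ?_ ?_ ?_ ?_
    · exact inv_mul_cancel₀ hp'
    · show (x p)⁻¹ * x 0 = 0
      rw [hx0, mul_zero]
    · exact mul_inv_cancel₀ hti
    · intro l
      rw [ev_scale, h0 l, mul_zero]
    · intro j _ hj0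
      have e : ∀ l, t l * x p ^ (d l - 1) * (t i0 * x p ^ (d i0 - 1))⁻¹ *
          dev (F l) (fun j => (x p)⁻¹ * x j) j =
          (t i0 * x p ^ (d i0 - 1))⁻¹ * (t l * dev (F l) x j) := by
        intro l
        rw [dev_scale]
        have e1 : x p ^ (d l - 1) * (x p)⁻¹ ^ (d l - 1) = 1 := by
          rw [← mul_pow, mul_inv_cancel₀ hp', one_pow]
        calc t l * x p ^ (d l - 1) * (t i0 * x p ^ (d i0 - 1))⁻¹ *
            ((x p)⁻¹ ^ (d l - 1) * dev (F l) x j) =
            (x p ^ (d l - 1) * (x p)⁻¹ ^ (d l - 1)) * ((t i0 * x p ^ (d i0 - 1))⁻¹ *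
              (t l * dev (F l) x j)) := by ring
          _ = _ := by rw [e1, one_mul]
      rw [Finset.sum_congr rfl fun l _ => e l, ← Finset.mul_sum, h1 j hj0, mul_zero]

end Pool.Agent.Lib.MP_1ad228_ntN
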