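import Pool.Agent.Lib.MP_1ad228_ntN.RP_Base

/-!
JOB RP_Place.  The completion at an infinite place as the real or the complex field; translation of `RSol` and `Rob`.

placeData.  If `v.IsReal`: `𝕜 = ℝ`, `j = (v.embedding_of_isReal h).comp (algebraMap (𝓞 K) K)` (`InfinitePlace.embedding_of_isReal : K →+* ℝ`, `InfinitePlace.embedding_of_isReal_apply`),
`ι = Complex.ofRealHom`; `w ∈ KK v` iff `w.im = 0` iff `w = (w.re : ℂ)`. If not: `𝕜 = ℂ`, `j = em v`, `ι = RingHom.id ℂ`, every `w` is in `KK v`.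
aj_av.  `ι (aj j u c) = ∑ i, ι (algebraMap ℝ 𝕜 (u (c,i))) * ι (j (bas K i)) = tv v (u (c, .)) = av v u c` (definitions in RP_Base, NB_Bas).
zero_down.  `x l ∈ KK v` gives `x' l` with `ι (x' l) = x l` (choose); `ι (ev (pt (aj j u) k) x') = ev (pt (av v u) k) x = 0` (`ev_map`, aj_av; `pt ω k = fun s => ω ⟨k, s⟩`), `ι` is injective; `x' ≠ 0` since `x ≠ 0`.
rob_up.  Let `ξ` be the centre of `RobF o S ρ (pt (aj j u))`; take the centre `ι ∘ ξ`. `y` with `y l ∈ KK v`, `‖y l - ι (ξ l)‖ ≤ ρ`: `y l = ι (y' l)`, `‖y' l - ξ l‖ = ‖ι (y' l - ξ l)‖ ≤ ρ`; take `ι ∘ s'` for the point `s'` of `y'`: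
`‖ι (s' l)‖ = ‖s' l‖`, `ev (pt (av v u) k) (ι ∘ s') = ι (ev (pt (aj j u) k) s') = 0`.
Rob_mono.  as `RobF_mono` (file RP_Loc) or `Rob_mono` of the model.
-/

namespace Pool.Agent.Lib.MP_1ad228_ntN

open NumberField Classical

variable {K : Type} [Field K] [NumberField K]

theorem placeData (v : InfinitePlace K) :
    ∃ (𝕜 : Type) (_ : RCLike 𝕜) (j : 𝓞 K →+* 𝕜) (ι : 𝕜 →+* ℂ), (∀ z, ι (j z) = em v z) ∧
      (∀ t : ℝ, ι (algebraMap ℝ 𝕜 t) = (t : ℂ)) ∧ (∀ z, ‖ι z‖ = ‖z‖) ∧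
      ∀ w : ℂ, w ∈ KK v ↔ ∃ z, ι z = w := by
  by_cases h : v.IsReal
  · refine ⟨ℝ, inferInstance, (InfinitePlace.embedding_of_isReal h).comp (algebraMap (𝓞 K) K), Complex.ofRealHom,
      fun z => ?_, fun t => rfl, fun z => ?_, fun w => ?_⟩
    · exact InfinitePlace.embedding_of_isReal_apply h _
    · exact Complex.norm_real z
    · constructor
      · intro hw
        have h1 : w.im = 0 := hw h
        refine ⟨w.re, ?_⟩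
        apply Complex.ext
        · rfl
        · rw [h1]
          rfl
      · rintro ⟨z, rfl⟩ _
        rfl
  · refine ⟨ℂ, inferInstance, em v, RingHom.id ℂ, fun z => rfl, fun t => rfl, fun z => rfl, fun w => ?_⟩
    exact ⟨fun _ => ⟨w, rfl⟩, fun _ hv => absurd hv h⟩

theorem aj_av {n r : ℕ} {d : Fin r → ℕ} {v : InfinitePlace K} {𝕜 : Type} [RCLike 𝕜]
    {j : 𝓞 K →+* 𝕜} {ι : 𝕜 →+* ℂ} (h1 : ∀ z, ι (j z) = em v z)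
    (h2 : ∀ t : ℝ, ι (algebraMap ℝ 𝕜 t) = (t : ℂ)) (u : Kp n d × Fin (eK K) → ℝ) (c : Kp n d) :
    ι (aj j u c) = av v u c := by
  show ι (∑ i, algebraMap ℝ 𝕜 (u (c, i)) * j (bas K i)) = ∑ i, (u (c, i) : ℂ) * em v (bas K i)
  rw [map_sum]
  exact Finset.sum_congr rfl fun i _ => by rw [map_mul, h1, h2]

private theorem RP_Place_ev {n r : ℕ} {d : Fin r → ℕ} {v : InfinitePlace K} {𝕜 : Type} [RCLike 𝕜]
    {j : 𝓞 K →+* 𝕜} {ι : 𝕜 →+* ℂ} (h1 : ∀ z, ι (j z) = em v z)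
    (h2 : ∀ t : ℝ, ι (algebraMap ℝ 𝕜 t) = (t : ℂ)) (u : Kp n d × Fin (eK K) → ℝ) (k : Fin r)
    (x : Vc n 𝕜) : ev (pt (av v u) k) (fun l => ι (x l)) = ι (ev (pt (aj j u) k) x) := by
  rw [← Pool.Agent.Lib.MP_1ad228_ntF.ev_map]
  congr 1
  funext s
  exact (aj_av h1 h2 u _).symm

theorem zero_down {n r : ℕ} {d : Fin r → ℕ} {v : InfinitePlace K} {𝕜 : Type} [RCLike 𝕜]
    {j : 𝓞 K →+* 𝕜} {ι : 𝕜 →+* ℂ} (h1 : ∀ z, ι (j z) = em v z)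
    (h2 : ∀ t : ℝ, ι (algebraMap ℝ 𝕜 t) = (t : ℂ)) (h4 : ∀ w : ℂ, w ∈ KK v ↔ ∃ z, ι z = w)
    (u : Kp n d × Fin (eK K) → ℝ)
    (h : ∃ x : Vc n ℂ, (∀ l, x l ∈ KK v) ∧ x ≠ 0 ∧ ∀ k, ev (pt (av v u) k) x = 0) :
    ∃ x : Vc n 𝕜, x ≠ 0 ∧ ∀ k, ev (pt (aj j u) k) x = 0 := by
  obtain ⟨x, hx, hx0, hz⟩ := h
  choose y hy using fun l => (h4 (x l)).1 (hx l)
  have hxy : x = fun l => ι (y l) := by
    funext l
    exact (hy l).symm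
  refine ⟨y, ?_, fun k => ?_⟩
  · rintro rfl
    apply hx0
    rw [hxy]
    funext l
    exact map_zero ι
  · have h5 := hz k
    rw [hxy, RP_Place_ev h1 h2] at h5
    exact (map_eq_zero ι).1 h5

theorem rob_up {n r : ℕ} {d : Fin r → ℕ} {v : InfinitePlace K} {𝕜 : Type} [RCLike 𝕜]
    {j : 𝓞 K →+* 𝕜} {ι : 𝕜 →+* ℂ} (h1 : ∀ z, ι (j z) = em v z)
    (h2 : ∀ t : ℝ, ι (algebraMap ℝ 𝕜 t) = (t : ℂ)) (h3 : ∀ z, ‖ι z‖ = ‖z‖)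
    (h4 : ∀ w : ℂ, w ∈ KK v ↔ ∃ z, ι z = w) {o : Fin (n + 1)} {S : Fin r → Fin (n + 1)} {ρ : ℝ}
    (u : Kp n d × Fin (eK K) → ℝ) (h : RobF o S ρ (pt (aj j u) : Tup n d 𝕜)) :
    Rob v o S ρ (pt (av v u)) := by
  obtain ⟨ξ, hξ⟩ := h
  refine ⟨fun l => ι (ξ l), fun l => (h4 _).2 ⟨_, rfl⟩, fun y hy hyξ => ?_⟩
  choose y' hy' using fun l => (h4 (y l)).1 (hy l)
  obtain ⟨s, hs1, hs2, hs3, hs4⟩ := hξ y' fun l => by
    rw [← h3, map_sub, hy']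
    exact hyξ l
  refine ⟨fun l => ι (s l), fun l => (h4 _).2 ⟨_, rfl⟩, fun l hl => ?_, fun l => ?_, ?_, fun k => ?_⟩
  · show ι (s l) = y l
    rw [hs1 l hl, hy']
  · show ‖ι (s l)‖ ≤ 1 / 2
    rw [h3]
    exact hs2 l
  · show 2 * ρ ≤ ‖ι (s o)‖
    rw [h3]
    exact hs3
  · rw [RP_Place_ev h1 h2, hs4, map_zero]

theorem Rob_mono {n r : ℕ} {d : Fin r → ℕ} {v : InfinitePlace K} {o : Fin (n + 1)}
    {S : Fin r → Fin (n + 1)} {ρ ρ' : ℝ} {α : Tup n d ℂ} (h : ρ' ≤ ρ) (hR : Rob v o S ρ α) :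
    Rob v o S ρ' α := by
  obtain ⟨ξ, hξK, hξ⟩ := hR
  refine ⟨ξ, hξK, fun y hy hyξ => ?_⟩
  obtain ⟨s, hs0, hs1, hs2, hs3, hs4⟩ := hξ y hy fun l => (hyξ l).trans h
  exact ⟨s, hs0, hs1, hs2, by linarith, hs4⟩

end Pool.Agent.Lib.MP_1ad228_ntN
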