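import Pool.Agent.Lib.MP_1ad228_ntN.RP_NullC
import Pool.Agent.Lib.MP_1ad228_ntN.RP_PhiO
import Pool.Agent.Lib.MP_1ad228_ntN.RP_Cpt
import Pool.Agent.Lib.MP_1ad228_ntN.RP_Place

/-!
JOB RP_Fin.  The exceptional sets at the infinite places.  (Model with proof: Lib/MP_1ad228_ntF/RP_Fin.lean; adapt it. RP_NullC, RP_PhiO, RP_Cpt, RP_Place are other jobs; `content` (proved, Lib/MP_219881_nt/RP_Cont.lean) is exported
in LD_Base; `exPhi` (proved) in RP_Base.)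

Let `Φ1` be the polynomial of `exPhi`, `Φ2` that of `exPhiO`, `Φ = Φ1 * Φ2 ≠ 0`, `C = CK K 0 > 0`, `κ = Kp n d × Fin (eK K)`.
`Z = ⋃ v, {u : κ → ℝ | aeval (av v u) Φ = 0} ∩ Metric.closedBall 0 C` is compact (finitely many places; nullPhi, `IsCompact.inter_left`) and null (`MeasureTheory.measure_iUnion_null`). `content` gives an open `O ⊇ Z` and `A0 ≥ 1`.
Common private lemma (as `RP_Fin_O` of the model): `O` open; (i) if `∀ t, |u t| ≤ C` and `aeval (av v u) Φ1 = 0` or `aeval (av v u) Φ2 = 0` for some `v` then `u ∈ O`; (ii) for `A ≥ A0` a finset `S` of tuples over `𝓞 K` with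
`uF A F ∈ O` for all `F ∈ S` has at most `ε * A ^ (eK K * VV n d)` elements: `F ↦ (c ↦ co (F c.1.1 c.1.2) c.2)` is injective (`uF_inj`), its scaled image is `uF A F`; `card_KE`.
Per place `v`: `placeData` gives `𝕜, j, ι`. `robCpt` with `a = aj j` (`continuous_aj`), `C`, `O`: its hypothesis `hZ`: if `Sing (pt (aj j u))` then `aeval (fun c => pt (aj j u) c.1 c.2) Φ1 = 0` (`exPhi` with the field `𝕜`), apply `ι`
(`MvPolynomial.aeval` commutes with ring homomorphisms over `ℤ`: `MvPolynomial.comp_aeval_apply`/`map_aeval` with `ι.toIntAlgHom`, `aj_av`): `aeval (av v u) Φ1 = 0`, so `u ∈ O` by (i); the same for `Sing0` and `Φ2`. So: there is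
`ρ_v ∈ (0, 1]` such that for all `u` with `|u t| ≤ C`, `u ∉ O` and a zero `x` in `KK v` of `pt (av v u)` there is an injective `S` with `Rob v 0 S ρ_v (pt (av v u))` (`zero_down`, `rob_up`).
`realRob`: `ρ = min` over the places (`Finset.univ.inf'`, or induction over finsets; `Rob_mono`). For `A ≥ A0` and `F` in the filter: `|uF A F t| ≤ C` (`uF_bound`), `pt (av v (uF A F)) = scF v A F` (`pt_av`). `RSol v F` gives a zero of
`scF v A F` (`fmap (em v) F i = fun s => em v (F i s)`, `scF v A F i = fun s => (1/A) * ..`: `ev_smul`). If `uF A F ∉ O` then `Rob v 0 S ρ (scF v A F)` for all `v`, contradiction; so `uF A F ∈ O`, count with (ii).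
`nonSm`: as in the model. If `F` is not smooth over `L = AlgebraicClosure K`: `Sing` of the tuple `F' i s = (algebraMap K L (1/A)) * algebraMap (𝓞 K) L (F i s)` (scaling as in the model), so `aeval F' Φ1 = 0` in `L`; the entries are images of
`(F i s : K) / A` in `K`, so `aeval (fun c => (F c.1 c.2 : K) / A) Φ1 = 0` in `K` (`algebraMap K L` injective, `MvPolynomial.aeval_algebraMap_apply`); apply the embedding of one place `v` (`InfinitePlace K` is nonempty):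
`aeval (av v (uF A F)) Φ1 = 0` (`pt_av`, `em v z = v.embedding z`), so `uF A F ∈ O`; count with (ii).
-/

namespace Pool.Agent.Lib.MP_1ad228_ntN

open NumberField Classical

/-- the open set `O` and the count -/
private theorem RP_Fin_O (K : Type) [Field K] [NumberField K] (n : ℕ) {r : ℕ} (d : Fin r → ℕ)
    (Φ1 Φ2 : MvPolynomial (Kp n d) ℤ) (h1 : Φ1 ≠ 0) (h2 : Φ2 ≠ 0) (ε : ℝ) (hε : 0 < ε) :
    ∃ O : Set (Kp n d × Fin (eK K) → ℝ), IsOpen O ∧
    (∀ (v : InfinitePlace K) (u : Kp n d × Fin (eK K) → ℝ), (∀ t, |u t| ≤ CK K 0) →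
      (MvPolynomial.aeval (av v u) Φ1 = 0 ∨ MvPolynomial.aeval (av v u) Φ2 = 0) → u ∈ O) ∧
    ∃ A0 : ℕ, 1 ≤ A0 ∧ ∀ A : ℕ, A0 ≤ A → ∀ S : Finset (Tup n d (𝓞 K)),
      (∀ F ∈ S, uF A F ∈ O) → (S.card : ℝ) ≤ ε * (A : ℝ) ^ (eK K * VV n d) := by
  have hΦ : Φ1 * Φ2 ≠ 0 := mul_ne_zero h1 h2
  have hC : (0 : ℝ) ≤ CK K 0 := (CK_pos K 0).le
  obtain ⟨O, hO, hZO, A0, hA0, h⟩ := content ((⋃ v : InfinitePlace K,
      {u : Kp n d × Fin (eK K) → ℝ | MvPolynomial.aeval (av v u) (Φ1 * Φ2) = 0}) ∩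
      Metric.closedBall (0 : Kp n d × Fin (eK K) → ℝ) (CK K 0))
    ((isCompact_closedBall _ _).inter_left
      (isClosed_iUnion_of_finite fun v => (nullPhi v _ hΦ).1))
    (MeasureTheory.measure_mono_null Set.inter_subset_left
      (MeasureTheory.measure_iUnion_null fun v => (nullPhi v _ hΦ).2)) ε hε
  refine ⟨O, hO, fun v u hu h12 => hZO ⟨Set.mem_iUnion.2 ⟨v, ?_⟩, ?_⟩, A0, hA0,
    fun A hA S hSO => ?_⟩
  · show MvPolynomial.aeval (av v u) (Φ1 * Φ2) = 0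
    rw [map_mul]
    rcases h12 with h12 | h12
    · rw [h12, zero_mul]
    · rw [h12, mul_zero]
  · rw [mem_closedBall_zero_iff, pi_norm_le_iff_of_nonneg hC]
    exact hu
  · have hinj : Function.Injective (fun (F : Tup n d (𝓞 K)) (c : Kp n d × Fin (eK K)) =>
        co (F c.1.1 c.1.2) c.2) := fun F G hFG => uF_inj fun c => congrFun hFG c
    have h3 := h A hA (S.image fun (F : Tup n d (𝓞 K)) (c : Kp n d × Fin (eK K)) =>
        co (F c.1.1 c.1.2) c.2) (by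
      intro z hz
      obtain ⟨F, hF, rfl⟩ := Finset.mem_image.1 hz
      exact hSO F hF)
    rw [Finset.card_image_of_injective S hinj, card_KE] at h3
    exact h3

private theorem RP_Fin_key {K : Type} [Field K] [NumberField K] {n r : ℕ} {d : Fin r → ℕ}
    {v : InfinitePlace K} {𝕜 : Type} [RCLike 𝕜] {j : 𝓞 K →+* 𝕜} {ι : 𝕜 →+* ℂ}
    (h1 : ∀ z, ι (j z) = em v z) (h2 : ∀ t : ℝ, ι (algebraMap ℝ 𝕜 t) = (t : ℂ))
    (u : Kp n d × Fin (eK K) → ℝ) (Φ : MvPolynomial (Kp n d) ℤ)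
    (h : MvPolynomial.aeval (aj j u) Φ = 0) : MvPolynomial.aeval (av v u) Φ = 0 := by
  have h5 := MvPolynomial.comp_aeval_apply (aj j u : Kp n d → 𝕜) ι.toIntAlgHom Φ
  rw [h, map_zero] at h5
  have h6 : (av v u : Kp n d → ℂ) = fun c => ι.toIntAlgHom (aj j u c) := by
    funext c
    exact (aj_av h1 h2 u c).symm
  rw [h6]
  exact h5.symm

private theorem RP_Fin_pl {K : Type} [Field K] [NumberField K] {n r : ℕ} {d : Fin r → ℕ}
    {Φ1 Φ2 : MvPolynomial (Kp n d) ℤ}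
    (hΦ1 : ∀ (K : Type) [Field K] (F : Tup n d K), Sing F →
      MvPolynomial.aeval (fun c : Kp n d => F c.1 c.2) Φ1 = 0)
    (hΦ2 : ∀ (K : Type) [Field K] (F : Tup n d K), Sing0 F →
      MvPolynomial.aeval (fun c : Kp n d => F c.1 c.2) Φ2 = 0)
    {O : Set (Kp n d × Fin (eK K) → ℝ)}
    {v : InfinitePlace K}
    (hmem : ∀ (u : Kp n d × Fin (eK K) → ℝ), (∀ t, |u t| ≤ CK K 0) →
      (MvPolynomial.aeval (av v u) Φ1 = 0 ∨ MvPolynomial.aeval (av v u) Φ2 = 0) → u ∈ O)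
    {𝕜 : Type} [RCLike 𝕜] {j : 𝓞 K →+* 𝕜} {ι : 𝕜 →+* ℂ}
    (h1 : ∀ z, ι (j z) = em v z) (h2 : ∀ t : ℝ, ι (algebraMap ℝ 𝕜 t) = (t : ℂ))
    (u : Kp n d × Fin (eK K) → ℝ) (hu : ∀ t, |u t| ≤ CK K 0)
    (h : Sing (pt (aj j u) : Tup n d 𝕜) ∨ Sing0 (pt (aj j u) : Tup n d 𝕜)) : u ∈ O := by
  refine hmem u hu ?_
  rcases h with h | h
  · left
    have h3 := hΦ1 𝕜 (pt (aj j u)) h
    exact RP_Fin_key h1 h2 u Φ1 h3
  · right
    have h3 := hΦ2 𝕜 (pt (aj j u)) h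
    exact RP_Fin_key h1 h2 u Φ2 h3

private theorem RP_Fin_pl2 {K : Type} [Field K] [NumberField K] {n r : ℕ} {d : Fin r → ℕ}
    {Φ1 Φ2 : MvPolynomial (Kp n d) ℤ}
    (hΦ1 : ∀ (K : Type) [Field K] (F : Tup n d K), Sing F →
      MvPolynomial.aeval (fun c : Kp n d => F c.1 c.2) Φ1 = 0)
    (hΦ2 : ∀ (K : Type) [Field K] (F : Tup n d K), Sing0 F →
      MvPolynomial.aeval (fun c : Kp n d => F c.1 c.2) Φ2 = 0)
    {O : Set (Kp n d × Fin (eK K) → ℝ)} (hO : IsOpen O)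
    {v : InfinitePlace K}
    (hmem : ∀ (u : Kp n d × Fin (eK K) → ℝ), (∀ t, |u t| ≤ CK K 0) →
      (MvPolynomial.aeval (av v u) Φ1 = 0 ∨ MvPolynomial.aeval (av v u) Φ2 = 0) → u ∈ O)
    {𝕜 : Type} [RCLike 𝕜] {j : 𝓞 K →+* 𝕜} {ι : 𝕜 →+* ℂ}
    (h1 : ∀ z, ι (j z) = em v z) (h2 : ∀ t : ℝ, ι (algebraMap ℝ 𝕜 t) = (t : ℂ)) :
    ∃ ρ : ℝ, 0 < ρ ∧ ρ ≤ 1 ∧ ∀ u : Kp n d × Fin (eK K) → ℝ, (∀ t, |u t| ≤ CK K 0) → u ∉ O →
      (∃ x : Vc n 𝕜, x ≠ 0 ∧ ∀ k, ev (pt (aj j u) k) x = 0) →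
      ∃ S : Fin r → Fin (n + 1), Function.Injective S ∧ RobF 0 S ρ (pt (aj j u)) :=
  robCpt n d (aj j) (continuous_aj j) (CK K 0) (CK_pos K 0).le O hO
    (RP_Fin_pl hΦ1 hΦ2 hmem h1 h2)

/-- one place -/
private theorem RP_Fin_place {K : Type} [Field K] [NumberField K] {n r : ℕ} {d : Fin r → ℕ}
    {Φ1 Φ2 : MvPolynomial (Kp n d) ℤ}
    (hΦ1 : ∀ (K : Type) [Field K] (F : Tup n d K), Sing F →
      MvPolynomial.aeval (fun c : Kp n d => F c.1 c.2) Φ1 = 0)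
    (hΦ2 : ∀ (K : Type) [Field K] (F : Tup n d K), Sing0 F →
      MvPolynomial.aeval (fun c : Kp n d => F c.1 c.2) Φ2 = 0)
    {O : Set (Kp n d × Fin (eK K) → ℝ)} (hO : IsOpen O)
    (hmem : ∀ (v : InfinitePlace K) (u : Kp n d × Fin (eK K) → ℝ), (∀ t, |u t| ≤ CK K 0) →
      (MvPolynomial.aeval (av v u) Φ1 = 0 ∨ MvPolynomial.aeval (av v u) Φ2 = 0) → u ∈ O)
    (v : InfinitePlace K) :
    ∃ ρ : ℝ, 0 < ρ ∧ ρ ≤ 1 ∧ ∀ u : Kp n d × Fin (eK K) → ℝ, (∀ t, |u t| ≤ CK K 0) → u ∉ O →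
      (∃ x : Vc n ℂ, (∀ l, x l ∈ KK v) ∧ x ≠ 0 ∧ ∀ k, ev (pt (av v u) k) x = 0) →
      ∃ S : Fin r → Fin (n + 1), Function.Injective S ∧ Rob v 0 S ρ (pt (av v u)) := by
  obtain ⟨𝕜, inst, j, ι, h1, h2, h3, h4⟩ := placeData v
  obtain ⟨ρ, hρ, hρ1, hrob⟩ := RP_Fin_pl2 hΦ1 hΦ2 hO (hmem v) h1 h2
  refine ⟨ρ, hρ, hρ1, fun u hu huO hx => ?_⟩
  obtain ⟨S, hS, hR⟩ := hrob u hu huO (zero_down h1 h2 h4 u hx)
  exact ⟨S, hS, rob_up h1 h2 h3 h4 u hR⟩

theorem realRob (K : Type) [Field K] [NumberField K] (n : ℕ) {r : ℕ} (d : Fin r → ℕ)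
    (hd : ∀ i, 1 ≤ d i) (ε : ℝ) (hε : 0 < ε) :
    ∃ ρ : ℝ, 0 < ρ ∧ ρ ≤ 1 ∧ ∃ A0 : ℕ, ∀ A : ℕ, A0 ≤ A →
      (((TBox K n d A).filter fun F => (∀ v, RSol v F) ∧
          ¬ ∀ v : InfinitePlace K, ∃ S : Fin r → Fin (n + 1), Function.Injective S ∧
            Rob v 0 S ρ (scF v A F)).card : ℝ) ≤ ε * (A : ℝ) ^ (eK K * VV n d) := by
  obtain ⟨Φ1, hΦ10, hΦ1⟩ := exPhi n d hd
  obtain ⟨Φ2, hΦ20, hΦ2⟩ := exPhiO n d hd
  obtain ⟨O, hO, hmem, A0, hA0, hcount⟩ := RP_Fin_O K n d Φ1 Φ2 hΦ10 hΦ20 ε hε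
  choose ρ hρ hρ1 hrob using fun v : InfinitePlace K => RP_Fin_place hΦ1 hΦ2 hO hmem v
  obtain ⟨v0⟩ := (inferInstance : Nonempty (InfinitePlace K))
  refine ⟨Finset.univ.inf' Finset.univ_nonempty ρ, ?_, ?_, A0, fun A hA =>
    hcount A hA _ fun F hF => ?_⟩
  · rw [Finset.lt_inf'_iff]
    exact fun v _ => hρ v
  · exact (Finset.inf'_le ρ (Finset.mem_univ v0)).trans (hρ1 v0)
  obtain ⟨hF1, hR, hnot⟩ := Finset.mem_filter.1 hF
  by_contra hnO
  refine hnot fun v => ?_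
  obtain ⟨x, hx1, hx0, hx⟩ := hR v
  obtain ⟨S, hS, hR'⟩ := hrob v (uF A F) (uF_bound (hA0.trans hA) hF1) hnO
    ⟨x, hx1, hx0, fun k => by
      rw [pt_av]
      have e : scF v A F k = fun s => (1 / (A : ℂ)) * fmap (em v) F k s := by
        funext s
        show em v (F k s) / (A : ℂ) = (1 / (A : ℂ)) * em v (F k s)
        ring
      rw [e, ev_smul, hx k, mul_zero]⟩
  rw [pt_av] at hR'
  exact ⟨S, hS, Rob_mono (Finset.inf'_le ρ (Finset.mem_univ v)) hR'⟩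

theorem nonSm (K : Type) [Field K] [NumberField K] (n : ℕ) {r : ℕ} (d : Fin r → ℕ)
    (hd : ∀ i, 1 ≤ d i) (ε : ℝ) (hε : 0 < ε) :
    ∃ A0 : ℕ, ∀ A : ℕ, A0 ≤ A →
      (((TBox K n d A).filter fun F =>
          ¬ ∀ x : Vc n (AlgebraicClosure K), x ≠ 0 →
            (∀ k, ev (fmap (algebraMap (𝓞 K) (AlgebraicClosure K)) F k) x = 0) →
            LinearIndependent (AlgebraicClosure K)
              (fun k => dev (fmap (algebraMap (𝓞 K) (AlgebraicClosure K)) F k) x)).card : ℝ) ≤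
        ε * (A : ℝ) ^ (eK K * VV n d) := by
  obtain ⟨Φ1, hΦ10, hΦ1⟩ := exPhi n d hd
  obtain ⟨O, hO, hmem, A0, hA0, hcount⟩ := RP_Fin_O K n d Φ1 Φ1 hΦ10 hΦ10 ε hε
  obtain ⟨v⟩ := (inferInstance : Nonempty (InfinitePlace K))
  refine ⟨A0, fun A hA => hcount A hA _ fun F hF => ?_⟩
  obtain ⟨hF1, h2⟩ := Finset.mem_filter.1 hF
  push Not at h2
  obtain ⟨x, hx0, hx, hli⟩ := h2
  rw [Fintype.linearIndependent_iff] at hli
  push Not at hli
  obtain ⟨t, ht, i, hi⟩ := hli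
  refine hmem v (uF A F) (uF_bound (hA0.trans hA) hF1) (Or.inl ?_)
  have hS' := hΦ1 (AlgebraicClosure K)
      (fun i => (algebraMap K (AlgebraicClosure K) (1 / (A : K))) •
        fmap (algebraMap (𝓞 K) (AlgebraicClosure K)) F i)
      ⟨x, t, hx0, fun h => hi (by rw [h]; rfl), fun l => ?_, fun j => ?_⟩
  · have h2 : (fun c : Kp n d => ((algebraMap K (AlgebraicClosure K) (1 / (A : K))) •
          fmap (algebraMap (𝓞 K) (AlgebraicClosure K)) F c.1) c.2) =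
          (algebraMap K (AlgebraicClosure K)) ∘ fun c : Kp n d =>
            (algebraMap (𝓞 K) K (F c.1 c.2)) / (A : K) := by
      funext c
      show (algebraMap K (AlgebraicClosure K) (1 / (A : K))) *
        algebraMap (𝓞 K) (AlgebraicClosure K) (F c.1 c.2) =
        algebraMap K (AlgebraicClosure K) ((algebraMap (𝓞 K) K (F c.1 c.2)) / (A : K))
      rw [IsScalarTower.algebraMap_apply (𝓞 K) K (AlgebraicClosure K), ← map_mul]
      refine congrArg (algebraMap K (AlgebraicClosure K)) ?_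
      ring
    rw [h2, MvPolynomial.aeval_algebraMap_apply] at hS'
    have h3 : MvPolynomial.aeval (fun c : Kp n d =>
        (algebraMap (𝓞 K) K (F c.1 c.2)) / (A : K)) Φ1 = 0 := by
      apply (algebraMap K (AlgebraicClosure K)).injective
      rw [hS', map_zero]
    have h5 := MvPolynomial.comp_aeval_apply (fun c : Kp n d =>
        (algebraMap (𝓞 K) K (F c.1 c.2)) / (A : K)) v.embedding.toIntAlgHom Φ1
    rw [h3, map_zero] at h5
    have h6 : (av v (uF A F) : Kp n d → ℂ) = fun c => v.embedding.toIntAlgHom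
        ((algebraMap (𝓞 K) K (F c.1 c.2)) / (A : K)) := by
      funext c
      have h7 : av v (uF A F) c = em v (F c.1 c.2) / (A : ℂ) := by
        have h8 := congrFun (congrFun (pt_av v A F) c.1) c.2
        exact h8
      rw [h7]
      show _ = v.embedding ((algebraMap (𝓞 K) K (F c.1 c.2)) / (A : K))
      rw [map_div₀, map_natCast]
      rfl
    rw [h6]
    exact h5.symm
  · show ev ((algebraMap K (AlgebraicClosure K) (1 / (A : K))) •
      fmap (algebraMap (𝓞 K) (AlgebraicClosure K)) F l) x = 0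
    rw [ev_smul', hx l, mul_zero]
  · have h5 : ∀ l, t l * dev ((algebraMap K (AlgebraicClosure K) (1 / (A : K))) •
        fmap (algebraMap (𝓞 K) (AlgebraicClosure K)) F l) x j =
        algebraMap K (AlgebraicClosure K) (1 / (A : K)) *
          (t l * dev (fmap (algebraMap (𝓞 K) (AlgebraicClosure K)) F l) x j) := by
      intro l
      rw [dev_smul']
      ring
    have h3 := congrFun ht j
    rw [Finset.sum_apply] at h3
    have h4 : ∑ l, t l * dev (fmap (algebraMap (𝓞 K) (AlgebraicClosure K)) F l) x j = 0 := h3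
    rw [Finset.sum_congr rfl (fun l _ => h5 l), ← Finset.mul_sum, h4, mul_zero]

end Pool.Agent.Lib.MP_1ad228_ntN
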