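import Pool.Agent.Lib.MP_1ad228_ntN.B_VarK
import Pool.Agent.Lib.MP_1ad228_ntN.B_LowK
import Pool.Agent.Lib.MP_1ad228_ntN.B_MkK
import Pool.Agent.Lib.MP_1ad228_ntN.B_ChebK
import Pool.Agent.Lib.MP_1ad228_ntN.B_ParK
import Pool.Agent.Lib.MP_1ad228_ntN.LocDens
import Pool.Agent.Lib.MP_1ad228_ntN.RP_Fin
import Pool.Agent.Lib.MP_1ad228_ntN.CN_Np

/-!
JOB B_MainK.  Almost all everywhere locally soluble r-tuples of quadratic tensors in `2r + 1` variables have a small common zero. (Models: MN_Bad.lean of this folder and Lib/MP_1ad228_ntF/B_Main.lean; here only one pivot `o = 0`.)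

PROOF.  `n = 2 r`, `d = fun _ => 2`, `∑ d = 2 r` (simp), `n + 1 - ∑ d = 1`, `V = VV n d`, `e = eK K ≥ 1`. Order of the choices (`ε` given):
1. `realRob K n d _ (ε/4)`: `ρ, A1`; `q ≥ 1` natural, `1 ≤ ρ q`. `locDens K n .. (ε/4)`: `τ, w1`. `lowB`: `c`. `badB K n`: `Cb`. `markB K n d _ q`: `Cm`. `varTotB K .. q`: `C1`. `η = c τ/2`, `P2 = 2^(e V)`.
2. `s ≥ 1` with `Cm Cb/(η s^(n e)) ≤ ε/16`. `h ≥ 1` natural with `Cb s^(n-1) ≤ h`.
3. `μ ≥ 4` with `P2 * (4/(cτ)^2) * C1 * (4/μ)^(r e) ≤ ε/16` (`(4/μ)^(re) ≤ 4/μ`). `lam = ⌈C1 h^2 μ⌉₊`. `varTotB`: `C2`.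
4. `T ≥ 1` with `P2 * (4/(cτ)^2) * C2 * (4/T) ≤ ε/16`. `T' = ⌈C1 h^2 μ T⌉₊`. `varTotB`: `C3`. `κ = (T^2)^2`.
5. `w ≥ w0(κ)` (`lowB`), `w1`, `1`, `T`; `W = WW w`; `B0` from `lowB`, `A2` from `locDens`. `s' ≥ 1` with `(Cm Cb/η) ((κ W)^r)^e/s'^(n e) ≤ ε/16`; `h'` natural with `Cb s'^(n-1) ≤ h'`, `H' = h' g`.
6. `parB μ g0 c0` with `g0` larger than `B0`, the `g0` of `badB` for `s` and `s'`, `g1` of `lgSmall` (so that `(Nat.log 2 (g^n) + 2)^e (h^(3r+1)/g)^e ≤ 1/T`), `C3 ((W T^2)^r h^(2n(n+1)-1))^e T` (so that the last term of the bracket is `≤ 1/T`; `HB2`,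
   `(x/g)^e ≤ x^e/g`), and `c0` larger than `C1 h`, `Cm h'`, `C1`, `T`, `κ W`. For `A ≥ A0` get `g`; `B = g^n`, `H = h g`. Then `C1 ≤ A`, `C1 H ≤ A`, `C1 H^2 = C1 h^2 g^2 ≤ C1 h^2 μ A ≤ lam A`, `C1 H^2 T ≤ C1 h^2 μ A T ≤ A T'`, `T ≤ A`, `κ W ≤ A ≤ A B`, `Cm H' ≤ A`.
   `E = (B^(n+1)/(A^r B^(2r)))^e ≥ ((μ/4)^r)^e` (`EB`).
7. `R(F) = #{x ∈ GG K B B q 0 | ¬ HGood H x ∧ ∀ i, Loc W κ A 0 (F i) x}`, `P` = set of `F ∈ TBox K n d A` with `((κ W)^r)^e R(F)/(B^(n+1))^e > η`, `T1` = set of `F ∈ TBox K n d A`, `F ∉ P`, with `Nn B H q 0 F = 0`, robust at all `v` with injective `S`,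
   `τ W^(e(n+1)) ≤ smI (WI K w) F W^(e r)`. Markov (`markB`, `badB` for `s` and for `s'`): `#P * η ≤ ((κ W)^r)^e/(B^(n+1))^e * Cm A^(eV) (Cb (B^(n+1)/s^n)^e/((κ W)^r)^e + Cb (B^(n+1)/s'^n)^e)`, so `#P ≤ A^(eV) (ε/16 + ε/16)`.
   `lowB`: on `T1` `Ll ≥ E (c τ - η) = E c τ/2`. `chebB`: `#T1 * (E c τ/2)^2 ≤ P2 QvB ≤ P2 A^(eV) (C1 E + C2 E^2 * 4/T)`, so `#T1 ≤ A^(eV) P2 (4/(cτ)^2) (C1/E + 4 C2/T) ≤ A^(eV) (ε/16 + ε/16)`.
8. A tuple `F` of the filter is in the exceptional set of `realRob`, or in that of `locDens`, or in `P` or in `T1` (as in MN_Bad; `x ∈ GG K B H q 0` gives `v (x l) ≤ B = (g^2)^r ≤ (μ A)^r = μ^r A^r`, `M = μ^r`, exponent `n + 1 - ∑ d = 1`). Total `≤ (ε/4 + ε/4 + ε/4) A^(eV)`.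
-/

namespace Pool.Agent.Lib.MP_1ad228_ntN

open NumberField Classical

set_option linter.unusedSectionVars false

private theorem B_MainK_inv (X e : ℝ) (he : 0 < e) : ∃ s : ℕ, 1 ≤ s ∧ X / s ≤ e := by
  refine ⟨⌈X / e⌉₊ + 1, by omega, ?_⟩
  have h1 := Nat.le_ceil (X / e)
  rw [div_le_iff₀ he] at h1
  have h2 : (0 : ℝ) < ((⌈X / e⌉₊ + 1 : ℕ) : ℝ) := by positivity
  rw [div_le_iff₀ h2]
  push_cast
  nlinarith

private theorem B_MainK_pow (X e : ℝ) (hX : 0 ≤ X) (s n k : ℕ) (hs : 1 ≤ s) (hn : 1 ≤ n) (hk : 1 ≤ k)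
    (h : X / s ≤ e) : X / ((s : ℝ) ^ n) ^ k ≤ e := by
  refine le_trans ?_ h
  have h1 : (1 : ℝ) ≤ s := by exact_mod_cast hs
  apply div_le_div_of_nonneg_left hX (by linarith)
  rw [← pow_mul]
  exact le_self_pow₀ h1 (Nat.mul_ne_zero (by omega) (by omega))

private theorem B_MainK_ar1 (C η κ b z av Cb s1 s2 y1 y2 e : ℝ) (hη : 0 < η) (hκ : 0 < κ)
    (hb : 0 < b) (hz : 0 < z) (hav : 0 ≤ av) (hs1 : 0 < s1) (hs2 : 0 < s2)
    (h1 : C * η ≤ κ / b * (z * av * (y1 / κ + y2))) (hy1 : y1 ≤ Cb * (b / s1))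
    (hy2 : y2 ≤ Cb * (b / s2)) (e1 : z * Cb / η / s1 ≤ e) (e2 : z * Cb * κ / η / s2 ≤ e) :
    C ≤ 2 * e * av := by
  have h2 : κ / b * (z * av * (y1 / κ + y2)) ≤
      κ / b * (z * av * ((Cb * (b / s1)) / κ + Cb * (b / s2))) := by
    apply mul_le_mul_of_nonneg_left _ (by positivity)
    apply mul_le_mul_of_nonneg_left _ (by positivity)
    exact add_le_add (div_le_div_of_nonneg_right hy1 hκ.le) hy2
  have h3 : κ / b * (z * av * ((Cb * (b / s1)) / κ + Cb * (b / s2))) =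
      (av * (z * Cb / η / s1 + z * Cb * κ / η / s2)) * η := by
    field_simp
  have h4 : (av * (z * Cb / η / s1 + z * Cb * κ / η / s2)) * η ≤ (2 * e * av) * η := by
    apply mul_le_mul_of_nonneg_right _ hη.le
    calc av * (z * Cb / η / s1 + z * Cb * κ / η / s2) ≤ av * (e + e) :=
          mul_le_mul_of_nonneg_left (add_le_add e1 e2) hav
      _ = 2 * e * av := by ring
  have h5 : C * η ≤ (2 * e * av) * η := h1.trans (h2.trans (h3.le.trans h4))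
  exact le_of_mul_le_mul_right h5 hη

private theorem B_MainK_ar2 (T Q C1 C2 av E S c τ P L T1 e : ℝ) (hC1 : 0 < C1) (hC2 : 0 < C2) (hav : 0 ≤ av)
    (hc : 0 < c) (hτ : 0 < τ) (hP : 0 < P) (hL : 0 < L) (hE : L ≤ E) (hT1 : 0 < T1)
    (h1 : T * (E * (c * τ / 2)) ^ 2 ≤ P * Q) (h2 : Q ≤ C1 * av * E + C2 * av * E ^ 2 * S)
    (hS : S ≤ 4 / T1) (e1 : P * 4 * C1 / (c * τ) ^ 2 / L ≤ e) (e2 : P * 4 * C2 * 4 / (c * τ) ^ 2 / T1 ≤ e) :
    T ≤ 2 * e * av := by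
  have hE0 : 0 < E := lt_of_lt_of_le hL hE
  have h3 : E ≤ E ^ 2 / L := by
    rw [le_div_iff₀ hL]
    calc E * L ≤ E * E := mul_le_mul_of_nonneg_left hE hE0.le
      _ = E ^ 2 := by ring
  have h4 : C1 * av * E + C2 * av * E ^ 2 * S ≤ C1 * av * (E ^ 2 / L) + C2 * av * E ^ 2 * (4 / T1) :=
    add_le_add (mul_le_mul_of_nonneg_left h3 (by positivity)) (mul_le_mul_of_nonneg_left hS (by positivity))
  have h5 : P * (C1 * av * (E ^ 2 / L) + C2 * av * E ^ 2 * (4 / T1)) =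
      (av * (P * 4 * C1 / (c * τ) ^ 2 / L + P * 4 * C2 * 4 / (c * τ) ^ 2 / T1)) * (E * (c * τ / 2)) ^ 2 := by
    field_simp
    ring
  have h6 : (av * (P * 4 * C1 / (c * τ) ^ 2 / L + P * 4 * C2 * 4 / (c * τ) ^ 2 / T1)) * (E * (c * τ / 2)) ^ 2 ≤
      (2 * e * av) * (E * (c * τ / 2)) ^ 2 := by
    apply mul_le_mul_of_nonneg_right _ (sq_nonneg _)
    calc av * (P * 4 * C1 / (c * τ) ^ 2 / L + P * 4 * C2 * 4 / (c * τ) ^ 2 / T1) ≤ av * (e + e) :=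
          mul_le_mul_of_nonneg_left (add_le_add e1 e2) hav
      _ = 2 * e * av := by ring
  have h7 : T * (E * (c * τ / 2)) ^ 2 ≤ (2 * e * av) * (E * (c * τ / 2)) ^ 2 :=
    h1.trans ((mul_le_mul_of_nonneg_left (h2.trans h4) hP.le).trans (h5.le.trans h6))
  exact le_of_mul_le_mul_right h7 (by positivity)

/-- Markov -/
private theorem B_MainK_markov {α : Type*} (S : Finset α) (f : α → ℝ) (hf : ∀ a ∈ S, 0 ≤ f a) (η : ℝ) : ((S.filter fun a => ¬ f a ≤ η).card : ℝ) * η ≤ ∑ a ∈ S, f a := by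
  calc ((S.filter fun a => ¬ f a ≤ η).card : ℝ) * η = ∑ _a ∈ S.filter (fun a => ¬ f a ≤ η), η := by
        rw [Finset.sum_const, nsmul_eq_mul]
    _ ≤ ∑ a ∈ S.filter (fun a => ¬ f a ≤ η), f a := by
        apply Finset.sum_le_sum
        intro a ha
        rw [Finset.mem_filter] at ha
        exact (not_le.1 ha.2).le
    _ ≤ ∑ a ∈ S, f a :=
        Finset.sum_le_sum_of_subset_of_nonneg (Finset.filter_subset _ _) (fun a ha _ => hf a ha)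

/-- The last term of the bracket. -/
private theorem B_MainK_last (C3 X Y T : ℝ) (g k : ℕ) (hT : 0 < T) (hg : 1 ≤ g)
    (hk : 1 ≤ k) (hY : Y = X / g) (h : T * (C3 * X ^ k) ≤ g) : C3 * Y ^ k ≤ 1 / T := by
  have hg1 : (1 : ℝ) ≤ g := by exact_mod_cast hg
  have hg0 : (0 : ℝ) < g := by linarith
  rw [hY, div_pow, ← mul_div_assoc, div_le_div_iff₀ (by positivity) hT, one_mul]
  calc C3 * X ^ k * T = T * (C3 * X ^ k) := by ring
    _ ≤ g := h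
    _ ≤ (g : ℝ) ^ k := le_self_pow₀ hg1 (by omega)

/-- The third term of the bracket. -/
private theorem B_MainK_lg (l X Y T : ℝ) (g k : ℕ) (hl : 0 ≤ l) (hY0 : 0 ≤ Y)
    (hY : Y ≤ X / g) (h : X ^ k * (l / g) ^ k ≤ 1 / T) : l ^ k * Y ^ k ≤ 1 / T := by
  refine le_trans ?_ h
  rw [← mul_pow, ← mul_pow]
  refine pow_le_pow_left₀ (mul_nonneg hl hY0) ?_ _
  calc l * Y ≤ l * (X / g) := mul_le_mul_of_nonneg_left hY hl
    _ = X * (l / g) := by ring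

private theorem B_MainK_cast (C : ℝ) (h g c A : ℕ) (h1 : c * g ≤ A) (h2 : ⌈C⌉₊ * h ≤ c) :
    C * ((h * g : ℕ) : ℝ) ≤ A := by
  have h3 : C ≤ (⌈C⌉₊ : ℝ) := Nat.le_ceil C
  have h4 : ⌈C⌉₊ * (h * g) ≤ A := by
    calc ⌈C⌉₊ * (h * g) = ⌈C⌉₊ * h * g := by ring
      _ ≤ c * g := Nat.mul_le_mul_right g h2
      _ ≤ A := h1
  calc C * ((h * g : ℕ) : ℝ) ≤ (⌈C⌉₊ : ℝ) * ((h * g : ℕ) : ℝ) := mul_le_mul_of_nonneg_right h3 (by positivity)
    _ ≤ A := by exact_mod_cast h4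

variable {K : Type} [Field K] [NumberField K]

private noncomputable def B_MainK_R {n r : ℕ} (B H q w κ A : ℕ) {d : Fin r → ℕ} (F : Tup n d (𝓞 K)) : ℝ :=
  (((κ : ℝ) * WW w) ^ r) ^ eK K * (((GG K B B q 0).filter fun x => ¬ HGood H x ∧
    ∀ i, Loc (WW w) κ A 0 (F i) x).card : ℝ) / ((B : ℝ) ^ (n + 1)) ^ eK K

variable (K) in
private noncomputable def B_MainK_P {n r : ℕ} (d : Fin r → ℕ) (B H q w κ A : ℕ) (η : ℝ) :
    Finset (Tup n d (𝓞 K)) := (TBox K n d A).filter fun F => ¬ B_MainK_R B H q w κ A F ≤ η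

variable (K) in
private noncomputable def B_MainK_T {n r : ℕ} (d : Fin r → ℕ) (B H q w κ A : ℕ) (ρ τ η : ℝ) :
    Finset (Tup n d (𝓞 K)) :=
  (TBox K n d A).filter fun F => B_MainK_R B H q w κ A F ≤ η ∧ Nn B H q 0 F = 0 ∧
    (∀ v : InfinitePlace K, ∃ S : Fin r → Fin (n + 1), Function.Injective S ∧
      Rob v 0 S ρ (scF v A F)) ∧
    τ * (WW w : ℝ) ^ (eK K * (n + 1)) ≤ (smI (WI K w) F : ℝ) * (WW w : ℝ) ^ (eK K * r)

variable (K) in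
private theorem B_MainK_core (r : ℕ) (hr : 2 ≤ r) (n : ℕ) (hn : n = 2 * r) (d : Fin r → ℕ)
    (hd2 : d = fun _ => 2) : MainP K n d := by
  intro ε hε
  have he : 1 ≤ eK K := eK_pos
  have hr1 : 1 ≤ r := by omega
  have hn1 : 1 ≤ n := by omega
  have hn2 : r + 2 ≤ n := by omega
  have hd : ∀ i, 1 ≤ d i := fun i => by rw [hd2]; norm_num
  have hD : ∑ i, d i = 2 * r := by
    rw [hd2, Finset.sum_const, Finset.card_univ, Fintype.card_fin, smul_eq_mul, mul_comm]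
  have hD1 : n + 1 - ∑ i, d i = 1 := by rw [hD]; omega
  obtain ⟨ρ, hρ, hρ1, A1, hreal⟩ := realRob K n d hd (ε / 4) (by positivity)
  obtain ⟨q, hq1, hqρ⟩ : ∃ q : ℕ, 1 ≤ q ∧ 1 ≤ ρ * q := by
    refine ⟨⌈1 / ρ⌉₊ + 1, by omega, ?_⟩
    have h1 := Nat.le_ceil (1 / ρ)
    rw [div_le_iff₀ hρ] at h1
    push_cast
    nlinarith
  obtain ⟨τ, hτ, w1, hloc⟩ := locDens K n hr1 hn2 d hd (ε / 4) (by positivity)
  obtain ⟨c, hc, hlow⟩ := lowB K hr1 n hn2 d hd ρ hρ hρ1 q hqρ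
  obtain ⟨Cb, hCb1, hbad⟩ := badB K n (by omega)
  obtain ⟨Cm, hCm1, hmark⟩ := markB K n d hd q hq1
  obtain ⟨C1, hC11, hvar⟩ := varTotB K hr1 n hn2 q hq1
  rw [← hd2] at hvar
  have hCb : 0 < Cb := lt_of_lt_of_le one_pos hCb1
  have hCm : 0 < Cm := lt_of_lt_of_le one_pos hCm1
  have hC1 : 0 < C1 := lt_of_lt_of_le one_pos hC11
  have hq0 : (0 : ℝ) < q := by exact_mod_cast hq1
  obtain ⟨η, hη0⟩ : ∃ η : ℝ, η = c * τ / 2 := ⟨_, rfl⟩
  have hη : 0 < η := by rw [hη0]; positivity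
  obtain ⟨δ, hδ0⟩ : ∃ δ : ℝ, δ = ε / 16 := ⟨_, rfl⟩
  have hδ : 0 < δ := by rw [hδ0]; positivity
  -- s
  obtain ⟨s, hs1, hs⟩ := B_MainK_inv (Cm * Cb / η) δ hδ
  obtain ⟨h, hh⟩ : ∃ h : ℕ, h = ⌈Cb * (s : ℝ) ^ (n - 1)⌉₊ + 1 := ⟨_, rfl⟩
  have hh1 : 1 ≤ h := by omega
  have hhb : Cb * (s : ℝ) ^ (n - 1) ≤ h := by
    have h1 := Nat.le_ceil (Cb * (s : ℝ) ^ (n - 1))
    rw [hh]
    push_cast
    linarith
  -- μ
  obtain ⟨L, hL1, hL⟩ := B_MainK_inv ((2 : ℝ) ^ (eK K * VV n d) * 4 * C1 / (c * τ) ^ 2) δ hδ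
  obtain ⟨μ, hμ⟩ : ∃ μ : ℕ, μ = 4 * L := ⟨_, rfl⟩
  have hμ1 : 1 ≤ μ := by omega
  obtain ⟨lam, hlam⟩ : ∃ lam : ℕ, lam = ⌈C1 * (h : ℝ) ^ 2 * μ⌉₊ + 1 := ⟨_, rfl⟩
  have hlam1 : 1 ≤ lam := by omega
  have hlamC : C1 * (h : ℝ) ^ 2 * μ ≤ lam := by
    have h1 := Nat.le_ceil (C1 * (h : ℝ) ^ 2 * μ)
    rw [hlam]
    push_cast
    linarith
  obtain ⟨C2, hC21, hvar2⟩ := hvar lam hlam1
  have hC2 : 0 < C2 := lt_of_lt_of_le one_pos hC21
  -- T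
  obtain ⟨T, hT1, hT⟩ := B_MainK_inv ((2 : ℝ) ^ (eK K * VV n d) * 4 * C2 * 4 / (c * τ) ^ 2) δ hδ
  obtain ⟨T', hT'⟩ : ∃ T' : ℕ, T' = ⌈C1 * (h : ℝ) ^ 2 * μ * T⌉₊ := ⟨_, rfl⟩
  have hTC : C1 * (h : ℝ) ^ 2 * μ * T ≤ T' := by
    rw [hT']
    exact Nat.le_ceil _
  obtain ⟨C3, hC31, hvar3⟩ := hvar2 T'
  have hC3 : 0 < C3 := lt_of_lt_of_le one_pos hC31
  have hTr : (0 : ℝ) < T := by exact_mod_cast hT1
  obtain ⟨κ, hκ⟩ : ∃ κ : ℕ, κ = (T ^ 2) ^ 2 := ⟨_, rfl⟩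
  have hκ1 : 1 ≤ κ := by rw [hκ]; exact Nat.one_le_pow _ _ (Nat.one_le_pow _ _ hT1)
  obtain ⟨w0, hw0⟩ := hlow κ hκ1
  obtain ⟨w, hw⟩ : ∃ w : ℕ, w = w0 + w1 + T := ⟨_, rfl⟩
  obtain ⟨B0, hB0⟩ := hw0 w (by omega)
  obtain ⟨A2, hA2⟩ := hloc w (by omega)
  have hWpos := Pool.Agent.Lib.MP_219881_nt.WWpos w
  have hWr : (0 : ℝ) < (WW w : ℝ) := by exact_mod_cast hWpos
  have hκr : (0 : ℝ) < (κ : ℝ) := by exact_mod_cast hκ1
  have hκW : (0 : ℝ) < (((κ : ℝ) * WW w) ^ r) ^ eK K := by positivity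
  -- s'
  obtain ⟨s', hs1', hs'⟩ := B_MainK_inv (Cm * Cb * (((κ : ℝ) * WW w) ^ r) ^ eK K / η) δ
    hδ
  obtain ⟨h', hh'⟩ : ∃ h' : ℕ, h' = ⌈Cb * (s' : ℝ) ^ (n - 1)⌉₊ := ⟨_, rfl⟩
  have hhb' : Cb * (s' : ℝ) ^ (n - 1) ≤ h' := by
    rw [hh']
    exact Nat.le_ceil _
  obtain ⟨g0, hg0⟩ := hbad s hs1
  obtain ⟨g0', hg0'⟩ := hbad s' hs1'
  obtain ⟨G1, hG11, hG1⟩ := lgSmall n (eK K) he (((h : ℝ) ^ (3 * r + 1)) ^ eK K) (1 / (T : ℝ)) (by positivity)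
  obtain ⟨G2, hG2⟩ := exists_nat_gt ((T : ℝ) * (C3 * (((WW w : ℝ) * T ^ 2) ^ r *
    (h : ℝ) ^ (2 * n * (n + 1) - 1)) ^ eK K))
  obtain ⟨c0, hc0⟩ : ∃ c0 : ℕ, c0 = ⌈C1⌉₊ * h + ⌈Cm⌉₊ * h' + ⌈C1⌉₊ + T + κ * WW w := ⟨_, rfl⟩
  obtain ⟨A3, hA31, hA3⟩ := parB μ (B0 + g0 + g0' + G1 + G2) c0 hμ1
  refine ⟨μ ^ r, A1 + A2 + A3, fun A hA => ?_⟩
  obtain ⟨g, hgG, hg1, hgA, hAg, hcg⟩ := hA3 A (by omega)
  have hAp : 1 ≤ A := by omega
  have hreal' := hreal A (by omega)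
  have hloc' := hA2 A (by omega)
  obtain ⟨B, hB⟩ : ∃ B : ℕ, B = g ^ n := ⟨_, rfl⟩
  obtain ⟨H, hH⟩ : ∃ H : ℕ, H = h * g := ⟨_, rfl⟩
  obtain ⟨H', hH'⟩ : ∃ H' : ℕ, H' = h' * g := ⟨_, rfl⟩
  have hB1 : 1 ≤ B := by rw [hB]; exact Nat.one_le_pow _ _ hg1
  have hH1 : 1 ≤ H := by rw [hH]; exact Nat.mul_pos hh1 hg1
  have hgB : g ≤ B := by rw [hB]; exact Nat.le_self_pow (by omega) g
  have hAr : (0 : ℝ) < A := by exact_mod_cast hAp
  have hBr : (0 : ℝ) < B := by exact_mod_cast hB1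
  have hgr : (0 : ℝ) < g := by exact_mod_cast hg1
  have hLr : (0 : ℝ) < L := by exact_mod_cast hL1
  have hc0A : c0 ≤ A := by
    calc c0 = c0 * 1 := (mul_one c0).symm
      _ ≤ c0 * g := Nat.mul_le_mul_left c0 hg1
      _ ≤ A := hcg
  have hCA : C1 ≤ A := by
    have h1 : C1 ≤ (⌈C1⌉₊ : ℝ) := Nat.le_ceil C1
    have h2 : ⌈C1⌉₊ ≤ A := by
      have : ⌈C1⌉₊ ≤ c0 := by rw [hc0]; omega
      omega
    have h3 : (⌈C1⌉₊ : ℝ) ≤ A := by exact_mod_cast h2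
    linarith
  have hCH : C1 * (H : ℝ) ≤ A := by
    rw [hH]
    exact B_MainK_cast C1 h g c0 A hcg (by rw [hc0]; omega)
  have hCH' : Cm * (H' : ℝ) ≤ A := by
    rw [hH']
    exact B_MainK_cast Cm h' g c0 A hcg (by rw [hc0]; omega)
  have hTA : T ≤ A := by
    have : T ≤ c0 := by rw [hc0]; omega
    omega
  have hκWAB : κ * WW w ≤ A * B := by
    have h1 : κ * WW w ≤ c0 := by rw [hc0]; omega
    calc κ * WW w ≤ A := by omega
      _ = A * 1 := (mul_one A).symm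
      _ ≤ A * B := Nat.mul_le_mul_left A hB1
  have hgAr : (g : ℝ) ^ 2 ≤ μ * A := by exact_mod_cast hgA
  have hH2 : C1 * (H : ℝ) ^ 2 ≤ C1 * (h : ℝ) ^ 2 * μ * A := by
    rw [hH]
    push_cast
    calc C1 * ((h : ℝ) * g) ^ 2 = (C1 * (h : ℝ) ^ 2) * (g : ℝ) ^ 2 := by ring
      _ ≤ (C1 * (h : ℝ) ^ 2) * (μ * A) := mul_le_mul_of_nonneg_left hgAr (by positivity)
      _ = _ := by ring
  have hlamA : C1 * (H : ℝ) ^ 2 ≤ (lam : ℝ) * A :=
    hH2.trans (mul_le_mul_of_nonneg_right hlamC hAr.le)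
  have hTTA : C1 * (H : ℝ) ^ 2 * T ≤ (A : ℝ) * T' := by
    calc C1 * (H : ℝ) ^ 2 * T ≤ C1 * (h : ℝ) ^ 2 * μ * A * T := mul_le_mul_of_nonneg_right hH2 hTr.le
      _ = (A : ℝ) * (C1 * (h : ℝ) ^ 2 * μ * T) := by ring
      _ ≤ (A : ℝ) * T' := mul_le_mul_of_nonneg_left hTC hAr.le
  have hbadH : Cb * ((s : ℝ) ^ (n - 1) * g) ≤ H := by
    rw [hH]
    push_cast
    calc Cb * ((s : ℝ) ^ (n - 1) * g) = (Cb * (s : ℝ) ^ (n - 1)) * g := by ring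
      _ ≤ (h : ℝ) * g := mul_le_mul_of_nonneg_right hhb hgr.le
  have hbadH' : Cb * ((s' : ℝ) ^ (n - 1) * g) ≤ H' := by
    rw [hH']
    push_cast
    calc Cb * ((s' : ℝ) ^ (n - 1) * g) = (Cb * (s' : ℝ) ^ (n - 1)) * g := by ring
      _ ≤ (h' : ℝ) * g := mul_le_mul_of_nonneg_right hhb' hgr.le
  -- E
  obtain ⟨E, hE⟩ : ∃ E : ℝ, E = ((B : ℝ) ^ (n + 1) / ((A : ℝ) ^ r * (B : ℝ) ^ (2 * r))) ^ eK K := ⟨_, rfl⟩
  have hEL : (L : ℝ) ≤ E := by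
    have h1 := (EB r μ g A hμ1 hg1 hAp hgA hAg).1
    rw [← hn, ← hB] at h1
    have h2 : ((μ : ℝ) / 4) ^ r = (L : ℝ) ^ r := by
      rw [hμ]
      push_cast
      congr 1
      ring
    rw [h2] at h1
    have hL1r : (1 : ℝ) ≤ L := by exact_mod_cast hL1
    rw [hE, ← hn]
    calc (L : ℝ) ≤ (L : ℝ) ^ r := le_self_pow₀ hL1r (by omega)
      _ ≤ ((L : ℝ) ^ r) ^ eK K := le_self_pow₀ (one_le_pow₀ hL1r) (by omega)
      _ ≤ _ := pow_le_pow_left₀ (by positivity) h1 _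
  have hEpos : 0 < E := lt_of_lt_of_le hLr hEL
  -- the bracket
  have hbr : (1 : ℝ) / T + 1 / (w + 1) + ((Nat.log 2 B : ℝ) + 2) ^ eK K *
      ((H : ℝ) ^ (n + 1 + r) * (B : ℝ) ^ r / (B : ℝ) ^ n) ^ eK K +
      C3 * (((WW w : ℝ) * T ^ 2) ^ r * (H : ℝ) ^ (2 * n * (n + 1) - 1) /
        (B : ℝ) ^ (2 * (n + 1))) ^ eK K ≤ 4 / T := by
    have b1 := HB1 r h g hr hg1
    have b2 := HB2 r h g hr1 hg1
    rw [← hn, ← hB, ← hH] at b1 b2
    have b4 : (1 : ℝ) / (w + 1) ≤ 1 / T := by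
      apply one_div_le_one_div_of_le hTr
      have : T ≤ w + 1 := by omega
      exact_mod_cast this
    have b3 : ((Nat.log 2 B : ℝ) + 2) ^ eK K *
        ((H : ℝ) ^ (n + 1 + r) * (B : ℝ) ^ r / (B : ℝ) ^ n) ^ eK K ≤ 1 / T := by
      have h4 := hG1 g (by omega)
      rw [← hB] at h4
      exact B_MainK_lg _ _ _ _ g _ (by positivity) (by positivity) b1 h4
    have b5 : C3 * (((WW w : ℝ) * T ^ 2) ^ r * (H : ℝ) ^ (2 * n * (n + 1) - 1) /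
        (B : ℝ) ^ (2 * (n + 1))) ^ eK K ≤ 1 / T := by
      refine B_MainK_last C3 (((WW w : ℝ) * T ^ 2) ^ r * (h : ℝ) ^ (2 * n * (n + 1) - 1)) _ T g _ hTr hg1 he ?_ ?_
      · rw [mul_div_assoc, b2, mul_div_assoc]
      · refine hG2.le.trans ?_
        have : G2 ≤ g := by omega
        exact_mod_cast this
    have b6 : (4 : ℝ) / T = 1 / T + 1 / T + 1 / T + 1 / T := by ring
    rw [b6]
    linarith
  -- the set P
  have hPo : ((B_MainK_P K (n := n) d B H q w κ A η).card : ℝ) ≤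
      2 * δ * (A : ℝ) ^ (eK K * VV n d) := by
    have m1 := B_MainK_markov (TBox K n d A) (fun F => B_MainK_R B H q w κ A F)
      (fun F _ => by unfold B_MainK_R; positivity) η
    have m2 : ∑ F ∈ TBox K n d A, B_MainK_R B H q w κ A F =
        (((κ : ℝ) * WW w) ^ r) ^ eK K / ((B : ℝ) ^ (n + 1)) ^ eK K *
        ∑ F ∈ TBox K n d A, (((GG K B B q 0).filter fun x => ¬ HGood H x ∧
          ∀ i, Loc (WW w) κ A 0 (F i) x).card : ℝ) := by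
      rw [Finset.mul_sum]
      apply Finset.sum_congr rfl
      intro F _
      unfold B_MainK_R
      ring
    have m3 := hmark B H H' A κ (WW w) 0 hB1 hAp hκ1 hWpos hκWAB hCH'
    have m4 := hg0 g (by omega) B H hB hbadH
    have m5 := hg0' g (by omega) B H' hB hbadH'
    rw [div_pow] at m4 m5
    have hsn : (0 : ℝ) < ((s : ℝ) ^ n) ^ eK K := by positivity
    have hsn' : (0 : ℝ) < ((s' : ℝ) ^ n) ^ eK K := by positivity
    refine B_MainK_ar1 _ η ((((κ : ℝ) * WW w) ^ r) ^ eK K) (((B : ℝ) ^ (n + 1)) ^ eK K) Cm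
      ((A : ℝ) ^ (eK K * VV n d)) Cb (((s : ℝ) ^ n) ^ eK K) (((s' : ℝ) ^ n) ^ eK K) _ _ δ hη hκW
      (by positivity) hCm (by positivity) hsn hsn' ?_ m4 m5
      (B_MainK_pow _ δ (by positivity) s n _ hs1 hn1 he hs)
      (B_MainK_pow _ δ (by positivity) s' n _ hs1' hn1 he hs')
    unfold B_MainK_P
    refine m1.trans ?_
    rw [m2]
    exact mul_le_mul_of_nonneg_left m3 (by positivity)
  -- the set T1
  have hTo : ((B_MainK_T K (n := n) d B H q w κ A ρ τ η).card : ℝ) ≤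
      2 * δ * (A : ℝ) ^ (eK K * VV n d) := by
    have hQ := hvar3 0 T w B H A (WW w) hT1 hTA hB1 hH1 hWpos
      (fun m h1 h2 => Pool.Agent.Lib.MP_219881_nt.WWdvd _ m h1 h2) hCA hCH hlamA hTTA
    rw [← hE, ← hκ] at hQ
    have hch := chebB (K := K) d B H q (WW w) κ A hAp 0
      (E * (c * τ / 2)) (by positivity) (B_MainK_T K d B H q w κ A ρ τ η) (by
        intro F hF
        unfold B_MainK_T at hF
        rw [Finset.mem_filter] at hF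
        obtain ⟨hFB, hR, hN, hRob, hsm⟩ := hF
        refine ⟨hFB, hN, ?_⟩
        have h3 := hB0 B (by omega) H A hAp F hFB 0 hRob
        rw [hD, ← hE] at h3
        refine le_trans ?_ h3
        apply mul_le_mul_of_nonneg_left _ hEpos.le
        have h4 : τ ≤ (smI (WI K w) F : ℝ) *
            (WW w : ℝ) ^ (eK K * r) / (WW w : ℝ) ^ (eK K * (n + 1)) := by
          rw [le_div_iff₀ (by positivity)]
          exact hsm
        have h5 := mul_le_mul_of_nonneg_left h4 hc.le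
        unfold B_MainK_R at hR
        rw [hη0] at hR
        linarith)
    exact B_MainK_ar2 _ _ C1 C2 ((A : ℝ) ^ (eK K * VV n d)) E _ c τ (2 ^ (eK K * VV n d)) (L : ℝ) (T : ℝ) δ
      hC1 hC2 (by positivity) hc hτ (by positivity) hLr hEL hTr hch hQ hbr hL hT
  -- covering
  have hsub : ((TBox K n d A).filter fun F => (∀ v, RSol v F) ∧ PSol F ∧
        ¬ ∃ x : Vc n (𝓞 K), x ≠ 0 ∧
          (∀ i, ∀ v : InfinitePlace K, (v (x i : K)) ^ (n + 1 - ∑ i, d i) ≤ ((μ ^ r : ℕ) : ℝ) * (A : ℝ) ^ r) ∧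
          ∀ i, ev (F i) x = 0) ⊆
      ((TBox K n d A).filter fun F => (∀ v, RSol v F) ∧
        ¬ ∀ v : InfinitePlace K, ∃ S : Fin r → Fin (n + 1), Function.Injective S ∧
          Rob v 0 S ρ (scF v A F)) ∪
      (((TBox K n d A).filter fun F => PSol F ∧
        (smI (WI K w) F : ℝ) * (WW w : ℝ) ^ (eK K * r)
          < τ * (WW w : ℝ) ^ (eK K * (n + 1))) ∪
      (B_MainK_P K d B H q w κ A η ∪ B_MainK_T K d B H q w κ A ρ τ η)) := by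
    intro F hF
    rw [Finset.mem_filter] at hF
    obtain ⟨hbox, hR, hPS, hno⟩ := hF
    rw [Finset.mem_union, Finset.mem_union, Finset.mem_union]
    by_cases h1 : ∀ v : InfinitePlace K, ∃ S : Fin r → Fin (n + 1), Function.Injective S ∧
          Rob v 0 S ρ (scF v A F)
    · right
      by_cases h3 : (smI (WI K w) F : ℝ) * (WW w : ℝ) ^ (eK K * r)
          < τ * (WW w : ℝ) ^ (eK K * (n + 1))
      · left
        rw [Finset.mem_filter]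
        exact ⟨hbox, hPS, h3⟩
      · right
        by_cases h4 : B_MainK_R B H q w κ A F ≤ η
        · right
          unfold B_MainK_T
          rw [Finset.mem_filter]
          refine ⟨hbox, h4, ?_, h1, not_lt.1 h3⟩
          unfold Nn
          rw [Finset.card_eq_zero, Finset.filter_eq_empty_iff]
          intro x hx hex
          apply hno
          refine ⟨x, ?_, ?_, hex⟩
          · intro h0
            have := GG_ne hB1 hx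
            rw [h0] at this
            exact this rfl
          · intro i v
            have h5 := GG_le hx i v
            rw [hD1, pow_one]
            refine h5.trans ?_
            have h6 : B ≤ μ ^ r * A ^ r := by
              calc B = (g ^ 2) ^ r := by rw [hB, hn, ← pow_mul]
                _ ≤ (μ * A) ^ r := Nat.pow_le_pow_left hgA r
                _ = μ ^ r * A ^ r := mul_pow μ A r
            exact_mod_cast h6
        · left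
          unfold B_MainK_P
          rw [Finset.mem_filter]
          exact ⟨hbox, h4⟩
    · left
      rw [Finset.mem_filter]
      exact ⟨hbox, hR, h1⟩
  have hcard := (Finset.card_le_card hsub).trans ((Finset.card_union_le _ _).trans
    (Nat.add_le_add_left ((Finset.card_union_le _ _).trans (Nat.add_le_add_left
      (Finset.card_union_le _ _) _)) _))
  have hcard' : ((((TBox K n d A).filter fun F => (∀ v, RSol v F) ∧ PSol F ∧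
        ¬ ∃ x : Vc n (𝓞 K), x ≠ 0 ∧
          (∀ i, ∀ v : InfinitePlace K, (v (x i : K)) ^ (n + 1 - ∑ i, d i) ≤ ((μ ^ r : ℕ) : ℝ) * (A : ℝ) ^ r) ∧
          ∀ i, ev (F i) x = 0).card : ℕ) : ℝ) ≤
      ((((TBox K n d A).filter fun F => (∀ v, RSol v F) ∧
        ¬ ∀ v : InfinitePlace K, ∃ S : Fin r → Fin (n + 1), Function.Injective S ∧
          Rob v 0 S ρ (scF v A F)).card : ℕ) : ℝ) +
      (((((TBox K n d A).filter fun F => PSol F ∧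
        (smI (WI K w) F : ℝ) * (WW w : ℝ) ^ (eK K * r)
          < τ * (WW w : ℝ) ^ (eK K * (n + 1))).card : ℕ) : ℝ) +
      (((B_MainK_P K (n := n) d B H q w κ A η).card : ℝ) +
      ((B_MainK_T K (n := n) d B H q w κ A ρ τ η).card : ℝ))) := by
    exact_mod_cast hcard
  refine (hcard'.trans (add_le_add hreal' (add_le_add hloc' (add_le_add hPo hTo)))).trans ?_
  have hpos : 0 ≤ ε * (A : ℝ) ^ (eK K * VV n d) := by positivity
  rw [hδ0]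
  linarith

variable (K) in
theorem mainB (r : ℕ) (hr : 2 ≤ r) : MainP K (2 * r) (fun _ : Fin r => 2) :=
  B_MainK_core K r hr (2 * r) rfl (fun _ => 2) rfl

end Pool.Agent.Lib.MP_1ad228_ntN
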