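import Pool.Agent.Lib.MP_1ad228_ntN.N2
import Pool.Agent.Lib.MP_1ad228_ntN.NB_Const

/-!
JOB B_N2K.  Upper bound for two points when `H^2` is only at most a constant times `A` (`lam` = the constant). (Model: Lib/MP_1ad228_ntF/B_N2.lean.)

PROOF.  `C0` = the constant of `N2 K n 2 q` (so it does not depend on `lam`). `n2 2 x y A ≤ n2 2 x y (lam A)` (the box grows: `Box_mono`, `lam ≥ 1`). `N2` with `lam * A` in place of `A`:
`≤ C0 (lam A)^(e V) (B^2/(lam A B^2)^2)^e (nD/pn Del)`, `V = (n+1)^2`, and `(lam A)^(eV) = lam^(eV) A^(eV)`, `(lam A B^2)^2 ≥ (A B^2)^2`. Take the `r`-th power: `C = (C0 lam^(eV))^r`; `(A^(eV))^r = A^(e VV n (fun _ => 2))` (`VV n (fun _ : Fin r => 2) = r * (n+1)^2`, simp),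
`(B^2/(A B^2)^2)^(e r) = (B^(2r)/(A^r B^(2r))^2)^e`.
-/

namespace Pool.Agent.Lib.MP_1ad228_ntN

open NumberField Classical

set_option linter.unusedSectionVars false

variable {K : Type} [Field K] [NumberField K]

variable (K) in
theorem N2B (n r q : ℕ) (hq : 1 ≤ q) : ∃ C0 : ℝ, 1 ≤ C0 ∧ ∀ lam : ℕ, 1 ≤ lam →
    ∃ C : ℝ, 1 ≤ C ∧ ∀ (B H A : ℕ) (o : Fin (n + 1)), 1 ≤ B → C0 ≤ A →
    C0 * (H : ℝ) ^ 2 ≤ (lam : ℝ) * A →
    ∀ x ∈ GG K B H q o, ∀ y ∈ GG K B H q o, ¬ Prp x y →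
    (n2 2 x y A : ℝ) ^ r ≤ C * (A : ℝ) ^ (eK K * VV n (fun _ : Fin r => 2)) *
      ((B : ℝ) ^ (2 * r) / ((A : ℝ) ^ r * (B : ℝ) ^ (2 * r)) ^ 2) ^ eK K *
      (nD x y / pn (Del o x y)) ^ r := by
  obtain ⟨C, hC1, hN⟩ := N2 (K := K) n 2 q le_rfl hq
  refine ⟨C, hC1, fun lam hl => ⟨(C * (lam : ℝ) ^ (eK K * (n + 1) ^ 2)) ^ r, ?_, ?_⟩⟩
  · have lR : (1 : ℝ) ≤ (lam : ℝ) := by exact_mod_cast hl
    exact one_le_pow₀ (one_le_mul_of_one_le_of_one_le hC1 (one_le_pow₀ lR))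
  intro B H A o hB hA hH x hx y hy hxy
  have lR : (1 : ℝ) ≤ (lam : ℝ) := by exact_mod_cast hl
  have AR : (1 : ℝ) ≤ (A : ℝ) := hC1.trans hA
  have BR : (1 : ℝ) ≤ (B : ℝ) := by exact_mod_cast hB
  have hAl : (A : ℝ) ≤ ((lam * A : ℕ) : ℝ) := by
    push_cast
    nlinarith
  have h1 : (n2 2 x y (A : ℝ) : ℝ) ≤ (n2 2 x y ((lam * A : ℕ) : ℝ) : ℝ) := by
    have : n2 2 x y (A : ℝ) ≤ n2 2 x y ((lam * A : ℕ) : ℝ) := by
      unfold n2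
      exact Finset.card_le_card (Finset.filter_subset_filter _ (Box_mono hAl))
    exact_mod_cast this
  have h2 := hN B H (lam * A) o hB (hA.trans hAl) (by push_cast; exact hH) x hx y hy hxy
  have hq0 : (0 : ℝ) ≤ nD x y / pn (Del o x y) := by
    refine div_nonneg (Nat.cast_nonneg _) (pn_nonneg fun v => ?_)
    exact Finset.le_sup'_of_le _ (Finset.mem_univ o) (apply_nonneg v _)
  have h3 : (((lam * A : ℕ) : ℝ)) ^ (eK K * (n + 1) ^ 2) =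
      (lam : ℝ) ^ (eK K * (n + 1) ^ 2) * (A : ℝ) ^ (eK K * (n + 1) ^ 2) := by
    push_cast
    rw [mul_pow]
  have h4 : ((B : ℝ) ^ 2 / ((((lam * A : ℕ) : ℝ)) * (B : ℝ) ^ 2) ^ 2) ^ eK K ≤
      ((B : ℝ) ^ 2 / ((A : ℝ) * (B : ℝ) ^ 2) ^ 2) ^ eK K := by
    refine pow_le_pow_left₀ (by positivity) ?_ _
    refine div_le_div_of_nonneg_left (by positivity) (by positivity) ?_
    exact pow_le_pow_left₀ (by positivity) (mul_le_mul_of_nonneg_right hAl (by positivity)) 2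
  have h5 : (n2 2 x y (A : ℝ) : ℝ) ≤ (C * (lam : ℝ) ^ (eK K * (n + 1) ^ 2)) * (A : ℝ) ^ (eK K * (n + 1) ^ 2) *
      ((B : ℝ) ^ 2 / ((A : ℝ) * (B : ℝ) ^ 2) ^ 2) ^ eK K * (nD x y / pn (Del o x y)) := by
    refine (h1.trans h2).trans ?_
    rw [h3, ← mul_assoc C]
    refine mul_le_mul_of_nonneg_right (mul_le_mul_of_nonneg_left h4 (by positivity)) hq0
  refine (pow_le_pow_left₀ (Nat.cast_nonneg _) h5 r).trans (le_of_eq ?_)
  have hV : VV n (fun _ : Fin r => 2) = r * (n + 1) ^ 2 := by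
    simp [VV]
  have h6 : (B : ℝ) ^ (2 * r) / ((A : ℝ) ^ r * (B : ℝ) ^ (2 * r)) ^ 2 =
      ((B : ℝ) ^ 2 / ((A : ℝ) * (B : ℝ) ^ 2) ^ 2) ^ r := by
    rw [div_pow]
    congr 1 <;> ring
  have h7 : (A : ℝ) ^ (eK K * VV n (fun _ : Fin r => 2)) = ((A : ℝ) ^ (eK K * (n + 1) ^ 2)) ^ r := by
    rw [hV, ← pow_mul]
    congr 1
    ring
  rw [h6, h7, mul_pow, mul_pow, mul_pow, ← pow_mul, ← pow_mul, mul_comm (eK K) r, pow_mul _ r (eK K)]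

end Pool.Agent.Lib.MP_1ad228_ntN
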