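import Pool.Agent.Lib.MP_1ad228_ntN.CN_Np

/-!
JOB CN_ManyU.  Many unimodular vectors whose coordinate `o` is large at every infinite place.
-/

namespace Pool.Agent.Lib.MP_1ad228_ntN

open NumberField Classical

set_option linter.unusedSectionVars false

variable (K : Type) [Field K] [NumberField K]

private theorem CN_ManyU_WWpos (w : ℕ) : 1 ≤ WW w := by
  have h : 0 < ∏ p ∈ (Finset.range (w + 1)).filter Nat.Prime, p ^ w := by
    refine Finset.prod_pos fun p hp => ?_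
    have hp' : p.Prime := (Finset.mem_filter.mp hp).2
    exact pow_pos hp'.pos w
  exact h

private theorem CN_ManyU_uni {R : Type*} [CommRing R] {n : ℕ} (f : 𝓞 K →+* R) (o : Fin (n + 1)) :
    Uni (vmap f (Pi.single o (1 : 𝓞 K))) := by
  refine ⟨Pi.single o 1, ?_⟩
  rw [lin_single]
  show f ((Pi.single o (1 : 𝓞 K) : Vc n (𝓞 K)) o) = 1
  rw [Pi.single_eq_same, map_one]

/-- the main estimate for fixed `w` -/
private theorem CN_ManyU_main (n : ℕ) (w B : ℕ) (hB1 : 1 ≤ B)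
    (hB : CK K n * (WW w : ℝ) ≤ (B : ℝ) / 4) (o : Fin (n + 1)) :
    ((B : ℝ) / WW w) ^ (eK K * (n + 1)) ≤ 4 ^ (eK K * (n + 1)) * (CK K n ^ (eK K + 1)) ^ (n + 1) *
      ((((VBox K n B).filter fun x => (∀ v : InfinitePlace K, (B : ℝ) ≤ 4 * v (x o : K)) ∧
        Uni x).card : ℝ) +
      (((VBox K n B).filter fun x => (∀ l, ((WW w : ℕ) : 𝓞 K) ∣ x l - (Pi.single o (1 : 𝓞 K) : Vc n (𝓞 K)) l) ∧
        x ≠ 0 ∧ ¬ Uni x).card : ℝ)) := by
  have hW := CN_ManyU_WWpos w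
  have hW0 : (0 : ℝ) < WW w := by exact_mod_cast hW
  have hB0 : (0 : ℝ) < B := by exact_mod_cast hB1
  have hCK := CK_pos K n
  -- the sets of coordinates
  have hex : ∀ l : Fin (n + 1), ∃ S : Finset (𝓞 K), (∀ z ∈ S, ((WW w : ℕ) : 𝓞 K) ∣ z -
      (Pi.single o (1 : 𝓞 K) : Vc n (𝓞 K)) l ∧ ∀ v : InfinitePlace K,
        ‖em v z - (if l = o then ((B : ℝ) / 2 : ℝ) else (0 : ℝ) : ℝ)‖ ≤ (B : ℝ) / 4) ∧
      ((B : ℝ) / 4 / WW w) ^ eK K ≤ CK K n ^ (eK K + 1) * (S.card : ℝ) := by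
    intro l
    obtain ⟨S, hS1, hS2⟩ := clsLow n (WW w) hW ((B : ℝ) / 4) hB
      (fun v : InfinitePlace K => (((if l = o then ((B : ℝ) / 2 : ℝ) else (0 : ℝ) : ℝ)) : ℂ))
      (fun v => KK_real v _) ((Pi.single o (1 : 𝓞 K) : Vc n (𝓞 K)) l)
    exact ⟨S, hS1, hS2⟩
  choose S hS1 hS2 using hex
  obtain ⟨T, hT⟩ : ∃ T : Finset (Vc n (𝓞 K)), T = Fintype.piFinset S := ⟨_, rfl⟩
  have hTc : ((B : ℝ) / 4 / WW w) ^ (eK K * (n + 1)) ≤
      (CK K n ^ (eK K + 1)) ^ (n + 1) * (T.card : ℝ) := by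
    rw [hT, Fintype.card_piFinset, pow_mul]
    push_cast
    have h1 : (CK K n ^ (eK K + 1)) ^ (n + 1) * ∏ l, ((S l).card : ℝ) =
        ∏ l : Fin (n + 1), (CK K n ^ (eK K + 1) * ((S l).card : ℝ)) := by
      rw [Finset.prod_mul_distrib, Finset.prod_const, Finset.card_univ, Fintype.card_fin]
    have h2 : (((B : ℝ) / 4 / WW w) ^ eK K) ^ (n + 1) =
        ∏ _l : Fin (n + 1), ((B : ℝ) / 4 / WW w) ^ eK K := by
      rw [Finset.prod_const, Finset.card_univ, Fintype.card_fin]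
    rw [h1, h2]
    exact Finset.prod_le_prod (fun l _ => by positivity) (fun l _ => hS2 l)
  have hsub : T ⊆ ((VBox K n B).filter fun x => (∀ v : InfinitePlace K, (B : ℝ) ≤ 4 * v (x o : K)) ∧
        Uni x) ∪ ((VBox K n B).filter fun x => (∀ l, ((WW w : ℕ) : 𝓞 K) ∣ x l -
          (Pi.single o (1 : 𝓞 K) : Vc n (𝓞 K)) l) ∧ x ≠ 0 ∧ ¬ Uni x) := by
    intro x hx
    rw [hT, Fintype.mem_piFinset] at hx
    have hup : ∀ l, ∀ v : InfinitePlace K, v (x l : K) ≤ (B : ℝ) := by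
      intro l v
      have h1 := (hS1 l (x l) (hx l)).2 v
      have h2 : ‖em v (x l)‖ ≤ ‖em v (x l) - (((if l = o then ((B : ℝ) / 2 : ℝ) else (0 : ℝ) : ℝ)) : ℂ)‖ +
          ‖(((if l = o then ((B : ℝ) / 2 : ℝ) else (0 : ℝ) : ℝ)) : ℂ)‖ := by
        have h3 := norm_add_le (em v (x l) - (((if l = o then ((B : ℝ) / 2 : ℝ) else (0 : ℝ) : ℝ)) : ℂ))
          (((if l = o then ((B : ℝ) / 2 : ℝ) else (0 : ℝ) : ℝ)) : ℂ)
        rwa [sub_add_cancel] at h3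
      have h3 : ‖(((if l = o then ((B : ℝ) / 2 : ℝ) else (0 : ℝ) : ℝ)) : ℂ)‖ ≤ (B : ℝ) / 2 := by
        rw [Complex.norm_real, Real.norm_eq_abs]
        split_ifs
        · rw [abs_of_nonneg (by positivity)]
        · rw [abs_zero]
          positivity
      rw [norm_em] at h2
      linarith
    have hlow : ∀ v : InfinitePlace K, (B : ℝ) ≤ 4 * v (x o : K) := by
      intro v
      have h1 := (hS1 o (x o) (hx o)).2 v
      rw [if_pos rfl] at h1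
      have h3 := norm_sub_norm_le ((((B : ℝ) / 2 : ℝ)) : ℂ) (em v (x o))
      rw [norm_sub_rev, norm_em, Complex.norm_real, Real.norm_eq_abs, abs_of_nonneg (by positivity)] at h3
      linarith
    have hV : x ∈ VBox K n B := by
      unfold VBox
      rw [Fintype.mem_piFinset]
      intro l
      rw [mem_OBox]
      exact hup l
    rw [Finset.mem_union]
    by_cases hu : Uni x
    · left
      rw [Finset.mem_filter]
      exact ⟨hV, hlow, hu⟩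
    · right
      rw [Finset.mem_filter]
      refine ⟨hV, fun l => (hS1 l (x l) (hx l)).1, ?_, hu⟩
      intro h0
      obtain ⟨v⟩ : Nonempty (InfinitePlace K) := inferInstance
      have h1 := hlow v
      have h2 : (x o : K) = 0 := by rw [h0]; rfl
      rw [h2, v_zero, mul_zero] at h1
      linarith
  have hcard := (Finset.card_le_card hsub).trans (Finset.card_union_le _ _)
  have hcard' : (T.card : ℝ) ≤
      (((VBox K n B).filter fun x => (∀ v : InfinitePlace K, (B : ℝ) ≤ 4 * v (x o : K)) ∧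
        Uni x).card : ℝ) +
      (((VBox K n B).filter fun x => (∀ l, ((WW w : ℕ) : 𝓞 K) ∣ x l - (Pi.single o (1 : 𝓞 K) : Vc n (𝓞 K)) l) ∧
        x ≠ 0 ∧ ¬ Uni x).card : ℝ) := by exact_mod_cast hcard
  have h1 : ((B : ℝ) / WW w) ^ (eK K * (n + 1)) =
      4 ^ (eK K * (n + 1)) * ((B : ℝ) / 4 / WW w) ^ (eK K * (n + 1)) := by
    rw [← mul_pow]
    congr 1
    field_simp
  rw [h1, mul_assoc]
  refine mul_le_mul_of_nonneg_left (hTc.trans ?_) (by positivity)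
  exact mul_le_mul_of_nonneg_left hcard' (by positivity)

theorem manyU (n : ℕ) (hn : 1 ≤ n) : ∃ c : ℝ, 0 < c ∧ ∃ B0 : ℕ, ∀ B ≥ B0, ∀ o : Fin (n + 1),
    c * (B : ℝ) ^ (eK K * (n + 1)) ≤
      (((VBox K n B).filter fun x => (∀ v : InfinitePlace K, (B : ℝ) ≤ 4 * v (x o : K)) ∧
        Uni x).card : ℝ) := by
  obtain ⟨C, hC1, hC⟩ := nonPrim (K := K) n hn
  have hCK := CK_pos K n
  have he := eK_pos (K := K)
  have hC0 : (0 : ℝ) < C := by linarith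
  obtain ⟨M, hM⟩ : ∃ M : ℝ, M = 4 ^ (eK K * (n + 1)) * (CK K n ^ (eK K + 1)) ^ (n + 1) := ⟨_, rfl⟩
  have hM0 : 0 < M := by rw [hM]; positivity
  -- the choice of w
  obtain ⟨w, hw⟩ : ∃ w : ℕ, 4 * M * C ≤ (w : ℝ) := ⟨⌈4 * M * C⌉₊, Nat.le_ceil _⟩
  obtain ⟨w1, hw1⟩ : ∃ w1 : ℕ, w1 = w + 1 := ⟨_, rfl⟩
  have hW := CN_ManyU_WWpos w1
  obtain ⟨W, hWW⟩ : ∃ W : ℝ, W = (WW w1 : ℝ) := ⟨_, rfl⟩
  have hW1 : (1 : ℝ) ≤ W := by rw [hWW]; exact_mod_cast hW
  have hW0 : (0 : ℝ) < W := by linarith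
  -- the choice of B0
  obtain ⟨B0, hB0⟩ : ∃ B0 : ℕ, 4 * M * C * W ^ (eK K * (n + 1)) + 4 * (CK K n * W) ≤ (B0 : ℝ) :=
    ⟨⌈4 * M * C * W ^ (eK K * (n + 1)) + 4 * (CK K n * W)⌉₊, Nat.le_ceil _⟩
  refine ⟨1 / (2 * M * W ^ (eK K * (n + 1))), by positivity, B0 + 1, fun B hB o => ?_⟩
  have hB1 : 1 ≤ B := by omega
  have hBr1 : (1 : ℝ) ≤ B := by exact_mod_cast hB1
  have hBB : (B0 : ℝ) ≤ B := by
    have : B0 ≤ B := by omega
    exact_mod_cast this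
  have hpos1 : 0 < M * C * W ^ (eK K * (n + 1)) := by positivity
  have hpos2 : 0 < CK K n * W := by positivity
  have hmain := CN_ManyU_main K n w1 B hB1 (by rw [← hWW]; linarith) o
  have hnp := hC w1 B (by omega) hB1 (Pi.single o (1 : 𝓞 K)) (CN_ManyU_uni K _ o)
  rw [← hM, ← hWW] at hmain
  rw [← hWW] at hnp
  set U : ℝ := (((VBox K n B).filter fun x => (∀ v : InfinitePlace K, (B : ℝ) ≤ 4 * v (x o : K)) ∧
        Uni x).card : ℝ) with hU
  set N : ℝ := (((VBox K n B).filter fun x => (∀ l, ((WW w1 : ℕ) : 𝓞 K) ∣ x l - (Pi.single o (1 : 𝓞 K) : Vc n (𝓞 K)) l) ∧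
        x ≠ 0 ∧ ¬ Uni x).card : ℝ) with hN
  -- the two error terms
  have hX : ((B : ℝ) / W) ^ (eK K * (n + 1)) = (B : ℝ) ^ (eK K * (n + 1)) / W ^ (eK K * (n + 1)) := div_pow _ _ _
  obtain ⟨X, hXd⟩ : ∃ X : ℝ, X = ((B : ℝ) / W) ^ (eK K * (n + 1)) := ⟨_, rfl⟩
  have hX0 : 0 < X := by rw [hXd]; positivity
  have e1 : M * (C * (X / ((w1 : ℝ) + 1))) ≤ X / 4 := by
    have h2 : (0 : ℝ) < (w1 : ℝ) + 1 := by positivity
    have h3 : 4 * M * C ≤ (w1 : ℝ) + 1 := by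
      rw [hw1]
      push_cast
      linarith
    have h4 : M * (C * (X / ((w1 : ℝ) + 1))) = (M * C / ((w1 : ℝ) + 1)) * X := by ring
    rw [h4]
    have h5 : M * C / ((w1 : ℝ) + 1) ≤ 1 / 4 := by
      rw [div_le_iff₀ h2]
      linarith
    have h6 := mul_le_mul_of_nonneg_right h5 hX0.le
    linarith
  have e2 : M * (C * (B : ℝ) ^ eK K) ≤ X / 4 := by
    have h1 : (B : ℝ) ^ (eK K * (n + 1)) = (B : ℝ) ^ (eK K * n) * (B : ℝ) ^ eK K := by
      rw [← pow_add]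
      congr 1
    have h2 : (B : ℝ) ≤ (B : ℝ) ^ (eK K * n) := by
      refine le_self_pow₀ hBr1 ?_
      have : 0 < eK K * n := Nat.mul_pos he (by omega)
      omega
    have h3 : 4 * M * C * W ^ (eK K * (n + 1)) ≤ (B : ℝ) ^ (eK K * n) := by linarith
    rw [hXd, hX, h1, le_div_iff₀ (by norm_num), le_div_iff₀ (by positivity)]
    have h4 := mul_le_mul_of_nonneg_right h3 (pow_nonneg (le_trans zero_le_one hBr1) (eK K))
    calc M * (C * (B : ℝ) ^ eK K) * 4 * W ^ (eK K * (n + 1))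
        = 4 * M * C * W ^ (eK K * (n + 1)) * (B : ℝ) ^ eK K := by ring
      _ ≤ (B : ℝ) ^ (eK K * n) * (B : ℝ) ^ eK K := h4
  rw [← hXd] at hmain hnp
  have hN' : M * N ≤ X / 2 := by
    have h1 := mul_le_mul_of_nonneg_left hnp hM0.le
    have h2 : M * (C * (X / ((w1 : ℝ) + 1) + (B : ℝ) ^ eK K)) =
        M * (C * (X / ((w1 : ℝ) + 1))) + M * (C * (B : ℝ) ^ eK K) := by ring
    rw [h2] at h1
    linarith
  have hfin : X / 2 ≤ M * U := by
    have h1 : M * (U + N) = M * U + M * N := by ring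
    rw [h1] at hmain
    linarith
  have h1 : 1 / (2 * M * W ^ (eK K * (n + 1))) * (B : ℝ) ^ (eK K * (n + 1)) = X / 2 / M := by
    rw [hXd, hX]
    field_simp
  rw [h1, div_le_iff₀ hM0]
  linarith

end Pool.Agent.Lib.MP_1ad228_ntN
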