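import Pool.Agent.Lib.MP_1ad228_ntN.NB_Const

/-!
JOB CN_N1.  Pigeonhole lower bound for the number of tensors vanishing at a point (paper section 8; model over Q: `n1low` in Lib/MP_1ad228_ntF/CN_Cnt.lean).

PROOF.  `e = eK K`, `c = CK K n`, `V = (n+1)^d`.  `P = Box K n d (A/2)` (the real number `A/2`), `P.card = (#OBox K (A/2))^V` (`card_Box`) and `(A/2)^e ≤ c * #OBox K (A/2)` (`OBox_low` if `A ≥ 2`; if `A = 1` then `(1/2)^e ≤ 1` and
`0 ∈ OBox K (1/2)`).  For `a ∈ P` the value `ev a x` is in `T = OBox K ((n+1)^d * (A/2) * B^d)` (`ev_bound`), contained in `OBox K ((n+1)^d * A * B^d)` with at most `c ((n+1)^d A B^d)^e` elements (`OBox_up`).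
Some fibre `{a ∈ P | ev a x = m}` has `P.card ≤ (fibre).card * T.card`; it is nonempty, subtract one of its elements: the differences are in `Box K n d A` (`v_sub_le`) and vanish at `x` (`ev_sub`).
So `(A/2)^(e V) ≤ c^V P.card ≤ c^V * n1 * c ((n+1)^d A B^d)^e`; `C = 2^(e V) c^(V+1) (n+1)^(d e)`.
-/

namespace Pool.Agent.Lib.MP_1ad228_ntN

open NumberField Classical

set_option linter.unusedSectionVars false

theorem CN_N1_sub {R : Type} [CommRing R] {n d : ℕ} (a b : Ten n d R) (x : Vc n R) :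
    ev (a - b) x = ev a x - ev b x := by
  simp only [ev, Pi.sub_apply, sub_mul, Finset.sum_sub_distrib]

variable (K : Type) [Field K] [NumberField K]

theorem CN_N1_half (n A : ℕ) (hA : 1 ≤ A) :
    ((A : ℝ) / 2) ^ eK K ≤ CK K n * ((OBox K ((A : ℝ) / 2)).card : ℝ) := by
  by_cases h : 2 ≤ A
  · refine OBox_low K n ?_
    have : (2 : ℝ) ≤ A := by exact_mod_cast h
    linarith
  · have h1 : A = 1 := by omega
    subst h1
    have h2 : (((1 : ℕ) : ℝ) / 2) ^ eK K ≤ 1 := pow_le_one₀ (by norm_num) (by norm_num)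
    have h3 : (1 : ℝ) ≤ ((OBox K (((1 : ℕ) : ℝ) / 2)).card : ℝ) := by
      have h4 : 0 < (OBox K (((1 : ℕ) : ℝ) / 2)).card :=
        Finset.card_pos.2 ⟨0, zero_mem_OBox (by norm_num)⟩
      exact_mod_cast h4
    have h5 := CK_one_le K n
    nlinarith

theorem CN_N1_fib {n d : ℕ} (A B : ℕ) (hA : 1 ≤ A) (x : Vc n (𝓞 K)) (hx : x ∈ VBox K n B) :
    ((Box K n d ((A : ℝ) / 2)).card : ℝ) ≤
      (n1 d x A : ℝ) * ((OBox K (((n : ℝ) + 1) ^ d * A * (B : ℝ) ^ d)).card : ℝ) := by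
  have hA1 : (1 : ℝ) ≤ A := by exact_mod_cast hA
  have hxb := mem_VBox.mp hx
  have hX0 : (0 : ℝ) ≤ ((n : ℝ) + 1) ^ d * A * (B : ℝ) ^ d := by positivity
  have hmaps : ∀ a ∈ Box K n d ((A : ℝ) / 2),
      ev a x ∈ OBox K (((n : ℝ) + 1) ^ d * A * (B : ℝ) ^ d) := by
    intro a ha
    rw [mem_Box] at ha
    rw [mem_OBox]
    intro v
    have h2 := ev_bound v (by positivity : (0 : ℝ) ≤ (A : ℝ) / 2) (fun s => ha s v)
      (fun i => hxb i v)
    refine h2.trans ?_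
    have h3 : ((n : ℝ) + 1) ^ d * ((A : ℝ) / 2) ≤ ((n : ℝ) + 1) ^ d * A :=
      mul_le_mul_of_nonneg_left (by linarith) (by positivity)
    exact mul_le_mul_of_nonneg_right h3 (by positivity)
  have hne : (OBox K (((n : ℝ) + 1) ^ d * A * (B : ℝ) ^ d)).Nonempty := ⟨0, zero_mem_OBox hX0⟩
  have hT0 : (0 : ℝ) < ((OBox K (((n : ℝ) + 1) ^ d * A * (B : ℝ) ^ d)).card : ℝ) := by
    exact_mod_cast Finset.card_pos.2 hne
  obtain ⟨m, _, hm⟩ := Finset.exists_le_card_fiber_of_nsmul_le_card_of_maps_to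
    (s := Box K n d ((A : ℝ) / 2)) (t := OBox K (((n : ℝ) + 1) ^ d * A * (B : ℝ) ^ d))
    (f := fun a => ev a x)
    (b := ((Box K n d ((A : ℝ) / 2)).card : ℝ) /
      ((OBox K (((n : ℝ) + 1) ^ d * A * (B : ℝ) ^ d)).card : ℝ)) hmaps hne (by
      rw [nsmul_eq_mul, mul_div_cancel₀ _ hT0.ne'])
  have hP0 : (0 : ℝ) < ((Box K n d ((A : ℝ) / 2)).card : ℝ) := by
    have : (Box K n d ((A : ℝ) / 2)).Nonempty := by
      refine ⟨0, ?_⟩
      rw [mem_Box]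
      intro s v
      have : ((0 : Ten n d (𝓞 K)) s : K) = 0 := by simp
      rw [this, v_zero]
      positivity
    exact_mod_cast Finset.card_pos.2 this
  have hFpos : (0 : ℝ) < (((Box K n d ((A : ℝ) / 2)).filter fun a => ev a x = m).card : ℝ) :=
    lt_of_lt_of_le (by positivity) hm
  obtain ⟨a0, ha0⟩ : ((Box K n d ((A : ℝ) / 2)).filter fun a => ev a x = m).Nonempty := by
    rw [← Finset.card_pos]
    exact_mod_cast hFpos
  rw [Finset.mem_filter, mem_Box] at ha0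
  have hle : ((Box K n d ((A : ℝ) / 2)).filter fun a => ev a x = m).card ≤ n1 d x A := by
    rw [n1]
    refine Finset.card_le_card_of_injOn (fun a => a - a0) ?_ ?_
    · intro a ha
      rw [Finset.mem_coe, Finset.mem_filter, mem_Box] at ha
      rw [Finset.mem_coe, Finset.mem_filter, mem_Box]
      refine ⟨?_, ?_⟩
      · intro s v
        have h1 := ha.1 s v
        have h2 := ha0.1 s v
        have h3 : (((a - a0) s : 𝓞 K) : K) = (a s : K) - (a0 s : K) := by simp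
        rw [h3]
        refine (v_sub_le v _ _).trans ?_
        linarith
      · show ev (a - a0) x = 0
        rw [CN_N1_sub, ha.2, ha0.2, sub_self]
    · intro a _ a' _ haa
      exact sub_left_injective haa
  have h5 : (((Box K n d ((A : ℝ) / 2)).filter fun a => ev a x = m).card : ℝ) ≤ (n1 d x A : ℝ) := by
    exact_mod_cast hle
  have h6 := hm.trans h5
  rwa [div_le_iff₀ hT0] at h6

theorem n1low (n d : ℕ) : ∃ C : ℝ, 1 ≤ C ∧ ∀ A B : ℕ, 1 ≤ A → 1 ≤ B → ∀ x ∈ VBox K n B,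
    (A : ℝ) ^ (eK K * (n + 1) ^ d) ≤
      C * ((A : ℝ) * (B : ℝ) ^ d) ^ eK K * (n1 d x A : ℝ) := by
  obtain ⟨e, he⟩ : ∃ e : ℕ, e = eK K := ⟨_, rfl⟩
  obtain ⟨c, hc⟩ : ∃ c : ℝ, c = CK K n := ⟨_, rfl⟩
  obtain ⟨V, hV⟩ : ∃ V : ℕ, V = (n + 1) ^ d := ⟨_, rfl⟩
  have hc1 : 1 ≤ c := by
    rw [hc]
    exact CK_one_le K n
  have hn1 : (1 : ℝ) ≤ (n : ℝ) + 1 := by linarith [Nat.cast_nonneg (α := ℝ) n]
  refine ⟨2 ^ (e * V) * c ^ (V + 1) * (((n : ℝ) + 1) ^ d) ^ e, ?_, ?_⟩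
  · have h1 : (1 : ℝ) ≤ 2 ^ (e * V) := one_le_pow₀ (by norm_num)
    have h2 : (1 : ℝ) ≤ c ^ (V + 1) := one_le_pow₀ hc1
    have h3 : (1 : ℝ) ≤ (((n : ℝ) + 1) ^ d) ^ e := one_le_pow₀ (one_le_pow₀ hn1)
    exact one_le_mul_of_one_le_of_one_le (one_le_mul_of_one_le_of_one_le h1 h2) h3
  · intro A B hA hB x hx
    have hA1 : (1 : ℝ) ≤ A := by exact_mod_cast hA
    have hB1 : (1 : ℝ) ≤ B := by exact_mod_cast hB
    have h1 := CN_N1_half K n A hA
    have h2 := CN_N1_fib K (d := d) A B hA x hx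
    have hX1 : (1 : ℝ) ≤ ((n : ℝ) + 1) ^ d * A * (B : ℝ) ^ d :=
      one_le_mul_of_one_le_of_one_le (one_le_mul_of_one_le_of_one_le (one_le_pow₀ hn1) hA1)
        (one_le_pow₀ hB1)
    have h3 := OBox_up K n hX1
    rw [card_Box, ← hV] at h2
    rw [← hc, ← he] at h1 h3
    rw [← he, ← hV]
    push_cast at h2
    have h4 : (((A : ℝ) / 2) ^ e) ^ V ≤ (c * ((OBox K ((A : ℝ) / 2)).card : ℝ)) ^ V :=
      pow_le_pow_left₀ (by positivity) h1 V
    rw [mul_pow] at h4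
    have hn0 : (0 : ℝ) ≤ (n1 d x A : ℝ) := Nat.cast_nonneg _
    have hcV : (0 : ℝ) ≤ c ^ V := by positivity
    have h5 : (((A : ℝ) / 2) ^ e) ^ V ≤
        c ^ V * ((n1 d x A : ℝ) * (c * (((n : ℝ) + 1) ^ d * A * (B : ℝ) ^ d) ^ e)) :=
      h4.trans (mul_le_mul_of_nonneg_left (h2.trans (mul_le_mul_of_nonneg_left h3 hn0)) hcV)
    have h6 : (A : ℝ) ^ (e * V) = 2 ^ (e * V) * (((A : ℝ) / 2) ^ e) ^ V := by
      rw [← pow_mul, div_pow]
      field_simp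
    rw [h6]
    have h7 : (0 : ℝ) ≤ 2 ^ (e * V) := by positivity
    refine (mul_le_mul_of_nonneg_left h5 h7).trans (le_of_eq ?_)
    have h8 : (((n : ℝ) + 1) ^ d * A * (B : ℝ) ^ d) ^ e =
        (((n : ℝ) + 1) ^ d) ^ e * ((A : ℝ) * (B : ℝ) ^ d) ^ e := by
      rw [mul_assoc, mul_pow]
    rw [h8]
    ring

end Pool.Agent.Lib.MP_1ad228_ntN
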