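import Pool.Agent.Lib.MP_1ad228_ntN.NP
import Pool.Agent.Lib.MP_1ad228_ntN.PairSum
import Pool.Agent.Lib.MP_1ad228_ntN.EEle

/-!
JOB PairTot.  The second moment without local terms.  (Model: Lib/MP_1ad228_ntF/PairTot.lean)

PROOF.  `e = eK K`, `V = VV n d`, `D = ∑ d`, `E = (B^(n+1)/(A^r B^D))^e`. Split the inner sum in `Prp x y` and `¬ Prp x y`.
`Prp`: `∏ n2 ≤ ∏ n1` (`n2_le_n1`), `NP1` (`C H ≤ C H^2 ≤ A`), at most `CK q^e` such `y` (`card_Prp`).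
`¬ Prp`: `NP2` and `psAll`. Sum over `x`: `card_GG_le`. Diagonal: `B^(e(n+1)) /(A^r B^D)^e = E`. Off diagonal:
`B^(e(n+1)) (B^(2r)/(A^r B^D)^2)^e (B^(n+1)/B^(2r))^e = E^2` and
`B^(e(n+1)) (B^(2r)/(A^r B^D)^2)^e (H^(n+1+r) B/B^r)^e = E^2 (H^(n+1+r) B^r/B^n)^e`.
-/

namespace Pool.Agent.Lib.MP_1ad228_ntN

open NumberField Classical
open Pool.Agent.Lib.MP_219881_nt (mn)

set_option linter.unusedSectionVars false

variable {K : Type} [Field K] [NumberField K]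

private theorem PairTot_pow1 (b : ℝ) (e m : ℕ) : b ^ (e * m) = (b ^ m) ^ e := by
  rw [mul_comm, pow_mul]

private theorem PairTot_pow2 (b : ℝ) (e : ℕ) : (b ^ e) ^ 2 = (b ^ 2) ^ e := by
  rw [← pow_mul, ← pow_mul, mul_comm]

private theorem PairTot_id1 {b p a : ℝ} (hp : 0 < p) (ha : 0 < a) :
    b * (p / a ^ 2 * (b / p)) = (b / a) ^ 2 := by
  field_simp

private theorem PairTot_id2 {B h a : ℝ} {n r : ℕ} (hB : 0 < B) (ha : 0 < a) :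
    B ^ (n + 1) * (B ^ (2 * r) / a ^ 2 * (h * (B / B ^ r))) =
      (B ^ (n + 1) / a) ^ 2 * (h * B ^ r / B ^ n) := by
  have h1 : B ^ (2 * r) = (B ^ r) ^ 2 := by rw [← pow_mul, mul_comm 2 r]
  have h2 : 0 < B ^ r := by positivity
  have h3 : 0 < B ^ n := by positivity
  rw [h1, pow_succ B n]
  generalize B ^ r = u at h2 ⊢
  generalize B ^ n = w at h3 ⊢
  field_simp

theorem pairTot {r : ℕ} (n : ℕ) (hn : r + 2 ≤ n) (d : Fin r → ℕ)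
    (hd : ∀ i, 2 ≤ d i) (q : ℕ) (hq : 1 ≤ q) : ∃ C : ℝ, 1 ≤ C ∧
    ∀ (o : Fin (n + 1)) (B H A : ℕ), 1 ≤ B → 1 ≤ H → C * (H : ℝ) ^ 2 ≤ A →
    ∑ x ∈ GG K B H q o, ∑ y ∈ GG K B H q o, ∏ i, (n2 (d i) x y A : ℝ) ≤
      C * (A : ℝ) ^ (eK K * VV n d) *
        (((B : ℝ) ^ (n + 1) / ((A : ℝ) ^ r * (B : ℝ) ^ (∑ i, d i))) ^ eK K
        + (((B : ℝ) ^ (n + 1) / ((A : ℝ) ^ r * (B : ℝ) ^ (∑ i, d i))) ^ eK K) ^ 2 *
            (1 + ((Nat.log 2 B : ℝ) + 2) ^ eK K *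
              ((H : ℝ) ^ (n + 1 + r) * (B : ℝ) ^ r / (B : ℝ) ^ n) ^ eK K)) := by

  obtain ⟨C0, hC0, h0⟩ := psAll (K := K) n r q hn hq
  obtain ⟨C1, hC1, h1⟩ := NP1 (K := K) n d q hq
  obtain ⟨C2, hC2, h2⟩ := NP2 (K := K) n d hd q hq
  have hCK := CK_pos K n
  have c0 : (0 : ℝ) < C0 := by linarith
  have c1 : (0 : ℝ) < C1 := by linarith
  have c2 : (0 : ℝ) < C2 := by linarith
  have hK1 : 0 ≤ CK K n ^ (n + 1) * (CK K n * (q : ℝ) ^ eK K * C1) := by positivity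
  have hK2 : 0 ≤ CK K n ^ (n + 1) * (C2 * C0) := by positivity
  refine ⟨C1 + C2 + CK K n ^ (n + 1) * (CK K n * (q : ℝ) ^ eK K * C1) +
    CK K n ^ (n + 1) * (C2 * C0), by linarith, ?_⟩
  intro o B H A hB hH hA
  have hB0 : (0 : ℝ) < B := by exact_mod_cast hB
  have hH1 : (1 : ℝ) ≤ H := by exact_mod_cast hH
  have hH2 : (1 : ℝ) ≤ (H : ℝ) ^ 2 := one_le_pow₀ hH1
  have hHle : (H : ℝ) ≤ (H : ℝ) ^ 2 := by nlinarith
  have a1 : C1 * (H : ℝ) ≤ A := by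
    refine le_trans (mul_le_mul_of_nonneg_left hHle c1.le) (le_trans ?_ hA)
    exact mul_le_mul_of_nonneg_right (by linarith) (by positivity)
  have a2 : C2 * (H : ℝ) ^ 2 ≤ A :=
    le_trans (mul_le_mul_of_nonneg_right (by linarith) (by positivity)) hA
  have a3 : C2 ≤ A := le_trans (le_mul_of_one_le_right c2.le hH2) a2
  have a4 : 1 ≤ A := by
    have h3 : (1 : ℝ) ≤ A := hC2.trans a3
    exact_mod_cast h3
  have hA0 : (0 : ℝ) < A := by exact_mod_cast a4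
  have row : ∀ x ∈ GG K B H q o, ∑ y ∈ GG K B H q o, ∏ i, (n2 (d i) x y A : ℝ) ≤
      CK K n * (q : ℝ) ^ eK K * (C1 * (A : ℝ) ^ (eK K * VV n d) /
        ((A : ℝ) ^ r * (B : ℝ) ^ (∑ i, d i)) ^ eK K) +
      C2 * (A : ℝ) ^ (eK K * VV n d) *
        ((B : ℝ) ^ (2 * r) / ((A : ℝ) ^ r * (B : ℝ) ^ (∑ i, d i)) ^ 2) ^ eK K *
        (C0 * (((B : ℝ) ^ (n + 1) / (B : ℝ) ^ (2 * r)) ^ eK K
        + ((Nat.log 2 B : ℝ) + 2) ^ eK K *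
          ((H : ℝ) ^ (n + 1 + r) * ((B : ℝ) / (B : ℝ) ^ r)) ^ eK K)) := by
    intro x hx
    rw [← Finset.sum_filter_add_sum_filter_not (GG K B H q o) (fun y => Prp x y)]
    refine add_le_add ?_ ?_
    · have h3 : ∀ y ∈ (GG K B H q o).filter (fun y => Prp x y), ∏ i, (n2 (d i) x y A : ℝ) ≤
          C1 * (A : ℝ) ^ (eK K * VV n d) / ((A : ℝ) ^ r * (B : ℝ) ^ (∑ i, d i)) ^ eK K := by
        intro y hy
        refine (Finset.prod_le_prod (fun i _ => Nat.cast_nonneg _) fun i _ => ?_).trans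
          (h1 B H A o hB a4 a1 x hx)
        exact_mod_cast n2_le_n1 (d i) x y A
      refine (Finset.sum_le_card_nsmul _ _ _ h3).trans ?_
      rw [nsmul_eq_mul]
      exact mul_le_mul_of_nonneg_right (card_Prp hB hx) (by positivity)
    · calc ∑ y ∈ (GG K B H q o).filter (fun y => ¬ Prp x y), ∏ i, (n2 (d i) x y A : ℝ)
          ≤ ∑ y ∈ (GG K B H q o).filter (fun y => ¬ Prp x y), C2 * (A : ℝ) ^ (eK K * VV n d) *
            ((B : ℝ) ^ (2 * r) / ((A : ℝ) ^ r * (B : ℝ) ^ (∑ i, d i)) ^ 2) ^ eK K *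
            (nD x y / pn (Del o x y)) ^ r :=
            Finset.sum_le_sum fun y hy => h2 B H A o hB a3 a2 x hx y (Finset.mem_filter.1 hy).1
              (Finset.mem_filter.1 hy).2
        _ = C2 * (A : ℝ) ^ (eK K * VV n d) *
            ((B : ℝ) ^ (2 * r) / ((A : ℝ) ^ r * (B : ℝ) ^ (∑ i, d i)) ^ 2) ^ eK K *
            ∑ y ∈ (GG K B H q o).filter (fun y => ¬ Prp x y), (nD x y / pn (Del o x y)) ^ r := by
            rw [Finset.mul_sum]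
        _ ≤ _ := mul_le_mul_of_nonneg_left (h0 B H o hB hH x hx) (by positivity)
  have h3 := Finset.sum_le_card_nsmul _ _ _ row
  rw [nsmul_eq_mul] at h3
  refine (h3.trans (mul_le_mul_of_nonneg_right (card_GG_le K n H q o hB) (by positivity))).trans ?_
  have hX : (0 : ℝ) < (A : ℝ) ^ (eK K * VV n d) := by positivity
  generalize (A : ℝ) ^ (eK K * VV n d) = X at hX ⊢
  have hL : (0 : ℝ) ≤ ((Nat.log 2 B : ℝ) + 2) ^ eK K := by positivity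
  generalize ((Nat.log 2 B : ℝ) + 2) ^ eK K = L at hL ⊢
  have g1 : (B : ℝ) ^ (eK K * (n + 1)) * (1 / ((A : ℝ) ^ r * (B : ℝ) ^ (∑ i, d i)) ^ eK K) =
      ((B : ℝ) ^ (n + 1) / ((A : ℝ) ^ r * (B : ℝ) ^ (∑ i, d i))) ^ eK K := by
    rw [PairTot_pow1, mul_one_div, ← div_pow]
  have g2 : (B : ℝ) ^ (eK K * (n + 1)) *
      (((B : ℝ) ^ (2 * r) / ((A : ℝ) ^ r * (B : ℝ) ^ (∑ i, d i)) ^ 2) ^ eK K *
      ((B : ℝ) ^ (n + 1) / (B : ℝ) ^ (2 * r)) ^ eK K) =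
      (((B : ℝ) ^ (n + 1) / ((A : ℝ) ^ r * (B : ℝ) ^ (∑ i, d i))) ^ eK K) ^ 2 := by
    rw [PairTot_pow1, PairTot_pow2, ← mul_pow, ← mul_pow]
    refine congrArg (· ^ eK K) ?_
    exact PairTot_id1 (by positivity) (by positivity)
  have g3 : (B : ℝ) ^ (eK K * (n + 1)) *
      (((B : ℝ) ^ (2 * r) / ((A : ℝ) ^ r * (B : ℝ) ^ (∑ i, d i)) ^ 2) ^ eK K *
      ((H : ℝ) ^ (n + 1 + r) * ((B : ℝ) / (B : ℝ) ^ r)) ^ eK K) =
      (((B : ℝ) ^ (n + 1) / ((A : ℝ) ^ r * (B : ℝ) ^ (∑ i, d i))) ^ eK K) ^ 2 *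
        ((H : ℝ) ^ (n + 1 + r) * (B : ℝ) ^ r / (B : ℝ) ^ n) ^ eK K := by
    rw [PairTot_pow1, PairTot_pow2, ← mul_pow, ← mul_pow, ← mul_pow]
    refine congrArg (· ^ eK K) ?_
    exact PairTot_id2 hB0 (by positivity)
  have hE : 0 ≤ ((B : ℝ) ^ (n + 1) / ((A : ℝ) ^ r * (B : ℝ) ^ (∑ i, d i))) ^ eK K := by positivity
  have hS : 0 ≤ ((H : ℝ) ^ (n + 1 + r) * (B : ℝ) ^ r / (B : ℝ) ^ n) ^ eK K := by positivity
  have hQ : (0 : ℝ) ≤ (q : ℝ) ^ eK K := by positivity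
  generalize ((B : ℝ) ^ (n + 1) / ((A : ℝ) ^ r * (B : ℝ) ^ (∑ i, d i))) ^ eK K = E at g1 g2 g3 hE ⊢
  generalize ((H : ℝ) ^ (n + 1 + r) * (B : ℝ) ^ r / (B : ℝ) ^ n) ^ eK K = S at g3 hS ⊢
  generalize ((H : ℝ) ^ (n + 1 + r) * ((B : ℝ) / (B : ℝ) ^ r)) ^ eK K = R at g3 ⊢
  generalize ((B : ℝ) ^ (n + 1) / (B : ℝ) ^ (2 * r)) ^ eK K = P at g2 ⊢
  generalize ((B : ℝ) ^ (2 * r) / ((A : ℝ) ^ r * (B : ℝ) ^ (∑ i, d i)) ^ 2) ^ eK K = T at g2 g3 ⊢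
  generalize ((A : ℝ) ^ r * (B : ℝ) ^ (∑ i, d i)) ^ eK K = U at g1 ⊢
  generalize (B : ℝ) ^ (eK K * (n + 1)) = Y at g1 g2 g3 ⊢
  generalize (q : ℝ) ^ eK K = Q at hK1 hQ ⊢
  generalize CK K n ^ (n + 1) = c3 at hK1 hK2 ⊢
  generalize CK K n = c4 at hK1 hCK ⊢
  have e1 : c3 * Y * (c4 * Q * (C1 * X / U) + C2 * X * T * (C0 * (P + L * R))) =
      X * (c3 * (c4 * Q * C1) * (Y * (1 / U)) + c3 * (C2 * C0) * (Y * (T * P) + L * (Y * (T * R)))) := by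
    rw [mul_div_assoc C1, div_eq_mul_one_div X]
    ring
  rw [e1, g1, g2, g3]
  have e2 : (C1 + C2 + c3 * (c4 * Q * C1) + c3 * (C2 * C0)) * X * (E + E ^ 2 * (1 + L * S)) =
      X * (c3 * (c4 * Q * C1) * E + c3 * (C2 * C0) * (E ^ 2 + L * (E ^ 2 * S))) +
      X * ((C1 + C2) * (E + E ^ 2 * (1 + L * S)) + c3 * (c4 * Q * C1) * (E ^ 2 * (1 + L * S)) +
        c3 * (C2 * C0) * E) := by ring
  rw [e2]
  have e3 : 0 ≤ X * ((C1 + C2) * (E + E ^ 2 * (1 + L * S)) +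
      c3 * (c4 * Q * C1) * (E ^ 2 * (1 + L * S)) + c3 * (C2 * C0) * E) := by
    have f1 : 0 ≤ E ^ 2 * (1 + L * S) := by positivity
    have f2 := mul_nonneg hK1 f1
    have f3 := mul_nonneg hK2 hE
    have f4 : 0 ≤ (C1 + C2) * (E + E ^ 2 * (1 + L * S)) := by positivity
    exact mul_nonneg hX.le (by linarith)
  linarith

end Pool.Agent.Lib.MP_1ad228_ntN
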