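import Pool.Agent.Lib.MP_1ad228_ntN.MN_GG
import Pool.Agent.Lib.MP_1ad228_ntN.PairTot
import Pool.Agent.Lib.MP_1ad228_ntN.CN_N1

/-!
JOB MN_Pos.  A positive proportion of the tuples has a common nonzero integral zero. (Model with proof: Lib/MP_1ad228_ntF/MN_Pos.lean.)

`csPos` (Cauchy-Schwarz): literally the model (`MN_Pos_cnt`, `MN_Pos_cnt2`, `csPos`) with `ℤ` replaced by `𝓞 K`; an element of `GG` is nonzero because it is `Uni`.

`posN` PROOF.  `e = eK K`, `q = 4`, `o = 0`, `l = 4(n+r)+4`, `ι = n + 1 - D`, `D0 = (n l+1) ι`.  `c1, g1` from `manyGG K n l`, `C` from `pairTot` with `q = 4`, `C_i` = constants of `n1low K n (d i)`, `v = ∏ i, C_i`, `g2` from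
`lgSmall (n*l+1) e _ 1 1`.  `gpar n r l ι .. 1 (g1 + g2) ⌈C⌉₊` (`Pool.Agent.Lib.MP_1ad228_ntF.gpar`, `.lpar`, `.EEq`, `.Hpow`).  `E = (B^(n+1)/(A^r B^D))^e = (B^ι/A^r)^e` satisfies `2^(-D0 e) ≤ E ≤ 1`.
First moment: `∑_{x ∈ GG} ∏ i, n1 (d i) x A ≥ c1 B^(e(n+1)) * A^(e V)/(v (A^r B^D)^e) = c1 E A^(e V)/v` (`n1low`, `∏ i, A^(e (n+1)^(d i)) = A^(e V)`).  Second moment `≤ C A^(e V) (E + E^2 (1 + 1)) ≤ 3 C A^(e V) E` (`pairTot`, `Hpow`: the last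
term is `≤ ((Nat.log 2 B + 2)/g)^e ≤ 1`).  So `#S ≥ (c1 E A^(e V)/v)^2/(3 C A^(e V) E) = c1^2 E A^(e V)/(3 C v^2)`; `δ = c1^2 2^(-D0 e)/(3 C v^2)`.
-/

namespace Pool.Agent.Lib.MP_1ad228_ntN

open NumberField Classical

set_option linter.unusedSectionVars false

private theorem MN_Pos_cnt {K : Type} [Field K] [NumberField K] {n r : ℕ} (d : Fin r → ℕ) (A : ℕ)
    (x : Vc n (𝓞 K)) :
    ∑ F ∈ TBox K n d A, (if ∀ i, ev (F i) x = 0 then (1 : ℝ) else 0) = ∏ i, (n1 (d i) x A : ℝ) := by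
  have h : ((TBox K n d A).filter fun F => ∀ i, ev (F i) x = 0) =
      Fintype.piFinset fun i => (Box K n (d i) A).filter fun a => ev a x = 0 := by
    ext F
    simp only [TBox, Finset.mem_filter, Fintype.mem_piFinset, forall_and]
  rw [Finset.sum_boole, h, Fintype.card_piFinset]
  push_cast
  rfl

private theorem MN_Pos_cnt2 {K : Type} [Field K] [NumberField K] {n r : ℕ} (d : Fin r → ℕ) (A : ℕ)
    (x y : Vc n (𝓞 K)) :
    ∑ F ∈ TBox K n d A, (if ∀ i, ev (F i) x = 0 then (1 : ℝ) else 0) *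
      (if ∀ i, ev (F i) y = 0 then (1 : ℝ) else 0) = ∏ i, (n2 (d i) x y A : ℝ) := by
  have h1 : ∀ F : Tup n d (𝓞 K), (if ∀ i, ev (F i) x = 0 then (1 : ℝ) else 0) *
      (if ∀ i, ev (F i) y = 0 then (1 : ℝ) else 0) =
      if ∀ i, (ev (F i) x = 0 ∧ ev (F i) y = 0) then (1 : ℝ) else 0 := by
    intro F
    by_cases p1 : ∀ i, ev (F i) x = 0
    · by_cases p2 : ∀ i, ev (F i) y = 0
      · rw [if_pos p1, if_pos p2, if_pos (fun i => ⟨p1 i, p2 i⟩), mul_one]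
      · rw [if_neg p2, mul_zero, if_neg (fun h => p2 fun i => (h i).2)]
    · rw [if_neg p1, zero_mul, if_neg (fun h => p1 fun i => (h i).1)]
  have h : ((TBox K n d A).filter fun F => ∀ i, (ev (F i) x = 0 ∧ ev (F i) y = 0)) =
      Fintype.piFinset fun i => (Box K n (d i) A).filter fun a => ev a x = 0 ∧ ev a y = 0 := by
    ext F
    simp only [TBox, Finset.mem_filter, Fintype.mem_piFinset, forall_and]
  rw [Finset.sum_congr rfl (fun F _ => h1 F), Finset.sum_boole, h, Fintype.card_piFinset]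
  push_cast
  rfl

theorem csPos {K : Type} [Field K] [NumberField K] {n r : ℕ} (d : Fin r → ℕ) (B H q A : ℕ)
    (o : Fin (n + 1)) :
    (∑ x ∈ GG K B H q o, ∏ i, (n1 (d i) x A : ℝ)) ^ 2 ≤
      (((TBox K n d A).filter fun F => ∃ x : Vc n (𝓞 K), x ≠ 0 ∧ ∀ i, ev (F i) x = 0).card : ℝ) *
        ∑ x ∈ GG K B H q o, ∑ y ∈ GG K B H q o, ∏ i, (n2 (d i) x y A : ℝ) := by
  obtain ⟨N, hN⟩ : ∃ N : Tup n d (𝓞 K) → ℝ, N = fun F => ∑ x ∈ GG K B H q o,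
    (if ∀ i, ev (F i) x = 0 then (1 : ℝ) else 0) := ⟨_, rfl⟩
  have hs1 : ∑ F ∈ TBox K n d A, N F = ∑ x ∈ GG K B H q o, ∏ i, (n1 (d i) x A : ℝ) := by
    rw [hN, Finset.sum_comm]
    exact Finset.sum_congr rfl fun x _ => MN_Pos_cnt d A x
  have hs2 : ∑ F ∈ TBox K n d A, (N F) ^ 2 =
      ∑ x ∈ GG K B H q o, ∑ y ∈ GG K B H q o, ∏ i, (n2 (d i) x y A : ℝ) := by
    have h1 : ∀ F : Tup n d (𝓞 K), (N F) ^ 2 = ∑ x ∈ GG K B H q o, ∑ y ∈ GG K B H q o,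
        (if ∀ i, ev (F i) x = 0 then (1 : ℝ) else 0) *
        (if ∀ i, ev (F i) y = 0 then (1 : ℝ) else 0) := by
      intro F
      rw [hN, sq, Finset.sum_mul_sum]
    rw [Finset.sum_congr rfl (fun F _ => h1 F), Finset.sum_comm]
    refine Finset.sum_congr rfl fun x _ => ?_
    rw [Finset.sum_comm]
    exact Finset.sum_congr rfl fun y _ => MN_Pos_cnt2 d A x y
  obtain ⟨S0, hS0⟩ : ∃ S0 : Finset (Tup n d (𝓞 K)), S0 = (TBox K n d A).filter fun F => N F ≠ 0 :=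
    ⟨_, rfl⟩
  have hS0sub : S0 ⊆ ((TBox K n d A).filter fun F => ∃ x : Vc n (𝓞 K), x ≠ 0 ∧
      ∀ i, ev (F i) x = 0) := by
    intro F hF
    rw [hS0, Finset.mem_filter] at hF
    rw [Finset.mem_filter]
    refine ⟨hF.1, ?_⟩
    have h1 : ∃ x ∈ GG K B H q o, (if ∀ i, ev (F i) x = 0 then (1 : ℝ) else 0) ≠ 0 := by
      apply Finset.exists_ne_zero_of_sum_ne_zero
      have := hF.2
      rw [hN] at this
      exact this
    obtain ⟨x, hx, hne⟩ := h1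
    have h2 : ∀ i, ev (F i) x = 0 := by
      by_contra h
      rw [if_neg h] at hne
      exact hne rfl
    refine ⟨x, ?_, h2⟩
    intro h0
    unfold GG at hx
    rw [Finset.mem_filter] at hx
    obtain ⟨u, hu⟩ := hx.2.2.1
    rw [h0] at hu
    simp [lin] at hu
  have hsum : ∑ F ∈ TBox K n d A, N F = ∑ F ∈ S0, N F := by
    rw [hS0, Finset.sum_filter_ne_zero]
  have hsumsq : ∑ F ∈ S0, (N F) ^ 2 ≤ ∑ F ∈ TBox K n d A, (N F) ^ 2 := by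
    apply Finset.sum_le_sum_of_subset_of_nonneg
    · rw [hS0]
      exact Finset.filter_subset _ _
    · intro F _ _
      exact sq_nonneg _
  rw [← hs1, ← hs2, hsum]
  calc (∑ F ∈ S0, N F) ^ 2 ≤ (S0.card : ℝ) * ∑ F ∈ S0, (N F) ^ 2 := sq_sum_le_card_mul_sum_sq
    _ ≤ (S0.card : ℝ) * ∑ F ∈ TBox K n d A, (N F) ^ 2 :=
        mul_le_mul_of_nonneg_left hsumsq (Nat.cast_nonneg _)
    _ ≤ _ := by
        apply mul_le_mul_of_nonneg_right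
        · exact_mod_cast Finset.card_le_card hS0sub
        · exact Finset.sum_nonneg fun F _ => sq_nonneg _

/-- Arithmetic of the second moment method. -/
private theorem MN_Pos_ar (S N1 N2 A2 E C v c : ℝ) (hE : 0 < E) (hC : 1 ≤ C)
    (hv : 0 < v) (hc : 0 < c) (hA2 : 0 < A2) (h1 : c * E * A2 / v ≤ N1) (h2 : N2 ≤ 3 * C * A2 * E)
    (hcs : N1 ^ 2 ≤ S * N2) (hS : 0 ≤ S) :
    c ^ 2 * E * A2 / (3 * C * v ^ 2) ≤ S := by
  have hC0 : 0 < C := by linarith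
  have h3 : (c * E * A2 / v) ^ 2 ≤ S * (3 * C * A2 * E) :=
    (pow_le_pow_left₀ (by positivity) h1 2).trans (hcs.trans (mul_le_mul_of_nonneg_left h2 hS))
  have h4 : (c ^ 2 * E * A2 / (3 * C * v ^ 2)) * (3 * C * A2 * E) = (c * E * A2 / v) ^ 2 := by
    field_simp
  rw [← h4] at h3
  exact le_of_mul_le_mul_right h3 (by positivity)

variable (K : Type) [Field K] [NumberField K]

theorem posN {r : ℕ} (hr : 1 ≤ r) (n : ℕ) (hn : r + 2 ≤ n) (d : Fin r → ℕ) (hd : ∀ i, 2 ≤ d i)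
    (hD : ∑ i, d i ≤ n) (h2 : 2 * r < n * (n + 1 - ∑ i, d i)) : PosP K n d := by
  obtain ⟨D, hDd⟩ : ∃ D : ℕ, D = ∑ i, d i := ⟨_, rfl⟩
  obtain ⟨ι, hιd⟩ : ∃ ι : ℕ, ι = n + 1 - D := ⟨_, rfl⟩
  obtain ⟨l, hl⟩ : ∃ l : ℕ, l = 4 * (n + r) + 4 := ⟨_, rfl⟩
  obtain ⟨e, he⟩ : ∃ e : ℕ, e = eK K := ⟨_, rfl⟩
  have he1 : 1 ≤ e := by
    rw [he]
    exact Module.finrank_pos
  rw [← hDd] at hD h2
  rw [← hιd] at h2
  have hι : 1 ≤ ι := by omega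
  have hl2 := Pool.Agent.Lib.MP_1ad228_ntF.lpar n r ι l hι h2 hl
  obtain ⟨c, hc, g1, hg1, hmany⟩ := manyGG K n l (by omega) (by omega)
  obtain ⟨C, hC, hpt⟩ := pairTot (K := K) n hn d hd 4 (by norm_num)
  obtain ⟨g2, hg2, hlg⟩ := lgSmall (n * l + 1) e he1 1 1 one_pos
  obtain ⟨A1, hA1⟩ := Pool.Agent.Lib.MP_1ad228_ntF.gpar n r l ι hr hι hl2 1 le_rfl (g1 + g2) ⌈C⌉₊
  choose Cv hCv1 hCv using fun i => n1low K n (d i)
  obtain ⟨v, hvd⟩ : ∃ v : ℝ, v = ∏ i, Cv i := ⟨_, rfl⟩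
  have hv : 0 < v := by
    rw [hvd]
    exact Finset.prod_pos fun i _ => by linarith [hCv1 i]
  obtain ⟨V, hV⟩ : ∃ V : ℕ, V = VV n d := ⟨_, rfl⟩
  have hC0 : 0 < C := by linarith
  refine ⟨c ^ 2 * (1 / 2 ^ ((n * l + 1) * ι)) ^ e / (3 * C * v ^ 2), by positivity,
    A1, fun A hA => ?_⟩
  obtain ⟨g, hgg, hgg1, hA0, hgM, hMg, hcA⟩ := hA1 A hA
  rw [one_mul] at hgM hMg
  have hA0r : (0 : ℝ) < A := by exact_mod_cast hA0
  obtain ⟨B, hB⟩ : ∃ B : ℕ, B = g ^ (n * l + 1) := ⟨_, rfl⟩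
  obtain ⟨H, hH⟩ : ∃ H : ℕ, H = g ^ (l + 2) := ⟨_, rfl⟩
  rw [← hB] at hgM hMg
  rw [← hH] at hcA
  have hB1 : 1 ≤ B := by rw [hB]; exact Nat.one_le_pow _ _ hgg
  have hH1 : 1 ≤ H := by rw [hH]; exact Nat.one_le_pow _ _ hgg
  have hB0r : (0 : ℝ) < B := by exact_mod_cast hB1
  have hg0r : (0 : ℝ) < g := by exact_mod_cast hgg
  have hG := hmany g (by omega) B H hB hH (0 : Fin (n + 1))
  have hcAr : C * (H : ℝ) ^ 2 ≤ A := by
    have h3 : C ≤ ((⌈C⌉₊ : ℕ) : ℝ) := Nat.le_ceil C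
    have h4 : ((⌈C⌉₊ : ℕ) : ℝ) * (H : ℝ) ^ 2 ≤ A := by exact_mod_cast hcA
    exact (mul_le_mul_of_nonneg_right h3 (by positivity)).trans h4
  have hp := hpt (0 : Fin (n + 1)) B H A hB1 hH1 hcAr
  have hcs := csPos (K := K) d B H 4 A (0 : Fin (n + 1))
  rw [← hDd, ← hV, ← he] at hp
  rw [← he] at hG
  have hEeq := Pool.Agent.Lib.MP_1ad228_ntF.EEq n r D A B (by omega) hA0 hB1
  rw [← hιd] at hEeq
  obtain ⟨E0, hE0⟩ : ∃ E0 : ℝ, E0 = (B : ℝ) ^ (n + 1) / ((A : ℝ) ^ r * (B : ℝ) ^ D) := ⟨_, rfl⟩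
  rw [← hE0] at hp hEeq
  have hE0pos : 0 < E0 := by rw [hE0]; positivity
  have hE01 : E0 ≤ 1 := by
    rw [hEeq, div_le_one (by positivity)]
    exact_mod_cast hgM
  have hE0low : 1 / 2 ^ ((n * l + 1) * ι) ≤ E0 := by
    rw [hEeq, div_le_div_iff₀ (by positivity) (by positivity), one_mul]
    have : (A : ℝ) ^ r ≤ 2 ^ ((n * l + 1) * ι) * (B : ℝ) ^ ι := by exact_mod_cast hMg
    linarith
  obtain ⟨E, hE⟩ : ∃ E : ℝ, E = E0 ^ e := ⟨_, rfl⟩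
  rw [← hE] at hp
  have hEpos : 0 < E := by rw [hE]; positivity
  have hE1 : E ≤ 1 := by rw [hE]; exact pow_le_one₀ hE0pos.le hE01
  have hElow : (1 / 2 ^ ((n * l + 1) * ι)) ^ e ≤ E := by
    rw [hE]
    exact pow_le_pow_left₀ (by positivity) hE0low e
  have hHp : ((Nat.log 2 B : ℝ) + 2) ^ e *
      ((H : ℝ) ^ (n + 1 + r) * (B : ℝ) ^ r / (B : ℝ) ^ n) ^ e ≤ 1 := by
    have h3 := Pool.Agent.Lib.MP_1ad228_ntF.Hpow n r l g B H hn hl hgg hB hH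
    have h4 := hlg g (by omega)
    rw [one_mul, ← hB] at h4
    rw [← mul_pow]
    refine le_trans (pow_le_pow_left₀ (by positivity) ?_ e) h4
    calc ((Nat.log 2 B : ℝ) + 2) * ((H : ℝ) ^ (n + 1 + r) * (B : ℝ) ^ r / (B : ℝ) ^ n)
        ≤ ((Nat.log 2 B : ℝ) + 2) * (1 / g) := mul_le_mul_of_nonneg_left h3 (by positivity)
      _ = ((Nat.log 2 B : ℝ) + 2) / g := by ring
  -- lower bound of the first moment
  have hN1 : c * E * (A : ℝ) ^ (e * V) / v ≤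
      ∑ x ∈ GG K B H 4 (0 : Fin (n + 1)), ∏ i, (n1 (d i) x A : ℝ) := by
    have h1 : ∀ x ∈ GG K B H 4 (0 : Fin (n + 1)),
        (A : ℝ) ^ (e * V) / (v * ((A : ℝ) ^ r * (B : ℝ) ^ D) ^ e) ≤ ∏ i, (n1 (d i) x A : ℝ) := by
      intro x hx
      unfold GG at hx
      rw [Finset.mem_filter] at hx
      rw [div_le_iff₀ (by positivity)]
      have h3 : ∏ i, (A : ℝ) ^ (e * (n + 1) ^ d i) ≤
          ∏ i, (Cv i * ((A : ℝ) * (B : ℝ) ^ d i) ^ e * (n1 (d i) x A : ℝ)) := by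
        refine Finset.prod_le_prod (fun i _ => by positivity) fun i _ => ?_
        rw [he]
        exact hCv i A B hA0 hB1 x hx.1
      have h4 : ∏ i, (A : ℝ) ^ (e * (n + 1) ^ d i) = (A : ℝ) ^ (e * V) := by
        rw [Finset.prod_pow_eq_pow_sum, ← Finset.mul_sum, hV]
        rfl
      have h5 : ∏ i, (Cv i * ((A : ℝ) * (B : ℝ) ^ d i) ^ e * (n1 (d i) x A : ℝ)) =
          (∏ i, (n1 (d i) x A : ℝ)) * (v * ((A : ℝ) ^ r * (B : ℝ) ^ D) ^ e) := by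
        rw [Finset.prod_mul_distrib, Finset.prod_mul_distrib, Finset.prod_pow,
          Finset.prod_mul_distrib, Finset.prod_const, Finset.card_univ, Fintype.card_fin,
          Finset.prod_pow_eq_pow_sum, ← hvd, ← hDd]
        ring
      rw [h4, h5] at h3
      exact h3
    have h2 := Finset.sum_le_sum h1
    rw [Finset.sum_const, nsmul_eq_mul] at h2
    refine le_trans ?_ h2
    calc c * E * (A : ℝ) ^ (e * V) / v
        = c * (B : ℝ) ^ (e * (n + 1)) *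
          ((A : ℝ) ^ (e * V) / (v * ((A : ℝ) ^ r * (B : ℝ) ^ D) ^ e)) := by
          rw [hE, hE0, div_pow, ← pow_mul (B : ℝ) (n + 1) e, mul_comm (n + 1) e]
          field_simp
      _ ≤ _ := mul_le_mul_of_nonneg_right hG (by positivity)
  have hN2 : ∑ x ∈ GG K B H 4 (0 : Fin (n + 1)), ∑ y ∈ GG K B H 4 (0 : Fin (n + 1)),
      ∏ i, (n2 (d i) x y A : ℝ) ≤ 3 * C * (A : ℝ) ^ (e * V) * E := by
    refine hp.trans ?_
    have h3 : E + E ^ 2 * (1 + ((Nat.log 2 B : ℝ) + 2) ^ e *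
        ((H : ℝ) ^ (n + 1 + r) * (B : ℝ) ^ r / (B : ℝ) ^ n) ^ e) ≤ 3 * E := by
      have h5 : E ^ 2 * (1 + ((Nat.log 2 B : ℝ) + 2) ^ e *
        ((H : ℝ) ^ (n + 1 + r) * (B : ℝ) ^ r / (B : ℝ) ^ n) ^ e) ≤ E ^ 2 * 2 :=
        mul_le_mul_of_nonneg_left (by linarith) (by positivity)
      have h6 : E ^ 2 ≤ E := by
        rw [sq]
        exact mul_le_of_le_one_left hEpos.le hE1
      linarith
    calc C * (A : ℝ) ^ (e * V) * (E + E ^ 2 * (1 + ((Nat.log 2 B : ℝ) + 2) ^ e *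
        ((H : ℝ) ^ (n + 1 + r) * (B : ℝ) ^ r / (B : ℝ) ^ n) ^ e))
        ≤ C * (A : ℝ) ^ (e * V) * (3 * E) := mul_le_mul_of_nonneg_left h3 (by positivity)
      _ = 3 * C * (A : ℝ) ^ (e * V) * E := by ring
  have hfin := MN_Pos_ar _ _ _ ((A : ℝ) ^ (e * V)) E C v c hEpos hC hv hc (by positivity) hN1 hN2 hcs
    (Nat.cast_nonneg _)
  rw [← hV, ← he]
  refine le_trans ?_ hfin
  calc c ^ 2 * (1 / 2 ^ ((n * l + 1) * ι)) ^ e / (3 * C * v ^ 2) * (A : ℝ) ^ (e * V)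
      = (1 / 2 ^ ((n * l + 1) * ι)) ^ e * (c ^ 2 * (A : ℝ) ^ (e * V) / (3 * C * v ^ 2)) := by ring
    _ ≤ E * (c ^ 2 * (A : ℝ) ^ (e * V) / (3 * C * v ^ 2)) :=
        mul_le_mul_of_nonneg_right hElow (by positivity)
    _ = _ := by ring

end Pool.Agent.Lib.MP_1ad228_ntN
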