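import Pool.Agent.Lib.MP_1ad228_ntN.B_TotK
import Pool.Agent.Lib.MP_1ad228_ntN.B_BadK
import Pool.Agent.Lib.MP_1ad228_ntN.B_ParK
import Pool.Agent.Lib.MP_1ad228_ntN.MN_Pos
import Pool.Agent.Lib.MP_1ad228_ntN.CN_ManyU
import Pool.Agent.Lib.MP_1ad228_ntN.CN_N1

/-!
JOB B_PosK.  A positive proportion of the r-tuples of quadratic tensors in `2r + 1` variables has a common nonzero integral zero. (Models: posN in MN_Pos.lean, MN_GG.lean of this folder and Lib/MP_1ad228_ntF/B_Pos.lean.)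

PROOF.  `n = 2 r`, `d = fun _ => 2`, `∑ d = 2 r`, `V = VV n d`, `q = 4`, `o = 0`, `e = eK K`. `c1, B0` from `manyU K n`; `badB K n`: `Cb`; `s ≥ 1` with `Cb/s^(n e) ≤ c1/2`; `h ≥ 1` natural with `Cb s^(n-1) ≤ h`; `pairTotB K n _ 4`: `C0`, `lam = ⌈C0 h^2⌉₊`, then `C`.
For `A` large (`parB` with `μ = 1`): `g^2 ≤ A ≤ 4 g^2`, `B = g^n`, `H = h g`, `C0 ≤ A`, `C0 H ≤ A`, `C0 H^2 ≤ C0 h^2 A ≤ lam A`. `#GG K B H 4 0 ≥ c1 B^(e(n+1)) - Cb (B^(n+1)/s^n)^e ≥ (c1/2) B^(e(n+1))` (the `Uni` vectors of `manyU` which are `H`-good).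
`E = (B^(n+1)/(A^r B^(2r)))^e` satisfies `(1/4)^(r e) ≤ E ≤ 1` (`EB` with `μ = 1`). `∑_{GG} ∏ n1 ≥ (c1/2) B^(e(n+1)) * A^(e V)/(v (A^r B^(2r))^e) = (c1/2) E A^(eV)/v` (`n1low K n 2`, `v = C_2^r`). Second moment `≤ C A^(eV) (E + E^2 (1 + lg (..)^e)) ≤ 3 C A^(eV) E` for `g` large
(`HB1`, `lgSmall`). `csPos`: `#S ≥ ((c1/2) E A^(eV)/v)^2/(3 C A^(eV) E) = c1^2 E A^(eV)/(12 C v^2)`; `δ = c1^2 (1/4)^(r e)/(12 C v^2)`.
-/

namespace Pool.Agent.Lib.MP_1ad228_ntN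

open NumberField Classical

set_option linter.unusedSectionVars false

variable {K : Type} [Field K] [NumberField K]

variable (K) in
private theorem B_PosK_GG (n : ℕ) (hn : 2 ≤ n) : ∃ c : ℝ, 0 < c ∧ ∃ h : ℕ, 1 ≤ h ∧ ∃ g0 : ℕ, ∀ g : ℕ, g0 ≤ g →
    ∀ B H : ℕ, B = g ^ n → H = h * g →
    c * (B : ℝ) ^ (eK K * (n + 1)) ≤ ((GG K B H 4 (0 : Fin (n + 1))).card : ℝ) := by
  obtain ⟨c1, hc1, B0, hmany⟩ := manyU K n (by omega)
  obtain ⟨Cb, hCb, hbad⟩ := badB K n hn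
  obtain ⟨s, hs⟩ : ∃ s : ℕ, s = ⌈2 * Cb / c1⌉₊ + 1 := ⟨_, rfl⟩
  have he1 : 1 ≤ eK K := eK_pos
  have hs1 : 1 ≤ s := by omega
  have hs1r : (1 : ℝ) ≤ s := by exact_mod_cast hs1
  have hs8 : Cb ≤ c1 / 2 * ((s : ℝ) ^ n) ^ eK K := by
    have h1 := Nat.le_ceil (2 * Cb / c1)
    have h2 : ((⌈2 * Cb / c1⌉₊ : ℕ) : ℝ) ≤ (s : ℝ) := by
      have : ⌈2 * Cb / c1⌉₊ ≤ s := by omega
      exact_mod_cast this
    have h3 : (s : ℝ) ≤ ((s : ℝ) ^ n) ^ eK K := by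
      rw [← pow_mul]
      exact le_self_pow₀ hs1r (Nat.mul_ne_zero (by omega) (by omega))
    have h4 : 2 * Cb / c1 ≤ ((s : ℝ) ^ n) ^ eK K := by linarith
    rw [div_le_iff₀ hc1] at h4
    linarith
  obtain ⟨g0, hg0⟩ := hbad s hs1
  obtain ⟨h, hh⟩ : ∃ h : ℕ, h = ⌈Cb * (s : ℝ) ^ (n - 1)⌉₊ + 1 := ⟨_, rfl⟩
  refine ⟨c1 / 2, half_pos hc1, h, by omega, g0 + B0 + 1, fun g hg B H hB hH => ?_⟩
  have hhr : Cb * (s : ℝ) ^ (n - 1) ≤ (h : ℝ) := by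
    have h1 := Nat.le_ceil (Cb * (s : ℝ) ^ (n - 1))
    have h2 : ((⌈Cb * (s : ℝ) ^ (n - 1)⌉₊ : ℕ) : ℝ) ≤ (h : ℝ) := by
      have : ⌈Cb * (s : ℝ) ^ (n - 1)⌉₊ ≤ h := by omega
      exact_mod_cast this
    linarith
  have hb := hg0 g (by omega) B H hB (by
    rw [hH]
    push_cast
    calc Cb * ((s : ℝ) ^ (n - 1) * g) = (Cb * (s : ℝ) ^ (n - 1)) * g := by ring
      _ ≤ (h : ℝ) * g := mul_le_mul_of_nonneg_right hhr (Nat.cast_nonneg _))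
  have hgB : g ≤ B := by
    rw [hB]
    exact Nat.le_self_pow (by omega) g
  have hmm := hmany B (by omega) (0 : Fin (n + 1))
  have hbound : Cb * ((B : ℝ) ^ (n + 1) / (s : ℝ) ^ n) ^ eK K ≤ c1 / 2 * (B : ℝ) ^ (eK K * (n + 1)) := by
    rw [div_pow, ← pow_mul (B : ℝ), mul_comm (n + 1) (eK K), mul_div_assoc', div_le_iff₀ (by positivity)]
    calc Cb * (B : ℝ) ^ (eK K * (n + 1)) ≤ (c1 / 2 * ((s : ℝ) ^ n) ^ eK K) * (B : ℝ) ^ (eK K * (n + 1)) :=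
          mul_le_mul_of_nonneg_right hs8 (by positivity)
      _ = _ := by ring
  have hsub : ((VBox K n B).filter fun x => (∀ v : InfinitePlace K, (B : ℝ) ≤ 4 * v (x 0 : K)) ∧ Uni x) ⊆
      GG K B H 4 (0 : Fin (n + 1)) ∪ ((VBox K n B).filter fun x => ¬ HGood H x) := by
    intro x hx
    rw [Finset.mem_filter] at hx
    rw [Finset.mem_union]
    by_cases h : HGood H x
    · left
      unfold GG
      rw [Finset.mem_filter]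
      exact ⟨hx.1, fun v => by exact_mod_cast hx.2.1 v, hx.2.2, h⟩
    · right
      rw [Finset.mem_filter]
      exact ⟨hx.1, h⟩
  have hcard := (Finset.card_le_card hsub).trans (Finset.card_union_le _ _)
  have hcard' : (((VBox K n B).filter fun x => (∀ v : InfinitePlace K, (B : ℝ) ≤ 4 * v (x 0 : K)) ∧
      Uni x).card : ℝ) ≤
      ((GG K B H 4 (0 : Fin (n + 1))).card : ℝ) + (((VBox K n B).filter fun x => ¬ HGood H x).card : ℝ) := by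
    exact_mod_cast hcard
  have h9 : c1 * (B : ℝ) ^ (eK K * (n + 1)) =
      c1 / 2 * (B : ℝ) ^ (eK K * (n + 1)) + c1 / 2 * (B : ℝ) ^ (eK K * (n + 1)) := by ring
  linarith

/-- Arithmetic of the second moment method. -/
private theorem B_PosK_ar (S N1 N2 A2 E C v c : ℝ) (hE : 0 < E) (hC : 1 ≤ C)
    (hv : 0 < v) (hc : 0 < c) (hA2 : 0 < A2) (h1 : c * E * A2 / v ≤ N1) (h2 : N2 ≤ 3 * C * A2 * E)
    (hcs : N1 ^ 2 ≤ S * N2) (hS : 0 ≤ S) :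
    c ^ 2 * E * A2 / (3 * C * v ^ 2) ≤ S := by
  have hC0 : 0 < C := by linarith
  have h3 : (c * E * A2 / v) ^ 2 ≤ S * (3 * C * A2 * E) :=
    (pow_le_pow_left₀ (by positivity) h1 2).trans (hcs.trans (mul_le_mul_of_nonneg_left h2 hS))
  have h4 : (c ^ 2 * E * A2 / (3 * C * v ^ 2)) * (3 * C * A2 * E) = (c * E * A2 / v) ^ 2 := by
    field_simp
  rw [← h4] at h3
  exact le_of_mul_le_mul_right h3 (by positivity)

variable (K) in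
theorem posB (r : ℕ) (hr : 2 ≤ r) : PosP K (2 * r) (fun _ : Fin r => 2) := by
  obtain ⟨d, hd⟩ : ∃ d : Fin r → ℕ, d = fun _ => 2 := ⟨_, rfl⟩
  rw [← hd]
  have hds : ∑ i, d i = 2 * r := by
    rw [hd, Finset.sum_const, Finset.card_univ, Fintype.card_fin, smul_eq_mul, mul_comm]
  obtain ⟨e, he⟩ : ∃ e : ℕ, e = eK K := ⟨_, rfl⟩
  have he1 : 1 ≤ e := by
    rw [he]
    exact eK_pos
  obtain ⟨c, hc, h, hh, g1, hg1⟩ := B_PosK_GG K (2 * r) (by omega)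
  obtain ⟨C0, hC0, hpt0⟩ := pairTotB K (r := r) (2 * r) (by omega) 4 (by norm_num)
  obtain ⟨lam, hlam⟩ : ∃ lam : ℕ, lam = ⌈C0 * (h : ℝ) ^ 2⌉₊ + 1 := ⟨_, rfl⟩
  obtain ⟨C, hC, hpt⟩ := hpt0 lam (by omega)
  rw [← hd] at hpt
  obtain ⟨g2, hg2, hlg⟩ := lgSmall (2 * r) e he1 (((h : ℝ) ^ (3 * r + 1)) ^ e) 1 one_pos
  obtain ⟨A0, hA0, hpar⟩ := parB 1 (g1 + g2) ⌈C0 * h⌉₊ le_rfl
  choose Cv hCv1 hCv using fun i => n1low K (2 * r) (d i)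
  obtain ⟨v, hvd⟩ : ∃ v : ℝ, v = ∏ i, Cv i := ⟨_, rfl⟩
  have hv : 0 < v := by
    rw [hvd]
    exact Finset.prod_pos fun i _ => by linarith [hCv1 i]
  obtain ⟨V, hV⟩ : ∃ V : ℕ, V = VV (2 * r) d := ⟨_, rfl⟩
  have hCpos : 0 < C := by linarith
  refine ⟨c ^ 2 * ((1 / 4) ^ r) ^ e / (3 * C * v ^ 2), by positivity, A0, fun A hA => ?_⟩
  obtain ⟨g, hgg, hgg1, hgA, hAg, hcA⟩ := hpar A hA
  have hA1 : 1 ≤ A := by omega
  have hA0r : (0 : ℝ) < A := by exact_mod_cast hA1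
  obtain ⟨B, hB⟩ : ∃ B : ℕ, B = g ^ (2 * r) := ⟨_, rfl⟩
  obtain ⟨H, hH⟩ : ∃ H : ℕ, H = h * g := ⟨_, rfl⟩
  have hB1 : 1 ≤ B := by rw [hB]; exact Nat.one_le_pow _ _ hgg1
  have hH1 : 1 ≤ H := by rw [hH]; exact Nat.mul_pos hh hgg1
  have hB0r : (0 : ℝ) < B := by exact_mod_cast hB1
  have hg0r : (0 : ℝ) < g := by exact_mod_cast hgg1
  have hhr : (1 : ℝ) ≤ h := by exact_mod_cast hh
  have hG := hg1 g (by omega) B H hB hH
  rw [← he] at hG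
  have hcAr : C0 * (h : ℝ) * g ≤ A := by
    have h3 : C0 * (h : ℝ) ≤ ((⌈C0 * h⌉₊ : ℕ) : ℝ) := Nat.le_ceil _
    have h4 : ((⌈C0 * h⌉₊ : ℕ) : ℝ) * g ≤ A := by exact_mod_cast hcA
    exact (mul_le_mul_of_nonneg_right h3 hg0r.le).trans h4
  have hcond1 : C0 * H ≤ A := by
    rw [hH]
    push_cast
    rw [← mul_assoc]
    exact hcAr
  have hcond0 : C0 ≤ A := by
    have h3 : (1 : ℝ) ≤ H := by exact_mod_cast hH1
    have h4 : C0 * 1 ≤ C0 * H := mul_le_mul_of_nonneg_left h3 (by linarith)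
    linarith
  have hgAr : (g : ℝ) ^ 2 ≤ A := by
    have h3 : g ^ 2 ≤ A := by omega
    exact_mod_cast h3
  have hcond2 : C0 * (H : ℝ) ^ 2 ≤ (lam : ℝ) * A := by
    have h3 : C0 * (h : ℝ) ^ 2 ≤ (lam : ℝ) := by
      have h4 := Nat.le_ceil (C0 * (h : ℝ) ^ 2)
      have h5 : ((⌈C0 * (h : ℝ) ^ 2⌉₊ : ℕ) : ℝ) ≤ (lam : ℝ) := by
        have : ⌈C0 * (h : ℝ) ^ 2⌉₊ ≤ lam := by omega
        exact_mod_cast this
      linarith
    rw [hH]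
    push_cast
    calc C0 * ((h : ℝ) * g) ^ 2 = (C0 * (h : ℝ) ^ 2) * (g : ℝ) ^ 2 := by ring
      _ ≤ (lam : ℝ) * A := mul_le_mul h3 hgAr (by positivity) (Nat.cast_nonneg _)
  have hp := hpt (0 : Fin (2 * r + 1)) B H A hB1 hH1 hcond0 hcond1 hcond2
  have hcs := csPos (K := K) d B H 4 A (0 : Fin (2 * r + 1))
  rw [← hV, ← he] at hp
  obtain ⟨E0, hE0⟩ : ∃ E0 : ℝ, E0 = (B : ℝ) ^ (2 * r + 1) / ((A : ℝ) ^ r * (B : ℝ) ^ (2 * r)) := ⟨_, rfl⟩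
  have hEB := EB r 1 g A le_rfl hgg1 hA1 hgA hAg
  rw [← hB, ← hE0, Nat.cast_one, one_pow] at hEB
  rw [← hE0] at hp
  have hE0pos : 0 < E0 := by rw [hE0]; positivity
  obtain ⟨E, hE⟩ : ∃ E : ℝ, E = E0 ^ e := ⟨_, rfl⟩
  rw [← hE] at hp
  have hEpos : 0 < E := by rw [hE]; positivity
  have hE1 : E ≤ 1 := by rw [hE]; exact pow_le_one₀ hE0pos.le hEB.2
  have hElow : ((1 / 4 : ℝ) ^ r) ^ e ≤ E := by
    rw [hE]
    exact pow_le_pow_left₀ (by positivity) hEB.1 e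
  have hHp : ((Nat.log 2 B : ℝ) + 2) ^ e *
      ((H : ℝ) ^ (2 * r + 1 + r) * (B : ℝ) ^ r / (B : ℝ) ^ (2 * r)) ^ e ≤ 1 := by
    have h3 := HB1 r h g hr hgg1
    rw [← hB, ← hH] at h3
    have h4 := hlg g (by omega)
    rw [← hB] at h4
    rw [← mul_pow]
    rw [← mul_pow] at h4
    refine le_trans (pow_le_pow_left₀ (by positivity) ?_ e) h4
    calc ((Nat.log 2 B : ℝ) + 2) * ((H : ℝ) ^ (2 * r + 1 + r) * (B : ℝ) ^ r / (B : ℝ) ^ (2 * r))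
        ≤ ((Nat.log 2 B : ℝ) + 2) * ((h : ℝ) ^ (3 * r + 1) / g) := mul_le_mul_of_nonneg_left h3 (by positivity)
      _ = ((h : ℝ) ^ (3 * r + 1)) * (((Nat.log 2 B : ℝ) + 2) / g) := by ring
  -- lower bound of the first moment
  have hN1 : c * E * (A : ℝ) ^ (e * V) / v ≤
      ∑ x ∈ GG K B H 4 (0 : Fin (2 * r + 1)), ∏ i, (n1 (d i) x A : ℝ) := by
    have h1 : ∀ x ∈ GG K B H 4 (0 : Fin (2 * r + 1)),
        (A : ℝ) ^ (e * V) / (v * ((A : ℝ) ^ r * (B : ℝ) ^ (2 * r)) ^ e) ≤ ∏ i, (n1 (d i) x A : ℝ) := by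
      intro x hx
      unfold GG at hx
      rw [Finset.mem_filter] at hx
      rw [div_le_iff₀ (by positivity)]
      have h3 : ∏ i, (A : ℝ) ^ (e * (2 * r + 1) ^ d i) ≤
          ∏ i, (Cv i * ((A : ℝ) * (B : ℝ) ^ d i) ^ e * (n1 (d i) x A : ℝ)) := by
        refine Finset.prod_le_prod (fun i _ => by positivity) fun i _ => ?_
        rw [he]
        exact hCv i A B hA1 hB1 x hx.1
      have h4 : ∏ i, (A : ℝ) ^ (e * (2 * r + 1) ^ d i) = (A : ℝ) ^ (e * V) := by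
        rw [Finset.prod_pow_eq_pow_sum, ← Finset.mul_sum, hV]
        rfl
      have h5 : ∏ i, (Cv i * ((A : ℝ) * (B : ℝ) ^ d i) ^ e * (n1 (d i) x A : ℝ)) =
          (∏ i, (n1 (d i) x A : ℝ)) * (v * ((A : ℝ) ^ r * (B : ℝ) ^ (2 * r)) ^ e) := by
        rw [Finset.prod_mul_distrib, Finset.prod_mul_distrib, Finset.prod_pow,
          Finset.prod_mul_distrib, Finset.prod_const, Finset.card_univ, Fintype.card_fin,
          Finset.prod_pow_eq_pow_sum, ← hvd, hds]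
        ring
      rw [h4, h5] at h3
      exact h3
    have h2 := Finset.sum_le_sum h1
    rw [Finset.sum_const, nsmul_eq_mul] at h2
    refine le_trans ?_ h2
    calc c * E * (A : ℝ) ^ (e * V) / v
        = c * (B : ℝ) ^ (e * (2 * r + 1)) *
          ((A : ℝ) ^ (e * V) / (v * ((A : ℝ) ^ r * (B : ℝ) ^ (2 * r)) ^ e)) := by
          rw [hE, hE0, div_pow, ← pow_mul (B : ℝ) (2 * r + 1) e, mul_comm (2 * r + 1) e]
          field_simp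
      _ ≤ _ := mul_le_mul_of_nonneg_right hG (by positivity)
  have hN2 : ∑ x ∈ GG K B H 4 (0 : Fin (2 * r + 1)), ∑ y ∈ GG K B H 4 (0 : Fin (2 * r + 1)),
      ∏ i, (n2 (d i) x y A : ℝ) ≤ 3 * C * (A : ℝ) ^ (e * V) * E := by
    have e1 : ∑ x ∈ GG K B H 4 (0 : Fin (2 * r + 1)), ∑ y ∈ GG K B H 4 (0 : Fin (2 * r + 1)),
      ∏ i, (n2 (d i) x y A : ℝ) = ∑ x ∈ GG K B H 4 (0 : Fin (2 * r + 1)),
        ∑ y ∈ GG K B H 4 (0 : Fin (2 * r + 1)), (n2 2 x y A : ℝ) ^ r := by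
      refine Finset.sum_congr rfl fun x _ => Finset.sum_congr rfl fun y _ => ?_
      rw [hd, Finset.prod_const, Finset.card_univ, Fintype.card_fin]
    rw [e1]
    refine hp.trans ?_
    have h3 : E + E ^ 2 * (1 + ((Nat.log 2 B : ℝ) + 2) ^ e *
        ((H : ℝ) ^ (2 * r + 1 + r) * (B : ℝ) ^ r / (B : ℝ) ^ (2 * r)) ^ e) ≤ 3 * E := by
      have h5 : E ^ 2 * (1 + ((Nat.log 2 B : ℝ) + 2) ^ e *
        ((H : ℝ) ^ (2 * r + 1 + r) * (B : ℝ) ^ r / (B : ℝ) ^ (2 * r)) ^ e) ≤ E ^ 2 * 2 :=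
        mul_le_mul_of_nonneg_left (by linarith) (by positivity)
      have h6 : E ^ 2 ≤ E := by
        rw [sq]
        exact mul_le_of_le_one_left hEpos.le hE1
      linarith
    calc C * (A : ℝ) ^ (e * V) * (E + E ^ 2 * (1 + ((Nat.log 2 B : ℝ) + 2) ^ e *
        ((H : ℝ) ^ (2 * r + 1 + r) * (B : ℝ) ^ r / (B : ℝ) ^ (2 * r)) ^ e))
        ≤ C * (A : ℝ) ^ (e * V) * (3 * E) := mul_le_mul_of_nonneg_left h3 (by positivity)
      _ = 3 * C * (A : ℝ) ^ (e * V) * E := by ring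
  have hfin := B_PosK_ar _ _ _ ((A : ℝ) ^ (e * V)) E C v c hEpos hC hv hc (by positivity) hN1 hN2 hcs
    (Nat.cast_nonneg _)
  rw [← hV, ← he]
  refine le_trans ?_ hfin
  calc c ^ 2 * ((1 / 4) ^ r) ^ e / (3 * C * v ^ 2) * (A : ℝ) ^ (e * V)
      = ((1 / 4) ^ r) ^ e * (c ^ 2 * (A : ℝ) ^ (e * V) / (3 * C * v ^ 2)) := by ring
    _ ≤ E * (c ^ 2 * (A : ℝ) ^ (e * V) / (3 * C * v ^ 2)) :=
        mul_le_mul_of_nonneg_right hElow (by positivity)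
    _ = _ := by ring

end Pool.Agent.Lib.MP_1ad228_ntN
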