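import Pool.Agent.Lib.MP_1ad228_ntN.B_WtK
import Pool.Agent.Lib.MP_1ad228_ntN.Cover

/-!
JOB B_Sli.  The slices with the product weight. (Models: Slice.lean of this folder; slB_le, slB_shift in Lib/MP_1ad228_ntF/B_Wt.lean.)

`L = 2 * kn K n ^ 2`. First part: `fw ≤ 1` and `cover2` with `M = L`, `X = A`.
Second part: the tensor `a0 = Pi.single s ((t : 𝓞 K) * bas K u)` has `ev a0 x = t * (bas u * ∏ l, x (s l))`, the same for `y`.  Substituting `a = b + a0` the first slice is the sum of `fw A (b + a0)` over all `b` in the box of size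
`(L + CK) * A` with `ev b x = 0`, `ev b y = 0` (terms outside vanish by `fw_zero`: if `b + a0` is in the box of size `L A` then `v (b s') ≤ L A + v (t bas u) ≤ L A + CK * A`, because `v (bas u) ≤ CK` by `co_up` (coordinates 0 and 1) and
`t ≤ A`), and `slB d A x y 0 0` is the sum of `fw A b` over the same set.  Each term differs by at most `t/(2A)` (`fw_lip1`), the number of `b` is at most `C * n2 d x y A` (`cover2` with `M = L + CK`).  One constant for both parts.
-/

namespace Pool.Agent.Lib.MP_1ad228_ntN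

open NumberField Classical

set_option linter.unusedSectionVars false

variable {K : Type} [Field K] [NumberField K]

private theorem B_Sli_ev {n d : ℕ} (s : Fin d → Fin (n + 1)) (c : 𝓞 K) (x : Vc n (𝓞 K)) :
    ev (Pi.single s c : Ten n d (𝓞 K)) x = c * ∏ l, x (s l) := by
  unfold ev
  rw [Finset.sum_eq_single s]
  · rw [Pi.single_eq_same]
  · intro b _ hb
    rw [Pi.single_eq_of_ne hb, zero_mul]
  · intro h
    exact absurd (Finset.mem_univ s) h

private theorem B_Sli_bas (n : ℕ) (u : Fin (eK K)) (v : InfinitePlace K) :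
    v ((bas K u : 𝓞 K) : K) ≤ CK K n := by
  have h := co_up n (bas K u) 1 (fun i => ?_) v
  · rwa [mul_one] at h
  · unfold co
    rw [Module.Basis.repr_self, Finsupp.single_apply]
    split_ifs <;> simp

private theorem B_Sli_tn {n d : ℕ} (s : Fin d → Fin (n + 1)) (u : Fin (eK K)) {t A : ℕ} (h : t ≤ A) :
    tn (Pi.single s ((t : 𝓞 K) * bas K u) : Ten n d (𝓞 K)) ≤ CK K n * A := by
  have hC := CK_pos K n
  have hA : (t : ℝ) ≤ A := by exact_mod_cast h
  rw [tn_le]
  intro l v
  by_cases hl : l = s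
  · rw [hl, Pi.single_eq_same]
    have e : ((((t : 𝓞 K) * bas K u : 𝓞 K)) : K) = (t : K) * (bas K u : K) := by push_cast; rfl
    rw [e, v_mul, v_natCast, mul_comm]
    exact mul_le_mul (B_Sli_bas n u v) hA (Nat.cast_nonneg t) hC.le
  · rw [Pi.single_eq_of_ne hl]
    have e : (((0 : 𝓞 K)) : K) = 0 := by simp
    rw [e, v_zero]
    positivity

variable (K) in
theorem sliB (n d : ℕ) : ∃ C : ℝ, 1 ≤ C ∧
    (∀ (A : ℕ), 1 ≤ A → ∀ (x y : Vc n (𝓞 K)) (m m' : 𝓞 K),
      slB d A x y m m' ≤ C * (n2 d x y A : ℝ)) ∧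
    (∀ (A : ℕ), 1 ≤ A → ∀ (x y : Vc n (𝓞 K)) (s : Fin d → Fin (n + 1)) (u : Fin (eK K))
      (t : ℕ), t ≤ A →
      |slB d A x y ((t : 𝓞 K) * (bas K u * ∏ l, x (s l))) ((t : 𝓞 K) * (bas K u * ∏ l, y (s l))) -
        slB d A x y 0 0| ≤ (t : ℝ) / A * (C * (n2 d x y A : ℝ))) := by
  have hk1 : (1 : ℝ) ≤ ((2 * kn K n ^ 2 : ℕ) : ℝ) := by
    have h := one_le_kn K n
    have h2 : 1 ≤ 2 * kn K n ^ 2 := by nlinarith
    exact_mod_cast h2
  have hCK := CK_pos K n
  obtain ⟨L, hL⟩ : ∃ L : ℝ, L = ((2 * kn K n ^ 2 : ℕ) : ℝ) := ⟨_, rfl⟩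
  rw [← hL] at hk1
  obtain ⟨C2, hC2, h2⟩ := cover2 (K := K) n d L hk1
  obtain ⟨C3, hC3, h3⟩ := cover2 (K := K) n d (L + CK K n) (by linarith)
  refine ⟨max C2 C3, le_max_of_le_left hC2, ?_, ?_⟩
  · intro A hA x y m m'
    have hA' : (1 : ℝ) ≤ (A : ℝ) := by exact_mod_cast hA
    have h1 : slB d A x y m m' ≤
        ∑ _a ∈ (Box K n d (L * A)).filter (fun a => ev a x = m ∧ ev a y = m'), (1 : ℝ) := by
      unfold slB
      rw [← hL]
      exact Finset.sum_le_sum fun a _ => fw_le_one A a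
    refine h1.trans ?_
    rw [Finset.sum_const, nsmul_eq_mul, mul_one]
    refine (h2 x y m m' A hA').trans ?_
    exact mul_le_mul_of_nonneg_right (le_max_left _ _) (Nat.cast_nonneg _)
  · intro A hA x y s u t ht
    have hA' : (1 : ℝ) ≤ (A : ℝ) := by exact_mod_cast hA
    obtain ⟨a0, ha0⟩ : ∃ a0 : Ten n d (𝓞 K), a0 = Pi.single s ((t : 𝓞 K) * bas K u) := ⟨_, rfl⟩
    have h0 : tn a0 ≤ CK K n * A := by rw [ha0]; exact B_Sli_tn s u ht
    have hx : (t : 𝓞 K) * (bas K u * ∏ l, x (s l)) = ev a0 x := by rw [ha0, B_Sli_ev, mul_assoc]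
    have hy : (t : 𝓞 K) * (bas K u * ∏ l, y (s l)) = ev a0 y := by rw [ha0, B_Sli_ev, mul_assoc]
    rw [hx, hy]
    obtain ⟨B, hB⟩ : ∃ B : Finset (Ten n d (𝓞 K)), B = (Box K n d ((L + CK K n) * A)).filter
      (fun b => ev b x = 0 ∧ ev b y = 0) := ⟨_, rfl⟩
    have hz : ∀ b : Ten n d (𝓞 K), b ∉ Box K n d (L * A) → fw A b = 0 := by
      intro b hb
      rw [hL] at hb
      exact fw_zero hA hb
    have c1 : slB d A x y (ev a0 x) (ev a0 y) = ∑ b ∈ B, fw A (b + a0) := by
      have e1 : ∑ b ∈ B, fw A (b + a0) = ∑ b ∈ B.filter (fun b => b + a0 ∈ Box K n d (L * A)),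
          fw A (b + a0) := by
        symm
        refine Finset.sum_subset (Finset.filter_subset _ _) ?_
        intro b hb hnb
        apply hz
        intro h
        exact hnb (Finset.mem_filter.mpr ⟨hb, h⟩)
      rw [e1]
      unfold slB
      rw [← hL]
      refine Finset.sum_bij' (fun a _ => a - a0) (fun b _ => b + a0) ?_ ?_ ?_ ?_ ?_
      · intro a ha
        rw [Finset.mem_filter] at ha
        obtain ⟨ha1, ha2, ha3⟩ := ha
        have htn : tn (a - a0) ≤ (L + CK K n) * A := by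
          rw [mem_Box_iff_tn] at ha1
          have := tn_add a (-a0)
          rw [tn_neg, ← sub_eq_add_neg] at this
          linarith
        refine Finset.mem_filter.mpr ⟨?_, ?_⟩
        · rw [hB]
          refine Finset.mem_filter.mpr ⟨mem_Box_iff_tn.mpr htn, ?_, ?_⟩
          · rw [ev_sub, ha2, sub_self]
          · rw [ev_sub, ha3, sub_self]
        · rw [sub_add_cancel]; exact ha1
      · intro b hb
        rw [Finset.mem_filter] at hb
        obtain ⟨hb1, hb2⟩ := hb
        rw [hB, Finset.mem_filter] at hb1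
        refine Finset.mem_filter.mpr ⟨hb2, ?_, ?_⟩
        · rw [ev_add, hb1.2.1, zero_add]
        · rw [ev_add, hb1.2.2, zero_add]
      · intro a _
        exact sub_add_cancel a a0
      · intro b _
        exact add_sub_cancel_right b a0
      · intro a _
        rw [sub_add_cancel]
    have c2 : slB d A x y 0 0 = ∑ b ∈ B, fw A b := by
      unfold slB
      rw [← hL, hB]
      refine Finset.sum_subset ?_ ?_
      · intro a ha
        rw [Finset.mem_filter] at ha
        refine Finset.mem_filter.mpr ⟨?_, ha.2⟩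
        have ha1 := ha.1
        rw [mem_Box_iff_tn] at ha1 ⊢
        nlinarith
      · intro b hb hnb
        apply hz
        intro h
        exact hnb (Finset.mem_filter.mpr ⟨h, (Finset.mem_filter.mp hb).2⟩)
    rw [c1, c2, ← Finset.sum_sub_distrib]
    have h4 := (h3 x y 0 0 A hA').trans
      (mul_le_mul_of_nonneg_right (le_max_right C2 C3) (Nat.cast_nonneg (n2 d x y (A : ℝ))))
    rw [← hB] at h4
    have h5 : ∀ b : Ten n d (𝓞 K), |fw A (b + a0) - fw A b| ≤ (t : ℝ) / A := by
      intro b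
      have h6 := fw_lip1 hA b s u (t : ℤ)
      rw [Int.cast_natCast, Int.cast_natCast, ← ha0] at h6
      refine h6.trans ?_
      rw [abs_of_nonneg (Nat.cast_nonneg t)]
      exact div_le_div_of_nonneg_left (Nat.cast_nonneg t) (by linarith) (by linarith)
    calc |∑ b ∈ B, (fw A (b + a0) - fw A b)|
        ≤ ∑ b ∈ B, |fw A (b + a0) - fw A b| := Finset.abs_sum_le_sum_abs _ _
      _ ≤ ∑ _b ∈ B, (t : ℝ) / A := Finset.sum_le_sum fun b _ => h5 b
      _ = (t : ℝ) / A * B.card := by rw [Finset.sum_const, nsmul_eq_mul, mul_comm]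
      _ ≤ _ := mul_le_mul_of_nonneg_left h4 (by positivity)

end Pool.Agent.Lib.MP_1ad228_ntN
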