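import Pool.Agent.Lib.MP_1ad228_ntN.Vals
import Pool.Agent.Lib.MP_1ad228_ntN.Trans
import Pool.Agent.Lib.MP_1ad228_ntN.Pre

/-!
JOB N2.  Upper bound for the number of tensors vanishing at two test points.
(Model: Lib/MP_1ad228_ntF/N2.lean)

PROOF.  `e = eK K`, `κ = CK K n`. `c`, `δ = ∑ j, c j * mn x y o j ≠ 0` as in `exists_bal`; `δ ∈ Dd x y` (`mn_mem_Dd`,
`Ideal.sum_mem`, `Ideal.mul_mem_left`); `Del_v ≤ κ v(δ)`, `v(δ) ≤ (n+1) κ Del_v`.
`P = A B^d/(4 q^d)`, `T = A B^(d-2)/C2` with `C2 = 8 (n+1)^2 κ^4 q^(d-1)`; both are at least 1 if `A ≥ C`.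
For every `m'` in `OBox K P` (at least `P^e/κ` elements, `OBox_low`) fix a tensor `a_(m')` with value `m'` at `y` (`val1`,
`GG_uni hy`), let `m1` be its value at `x`. By `lowI` with `I = Dd x y`, `δ`, `T`, centre
`c_v = em v m' * (v.embedding (x_o^d/y_o^d))` (in `KK v`: it is `v.embedding` of an element of `K`) and `z0 = m1`: a finset
`S(m')` of elements `m ≡ m1 mod Dd x y` with `‖em v m - c_v‖ = v (m - m' x_o^d/y_o^d) ≤ κ T v(δ)` and
`T^e * (pn (v δ)/N(Dd)) ≤ κ #S(m')`, where `pn (v δ) ≥ pn (Del_v / κ) = pn Del / κ^e`.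
The pairs `(m, m')` are values of tensors: add to `a_(m')` the tensor of `valD` for `m - m1 ∈ Dd x y`. By `pre2` there is one
with `v(.) ≤ P q^d/B^d + κ T (n+1) κ Del_v (q/B)^(d-1) 2 (n+1) κ^2 B/Del_v + cc κ H^2
 ≤ A/4 + 2 (n+1)^2 κ^4 q^(d-1) T B^(2-d) + A/4 ≤ A` (`C ≥ 4 cc κ`, `C * H^2 ≤ A`).
`trans2`, `boxTwo`: `(P^e/κ) * (T^e pn Del/(κ^(e+1) nD)) * n2 d x y A ≤ C' A^(e (n+1)^d)` (the set of all pairs is a
`Finset.sigma` or `biUnion` mapped injectively to pairs; its cardinality is the sum of the `#S(m')`).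
`P^e T^e = (A^2 B^(2d-2)/(4 q^d C2))^e`.
-/

namespace Pool.Agent.Lib.MP_1ad228_ntN

open NumberField Classical
open Pool.Agent.Lib.MP_219881_nt (mn)

set_option linter.unusedSectionVars false

variable {K : Type} [Field K] [NumberField K]

private theorem N2_emb_mem (v : InfinitePlace K) (t : K) : v.embedding t ∈ KK v := by
  intro h
  have h2 := InfinitePlace.conjugate_embedding_eq_of_isReal h
  have h3 : ComplexEmbedding.conjugate v.embedding t = v.embedding t := by rw [h2]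
  rw [ComplexEmbedding.conjugate_coe_eq] at h3
  exact Complex.conj_eq_iff_im.1 h3

private theorem N2_mid (k : ℕ) {q B κ D A N : ℝ} (hB : 0 < B) (hq : 0 < q) (hκ : 0 < κ)
    (hD : 0 < D) (hN : 0 < N) :
    (κ * (A * B ^ k / (8 * N ^ 2 * κ ^ 4 * q ^ (k + 1))) * (N * κ * D)) *
      ((q / B) ^ (k + 1) * (2 * N * κ ^ 2 * B / D)) = A / 4 := by
  rw [div_pow]
  field_simp
  ring

/-- the pairs of values -/
private theorem N2_pairs {n k q B H A : ℕ} {o : Fin (n + 1)} (hB : 1 ≤ B) (hq : 1 ≤ q)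
    {x y : Vc n (𝓞 K)} (hx : x ∈ GG K B H q o) (hy : y ∈ GG K B H q o) (hxy : ¬ Prp x y)
    (hH : 4 * (cc n (k + 2) : ℝ) * CK K n * (H : ℝ) ^ 2 ≤ A)
    {P T : ℝ} (hP : P = (A : ℝ) * (B : ℝ) ^ (k + 2) / (4 * (q : ℝ) ^ (k + 2)))
    (hT : T = (A : ℝ) * (B : ℝ) ^ k / (8 * ((n : ℝ) + 1) ^ 2 * CK K n ^ 4 * (q : ℝ) ^ (k + 1)))
    (hT1 : 1 ≤ T) (δ : 𝓞 K) (hδI : δ ∈ Dd x y) (hδ0 : δ ≠ 0)
    (hδ2 : ∀ v : InfinitePlace K, v (δ : K) ≤ ((n : ℝ) + 1) * CK K n * Del o x y v)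
    (m' : 𝓞 K) (hm' : m' ∈ OBox K P) :
    ∃ S : Finset (𝓞 K), (∀ m ∈ S, ∃ a ∈ Box K n (k + 2) A, ev a x = m ∧ ev a y = m') ∧
      T ^ eK K * (pn (fun v : InfinitePlace K => v (δ : K)) / Ideal.absNorm (Dd x y)) ≤
        CK K n * (S.card : ℝ) := by
  have bR : (0 : ℝ) < (B : ℝ) := by exact_mod_cast hB
  have qR : (0 : ℝ) < (q : ℝ) := by exact_mod_cast hq
  have κ0 : 0 < CK K n := CK_pos K n
  have AR : (0 : ℝ) ≤ (A : ℝ) := Nat.cast_nonneg _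
  have NR : (0 : ℝ) < (n : ℝ) + 1 := by positivity
  obtain ⟨a0, ha0⟩ := val1 (k + 2) y (GG_uni hy) m'
  obtain ⟨S, hS, hcard⟩ := lowI n (Dd x y) δ hδI hδ0 T hT1
    (fun v => v.embedding ((m' : K) * (x o : K) ^ (k + 2) / (y o : K) ^ (k + 2)))
    (fun v => N2_emb_mem v _) (ev a0 x)
  refine ⟨S, ?_, hcard⟩
  intro m hm
  obtain ⟨hm1, hm2⟩ := hS m hm
  obtain ⟨w, hwy, hwx⟩ := valD (k + 2) (by omega) x y (GG_uni hx) (m - ev a0 x) hm1
  obtain ⟨a', e1, e2, e3⟩ := pre2 (by omega : 2 ≤ k + 2) B H q o hB x y hx hy hxy (a0 + w)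
  have f1 : ev (a0 + w) x = m := by
    rw [ev_add, hwx]
    ring
  have f2 : ev (a0 + w) y = m' := by
    rw [ev_add, hwy, ha0, add_zero]
  rw [f1] at e1 e3
  rw [f2] at e2 e3
  refine ⟨a', ?_, e1, e2⟩
  rw [mem_Box]
  intro s v
  have h3 := e3 s v
  have hD : 0 < Del o x y v := Del_pos (GG_ne hB hx) hxy v
  have h4 : v (m' : K) * ((q : ℝ) ^ (k + 2) / (B : ℝ) ^ (k + 2)) ≤ (A : ℝ) / 4 := by
    calc v (m' : K) * ((q : ℝ) ^ (k + 2) / (B : ℝ) ^ (k + 2)) ≤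
          P * ((q : ℝ) ^ (k + 2) / (B : ℝ) ^ (k + 2)) :=
          mul_le_mul_of_nonneg_right (mem_OBox.1 hm' v) (by positivity)
      _ = (A : ℝ) / 4 := by
          rw [hP]
          field_simp
  have h5 : v ((m : K) - (m' : K) * (x o : K) ^ (k + 2) / (y o : K) ^ (k + 2)) ≤
      CK K n * T * (((n : ℝ) + 1) * CK K n * Del o x y v) := by
    have h6 := hm2 v
    rw [em_apply, ← map_sub, InfinitePlace.norm_embedding_eq] at h6
    exact h6.trans (mul_le_mul_of_nonneg_left (hδ2 v) (by positivity))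
  have h7 : v ((m : K) - (m' : K) * (x o : K) ^ (k + 2) / (y o : K) ^ (k + 2)) *
      (((q : ℝ) / B) ^ (k + 2 - 1) * (2 * (n + 1) * CK K n ^ 2 * B / Del o x y v)) ≤
      (A : ℝ) / 4 := by
    have h8 : k + 2 - 1 = k + 1 := by omega
    rw [h8]
    calc v ((m : K) - (m' : K) * (x o : K) ^ (k + 2) / (y o : K) ^ (k + 2)) *
          (((q : ℝ) / B) ^ (k + 1) * (2 * (n + 1) * CK K n ^ 2 * B / Del o x y v)) ≤
          (CK K n * T * (((n : ℝ) + 1) * CK K n * Del o x y v)) *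
          (((q : ℝ) / B) ^ (k + 1) * (2 * (n + 1) * CK K n ^ 2 * B / Del o x y v)) :=
          mul_le_mul_of_nonneg_right h5 (by positivity)
      _ = (A : ℝ) / 4 := by
          rw [hT]
          exact N2_mid k bR qR κ0 hD NR
  have h9 : (cc n (k + 2) : ℝ) * (CK K n * (H : ℝ) ^ 2) ≤ (A : ℝ) / 4 := by
    linarith
  linarith

private theorem N2_fin {e k E : ℕ} {A B q C2 C4 κ ND PD n2v P T : ℝ} (hA : 0 < A) (hB : 0 < B)
    (hq : 0 < q) (hC2 : 0 < C2) (hND : 0 < ND) (hPD : 0 < PD)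
    (hP : P = A * B ^ (k + 2) / (4 * q ^ (k + 2))) (hT : T = A * B ^ k / C2)
    (h : (P * T) ^ e * (PD / ND) * n2v ≤ κ ^ (e + 2) * (C4 * A ^ E)) :
    n2v ≤ κ ^ (e + 2) * C4 * (4 * q ^ (k + 2) * C2) ^ e * A ^ E *
      (B ^ 2 / (A * B ^ (k + 2)) ^ 2) ^ e * (ND / PD) := by
  have h1 : (P * T) ^ e * ((4 * q ^ (k + 2) * C2) ^ e * (B ^ 2 / (A * B ^ (k + 2)) ^ 2) ^ e) = 1 := by
    rw [← mul_pow, ← mul_pow]
    have h2 : P * T * (4 * q ^ (k + 2) * C2 * (B ^ 2 / (A * B ^ (k + 2)) ^ 2)) = 1 := by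
      rw [hP, hT]
      field_simp
      ring
    rw [h2, one_pow]
  have hPT : 0 < P * T := by
    rw [hP, hT]
    positivity
  have h3 : 0 ≤ ((4 * q ^ (k + 2) * C2) ^ e * (B ^ 2 / (A * B ^ (k + 2)) ^ 2) ^ e) * (ND / PD) := by
    positivity
  have h4 := mul_le_mul_of_nonneg_right h h3
  have h5 : (P * T) ^ e * (PD / ND) * n2v *
      (((4 * q ^ (k + 2) * C2) ^ e * (B ^ 2 / (A * B ^ (k + 2)) ^ 2) ^ e) * (ND / PD)) = n2v := by
    have h6 : PD / ND * (ND / PD) = 1 := by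
      field_simp
    calc (P * T) ^ e * (PD / ND) * n2v *
        (((4 * q ^ (k + 2) * C2) ^ e * (B ^ 2 / (A * B ^ (k + 2)) ^ 2) ^ e) * (ND / PD))
        = ((P * T) ^ e * ((4 * q ^ (k + 2) * C2) ^ e * (B ^ 2 / (A * B ^ (k + 2)) ^ 2) ^ e)) *
          (PD / ND * (ND / PD)) * n2v := by ring
      _ = n2v := by rw [h1, h6, one_mul, one_mul]
  rw [h5] at h4
  refine h4.trans (le_of_eq ?_)
  ring

theorem N2 (n d q : ℕ) (hd : 2 ≤ d) (hq : 1 ≤ q) : ∃ C : ℝ, 1 ≤ C ∧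
    ∀ (B H A : ℕ) (o : Fin (n + 1)), 1 ≤ B → C ≤ A → C * (H : ℝ) ^ 2 ≤ A →
    ∀ x ∈ GG K B H q o, ∀ y ∈ GG K B H q o, ¬ Prp x y →
    (n2 d x y A : ℝ) ≤ C * (A : ℝ) ^ (eK K * (n + 1) ^ d) *
      ((B : ℝ) ^ 2 / ((A : ℝ) * (B : ℝ) ^ d) ^ 2) ^ eK K * (nD x y / pn (Del o x y)) := by
  obtain ⟨k, rfl⟩ : ∃ k, d = k + 2 := ⟨d - 2, by omega⟩
  obtain ⟨C4, hC4, hbox⟩ := boxTwo K n (k + 2)
  have κ0 : 0 < CK K n := CK_pos K n
  have qR : (0 : ℝ) < (q : ℝ) := by exact_mod_cast hq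
  have NR : (0 : ℝ) < (n : ℝ) + 1 := by positivity
  obtain ⟨C2, hC2⟩ : ∃ C2 : ℝ, C2 = 8 * ((n : ℝ) + 1) ^ 2 * CK K n ^ 4 * (q : ℝ) ^ (k + 1) :=
    ⟨_, rfl⟩
  have hC2p : 0 < C2 := by
    rw [hC2]
    positivity
  obtain ⟨C5, hC5⟩ : ∃ C5 : ℝ,
      C5 = CK K n ^ (eK K + 2) * C4 * (4 * (q : ℝ) ^ (k + 2) * C2) ^ eK K := ⟨_, rfl⟩
  have hC5p : 0 ≤ C5 := by
    rw [hC5]
    have : 0 ≤ C4 := by linarith
    positivity
  obtain ⟨C6, hC6⟩ : ∃ C6 : ℝ, C6 = 4 * (q : ℝ) ^ (k + 2) := ⟨_, rfl⟩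
  have hC6p : 0 < C6 := by
    rw [hC6]
    positivity
  obtain ⟨C7, hC7⟩ : ∃ C7 : ℝ, C7 = 4 * (cc n (k + 2) : ℝ) * CK K n := ⟨_, rfl⟩
  have hC7p : 0 ≤ C7 := by
    rw [hC7]
    positivity
  refine ⟨C5 + C6 + C2 + C7 + 1, by linarith, ?_⟩
  intro B H A o hB hCA hCH x hx y hy hxy
  have bR : (0 : ℝ) < (B : ℝ) := by exact_mod_cast hB
  have b1 : (1 : ℝ) ≤ (B : ℝ) := by exact_mod_cast hB
  have AR : (1 : ℝ) ≤ (A : ℝ) := by linarith
  have hA1 : 1 ≤ A := by exact_mod_cast AR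
  obtain ⟨P, hP⟩ : ∃ P : ℝ, P = (A : ℝ) * (B : ℝ) ^ (k + 2) / (4 * (q : ℝ) ^ (k + 2)) := ⟨_, rfl⟩
  obtain ⟨T, hT⟩ : ∃ T : ℝ, T = (A : ℝ) * (B : ℝ) ^ k / C2 := ⟨_, rfl⟩
  have hP1 : 1 ≤ P := by
    rw [hP, le_div_iff₀ (by positivity), one_mul, ← hC6]
    have h1 : C6 ≤ (A : ℝ) := by linarith
    have h2 : (1 : ℝ) ≤ (B : ℝ) ^ (k + 2) := one_le_pow₀ b1
    calc C6 ≤ (A : ℝ) * 1 := by linarith
      _ ≤ (A : ℝ) * (B : ℝ) ^ (k + 2) := mul_le_mul_of_nonneg_left h2 (by linarith)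
  have hT1 : 1 ≤ T := by
    rw [hT, le_div_iff₀ hC2p, one_mul]
    have h1 : C2 ≤ (A : ℝ) := by linarith
    have h2 : (1 : ℝ) ≤ (B : ℝ) ^ k := one_le_pow₀ b1
    calc C2 ≤ (A : ℝ) * 1 := by linarith
      _ ≤ (A : ℝ) * (B : ℝ) ^ k := mul_le_mul_of_nonneg_left h2 (by linarith)
  obtain ⟨c, hc, hδ0, hδ⟩ := exists_bal (GG_ne hB hx) hxy
  obtain ⟨δ, hδdef⟩ : ∃ δ : 𝓞 K, δ = ∑ j, (c j : 𝓞 K) * mn x y o j := ⟨_, rfl⟩
  rw [← hδdef] at hδ0 hδ
  have hδI : δ ∈ Dd x y := by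
    rw [hδdef]
    exact Ideal.sum_mem _ fun j _ => Ideal.mul_mem_left _ _ (mn_mem_Dd x y o j)
  have hH : 4 * (cc n (k + 2) : ℝ) * CK K n * (H : ℝ) ^ 2 ≤ A := by
    rw [← hC7]
    refine le_trans (mul_le_mul_of_nonneg_right ?_ (by positivity)) hCH
    linarith
  have hpair : ∀ m' : 𝓞 K, ∃ S : Finset (𝓞 K), m' ∈ OBox K P →
      (∀ m ∈ S, ∃ a ∈ Box K n (k + 2) A, ev a x = m ∧ ev a y = m') ∧
      T ^ eK K * (pn (fun v : InfinitePlace K => v (δ : K)) / Ideal.absNorm (Dd x y)) ≤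
        CK K n * (S.card : ℝ) := by
    intro m'
    by_cases hm' : m' ∈ OBox K P
    · obtain ⟨S, h1, h2⟩ := N2_pairs (k := k) hB hq hx hy hxy hH hP (by rw [hT, hC2]) hT1 δ hδI hδ0
        (fun v => (hδ v).2) m' hm'
      exact ⟨S, fun _ => ⟨h1, h2⟩⟩
    · exact ⟨∅, fun h => absurd h hm'⟩
  choose S hS using hpair
  obtain ⟨U, hU⟩ : ∃ U : Finset (𝓞 K × 𝓞 K),
      U = ((OBox K P).sigma S).image (fun p => (p.2, p.1)) := ⟨_, rfl⟩
  have hUcard : (U.card : ℝ) = ∑ m' ∈ OBox K P, ((S m').card : ℝ) := by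
    rw [hU, Finset.card_image_of_injective, Finset.card_sigma]
    · push_cast
      rfl
    · rintro ⟨a, b⟩ ⟨a', b'⟩ h
      have h1 : b = b' := congrArg Prod.fst h
      have h2 : a = a' := congrArg Prod.snd h
      subst h1
      subst h2
      rfl
  have hUbox : ∀ v ∈ U, ∃ a ∈ Box K n (k + 2) A, ev a x = v.1 ∧ ev a y = v.2 := by
    intro v hv
    rw [hU, Finset.mem_image] at hv
    obtain ⟨⟨m', m⟩, hp, rfl⟩ := hv
    rw [Finset.mem_sigma] at hp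
    exact (hS m' hp.1).1 m hp.2
  have htr := trans2 (k + 2) U x y (A : ℝ) hUbox
  have htrR : (U.card : ℝ) * (n2 (k + 2) x y A : ℝ) ≤ C4 * (A : ℝ) ^ (eK K * (n + 1) ^ (k + 2)) := by
    refine le_trans ?_ (hbox A hA1)
    exact_mod_cast htr
  have hND : 0 < nD x y := lt_of_lt_of_le one_pos (one_le_nD hxy)
  have hPD : 0 < pn (Del o x y) := lt_of_lt_of_le one_pos (one_le_pn_Del (GG_ne hB hx) hxy)
  have hpd : pn (Del o x y) ≤ CK K n ^ eK K * pn (fun v : InfinitePlace K => v (δ : K)) := by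
    rw [← pn_const_mul]
    exact pn_mono (fun v => Del_nonneg o x y v) fun v => (hδ v).1
  have hδp : 0 ≤ pn (fun v : InfinitePlace K => v (δ : K)) := pn_nonneg fun v => v_nonneg v _
  have hlow : P ^ eK K * (T ^ eK K * (pn (fun v : InfinitePlace K => v (δ : K)) / nD x y)) ≤
      CK K n ^ 2 * (U.card : ℝ) := by
    have h1 := OBox_low K n hP1
    have h2 : ((OBox K P).card : ℝ) *
        (T ^ eK K * (pn (fun v : InfinitePlace K => v (δ : K)) / nD x y)) ≤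
        CK K n * (U.card : ℝ) := by
      rw [hUcard, Finset.mul_sum, ← nsmul_eq_mul, ← Finset.sum_const]
      exact Finset.sum_le_sum fun m' hm' => (hS m' hm').2
    have h3 : 0 ≤ T ^ eK K * (pn (fun v : InfinitePlace K => v (δ : K)) / nD x y) :=
      mul_nonneg (pow_nonneg (by linarith) _) (div_nonneg hδp hND.le)
    calc P ^ eK K * (T ^ eK K * (pn (fun v : InfinitePlace K => v (δ : K)) / nD x y))
        ≤ CK K n * ((OBox K P).card : ℝ) *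
          (T ^ eK K * (pn (fun v : InfinitePlace K => v (δ : K)) / nD x y)) :=
          mul_le_mul_of_nonneg_right h1 h3
      _ = CK K n * (((OBox K P).card : ℝ) *
          (T ^ eK K * (pn (fun v : InfinitePlace K => v (δ : K)) / nD x y))) := by ring
      _ ≤ CK K n * (CK K n * (U.card : ℝ)) := mul_le_mul_of_nonneg_left h2 κ0.le
      _ = CK K n ^ 2 * (U.card : ℝ) := by ring
  have hmain : (P * T) ^ eK K * (pn (Del o x y) / nD x y) * (n2 (k + 2) x y A : ℝ) ≤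
      CK K n ^ (eK K + 2) * (C4 * (A : ℝ) ^ (eK K * (n + 1) ^ (k + 2))) := by
    have hPT : 0 ≤ (P * T) ^ eK K := by
      have : 0 ≤ P * T := by
        have h1 : 0 ≤ P := by linarith
        have h2 : 0 ≤ T := by linarith
        exact mul_nonneg h1 h2
      exact pow_nonneg this _
    have h1 : (P * T) ^ eK K * (pn (Del o x y) / nD x y) ≤ CK K n ^ (eK K + 2) * (U.card : ℝ) := by
      calc (P * T) ^ eK K * (pn (Del o x y) / nD x y)
          ≤ (P * T) ^ eK K *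
            ((CK K n ^ eK K * pn (fun v : InfinitePlace K => v (δ : K))) / nD x y) :=
            mul_le_mul_of_nonneg_left (div_le_div_of_nonneg_right hpd hND.le) hPT
        _ = CK K n ^ eK K *
            (P ^ eK K * (T ^ eK K * (pn (fun v : InfinitePlace K => v (δ : K)) / nD x y))) := by
            rw [mul_pow]
            ring
        _ ≤ CK K n ^ eK K * (CK K n ^ 2 * (U.card : ℝ)) :=
            mul_le_mul_of_nonneg_left hlow (by positivity)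
        _ = CK K n ^ (eK K + 2) * (U.card : ℝ) := by
            rw [pow_add]
            ring
    calc (P * T) ^ eK K * (pn (Del o x y) / nD x y) * (n2 (k + 2) x y A : ℝ)
        ≤ CK K n ^ (eK K + 2) * (U.card : ℝ) * (n2 (k + 2) x y A : ℝ) :=
          mul_le_mul_of_nonneg_right h1 (Nat.cast_nonneg _)
      _ = CK K n ^ (eK K + 2) * ((U.card : ℝ) * (n2 (k + 2) x y A : ℝ)) := by ring
      _ ≤ CK K n ^ (eK K + 2) * (C4 * (A : ℝ) ^ (eK K * (n + 1) ^ (k + 2))) :=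
          mul_le_mul_of_nonneg_left htrR (by positivity)
  have hres := N2_fin (by linarith : (0 : ℝ) < A) bR qR hC2p hND hPD hP hT hmain
  refine hres.trans ?_
  rw [← hC5]
  have h1 : C5 ≤ C5 + C6 + C2 + C7 + 1 := by linarith
  have hA0 : (0 : ℝ) ≤ A := by linarith
  gcongr

end Pool.Agent.Lib.MP_1ad228_ntN
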