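import Pool.Agent.Lib.MP_1ad228_ntN.N1
import Pool.Agent.Lib.MP_1ad228_ntN.N2

/-!
JOB NP.  Products of the bounds N1 and N2 over the degrees.  (Model: Lib/MP_1ad228_ntF/NP.lean)

PROOF.  For every `i` let `C i` be the constant of `N1` (`N2`) for the degree `d i` (`choose`); `C = ∏ i, C i` is at least
every `C i` (all are `≥ 1`; for `r = 0` everything is trivial, `C = 1`). `Finset.prod_le_prod`,
`Finset.prod_mul_distrib`, `Finset.prod_pow_eq_pow_sum`, `Finset.prod_const`, `Finset.card_univ`, `Fintype.card_fin`.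
`(A B^(d i))^e` multiplies to `(A^r B^(∑ d))^e`, and `∏ i, A^(e (n+1)^(d i)) = A^(e * VV n d)`.
-/

namespace Pool.Agent.Lib.MP_1ad228_ntN

open NumberField Classical
open Pool.Agent.Lib.MP_219881_nt (mn)

set_option linter.unusedSectionVars false

variable {K : Type} [Field K] [NumberField K]

private theorem NP_one {r : ℕ} (f : Fin r → ℝ) (hf : ∀ i, 1 ≤ f i) (s : Finset (Fin r)) :
    1 ≤ ∏ j ∈ s, f j := by
  have h := Finset.prod_le_prod (s := s) (f := fun _ => (1 : ℝ)) (g := f) (fun _ _ => zero_le_one)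
    fun i _ => hf i
  rwa [Finset.prod_const_one] at h

private theorem NP_le {r : ℕ} (f : Fin r → ℝ) (hf : ∀ i, 1 ≤ f i) (i : Fin r) : f i ≤ ∏ j, f j := by
  rw [← Finset.mul_prod_erase Finset.univ f (Finset.mem_univ i)]
  exact le_mul_of_one_le_right (zero_le_one.trans (hf i)) (NP_one f hf _)

private theorem NP_pow (A B : ℝ) {r : ℕ} (d : Fin r → ℕ) :
    ∏ i, (A * B ^ d i) = A ^ r * B ^ (∑ i, d i) := by
  rw [Finset.prod_mul_distrib, Finset.prod_const, Finset.card_univ, Fintype.card_fin,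
    Finset.prod_pow_eq_pow_sum]

private theorem NP_VV (A : ℝ) (e n : ℕ) {r : ℕ} (d : Fin r → ℕ) :
    ∏ i, A ^ (e * (n + 1) ^ d i) = A ^ (e * VV n d) := by
  rw [Finset.prod_pow_eq_pow_sum, ← Finset.mul_sum]
  rfl

theorem NP1 (n : ℕ) {r : ℕ} (d : Fin r → ℕ) (q : ℕ) (hq : 1 ≤ q) : ∃ C : ℝ, 1 ≤ C ∧
    ∀ (B H A : ℕ) (o : Fin (n + 1)), 1 ≤ B → 1 ≤ A → C * H ≤ A → ∀ x ∈ GG K B H q o,
    ∏ i, (n1 (d i) x A : ℝ) ≤ C * (A : ℝ) ^ (eK K * VV n d) /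
      ((A : ℝ) ^ r * (B : ℝ) ^ (∑ i, d i)) ^ eK K := by
  choose C hC1 hC using fun i => N1 (K := K) n (d i) q hq
  refine ⟨∏ i, C i, NP_one C hC1 _, ?_⟩
  intro B H A o hB hA hCA x hx
  have h1 : ∀ i, C i * H ≤ A := fun i =>
    (mul_le_mul_of_nonneg_right (NP_le C hC1 i) (Nat.cast_nonneg H)).trans hCA
  have h2 : ∏ i, (n1 (d i) x A : ℝ) ≤
      ∏ i, (C i * (A : ℝ) ^ (eK K * (n + 1) ^ d i) / ((A : ℝ) * (B : ℝ) ^ d i) ^ eK K) :=
    Finset.prod_le_prod (fun _ _ => Nat.cast_nonneg _) fun i _ => hC i B H A o hB hA (h1 i) x hx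
  refine h2.trans (le_of_eq ?_)
  rw [Finset.prod_div_distrib, Finset.prod_mul_distrib, Finset.prod_pow, NP_pow, NP_VV]

theorem NP2 (n : ℕ) {r : ℕ} (d : Fin r → ℕ) (hd : ∀ i, 2 ≤ d i) (q : ℕ) (hq : 1 ≤ q) :
    ∃ C : ℝ, 1 ≤ C ∧
    ∀ (B H A : ℕ) (o : Fin (n + 1)), 1 ≤ B → C ≤ A → C * (H : ℝ) ^ 2 ≤ A →
    ∀ x ∈ GG K B H q o, ∀ y ∈ GG K B H q o, ¬ Prp x y →
    ∏ i, (n2 (d i) x y A : ℝ) ≤ C * (A : ℝ) ^ (eK K * VV n d) *
      ((B : ℝ) ^ (2 * r) / ((A : ℝ) ^ r * (B : ℝ) ^ (∑ i, d i)) ^ 2) ^ eK K *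
      (nD x y / pn (Del o x y)) ^ r := by
  choose C hC1 hC using fun i => N2 (K := K) n (d i) q (hd i) hq
  refine ⟨∏ i, C i, NP_one C hC1 _, ?_⟩
  intro B H A o hB hA hCA x hx y hy hxy
  have h1 : ∀ i, C i ≤ A := fun i => (NP_le C hC1 i).trans hA
  have h1' : ∀ i, C i * (H : ℝ) ^ 2 ≤ A := fun i =>
    (mul_le_mul_of_nonneg_right (NP_le C hC1 i) (by positivity)).trans hCA
  have h2 : ∏ i, (n2 (d i) x y A : ℝ) ≤
      ∏ i, (C i * (A : ℝ) ^ (eK K * (n + 1) ^ d i) *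
        ((B : ℝ) ^ 2 / ((A : ℝ) * (B : ℝ) ^ d i) ^ 2) ^ eK K * (nD x y / pn (Del o x y))) :=
    Finset.prod_le_prod (fun _ _ => Nat.cast_nonneg _)
      fun i _ => hC i B H A o hB (h1 i) (h1' i) x hx y hy hxy
  refine h2.trans (le_of_eq ?_)
  rw [Finset.prod_mul_distrib, Finset.prod_mul_distrib, Finset.prod_mul_distrib, Finset.prod_pow,
    Finset.prod_div_distrib, Finset.prod_pow, Finset.prod_pow, NP_pow, NP_VV, Finset.prod_const,
    Finset.prod_const, Finset.card_univ, Fintype.card_fin, ← pow_mul, mul_comm r 2]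

end Pool.Agent.Lib.MP_1ad228_ntN
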