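import Pool.Agent.Lib.MP_1ad228_ntN.B_N2K
import Pool.Agent.Lib.MP_1ad228_ntN.PairSum
import Pool.Agent.Lib.MP_1ad228_ntN.NP
import Pool.Agent.Lib.MP_1ad228_ntN.EEle

/-!
JOB B_TotK.  The second moment without local terms in the borderline case. (Model: PairTot.lean of this folder, with `N2B` for `NP2`; the constant may depend on `lam`.)

PROOF.  As in PairTot.lean with `d = fun _ : Fin r => 2`: `∑ i, d i = 2 r`, `∏ i, n2 2 x y A = (n2 2 x y A)^r` (`Finset.prod_const`, `Finset.sum_const`, `Finset.card_univ`, `Fintype.card_fin`). `Prp`: `n2_le_n1`, `NP1` (`C0 H ≤ A`), `card_Prp`.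
`¬ Prp`: `N2B`, `psAll`. `C0` = the maximum of the constants `C0` of `N2B` and of `NP1`.
-/

namespace Pool.Agent.Lib.MP_1ad228_ntN

open NumberField Classical

set_option linter.unusedSectionVars false

variable {K : Type} [Field K] [NumberField K]

private theorem B_TotK_sum (r : ℕ) : ∑ _i : Fin r, 2 = 2 * r := by
  rw [Finset.sum_const, Finset.card_univ, Fintype.card_fin, smul_eq_mul, mul_comm]

private theorem B_TotK_pow1 (b : ℝ) (e m : ℕ) : b ^ (e * m) = (b ^ m) ^ e := by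
  rw [mul_comm, pow_mul]

private theorem B_TotK_pow2 (b : ℝ) (e : ℕ) : (b ^ e) ^ 2 = (b ^ 2) ^ e := by
  rw [← pow_mul, ← pow_mul, mul_comm]

private theorem B_TotK_id1 {b p a : ℝ} (hp : 0 < p) (ha : 0 < a) :
    b * (p / a ^ 2 * (b / p)) = (b / a) ^ 2 := by
  field_simp

private theorem B_TotK_id2 {B h a : ℝ} {n r : ℕ} (hB : 0 < B) (ha : 0 < a) :
    B ^ (n + 1) * (B ^ (2 * r) / a ^ 2 * (h * (B / B ^ r))) =
      (B ^ (n + 1) / a) ^ 2 * (h * B ^ r / B ^ n) := by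
  have h1 : B ^ (2 * r) = (B ^ r) ^ 2 := by rw [← pow_mul, mul_comm 2 r]
  have h2 : 0 < B ^ r := by positivity
  have h3 : 0 < B ^ n := by positivity
  rw [h1, pow_succ B n]
  generalize B ^ r = u at h2 ⊢
  generalize B ^ n = w at h3 ⊢
  field_simp

variable (K) in
theorem pairTotB {r : ℕ} (n : ℕ) (hn : r + 2 ≤ n) (q : ℕ) (hq : 1 ≤ q) :
    ∃ C0 : ℝ, 1 ≤ C0 ∧ ∀ lam : ℕ, 1 ≤ lam → ∃ C : ℝ, 1 ≤ C ∧
    ∀ (o : Fin (n + 1)) (B H A : ℕ), 1 ≤ B → 1 ≤ H → C0 ≤ A → C0 * H ≤ A →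
    C0 * (H : ℝ) ^ 2 ≤ (lam : ℝ) * A →
    ∑ x ∈ GG K B H q o, ∑ y ∈ GG K B H q o, (n2 2 x y A : ℝ) ^ r ≤
      C * (A : ℝ) ^ (eK K * VV n (fun _ : Fin r => 2)) *
        (((B : ℝ) ^ (n + 1) / ((A : ℝ) ^ r * (B : ℝ) ^ (2 * r))) ^ eK K
        + (((B : ℝ) ^ (n + 1) / ((A : ℝ) ^ r * (B : ℝ) ^ (2 * r))) ^ eK K) ^ 2 *
            (1 + ((Nat.log 2 B : ℝ) + 2) ^ eK K *
              ((H : ℝ) ^ (n + 1 + r) * (B : ℝ) ^ r / (B : ℝ) ^ n) ^ eK K)) := by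
  obtain ⟨C0, hC0, h0⟩ := psAll (K := K) n r q hn hq
  obtain ⟨C1, hC1, h1⟩ := NP1 (K := K) n (fun _ : Fin r => 2) q hq
  obtain ⟨D0, hD0, hD⟩ := N2B K n r q hq
  have hCK := CK_pos K n
  have c0 : (0 : ℝ) < C0 := by linarith
  have c1 : (0 : ℝ) < C1 := by linarith
  have d0 : (0 : ℝ) < D0 := by linarith
  refine ⟨C1 + D0, by linarith, ?_⟩
  intro lam hlam
  obtain ⟨C2, hC2, h2⟩ := hD lam hlam
  have c2 : (0 : ℝ) < C2 := by linarith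
  have hK1 : 0 ≤ CK K n ^ (n + 1) * (CK K n * (q : ℝ) ^ eK K * C1) := by positivity
  have hK2 : 0 ≤ CK K n ^ (n + 1) * (C2 * C0) := by positivity
  refine ⟨C1 + C2 + CK K n ^ (n + 1) * (CK K n * (q : ℝ) ^ eK K * C1) +
    CK K n ^ (n + 1) * (C2 * C0), by linarith, ?_⟩
  intro o B H A hB hH hCA hAH hA
  have hB0 : (0 : ℝ) < B := by exact_mod_cast hB
  have hH1 : (1 : ℝ) ≤ H := by exact_mod_cast hH
  have a1 : C1 * (H : ℝ) ≤ A :=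
    le_trans (mul_le_mul_of_nonneg_right (by linarith) (by positivity)) hAH
  have a2 : D0 * (H : ℝ) ^ 2 ≤ (lam : ℝ) * A :=
    le_trans (mul_le_mul_of_nonneg_right (by linarith) (by positivity)) hA
  have a3 : D0 ≤ A := le_trans (by linarith) hCA
  have a4 : 1 ≤ A := by
    have h3 : (1 : ℝ) ≤ A := hD0.trans a3
    exact_mod_cast h3
  have hA0 : (0 : ℝ) < A := by exact_mod_cast a4
  have row : ∀ x ∈ GG K B H q o, ∑ y ∈ GG K B H q o, (n2 2 x y A : ℝ) ^ r ≤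
      CK K n * (q : ℝ) ^ eK K * (C1 * (A : ℝ) ^ (eK K * VV n (fun _ : Fin r => 2)) /
        ((A : ℝ) ^ r * (B : ℝ) ^ (2 * r)) ^ eK K) +
      C2 * (A : ℝ) ^ (eK K * VV n (fun _ : Fin r => 2)) *
        ((B : ℝ) ^ (2 * r) / ((A : ℝ) ^ r * (B : ℝ) ^ (2 * r)) ^ 2) ^ eK K *
        (C0 * (((B : ℝ) ^ (n + 1) / (B : ℝ) ^ (2 * r)) ^ eK K
        + ((Nat.log 2 B : ℝ) + 2) ^ eK K *
          ((H : ℝ) ^ (n + 1 + r) * ((B : ℝ) / (B : ℝ) ^ r)) ^ eK K)) := by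
    intro x hx
    rw [← Finset.sum_filter_add_sum_filter_not (GG K B H q o) (fun y => Prp x y)]
    refine add_le_add ?_ ?_
    · have h3 : ∀ y ∈ (GG K B H q o).filter (fun y => Prp x y), (n2 2 x y A : ℝ) ^ r ≤
          C1 * (A : ℝ) ^ (eK K * VV n (fun _ : Fin r => 2)) /
            ((A : ℝ) ^ r * (B : ℝ) ^ (2 * r)) ^ eK K := by
        intro y hy
        have h4 := h1 B H A o hB a4 a1 x hx
        rw [B_TotK_sum, Finset.prod_const, Finset.card_univ, Fintype.card_fin] at h4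
        refine (pow_le_pow_left₀ (Nat.cast_nonneg _) ?_ r).trans h4
        exact_mod_cast n2_le_n1 2 x y A
      refine (Finset.sum_le_card_nsmul _ _ _ h3).trans ?_
      rw [nsmul_eq_mul]
      exact mul_le_mul_of_nonneg_right (card_Prp hB hx) (by positivity)
    · calc ∑ y ∈ (GG K B H q o).filter (fun y => ¬ Prp x y), (n2 2 x y A : ℝ) ^ r
          ≤ ∑ y ∈ (GG K B H q o).filter (fun y => ¬ Prp x y),
            C2 * (A : ℝ) ^ (eK K * VV n (fun _ : Fin r => 2)) *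
            ((B : ℝ) ^ (2 * r) / ((A : ℝ) ^ r * (B : ℝ) ^ (2 * r)) ^ 2) ^ eK K *
            (nD x y / pn (Del o x y)) ^ r :=
            Finset.sum_le_sum fun y hy => h2 B H A o hB a3 a2 x hx y (Finset.mem_filter.1 hy).1
              (Finset.mem_filter.1 hy).2
        _ = C2 * (A : ℝ) ^ (eK K * VV n (fun _ : Fin r => 2)) *
            ((B : ℝ) ^ (2 * r) / ((A : ℝ) ^ r * (B : ℝ) ^ (2 * r)) ^ 2) ^ eK K *
            ∑ y ∈ (GG K B H q o).filter (fun y => ¬ Prp x y), (nD x y / pn (Del o x y)) ^ r := by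
            rw [Finset.mul_sum]
        _ ≤ _ := mul_le_mul_of_nonneg_left (h0 B H o hB hH x hx) (by positivity)
  have h3 := Finset.sum_le_card_nsmul _ _ _ row
  rw [nsmul_eq_mul] at h3
  refine (h3.trans (mul_le_mul_of_nonneg_right (card_GG_le K n H q o hB) (by positivity))).trans ?_
  have hX : (0 : ℝ) < (A : ℝ) ^ (eK K * VV n (fun _ : Fin r => 2)) := by positivity
  generalize (A : ℝ) ^ (eK K * VV n (fun _ : Fin r => 2)) = X at hX ⊢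
  have hL : (0 : ℝ) ≤ ((Nat.log 2 B : ℝ) + 2) ^ eK K := by positivity
  generalize ((Nat.log 2 B : ℝ) + 2) ^ eK K = L at hL ⊢
  have g1 : (B : ℝ) ^ (eK K * (n + 1)) * (1 / ((A : ℝ) ^ r * (B : ℝ) ^ (2 * r)) ^ eK K) =
      ((B : ℝ) ^ (n + 1) / ((A : ℝ) ^ r * (B : ℝ) ^ (2 * r))) ^ eK K := by
    rw [B_TotK_pow1, mul_one_div, ← div_pow]
  have g2 : (B : ℝ) ^ (eK K * (n + 1)) *
      (((B : ℝ) ^ (2 * r) / ((A : ℝ) ^ r * (B : ℝ) ^ (2 * r)) ^ 2) ^ eK K *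
      ((B : ℝ) ^ (n + 1) / (B : ℝ) ^ (2 * r)) ^ eK K) =
      (((B : ℝ) ^ (n + 1) / ((A : ℝ) ^ r * (B : ℝ) ^ (2 * r))) ^ eK K) ^ 2 := by
    rw [B_TotK_pow1, B_TotK_pow2, ← mul_pow, ← mul_pow]
    refine congrArg (· ^ eK K) ?_
    exact B_TotK_id1 (by positivity) (by positivity)
  have g3 : (B : ℝ) ^ (eK K * (n + 1)) *
      (((B : ℝ) ^ (2 * r) / ((A : ℝ) ^ r * (B : ℝ) ^ (2 * r)) ^ 2) ^ eK K *
      ((H : ℝ) ^ (n + 1 + r) * ((B : ℝ) / (B : ℝ) ^ r)) ^ eK K) =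
      (((B : ℝ) ^ (n + 1) / ((A : ℝ) ^ r * (B : ℝ) ^ (2 * r))) ^ eK K) ^ 2 *
        ((H : ℝ) ^ (n + 1 + r) * (B : ℝ) ^ r / (B : ℝ) ^ n) ^ eK K := by
    rw [B_TotK_pow1, B_TotK_pow2, ← mul_pow, ← mul_pow, ← mul_pow]
    refine congrArg (· ^ eK K) ?_
    exact B_TotK_id2 hB0 (by positivity)
  have hE : 0 ≤ ((B : ℝ) ^ (n + 1) / ((A : ℝ) ^ r * (B : ℝ) ^ (2 * r))) ^ eK K := by positivity
  have hS : 0 ≤ ((H : ℝ) ^ (n + 1 + r) * (B : ℝ) ^ r / (B : ℝ) ^ n) ^ eK K := by positivity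
  have hQ : (0 : ℝ) ≤ (q : ℝ) ^ eK K := by positivity
  generalize ((B : ℝ) ^ (n + 1) / ((A : ℝ) ^ r * (B : ℝ) ^ (2 * r))) ^ eK K = E at g1 g2 g3 hE ⊢
  generalize ((H : ℝ) ^ (n + 1 + r) * (B : ℝ) ^ r / (B : ℝ) ^ n) ^ eK K = S at g3 hS ⊢
  generalize ((H : ℝ) ^ (n + 1 + r) * ((B : ℝ) / (B : ℝ) ^ r)) ^ eK K = R at g3 ⊢
  generalize ((B : ℝ) ^ (n + 1) / (B : ℝ) ^ (2 * r)) ^ eK K = P at g2 ⊢
  generalize ((B : ℝ) ^ (2 * r) / ((A : ℝ) ^ r * (B : ℝ) ^ (2 * r)) ^ 2) ^ eK K = T at g2 g3 ⊢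
  generalize ((A : ℝ) ^ r * (B : ℝ) ^ (2 * r)) ^ eK K = U at g1 ⊢
  generalize (B : ℝ) ^ (eK K * (n + 1)) = Y at g1 g2 g3 ⊢
  generalize (q : ℝ) ^ eK K = Q at hK1 hQ ⊢
  generalize CK K n ^ (n + 1) = c3 at hK1 hK2 ⊢
  generalize CK K n = c4 at hK1 hCK ⊢
  have e1 : c3 * Y * (c4 * Q * (C1 * X / U) + C2 * X * T * (C0 * (P + L * R))) =
      X * (c3 * (c4 * Q * C1) * (Y * (1 / U)) + c3 * (C2 * C0) * (Y * (T * P) + L * (Y * (T * R)))) := by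
    rw [mul_div_assoc C1, div_eq_mul_one_div X]
    ring
  rw [e1, g1, g2, g3]
  have e2 : (C1 + C2 + c3 * (c4 * Q * C1) + c3 * (C2 * C0)) * X * (E + E ^ 2 * (1 + L * S)) =
      X * (c3 * (c4 * Q * C1) * E + c3 * (C2 * C0) * (E ^ 2 + L * (E ^ 2 * S))) +
      X * ((C1 + C2) * (E + E ^ 2 * (1 + L * S)) + c3 * (c4 * Q * C1) * (E ^ 2 * (1 + L * S)) +
        c3 * (C2 * C0) * E) := by ring
  rw [e2]
  have e3 : 0 ≤ X * ((C1 + C2) * (E + E ^ 2 * (1 + L * S)) +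
      c3 * (c4 * Q * C1) * (E ^ 2 * (1 + L * S)) + c3 * (C2 * C0) * E) := by
    have f1 : 0 ≤ E ^ 2 * (1 + L * S) := by positivity
    have f2 := mul_nonneg hK1 f1
    have f3 := mul_nonneg hK2 hE
    have f4 : 0 ≤ (C1 + C2) * (E + E ^ 2 * (1 + L * S)) := by positivity
    exact mul_nonneg hX.le (by linarith)
  linarith

end Pool.Agent.Lib.MP_1ad228_ntN
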