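import Pool.Agent.Lib.MP_1ad228_ntN.B_GoodK
import Pool.Agent.Lib.MP_1ad228_ntN.B_ExcK
import Pool.Agent.Lib.MP_1ad228_ntN.B_N2K
import Pool.Agent.Lib.MP_1ad228_ntN.B_Exp
import Pool.Agent.Lib.MP_1ad228_ntN.PairSum
import Pool.Agent.Lib.MP_1ad228_ntN.NP

/-!
JOB B_VarK.  The variance in the borderline case. (Models: VarTot.lean of this folder and Lib/MP_1ad228_ntF/B_Var.lean.)

PROOF.  `d = fun _ : Fin r => 2`, `∑ d = 2 r`, `∏ i, n2 (d i) x y A = (n2 2 x y A)^r`, `e = eK K`, `E = (B^(n+1)/(A^r B^(2r)))^e`. For every `x ∈ GG K B H q o` choose a basis `fb x` from `GG_good` (`HGood`), `fb x = 0` otherwise. `expandB`: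
`QvB = ∑_x ∑_y EEB x y`. Split the pairs into four classes:
(1) `Prp x y`: `EEleB`, `n2_le_n1`, `NP1` (`C1 H ≤ A`), `card_Prp`; sum over `x` (`card_GG_le`): `C1 A^(e VV) E` with `C1` depending on `n, r, q` only.
(2) `¬ Prp`, `¬ (W ∈ Dd ∧ ∀ v, B^2 ≤ T^2 Del_v)`: `EEleB`, `N2B`, `psBad` (with `k = T^2`, `1/T^2 ≤ 1/T`).
(3) `¬ Prp`, `W ∈ Dd`, `∀ v, B^2 ≤ T^2 Del_v`, not exceptional (`¬ ExcP T' (fb x) (fb y)`): `EEgoodB`, `N2B`, `psAll`; total `(C/T) * ... * (1 + lg (..)^e)` and `1/T ≤ 1`.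
(4) `¬ Prp`, `W ∈ Dd`, `∀ v, B^2 ≤ T^2 Del_v`, exceptional: `EEleB`, `N2B`, and `(nD/pn Del)^r ≤ ((W T^2/B^2)^e)^r`: `nD ≤ W^e` (`W ∈ Dd`: `absNorm_le_pn`, `v_natCast`, `pn_const`; `W ≥ 1`), `pn Del ≥ (B^2/T^2)^e` (`pn_mono`, `pn_const`); the number of such
pairs is at most `C3 (H^(2n(n+1)-1))^e` (`excCount`, `n ≥ 3`). The contribution is at most
`C2' A^(e VV) (B^(2r)/(A^r B^(2r))^2)^e ((W T^2)^r/B^(2r))^e C3 (H^(2n(n+1)-1))^e = C2' A^(e VV) E^2 C3 ((W T^2)^r H^(2n(n+1)-1)/B^(2(n+1)))^e`.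
Order of the constants: `C1` (from `N2B`, `NP1`, `EEleB`, `EEgoodB`, `card_GG_le`, `card_Prp`; maximum) before `lam`; `C2` after `lam`; `C3` after `T'`.
-/

namespace Pool.Agent.Lib.MP_1ad228_ntN

open NumberField Classical

set_option linter.unusedSectionVars false

variable {K : Type} [Field K] [NumberField K]

open Pool.Agent.Lib.MP_219881_nt (mn)

private theorem B_VarK_row {ι : Type} (G : Finset ι) (p g ex : ι → Prop) (F rr : ι → ℝ)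
    (CQ Kd Kg Kb ρ : ℝ) (hKd : 0 ≤ Kd) (hKg : 0 ≤ Kg) (hKb : 0 ≤ Kb) (hρ : 0 ≤ ρ)
    (hrr : ∀ y, 0 ≤ rr y) (hp : ∀ y ∈ G, p y → F y ≤ Kd)
    (hgood : ∀ y ∈ G, ¬ p y → g y → ¬ ex y → F y ≤ Kg * rr y)
    (hbad : ∀ y ∈ G, ¬ p y → ¬ g y → F y ≤ Kb * rr y)
    (hexc : ∀ y ∈ G, ¬ p y → g y → ex y → F y ≤ Kb * ρ)
    (hcard : ((G.filter fun y => p y).card : ℝ) ≤ CQ) :
    ∑ y ∈ G, F y ≤ CQ * Kd + Kg * ∑ y ∈ G.filter (fun y => ¬ p y), rr y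
      + Kb * ∑ y ∈ G.filter (fun y => ¬ p y ∧ ¬ g y), rr y
      + Kb * (ρ * ((G.filter fun y => ex y).card : ℝ)) := by
  have h1 : ∀ y ∈ G, F y ≤ (if p y then Kd else 0) + Kg * (if ¬ p y then rr y else 0)
      + Kb * (if ¬ p y ∧ ¬ g y then rr y else 0) + Kb * (if ex y then ρ else 0) := by
    intro y hy
    have hz : 0 ≤ Kb * (if ex y then ρ else 0) := by
      refine mul_nonneg hKb ?_
      split_ifs
      · exact hρ
      · exact le_refl _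
    by_cases hpy : p y
    · rw [if_pos hpy, if_neg (not_not.2 hpy), if_neg (fun h => h.1 hpy), mul_zero, mul_zero,
        add_zero, add_zero]
      have := hp y hy hpy
      linarith
    · rw [if_neg hpy, if_pos hpy]
      have hrg : 0 ≤ Kg * rr y := mul_nonneg hKg (hrr y)
      by_cases hgy : g y
      · rw [if_neg (fun h => h.2 hgy), mul_zero]
        by_cases hey : ex y
        · rw [if_pos hey]
          have := hexc y hy hpy hgy hey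
          linarith
        · rw [if_neg hey]
          have := hgood y hy hpy hgy hey
          linarith
      · rw [if_pos ⟨hpy, hgy⟩]
        have := hbad y hy hpy hgy
        linarith
  refine (Finset.sum_le_sum h1).trans ?_
  rw [Finset.sum_add_distrib, Finset.sum_add_distrib, Finset.sum_add_distrib, ← Finset.mul_sum,
    ← Finset.mul_sum, ← Finset.mul_sum, ← Finset.sum_filter, ← Finset.sum_filter, ← Finset.sum_filter,
    ← Finset.sum_filter, Finset.sum_const, Finset.sum_const, nsmul_eq_mul, nsmul_eq_mul,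
    mul_comm _ ρ]
  have h2 := mul_le_mul_of_nonneg_right hcard hKd
  linarith

private theorem B_VarK_alg (T s s' E X P Z U L Lh A0 CKn CKq CE C1 C2 Ca Cb Cg ρ Cd z CT : ℝ)
    (hT : 1 ≤ T) (hs : 1 / T ≤ s) (hss : s' ≤ s) (hs'0 : 0 ≤ s') (hE : 0 ≤ E) (hLh : 0 ≤ Lh)
    (hz : 0 ≤ z) (hA0 : 0 ≤ A0) (hCKn : 0 ≤ CKn)
    (hCE : 0 ≤ CE) (hC2 : 0 ≤ C2) (hCa : 0 ≤ Ca) (hCb : 0 ≤ Cb)
    (hCg : 0 ≤ Cg) (e1 : X * (1 / P) = E) (e2 : X * (Z * U) = E ^ 2)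
    (e3 : X * (Z * L) = E ^ 2 * Lh) (e5 : Z * (ρ * Cd) = E ^ 2 * z)
    (hCT : CKn * (CKq * CE * C1) ≤ CT) :
    CKn * X * (CKq * (CE * (C1 * A0 / P)) + Cg / T * (C2 * A0 * Z) * (Ca * (U + L))
      + CE * (C2 * A0 * Z) * (Cb * (U * s' + L))) + CE * (C2 * A0 * Z) * (ρ * Cd) ≤
      CT * A0 * E + (CKn * (Cg * C2 * Ca) + CKn * (CE * C2 * Cb) + CE * C2) * A0 * E ^ 2 *
        (s + Lh + z) := by
  have hT0 : 0 < T := by linarith
  have hT1 : 1 / T ≤ 1 := by rw [div_le_one hT0]; exact hT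
  have hT2 : 0 ≤ 1 / T := by positivity
  have hs0 : 0 ≤ s := hT2.trans hs
  have e4 : CKn * X * (CKq * (CE * (C1 * A0 / P)) + Cg / T * (C2 * A0 * Z) * (Ca * (U + L))
      + CE * (C2 * A0 * Z) * (Cb * (U * s' + L))) + CE * (C2 * A0 * Z) * (ρ * Cd) =
      A0 * (CKn * (CKq * CE * C1) * (X * (1 / P))
        + CKn * (Cg * C2 * Ca) * (1 / T * (X * (Z * U) + X * (Z * L)))
        + CKn * (CE * C2 * Cb) * (X * (Z * U) * s' + X * (Z * L)) + CE * C2 * (Z * (ρ * Cd))) := by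
    ring
  rw [e4, e1, e2, e3, e5]
  have hE2 : 0 ≤ E ^ 2 := sq_nonneg _
  have f1 : CKn * (CKq * CE * C1) * E ≤ CT * E := mul_le_mul_of_nonneg_right hCT hE
  have f2 : 1 / T * (E ^ 2 + E ^ 2 * Lh) ≤ E ^ 2 * (s + Lh + z) := by
    have g2 : 1 / T * Lh ≤ 1 * Lh := mul_le_mul_of_nonneg_right hT1 hLh
    have g1 : 1 / T * (E ^ 2 + E ^ 2 * Lh) = E ^ 2 * (1 / T + 1 / T * Lh) := by ring
    rw [g1]
    exact mul_le_mul_of_nonneg_left (by linarith) hE2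
  have f3 : E ^ 2 * s' + E ^ 2 * Lh ≤ E ^ 2 * (s + Lh + z) := by
    have g1 : E ^ 2 * s' + E ^ 2 * Lh = E ^ 2 * (s' + Lh) := by ring
    rw [g1]
    exact mul_le_mul_of_nonneg_left (by linarith) hE2
  have f4 : E ^ 2 * z ≤ E ^ 2 * (s + Lh + z) := mul_le_mul_of_nonneg_left (by linarith) hE2
  have m2 := mul_le_mul_of_nonneg_left f2 (show 0 ≤ CKn * (Cg * C2 * Ca) by positivity)
  have m3 := mul_le_mul_of_nonneg_left f3 (show 0 ≤ CKn * (CE * C2 * Cb) by positivity)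
  have m4 := mul_le_mul_of_nonneg_left f4 (show 0 ≤ CE * C2 by positivity)
  calc A0 * (CKn * (CKq * CE * C1) * E + CKn * (Cg * C2 * Ca) * (1 / T * (E ^ 2 + E ^ 2 * Lh))
        + CKn * (CE * C2 * Cb) * (E ^ 2 * s' + E ^ 2 * Lh) + CE * C2 * (E ^ 2 * z))
      ≤ A0 * (CT * E + CKn * (Cg * C2 * Ca) * (E ^ 2 * (s + Lh + z))
        + CKn * (CE * C2 * Cb) * (E ^ 2 * (s + Lh + z)) + CE * C2 * (E ^ 2 * (s + Lh + z))) :=
        mul_le_mul_of_nonneg_left (by linarith) hA0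
    _ = _ := by ring

private theorem B_VarK_id (B A : ℝ) (hB : 0 < B) (hA : 0 < A) (n r : ℕ) (X1 P1 : ℝ)
    (hX : X1 = B ^ (n + 1)) (hP : P1 = A ^ r * B ^ (2 * r)) : X1 * (1 / P1) = X1 / P1 ∧
    X1 * ((B ^ (2 * r) / P1 ^ 2) * (X1 / B ^ (2 * r))) = (X1 / P1) ^ 2 ∧
    (∀ h : ℝ, X1 * ((B ^ (2 * r) / P1 ^ 2) * (h * (B / B ^ r))) =
      (X1 / P1) ^ 2 * (h * B ^ r / B ^ n)) ∧
    (∀ c h : ℝ, (B ^ (2 * r) / P1 ^ 2) * ((c / B ^ 2) ^ r * h) =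
      (X1 / P1) ^ 2 * (c ^ r * h / B ^ (2 * (n + 1)))) := by
  have hX0 : 0 < X1 := by rw [hX]; positivity
  have hP0 : 0 < P1 := by rw [hP]; positivity
  have hBr : 0 < B ^ r := by positivity
  have hB2r : B ^ (2 * r) = B ^ r * B ^ r := by rw [two_mul, pow_add]
  have hBn : 0 < B ^ n := by positivity
  refine ⟨by ring, ?_, fun h => ?_, fun c h => ?_⟩
  · rw [hB2r]
    field_simp
  · have h1 : X1 = B ^ n * B := by rw [hX, pow_succ]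
    rw [hB2r]
    have h2 : X1 * (B ^ r * B ^ r / P1 ^ 2 * (h * (B / B ^ r))) = X1 / P1 ^ 2 * (h * B * B ^ r) := by
      field_simp
    have h3 : (X1 / P1) ^ 2 * (h * B ^ r / B ^ n) = X1 / P1 ^ 2 * (h * B ^ r * (X1 / B ^ n)) := by
      field_simp
    rw [h2, h3]
    have h4 : X1 / B ^ n = B := by
      rw [h1]
      field_simp
    rw [h4]
    ring
  · have h1 : B ^ (2 * (n + 1)) = X1 ^ 2 := by rw [hX, ← pow_mul, mul_comm]
    have h2 : (c / B ^ 2) ^ r = c ^ r / B ^ (2 * r) := by rw [div_pow, ← pow_mul]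
    have h3 : 0 < B ^ (2 * r) := by positivity
    rw [h1, h2]
    field_simp

private theorem B_VarK_rho {n : ℕ} (o : Fin (n + 1)) (B T W : ℕ) (hB : 1 ≤ B) (hT : 1 ≤ T)
    (hW : 1 ≤ W) (x y : Vc n (𝓞 K)) (hD : ((W : ℕ) : 𝓞 K) ∈ Dd x y)
    (h : ∀ v, (B : ℝ) ^ 2 ≤ ((T ^ 2 : ℕ) : ℝ) * Del o x y v) :
    nD x y / pn (Del o x y) ≤ ((W : ℝ) * (T : ℝ) ^ 2 / (B : ℝ) ^ 2) ^ eK K := by
  have hB0 : (0 : ℝ) < B := by exact_mod_cast hB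
  have hT0 : (0 : ℝ) < T := by exact_mod_cast hT
  have hW0 : ((W : ℕ) : 𝓞 K) ≠ 0 := by
    have : W ≠ 0 := by omega
    exact_mod_cast this
  have h1 : nD x y ≤ (W : ℝ) ^ eK K := by
    have h2 := absNorm_le_pn hD hW0
    have h3 : pn (fun v : InfinitePlace K => v ((((W : ℕ) : 𝓞 K)) : K)) = (W : ℝ) ^ eK K := by
      rw [← pn_const]
      congr 1
      funext v
      rw [← v_natCast v W]
      push_cast
      rfl
    rw [h3] at h2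
    exact h2
  have h4 : ((B : ℝ) ^ 2 / (T : ℝ) ^ 2) ^ eK K ≤ pn (Del o x y) := by
    rw [← pn_const]
    refine pn_mono (fun v => by positivity) fun v => ?_
    rw [div_le_iff₀ (by positivity), mul_comm]
    have := h v
    push_cast at this
    exact this
  have h5 : (0 : ℝ) < ((B : ℝ) ^ 2 / (T : ℝ) ^ 2) ^ eK K := by positivity
  calc nD x y / pn (Del o x y) ≤ (W : ℝ) ^ eK K / ((B : ℝ) ^ 2 / (T : ℝ) ^ 2) ^ eK K :=
        div_le_div₀ (by positivity) h1 h5 h4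
    _ = ((W : ℝ) * (T : ℝ) ^ 2 / (B : ℝ) ^ 2) ^ eK K := by
      rw [← div_pow]
      congr 1
      field_simp

private theorem B_VarK_count {n : ℕ} (G : Finset (Vc n (𝓞 K))) (p : Vc n (𝓞 K) → Vc n (𝓞 K) → Prop) :
    ∑ x ∈ G, ((G.filter fun y => p x y).card : ℝ) = (((G ×ˢ G).filter fun z => p z.1 z.2).card : ℝ) := by
  rw [Finset.card_filter, Finset.sum_product, Nat.cast_sum]
  refine Finset.sum_congr rfl fun x _ => ?_
  rw [Finset.card_filter]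

private theorem B_VarK_D (r : ℕ) : (∑ _i : Fin r, 2) = 2 * r := by
  rw [Finset.sum_const, Finset.card_univ, Fintype.card_fin, smul_eq_mul, mul_comm]

variable (K) in
theorem varTotB {r : ℕ} (hr : 1 ≤ r) (n : ℕ) (hn : r + 2 ≤ n) (q : ℕ) (hq : 1 ≤ q) :
    ∃ C1 : ℝ, 1 ≤ C1 ∧ ∀ lam : ℕ, 1 ≤ lam → ∃ C2 : ℝ, 1 ≤ C2 ∧ ∀ T' : ℕ, ∃ C3 : ℝ, 1 ≤ C3 ∧
    ∀ (o : Fin (n + 1)) (T w B H A W : ℕ), 1 ≤ T → T ≤ A → 1 ≤ B → 1 ≤ H → 1 ≤ W →
    (∀ m, 1 ≤ m → m ≤ w → m ∣ W) → C1 ≤ A → C1 * H ≤ A → C1 * (H : ℝ) ^ 2 ≤ (lam : ℝ) * A →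
    C1 * (H : ℝ) ^ 2 * T ≤ (A : ℝ) * T' →
    QvB K (fun _ : Fin r => 2) B H q o W ((T ^ 2) ^ 2) A ≤
      C1 * (A : ℝ) ^ (eK K * VV n (fun _ : Fin r => 2)) *
        ((B : ℝ) ^ (n + 1) / ((A : ℝ) ^ r * (B : ℝ) ^ (2 * r))) ^ eK K +
      C2 * (A : ℝ) ^ (eK K * VV n (fun _ : Fin r => 2)) *
        (((B : ℝ) ^ (n + 1) / ((A : ℝ) ^ r * (B : ℝ) ^ (2 * r))) ^ eK K) ^ 2 *
            (1 / T + 1 / (w + 1) + ((Nat.log 2 B : ℝ) + 2) ^ eK K *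
              ((H : ℝ) ^ (n + 1 + r) * (B : ℝ) ^ r / (B : ℝ) ^ n) ^ eK K +
              C3 * (((W : ℝ) * T ^ 2) ^ r * (H : ℝ) ^ (2 * n * (n + 1) - 1) /
                (B : ℝ) ^ (2 * (n + 1))) ^ eK K) := by
  obtain ⟨CE, hCE, hEE⟩ := EEleB K n (fun _ : Fin r => 2)
  obtain ⟨Cg, hCg, hEg⟩ := EEgoodB K n r
  obtain ⟨C1, hC1, hN1⟩ := NP1 (K := K) n (fun _ : Fin r => 2) q hq
  obtain ⟨C0, hC0, hN2⟩ := N2B (K := K) n r q hq
  obtain ⟨Ca, hCa, hSa⟩ := psAll (K := K) n r q hn hq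
  obtain ⟨Cb, hCb, hSb⟩ := psBad (K := K) n r q hn hq
  have hCK := CK_one_le K n
  have hCK0 : 0 ≤ CK K n := by linarith
  obtain ⟨M, hM⟩ : ∃ M, M = CK K n ^ (n + 1) * (CK K n * (q : ℝ) ^ eK K * CE * C1) := ⟨_, rfl⟩
  have hM0 : 0 ≤ M := by rw [hM]; positivity
  refine ⟨M + C1 + C0 + Cg, by linarith, ?_⟩
  intro lam hlam
  obtain ⟨C2, hC2, hN2'⟩ := hN2 lam hlam
  have hKn1 : 1 ≤ CK K n ^ (n + 1) := one_le_pow₀ hCK
  refine ⟨CK K n ^ (n + 1) * (Cg * C2 * Ca) + CK K n ^ (n + 1) * (CE * C2 * Cb) + CE * C2, ?_, ?_⟩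
  · have h1 : 0 ≤ CK K n ^ (n + 1) * (Cg * C2 * Ca) := by positivity
    have h2 : 0 ≤ CK K n ^ (n + 1) * (CE * C2 * Cb) := by positivity
    have h3 : 1 ≤ CE * C2 := one_le_mul_of_one_le_of_one_le hCE hC2
    linarith
  intro T'
  obtain ⟨C3, hC3, hcnt⟩ := excCount (K := K) n (by omega) T' q hq
  refine ⟨C3, hC3, ?_⟩
  intro o T w B H A W hT hTA hB hH hW hW' hA hAH hAl hAT
  have hT1 : (1 : ℝ) ≤ T := by exact_mod_cast hT
  have hH1 : (1 : ℝ) ≤ H := by exact_mod_cast hH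
  have hB0 : (0 : ℝ) < B := by exact_mod_cast hB
  have hA1 : 1 ≤ A := hT.trans hTA
  have hA0 : (0 : ℝ) < A := by exact_mod_cast hA1
  have hT2 : 1 ≤ T ^ 2 := Nat.one_le_pow _ _ hT
  have h0A : C0 ≤ A := le_trans (by linarith) hA
  have h1A : C1 * (H : ℝ) ≤ A :=
    le_trans (mul_le_mul_of_nonneg_right (by linarith) (by linarith)) hAH
  have h0l : C0 * (H : ℝ) ^ 2 ≤ (lam : ℝ) * A :=
    le_trans (mul_le_mul_of_nonneg_right (by linarith) (by positivity)) hAl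
  have hgT : Cg * (H : ℝ) ^ 2 * T ≤ (A : ℝ) * T' := by
    refine le_trans (mul_le_mul_of_nonneg_right (mul_le_mul_of_nonneg_right ?_ (by positivity))
      (by linarith)) hAT
    linarith
  -- bases
  have hex : ∀ x : Vc n (𝓞 K), ∃ f : Fin n → Vc n (𝓞 K), x ∈ GG K B H q o →
      LinearIndependent (𝓞 K) f ∧ (∀ s, lin (f s) x = 0) ∧
        ∀ s i, ∀ v : InfinitePlace K, v (f s i : K) ≤ (H : ℝ) := by
    intro x
    by_cases hx : x ∈ GG K B H q o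
    · obtain ⟨f, hf⟩ := GG_good hx
      exact ⟨f, fun _ => hf⟩
    · exact ⟨fun _ => 0, fun h => absurd h hx⟩
  choose fb hfb using hex
  have hcnt' := hcnt B H o hB hH fb hfb
  rw [expandB (fun _ : Fin r => 2) B H q o W ((T ^ 2) ^ 2) A (Nat.one_le_pow _ _ hT2)]
  obtain ⟨A0, hA0'⟩ : ∃ A0, A0 = (A : ℝ) ^ (eK K * VV n (fun _ : Fin r => 2)) := ⟨_, rfl⟩
  have hA00 : 0 ≤ A0 := by rw [hA0']; positivity
  obtain ⟨X1, hX1⟩ : ∃ X1, X1 = (B : ℝ) ^ (n + 1) := ⟨_, rfl⟩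
  obtain ⟨P1, hP1⟩ : ∃ P1, P1 = (A : ℝ) ^ r * (B : ℝ) ^ (2 * r) := ⟨_, rfl⟩
  have hX10 : 0 < X1 := by rw [hX1]; positivity
  have hP10 : 0 < P1 := by rw [hP1]; positivity
  obtain ⟨ρ, hρ⟩ : ∃ ρ, ρ = (((W : ℝ) * (T : ℝ) ^ 2 / (B : ℝ) ^ 2) ^ eK K) ^ r := ⟨_, rfl⟩
  have hρ0 : 0 ≤ ρ := by rw [hρ]; positivity
  have hrn : ∀ x y : Vc n (𝓞 K), 0 ≤ nD x y / pn (Del o x y) := fun x y =>
    div_nonneg (Nat.cast_nonneg _) (pn_nonneg fun v => Del_nonneg o x y v)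
  have hZ0 : 0 ≤ C2 * A0 * ((B : ℝ) ^ (2 * r) / P1 ^ 2) ^ eK K := by
    have : 0 ≤ C2 := by linarith
    positivity
  have hN00 : 0 ≤ C1 * A0 / P1 ^ eK K := by
    have : 0 ≤ C1 := by linarith
    positivity
  have hprod : ∀ x y : Vc n (𝓞 K), ∏ _i : Fin r, (n2 2 x y A : ℝ) = (n2 2 x y A : ℝ) ^ r :=
    fun x y => by rw [Finset.prod_const, Finset.card_univ, Fintype.card_fin]
  have hrow : ∀ x ∈ GG K B H q o, ∑ y ∈ GG K B H q o,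
      EEB (fun _ : Fin r => 2) o W ((T ^ 2) ^ 2) A x y ≤
      ((CK K n * (q : ℝ) ^ eK K) * (CE * (C1 * A0 / P1 ^ eK K)) +
        Cg / (T : ℝ) * (C2 * A0 * ((B : ℝ) ^ (2 * r) / P1 ^ 2) ^ eK K) *
          (Ca * ((X1 / (B : ℝ) ^ (2 * r)) ^ eK K + ((Nat.log 2 B : ℝ) + 2) ^ eK K *
            ((H : ℝ) ^ (n + 1 + r) * ((B : ℝ) / (B : ℝ) ^ r)) ^ eK K)) +
        CE * (C2 * A0 * ((B : ℝ) ^ (2 * r) / P1 ^ 2) ^ eK K) *
          (Cb * ((X1 / (B : ℝ) ^ (2 * r)) ^ eK K * (1 / ((T ^ 2 : ℕ) : ℝ) + 1 / ((w : ℝ) + 1)) +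
            ((Nat.log 2 B : ℝ) + 2) ^ eK K *
            ((H : ℝ) ^ (n + 1 + r) * ((B : ℝ) / (B : ℝ) ^ r)) ^ eK K))) +
        CE * (C2 * A0 * ((B : ℝ) ^ (2 * r) / P1 ^ 2) ^ eK K) *
          (ρ * (((GG K B H q o).filter fun y => ExcP T' (fb x) (fb y)).card : ℝ)) := by
    intro x hx
    have hn2' : ∀ y ∈ GG K B H q o, ¬ Prp x y → (n2 2 x y A : ℝ) ^ r ≤
        C2 * A0 * ((B : ℝ) ^ (2 * r) / P1 ^ 2) ^ eK K * (nD x y / pn (Del o x y)) ^ r := by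
      intro y hy hp
      rw [hA0', hP1]
      exact hN2' B H A o hB h0A h0l x hx y hy hp
    have hEEb : ∀ y ∈ GG K B H q o, ¬ Prp x y →
        EEB (fun _ : Fin r => 2) o W ((T ^ 2) ^ 2) A x y ≤
        CE * (C2 * A0 * ((B : ℝ) ^ (2 * r) / P1 ^ 2) ^ eK K) * (nD x y / pn (Del o x y)) ^ r := by
      intro y hy hp
      refine (le_abs_self _).trans ((hEE o W ((T ^ 2) ^ 2) A hA1 x y).trans ?_)
      rw [hprod, mul_assoc]
      exact mul_le_mul_of_nonneg_left (hn2' y hy hp) (by linarith)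
    have key := B_VarK_row (GG K B H q o) (fun y => Prp x y)
      (fun y => ((W : ℕ) : 𝓞 K) ∈ Dd x y ∧ ∀ v, (B : ℝ) ^ 2 ≤ ((T ^ 2 : ℕ) : ℝ) * Del o x y v)
      (fun y => ExcP T' (fb x) (fb y))
      (fun y => EEB (fun _ : Fin r => 2) o W ((T ^ 2) ^ 2) A x y)
      (fun y => (nD x y / pn (Del o x y)) ^ r)
      (CK K n * (q : ℝ) ^ eK K) (CE * (C1 * A0 / P1 ^ eK K))
      (Cg / (T : ℝ) * (C2 * A0 * ((B : ℝ) ^ (2 * r) / P1 ^ 2) ^ eK K))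
      (CE * (C2 * A0 * ((B : ℝ) ^ (2 * r) / P1 ^ 2) ^ eK K)) ρ
      (mul_nonneg (by linarith) hN00)
      (mul_nonneg (div_nonneg (by linarith) (by linarith)) hZ0)
      (mul_nonneg (by linarith) hZ0) hρ0 (fun y => pow_nonneg (hrn x y) _) ?_ ?_ ?_ ?_
      (card_Prp hB hx)
    · refine key.trans ?_
      have hk1 : 0 ≤ Cg / (T : ℝ) * (C2 * A0 * ((B : ℝ) ^ (2 * r) / P1 ^ 2) ^ eK K) :=
        mul_nonneg (div_nonneg (by linarith) (by linarith)) hZ0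
      have hk2 : 0 ≤ CE * (C2 * A0 * ((B : ℝ) ^ (2 * r) / P1 ^ 2) ^ eK K) :=
        mul_nonneg (by linarith) hZ0
      have g1 := hSa B H o hB hH x hx
      have g2 := hSb B H (T ^ 2) w W o hB hH hT2 hW' x hx
      rw [← hX1] at g1 g2
      have m1 := mul_le_mul_of_nonneg_left g1 hk1
      have m2 := mul_le_mul_of_nonneg_left g2 hk2
      refine add_le_add (add_le_add (add_le_add le_rfl (le_trans (le_of_eq ?_) m1))
        (le_trans (le_of_eq ?_) m2)) le_rfl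
      · congr 1
      · congr 1
        refine Finset.sum_congr ?_ fun _ _ => rfl
        ext y
        simp only [Finset.mem_filter]
    · intro y _ _
      refine (le_abs_self _).trans ((hEE o W ((T ^ 2) ^ 2) A hA1 x y).trans
        (mul_le_mul_of_nonneg_left ?_ (by linarith)))
      have h5 := hN1 B H A o hB hA1 h1A x hx
      rw [B_VarK_D] at h5
      rw [hA0', hP1]
      refine le_trans ?_ h5
      refine Finset.prod_le_prod (fun i _ => Nat.cast_nonneg _) fun i _ => ?_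
      exact_mod_cast n2_le_n1 2 x y (A : ℝ)
    · intro y hy hp hgd hexc
      obtain ⟨f1, f2, f3⟩ := hfb x hx
      obtain ⟨g1, g2, g3⟩ := hfb y hy
      refine (le_abs_self _).trans ((hEg B H q o T T' A W hB hT hTA hgT x hx y hy hp hgd.1 hgd.2
        (fb x) (fb y) f1 g1 f2 g2 f3 g3 hexc).trans ?_)
      rw [mul_assoc]
      exact mul_le_mul_of_nonneg_left (hn2' y hy hp) (div_nonneg (by linarith) (by linarith))
    · intro y hy hp _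
      exact hEEb y hy hp
    · intro y hy hp hgd _
      refine (hEEb y hy hp).trans (mul_le_mul_of_nonneg_left ?_ (mul_nonneg (by linarith) hZ0))
      rw [hρ]
      exact pow_le_pow_left₀ (hrn x y) (B_VarK_rho o B T W hB hT hW x y hgd.1 hgd.2) r
  refine (Finset.sum_le_sum hrow).trans ?_
  rw [Finset.sum_add_distrib, ← Finset.mul_sum, ← Finset.mul_sum, B_VarK_count, Finset.sum_const,
    nsmul_eq_mul]
  obtain ⟨i1, i2, i3, i4⟩ := B_VarK_id (B : ℝ) A hB0 hA0 n r X1 P1 hX1 hP1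
  have hcard := card_GG_le (K := K) n H q o hB
  have hlog : 0 ≤ ((Nat.log 2 B : ℝ) + 2) ^ eK K := by positivity
  have t1 : 0 ≤ CE := by linarith
  have t2 : 0 ≤ Cg := by linarith
  have t3 : 0 ≤ C1 := by linarith
  have t4 : 0 ≤ C2 := by linarith
  have t5 : 0 ≤ Ca := by linarith
  have t6 : 0 ≤ Cb := by linarith
  have t7 : 0 ≤ C3 := by linarith
  have hXe : (B : ℝ) ^ (eK K * (n + 1)) = X1 ^ eK K := by
    rw [hX1, ← pow_mul, mul_comm]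
  rw [hXe] at hcard
  have e1 : X1 ^ eK K * (1 / P1 ^ eK K) = (X1 / P1) ^ eK K := by
    rw [← i1, mul_pow, div_pow, one_pow]
  have e2 : X1 ^ eK K * (((B : ℝ) ^ (2 * r) / P1 ^ 2) ^ eK K * (X1 / (B : ℝ) ^ (2 * r)) ^ eK K) =
      ((X1 / P1) ^ eK K) ^ 2 := by
    rw [← mul_pow, ← mul_pow, i2, ← pow_mul, ← pow_mul, mul_comm]
  have e3 : X1 ^ eK K * (((B : ℝ) ^ (2 * r) / P1 ^ 2) ^ eK K * (((Nat.log 2 B : ℝ) + 2) ^ eK K *
      ((H : ℝ) ^ (n + 1 + r) * ((B : ℝ) / (B : ℝ) ^ r)) ^ eK K)) =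
      ((X1 / P1) ^ eK K) ^ 2 * (((Nat.log 2 B : ℝ) + 2) ^ eK K *
        ((H : ℝ) ^ (n + 1 + r) * (B : ℝ) ^ r / (B : ℝ) ^ n) ^ eK K) := by
    have h3 : ∀ a b c l m : ℝ, a * (b * c) = l ^ 2 * m → ∀ g : ℝ, ∀ f : ℕ,
        a ^ f * (b ^ f * (g * c ^ f)) = (l ^ f) ^ 2 * (g * m ^ f) := by
      intro a b c l m h g f
      have h4 : a ^ f * (b ^ f * c ^ f) = (l ^ f) ^ 2 * m ^ f := by
        rw [← mul_pow, ← mul_pow, h, mul_pow, ← pow_mul, ← pow_mul, mul_comm 2 f]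
      linear_combination g * h4
    exact h3 _ _ _ _ _ (i3 ((H : ℝ) ^ (n + 1 + r))) _ _
  have e5 : ((B : ℝ) ^ (2 * r) / P1 ^ 2) ^ eK K *
      (ρ * (C3 * ((H : ℝ) ^ (2 * n * (n + 1) - 1)) ^ eK K)) =
      ((X1 / P1) ^ eK K) ^ 2 * (C3 * (((W : ℝ) * T ^ 2) ^ r * (H : ℝ) ^ (2 * n * (n + 1) - 1) /
                (B : ℝ) ^ (2 * (n + 1))) ^ eK K) := by
    have h3 : ∀ a b c l m : ℝ, a * (b * c) = l ^ 2 * m → ∀ g : ℝ, ∀ f : ℕ,
        a ^ f * (b ^ f * (g * c ^ f)) = (l ^ f) ^ 2 * (g * m ^ f) := by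
      intro a b c l m h g f
      have h4 : a ^ f * (b ^ f * c ^ f) = (l ^ f) ^ 2 * m ^ f := by
        rw [← mul_pow, ← mul_pow, h, mul_pow, ← pow_mul, ← pow_mul, mul_comm 2 f]
      linear_combination g * h4
    have hρ' : ρ = (((W : ℝ) * (T : ℝ) ^ 2 / (B : ℝ) ^ 2) ^ r) ^ eK K := by
      rw [hρ, ← pow_mul, ← pow_mul, mul_comm (eK K) r]
    rw [hρ']
    exact h3 _ _ _ _ _ (i4 ((W : ℝ) * (T : ℝ) ^ 2) ((H : ℝ) ^ (2 * n * (n + 1) - 1))) _ _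
  rw [← hA0', ← hX1, ← hP1]
  have hw0 : 0 ≤ 1 / ((w : ℝ) + 1) := by positivity
  have hs : 1 / (T : ℝ) ≤ 1 / (T : ℝ) + 1 / ((w : ℝ) + 1) := by linarith
  have hss : 1 / ((T ^ 2 : ℕ) : ℝ) + 1 / ((w : ℝ) + 1) ≤ 1 / (T : ℝ) + 1 / ((w : ℝ) + 1) := by
    have h6 : 1 / ((T ^ 2 : ℕ) : ℝ) ≤ 1 / (T : ℝ) := by
      refine one_div_le_one_div_of_le (by linarith) ?_
      push_cast
      nlinarith
    linarith
  have hs'0 : 0 ≤ 1 / ((T ^ 2 : ℕ) : ℝ) + 1 / ((w : ℝ) + 1) := by positivity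
  have hz0 : 0 ≤ C3 * (((W : ℝ) * T ^ 2) ^ r * (H : ℝ) ^ (2 * n * (n + 1) - 1) /
                (B : ℝ) ^ (2 * (n + 1))) ^ eK K := by positivity
  have hfin := B_VarK_alg T (1 / (T : ℝ) + 1 / ((w : ℝ) + 1)) (1 / ((T ^ 2 : ℕ) : ℝ) + 1 / ((w : ℝ) + 1))
    ((X1 / P1) ^ eK K) (X1 ^ eK K) (P1 ^ eK K)
    (((B : ℝ) ^ (2 * r) / P1 ^ 2) ^ eK K) ((X1 / (B : ℝ) ^ (2 * r)) ^ eK K)
    (((Nat.log 2 B : ℝ) + 2) ^ eK K * ((H : ℝ) ^ (n + 1 + r) * ((B : ℝ) / (B : ℝ) ^ r)) ^ eK K)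
    (((Nat.log 2 B : ℝ) + 2) ^ eK K * ((H : ℝ) ^ (n + 1 + r) * (B : ℝ) ^ r / (B : ℝ) ^ n) ^ eK K)
    A0 (CK K n ^ (n + 1)) (CK K n * (q : ℝ) ^ eK K) CE C1 C2 Ca Cb Cg ρ
    (C3 * ((H : ℝ) ^ (2 * n * (n + 1) - 1)) ^ eK K)
    (C3 * (((W : ℝ) * T ^ 2) ^ r * (H : ℝ) ^ (2 * n * (n + 1) - 1) /
                (B : ℝ) ^ (2 * (n + 1))) ^ eK K) (M + C1 + C0 + Cg) hT1 hs hss hs'0 (by positivity)
    (by positivity) hz0 hA00 (by positivity) t1 t4 t5 t6 t2 e1 e2 e3 e5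
    (by rw [← hM]; linarith)
  refine le_trans (add_le_add (mul_le_mul_of_nonneg_right hcard ?_)
    (mul_le_mul_of_nonneg_left (mul_le_mul_of_nonneg_left hcnt' hρ0) (mul_nonneg t1 hZ0))) hfin
  positivity

end Pool.Agent.Lib.MP_1ad228_ntN
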