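import Pool.Agent.Lib.MP_1ad228_ntN.B_Def
import Pool.Agent.Lib.MP_1ad228_ntN.NB_Em

/-!
JOB B_WtK.  The product weight. (Model: Lib/MP_1ad228_ntF/B_Wt.lean; `w1_nonneg, w1_le_one, w1_lip` are exported.)

`k = kn K n ≥ CK K n`, `N = k * A`.
`fw_half`: `a ∈ Box K n d A` gives `|co (a s) u| ≤ CK A ≤ N` (`co_low`, `mem_Box`), so every factor `w1 N (co (a s) u) ≥ 1/2`; there are `(n+1)^d * eK K` factors (`Finset.prod_le_prod`, `Finset.prod_const`, `Fintype.card_fun`).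
`fw_supp`: if `fw A a ≠ 0` every factor is nonzero, so `|co (a s) u| < 2 N` (`w1` unfolds to `max 0 (1 - |z|/(2N))`).
`fw_zero`: `co_up` with `X = 2 N`: `v (a s) ≤ CK * (2 k A) ≤ 2 k^2 A`, so `fw A a ≠ 0` puts `a` in the box.
`fw_lip1`: only the factor with indices `(s, u)` changes (`co (a s + t * bas u) w = co (a s) w + (if w = u then t else 0)`; `co` is additive and `co (bas u) w = if w = u then 1 else 0`, definition of `co` in NB_Bas), the product of the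
others is in `[0,1]`; `w1_lip` with `N`, and `|t|/(2 N) ≤ |t|/(2A)`.
-/

namespace Pool.Agent.Lib.MP_1ad228_ntN

open NumberField Classical

set_option linter.unusedSectionVars false

variable {K : Type} [Field K] [NumberField K]

private theorem B_WtK_N {n A : ℕ} (hA : 1 ≤ A) : (0 : ℝ) < ((kn K n * A : ℕ) : ℝ) := by
  have h := Nat.mul_pos (one_le_kn K n) hA
  exact_mod_cast h

private theorem B_WtK_NA (n A : ℕ) : (A : ℝ) ≤ ((kn K n * A : ℕ) : ℝ) := by
  have h : 1 * A ≤ kn K n * A := Nat.mul_le_mul_right A (one_le_kn K n)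
  rw [one_mul] at h
  exact_mod_cast h

private theorem B_WtK_co (t : ℤ) (u w : Fin (eK K)) :
    co ((t : 𝓞 K) * bas K u) w = if w = u then t else 0 := by
  unfold co
  rw [← zsmul_eq_mul, map_smul, Module.Basis.repr_self, Finsupp.smul_apply, Finsupp.single_apply]
  by_cases h : w = u
  · rw [if_pos h, if_pos h.symm, smul_eq_mul, mul_one]
  · rw [if_neg h, if_neg (Ne.symm h), smul_zero]

theorem fw_nonneg {n d : ℕ} (A : ℕ) (a : Ten n d (𝓞 K)) : 0 ≤ fw A a :=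
  Finset.prod_nonneg fun _ _ => Finset.prod_nonneg fun _ _ => w1_nonneg _ _

theorem fw_le_one {n d : ℕ} (A : ℕ) (a : Ten n d (𝓞 K)) : fw A a ≤ 1 :=
  Finset.prod_le_one (fun _ _ => Finset.prod_nonneg fun _ _ => w1_nonneg _ _)
    (fun _ _ => Finset.prod_le_one (fun _ _ => w1_nonneg _ _) (fun _ _ => w1_le_one _ _))

theorem fw_half {n d : ℕ} {A : ℕ} (hA : 1 ≤ A) {a : Ten n d (𝓞 K)} (ha : a ∈ Box K n d A) :
    (1 / 2 : ℝ) ^ (eK K * (n + 1) ^ d) ≤ fw A a := by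
  have hN := B_WtK_N (K := K) (n := n) hA
  have h : ∀ s u, 1 / 2 ≤ w1 (kn K n * A) (co (a s) u) := by
    intro s u
    have h1 := co_low n (a s) A (fun v => mem_Box.1 ha s v) u
    have h2 : |(co (a s) u : ℝ)| ≤ ((kn K n * A : ℕ) : ℝ) := by
      refine h1.trans ?_
      push_cast
      exact mul_le_mul_of_nonneg_right (CK_le_kn K n) (Nat.cast_nonneg _)
    have h3 : |(co (a s) u : ℝ)| / (2 * ((kn K n * A : ℕ) : ℝ)) ≤ 1 / 2 := by
      rw [div_le_iff₀ (by positivity)]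
      linarith
    unfold w1
    refine le_trans ?_ (le_max_right _ _)
    linarith
  have h0 : ((1 : ℝ) / 2) ^ (eK K * (n + 1) ^ d) =
      ∏ _s : Fin d → Fin (n + 1), ∏ _u : Fin (eK K), (1 / 2 : ℝ) := by
    rw [Finset.prod_const, Finset.prod_const, Finset.card_univ, Finset.card_univ, Fintype.card_fun,
      Fintype.card_fin, Fintype.card_fin, Fintype.card_fin, ← pow_mul]
  rw [h0]
  exact Finset.prod_le_prod (fun s _ => Finset.prod_nonneg fun _ _ => by norm_num)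
    (fun s _ => Finset.prod_le_prod (fun _ _ => by norm_num) fun u _ => h s u)

theorem fw_supp {n d : ℕ} {A : ℕ} (hA : 1 ≤ A) {a : Ten n d (𝓞 K)} (h : fw A a ≠ 0)
    (s : Fin d → Fin (n + 1)) (u : Fin (eK K)) :
    |co (a s) u| ≤ ((2 * (kn K n * A) : ℕ) : ℤ) := by
  have hN := B_WtK_N (K := K) (n := n) hA
  by_contra hc
  have hc' : ((2 * (kn K n * A) : ℕ) : ℤ) < |co (a s) u| := not_le.1 hc
  refine h (Finset.prod_eq_zero (Finset.mem_univ s) (Finset.prod_eq_zero (Finset.mem_univ u) ?_))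
  have h2 : (2 * ((kn K n * A : ℕ) : ℝ)) < |(co (a s) u : ℝ)| := by
    have h4 : (((2 * (kn K n * A) : ℕ) : ℤ) : ℝ) < ((|co (a s) u| : ℤ) : ℝ) := by
      exact_mod_cast hc'
    rw [Int.cast_abs] at h4
    refine lt_of_eq_of_lt ?_ h4
    push_cast
    ring
  have h3 : 1 ≤ |(co (a s) u : ℝ)| / (2 * ((kn K n * A : ℕ) : ℝ)) := by
    rw [le_div_iff₀ (by positivity)]
    linarith
  unfold w1
  exact max_eq_left (by linarith)

theorem fw_zero {n d : ℕ} {A : ℕ} (hA : 1 ≤ A) {a : Ten n d (𝓞 K)}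
    (ha : a ∉ Box K n d (((2 * kn K n ^ 2 : ℕ) : ℝ) * (A : ℝ))) : fw A a = 0 := by
  by_contra h
  refine ha (mem_Box.2 fun s v => ?_)
  have h1 : ∀ u, |(co (a s) u : ℝ)| ≤ 2 * ((kn K n : ℝ) * A) := by
    intro u
    have h2 := fw_supp hA h s u
    have h3 : ((|co (a s) u| : ℤ) : ℝ) ≤ (((2 * (kn K n * A) : ℕ) : ℤ) : ℝ) := by
      exact_mod_cast h2
    rw [Int.cast_abs] at h3
    refine h3.trans (le_of_eq ?_)
    push_cast
    ring
  refine (co_up n (a s) _ h1 v).trans ?_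
  calc CK K n * (2 * ((kn K n : ℝ) * A)) ≤ (kn K n : ℝ) * (2 * ((kn K n : ℝ) * A)) :=
        mul_le_mul_of_nonneg_right (CK_le_kn K n) (by positivity)
    _ = ((2 * kn K n ^ 2 : ℕ) : ℝ) * (A : ℝ) := by
      push_cast
      ring

theorem fw_lip1 {n d : ℕ} {A : ℕ} (hA : 1 ≤ A) (a : Ten n d (𝓞 K)) (s : Fin d → Fin (n + 1))
    (u : Fin (eK K)) (t : ℤ) :
    |fw A (a + Pi.single s ((t : 𝓞 K) * bas K u)) - fw A a| ≤ |(t : ℝ)| / (2 * A) := by
  have hN := B_WtK_N (K := K) (n := n) hA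
  have hA' : (0 : ℝ) < (A : ℝ) := by exact_mod_cast hA
  have hN1 : 1 ≤ kn K n * A := Nat.mul_pos (one_le_kn K n) hA
  obtain ⟨R1, hR1⟩ : ∃ R1 : ℝ, R1 = ∏ l ∈ Finset.univ.erase s, ∏ w, w1 (kn K n * A) (co (a l) w) :=
    ⟨_, rfl⟩
  obtain ⟨R2, hR2⟩ : ∃ R2 : ℝ, R2 = ∏ w ∈ Finset.univ.erase u, w1 (kn K n * A) (co (a s) w) :=
    ⟨_, rfl⟩
  have hR10 : 0 ≤ R1 := by
    rw [hR1]
    exact Finset.prod_nonneg fun _ _ => Finset.prod_nonneg fun _ _ => w1_nonneg _ _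
  have hR11 : R1 ≤ 1 := by
    rw [hR1]
    exact Finset.prod_le_one (fun _ _ => Finset.prod_nonneg fun _ _ => w1_nonneg _ _)
      (fun _ _ => Finset.prod_le_one (fun _ _ => w1_nonneg _ _) (fun _ _ => w1_le_one _ _))
  have hR20 : 0 ≤ R2 := by
    rw [hR2]
    exact Finset.prod_nonneg fun _ _ => w1_nonneg _ _
  have hR21 : R2 ≤ 1 := by
    rw [hR2]
    exact Finset.prod_le_one (fun _ _ => w1_nonneg _ _) (fun _ _ => w1_le_one _ _)
  have e1 : fw A a = w1 (kn K n * A) (co (a s) u) * (R2 * R1) := by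
    unfold fw
    rw [← Finset.mul_prod_erase _ _ (Finset.mem_univ s),
      ← Finset.mul_prod_erase Finset.univ (fun w => w1 (kn K n * A) (co (a s) w)) (Finset.mem_univ u),
      ← hR1, ← hR2, mul_assoc]
  have e2 : fw A (a + Pi.single s ((t : 𝓞 K) * bas K u)) =
      w1 (kn K n * A) (co (a s) u + t) * (R2 * R1) := by
    unfold fw
    rw [← Finset.mul_prod_erase _ _ (Finset.mem_univ s)]
    have e3 : (a + Pi.single s ((t : 𝓞 K) * bas K u) : Ten n d (𝓞 K)) s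
        = a s + (t : 𝓞 K) * bas K u := by
      rw [Pi.add_apply, Pi.single_eq_same]
    have e4 : ∏ l ∈ Finset.univ.erase s, ∏ w, w1 (kn K n * A)
        (co ((a + Pi.single s ((t : 𝓞 K) * bas K u) : Ten n d (𝓞 K)) l) w) = R1 := by
      rw [hR1]
      refine Finset.prod_congr rfl fun l hl => ?_
      rw [Pi.add_apply, Pi.single_eq_of_ne (Finset.ne_of_mem_erase hl), add_zero]
    have e5 : ∏ w, w1 (kn K n * A) (co (a s + (t : 𝓞 K) * bas K u) w)
        = w1 (kn K n * A) (co (a s) u + t) * R2 := by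
      rw [← Finset.mul_prod_erase _ _ (Finset.mem_univ u), co_add, B_WtK_co, if_pos rfl, hR2]
      congr 1
      refine Finset.prod_congr rfl fun w hw => ?_
      rw [co_add, B_WtK_co, if_neg (Finset.ne_of_mem_erase hw), add_zero]
    rw [e4, e3, e5, mul_assoc]
  have hR : R2 * R1 ≤ 1 := mul_le_one₀ hR21 hR10 hR11
  rw [e1, e2, ← sub_mul, abs_mul, abs_of_nonneg (mul_nonneg hR20 hR10)]
  calc |w1 (kn K n * A) (co (a s) u + t) - w1 (kn K n * A) (co (a s) u)| * (R2 * R1)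
      ≤ |w1 (kn K n * A) (co (a s) u + t) - w1 (kn K n * A) (co (a s) u)| * 1 :=
        mul_le_mul_of_nonneg_left hR (abs_nonneg _)
    _ = |w1 (kn K n * A) (co (a s) u + t) - w1 (kn K n * A) (co (a s) u)| := mul_one _
    _ ≤ |(t : ℝ)| / (2 * ((kn K n * A : ℕ) : ℝ)) := w1_lip hN1 _ _
    _ ≤ |(t : ℝ)| / (2 * A) := by
      refine div_le_div_of_nonneg_left (abs_nonneg _) (by positivity) ?_
      have := B_WtK_NA (K := K) n A
      linarith

end Pool.Agent.Lib.MP_1ad228_ntN
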