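import Pool.Agent.Lib.MP_1ad228_ntN.NB_Em

/-!
JOB CN_Ev.  Values of a tensor near a zero in a completion (paper section 7; model over Q: CN_Cnt_prod and CN_Cnt_ev in Lib/MP_1ad228_ntF/CN_Cnt.lean, literally with `|.|` replaced by the norm of `ℂ`).

PROOF.  `X l = em v (x l) : ℂ`, `‖X l‖ = v (x l)` (`norm_em`), `em v (ev a x) = ∑ s, em v (a s) * ∏ k, X (s k)`.  `h0` says `∑ s, em v (a s) * ∏ k, (B * s (t k)) = 0` (multiply by `A B^d`).  A difference of products of `d` factors of norm `≤ B`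
differing by at most `E = ρ^D/(2 D (n+1)^D) * B/κ` has norm `≤ d E B^(d-1)` (written as `B * ‖..‖ ≤ d E B^d`), so `B ‖em v (ev a x)‖ ≤ (n+1)^d A d E B^d` and
`κ ‖em v (ev a x)‖ ≤ A B^d ((n+1)^d d ρ^D/(2 D (n+1)^D)) ≤ A B^d ρ^d = A (ρ B)^d ≤ A v(x o)^d`.
-/

namespace Pool.Agent.Lib.MP_1ad228_ntN

open NumberField Classical

set_option linter.unusedSectionVars false

variable {K : Type} [Field K] [NumberField K]

private theorem CN_Ev_prod {ι : Type*} [DecidableEq ι] (T : Finset ι) (p q : ι → ℂ) {e B : ℝ}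
    (hB : 0 ≤ B) (he : 0 ≤ e) (hp : ∀ k, ‖p k‖ ≤ B) (hq : ∀ k, ‖q k‖ ≤ B)
    (h : ∀ k, ‖p k - q k‖ ≤ e) :
    B * ‖∏ k ∈ T, p k - ∏ k ∈ T, q k‖ ≤ T.card * e * B ^ T.card := by
  induction T using Finset.induction_on with
  | empty => simp
  | insert k T hk ih =>
    rw [Finset.prod_insert hk, Finset.prod_insert hk, Finset.card_insert_of_notMem hk]
    have h1 : p k * ∏ k ∈ T, p k - q k * ∏ k ∈ T, q k =
        p k * (∏ k ∈ T, p k - ∏ k ∈ T, q k) + (p k - q k) * ∏ k ∈ T, q k := by ring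
    have h2 : ‖∏ k ∈ T, q k‖ ≤ B ^ T.card := by
      rw [norm_prod, ← Finset.prod_const]
      exact Finset.prod_le_prod (fun _ _ => norm_nonneg _) fun k _ => hq k
    rw [h1]
    calc B * ‖p k * (∏ k ∈ T, p k - ∏ k ∈ T, q k) + (p k - q k) * ∏ k ∈ T, q k‖
        ≤ B * (‖p k‖ * ‖∏ k ∈ T, p k - ∏ k ∈ T, q k‖ + ‖p k - q k‖ * ‖∏ k ∈ T, q k‖) := by
          refine mul_le_mul_of_nonneg_left ?_ hB
          refine (norm_add_le _ _).trans (le_of_eq ?_)
          rw [norm_mul, norm_mul]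
      _ = ‖p k‖ * (B * ‖∏ k ∈ T, p k - ∏ k ∈ T, q k‖) + B * (‖p k - q k‖ * ‖∏ k ∈ T, q k‖) := by
          ring
      _ ≤ B * (T.card * e * B ^ T.card) + B * (e * B ^ T.card) :=
          add_le_add (mul_le_mul (hp k) ih (mul_nonneg hB (norm_nonneg _)) hB)
            (mul_le_mul_of_nonneg_left (mul_le_mul (h k) h2 (norm_nonneg _) he) hB)
      _ = ((T.card + 1 : ℕ) : ℝ) * e * B ^ (T.card + 1) := by
          push_cast
          ring

theorem evNear {n d : ℕ} (v : InfinitePlace K) (D A B κ : ℕ) (hdD : d ≤ D) (hD : 1 ≤ D)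
    (hA : 1 ≤ A) (hκ : 1 ≤ κ) (ρ : ℝ) (hρ : 0 < ρ) (hρ1 : ρ ≤ 1) (hB0 : (0 : ℝ) < B)
    (a : Ten n d (𝓞 K)) (ha : a ∈ Box K n d A) (x : Vc n (𝓞 K)) (s : Vc n ℂ)
    (hx1 : ∀ l, v (x l : K) ≤ B) (hs : ∀ l, ‖s l‖ ≤ 1 / 2)
    (hx : ∀ l, ‖em v (x l) - B * s l‖ ≤ ρ ^ D / (2 * (D : ℝ) * (n + 1) ^ D) * B / κ)
    (h0 : ev (fun t => em v (a t) / (A : ℂ)) s = 0) (o : Fin (n + 1)) (ho : ρ * B ≤ v (x o : K)) :
    (κ : ℝ) * v ((ev a x : 𝓞 K) : K) ≤ A * v (x o : K) ^ d := by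
  have hA0 : (0 : ℝ) < A := by exact_mod_cast hA
  have hK0 : (0 : ℝ) < κ := by exact_mod_cast hκ
  have hD0 : (0 : ℝ) < D := by exact_mod_cast hD
  have hn0 : (0 : ℝ) < (n : ℝ) + 1 := by positivity
  have hn1 : (1 : ℝ) ≤ (n : ℝ) + 1 := by linarith [Nat.cast_nonneg (α := ℝ) n]
  have hAC : (A : ℂ) ≠ 0 := by
    exact_mod_cast hA0.ne'
  have e1 : ∑ t : Fin d → Fin (n + 1), em v (a t) * ∏ k, (B * s (t k)) = 0 := by
    have h1 : ∑ t : Fin d → Fin (n + 1), em v (a t) * ∏ k, (B * s (t k)) =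
        A * (B : ℂ) ^ d * ev (fun t => em v (a t) / (A : ℂ)) s := by
      unfold ev
      rw [Finset.mul_sum]
      refine Finset.sum_congr rfl fun t _ => ?_
      rw [Finset.prod_mul_distrib, Finset.prod_const, Finset.card_univ, Fintype.card_fin]
      field_simp
    rw [h1, h0, mul_zero]
  have e2 : em v (ev a x) =
      ∑ t : Fin d → Fin (n + 1), em v (a t) * (∏ k, em v (x (t k)) - ∏ k, (B * s (t k))) := by
    have h3 : ∑ t : Fin d → Fin (n + 1), em v (a t) * (∏ k, em v (x (t k)) - ∏ k, (B * s (t k))) =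
        ∑ t : Fin d → Fin (n + 1), em v (a t) * ∏ k, em v (x (t k)) -
          ∑ t : Fin d → Fin (n + 1), em v (a t) * ∏ k, (B * s (t k)) := by
      rw [← Finset.sum_sub_distrib]
      exact Finset.sum_congr rfl fun t _ => mul_sub _ _ _
    rw [h3, e1, sub_zero]
    unfold ev
    rw [map_sum]
    refine Finset.sum_congr rfl fun t _ => ?_
    rw [map_mul, map_prod]
  obtain ⟨e, he⟩ : ∃ e : ℝ, e = ρ ^ D / (2 * (D : ℝ) * (n + 1) ^ D) * B / κ := ⟨_, rfl⟩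
  rw [← he] at hx
  have he0 : 0 ≤ e := by rw [he]; positivity
  have e3 : ∀ t : Fin d → Fin (n + 1),
      (B : ℝ) * ‖em v (a t) * (∏ k, em v (x (t k)) - ∏ k, (B * s (t k)))‖ ≤
        A * (d * e * B ^ d) := by
    intro t
    rw [norm_mul]
    have h1 : ‖em v (a t)‖ ≤ A := by
      rw [norm_em]
      exact mem_Box.1 ha t v
    have h2 : ∀ k, ‖(B : ℂ) * s (t k)‖ ≤ B := by
      intro k
      rw [norm_mul, Complex.norm_natCast]
      have := hs (t k)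
      nlinarith
    have h3 := CN_Ev_prod (Finset.univ : Finset (Fin d)) (fun k => em v (x (t k)))
      (fun k => (B : ℂ) * s (t k)) hB0.le he0 (fun k => (norm_em v _).le.trans (hx1 (t k))) h2
      (fun k => hx (t k))
    rw [Finset.card_univ, Fintype.card_fin] at h3
    calc (B : ℝ) * (‖em v (a t)‖ * ‖∏ k, em v (x (t k)) - ∏ k, (B * s (t k))‖)
        = ‖em v (a t)‖ * (B * ‖∏ k, em v (x (t k)) - ∏ k, (B * s (t k))‖) := by ring
      _ ≤ A * (d * e * B ^ d) :=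
          mul_le_mul h1 h3 (mul_nonneg hB0.le (norm_nonneg _)) hA0.le
  have e4 : (B : ℝ) * ‖em v (ev a x)‖ ≤ (n + 1) ^ d * (A * (d * e * B ^ d)) := by
    rw [e2]
    calc (B : ℝ) * ‖∑ t : Fin d → Fin (n + 1),
          em v (a t) * (∏ k, em v (x (t k)) - ∏ k, (B * s (t k)))‖
        ≤ B * ∑ t : Fin d → Fin (n + 1),
          ‖em v (a t) * (∏ k, em v (x (t k)) - ∏ k, (B * s (t k)))‖ :=
          mul_le_mul_of_nonneg_left (norm_sum_le _ _) hB0.le
      _ = ∑ t : Fin d → Fin (n + 1),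
          B * ‖em v (a t) * (∏ k, em v (x (t k)) - ∏ k, (B * s (t k)))‖ :=
          Finset.mul_sum _ _ _
      _ ≤ ∑ _t : Fin d → Fin (n + 1), A * (d * e * B ^ d) := Finset.sum_le_sum fun t _ => e3 t
      _ = (n + 1) ^ d * (A * (d * e * B ^ d)) := by
          rw [Finset.sum_const, Finset.card_univ, Fintype.card_fun, Fintype.card_fin,
            Fintype.card_fin, nsmul_eq_mul]
          push_cast
          ring
  have hdr : (d : ℝ) ≤ D := by exact_mod_cast hdD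
  have e5 : (κ : ℝ) * ‖em v (ev a x)‖ ≤ A * (ρ * B) ^ d := by
    have h1 : (B : ℝ) * (κ * ‖em v (ev a x)‖) ≤ B * (A * (ρ * B) ^ d) := by
      have h2 : (B : ℝ) * (κ * ‖em v (ev a x)‖) ≤ κ * ((n + 1) ^ d * (A * (d * e * B ^ d))) := by
        calc (B : ℝ) * (κ * ‖em v (ev a x)‖) = κ * (B * ‖em v (ev a x)‖) := by ring
          _ ≤ _ := mul_le_mul_of_nonneg_left e4 hK0.le
      refine h2.trans ?_
      have h3 : (κ : ℝ) * ((n + 1) ^ d * (A * (d * e * B ^ d))) =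
          B * (A * B ^ d * (((n + 1) ^ d * d * ρ ^ D) / (2 * (D : ℝ) * (n + 1) ^ D))) := by
        rw [he]
        field_simp
      rw [h3]
      refine mul_le_mul_of_nonneg_left ?_ hB0.le
      have h4 : ((n : ℝ) + 1) ^ d * d * ρ ^ D / (2 * (D : ℝ) * (n + 1) ^ D) ≤ ρ ^ d := by
        rw [div_le_iff₀ (by positivity)]
        have h5 : ρ ^ D ≤ ρ ^ d := pow_le_pow_of_le_one hρ.le hρ1 hdD
        have h6 : ((n : ℝ) + 1) ^ d ≤ (n + 1) ^ D := pow_le_pow_right₀ hn1 hdD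
        have h7 : ((n : ℝ) + 1) ^ d * d ≤ (n + 1) ^ D * D :=
          mul_le_mul h6 hdr (Nat.cast_nonneg _) (by positivity)
        calc ((n : ℝ) + 1) ^ d * d * ρ ^ D ≤ (n + 1) ^ D * D * ρ ^ d :=
              mul_le_mul h7 h5 (by positivity) (by positivity)
          _ ≤ ρ ^ d * (2 * (D : ℝ) * (n + 1) ^ D) := by
              have h8 : 0 ≤ ρ ^ d * (D * ((n : ℝ) + 1) ^ D) := by positivity
              nlinarith
      calc (A : ℝ) * B ^ d * (((n : ℝ) + 1) ^ d * d * ρ ^ D / (2 * (D : ℝ) * (n + 1) ^ D)) ≤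
            A * B ^ d * ρ ^ d := mul_le_mul_of_nonneg_left h4 (by positivity)
        _ = A * (ρ * B) ^ d := by rw [mul_pow]; ring
    exact le_of_mul_le_mul_left h1 hB0
  have e6 : (ρ * B) ^ d ≤ v (x o : K) ^ d :=
    pow_le_pow_left₀ (mul_pos hρ hB0).le ho d
  rw [norm_em] at e5
  exact e5.trans (mul_le_mul_of_nonneg_left e6 hA0.le)

end Pool.Agent.Lib.MP_1ad228_ntN
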