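import Pool.Agent.Lib.MP_1ad228_ntN.NB_Em

/-!
JOB CN_Grid.  Separated points of a completion (paper section 7).

PROOF.  `N = ⌊ρ / (6 η)⌋₊`, so `N * 6 η ≤ ρ` and `ρ / (6 η) ≤ N + 1`.  Let `Q : Finset (ℕ × ℕ)` be `range (N+1) ×ˢ range (N+1)` if `v` is complex and `range (N+1) ×ˢ {0}` if `v` is real: `Q.card = (N+1)^(v.mult)`
(`InfinitePlace.mult`).  For `t : Fin (n+1) → ℕ × ℕ` let `pt t l = ξ l + 3 η ((t l).1 + (t l).2 * I)`.  `G` = image under `pt` of the `t` with `t l ∈ Q` for `l ∉ range S`, `t l = (0, 0)` for `l ∈ range S`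
(`Fintype.piFinset fun l => if ∃ k, S k = l then {(0,0)} else Q`): `pt t l ∈ KK v`, `‖pt t l - ξ l‖ = 3 η ‖(t l).1 + (t l).2 I‖ ≤ 3 η * 2 N ≤ ρ`; for `t ≠ t'` there is `l` with `t l ≠ t' l`, necessarily not in the range of `S`,
and `‖pt t l - pt t' l‖ = 3 η ‖(difference of integers) + (difference of integers) I‖ ≥ 3 η` (a nonzero Gaussian integer has norm `≥ 1`: its real or imaginary part has absolute value `≥ 1`, `Complex.abs_re_le_norm`,
`Complex.abs_im_le_norm`).  So `pt` is injective on these `t` and `G.card = Q.card^(n+1-r) = (N+1)^(v.mult (n+1-r)) ≥ (ρ/(6η))^(v.mult (n+1-r))` (`CN_Cnt_card` of Lib/MP_1ad228_ntF/CN_Cnt.lean shows how to count; the number of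
`l ∉ range S` is `n + 1 - r` because `S` is injective).
-/

namespace Pool.Agent.Lib.MP_1ad228_ntN

open NumberField Classical

set_option linter.unusedSectionVars false

variable {K : Type} [Field K] [NumberField K]

private theorem CN_Grid_card {α : Type*} {n r : ℕ} (S : Fin r → Fin (n + 1))
    (hS : Function.Injective S) (z : α) (Z : Finset α) (u : ℝ) (hu : 0 ≤ u)
    (hZ : u ≤ (Z.card : ℝ)) : u ^ (n + 1 - r) ≤
      ((Fintype.piFinset fun l : Fin (n + 1) => if (∃ k, S k = l) then {z} else Z).card : ℝ) := by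
  rw [Fintype.card_piFinset]
  push_cast
  have h1 : ∏ l, (((if (∃ k, S k = l) then ({z} : Finset α) else Z).card : ℕ) : ℝ) =
      ∏ _l ∈ Finset.univ \ Finset.univ.image S, (Z.card : ℝ) := by
    rw [← Finset.prod_subset (Finset.subset_univ (Finset.univ \ Finset.univ.image S))]
    · refine Finset.prod_congr rfl fun l hl => ?_
      rw [Finset.mem_sdiff, Finset.mem_image] at hl
      rw [if_neg (by
        rintro ⟨k, hk⟩
        exact hl.2 ⟨k, Finset.mem_univ _, hk⟩)]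
    · intro l _ hl
      have h2 : ∃ k, S k = l := by
        by_contra hcon
        refine hl (Finset.mem_sdiff.2 ⟨Finset.mem_univ _, fun h => hcon ?_⟩)
        rw [Finset.mem_image] at h
        obtain ⟨k, _, hk⟩ := h
        exact ⟨k, hk⟩
      rw [if_pos h2, Finset.card_singleton, Nat.cast_one]
  rw [h1]
  have h3 : (Finset.univ \ Finset.univ.image S).card = n + 1 - r := by
    rw [Finset.card_sdiff_of_subset (Finset.subset_univ _), Finset.card_univ, Fintype.card_fin,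
      Finset.card_image_of_injective _ hS, Finset.card_univ, Fintype.card_fin]
  rw [Finset.prod_const, h3]
  exact pow_le_pow_left₀ hu hZ _

private theorem CN_Grid_sep (η : ℝ) (hη : 0 < η) (p p' : ℕ × ℕ) (h : p ≠ p') :
    3 * η ≤ ‖((3 * η : ℝ) : ℂ) * ((p.1 : ℂ) + (p.2 : ℂ) * Complex.I) -
      ((3 * η : ℝ) : ℂ) * ((p'.1 : ℂ) + (p'.2 : ℂ) * Complex.I)‖ := by
  have h0 : 0 < 3 * η := by positivity
  rw [← mul_sub, norm_mul, Complex.norm_real, Real.norm_eq_abs, abs_of_pos h0]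
  refine le_mul_of_one_le_right h0.le ?_
  set z : ℂ := (p.1 : ℂ) + (p.2 : ℂ) * Complex.I - ((p'.1 : ℂ) + (p'.2 : ℂ) * Complex.I) with hz
  have hre : z.re = ((p.1 : ℤ) - (p'.1 : ℤ) : ℤ) := by
    rw [hz]
    simp
  have him : z.im = ((p.2 : ℤ) - (p'.2 : ℤ) : ℤ) := by
    rw [hz]
    simp
  have key : ∀ a b : ℕ, a ≠ b → (1 : ℝ) ≤ |(((a : ℤ) - (b : ℤ) : ℤ) : ℝ)| := by
    intro a b hab
    have h1 : ((a : ℤ) - (b : ℤ) : ℤ) ≠ 0 := by
      intro h2
      apply hab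
      omega
    exact_mod_cast Int.one_le_abs h1
  by_cases h1 : p.1 = p'.1
  · have h2 : p.2 ≠ p'.2 := fun h2 => h (Prod.ext h1 h2)
    refine le_trans ?_ (Complex.abs_im_le_norm z)
    rw [him]
    exact key _ _ h2
  · refine le_trans ?_ (Complex.abs_re_le_norm z)
    rw [hre]
    exact key _ _ h1

theorem grid {n r : ℕ} (v : InfinitePlace K) (S : Fin r → Fin (n + 1)) (hS : Function.Injective S)
    (ξ : Vc n ℂ) (hξ : ∀ l, ξ l ∈ KK v) (ρ η : ℝ) (hη : 0 < η) (hρ : 0 < ρ) :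
    ∃ G : Finset (Vc n ℂ), (∀ y ∈ G, (∀ l, y l ∈ KK v) ∧ ∀ l, ‖y l - ξ l‖ ≤ ρ) ∧
      (∀ y ∈ G, ∀ y' ∈ G, y ≠ y' → ∃ l, (∀ k, l ≠ S k) ∧ 3 * η ≤ ‖y l - y' l‖) ∧
      (ρ / (6 * η)) ^ (v.mult * (n + 1 - r)) ≤ (G.card : ℝ) := by
  obtain ⟨N, hN⟩ : ∃ N : ℕ, N = ⌊ρ / (6 * η)⌋₊ := ⟨_, rfl⟩
  have hu0 : 0 ≤ ρ / (6 * η) := by positivity
  have hN1 : (N : ℝ) * (6 * η) ≤ ρ := by
    rw [← le_div_iff₀ (by positivity), hN]
    exact Nat.floor_le hu0
  have hN2 : ρ / (6 * η) ≤ (N : ℝ) + 1 := by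
    rw [hN]
    exact (Nat.lt_floor_add_one _).le
  let Q : Finset (ℕ × ℕ) := if v.IsReal then Finset.range (N + 1) ×ˢ {0} else
    Finset.range (N + 1) ×ˢ Finset.range (N + 1)
  have hQc : Q.card = (N + 1) ^ v.mult := by
    by_cases hv : v.IsReal
    · have h1 : Q = Finset.range (N + 1) ×ˢ {0} := if_pos hv
      rw [h1, Finset.card_product, Finset.card_range, Finset.card_singleton, InfinitePlace.mult,
        if_pos hv, pow_one, mul_one]
    · have h1 : Q = Finset.range (N + 1) ×ˢ Finset.range (N + 1) := if_neg hv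
      rw [h1, Finset.card_product, Finset.card_range, InfinitePlace.mult, if_neg hv, pow_two]
  have hQm : ∀ p ∈ Q, p.1 ≤ N ∧ p.2 ≤ N ∧ (v.IsReal → p.2 = 0) := by
    intro p hp
    by_cases hv : v.IsReal
    · have h1 : Q = Finset.range (N + 1) ×ˢ {0} := if_pos hv
      rw [h1, Finset.mem_product, Finset.mem_range, Finset.mem_singleton] at hp
      exact ⟨by omega, by omega, fun _ => hp.2⟩
    · have h1 : Q = Finset.range (N + 1) ×ˢ Finset.range (N + 1) := if_neg hv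
      rw [h1, Finset.mem_product, Finset.mem_range, Finset.mem_range] at hp
      exact ⟨by omega, by omega, fun h => absurd h hv⟩
  let c : ℕ × ℕ → ℂ := fun p => ((3 * η : ℝ) : ℂ) * ((p.1 : ℂ) + (p.2 : ℂ) * Complex.I)
  let pt : (Fin (n + 1) → ℕ × ℕ) → Vc n ℂ := fun t l => ξ l + c (t l)
  let T : Finset (Fin (n + 1) → ℕ × ℕ) :=
    Fintype.piFinset fun l => if (∃ k, S k = l) then {((0 : ℕ), (0 : ℕ))} else Q
  have hT1 : ∀ t ∈ T, ∀ l, (∃ k, S k = l) → t l = (0, 0) := by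
    intro t ht l hl
    have h1 := Fintype.mem_piFinset.1 ht l
    rw [if_pos hl, Finset.mem_singleton] at h1
    exact h1
  have hT2 : ∀ t ∈ T, ∀ l, (t l).1 ≤ N ∧ (t l).2 ≤ N ∧ (v.IsReal → (t l).2 = 0) := by
    intro t ht l
    by_cases hl : ∃ k, S k = l
    · rw [hT1 t ht l hl]
      exact ⟨Nat.zero_le _, Nat.zero_le _, fun _ => rfl⟩
    · have h1 := Fintype.mem_piFinset.1 ht l
      rw [if_neg hl] at h1
      exact hQm _ h1
  have hsep : ∀ t ∈ T, ∀ t' ∈ T, t ≠ t' → ∃ l, (∀ k, l ≠ S k) ∧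
      3 * η ≤ ‖pt t l - pt t' l‖ := by
    intro t ht t' ht' hne
    obtain ⟨l, hl⟩ := Function.ne_iff.1 hne
    refine ⟨l, fun k hk => hl ?_, ?_⟩
    · rw [hT1 t ht l ⟨k, hk.symm⟩, hT1 t' ht' l ⟨k, hk.symm⟩]
    · have h1 : pt t l - pt t' l = c (t l) - c (t' l) := by
        show ξ l + c (t l) - (ξ l + c (t' l)) = _
        ring
      rw [h1]
      exact CN_Grid_sep η hη _ _ hl
  have hinj : Set.InjOn pt (T : Set (Fin (n + 1) → ℕ × ℕ)) := by
    intro t ht t' ht' heq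
    by_contra hne
    obtain ⟨l, _, h2⟩ := hsep t ht t' ht' hne
    rw [heq, sub_self, norm_zero] at h2
    linarith
  refine ⟨T.image pt, ?_, ?_, ?_⟩
  · intro y hy
    obtain ⟨t, ht, rfl⟩ := Finset.mem_image.1 hy
    refine ⟨fun l => KK_add (hξ l) ?_, fun l => ?_⟩
    · intro hv
      show (((3 * η : ℝ) : ℂ) * (((t l).1 : ℂ) + ((t l).2 : ℂ) * Complex.I)).im = 0
      rw [(hT2 t ht l).2.2 hv]
      simp
    · have h1 : pt t l - ξ l = c (t l) := add_sub_cancel_left _ _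
      rw [h1]
      show ‖((3 * η : ℝ) : ℂ) * (((t l).1 : ℂ) + ((t l).2 : ℂ) * Complex.I)‖ ≤ ρ
      rw [norm_mul, Complex.norm_real, Real.norm_eq_abs, abs_of_pos (by positivity)]
      have h2 : ‖((t l).1 : ℂ) + ((t l).2 : ℂ) * Complex.I‖ ≤ 2 * N := by
        refine (norm_add_le _ _).trans ?_
        rw [norm_mul, Complex.norm_I, mul_one, Complex.norm_natCast, Complex.norm_natCast]
        have h3 : ((t l).1 : ℝ) ≤ N := by exact_mod_cast (hT2 t ht l).1
        have h4 : ((t l).2 : ℝ) ≤ N := by exact_mod_cast (hT2 t ht l).2.1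
        linarith
      calc 3 * η * ‖((t l).1 : ℂ) + ((t l).2 : ℂ) * Complex.I‖ ≤ 3 * η * (2 * N) := by gcongr
        _ = N * (6 * η) := by ring
        _ ≤ ρ := hN1
  · intro y hy y' hy' hne
    obtain ⟨t, ht, rfl⟩ := Finset.mem_image.1 hy
    obtain ⟨t', ht', rfl⟩ := Finset.mem_image.1 hy'
    exact hsep t ht t' ht' fun h => hne (by rw [h])
  · rw [Finset.card_image_of_injOn hinj, pow_mul]
    refine CN_Grid_card S hS (0, 0) Q _ (by positivity) ?_
    rw [hQc]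
    push_cast
    exact pow_le_pow_left₀ hu0 hN2 _

end Pool.Agent.Lib.MP_1ad228_ntN
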