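import Pool.Agent.Lib.MP_1ad228_ntN.CN_Cls
import Pool.Agent.Lib.MP_1ad228_ntN.CN_Ev
import Pool.Agent.Lib.MP_1ad228_ntN.CN_Grid

/-!
JOB CN_Cnt.  Counting integer vectors near robust zeros at all infinite places in a residue class (paper section 7). (Model over Q, one place: `cnt` in Lib/MP_1ad228_ntF/CN_Cnt.lean.)

PROOF.  `e = eK K`, `CC = CK K n ≥ 1`, `D = ∑ i, d i ≥ 1`, `dl = ρ^D/(2 D (n+1)^D)` (`0 < dl`, `2 dl ≤ ρ ≤ 1`), `η = dl / κ ≤ dl`.  `c = (ρ/6)^(e (n+1-r)) * dl^(e r) / CC^((e+1)(n+1))` intersected with `dl / CC`, i.e.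
`c = min (dl / CC) (..)` (`c ≤ 1`).  The hypothesis `κ W ≤ c B` gives `CC * W ≤ dl B / κ = η B`, `B > 0`.
1. For every `v` choose `S v` (injective) and the point `ξ v` of `Rob`; `grid` with `η`, `ρ` gives `G v : Finset (Vc n ℂ)`; for `y ∈ G v` let `s v y` be the zero of `Rob` at `y`: `s v y l ∈ KK v`, `s v y l = y l` for `l` not in the
   range of `S v`, `‖s v y l‖ ≤ 1/2`, `2 ρ ≤ ‖s v y o‖`, `ev (scF v A F i) (s v y) = 0`.
2. Families `Y ∈ Fintype.piFinset G` (functions `Y : InfinitePlace K → Vc n ℂ`).  For every `Y` and `l` `clsLow` with the centres `c v = B * s v (Y v) l` (in `KK v`: `KK_mul`, `KK_real`), radius `η B`, class of `x0 l`, gives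
   `Z Y l : Finset (𝓞 K)` with `(η B / W)^e ≤ CC^(e+1) (Z Y l).card`.  Let `E = (Fintype.piFinset G).sigma (fun Y => Fintype.piFinset (Z Y))` and map `(Y, x) ↦ x`.
3. This map is injective on `E`: if `x` comes from `Y` and `Y'` then for all `v, l`: `‖B s v (Y v) l - B s v (Y' v) l‖ ≤ 2 η B`, so `‖s v (Y v) l - s v (Y' v) l‖ ≤ 2 η`; if `Y v ≠ Y' v` for some `v` the second property of
   `grid` gives `l` outside the range of `S v` with `3 η ≤ ‖Y v l - Y' v l‖ = ‖s v (Y v) l - s v (Y' v) l‖`, contradiction.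
4. Every such `x` is in the filter: `v (x l) ≤ ‖B s‖ + η B ≤ B/2 + B/2 = B`; `v (x o) ≥ 2 ρ B - η B ≥ ρ B`, so `q v(x o) ≥ q ρ B ≥ B`; the last condition is `evNear`.
5. `E.card = ∑_Y ∏_l (Z Y l).card ≥ (∏_v (G v).card) * ((η B/W)^e / CC^(e+1))^(n+1)`, `∏_v (G v).card ≥ ∏_v (ρ/(6η))^(mult v (n+1-r)) = (ρ/(6 η))^(e (n+1-r))` (`∑ v, mult v = e`: `InfinitePlace.sum_mult_eq`, or `pn_const`).
   `(ρ/(6η))^(e(n+1-r)) (η B/W)^(e (n+1)) = (ρ/6)^(e(n+1-r)) η^(e r) (B/W)^(e(n+1))` (`r ≤ n+1`), `η = dl/κ`.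
-/

namespace Pool.Agent.Lib.MP_1ad228_ntN

open NumberField Classical

set_option linter.unusedSectionVars false

private theorem cncnt_alg (ρ dl κ B W : ℝ) (hdl : 0 < dl) (hκ : 0 < κ) (hW : 0 < W) (m r N : ℕ)
    (hN : N = m + r) : (ρ / 6) ^ m * dl ^ r * (B ^ N / (κ ^ r * W ^ N)) =
      (ρ / (6 * (dl / κ))) ^ m * (dl / κ * B / W) ^ N := by
  subst hN
  have h1 : ρ / (6 * (dl / κ)) = ρ / 6 * (κ / dl) := by
    field_simp
  have h2 : dl / κ * B / W = dl / κ * (B / W) := by ring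
  have h3 : (κ / dl) ^ m * (dl / κ) ^ m = 1 := by
    rw [← mul_pow]
    have : κ / dl * (dl / κ) = 1 := by field_simp
    rw [this, one_pow]
  rw [h1, h2, mul_pow, mul_pow, pow_add (dl / κ)]
  calc (ρ / 6) ^ m * dl ^ r * (B ^ (m + r) / (κ ^ r * W ^ (m + r)))
      = (ρ / 6) ^ m * (dl / κ) ^ r * (B / W) ^ (m + r) := by
        rw [div_pow dl, div_pow B]
        field_simp
    _ = (ρ / 6) ^ m * ((κ / dl) ^ m * (dl / κ) ^ m) * (dl / κ) ^ r * (B / W) ^ (m + r) := by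
        rw [h3, mul_one]
    _ = _ := by ring

variable (K : Type) [Field K] [NumberField K]

theorem cnt {n r : ℕ} (d : Fin r → ℕ) (hr : 1 ≤ r) (hrn : r ≤ n + 1) (hd : ∀ i, 1 ≤ d i)
    (ρ : ℝ) (hρ : 0 < ρ) (hρ1 : ρ ≤ 1) : ∃ c : ℝ, 0 < c ∧ c ≤ 1 ∧
    ∀ (o : Fin (n + 1)) (q κ W B A : ℕ), 1 ≤ ρ * q → 1 ≤ κ → 1 ≤ W → (κ : ℝ) * W ≤ c * B →
    1 ≤ A → ∀ F ∈ TBox K n d A,
    (∀ v : InfinitePlace K, ∃ S : Fin r → Fin (n + 1), Function.Injective S ∧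
      Rob v o S ρ (scF v A F)) → ∀ x0 : Vc n (𝓞 K),
    c * ((B : ℝ) ^ (n + 1) / ((κ : ℝ) ^ r * (W : ℝ) ^ (n + 1))) ^ eK K ≤
      (((VBox K n B).filter fun x => (∀ l, (W : 𝓞 K) ∣ x l - x0 l) ∧
        (∀ v : InfinitePlace K, (B : ℝ) ≤ q * v (x o : K)) ∧
        ∀ i, ∀ v : InfinitePlace K, (κ : ℝ) * v ((ev (F i) x : 𝓞 K) : K) ≤
          A * v (x o : K) ^ d i).card : ℝ) := by
  have hdD : ∀ i, d i ≤ ∑ i, d i := fun i =>
    Finset.single_le_sum (f := d) (fun _ _ => Nat.zero_le _) (Finset.mem_univ i)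
  have hD1 : 1 ≤ ∑ i, d i := (hd ⟨0, by omega⟩).trans (hdD ⟨0, by omega⟩)
  generalize (∑ i, d i) = D at hdD hD1
  have hD1r : (1 : ℝ) ≤ D := by exact_mod_cast hD1
  have hn1 : (1 : ℝ) ≤ ((n : ℝ) + 1) ^ D := by
    refine one_le_pow₀ ?_
    have : (0 : ℝ) ≤ n := Nat.cast_nonneg n
    linarith
  obtain ⟨dl, hdl⟩ : ∃ dl : ℝ, dl = ρ ^ D / (2 * (D : ℝ) * (n + 1) ^ D) := ⟨_, rfl⟩
  have hdl0 : 0 < dl := by rw [hdl]; positivity
  have hdlρ : 2 * dl ≤ ρ := by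
    rw [hdl, ← mul_div_assoc, div_le_iff₀ (by positivity)]
    have h1 : ρ ^ D ≤ ρ := by
      calc ρ ^ D ≤ ρ ^ 1 := pow_le_pow_of_le_one hρ.le hρ1 hD1
        _ = ρ := pow_one ρ
    have h2 : (1 : ℝ) ≤ D * (n + 1) ^ D := one_le_mul_of_one_le_of_one_le hD1r hn1
    calc 2 * ρ ^ D ≤ 2 * ρ := by linarith
      _ = ρ * (2 * 1) := by ring
      _ ≤ ρ * (2 * (D * (n + 1) ^ D)) := by
          refine mul_le_mul_of_nonneg_left ?_ hρ.le
          linarith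
      _ = ρ * (2 * (D : ℝ) * (n + 1) ^ D) := by ring
  have hdl1 : dl ≤ 1 := by linarith
  obtain ⟨CC, hCC⟩ : ∃ CC : ℝ, CC = CK K n := ⟨_, rfl⟩
  have hCC1 : 1 ≤ CC := hCC ▸ CK_one_le K n
  have hCC0 : 0 < CC := lt_of_lt_of_le one_pos hCC1
  obtain ⟨c2, hc2⟩ : ∃ c2 : ℝ, c2 = (ρ / 6) ^ (eK K * (n + 1 - r)) * dl ^ (eK K * r) /
    CC ^ ((eK K + 1) * (n + 1)) := ⟨_, rfl⟩
  have hc20 : 0 < c2 := by rw [hc2]; positivity
  refine ⟨min (dl / CC) c2, lt_min (by positivity) hc20,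
    (min_le_left _ _).trans ((div_le_one hCC0).2 (hdl1.trans hCC1)), ?_⟩
  intro o q κ W B A hq hκ hW hB hA F hF hR x0
  have hκ1 : (1 : ℝ) ≤ κ := by exact_mod_cast hκ
  have hκ0 : (0 : ℝ) < κ := lt_of_lt_of_le one_pos hκ1
  have hW1 : (1 : ℝ) ≤ W := by exact_mod_cast hW
  have hW0 : (0 : ℝ) < W := lt_of_lt_of_le one_pos hW1
  have hBn : (0 : ℝ) ≤ B := Nat.cast_nonneg B
  have hB1 : (κ : ℝ) * W ≤ dl / CC * B := hB.trans (mul_le_mul_of_nonneg_right (min_le_left _ _) hBn)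
  have hBpos : (0 : ℝ) < B := by
    by_contra hcon
    have h1 : (B : ℝ) = 0 := le_antisymm (not_lt.1 hcon) hBn
    rw [h1, mul_zero] at hB1
    have := mul_pos hκ0 hW0
    linarith
  obtain ⟨η, hη⟩ : ∃ η : ℝ, η = dl / κ := ⟨_, rfl⟩
  have hη0 : 0 < η := by rw [hη]; positivity
  have hηdl : η ≤ dl := by
    rw [hη, div_le_iff₀ hκ0]
    exact le_mul_of_one_le_right hdl0.le hκ1
  have hWη : CK K n * W ≤ η * B := by
    rw [← hCC, hη, div_mul_eq_mul_div, le_div_iff₀ hκ0]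
    have h1 : (κ : ℝ) * W * CC ≤ dl / CC * B * CC := mul_le_mul_of_nonneg_right hB1 hCC0.le
    have h2 : dl / CC * B * CC = dl * B := by field_simp
    rw [h2] at h1
    linarith
  choose S hS hR1 using hR
  choose ξ hξK hξ using hR1
  choose G hG1 hG2 hG3 using fun v => grid v (S v) (hS v) (ξ v) (hξK v) ρ η hη0 hρ
  have hs0 : ∀ (v : InfinitePlace K) (y : Vc n ℂ), y ∈ G v → ∃ s : Vc n ℂ, (∀ l, s l ∈ KK v) ∧
      (∀ l, (∀ k, l ≠ S v k) → s l = y l) ∧ (∀ l, ‖s l‖ ≤ 1 / 2) ∧ 2 * ρ ≤ ‖s o‖ ∧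
      ∀ i, ev (scF v A F i) s = 0 := fun v y hy => hξ v y (hG1 v y hy).1 (hG1 v y hy).2
  choose! s hs using hs0
  have hZ0 : ∀ (Y : InfinitePlace K → Vc n ℂ) (l : Fin (n + 1)), Y ∈ Fintype.piFinset G →
      ∃ T : Finset (𝓞 K), (∀ z ∈ T, (W : 𝓞 K) ∣ z - x0 l ∧
        ∀ v : InfinitePlace K, ‖em v z - B * s v (Y v) l‖ ≤ η * B) ∧
        (η * B / W) ^ eK K ≤ CK K n ^ (eK K + 1) * (T.card : ℝ) := by
    intro Y l hY
    refine clsLow n W hW (η * B) hWη (fun v => B * s v (Y v) l) (fun v => ?_) (x0 l)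
    refine KK_mul ?_ ((hs v (Y v) (Fintype.mem_piFinset.1 hY v)).1 l)
    exact_mod_cast KK_real v (B : ℝ)
  choose! Z hZ using hZ0
  obtain ⟨E, hE⟩ : ∃ E : Finset (Σ _ : InfinitePlace K → Vc n ℂ, Vc n (𝓞 K)),
      E = (Fintype.piFinset G).sigma fun Y => Fintype.piFinset (Z Y) := ⟨_, rfl⟩
  obtain ⟨u, hu⟩ : ∃ u : ℝ, u = (η * B / W) ^ eK K / CC ^ (eK K + 1) := ⟨_, rfl⟩
  have hu0 : 0 ≤ u := by rw [hu]; positivity
  have hEc : ((ρ / (6 * η)) ^ eK K) ^ (n + 1 - r) * u ^ (n + 1) ≤ (E.card : ℝ) := by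
    rw [hE, Finset.card_sigma]
    push_cast
    have h1 : ∀ Y ∈ Fintype.piFinset G, u ^ (n + 1) ≤ ((Fintype.piFinset (Z Y)).card : ℝ) := by
      intro Y hY
      rw [Fintype.card_piFinset]
      push_cast
      have h2 : u ^ (n + 1) = ∏ _l : Fin (n + 1), u := by
        rw [Finset.prod_const, Finset.card_univ, Fintype.card_fin]
      rw [h2]
      refine Finset.prod_le_prod (fun _ _ => hu0) fun l _ => ?_
      rw [hu, div_le_iff₀ (by positivity), mul_comm ((Z Y l).card : ℝ), hCC]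
      exact (hZ Y l hY).2
    have h3 : ((ρ / (6 * η)) ^ eK K) ^ (n + 1 - r) ≤ ((Fintype.piFinset G).card : ℝ) := by
      rw [Fintype.card_piFinset]
      push_cast
      have h4 : ((ρ / (6 * η)) ^ eK K) ^ (n + 1 - r) =
          ∏ v : InfinitePlace K, (ρ / (6 * η)) ^ (v.mult * (n + 1 - r)) := by
        rw [← pn_const, pn, ← Finset.prod_pow]
        exact Finset.prod_congr rfl fun v _ => (pow_mul _ _ _).symm
      rw [h4]
      exact Finset.prod_le_prod (fun _ _ => by positivity) fun v _ => hG3 v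
    calc ((ρ / (6 * η)) ^ eK K) ^ (n + 1 - r) * u ^ (n + 1)
        ≤ ((Fintype.piFinset G).card : ℝ) * u ^ (n + 1) :=
          mul_le_mul_of_nonneg_right h3 (pow_nonneg hu0 _)
      _ = ∑ _Y ∈ Fintype.piFinset G, u ^ (n + 1) := by rw [Finset.sum_const, nsmul_eq_mul]
      _ ≤ _ := Finset.sum_le_sum h1
  have hL : c2 * ((B : ℝ) ^ (n + 1) / ((κ : ℝ) ^ r * (W : ℝ) ^ (n + 1))) ^ eK K =
      ((ρ / (6 * η)) ^ eK K) ^ (n + 1 - r) * u ^ (n + 1) := by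
    have h1 := cncnt_alg ρ dl κ B W hdl0 hκ0 hW0 (n + 1 - r) r (n + 1) (by omega)
    rw [← hη] at h1
    have h2 : (ρ / 6) ^ (eK K * (n + 1 - r)) * dl ^ (eK K * r) =
        ((ρ / 6) ^ (n + 1 - r) * dl ^ r) ^ eK K := by
      rw [mul_pow, ← pow_mul, ← pow_mul, mul_comm (eK K), mul_comm (eK K) r]
    have h3 : ((ρ / (6 * η)) ^ eK K) ^ (n + 1 - r) * u ^ (n + 1) =
        ((ρ / (6 * η)) ^ (n + 1 - r) * (η * B / W) ^ (n + 1)) ^ eK K /
          CC ^ ((eK K + 1) * (n + 1)) := by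
      rw [hu, div_pow ((η * B / W) ^ eK K), ← pow_mul CC, mul_pow _ ((η * B / W) ^ (n + 1)),
        pow_right_comm (ρ / (6 * η)) (eK K) (n + 1 - r), pow_right_comm (η * B / W) (eK K) (n + 1)]
      ring
    rw [h3, ← h1, hc2, h2, mul_pow _ ((B : ℝ) ^ (n + 1) / ((κ : ℝ) ^ r * (W : ℝ) ^ (n + 1))) (eK K)]
    ring
  have hgoal : min (dl / CC) c2 * ((B : ℝ) ^ (n + 1) / ((κ : ℝ) ^ r * (W : ℝ) ^ (n + 1))) ^ eK K ≤
      (E.card : ℝ) := by
    refine (mul_le_mul_of_nonneg_right (min_le_right _ _) (by positivity)).trans ?_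
    rw [hL]
    exact hEc
  refine hgoal.trans ?_
  rw [Nat.cast_le]
  refine Finset.card_le_card_of_injOn (fun t => t.2) ?_ ?_
  · rintro ⟨Y, x⟩ ht
    rw [hE, Finset.mem_coe, Finset.mem_sigma] at ht
    obtain ⟨hY, hx⟩ := ht
    have hY' : ∀ v, Y v ∈ G v := Fintype.mem_piFinset.1 hY
    have hx' : ∀ l, x l ∈ Z Y l := Fintype.mem_piFinset.1 hx
    have f0 : ∀ v l, ‖em v (x l) - B * s v (Y v) l‖ ≤ η * B := fun v l =>
      ((hZ Y l hY).1 (x l) (hx' l)).2 v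
    have f4 : ∀ (v : InfinitePlace K) l, v (x l : K) ≤ B := by
      intro v l
      rw [← norm_em]
      have h1 := f0 v l
      have h2 := (hs v (Y v) (hY' v)).2.2.1 l
      have h3 : ‖(B : ℂ) * s v (Y v) l‖ ≤ B / 2 := by
        rw [norm_mul, Complex.norm_natCast]
        nlinarith
      have h4 : em v (x l) = (em v (x l) - B * s v (Y v) l) + B * s v (Y v) l := by ring
      rw [h4]
      refine (norm_add_le _ _).trans ?_
      nlinarith
    have f5 : ∀ v : InfinitePlace K, ρ * B ≤ v (x o : K) := by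
      intro v
      rw [← norm_em]
      have h1 := f0 v o
      have h2 := (hs v (Y v) (hY' v)).2.2.2.1
      have h3 : 2 * ρ * B ≤ ‖(B : ℂ) * s v (Y v) o‖ := by
        rw [norm_mul, Complex.norm_natCast, mul_comm]
        exact mul_le_mul_of_nonneg_left h2 hBn
      have h4 : (B : ℂ) * s v (Y v) o = em v (x o) - (em v (x o) - B * s v (Y v) o) := by ring
      have h5 : ‖(B : ℂ) * s v (Y v) o‖ ≤ ‖em v (x o)‖ + ‖em v (x o) - B * s v (Y v) o‖ := by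
        conv_lhs => rw [h4]
        exact norm_sub_le _ _
      nlinarith
    show x ∈ _
    rw [Finset.mem_coe, Finset.mem_filter]
    refine ⟨mem_VBox.2 fun l v => f4 v l, fun l => ((hZ Y l hY).1 (x l) (hx' l)).1, fun v => ?_,
      fun i v => ?_⟩
    · have h2 : (q : ℝ) * (ρ * B) ≤ q * v (x o : K) :=
        mul_le_mul_of_nonneg_left (f5 v) (Nat.cast_nonneg _)
      nlinarith
    · refine evNear v D A B κ (hdD i) hD1 hA hκ ρ hρ hρ1 hBpos (F i) (mem_TBox.1 hF i) x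
        (s v (Y v)) (f4 v) (hs v (Y v) (hY' v)).2.2.1 (fun l => ?_)
        ((hs v (Y v) (hY' v)).2.2.2.2 i) o (f5 v)
      refine (f0 v l).trans (le_of_eq ?_)
      rw [hη, hdl]
      ring
  · rintro ⟨Y, x⟩ ht ⟨Y', x'⟩ ht' heq
    rw [hE, Finset.mem_coe, Finset.mem_sigma] at ht ht'
    have hxx : x = x' := heq
    subst hxx
    have hYY : Y = Y' := by
      funext v
      by_contra hne
      have hYv : Y v ∈ G v := Fintype.mem_piFinset.1 ht.1 v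
      have hYv' : Y' v ∈ G v := Fintype.mem_piFinset.1 ht'.1 v
      obtain ⟨l, hl, h3⟩ := hG2 v (Y v) hYv (Y' v) hYv' hne
      have h1 := ((hZ Y l ht.1).1 (x l) (Fintype.mem_piFinset.1 ht.2 l)).2 v
      have h2 := ((hZ Y' l ht'.1).1 (x l) (Fintype.mem_piFinset.1 ht'.2 l)).2 v
      rw [(hs v (Y v) hYv).2.1 l hl] at h1
      rw [(hs v (Y' v) hYv').2.1 l hl] at h2
      have h4 : (B : ℂ) * (Y v l - Y' v l) =
          (em v (x l) - B * Y' v l) - (em v (x l) - B * Y v l) := by ring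
      have h5 : ‖(B : ℂ) * (Y v l - Y' v l)‖ ≤ η * B + η * B := by
        rw [h4]
        exact (norm_sub_le _ _).trans (add_le_add h2 h1)
      rw [norm_mul, Complex.norm_natCast] at h5
      have h6 : (B : ℝ) * (3 * η) ≤ B * ‖Y v l - Y' v l‖ := mul_le_mul_of_nonneg_left h3 hBn
      have h7 : 0 < η * B := mul_pos hη0 hBpos
      linarith
    rw [hYY]

end Pool.Agent.Lib.MP_1ad228_ntN
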