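import Pool.Agent.Lib.MP_1ad228_ntN.CN_Cnt
import Pool.Agent.Lib.MP_1ad228_ntN.CN_Np
import Pool.Agent.Lib.MP_1ad228_ntN.CN_Cls

/-!
Number of good locally prepared vectors (paper section 8). (Model over Q: CN_Low_count in Lib/MP_1ad228_ntF/CN_Low.lean.)
-/

namespace Pool.Agent.Lib.MP_1ad228_ntN

open NumberField Classical

set_option linter.unusedSectionVars false

variable (K : Type) [Field K] [NumberField K]

private theorem CN_Count_WWpos (w : ℕ) : 1 ≤ WW w := by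
  have h : 0 < ∏ p ∈ (Finset.range (w + 1)).filter Nat.Prime, p ^ w := by
    refine Finset.prod_pos fun p hp => ?_
    exact pow_pos (Finset.mem_filter.mp hp).2.pos _
  exact h

/-- Counting by residue classes: disjoint pieces indexed by the zeros modulo `I`. -/
private theorem CN_Count_sum {n r : ℕ} {d : Fin r → ℕ} (w B H q κ A : ℕ) (hB1 : 1 ≤ B)
    (o : Fin (n + 1)) (F : Tup n d (𝓞 K)) (L : ℝ)
    (h : ∀ x0 : Vc n (𝓞 K), Uni (vmap (Ideal.Quotient.mk (WI K w)) x0) →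
      L ≤ ((((VBox K n B).filter fun x => (∀ l, ((WW w : ℕ) : 𝓞 K) ∣ x l - x0 l) ∧
        (∀ v : InfinitePlace K, (B : ℝ) ≤ q * v (x o : K)) ∧
        ∀ i, ∀ v : InfinitePlace K, (κ : ℝ) * v ((ev (F i) x : 𝓞 K) : K) ≤
          A * v (x o : K) ^ d i) \
        ((VBox K n B).filter fun x => (∀ l, ((WW w : ℕ) : 𝓞 K) ∣ x l - x0 l) ∧ x ≠ 0 ∧
          ¬ Uni x)).card : ℝ)) :
    (smI (WI K w) F : ℝ) * L ≤
      (((GG K B H q o).filter (fun x => ∀ i, Loc (WW w) κ A o (F i) x)).card : ℝ) +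
        (((VBox K n B).filter fun x => ¬ HGood H x).card : ℝ) := by
  have hWp := CN_Count_WWpos w
  have hWO : ((WW w : ℕ) : 𝓞 K) ≠ 0 := Nat.cast_ne_zero.2 (by omega)
  have hI : WI K w ≠ ⊥ := by
    unfold WI
    rw [Ne, Ideal.span_singleton_eq_bot]
    exact hWO
  have hfin : Finite (𝓞 K ⧸ WI K w) := Ideal.finiteQuotientOfFreeOfNeBot (WI K w) hI
  have hft : Fintype (𝓞 K ⧸ WI K w) := Fintype.ofFinite _
  have hdvd : ∀ a b : 𝓞 K, Ideal.Quotient.mk (WI K w) a = Ideal.Quotient.mk (WI K w) b ↔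
      ((WW w : ℕ) : 𝓞 K) ∣ a - b := by
    intro a b
    rw [Ideal.Quotient.eq, WI, Ideal.mem_span_singleton]
  obtain ⟨lf, hlf⟩ : ∃ lf : (𝓞 K ⧸ WI K w) → 𝓞 K, ∀ z, Ideal.Quotient.mk (WI K w) (lf z) = z :=
    ⟨fun z => (Ideal.Quotient.mk_surjective z).choose,
      fun z => (Ideal.Quotient.mk_surjective z).choose_spec⟩
  obtain ⟨Z, hZ⟩ : ∃ Z : Finset (Vc n (𝓞 K ⧸ WI K w)), Z = Finset.univ.filter (fun z => Uni z ∧
      ∀ i, ev (red (WI K w) F i) z = 0) := ⟨_, rfl⟩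
  have hsm : smI (WI K w) F = Z.card := by
    rw [hZ]
    unfold smI smR
    rw [Nat.card_eq_fintype_card, Fintype.card_subtype]
  have hmemZ : ∀ z, z ∈ Z ↔ Uni z ∧ ∀ i, ev (red (WI K w) F i) z = 0 := by
    intro z
    rw [hZ, Finset.mem_filter]
    exact ⟨fun h => h.2, fun h => ⟨Finset.mem_univ _, h⟩⟩
  obtain ⟨X, hX⟩ : ∃ X : Vc n (𝓞 K ⧸ WI K w) → Finset (Vc n (𝓞 K)), X = fun z =>
      (VBox K n B).filter fun x => (∀ l, ((WW w : ℕ) : 𝓞 K) ∣ x l - lf (z l)) ∧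
        (∀ v : InfinitePlace K, (B : ℝ) ≤ q * v (x o : K)) ∧
        ∀ i, ∀ v : InfinitePlace K, (κ : ℝ) * v ((ev (F i) x : 𝓞 K) : K) ≤
          A * v (x o : K) ^ d i := ⟨_, rfl⟩
  obtain ⟨Y, hY⟩ : ∃ Y : Vc n (𝓞 K ⧸ WI K w) → Finset (Vc n (𝓞 K)), Y = fun z =>
      (VBox K n B).filter fun x => (∀ l, ((WW w : ℕ) : 𝓞 K) ∣ x l - lf (z l)) ∧ x ≠ 0 ∧
        ¬ Uni x := ⟨_, rfl⟩
  have hcong : ∀ (x : Vc n (𝓞 K)) (z : Vc n (𝓞 K ⧸ WI K w)),
      (∀ l, ((WW w : ℕ) : 𝓞 K) ∣ x l - lf (z l)) → vmap (Ideal.Quotient.mk (WI K w)) x = z := by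
    intro x z hx
    funext l
    show Ideal.Quotient.mk (WI K w) (x l) = z l
    have h1 := (hdvd (x l) (lf (z l))).2 (hx l)
    rw [h1, hlf]
  have hmX : ∀ x z, x ∈ X z ↔ x ∈ VBox K n B ∧ (∀ l, ((WW w : ℕ) : 𝓞 K) ∣ x l - lf (z l)) ∧
        (∀ v : InfinitePlace K, (B : ℝ) ≤ q * v (x o : K)) ∧
        ∀ i, ∀ v : InfinitePlace K, (κ : ℝ) * v ((ev (F i) x : 𝓞 K) : K) ≤
          A * v (x o : K) ^ d i := by
    intro x z
    rw [hX]
    exact Finset.mem_filter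
  have hmY : ∀ x z, x ∈ Y z ↔ x ∈ VBox K n B ∧ (∀ l, ((WW w : ℕ) : 𝓞 K) ∣ x l - lf (z l)) ∧
        x ≠ 0 ∧ ¬ Uni x := by
    intro x z
    rw [hY]
    exact Finset.mem_filter
  have hdisj : ∀ z ∈ Z, ∀ z' ∈ Z, z ≠ z' → Disjoint (X z \ Y z) (X z' \ Y z') := by
    intro z _ z' _ hzz
    rw [Finset.disjoint_left]
    intro x hx hx'
    have h1 := ((hmX x z).1 (Finset.mem_sdiff.mp hx).1).2.1
    have h2 := ((hmX x z').1 (Finset.mem_sdiff.mp hx').1).2.1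
    exact hzz ((hcong x z h1).symm.trans (hcong x z' h2))
  have hsub : Z.biUnion (fun z => X z \ Y z) ⊆
      ((GG K B H q o).filter (fun x => ∀ i, Loc (WW w) κ A o (F i) x)) ∪
        ((VBox K n B).filter fun x => ¬ HGood H x) := by
    intro x hx
    obtain ⟨z, hz, hxz⟩ := Finset.mem_biUnion.mp hx
    obtain ⟨hxX, hxY⟩ := Finset.mem_sdiff.mp hxz
    obtain ⟨hV, hcl, hpo, hka⟩ := (hmX x z).1 hxX
    obtain ⟨_, hza⟩ := (hmemZ z).1 hz
    rw [Finset.mem_union]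
    by_cases hg : HGood H x
    · left
      have hx0 : x ≠ 0 := by
        intro h0
        obtain ⟨v⟩ : Nonempty (InfinitePlace K) := inferInstance
        have h2 := hpo v
        have h3 : ((x o : 𝓞 K) : K) = 0 := by
          rw [h0, Pi.zero_apply]
          exact map_zero (algebraMap (𝓞 K) K)
        rw [h3, v_zero, mul_zero] at h2
        have h1 : (1 : ℝ) ≤ B := by exact_mod_cast hB1
        linarith
      have hU : Uni x := by
        by_contra hU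
        exact hxY ((hmY x z).2 ⟨hV, hcl, hx0, hU⟩)
      have hcx := hcong x z hcl
      have hdv : ∀ i, ((WW w : ℕ) : 𝓞 K) ∣ ev (F i) x := by
        intro i
        have h1 := hza i
        rw [← hcx] at h1
        have h2 : ev (red (WI K w) F i) (vmap (Ideal.Quotient.mk (WI K w)) x) =
            Ideal.Quotient.mk (WI K w) (ev (F i) x) := ev_map _ (F i) x
        rw [h2] at h1
        have h3 := Ideal.Quotient.eq_zero_iff_mem.1 h1
        rw [WI, Ideal.mem_span_singleton] at h3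
        exact h3
      refine Finset.mem_filter.mpr ⟨?_, fun i => ⟨hdv i, fun v => hka i v⟩⟩
      unfold GG
      exact Finset.mem_filter.mpr ⟨hV, hpo, hU, hg⟩
    · right
      exact Finset.mem_filter.mpr ⟨hV, hg⟩
  have hcard : ∑ z ∈ Z, (((X z \ Y z).card : ℕ) : ℝ) ≤
      (((GG K B H q o).filter (fun x => ∀ i, Loc (WW w) κ A o (F i) x)).card : ℝ) +
        (((VBox K n B).filter fun x => ¬ HGood H x).card : ℝ) := by
    have h1 := (Finset.card_le_card hsub).trans (Finset.card_union_le _ _)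
    rw [Finset.card_biUnion hdisj] at h1
    exact_mod_cast h1
  refine le_trans ?_ hcard
  rw [hsm, ← nsmul_eq_mul]
  refine Finset.card_nsmul_le_sum _ _ _ ?_
  intro z hz
  obtain ⟨hzU, _⟩ := (hmemZ z).1 hz
  have h1 := h (fun l => lf (z l)) (by
    have h2 : vmap (Ideal.Quotient.mk (WI K w)) (fun l => lf (z l)) = z := by
      funext l
      exact hlf (z l)
    rw [h2]
    exact hzU)
  rw [hX, hY]
  exact h1

theorem countLow {n r : ℕ} (d : Fin r → ℕ) (hr : 1 ≤ r) (hrn : r ≤ n + 1) (hn : 1 ≤ n)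
    (hd : ∀ i, 1 ≤ d i) (ρ : ℝ) (hρ : 0 < ρ) (hρ1 : ρ ≤ 1) :
    ∃ c C : ℝ, 0 < c ∧ c ≤ 1 ∧ 0 ≤ C ∧
      ∀ (o : Fin (n + 1)) (q κ w B H A : ℕ), 1 ≤ ρ * q → 1 ≤ κ → 1 ≤ w → 1 ≤ B →
      (κ : ℝ) * (WW w : ℝ) ≤ c * B → 1 ≤ A → ∀ F ∈ TBox K n d A,
      (∀ v : InfinitePlace K, ∃ S : Fin r → Fin (n + 1), Function.Injective S ∧
        Rob v o S ρ (scF v A F)) →
      (smI (WI K w) F : ℝ) *
        (c * ((B : ℝ) ^ (n + 1) / ((κ : ℝ) ^ r * (WW w : ℝ) ^ (n + 1))) ^ eK K -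
          C * (((B : ℝ) / (WW w : ℝ)) ^ (eK K * (n + 1)) / (w + 1) + (B : ℝ) ^ eK K)) ≤
        (((GG K B H q o).filter (fun x => ∀ i, Loc (WW w) κ A o (F i) x)).card : ℝ) +
          (((VBox K n B).filter fun x => ¬ HGood H x).card : ℝ) := by
  obtain ⟨c, hc0, hc1, hcnt⟩ := cnt (K := K) d hr hrn hd ρ hρ hρ1
  obtain ⟨C, hC1, hnp⟩ := nonPrim (K := K) n hn
  refine ⟨c, C, hc0, hc1, by linarith, ?_⟩
  intro o q κ w B H A hq hκ hw hB1 hB hA F hF hrob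
  refine CN_Count_sum K w B H q κ A hB1 o F _ ?_
  intro x0 hx0
  have h1 := hcnt o q κ (WW w) B A hq hκ (CN_Count_WWpos w) hB hA F hF hrob x0
  have h2 := hnp w B hw hB1 x0 hx0
  obtain ⟨X, hX⟩ : ∃ X : Finset (Vc n (𝓞 K)), X = (VBox K n B).filter fun x =>
      (∀ l, ((WW w : ℕ) : 𝓞 K) ∣ x l - x0 l) ∧
        (∀ v : InfinitePlace K, (B : ℝ) ≤ q * v (x o : K)) ∧
        ∀ i, ∀ v : InfinitePlace K, (κ : ℝ) * v ((ev (F i) x : 𝓞 K) : K) ≤
          A * v (x o : K) ^ d i := ⟨_, rfl⟩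
  obtain ⟨Y, hY⟩ : ∃ Y : Finset (Vc n (𝓞 K)), Y = (VBox K n B).filter fun x =>
      (∀ l, ((WW w : ℕ) : 𝓞 K) ∣ x l - x0 l) ∧ x ≠ 0 ∧ ¬ Uni x := ⟨_, rfl⟩
  rw [← hX] at h1
  rw [← hY] at h2
  rw [← hX, ← hY]
  have h3 : (X.card : ℝ) ≤ ((X \ Y).card : ℝ) + (Y.card : ℝ) := by
    have h4 : X.card ≤ (X \ Y).card + Y.card := by
      have h5 := Finset.le_card_sdiff Y X
      omega
    exact_mod_cast h4
  linarith

end Pool.Agent.Lib.MP_1ad228_ntN
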