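import Pool.Agent.Lib.MP_1ad228_ntN.TpK

/-!
Points of a box on a hyperplane; sum over the vectors of a box.  (Compare Lib/MP_219881_nt/HG_Cnt.lean.)

`e = eK K`, `κ = CK K n`.
`cntF`: `δ = f j`, `c = Ideal.span (Set.range f)`, `(δ) ≤ c`. `fibJ c (span {δ}) .. 0` (NB_Low) gives a finset `R` of elements of `c`, pairwise incongruent modulo `δ`, with `R.card * N(c) = N((δ)) = pn(v δ)`.
For `z ∈ R`: `z = ∑ i, u i * f i`; put `w_z i = u i - δ m i` for `i ≠ j` with `m i` = rounding of `u i / δ` (`rndK`): `v(w_z i) ≤ κ v(δ) ≤ B`; `w_z j = 0`;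
`∑_{i ≠ j} f i w_z i ≡ z mod δ`. Let `T` be the filter set. The map `(x, z) ↦ y`, `y i = x i + w_z i` for `i ≠ j`, `y j = 0` from `T ×ˢ R` to the box is injective.

`cntS`: group the nonzero `f` by `j f`; for fixed `j` the sum over `f ∈ VBox K n R` of a function of `f j` is a product.
-/

namespace Pool.Agent.Lib.MP_1ad228_ntN

open NumberField Classical

set_option linter.unusedSectionVars false

variable {K : Type} [Field K] [NumberField K]

private theorem hgCnt_card (n : ℕ) (j : Fin (n + 1)) (S T : Finset (𝓞 K)) :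
    (Fintype.piFinset fun i : Fin (n + 1) => if i = j then S else T).card =
      S.card * T.card ^ n := by
  rw [Fintype.card_piFinset, Fin.prod_univ_succAbove _ j, if_pos rfl]
  congr 1
  have h : ∀ i : Fin n, (if j.succAbove i = j then S else T).card = T.card := by
    intro i
    rw [if_neg (Fin.succAbove_ne j i)]
  rw [Finset.prod_congr rfl fun i _ => h i, Finset.prod_const, Finset.card_univ, Fintype.card_fin]

/-- the vector `w_z` of the proof -/
private theorem hgCnt_w (n B : ℕ) (f : Vc n (𝓞 K)) (j : Fin (n + 1)) (hfj : f j ≠ 0)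
    (hB : ∀ v : InfinitePlace K, v (f j : K) ≤ B) (z : 𝓞 K)
    (hz : z ∈ Ideal.span (Set.range f)) :
    ∃ w : Vc n (𝓞 K), w j = 0 ∧ (∀ i, ∀ v : InfinitePlace K, v (w i : K) ≤ CK K n * B) ∧
      lin f w - z ∈ Ideal.span {f j} := by
  obtain ⟨u, hu⟩ := Ideal.mem_span_range_iff_exists_fun.1 hz
  choose m hm using fun i => rndK (K := K) n ((u i : K) / (f j : K))
  have hfj' : (f j : K) ≠ 0 := by
    intro h
    exact hfj (RingOfIntegers.ext (by rw [h]; simp))
  refine ⟨fun i => if i = j then 0 else u i - f j * m i, if_pos rfl, fun i v => ?_, ?_⟩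
  · show v ((if i = j then (0 : 𝓞 K) else u i - f j * m i : 𝓞 K) : K) ≤ CK K n * B
    have hκ := CK_one_le K n
    by_cases hij : i = j
    · rw [if_pos hij]
      have h1 : ((0 : 𝓞 K) : K) = 0 := by simp
      rw [h1, v_zero]
      positivity
    · rw [if_neg hij]
      have h1 : ((u i - f j * m i : 𝓞 K) : K) = (f j : K) * ((u i : K) / (f j : K) - (m i : K)) := by
        have h2 : ((u i - f j * m i : 𝓞 K) : K) = (u i : K) - (f j : K) * (m i : K) := by
          simp
        rw [h2]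
        field_simp
      rw [h1, v_mul]
      have h2 := mul_le_mul_of_nonneg_left (hm i v) (v_nonneg v (f j : K))
      have h3 := mul_le_mul_of_nonneg_left (hB v) (by linarith : (0 : ℝ) ≤ CK K n)
      linarith
  · have h1 : lin f (fun i => if i = j then 0 else u i - f j * m i) - z =
        ∑ i, (f i * (if i = j then 0 else u i - f j * m i) - u i * f i) := by
      rw [Finset.sum_sub_distrib, hu]
      rfl
    rw [h1]
    refine Ideal.sum_mem _ fun i _ => ?_
    rw [Ideal.mem_span_singleton]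
    by_cases hij : i = j
    · rw [if_pos hij, hij]
      exact ⟨-u j, by ring⟩
    · rw [if_neg hij]
      exact ⟨-(f i * m i), by ring⟩

variable (K) in
theorem cntF0 (n : ℕ) : ∃ C : ℝ, 1 ≤ C ∧ ∀ (B : ℕ) (f : Vc n (𝓞 K)) (j : Fin (n + 1)), 1 ≤ B →
    f j ≠ 0 → (∀ v : InfinitePlace K, v (f j : K) ≤ B) →
    (((VBox K n B).filter fun x => lin f x = 0).card : ℝ) *
      pn (fun v : InfinitePlace K => v (f j : K)) ≤
      C * (Ideal.absNorm (Ideal.span (Set.range f)) : ℝ) * (B : ℝ) ^ (eK K * n) := by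
  have hκ := CK_one_le K n
  refine ⟨(CK K n * (1 + CK K n) ^ eK K) ^ n, ?_, fun B f j hB1 hfj hB => ?_⟩
  · refine one_le_pow₀ ?_
    have h2 : (1 : ℝ) ≤ (1 + CK K n) ^ eK K := one_le_pow₀ (by linarith)
    nlinarith
  have hmem : f j ∈ Ideal.span (Set.range f) := Ideal.subset_span ⟨j, rfl⟩
  have hle : Ideal.span {f j} ≤ Ideal.span (Set.range f) := by
    rwa [Ideal.span_singleton_le_iff_mem]
  have hJ : Ideal.span {f j} ≠ (⊥ : Ideal (𝓞 K)) := by
    rwa [Ne, Ideal.span_singleton_eq_bot]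
  obtain ⟨R, hR1, hR2, hR3⟩ := fibJ (Ideal.span (Set.range f)) (Ideal.span {f j}) hle hJ 0
  have hR1' : ∀ z ∈ R, z ∈ Ideal.span (Set.range f) := by
    intro z hz
    have h1 := hR1 z hz
    rwa [sub_zero] at h1
  choose! w hw0 hw1 hw2 using fun (z : 𝓞 K) (hz : z ∈ Ideal.span (Set.range f)) =>
    hgCnt_w n B f j hfj hB z hz
  obtain ⟨T, hT⟩ : ∃ T : Finset (Vc n (𝓞 K)), T = (VBox K n B).filter fun x => lin f x = 0 :=
    ⟨_, rfl⟩
  have hTmem : ∀ x, x ∈ T ↔ (∀ i, ∀ v : InfinitePlace K, v (x i : K) ≤ B) ∧ lin f x = 0 := by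
    intro x
    rw [hT, Finset.mem_filter, mem_VBox]
  rw [← hT]
  -- the map
  obtain ⟨g, hg⟩ : ∃ g : Vc n (𝓞 K) × 𝓞 K → Vc n (𝓞 K),
      ∀ p i, g p i = if i = j then 0 else p.1 i + w p.2 i := ⟨_, fun _ _ => rfl⟩
  have hlin : ∀ p : Vc n (𝓞 K) × 𝓞 K, p.1 ∈ T → p.2 ∈ R →
      lin f (g p) - p.2 ∈ Ideal.span {f j} := by
    intro p hp1 hp2
    have hx := ((hTmem p.1).1 hp1).2
    have h1 : lin f (g p) = lin f p.1 + lin f (w p.2) - f j * p.1 j := by
      have h2 : lin f (g p) - lin f p.1 - lin f (w p.2) =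
          ∑ i, (f i * g p i - f i * p.1 i - f i * w p.2 i) := by
        rw [Finset.sum_sub_distrib, Finset.sum_sub_distrib]
        rfl
      have h3 : ∑ i, (f i * g p i - f i * p.1 i - f i * w p.2 i) = - (f j * p.1 j) := by
        rw [Finset.sum_eq_single j]
        · rw [hg, if_pos rfl, hw0 p.2 (hR1' _ hp2)]
          ring
        · intro i _ hij
          rw [hg, if_neg hij]
          ring
        · intro h
          exact absurd (Finset.mem_univ j) h
      rw [h3] at h2
      linear_combination h2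
    have h4 := hw2 p.2 (hR1' _ hp2)
    have h5 : lin f (g p) - p.2 = (lin f (w p.2) - p.2) - f j * p.1 j := by
      rw [h1, hx]
      ring
    rw [h5]
    refine Ideal.sub_mem _ h4 ?_
    rw [Ideal.mem_span_singleton]
    exact ⟨p.1 j, rfl⟩
  have hcard : T.card * R.card ≤
      (Fintype.piFinset fun i : Fin (n + 1) => if i = j then {(0 : 𝓞 K)} else
        OBox K ((1 + CK K n) * B)).card := by
    rw [← Finset.card_product]
    refine Finset.card_le_card_of_injOn g ?_ ?_
    · intro p hp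
      rw [Finset.mem_coe, Finset.mem_product] at hp
      rw [Finset.mem_coe, Fintype.mem_piFinset]
      intro i
      rw [hg]
      by_cases hij : i = j
      · rw [if_pos hij, if_pos hij]
        exact Finset.mem_singleton_self 0
      · rw [if_neg hij, if_neg hij, mem_OBox]
        intro v
        have h1 := ((hTmem p.1).1 hp.1).1 i v
        have h2 := hw1 p.2 (hR1' _ hp.2) i v
        have h2' : (1 + CK K n) * (B : ℝ) = B + CK K n * B := by ring
        have h3 : ((p.1 i + w p.2 i : 𝓞 K) : K) = (p.1 i : K) + (w p.2 i : K) := by simp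
        rw [h3]
        refine (v_add_le v _ _).trans ?_
        linarith
    · intro p hp p' hp' heq
      rw [Finset.mem_coe, Finset.mem_product] at hp hp'
      have h1 := hlin p hp.1 hp.2
      have h2 := hlin p' hp'.1 hp'.2
      rw [heq] at h1
      have h3 : p.2 - p'.2 ∈ Ideal.span {f j} := by
        have h4 := Ideal.sub_mem _ h2 h1
        have h5 : lin f (g p') - p'.2 - (lin f (g p') - p.2) = p.2 - p'.2 := by ring
        rwa [h5] at h4
      have h6 : p.2 = p'.2 := hR2 _ hp.2 _ hp'.2 h3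
      have hx : ∀ i, i ≠ j → p.1 i = p'.1 i := by
        intro i hij
        have h8 := congrFun heq i
        rw [hg, hg, if_neg hij, if_neg hij, h6] at h8
        exact add_right_cancel h8
      have h9 : ∑ i, f i * (p.1 i - p'.1 i) = 0 := by
        have h10 : ∑ i, f i * p.1 i = 0 := ((hTmem p.1).1 hp.1).2
        have h11 : ∑ i, f i * p'.1 i = 0 := ((hTmem p'.1).1 hp'.1).2
        rw [Finset.sum_congr rfl fun i _ => mul_sub (f i) (p.1 i) (p'.1 i),
          Finset.sum_sub_distrib, h10, h11, sub_zero]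
      rw [Finset.sum_eq_single j (fun i _ hij => by rw [hx i hij, sub_self, mul_zero])
        (fun h => absurd (Finset.mem_univ j) h)] at h9
      have hxj : p.1 j = p'.1 j := by
        rcases mul_eq_zero.mp h9 with h | h
        · exact absurd h hfj
        · exact sub_eq_zero.1 h
      refine Prod.ext (funext fun i => ?_) h6
      by_cases hij : i = j
      · rw [hij, hxj]
      · exact hx i hij
  rw [hgCnt_card, Finset.card_singleton, one_mul] at hcard
  have hB2 : (1 : ℝ) ≤ (1 + CK K n) * (B : ℝ) := by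
    have : (1 : ℝ) ≤ B := by exact_mod_cast hB1
    nlinarith
  have hbox := OBox_up K n hB2
  have h1 : (T.card : ℝ) * R.card ≤ (CK K n * ((1 + CK K n) * (B : ℝ)) ^ eK K) ^ n := by
    have h2 : (T.card : ℝ) * R.card ≤ ((OBox K ((1 + CK K n) * (B : ℝ))).card : ℝ) ^ n := by
      exact_mod_cast hcard
    exact h2.trans (pow_le_pow_left₀ (Nat.cast_nonneg _) hbox n)
  have h2 : pn (fun v : InfinitePlace K => v (f j : K)) =
      (R.card : ℝ) * (Ideal.absNorm (Ideal.span (Set.range f)) : ℝ) := by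
    rw [← absNorm_span_eq, ← hR3]
    push_cast
    ring
  rw [h2]
  have hN : (0 : ℝ) ≤ (Ideal.absNorm (Ideal.span (Set.range f)) : ℝ) := Nat.cast_nonneg _
  calc (T.card : ℝ) * ((R.card : ℝ) * (Ideal.absNorm (Ideal.span (Set.range f)) : ℝ))
      = ((T.card : ℝ) * R.card) * (Ideal.absNorm (Ideal.span (Set.range f)) : ℝ) := by ring
    _ ≤ (CK K n * ((1 + CK K n) * (B : ℝ)) ^ eK K) ^ n *
        (Ideal.absNorm (Ideal.span (Set.range f)) : ℝ) := mul_le_mul_of_nonneg_right h1 hN
    _ = (CK K n * (1 + CK K n) ^ eK K) ^ n * (Ideal.absNorm (Ideal.span (Set.range f)) : ℝ) *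
        (B : ℝ) ^ (eK K * n) := by
        rw [pow_mul, mul_pow (1 + CK K n), mul_pow (CK K n) ((1 + CK K n) ^ eK K * (B : ℝ) ^ eK K),
          mul_pow ((1 + CK K n) ^ eK K) ((B : ℝ) ^ eK K), mul_pow (CK K n) ((1 + CK K n) ^ eK K)]
        ring

variable (K) in
theorem cntF (n : ℕ) (N : ℝ) : ∃ C : ℝ, 1 ≤ C ∧ ∀ (B : ℕ) (f : Vc n (𝓞 K)) (j : Fin (n + 1)), 1 ≤ B →
    f j ≠ 0 → (∀ v : InfinitePlace K, v (f j : K) ≤ B) →
    (Ideal.absNorm (Ideal.span (Set.range f)) : ℝ) ≤ N →
    (((VBox K n B).filter fun x => lin f x = 0).card : ℝ) *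
      pn (fun v : InfinitePlace K => v (f j : K)) ≤ C * (B : ℝ) ^ (eK K * n) := by
  obtain ⟨C, hC, h⟩ := cntF0 K n
  refine ⟨C * (1 + |N|), ?_, fun B f j hB1 hfj hB hN => ?_⟩
  · have := abs_nonneg N
    nlinarith
  refine (h B f j hB1 hfj hB).trans ?_
  have h1 : (Ideal.absNorm (Ideal.span (Set.range f)) : ℝ) ≤ 1 + |N| :=
    hN.trans ((le_abs_self N).trans (by linarith))
  exact mul_le_mul_of_nonneg_right (mul_le_mul_of_nonneg_left h1 (by linarith)) (by positivity)

end Pool.Agent.Lib.MP_1ad228_ntN
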