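import Pool.Agent.Lib.MP_1ad228_ntN.HG_Short
import Pool.Agent.Lib.MP_1ad228_ntN.HG_Red
import Pool.Agent.Lib.MP_1ad228_ntN.HG_Cnt

/-!
JOB HG_Bad.  Most vectors are `H`-good (paper section 6). (Model over Q: Lib/MP_219881_nt/HG_Bad.lean.)

PROOF.  `e = eK K`, `c = CK K n`; `C1` = constant of `shortF K n hn`, `C2` = constant of `redC K n`, `C3` = constant of `cntF K n C2`; we may replace `C1` by the natural number `M = ⌈C1⌉₊ ≥ 1`.  Given `B, H, L` put `H1 = H / M`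
(natural division).  With `C ≥ 2 M^2 C1`, ..: `M * H1 ≤ H` (so `C1 * H1 ≤ H`), `H1 ≥ H/(2M)` (real, because `H ≥ M`), so `L ≤ H1` (from `C L ≤ H`, `C ≥ 2M`) and `C1 B ≤ H1 L^(n-1)` (from `C B ≤ H L^(n-1)`, `C ≥ 2 M C1`).
`B ≥ 1` (`C L ≤ B`).  `R := C2 * (C1 * L)`, `R' = ⌈R⌉₊` natural, `1 ≤ R' ≤ C4 L`, `C4 = C1 C2 + 1`, and `R' ≤ B` if `C ≥ C4`.
For `x ∈ VBox K n B` not `H`-good `shortF` (with `H1`, `H' = H`) and `redC` give `g ≠ 0`, `lin g x = 0`, `v (g i) ≤ R ≤ R'`, `absNorm (span (range g)) ≤ C2`.  So the bad set is contained in the union over `i : Fin (n+1)` and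
`g ∈ G_i = {g ∈ VBox K n R' | g i ≠ 0 ∧ absNorm (span (range g)) ≤ C2}` of `{x ∈ VBox K n B | lin g x = 0}`, of cardinality `≤ C3 B^(e n) / pn (v (g i))` (`cntF`; `pn > 0`).
Sum over `g ∈ G_i`: the number of choices of the other coordinates is `(#OBox K R')^n ≤ (c R'^e)^n`, so
`∑_{g ∈ G_i} 1/pn (v (g i)) ≤ (c R'^e)^n ∑_{z ∈ OBox K R', z ≠ 0} 1/pn (v z) ≤ (c R'^e)^n * c (Nat.log 2 R' + 2)^e` (`lgSum`; fibre over `z = g i`: inject `g ↦ (g i, g restricted to the others)`, e.g. bound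
`∑_{g ∈ G_i} F (g i) ≤ ∑_{z} #{g ∈ VBox K n R' | g i = z} F z` with `Finset.sum_fiberwise_of_maps_to` and `#{..} ≤ (#OBox K R')^n`: it injects into `Fintype.piFinset (fun j : Fin (n+1) => if j = i then {z} else OBox K R')`).
`Nat.log 2 R' + 2 ≤ C5 (Nat.log 2 L + 2)` because `R' ≤ C4 L ≤ 2^a L` with a fixed natural `a`: `Nat.log 2 (2^a * L) = a + Nat.log 2 L`.
Total `≤ (n+1) C3 B^(e n) c^(n+1) (C4 L)^(e n) (C5 (Nat.log 2 L + 2))^e`.
-/

namespace Pool.Agent.Lib.MP_1ad228_ntN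

open NumberField Classical

set_option linter.unusedSectionVars false

variable (K : Type) [Field K] [NumberField K]

/-- sums over a box of functions of one coordinate -/
private theorem HG_Bad_sum (n : ℕ) (X : ℝ) (i : Fin (n + 1)) (F : 𝓞 K → ℝ) :
    ∑ g ∈ (VBox K n X).filter (fun g => g i ≠ 0), F (g i) =
      (∑ z ∈ (OBox K X).filter (fun z => z ≠ 0), F z) * ((OBox K X).card : ℝ) ^ n := by
  have h1 := Finset.prod_univ_sum (fun _ : Fin (n + 1) => OBox K X)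
    (fun (j : Fin (n + 1)) (z : 𝓞 K) => if j = i then (if z ≠ 0 then F z else 0) else (1 : ℝ))
  have h2 : ∀ g : Vc n (𝓞 K), (∏ j, if j = i then (if g j ≠ 0 then F (g j) else 0) else (1 : ℝ)) =
      if g i ≠ 0 then F (g i) else 0 := by
    intro g
    rw [Finset.prod_ite_eq' Finset.univ i (fun j => if g j ≠ 0 then F (g j) else 0),
      if_pos (Finset.mem_univ i)]
  have h3 : (∏ j : Fin (n + 1), ∑ z ∈ OBox K X, if j = i then (if z ≠ 0 then F z else 0) else (1 : ℝ)) =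
      (∑ z ∈ OBox K X, if z ≠ 0 then F z else 0) * ((OBox K X).card : ℝ) ^ n := by
    rw [Fin.prod_univ_succAbove _ i]
    congr 1
    · exact Finset.sum_congr rfl fun z _ => by rw [if_pos rfl]
    · have h4 : ∀ j : Fin n, (∑ z ∈ OBox K X, if i.succAbove j = i then (if z ≠ 0 then F z else 0)
          else (1 : ℝ)) = ((OBox K X).card : ℝ) := by
        intro j
        rw [Finset.sum_congr rfl fun z _ => if_neg (Fin.succAbove_ne i j), Finset.sum_const,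
          nsmul_eq_mul, mul_one]
      rw [Finset.prod_congr rfl fun j _ => h4 j, Finset.prod_const, Finset.card_univ, Fintype.card_fin]
  rw [h3] at h1
  rw [Finset.sum_filter, Finset.sum_filter, h1]
  exact Finset.sum_congr rfl fun g _ => (h2 g).symm

theorem badX (n : ℕ) (hn : 1 ≤ n) : ∃ C : ℝ, 1 ≤ C ∧ ∀ B H L : ℕ, 1 ≤ L → C * L ≤ H →
    C * L ≤ B → C * B ≤ (H : ℝ) * (L : ℝ) ^ (n - 1) →
    (((VBox K n B).filter fun x => ¬ HGood H x).card : ℝ) ≤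
      C * ((B : ℝ) ^ n * (L : ℝ) ^ n) ^ eK K * ((Nat.log 2 L : ℝ) + 2) ^ eK K := by
  obtain ⟨C1, hC1, sh⟩ := shortF K n hn
  obtain ⟨C2, hC2, rd⟩ := redC K n
  obtain ⟨C3, hC3, ct⟩ := cntF K n C2
  have hc1 := CK_one_le K n
  obtain ⟨c, hcd⟩ : ∃ c, c = CK K n := ⟨_, rfl⟩
  rw [← hcd] at hc1
  obtain ⟨M, hM⟩ : ∃ M : ℕ, M = ⌈C1⌉₊ := ⟨_, rfl⟩
  have hC1M : C1 ≤ M := by rw [hM]; exact Nat.le_ceil C1
  have hM1 : (1 : ℝ) ≤ M := hC1.trans hC1M
  have hM1' : 1 ≤ M := by exact_mod_cast hM1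
  obtain ⟨C4, hC4⟩ : ∃ C4 : ℝ, C4 = C1 * C2 + 1 := ⟨_, rfl⟩
  have hC12 : 1 ≤ C1 * C2 := by nlinarith
  have hC41 : 1 ≤ C4 := by rw [hC4]; linarith
  obtain ⟨a, ha⟩ : ∃ a : ℕ, C4 ≤ 2 ^ a := by
    refine ⟨⌈C4⌉₊, (Nat.le_ceil C4).trans ?_⟩
    exact_mod_cast (Nat.lt_two_pow_self (n := ⌈C4⌉₊)).le
  obtain ⟨e, he⟩ : ∃ e, e = eK K := ⟨_, rfl⟩
  obtain ⟨Cf, hCf⟩ : ∃ Cf : ℝ, Cf = (n + 1) * C3 * c ^ (n + 1) * C4 ^ (e * n) * ((a : ℝ) + 1) ^ e := ⟨_, rfl⟩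
  have hCf0 : 0 ≤ Cf := by rw [hCf]; positivity
  have hMC : 0 ≤ 2 * (M : ℝ) * C1 := by positivity
  refine ⟨2 * M * C1 + 2 * M + C4 + Cf, by linarith, fun B H L hL h1 h2 h3 => ?_⟩
  have hL1 : (1 : ℝ) ≤ L := by exact_mod_cast hL
  have hL0 : (0 : ℝ) ≤ L := by linarith
  have hB0 : (0 : ℝ) ≤ B := Nat.cast_nonneg B
  have i1 : 2 * (M : ℝ) * L ≤ H :=
    le_trans (mul_le_mul_of_nonneg_right (by linarith) hL0) h1
  have i2 : C4 * L ≤ B := le_trans (mul_le_mul_of_nonneg_right (by linarith) hL0) h2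
  have i3 : 2 * (M : ℝ) * C1 * B ≤ H * (L : ℝ) ^ (n - 1) :=
    le_trans (mul_le_mul_of_nonneg_right (by linarith) hB0) h3
  have hB1' : (1 : ℝ) ≤ B := by
    have : (1 : ℝ) * 1 ≤ C4 * L := mul_le_mul hC41 hL1 zero_le_one (by linarith)
    linarith
  have hB1 : 1 ≤ B := by exact_mod_cast hB1'
  -- the smaller height
  obtain ⟨H1, hH1⟩ : ∃ H1, H1 = H / M := ⟨_, rfl⟩
  have j1 : M * H1 ≤ H := by rw [hH1]; exact Nat.mul_div_le H M
  have j1' : (M : ℝ) * H1 ≤ H := by exact_mod_cast j1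
  have hMH : M ≤ H := by
    have : (M : ℝ) ≤ H := by nlinarith
    exact_mod_cast this
  have j2 : 1 ≤ H1 := by
    rw [hH1]
    exact (Nat.one_le_div_iff hM1').2 hMH
  have j3 : H < M * (H1 + 1) := by rw [hH1]; exact Nat.lt_mul_div_succ H hM1'
  have j4 : (H : ℝ) ≤ 2 * M * H1 := by
    have h5 : H ≤ 2 * M * H1 := by
      have h6 : M * (H1 + 1) ≤ M * (2 * H1) := Nat.mul_le_mul_left M (by omega)
      have h7 : M * (2 * H1) = 2 * M * H1 := by ring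
      omega
    exact_mod_cast h5
  have hM0 : (0 : ℝ) < 2 * M := by linarith
  have k1 : L ≤ H1 := by
    have h5 : 2 * (M : ℝ) * L ≤ 2 * M * H1 := i1.trans j4
    exact_mod_cast le_of_mul_le_mul_left h5 hM0
  have k2 : C1 * B ≤ (H1 : ℝ) * (L : ℝ) ^ (n - 1) := by
    have h5 : 2 * (M : ℝ) * (C1 * B) ≤ 2 * M * (H1 * (L : ℝ) ^ (n - 1)) := by
      calc 2 * (M : ℝ) * (C1 * B) = 2 * M * C1 * B := by ring
        _ ≤ H * (L : ℝ) ^ (n - 1) := i3
        _ ≤ 2 * M * H1 * (L : ℝ) ^ (n - 1) := mul_le_mul_of_nonneg_right j4 (by positivity)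
        _ = _ := by ring
    exact le_of_mul_le_mul_left h5 hM0
  have k3 : C1 * H1 ≤ H := (mul_le_mul_of_nonneg_right hC1M (Nat.cast_nonneg _)).trans j1'
  -- the size of the orthogonal vectors
  obtain ⟨R, hR⟩ : ∃ R : ℕ, R = ⌈C2 * (C1 * L)⌉₊ := ⟨_, rfl⟩
  have r1 : C2 * (C1 * L) ≤ R := by rw [hR]; exact Nat.le_ceil _
  have r2 : (R : ℝ) ≤ C4 * L := by
    have h5 : (R : ℝ) < C2 * (C1 * L) + 1 := by
      rw [hR]
      exact Nat.ceil_lt_add_one (by positivity)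
    have h6 : C4 * L = C2 * (C1 * L) + L := by rw [hC4]; ring
    linarith
  have r3 : 1 ≤ R := by
    have h5 : (1 : ℝ) ≤ R := by
      have h6 : (1 : ℝ) * 1 ≤ C1 * C2 * L := mul_le_mul hC12 hL1 zero_le_one (by linarith)
      have h7 : C1 * C2 * L = C2 * (C1 * L) := by ring
      linarith
    exact_mod_cast h5
  have r4 : R ≤ B := by exact_mod_cast r2.trans i2
  have r3' : (1 : ℝ) ≤ R := by exact_mod_cast r3
  -- the covering
  obtain ⟨G, hG⟩ : ∃ G : Fin (n + 1) → Finset (Vc n (𝓞 K)), G = fun i => (VBox K n R).filter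
    (fun g => g i ≠ 0 ∧ (Ideal.absNorm (Ideal.span (Set.range g)) : ℝ) ≤ C2) := ⟨_, rfl⟩
  have hsub : ((VBox K n B).filter fun x => ¬ HGood H x) ⊆
      Finset.univ.biUnion fun i : Fin (n + 1) => (G i).biUnion fun g =>
        (VBox K n B).filter fun x => lin g x = 0 := by
    intro x hx
    obtain ⟨hx1, hx2⟩ := Finset.mem_filter.1 hx
    obtain ⟨f, hf0, hfx, hfi⟩ := sh B H1 L H hB1 hL k1 k2 k3 x hx1 hx2
    obtain ⟨g, hg0, hgx, hgi, hgN⟩ := rd (C1 * L) f x hf0 hfx hfi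
    obtain ⟨i, hi⟩ := Function.ne_iff.1 hg0
    refine Finset.mem_biUnion.2 ⟨i, Finset.mem_univ i, Finset.mem_biUnion.2 ⟨g, ?_,
      Finset.mem_filter.2 ⟨hx1, hgx⟩⟩⟩
    rw [hG]
    exact Finset.mem_filter.2 ⟨mem_VBox.2 fun j v => (hgi j v).trans r1, hi, hgN⟩
  have t1 : (((VBox K n B).filter fun x => ¬ HGood H x).card : ℝ) ≤
      ∑ i : Fin (n + 1), ∑ g ∈ G i, (((VBox K n B).filter fun x => lin g x = 0).card : ℝ) := by
    have h5 : ((VBox K n B).filter fun x => ¬ HGood H x).card ≤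
        ∑ i : Fin (n + 1), ∑ g ∈ G i, ((VBox K n B).filter fun x => lin g x = 0).card :=
      (Finset.card_le_card hsub).trans (Finset.card_biUnion_le.trans
        (Finset.sum_le_sum fun i _ => Finset.card_biUnion_le))
    exact_mod_cast h5
  have t2 : ∀ i : Fin (n + 1), ∀ g ∈ G i, (((VBox K n B).filter fun x => lin g x = 0).card : ℝ) ≤
      C3 * (B : ℝ) ^ (e * n) * (1 / pn (fun v : InfinitePlace K => v (g i : K))) := by
    intro i g hg
    rw [hG] at hg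
    obtain ⟨hg1, hg2, hg3⟩ := Finset.mem_filter.1 hg
    have h5 := ct B g i hB1 hg2 (fun v => ((mem_VBox.1 hg1 i v).trans (by exact_mod_cast r4))) hg3
    have h6 : 0 < pn (fun v : InfinitePlace K => v (g i : K)) := lt_of_lt_of_le one_pos (one_le_pn hg2)
    rw [mul_one_div, le_div_iff₀ h6, he]
    exact h5
  have hpn0 : ∀ z : 𝓞 K, 0 ≤ 1 / pn (fun v : InfinitePlace K => v (z : K)) := fun z =>
    div_nonneg zero_le_one (pn_nonneg fun v => v_nonneg v _)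
  have t3 : ∀ i : Fin (n + 1), ∑ g ∈ G i, 1 / pn (fun v : InfinitePlace K => v (g i : K)) ≤
      c * ((Nat.log 2 R : ℝ) + 2) ^ e * (c * (R : ℝ) ^ e) ^ n := by
    intro i
    have h5 : ∑ g ∈ G i, 1 / pn (fun v : InfinitePlace K => v (g i : K)) ≤
        ∑ g ∈ (VBox K n R).filter (fun g => g i ≠ 0), 1 / pn (fun v : InfinitePlace K => v (g i : K)) := by
      refine Finset.sum_le_sum_of_subset_of_nonneg ?_ (fun g _ _ => hpn0 (g i))
      intro g hg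
      rw [hG] at hg
      obtain ⟨hg1, hg2, -⟩ := Finset.mem_filter.1 hg
      exact Finset.mem_filter.2 ⟨hg1, hg2⟩
    refine h5.trans ?_
    rw [HG_Bad_sum K n R i (fun z => 1 / pn (fun v : InfinitePlace K => v (z : K)))]
    refine mul_le_mul ?_ ?_ (by positivity) (by positivity)
    · rw [hcd, he]
      exact lgSum K n r3
    · refine pow_le_pow_left₀ (Nat.cast_nonneg _) ?_ n
      rw [hcd, he]
      exact OBox_up K n r3'
  have hlog : (Nat.log 2 R : ℝ) + 2 ≤ ((a : ℝ) + 1) * ((Nat.log 2 L : ℝ) + 2) := by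
    have h5 : R ≤ 2 ^ a * L := by
      have h6 : (R : ℝ) ≤ 2 ^ a * L := r2.trans (mul_le_mul_of_nonneg_right ha hL0)
      exact_mod_cast h6
    have h6 : L < 2 ^ (Nat.log 2 L + 1) := Nat.lt_pow_succ_log_self (by norm_num) L
    have h7 : R < 2 ^ (a + (Nat.log 2 L + 1)) := by
      rw [pow_add]
      exact lt_of_le_of_lt h5 (Nat.mul_lt_mul_of_pos_left h6 (by positivity))
    have h8 : Nat.log 2 R < a + (Nat.log 2 L + 1) := Nat.log_lt_of_lt_pow (by omega) h7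
    have h9 : (Nat.log 2 R : ℝ) ≤ a + Nat.log 2 L := by
      have : Nat.log 2 R ≤ a + Nat.log 2 L := by omega
      exact_mod_cast this
    have h10 : (0 : ℝ) ≤ (a : ℝ) * Nat.log 2 L := by positivity
    have h11 : (0 : ℝ) ≤ (a : ℝ) := Nat.cast_nonneg a
    nlinarith
  have hRe : (c * (R : ℝ) ^ e) ^ n ≤ c ^ n * (C4 ^ (e * n) * (L : ℝ) ^ (e * n)) := by
    rw [mul_pow, ← pow_mul, ← mul_pow]
    refine mul_le_mul_of_nonneg_left ?_ (by positivity)
    exact pow_le_pow_left₀ (by positivity) r2 _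
  have t4 : (((VBox K n B).filter fun x => ¬ HGood H x).card : ℝ) ≤
      Cf * ((B : ℝ) ^ n * (L : ℝ) ^ n) ^ e * ((Nat.log 2 L : ℝ) + 2) ^ e := by
    have hlog0 : (0 : ℝ) ≤ (Nat.log 2 R : ℝ) + 2 := by positivity
    calc (((VBox K n B).filter fun x => ¬ HGood H x).card : ℝ)
        ≤ ∑ i : Fin (n + 1), ∑ g ∈ G i, (((VBox K n B).filter fun x => lin g x = 0).card : ℝ) := t1
      _ ≤ ∑ i : Fin (n + 1), ∑ g ∈ G i,
          C3 * (B : ℝ) ^ (e * n) * (1 / pn (fun v : InfinitePlace K => v (g i : K))) :=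
          Finset.sum_le_sum fun i _ => Finset.sum_le_sum (t2 i)
      _ = ∑ i : Fin (n + 1), C3 * (B : ℝ) ^ (e * n) *
          ∑ g ∈ G i, 1 / pn (fun v : InfinitePlace K => v (g i : K)) :=
          Finset.sum_congr rfl fun i _ => by rw [Finset.mul_sum]
      _ ≤ ∑ _i : Fin (n + 1), C3 * (B : ℝ) ^ (e * n) *
          (c * ((Nat.log 2 R : ℝ) + 2) ^ e * (c * (R : ℝ) ^ e) ^ n) :=
          Finset.sum_le_sum fun i _ => mul_le_mul_of_nonneg_left (t3 i) (by positivity)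
      _ = ((n : ℝ) + 1) * (C3 * (B : ℝ) ^ (e * n) *
          (c * ((Nat.log 2 R : ℝ) + 2) ^ e * (c * (R : ℝ) ^ e) ^ n)) := by
          rw [Finset.sum_const, Finset.card_univ, Fintype.card_fin, nsmul_eq_mul]
          push_cast
          ring
      _ ≤ ((n : ℝ) + 1) * (C3 * (B : ℝ) ^ (e * n) *
          (c * (((a : ℝ) + 1) * ((Nat.log 2 L : ℝ) + 2)) ^ e *
            (c ^ n * (C4 ^ (e * n) * (L : ℝ) ^ (e * n))))) := by
          gcongr
      _ = Cf * ((B : ℝ) ^ n * (L : ℝ) ^ n) ^ e * ((Nat.log 2 L : ℝ) + 2) ^ e := by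
          rw [hCf, mul_pow ((a : ℝ) + 1), mul_pow ((B : ℝ) ^ n), ← pow_mul, ← pow_mul, mul_comm n e]
          ring
  rw [← he]
  refine t4.trans ?_
  gcongr
  linarith

end Pool.Agent.Lib.MP_1ad228_ntN
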