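import Pool.Agent.Lib.MP_1ad228_ntN.Defs
import Pool.Agent.Lib.MP_1ad228_ntF.MN_Par

/-!
JOB MN_Par.  Logarithms are small (paper sections 8, 11).

PROOF.  `Real.natLog_le_logb`: `(Nat.log 2 (g^N) : ℝ) ≤ Real.logb 2 (g^N) = N * Real.log g / Real.log 2`.  `Real.isLittleO_log_id_atTop` (or `Real.log x ≤ 2 sqrt x`-type bounds): `(N log g / log 2 + 2)/g → 0`, so for every `θ > 0` there is `g0` with
`(Nat.log 2 (g^N) + 2)/g ≤ θ` for `g ≥ g0`.  Take `θ ≤ 1` with `|C| θ ≤ δ`; then `|C| θ^e ≤ |C| θ ≤ δ` (`e ≥ 1`).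
-/

namespace Pool.Agent.Lib.MP_1ad228_ntN

open NumberField Classical

theorem lgSmall (N e : ℕ) (he : 1 ≤ e) (C δ : ℝ) (hδ : 0 < δ) : ∃ g0 : ℕ, 1 ≤ g0 ∧
    ∀ g : ℕ, g0 ≤ g → C * (((Nat.log 2 (g ^ N) : ℝ) + 2) / g) ^ e ≤ δ := by
  have hlog2 : 0 < Real.log 2 := Real.log_pos one_lt_two
  have h1 : Filter.Tendsto (fun g : ℕ => ((Nat.log 2 (g ^ N) : ℝ) + 2) / g) Filter.atTop (nhds 0) := by
    have h2 : Filter.Tendsto (fun x : ℝ => Real.log x ^ 1 / (1 * x + 0)) Filter.atTop (nhds 0) :=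
      Real.tendsto_pow_log_div_mul_add_atTop 1 0 1 one_ne_zero
    have h3 : Filter.Tendsto (fun g : ℕ => Real.log (g : ℝ) ^ 1 / (1 * (g : ℝ) + 0)) Filter.atTop (nhds 0) :=
      h2.comp tendsto_natCast_atTop_atTop
    have h4 : Filter.Tendsto (fun g : ℕ => (2 : ℝ) / g) Filter.atTop (nhds 0) :=
      tendsto_const_div_atTop_nhds_zero_nat 2
    have h5 := (h3.const_mul ((N : ℝ) / Real.log 2)).add h4
    rw [mul_zero, add_zero] at h5
    refine squeeze_zero (fun g => by positivity) (fun g => ?_) h5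
    rcases Nat.eq_zero_or_pos g with rfl | hg
    · simp
    · have hg' : (0 : ℝ) < g := by exact_mod_cast hg
      have h6 := Real.natLog_le_logb (g ^ N) 2
      rw [Real.logb, Nat.cast_pow, Real.log_pow, Nat.cast_ofNat] at h6
      rw [pow_one, one_mul, add_zero, ← mul_div_assoc, ← add_div]
      refine div_le_div_of_nonneg_right ?_ hg'.le
      rw [div_mul_eq_mul_div]
      linarith
  have h2 : Filter.Tendsto (fun g : ℕ => C * (((Nat.log 2 (g ^ N) : ℝ) + 2) / g) ^ e) Filter.atTop (nhds 0) := by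
    have h3 := (h1.pow e).const_mul C
    rwa [zero_pow (by omega), mul_zero] at h3
  obtain ⟨g0, hg0⟩ := Filter.eventually_atTop.1 (h2.eventually (gt_mem_nhds hδ))
  exact ⟨max g0 1, le_max_right _ _, fun g hg => (hg0 g ((le_max_left _ _).trans hg)).le⟩

end Pool.Agent.Lib.MP_1ad228_ntN
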