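import Pool.Agent.Lib.MP_1ad228_ntN.CN_Count
import Pool.Agent.Lib.MP_1ad228_ntN.HG_Bad
import Pool.Agent.Lib.MP_1ad228_ntN.MN_Par

/-!
JOB CN_Low.  Lower bound for the local prediction (paper section 8). (Model over Q: `low` in Lib/MP_1ad228_ntF/CN_Low.lean; the same structure.)

PROOF.  `e = eK K ≥ 1`, `CC = CK K n`, `c1, C1` = constants of `countLow`, `C2` = constant of `badX`.  `c = c1/(2 (2 CC)^r)`.  `D = ∑ d i`, `V1 = (B^(n+1)/(κ^r W^(n+1)))^e`, `W = WW w`.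
Given `κ` let `w0 ≥ 1` be such that `C1/(w+1) ≤ c1/(4 κ^(r e))` for `w ≥ w0`: then `C1 (B/W)^(e(n+1))/(w+1) ≤ (c1/4) V1`.  Given `w`, `η`: `B = g^(n l+1)`, `H = g^(l+2)`, `L = g^l`.  For large `g`:
(1) the hypotheses of `badX`: `1 ≤ L`, `C2 g^l ≤ g^(l+2)`, `C2 g^l ≤ g^(n l+1)` (`g ≥ C2`, `n ≥ 1`), `C2 g^(n l+1) ≤ g^(l+2) g^(l (n-1)) = g^(n l+2)`; and `B^n L^n = B^(n+1)/g`: so `bad ≤ C2 (B^(n+1))^e ((Nat.log 2 (g^l) + 2)/g)^e`;
(2) `κ W ≤ c1 B` (`g ≤ B`), and `κ W ≤ A B^(d i)`;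
(3) `C1 B^e ≤ (c1/4) V1`: `V1 = B^(e(n+1))/(κ^r W^(n+1))^e`, `B^(e n) ≥ B ≥ g` (`n ≥ 1`), so `g ≥ 4 C1 (κ^r W^(n+1))^e / c1`;
(4) `(κ W)^(e r) / (2 CC)^r * C2 ((Nat.log 2 (g^l)+2)/g)^e ≤ η` (`lgSmall`).
By `countLow` the number `P` of `x ∈ GG` with all `Loc` is at least `smI * (c1/2) V1 - bad`.  Each term of `Ll` is at least `∏ i, 1/(2 CC (A B^(d i)/(κ W))^e) = (κ W)^(e r)/((2 CC)^r (A^r B^D)^e)` (`muUp`; `Finset.prod_const`,
`Finset.prod_pow_eq_pow_sum`).  So `Ll ≥ P * (κ W)^(e r)/((2 CC)^r (A^r B^D)^e) ≥ (B^(n+1)/(A^r B^D))^e * (c smI W^(e r)/W^(e(n+1)) - (κ W)^(e r) bad/((2 CC)^r B^(e(n+1))))`, and the last term is `≤ η`.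
-/

namespace Pool.Agent.Lib.MP_1ad228_ntN

open NumberField Classical

set_option linter.unusedSectionVars false

variable (K : Type) [Field K] [NumberField K]

private theorem CN_Low_alg (s b k u z a T c1 C2 t η bad P : ℝ) (hb : 0 < b) (hk : 0 < k)
    (hu : 0 < u) (hz : 0 < z) (ha : 0 < a) (hT : 0 < T)
    (h1 : s * (c1 / 2 * (b / (k * u))) - bad ≤ P) (h2 : bad ≤ C2 * b * t)
    (h3 : k * z / T * C2 * t ≤ η) :
    b / a * (c1 / (2 * T) * (s * z / u) - η) ≤ P * (k * z / (T * a)) := by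
  have hf : 0 ≤ b / a := by positivity
  have hf2 : 0 ≤ k * z / (T * a) := by positivity
  calc b / a * (c1 / (2 * T) * (s * z / u) - η) ≤
        b / a * (c1 / (2 * T) * (s * z / u) - k * z / T * C2 * t) :=
        mul_le_mul_of_nonneg_left (by linarith) hf
    _ = (s * (c1 / 2 * (b / (k * u))) - C2 * b * t) * (k * z / (T * a)) := by
        field_simp
    _ ≤ P * (k * z / (T * a)) := mul_le_mul_of_nonneg_right (by linarith) hf2

private theorem CN_Low_cls (b k u c1 C1 w Be : ℝ) (hb : 0 < b) (hk : 0 < k) (hu : 0 < u)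
    (hc1 : 0 < c1) (hw : 0 < w) (h1 : 4 * C1 * k / c1 ≤ w) (h2 : C1 * Be * (4 * (k * u)) ≤ c1 * b) :
    c1 / 2 * (b / (k * u)) ≤ c1 * (b / (k * u)) - C1 * (b / u / w + Be) := by
  have h3 : C1 * (b / u / w) ≤ c1 / 4 * (b / (k * u)) := by
    rw [div_le_iff₀ hc1] at h1
    have h4 : C1 * (b / u / w) = (4 * C1 * k) * (b / (4 * (k * u) * w)) := by
      field_simp
    have h5 : c1 / 4 * (b / (k * u)) = (w * c1) * (b / (4 * (k * u) * w)) := by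
      field_simp
    rw [h4, h5]
    exact mul_le_mul_of_nonneg_right h1 (by positivity)
  have h6 : C1 * Be ≤ c1 / 4 * (b / (k * u)) := by
    have h7 : c1 / 4 * (b / (k * u)) = c1 * b / (4 * (k * u)) := by
      field_simp
    rw [h7, le_div_iff₀ (by positivity)]
    exact h2
  linarith

theorem low {r : ℕ} (hr : 1 ≤ r) (n : ℕ) (hn : r + 2 ≤ n) (d : Fin r → ℕ) (hd : ∀ i, 1 ≤ d i)
    (l : ℕ) (hl : 1 ≤ l) (ρ : ℝ) (hρ : 0 < ρ) (hρ1 : ρ ≤ 1) (q : ℕ) (hq : 1 ≤ ρ * q) :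
    ∃ c : ℝ, 0 < c ∧ ∀ κ : ℕ, 1 ≤ κ → ∃ w0 : ℕ, ∀ w : ℕ, w0 ≤ w → ∀ η : ℝ, 0 < η →
      ∃ g0 : ℕ, ∀ g : ℕ, g0 ≤ g → ∀ B H : ℕ, B = g ^ (n * l + 1) → H = g ^ (l + 2) →
      ∀ A : ℕ, 1 ≤ A → ∀ F ∈ TBox K n d A, ∀ o : Fin (n + 1),
        (∀ v : InfinitePlace K, ∃ S : Fin r → Fin (n + 1), Function.Injective S ∧
          Rob v o S ρ (scF v A F)) →
        ((B : ℝ) ^ (n + 1) / ((A : ℝ) ^ r * (B : ℝ) ^ (∑ i, d i))) ^ eK K *
          (c * ((smI (WI K w) F : ℝ) * (WW w : ℝ) ^ (eK K * r) /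
            (WW w : ℝ) ^ (eK K * (n + 1))) - η) ≤ Ll B H q o (WW w) κ A F := by
  obtain ⟨c1, C1, hc1, hc11, hC1, hcnt⟩ := countLow (n := n) K d hr (by omega) (by omega) hd ρ hρ hρ1
  obtain ⟨C2, hC2, hbad⟩ := badX K n (by omega)
  have hCC := CK_one_le K n
  have hCCp := CK_pos K n
  have he : 1 ≤ eK K := eK_pos
  refine ⟨c1 / (2 * (2 * CK K n) ^ r), by positivity, ?_⟩
  intro κ hκ
  have hκp : (0 : ℝ) < κ := by exact_mod_cast hκ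
  refine ⟨max 1 ⌈4 * C1 * ((κ : ℝ) ^ r) ^ eK K / c1⌉₊, ?_⟩
  intro w hw η hη
  have hw1 : 1 ≤ w := (le_max_left _ _).trans hw
  have hw2 : 4 * C1 * ((κ : ℝ) ^ r) ^ eK K / c1 ≤ (w : ℝ) :=
    (Nat.le_ceil _).trans (by exact_mod_cast (le_max_right _ _).trans hw)
  have hwp : (0 : ℝ) < w := by exact_mod_cast hw1
  have hWn : 1 ≤ WW w := Pool.Agent.Lib.MP_219881_nt.WWpos w
  have hWp : (0 : ℝ) < (WW w : ℝ) := by exact_mod_cast hWn
  obtain ⟨g1, hg1, hlg⟩ := lgSmall l (eK K) he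
    (((κ : ℝ) ^ r) ^ eK K * (((WW w : ℝ)) ^ r) ^ eK K / (2 * CK K n) ^ r * C2) η hη
  refine ⟨max (max ⌈C2⌉₊ ⌈(κ : ℝ) * (WW w : ℝ) / c1⌉₊)
    (max ⌈4 * C1 * ((κ : ℝ) ^ r * (WW w : ℝ) ^ (n + 1)) ^ eK K / c1⌉₊ g1), ?_⟩
  intro g hg B H hBg hHg A hA F hF o hS
  have hg2 : C2 ≤ (g : ℝ) :=
    (Nat.le_ceil _).trans (by
      exact_mod_cast le_trans (le_trans (le_max_left _ _) (le_max_left _ _)) hg)
  have hg3 : (κ : ℝ) * (WW w : ℝ) / c1 ≤ (g : ℝ) :=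
    (Nat.le_ceil _).trans (by
      exact_mod_cast le_trans (le_trans (le_max_right _ _) (le_max_left _ _)) hg)
  have hg4 : 4 * C1 * ((κ : ℝ) ^ r * (WW w : ℝ) ^ (n + 1)) ^ eK K / c1 ≤ (g : ℝ) :=
    (Nat.le_ceil _).trans (by
      exact_mod_cast le_trans (le_trans (le_max_left _ _) (le_max_right _ _)) hg)
  have hg5 : g1 ≤ g := le_trans (le_trans (le_max_right _ _) (le_max_right _ _)) hg
  have hgn : 1 ≤ g := hg1.trans hg5
  have hlog := hlg g hg5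
  have hgp : (0 : ℝ) < g := by exact_mod_cast hgn
  have hgr : (1 : ℝ) ≤ g := by exact_mod_cast hgn
  have hgB : g ≤ B := by
    rw [hBg]
    calc g = g ^ 1 := (pow_one g).symm
      _ ≤ g ^ (n * l + 1) := Nat.pow_le_pow_right hgn (by omega)
  have hB1 : 1 ≤ B := hgn.trans hgB
  have hB1' : (1 : ℝ) ≤ B := by exact_mod_cast hB1
  have hBp : (0 : ℝ) < B := by exact_mod_cast hB1
  have hAp : (0 : ℝ) < A := by exact_mod_cast hA
  have hA1 : (1 : ℝ) ≤ A := by exact_mod_cast hA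
  have hgB' : (g : ℝ) ≤ B := by exact_mod_cast hgB
  have hKW : (κ : ℝ) * (WW w : ℝ) ≤ c1 * B := by
    rw [div_le_iff₀ hc1] at hg3
    nlinarith
  have hKWA : ∀ i, κ * WW w ≤ A * B ^ d i := by
    intro i
    have h1 : (κ : ℝ) * (WW w : ℝ) ≤ A * (B : ℝ) ^ d i := by
      have h2 : c1 * B ≤ 1 * B := mul_le_mul_of_nonneg_right hc11 hBp.le
      have h5 : (B : ℝ) ≤ (B : ℝ) ^ d i := by
        calc (B : ℝ) = (B : ℝ) ^ 1 := (pow_one _).symm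
          _ ≤ (B : ℝ) ^ d i := pow_le_pow_right₀ hB1' (hd i)
      have h6 : (B : ℝ) ^ d i ≤ A * (B : ℝ) ^ d i := le_mul_of_one_le_left (by positivity) hA1
      linarith
    exact_mod_cast h1
  have hnl : l + 1 ≤ n * l + 1 := by
    have h1 : 1 * l ≤ n * l := Nat.mul_le_mul_right l (by omega)
    omega
  have hbd := hbad B H (g ^ l) (Nat.one_le_pow _ _ hgn)
    (by
      rw [hHg]
      push_cast
      calc C2 * (g : ℝ) ^ l ≤ g * (g : ℝ) ^ l := mul_le_mul_of_nonneg_right hg2 (by positivity)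
        _ = (g : ℝ) ^ (l + 1) := by ring
        _ ≤ (g : ℝ) ^ (l + 2) := pow_le_pow_right₀ hgr (by omega))
    (by
      rw [hBg]
      push_cast
      calc C2 * (g : ℝ) ^ l ≤ g * (g : ℝ) ^ l := mul_le_mul_of_nonneg_right hg2 (by positivity)
        _ = (g : ℝ) ^ (l + 1) := by ring
        _ ≤ (g : ℝ) ^ (n * l + 1) := pow_le_pow_right₀ hgr hnl)
    (by
      rw [hBg, hHg]
      push_cast
      calc C2 * (g : ℝ) ^ (n * l + 1) ≤ g * (g : ℝ) ^ (n * l + 1) :=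
            mul_le_mul_of_nonneg_right hg2 (by positivity)
        _ = (g : ℝ) ^ (l + 2) * ((g : ℝ) ^ l) ^ (n - 1) := by
          rw [← pow_mul, ← pow_add, ← pow_succ']
          congr 1
          obtain ⟨m, rfl⟩ : ∃ m, n = m + 1 := ⟨n - 1, by omega⟩
          rw [Nat.add_sub_cancel]
          ring)
  have hcount := hcnt o q κ w B H A hq hκ hw1 hB1 hKW hA F hF hS
  generalize (smI (WI K w) F : ℕ) = s at hcount
  have hL0 : (((GG K B H q o).filter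
      (fun x => ∀ i, Loc (WW w) κ A o (F i) x)).card : ℝ) *
      (((κ : ℝ) ^ r) ^ eK K * ((WW w : ℝ) ^ r) ^ eK K / ((2 * CK K n) ^ r *
        ((A : ℝ) ^ r * (B : ℝ) ^ (∑ i, d i)) ^ eK K)) ≤
        Ll B H q o (WW w) κ A F := by
    unfold Ll
    rw [← nsmul_eq_mul]
    refine Finset.card_nsmul_le_sum _ _ _ ?_
    intro x hx
    have hxV : x ∈ VBox K n B := (Finset.mem_filter.mp (Finset.mem_filter.mp hx).1).1
    have e1 : ((κ : ℝ) ^ r) ^ eK K * ((WW w : ℝ) ^ r) ^ eK K / ((2 * CK K n) ^ r *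
        ((A : ℝ) ^ r * (B : ℝ) ^ (∑ i, d i)) ^ eK K) =
        ∏ i : Fin r, (1 / (2 * CK K n * ((A : ℝ) * (B : ℝ) ^ d i / (κ * (WW w : ℝ))) ^ eK K)) := by
      have e2 : ∏ i : Fin r, (2 * CK K n * ((A : ℝ) * (B : ℝ) ^ d i / (κ * (WW w : ℝ))) ^ eK K) =
          (2 * CK K n) ^ r * ((A : ℝ) ^ r * (B : ℝ) ^ (∑ i, d i) / ((κ : ℝ) ^ r * (WW w : ℝ) ^ r)) ^
            eK K := by
        have e3 : ∏ i : Fin r, ((A : ℝ) * (B : ℝ) ^ d i / (κ * (WW w : ℝ))) =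
            (A : ℝ) ^ r * (B : ℝ) ^ (∑ i, d i) / ((κ : ℝ) ^ r * (WW w : ℝ) ^ r) := by
          rw [Finset.prod_div_distrib, Finset.prod_mul_distrib, Finset.prod_const,
            Finset.prod_const, Finset.card_univ, Fintype.card_fin, Finset.prod_pow_eq_pow_sum,
            mul_pow (κ : ℝ)]
        rw [Finset.prod_mul_distrib, Finset.prod_pow, e3, Finset.prod_const,
          Finset.card_univ, Fintype.card_fin]
      rw [Finset.prod_div_distrib, Finset.prod_const_one, e2, div_pow, mul_pow ((κ : ℝ) ^ r)]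
      have p1 : ((κ : ℝ) ^ r) ^ eK K ≠ 0 := by positivity
      have p2 : ((WW w : ℝ) ^ r) ^ eK K ≠ 0 := by positivity
      have p3 : ((A : ℝ) ^ r * (B : ℝ) ^ (∑ i, d i)) ^ eK K ≠ 0 := by positivity
      have p4 : (2 * CK K n) ^ r ≠ 0 := by positivity
      generalize ((κ : ℝ) ^ r) ^ eK K = u1 at p1
      generalize ((WW w : ℝ) ^ r) ^ eK K = u2 at p2
      generalize ((A : ℝ) ^ r * (B : ℝ) ^ (∑ i, d i)) ^ eK K = u3 at p3
      generalize (2 * CK K n) ^ r = u4 at p4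
      field_simp
    rw [e1]
    refine Finset.prod_le_prod (fun i _ => by positivity) fun i _ => ?_
    obtain ⟨h1, h2⟩ := muUp (d i) (WW w) κ A B o hWn hκ hA hB1 (hKWA i) x hxV
    exact one_div_le_one_div_of_le h1 h2
  have hbd' : (((VBox K n B).filter fun x => ¬ HGood H x).card : ℝ) ≤
      C2 * ((B : ℝ) ^ (n + 1)) ^ eK K *
        (((Nat.log 2 (g ^ l) : ℝ) + 2) / g) ^ eK K := by
    refine hbd.trans (le_of_eq ?_)
    have h1 : (B : ℝ) ^ n * ((g ^ l : ℕ) : ℝ) ^ n * g = (B : ℝ) ^ (n + 1) := by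
      rw [hBg]
      push_cast
      rw [← pow_mul, ← pow_mul, ← pow_mul, ← pow_add, ← pow_succ]
      exact congrArg (fun e => (g : ℝ) ^ e) (by ring)
    rw [← h1, mul_pow ((B : ℝ) ^ n * ((g ^ l : ℕ) : ℝ) ^ n) (g : ℝ), div_pow]
    have p1 : (g : ℝ) ^ eK K ≠ 0 := by positivity
    generalize (g : ℝ) ^ eK K = u1 at p1
    field_simp
  refine le_trans ?_ hL0
  generalize (((GG K B H q o).filter
      (fun x => ∀ i, Loc (WW w) κ A o (F i) x)).card : ℝ) = P at hcount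
  generalize (((VBox K n B).filter fun x => ¬ HGood H x).card : ℝ) = bad at hcount hbd'
  generalize (((Nat.log 2 (g ^ l) : ℝ) + 2) / g) ^ eK K = t at hlog hbd'
  have hb : (0 : ℝ) < ((B : ℝ) ^ (n + 1)) ^ eK K := by positivity
  have hk : (0 : ℝ) < ((κ : ℝ) ^ r) ^ eK K := by positivity
  have hu : (0 : ℝ) < ((WW w : ℝ) ^ (n + 1)) ^ eK K := by positivity
  have hz : (0 : ℝ) < ((WW w : ℝ) ^ r) ^ eK K := by positivity
  have ha : (0 : ℝ) < ((A : ℝ) ^ r * (B : ℝ) ^ (∑ i, d i)) ^ eK K := by positivity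
  have hT : (0 : ℝ) < (2 * CK K n) ^ r := by positivity
  have hkey : C1 * (B : ℝ) ^ eK K * (4 * (((κ : ℝ) ^ r) ^ eK K * ((WW w : ℝ) ^ (n + 1)) ^ eK K)) ≤
      c1 * ((B : ℝ) ^ (n + 1)) ^ eK K := by
    rw [div_le_iff₀ hc1, mul_pow ((κ : ℝ) ^ r)] at hg4
    have h4 : (g : ℝ) ≤ ((B : ℝ) ^ n) ^ eK K := by
      refine hgB'.trans ?_
      rw [← pow_mul]
      calc (B : ℝ) = (B : ℝ) ^ 1 := (pow_one _).symm
        _ ≤ (B : ℝ) ^ (n * eK K) := pow_le_pow_right₀ hB1' (Nat.mul_pos (by omega) he)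
    have h5 : ((B : ℝ) ^ (n + 1)) ^ eK K = ((B : ℝ) ^ n) ^ eK K * (B : ℝ) ^ eK K := by
      rw [← mul_pow, ← pow_succ]
    have h6 : (g : ℝ) * c1 ≤ ((B : ℝ) ^ n) ^ eK K * c1 := mul_le_mul_of_nonneg_right h4 hc1.le
    have h7 : (0 : ℝ) ≤ (B : ℝ) ^ eK K := by positivity
    rw [h5]
    have h8 := mul_le_mul_of_nonneg_right (hg4.trans h6) h7
    linarith
  have hcls := CN_Low_cls _ _ _ c1 C1 ((w : ℝ) + 1) ((B : ℝ) ^ eK K) hb hk hu hc1 (by positivity)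
    (hw2.trans (by linarith)) hkey
  have hs0 : (0 : ℝ) ≤ s := Nat.cast_nonneg _
  have e3 : ((B : ℝ) ^ (n + 1) / ((κ : ℝ) ^ r * (WW w : ℝ) ^ (n + 1))) ^ eK K =
      ((B : ℝ) ^ (n + 1)) ^ eK K / (((κ : ℝ) ^ r) ^ eK K * ((WW w : ℝ) ^ (n + 1)) ^ eK K) := by
    rw [div_pow, mul_pow ((κ : ℝ) ^ r)]
  have e4 : ((B : ℝ) / (WW w : ℝ)) ^ (eK K * (n + 1)) =
      ((B : ℝ) ^ (n + 1)) ^ eK K / ((WW w : ℝ) ^ (n + 1)) ^ eK K := by
    rw [div_pow, mul_comm (eK K), pow_mul, pow_mul]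
  rw [e3, e4] at hcount
  have e5 : ((B : ℝ) ^ (n + 1) / ((A : ℝ) ^ r * (B : ℝ) ^ (∑ i, d i))) ^ eK K =
      ((B : ℝ) ^ (n + 1)) ^ eK K / ((A : ℝ) ^ r * (B : ℝ) ^ (∑ i, d i)) ^ eK K := div_pow _ _ _
  have e6 : (WW w : ℝ) ^ (eK K * r) = ((WW w : ℝ) ^ r) ^ eK K := by
    rw [mul_comm, pow_mul]
  have e7 : (WW w : ℝ) ^ (eK K * (n + 1)) = ((WW w : ℝ) ^ (n + 1)) ^ eK K := by
    rw [mul_comm, pow_mul]
  rw [e5, e6, e7]
  refine CN_Low_alg s _ _ _ _ _ _ c1 C2 t η bad P hb hk hu hz ha hT ?_ hbd' hlog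
  have h1 := mul_le_mul_of_nonneg_left hcls hs0
  linarith

end Pool.Agent.Lib.MP_1ad228_ntN
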