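import Pool.Agent.Lib.MP_1ad228_ntN.TpK

/-!
JOB CntY.  Counting for beta.  (Model with proof: Lib/MP_219881_nt/CntY.lean.)

PROOF.  `e = eK K`, `κ = CK K n`, `N = N(I)`. `lamLem` (file Alg) gives for every `y` with all minors in `I` an element `l` with
`y j - l * x j ∈ I` for all `j`; only `l mod I` matters: take `l` in a set `R` of representatives of `𝓞 K ⧸ I`
(finite, `N` classes: `Ideal.absNorm` is the cardinality of the quotient: `Ideal.absNorm_apply`,
`Submodule.cardQuot_apply`; e.g. `l` the image of a class under `Quotient.out`). So the set is contained in the union over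
the classes of `Y_l = {y ∈ VBox K n B | ∀ j, y j - l x j ∈ I, ∀ j v, v(x_o y_j - x_j y_o) ≤ δ_v}`.
In `Y_l`: `y o` has at most `κ (1 + (2B)^e/N) ≤ 2 κ (2B)^e/N` values (`upI` with `ρ_v = 2B`; `N ≤ (2B)^e`). Given `y o = z`, for
`j ≠ o`: `v(y_j - x_j z/x_o) ≤ δ_v/v(x_o) ≤ δ_v q/B`, so the differences of two such `y_j` are in `I` and
`≤ 2 δ_v q/B`: at most `κ (1 + (2q/B)^e pn(δ)/N) ≤ 2 κ (2q/B)^e pn(δ)/N` values (`upI`; `N B^e ≤ pn(δ)`, `q ≥ 1`). There are `n`
such `j`. So `card ≤ N * 2κ(2B)^e/N * (2κ(2q)^e pn(δ)/(B^e N))^n`.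
(Cardinality of `Y_l`: as in the model.)
-/

namespace Pool.Agent.Lib.MP_1ad228_ntN

open NumberField Classical
open Pool.Agent.Lib.MP_219881_nt (mn)

set_option linter.unusedSectionVars false

variable {K : Type} [Field K] [NumberField K]

/-- one class of the multiplier -/
private theorem cntY_class {n : ℕ} (B H q : ℕ) (o : Fin (n + 1)) (hB : 1 ≤ B) (hq : 1 ≤ q)
    (x : Vc n (𝓞 K)) (hx : x ∈ GG K B H q o) (I : Ideal (𝓞 K)) (δ : InfinitePlace K → ℝ) (hI : I ≠ ⊥)
    (hδ : ∀ v, 0 < δ v) (hN : (Ideal.absNorm I : ℝ) ≤ (2 * B) ^ eK K)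
    (hN2 : (Ideal.absNorm I : ℝ) * (B : ℝ) ^ eK K ≤ pn δ) (l : 𝓞 K) :
    (((VBox K n B).filter fun y => (∀ j, y j - l * x j ∈ I) ∧ ∀ v, Del o x y v ≤ δ v).card : ℝ) ≤
      2 * CK K n * ((2 * (B : ℝ)) ^ eK K / Ideal.absNorm I) *
        (2 * CK K n * ((2 * (q : ℝ) / B) ^ eK K * pn δ / Ideal.absNorm I)) ^ n := by
  have bR : (0 : ℝ) < (B : ℝ) := by exact_mod_cast hB
  have qR : (1 : ℝ) ≤ (q : ℝ) := by exact_mod_cast hq
  have NR1 : (1 : ℝ) ≤ Ideal.absNorm I := one_le_absNorm hI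
  have NR : (0 : ℝ) < Ideal.absNorm I := by linarith
  have hκ : 0 < CK K n := CK_pos K n
  have hpδ : 0 < pn δ := pn_pos hδ
  set Z : Finset (𝓞 K) := (OBox K B).filter fun z => z - l * x o ∈ I with hZ
  set T : Fin (n + 1) → 𝓞 K → Finset (𝓞 K) := fun j z =>
    (OBox K B).filter fun t => t - l * x j ∈ I ∧
      ∀ v : InfinitePlace K, v ((x o * t - x j * z : 𝓞 K) : K) ≤ δ v with hT
  have hZc : (Z.card : ℝ) ≤ 2 * CK K n * ((2 * (B : ℝ)) ^ eK K / Ideal.absNorm I) := by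
    have h1 := upI n Z I hI (fun _ => 2 * (B : ℝ)) (fun _ => by positivity) (by
      intro z hz w hw
      rw [hZ, Finset.mem_filter, mem_OBox] at hz hw
      refine ⟨?_, fun v => ?_⟩
      · have h2 : z - w = (z - l * x o) - (w - l * x o) := by ring
        rw [h2]
        exact I.sub_mem hz.2 hw.2
      · have h2 : ((z - w : 𝓞 K) : K) = (z : K) - (w : K) := by simp
        rw [h2]
        refine (v_sub_le v _ _).trans ?_
        linarith [hz.1 v, hw.1 v])
    rw [pn_const] at h1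
    have h2 : (1 : ℝ) ≤ (2 * (B : ℝ)) ^ eK K / Ideal.absNorm I := by
      rw [le_div_iff₀ NR, one_mul]
      exact hN
    refine h1.trans ?_
    have h3 : 1 + (2 * (B : ℝ)) ^ eK K / Ideal.absNorm I ≤ 2 * ((2 * (B : ℝ)) ^ eK K / Ideal.absNorm I) := by
      linarith
    calc CK K n * (1 + (2 * (B : ℝ)) ^ eK K / Ideal.absNorm I) ≤
        CK K n * (2 * ((2 * (B : ℝ)) ^ eK K / Ideal.absNorm I)) := mul_le_mul_of_nonneg_left h3 hκ.le
      _ = 2 * CK K n * ((2 * (B : ℝ)) ^ eK K / Ideal.absNorm I) := by ring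
  have hTc : ∀ j z, ((T j z).card : ℝ) ≤
      2 * CK K n * ((2 * (q : ℝ) / B) ^ eK K * pn δ / Ideal.absNorm I) := by
    intro j z
    have h1 := upI n (T j z) I hI (fun v => 2 * (q : ℝ) / B * δ v)
      (fun v => mul_pos (by positivity) (hδ v)) (by
      intro t ht w hw
      rw [hT] at ht hw
      simp only [Finset.mem_filter, mem_OBox] at ht hw
      refine ⟨?_, fun v => ?_⟩
      · have h2 : t - w = (t - l * x j) - (w - l * x j) := by ring
        rw [h2]
        exact I.sub_mem ht.2.1 hw.2.1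
      · have h2 : ((x o * (t - w) : 𝓞 K) : K) =
            ((x o * t - x j * z : 𝓞 K) : K) - ((x o * w - x j * z : 𝓞 K) : K) := by
          rw [← map_sub]
          congr 1
          ring
        have h3 : v ((x o * (t - w) : 𝓞 K) : K) ≤ 2 * δ v := by
          rw [h2]
          refine (v_sub_le v _ _).trans ?_
          linarith [ht.2.2 v, hw.2.2 v]
        have h2' : ((x o * (t - w) : 𝓞 K) : K) = (x o : K) * ((t - w : 𝓞 K) : K) :=
          map_mul (algebraMap (𝓞 K) K) _ _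
        rw [h2', v_mul] at h3
        have h4 := GG_vpos hB hx v
        have h5 := GG_inv hB hx v
        have h6 : v ((t - w : 𝓞 K) : K) ≤ 2 * δ v * (1 / v (x o : K)) := by
          rw [mul_one_div, le_div_iff₀ h4, mul_comm]
          exact h3
        refine h6.trans ?_
        calc 2 * δ v * (1 / v (x o : K)) ≤ 2 * δ v * ((q : ℝ) / B) :=
              mul_le_mul_of_nonneg_left h5 (by linarith [hδ v])
          _ = 2 * (q : ℝ) / B * δ v := by ring)
    rw [pn_const_mul] at h1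
    have h2 : (1 : ℝ) ≤ (2 * (q : ℝ) / B) ^ eK K * pn δ / Ideal.absNorm I := by
      rw [le_div_iff₀ NR, one_mul, div_pow, div_mul_eq_mul_div, le_div_iff₀ (by positivity)]
      refine hN2.trans ?_
      have h3 : (1 : ℝ) ≤ (2 * (q : ℝ)) ^ eK K := one_le_pow₀ (by linarith)
      calc pn δ = 1 * pn δ := (one_mul _).symm
        _ ≤ (2 * (q : ℝ)) ^ eK K * pn δ := mul_le_mul_of_nonneg_right h3 hpδ.le
    refine h1.trans ?_
    have h3 : 1 + (2 * (q : ℝ) / B) ^ eK K * pn δ / Ideal.absNorm I ≤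
        2 * ((2 * (q : ℝ) / B) ^ eK K * pn δ / Ideal.absNorm I) := by
      linarith
    calc CK K n * (1 + (2 * (q : ℝ) / B) ^ eK K * pn δ / Ideal.absNorm I) ≤
        CK K n * (2 * ((2 * (q : ℝ) / B) ^ eK K * pn δ / Ideal.absNorm I)) :=
          mul_le_mul_of_nonneg_left h3 hκ.le
      _ = 2 * CK K n * ((2 * (q : ℝ) / B) ^ eK K * pn δ / Ideal.absNorm I) := by ring
  -- the fibres
  set Y := (VBox K n B).filter fun y => (∀ j, y j - l * x j ∈ I) ∧ ∀ v, Del o x y v ≤ δ v with hY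
  have hYZ : ∀ y ∈ Y, y o ∈ Z := by
    intro y hy
    rw [hY, Finset.mem_filter, mem_VBox] at hy
    rw [hZ, Finset.mem_filter, mem_OBox]
    exact ⟨hy.1 o, hy.2.1 o⟩
  have hfib : ∀ z ∈ Z, ((Y.filter fun y => y o = z).card : ℝ) ≤
      (2 * CK K n * ((2 * (q : ℝ) / B) ^ eK K * pn δ / Ideal.absNorm I)) ^ n := by
    intro z _
    have h1 : (Y.filter fun y => y o = z) ⊆
        Fintype.piFinset fun j => if j = o then {z} else T j z := by
      intro y hy
      rw [Finset.mem_filter, hY, Finset.mem_filter, mem_VBox] at hy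
      obtain ⟨⟨h2, h4, h5⟩, h6⟩ := hy
      rw [Fintype.mem_piFinset]
      intro j
      by_cases hj : j = o
      · rw [if_pos hj, Finset.mem_singleton, hj, h6]
      · rw [if_neg hj]
        simp only [hT, Finset.mem_filter, mem_OBox]
        refine ⟨h2 j, h4 j, fun v => ?_⟩
        have h7 := (le_Del o x y j v).trans (h5 v)
        have h9 : mn x y o j = x o * y j - x j * z := by
          simp only [Pool.Agent.Lib.MP_219881_nt.mn]
          rw [h6]
        rwa [h9] at h7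
    have h2 : ((Y.filter fun y => y o = z).card : ℝ) ≤
        ∏ j, (((if j = o then {z} else T j z) : Finset (𝓞 K)).card : ℝ) := by
      have h3 := Finset.card_le_card h1
      rw [Fintype.card_piFinset] at h3
      exact_mod_cast h3
    refine h2.trans ?_
    rw [← Finset.mul_prod_erase Finset.univ _ (Finset.mem_univ o), if_pos rfl,
      Finset.card_singleton, Nat.cast_one, one_mul]
    have h3 : ∏ j ∈ Finset.univ.erase o, (((if j = o then {z} else T j z) : Finset (𝓞 K)).card : ℝ) ≤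
        ∏ j ∈ Finset.univ.erase o, 2 * CK K n * ((2 * (q : ℝ) / B) ^ eK K * pn δ / Ideal.absNorm I) := by
      refine Finset.prod_le_prod (fun _ _ => Nat.cast_nonneg _) fun j hj => ?_
      rw [if_neg (Finset.ne_of_mem_erase hj)]
      exact hTc j z
    refine h3.trans (le_of_eq ?_)
    rw [Finset.prod_const, Finset.card_erase_of_mem (Finset.mem_univ o), Finset.card_univ,
      Fintype.card_fin, Nat.add_sub_cancel]
  have hsum : (Y.card : ℝ) = ∑ z ∈ Z, ((Y.filter fun y => y o = z).card : ℝ) := by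
    rw [Finset.card_eq_sum_card_fiberwise (f := fun y : Vc n (𝓞 K) => y o) (t := Z)
      (fun y hy => hYZ y hy)]
    push_cast
    rfl
  rw [hsum]
  refine (Finset.sum_le_sum hfib).trans ?_
  rw [Finset.sum_const, nsmul_eq_mul]
  exact mul_le_mul_of_nonneg_right hZc (by positivity)

theorem cntY (n q : ℕ) (hq : 1 ≤ q) : ∃ C : ℝ, 1 ≤ C ∧ ∀ (B H : ℕ) (o : Fin (n + 1)), 1 ≤ B →
    ∀ x ∈ GG K B H q o, ∀ (I : Ideal (𝓞 K)) (δ : InfinitePlace K → ℝ), I ≠ ⊥ → (∀ v, 0 < δ v) →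
    (Ideal.absNorm I : ℝ) ≤ (2 * B) ^ eK K → (Ideal.absNorm I : ℝ) * (B : ℝ) ^ eK K ≤ pn δ →
    (((VBox K n B).filter fun y => (∀ i j, mn x y i j ∈ I) ∧ ∀ v, Del o x y v ≤ δ v).card : ℝ) ≤
      C * ((B : ℝ) / (B : ℝ) ^ n) ^ eK K * (pn δ / Ideal.absNorm I) ^ n := by
  have hκ := CK_one_le K n
  have qR : (1 : ℝ) ≤ (q : ℝ) := by exact_mod_cast hq
  refine ⟨(2 * CK K n) ^ (n + 1) * 2 ^ eK K * ((2 * (q : ℝ)) ^ eK K) ^ n, ?_, ?_⟩
  · have h1 : (1 : ℝ) ≤ (2 * CK K n) ^ (n + 1) := one_le_pow₀ (by linarith)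
    have h2 : (1 : ℝ) ≤ 2 ^ eK K := one_le_pow₀ (by norm_num)
    have h3 : (1 : ℝ) ≤ ((2 * (q : ℝ)) ^ eK K) ^ n := one_le_pow₀ (one_le_pow₀ (by linarith))
    exact one_le_mul_of_one_le_of_one_le (one_le_mul_of_one_le_of_one_le h1 h2) h3
  · intro B H o hB x hx I δ hI hδ hN hN2
    have bR : (0 : ℝ) < (B : ℝ) := by exact_mod_cast hB
    have NR1 : (1 : ℝ) ≤ Ideal.absNorm I := one_le_absNorm hI
    have NR : (0 : ℝ) < Ideal.absNorm I := by linarith
    have hfin : Finite (𝓞 K ⧸ I) := Ideal.finiteQuotientOfFreeOfNeBot I hI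
    have : Fintype (𝓞 K ⧸ I) := Fintype.ofFinite _
    have hcard : (Fintype.card (𝓞 K ⧸ I) : ℝ) = Ideal.absNorm I := by
      rw [← Nat.card_eq_fintype_card, Ideal.absNorm_apply]
      rfl
    obtain ⟨rep, hrep⟩ : ∃ rep : 𝓞 K ⧸ I → 𝓞 K, ∀ c, Ideal.Quotient.mk I (rep c) = c :=
      ⟨Function.surjInv Ideal.Quotient.mk_surjective, Function.surjInv_eq Ideal.Quotient.mk_surjective⟩
    have hsub : ((VBox K n B).filter fun y => (∀ i j, mn x y i j ∈ I) ∧ ∀ v, Del o x y v ≤ δ v) ⊆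
        (Finset.univ : Finset (𝓞 K ⧸ I)).biUnion fun c =>
          (VBox K n B).filter fun y => (∀ j, y j - rep c * x j ∈ I) ∧ ∀ v, Del o x y v ≤ δ v := by
      intro y hy
      rw [Finset.mem_filter] at hy
      obtain ⟨h1, h3, h4⟩ := hy
      obtain ⟨l, hl⟩ := lamLem (GG_uni hx) I h3
      rw [Finset.mem_biUnion]
      refine ⟨Ideal.Quotient.mk I l, Finset.mem_univ _, ?_⟩
      rw [Finset.mem_filter]
      refine ⟨h1, fun j => ?_, h4⟩
      have h5 : l - rep (Ideal.Quotient.mk I l) ∈ I := by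
        rw [← Ideal.Quotient.mk_eq_mk_iff_sub_mem]
        exact (hrep _).symm
      have h6 : y j - rep (Ideal.Quotient.mk I l) * x j =
          (y j - l * x j) + (l - rep (Ideal.Quotient.mk I l)) * x j := by ring
      rw [h6]
      exact I.add_mem (hl j) (I.mul_mem_right _ h5)
    have h1 : (((VBox K n B).filter fun y => (∀ i j, mn x y i j ∈ I) ∧ ∀ v, Del o x y v ≤ δ v).card : ℝ) ≤
        ∑ c : 𝓞 K ⧸ I, (((VBox K n B).filter fun y => (∀ j, y j - rep c * x j ∈ I) ∧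
          ∀ v, Del o x y v ≤ δ v).card : ℝ) := by
      have h2 := (Finset.card_le_card hsub).trans Finset.card_biUnion_le
      exact_mod_cast h2
    refine h1.trans ((Finset.sum_le_sum fun c _ =>
      cntY_class B H q o hB hq x hx I δ hI hδ hN hN2 (rep c)).trans (le_of_eq ?_))
    rw [Finset.sum_const, Finset.card_univ, nsmul_eq_mul, hcard]
    rw [mul_pow (2 * CK K n), div_pow (2 * (q : ℝ)) B, mul_pow 2 (B : ℝ), div_pow (B : ℝ), div_pow (pn δ)]
    have h7 : ((2 * (q : ℝ)) ^ eK K / (B : ℝ) ^ eK K * pn δ / Ideal.absNorm I) ^ n =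
        ((2 * (q : ℝ)) ^ eK K) ^ n / ((B : ℝ) ^ n) ^ eK K * (pn δ ^ n / (Ideal.absNorm I : ℝ) ^ n) := by
      rw [mul_div_assoc, mul_pow, div_pow, div_pow, ← pow_mul (B : ℝ), ← pow_mul (B : ℝ), mul_comm n]
    rw [h7, pow_succ (2 * CK K n)]
    field_simp

end Pool.Agent.Lib.MP_1ad228_ntN
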