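import Pool.Agent.Lib.MP_1ad228_ntF.Basic

/-!
MP_1ad228_nt, Fano complete intersections over number fields.  Definitions.
Paper: team-store PAPER_MP_1ad228_ntN.md
`K` is the number field, `𝓞 K` its ring of integers, `v` runs through the infinite places.
-/

namespace Pool.Agent.Lib.MP_1ad228_ntN

export Pool.Agent.Lib.MP_219881_nt (Vc lin Uni mn WW lin_add lin_add_right lin_sub lin_sub_right
  lin_smul lin_smul_right lin_comm lin_single mn_swap)

export Pool.Agent.Lib.MP_1ad228_ntF (Ten ev tp dev cc Tup VV CC Kp pt ev_tp ev_add ev_sub ev_neg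
  ev_zero ev_smul ev_smul' ev_sum ev_scale ev_map dev_map dev_add dev_smul' dev_neg dev_sub euler)


open NumberField Classical

section maps
variable {n d r : ℕ} {R S : Type*} [CommRing R] [CommRing S]

/-- Image of a vector. -/
def vmap (f : R →+* S) (x : Vc n R) : Vc n S := fun i => f (x i)

/-- Image of a tensor. -/
def tmap (f : R →+* S) (a : Ten n d R) : Ten n d S := fun s => f (a s)

/-- Image of a tuple of tensors. -/
def fmap {d : Fin r → ℕ} (f : R →+* S) (F : Tup n d R) : Tup n d S := fun i => tmap f (F i)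

/-- Number of unimodular common zeros of a tuple over a finite ring. -/
noncomputable def smR {d : Fin r → ℕ} (F : Tup n d R) : ℕ :=
  Nat.card {x : Vc n R // Uni x ∧ ∀ i, ev (F i) x = 0}

/-- Tuples with a singular unimodular common zero (some coordinate of the point and some
coordinate of the degenerate combination normalised to 1). -/
def ExcR {d : Fin r → ℕ} (F : Tup n d R) : Prop :=
  ∃ (x : Vc n R) (i : Fin (n + 1)) (t : Fin r → R) (l : Fin r), x i = 1 ∧ t l = 1 ∧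
    (∀ k, ev (F k) x = 0) ∧ ∀ j, j ≠ i → ∑ k, t k * dev (F k) x j = 0

end maps

section places
variable {K : Type} [Field K] [NumberField K]

/-- The embedding of the ring of integers at the infinite place `v`. -/
noncomputable def em (v : InfinitePlace K) : 𝓞 K →+* ℂ :=
  v.embedding.comp (algebraMap (𝓞 K) K)

/-- The completion at `v` inside `ℂ`. -/
def KK (v : InfinitePlace K) : Set ℂ := {z | v.IsReal → z.im = 0}

/-- Weighted product over the infinite places. -/
noncomputable def pn (ρ : InfinitePlace K → ℝ) : ℝ := ∏ v, ρ v ^ v.mult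

/-- Largest absolute value. -/
noncomputable def hs (z : K) : ℝ :=
  Finset.univ.sup' Finset.univ_nonempty fun v : InfinitePlace K => v z

end places

section box
variable (K : Type) [Field K] [NumberField K]

/-- The degree of the number field. -/
noncomputable def eK : ℕ := Module.finrank ℚ K

theorem OBox_finite (X : ℝ) : {z : 𝓞 K | ∀ v : InfinitePlace K, v (z : K) ≤ X}.Finite := by
  have h := Embeddings.finite_of_norm_le K ℂ X
  refine Set.Finite.of_finite_image (f := fun z : 𝓞 K => (z : K)) (h.subset ?_)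
    (fun a _ b _ hab => RingOfIntegers.ext hab)
  rintro _ ⟨z, hz, rfl⟩
  refine ⟨z.isIntegral_coe, fun φ => ?_⟩
  have := hz (InfinitePlace.mk φ)
  simpa using this

/-- Integers with all absolute values at most `X`. -/
noncomputable def OBox (X : ℝ) : Finset (𝓞 K) := (OBox_finite K X).toFinset

/-- Vectors with all entries in `OBox X`. -/
noncomputable def VBox (n : ℕ) (X : ℝ) : Finset (Vc n (𝓞 K)) :=
  Fintype.piFinset fun _ => OBox K X

/-- Tensors with all entries in `OBox X`. -/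
noncomputable def Box (n d : ℕ) (X : ℝ) : Finset (Ten n d (𝓞 K)) :=
  Fintype.piFinset fun _ => OBox K X

/-- Tuples with all entries in `OBox X`. -/
noncomputable def TBox (n : ℕ) {r : ℕ} (d : Fin r → ℕ) (X : ℝ) : Finset (Tup n d (𝓞 K)) :=
  Fintype.piFinset fun i => Box K n (d i) X

end box

section defs
variable {K : Type} [Field K] [NumberField K]

/-- Largest absolute value of the entries of a tensor. -/
noncomputable def tn {n d : ℕ} (a : Ten n d (𝓞 K)) : ℝ :=
  Finset.univ.sup' Finset.univ_nonempty fun s : Fin d → Fin (n + 1) => hs (a s : K)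

/-- Weight function. -/
noncomputable def psi {n d : ℕ} (A : ℕ) (a : Ten n d (𝓞 K)) : ℝ := max 0 (1 - tn a / (2 * A))

/-- Largest minor containing the pivot coordinate `o`, at every infinite place. -/
noncomputable def Del {n : ℕ} (o : Fin (n + 1)) (x y : Vc n (𝓞 K)) (v : InfinitePlace K) : ℝ :=
  Finset.univ.sup' Finset.univ_nonempty fun j : Fin (n + 1) => v ((mn x y o j : 𝓞 K) : K)

/-- Ideal generated by all minors. -/
noncomputable def Dd {n : ℕ} (x y : Vc n (𝓞 K)) : Ideal (𝓞 K) :=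
  Ideal.span (Set.range fun p : Fin (n + 1) × Fin (n + 1) => mn x y p.1 p.2)

/-- Norm of the ideal generated by all minors. -/
noncomputable def nD {n : ℕ} (x y : Vc n (𝓞 K)) : ℝ := (Ideal.absNorm (Dd x y) : ℝ)

/-- `x` and `y` are proportional (all minors vanish). -/
def Prp {n : ℕ} (x y : Vc n (𝓞 K)) : Prop := ∀ i j, mn x y i j = 0

/-- `x` is `H`-good: `n` independent vectors of size at most `H` orthogonal to `x`. -/
def HGood {n : ℕ} (H : ℕ) (x : Vc n (𝓞 K)) : Prop :=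
  ∃ f : Fin n → Vc n (𝓞 K), LinearIndependent (𝓞 K) f ∧ (∀ s, lin (f s) x = 0) ∧
    ∀ s i, ∀ v : InfinitePlace K, v (f s i : K) ≤ (H : ℝ)

variable (K) in
/-- The set of test points (size at most `B`, pivot coordinate `o` at least `B / q` at every
infinite place). -/
noncomputable def GG {n : ℕ} (B H q : ℕ) (o : Fin (n + 1)) : Finset (Vc n (𝓞 K)) :=
  (VBox K n B).filter fun x => (∀ v : InfinitePlace K, (B : ℝ) ≤ q * v (x o : K)) ∧ Uni x ∧
    HGood H x

/-- Number of tensors in the box vanishing at `x`. -/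
noncomputable def n1 {n : ℕ} (d : ℕ) (x : Vc n (𝓞 K)) (X : ℝ) : ℕ :=
  ((Box K n d X).filter fun a => ev a x = 0).card

/-- Number of tensors in the box vanishing at `x` and at `y`. -/
noncomputable def n2 {n : ℕ} (d : ℕ) (x y : Vc n (𝓞 K)) (X : ℝ) : ℕ :=
  ((Box K n d X).filter fun a => ev a x = 0 ∧ ev a y = 0).card

/-- Weighted slices. -/
noncomputable def sl {n : ℕ} (d A : ℕ) (x y : Vc n (𝓞 K)) (m m' : 𝓞 K) : ℝ :=
  ∑ a ∈ (Box K n d (2 * A)).filter (fun a => ev a x = m ∧ ev a y = m'), psi A a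

/-- The values allowed by the local condition at `x`. -/
def LV {n : ℕ} (d W κ A : ℕ) (o : Fin (n + 1)) (x : Vc n (𝓞 K)) (m : 𝓞 K) : Prop :=
  (W : 𝓞 K) ∣ m ∧ ∀ v : InfinitePlace K, (κ : ℝ) * v (m : K) ≤ A * (v (x o : K)) ^ d

/-- The local condition of the tensor `a` at `x`. -/
def Loc {n d : ℕ} (W κ A : ℕ) (o : Fin (n + 1)) (a : Ten n d (𝓞 K)) (x : Vc n (𝓞 K)) : Prop :=
  LV d W κ A o x (ev a x)

/-- The set of values allowed by the local condition at `x`. -/
noncomputable def MS {n : ℕ} (d W κ A : ℕ) (o : Fin (n + 1)) (x : Vc n (𝓞 K)) :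
    Finset (𝓞 K) :=
  (OBox K (A * (hs (x o : K)) ^ d)).filter (LV d W κ A o x)

/-- Average over the allowed values at `x` of the slices through `(m, 0)`. -/
noncomputable def TT {n : ℕ} (d : ℕ) (o : Fin (n + 1)) (W κ A : ℕ) (x y : Vc n (𝓞 K)) : ℝ :=
  (1 / ((MS d W κ A o x).card : ℝ)) * ∑ m ∈ MS d W κ A o x, sl d A x y m 0

/-- Average over the allowed values at `y` of the slices through `(0, m')`. -/
noncomputable def TS {n : ℕ} (d : ℕ) (o : Fin (n + 1)) (W κ A : ℕ) (x y : Vc n (𝓞 K)) : ℝ :=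
  (1 / ((MS d W κ A o y).card : ℝ)) * ∑ m' ∈ MS d W κ A o y, sl d A x y 0 m'

/-- Average over the allowed values at `x` and at `y` of the slices. -/
noncomputable def UU {n : ℕ} (d : ℕ) (o : Fin (n + 1)) (W κ A : ℕ) (x y : Vc n (𝓞 K)) : ℝ :=
  (1 / ((MS d W κ A o x).card : ℝ)) * (1 / ((MS d W κ A o y).card : ℝ)) *
    ∑ m ∈ MS d W κ A o x, ∑ m' ∈ MS d W κ A o y, sl d A x y m m'

/-- Number of test points on the intersection. -/
noncomputable def Nn {n r : ℕ} {d : Fin r → ℕ} (B H q : ℕ) (o : Fin (n + 1))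
    (F : Tup n d (𝓞 K)) : ℕ :=
  ((GG K B H q o).filter fun x => ∀ i, ev (F i) x = 0).card

/-- Local prediction. -/
noncomputable def Ll {n r : ℕ} {d : Fin r → ℕ} (B H q : ℕ) (o : Fin (n + 1)) (W κ A : ℕ)
    (F : Tup n d (𝓞 K)) : ℝ :=
  ∑ x ∈ (GG K B H q o).filter (fun x => ∀ i, Loc W κ A o (F i) x),
    ∏ i, (1 / ((MS (d i) W κ A o x).card : ℝ))

variable (K) in
/-- The weighted variance. -/
noncomputable def Qv {n r : ℕ} (d : Fin r → ℕ) (B H q : ℕ) (o : Fin (n + 1)) (W κ A : ℕ) : ℝ :=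
  ∑ F ∈ TBox K n d (2 * A), (∏ i, psi A (F i)) *
    ((Nn B H q o F : ℝ) - Ll B H q o W κ A F) ^ 2

/-- Contribution of a pair of points to the variance. -/
noncomputable def EE {n r : ℕ} (d : Fin r → ℕ) (o : Fin (n + 1)) (W κ A : ℕ)
    (x y : Vc n (𝓞 K)) : ℝ :=
  ∏ i, sl (d i) A x y 0 0 - ∏ i, TT (d i) o W κ A x y - ∏ i, TS (d i) o W κ A x y
    + ∏ i, UU (d i) o W κ A x y

/-- Reduction of a tuple modulo an ideal. -/
noncomputable def red {n r : ℕ} {d : Fin r → ℕ} (I : Ideal (𝓞 K)) (F : Tup n d (𝓞 K)) :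
    Tup n d (𝓞 K ⧸ I) := fmap (Ideal.Quotient.mk I) F

/-- Number of unimodular common zeros modulo the ideal `I`. -/
noncomputable def smI {n r : ℕ} {d : Fin r → ℕ} (I : Ideal (𝓞 K)) (F : Tup n d (𝓞 K)) : ℕ :=
  smR (red I F)

variable (K) in
/-- The principal ideal of `WW w`. -/
noncomputable def WI (w : ℕ) : Ideal (𝓞 K) := Ideal.span {((WW w : ℕ) : 𝓞 K)}

/-- Solubility modulo all powers of all prime ideals. -/
def PSol {n r : ℕ} {d : Fin r → ℕ} (F : Tup n d (𝓞 K)) : Prop :=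
  ∀ P : Ideal (𝓞 K), P.IsPrime → P ≠ ⊥ → ∀ m : ℕ, ∃ x : Vc n (𝓞 K), (∃ i, x i ∉ P) ∧
    ∀ k, ev (F k) x ∈ P ^ m

/-- Common nonzero zero in the completion at the infinite place `v`. -/
def RSol {n r : ℕ} {d : Fin r → ℕ} (v : InfinitePlace K) (F : Tup n d (𝓞 K)) : Prop :=
  ∃ x : Vc n ℂ, (∀ l, x l ∈ KK v) ∧ x ≠ 0 ∧ ∀ i, ev (fmap (em v) F i) x = 0

/-- Robust solubility at the infinite place `v` of the tuple `α`, with pivot `o` and solved
coordinates `S`. -/
def Rob {n r : ℕ} {d : Fin r → ℕ} (v : InfinitePlace K) (o : Fin (n + 1))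
    (S : Fin r → Fin (n + 1)) (ρ : ℝ) (α : Tup n d ℂ) : Prop :=
  ∃ ξ : Vc n ℂ, (∀ l, ξ l ∈ KK v) ∧ ∀ y : Vc n ℂ, (∀ l, y l ∈ KK v) → (∀ l, ‖y l - ξ l‖ ≤ ρ) →
    ∃ s : Vc n ℂ, (∀ l, s l ∈ KK v) ∧ (∀ l, (∀ k, l ≠ S k) → s l = y l) ∧ (∀ l, ‖s l‖ ≤ 1 / 2) ∧
      2 * ρ ≤ ‖s o‖ ∧ ∀ i, ev (α i) s = 0

/-- The tuple `F / A` at the infinite place `v`. -/
noncomputable def scF {n r : ℕ} {d : Fin r → ℕ} (v : InfinitePlace K) (A : ℕ)
    (F : Tup n d (𝓞 K)) : Tup n d ℂ := fun i s => em v (F i s) / (A : ℂ)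

end defs

section main
variable (K : Type) [Field K] [NumberField K]

/-- Almost all everywhere locally soluble tuples have a small common zero. -/
def MainP (n : ℕ) {r : ℕ} (d : Fin r → ℕ) : Prop :=
  ∀ ε : ℝ, 0 < ε → ∃ M A0 : ℕ, ∀ A : ℕ, A0 ≤ A →
    (((TBox K n d A).filter fun F => (∀ v, RSol v F) ∧ PSol F ∧
        ¬ ∃ x : Vc n (𝓞 K), x ≠ 0 ∧
          (∀ i, ∀ v : InfinitePlace K, (v (x i : K)) ^ (n + 1 - ∑ i, d i) ≤ (M : ℝ) * (A : ℝ) ^ r) ∧
          ∀ i, ev (F i) x = 0).card : ℝ) ≤ ε * (A : ℝ) ^ (eK K * VV n d)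

/-- A positive proportion of the tuples has a common nonzero integral zero. -/
def PosP (n : ℕ) {r : ℕ} (d : Fin r → ℕ) : Prop :=
  ∃ δ : ℝ, 0 < δ ∧ ∃ A0 : ℕ, ∀ A : ℕ, A0 ≤ A → δ * (A : ℝ) ^ (eK K * VV n d) ≤
    (((TBox K n d A).filter fun F => ∃ x : Vc n (𝓞 K), x ≠ 0 ∧ ∀ i, ev (F i) x = 0).card : ℝ)

end main

end Pool.Agent.Lib.MP_1ad228_ntN
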