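import Mathlib

/-! Forms over the ring of integers of a number field, smooth complete intersections, local
solubility: the definitions of the final statement. -/

namespace Pool.Agent.Lib.MP_1ad228_ntN

open NumberField

/-- Forms of degree `d` in `n + 1` variables with coefficients in the ring of integers of the number
field `K`, all conjugates of all coefficients being at most `A` in absolute value. -/
def Forms (K : Type) [Field K] [NumberField K] (n d : ℕ) (A : ℝ) :
    Set (MvPolynomial (Fin (n + 1)) (𝓞 K)) :=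
  {f | f.IsHomogeneous d ∧ ∀ m, ∀ φ : K →+* ℂ, ‖φ ((f.coeff m : 𝓞 K) : K)‖ ≤ A}

variable {K : Type} [Field K] [NumberField K]

/-- The forms `F k` define a smooth complete intersection of codimension `r` (over the algebraic
closure of `K`): their gradients are linearly independent at every nonzero common zero. -/
def SmoothCI {n r : ℕ} (F : Fin r → MvPolynomial (Fin (n + 1)) (𝓞 K)) : Prop :=
  ∀ x : Fin (n + 1) → AlgebraicClosure K, x ≠ 0 → (∀ k, MvPolynomial.aeval x (F k) = 0) →
    LinearIndependent (AlgebraicClosure K)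
      (fun (k : Fin r) (i : Fin (n + 1)) => MvPolynomial.aeval x (MvPolynomial.pderiv i (F k)))

/-- The forms have a common nonzero zero over every completion of `K`: over the reals for every real
embedding, over the complex numbers for every complex embedding, and over the completion at every
prime ideal. -/
def LocSol {n r : ℕ} (F : Fin r → MvPolynomial (Fin (n + 1)) (𝓞 K)) : Prop :=
  (∀ σ : K →+* ℝ, ∃ x : Fin (n + 1) → ℝ, x ≠ 0 ∧
    ∀ k, (F k).eval₂ (σ.comp (algebraMap (𝓞 K) K)) x = 0) ∧
  (∀ σ : K →+* ℂ, ∃ x : Fin (n + 1) → ℂ, x ≠ 0 ∧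
    ∀ k, (F k).eval₂ (σ.comp (algebraMap (𝓞 K) K)) x = 0) ∧
  ∀ v : IsDedekindDomain.HeightOneSpectrum (𝓞 K), ∃ x : Fin (n + 1) → v.adicCompletion K, x ≠ 0 ∧
    ∀ k, MvPolynomial.aeval x (F k) = 0

/-- The forms have a common nonzero zero with coordinates in the ring of integers, all conjugates
`y` of all coordinates satisfying `|y| ^ e ≤ X`. -/
def SmallZero {n r : ℕ} (e : ℕ) (X : ℝ) (F : Fin r → MvPolynomial (Fin (n + 1)) (𝓞 K)) : Prop :=
  ∃ x : Fin (n + 1) → 𝓞 K, x ≠ 0 ∧ (∀ i, ∀ φ : K →+* ℂ, ‖φ (x i : K)‖ ^ e ≤ X) ∧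
    ∀ k, MvPolynomial.aeval x (F k) = 0

end Pool.Agent.Lib.MP_1ad228_ntN
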