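import Pool.Agent.Lib.MP_1ad228_ntF.FM_Tup
import Pool.Agent.Lib.MP_1ad228_ntN.NB_Const
import Pool.Agent.Lib.MP_1ad228_ntN.FormsDef

/-! Tensors and forms over a commutative ring (paper section 12). -/

namespace Pool.Agent.Lib.MP_1ad228_ntN

export Pool.Agent.Lib.MP_1ad228_ntF (mo rp IsRp Lo Up LoT UpT degree_mo exists_mo mo_rp isRp_rp
  rp_unique Lo_add_Up LoT_add_UpT)

open Classical

section
variable {n d r : ℕ} {R : Type*} [CommRing R]

/-- The form of a tensor. -/
noncomputable def poly (a : Ten n d R) : MvPolynomial (Fin (n + 1)) R :=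
  ∑ s, MvPolynomial.monomial (mo s) (a s)

/-- The forms of a tuple of tensors. -/
noncomputable def polyT {d : Fin r → ℕ} (F : Tup n d R) :
    Fin r → MvPolynomial (Fin (n + 1)) R := fun k => poly (F k)

/-- The tensor of a form: the coefficients at the chosen indices, zero elsewhere. -/
noncomputable def toTen (d : ℕ) (f : MvPolynomial (Fin (n + 1)) R) : Ten n d R := fun s =>
  if IsRp s then f.coeff (mo s) else 0

/-- The tensor with the form of `α` (supported on the chosen indices) and entries `b` at the other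
indices. -/
noncomputable def mkT (α b : Ten n d R) : Ten n d R := fun s =>
  if IsRp s then
    α s - ∑ t ∈ Finset.univ.filter (fun t : Fin d → Fin (n + 1) => mo t = mo s ∧ ¬ IsRp t), b t
  else b s

theorem coeff_poly (a : Ten n d R) (μ : Fin (n + 1) →₀ ℕ) :
    (poly a).coeff μ = ∑ s, if mo s = μ then a s else 0 := by
  unfold poly
  rw [MvPolynomial.coeff_sum]
  refine Finset.sum_congr rfl fun s _ => ?_
  rw [MvPolynomial.coeff_monomial]

theorem poly_hom (a : Ten n d R) : (poly a).IsHomogeneous d := by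
  unfold poly
  apply MvPolynomial.IsHomogeneous.sum
  intro s _
  exact MvPolynomial.isHomogeneous_monomial _ (degree_mo s)

theorem poly_sub (a b : Ten n d R) : poly (a - b) = poly a - poly b := by
  unfold poly
  simp only [Pi.sub_apply, map_sub, Finset.sum_sub_distrib]

private theorem FM_Alg_mono (s : Fin d → Fin (n + 1)) (c : R) :
    MvPolynomial.monomial (mo s) c = MvPolynomial.C c * ∏ k, MvPolynomial.X (s k) := by
  unfold Pool.Agent.Lib.MP_1ad228_ntF.mo
  rw [MvPolynomial.monomial_sum_index]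
  rfl

theorem eval2_poly {S : Type*} [CommRing S] (f : R →+* S) (a : Ten n d R) (x : Fin (n + 1) → S) :
    (poly a).eval₂ f x = ev (tmap f a) x := by
  unfold poly Pool.Agent.Lib.MP_1ad228_ntF.ev tmap
  rw [← MvPolynomial.coe_eval₂Hom, map_sum]
  refine Finset.sum_congr rfl fun s _ => ?_
  rw [FM_Alg_mono, map_mul, MvPolynomial.coe_eval₂Hom, MvPolynomial.eval₂_C, ← MvPolynomial.coe_eval₂Hom, map_prod]
  simp only [MvPolynomial.coe_eval₂Hom, MvPolynomial.eval₂_X]

theorem aeval_poly {S : Type*} [CommRing S] [Algebra R S] (a : Ten n d R) (x : Fin (n + 1) → S) :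
    MvPolynomial.aeval x (poly a) = ev (tmap (algebraMap R S) a) x := by
  rw [MvPolynomial.aeval_def, eval2_poly]

private theorem FM_Alg_pdX {S : Type*} [CommRing S] [Algebra R S] (x : Fin (n + 1) → S)
    (j k : Fin (n + 1)) :
    MvPolynomial.aeval x (MvPolynomial.pderiv j (MvPolynomial.X k : MvPolynomial (Fin (n + 1)) R)) =
      if k = j then (1 : S) else 0 := by
  by_cases h : k = j
  · rw [if_pos h, h, MvPolynomial.pderiv_X_self, map_one]
  · rw [if_neg h, MvPolynomial.pderiv_X_of_ne (fun h' => h h'), map_zero]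

private theorem FM_Alg_dprod {S : Type*} [CommRing S] [Algebra R S] (x : Fin (n + 1) → S)
    (j : Fin (n + 1)) (s : Fin d → Fin (n + 1)) (U : Finset (Fin d)) :
    MvPolynomial.aeval x (MvPolynomial.pderiv j
      (∏ k ∈ U, (MvPolynomial.X (s k) : MvPolynomial (Fin (n + 1)) R))) =
      ∑ k ∈ U, if s k = j then ∏ l ∈ U.erase k, x (s l) else 0 := by
  induction U using Finset.induction_on with
  | empty =>
    rw [Finset.prod_empty, Finset.sum_empty, MvPolynomial.pderiv_one, map_zero]
  | insert b U hb ih =>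
    rw [Finset.prod_insert hb, MvPolynomial.pderiv_mul, map_add, map_mul, map_mul, ih,
      FM_Alg_pdX, Finset.sum_insert hb, Finset.erase_insert hb, MvPolynomial.aeval_X, map_prod,
      Finset.mul_sum]
    refine congrArg₂ (· + ·) ?_ ?_
    · simp only [MvPolynomial.aeval_X]
      by_cases h : s b = j
      · rw [if_pos h, if_pos h, one_mul]
      · rw [if_neg h, if_neg h, zero_mul]
    · refine Finset.sum_congr rfl fun k hk => ?_
      by_cases h : s k = j
      · have hne : b ≠ k := fun h' => hb (h' ▸ hk)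
        rw [if_pos h, if_pos h, Finset.erase_insert_of_ne hne, Finset.prod_insert
          (fun h' => hb (Finset.mem_of_mem_erase h'))]
      · rw [if_neg h, if_neg h, mul_zero]

theorem pderiv_poly {S : Type*} [CommRing S] [Algebra R S] (a : Ten n d R) (x : Fin (n + 1) → S)
    (j : Fin (n + 1)) :
    MvPolynomial.aeval x (MvPolynomial.pderiv j (poly a)) = dev (tmap (algebraMap R S) a) x j := by
  unfold poly Pool.Agent.Lib.MP_1ad228_ntF.dev tmap
  rw [map_sum, map_sum, Finset.sum_comm]
  refine Finset.sum_congr rfl fun s _ => ?_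
  rw [FM_Alg_mono, MvPolynomial.pderiv_C_mul, map_mul, MvPolynomial.aeval_C, FM_Alg_dprod,
    Finset.mul_sum]
  refine Finset.sum_congr rfl fun k _ => ?_
  by_cases h : s k = j
  · rw [if_pos h, if_pos h]
  · rw [if_neg h, if_neg h, mul_zero]

theorem coeff_rp {c : Ten n d R} (hc : ∀ s, ¬ IsRp s → c s = 0) (s : Fin d → Fin (n + 1)) :
    (poly c).coeff (mo s) = c (rp d (mo s)) := by
  rw [coeff_poly, Finset.sum_eq_single (rp d (mo s))]
  · rw [if_pos (mo_rp s)]
  · intro t _ ht
    by_cases hm : mo t = mo s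
    · rw [if_pos hm]
      apply hc
      intro h
      apply ht
      unfold Pool.Agent.Lib.MP_1ad228_ntF.IsRp at h
      rw [← hm, h]
    · rw [if_neg hm]
  · intro h
    exact absurd (Finset.mem_univ _) h

theorem toTen_supp (f : MvPolynomial (Fin (n + 1)) R) (s : Fin d → Fin (n + 1))
    (h : ¬ IsRp s) : toTen d f s = 0 := by
  unfold toTen
  rw [if_neg h]

theorem poly_toTen {f : MvPolynomial (Fin (n + 1)) R} (hf : f.IsHomogeneous d) :
    poly (toTen d f) = f := by
  ext μ
  by_cases h : μ.degree = d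
  · obtain ⟨s, rfl⟩ := exists_mo h
    rw [coeff_rp (toTen_supp f)]
    unfold toTen
    rw [if_pos (isRp_rp s), mo_rp]
  · rw [hf.coeff_eq_zero h, (poly_hom _).coeff_eq_zero h]

theorem toTen_poly {c : Ten n d R} (hc : ∀ s, ¬ IsRp s → c s = 0) : toTen d (poly c) = c := by
  funext s
  by_cases h : IsRp s
  · unfold toTen
    rw [if_pos h, coeff_rp hc]
    unfold Pool.Agent.Lib.MP_1ad228_ntF.IsRp at h
    rw [h]
  · rw [toTen_supp _ s h, hc s h]

theorem poly_mkT {α : Ten n d R} (hα : ∀ s, ¬ IsRp s → α s = 0) (b : Ten n d R) :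
    poly (mkT α b) = poly α := by
  refine MvPolynomial.ext _ _ fun μ => ?_
  by_cases hμ : ∃ s0 : Fin d → Fin (n + 1), mo s0 = μ
  · obtain ⟨s0, rfl⟩ := hμ
    rw [coeff_rp hα s0, coeff_poly]
    obtain ⟨ρ, hρ⟩ : ∃ ρ, ρ = rp d (mo s0) := ⟨_, rfl⟩
    have h1 : mo ρ = mo s0 := by rw [hρ, mo_rp]
    have h2 : IsRp ρ := by
      rw [hρ]
      exact isRp_rp s0
    rw [← hρ]
    have h3 : ∀ t ∈ (Finset.univ : Finset (Fin d → Fin (n + 1))),
        (if mo t = mo s0 then mkT α b t else 0) =
        (if t = ρ then α ρ - ∑ t ∈ Finset.univ.filter (fun t : Fin d → Fin (n + 1) =>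
          mo t = mo s0 ∧ ¬ IsRp t), b t else 0) +
        (if mo t = mo s0 ∧ ¬ IsRp t then b t else 0) := by
      intro t _
      by_cases ht : mo t = mo s0
      · by_cases hr : IsRp t
        · have h4 : t = ρ := rp_unique hr h2 (ht.trans h1.symm)
          rw [if_pos ht, if_pos h4, if_neg (fun h => h.2 hr), add_zero, h4]
          unfold mkT
          rw [if_pos h2, h1]
        · have h4 : t ≠ ρ := fun h => hr (by rw [h]; exact h2)
          rw [if_pos ht, if_neg h4, if_pos ⟨ht, hr⟩, zero_add]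
          unfold mkT
          rw [if_neg hr]
      · have h4 : t ≠ ρ := fun h => ht (by rw [h]; exact h1)
        rw [if_neg ht, if_neg h4, if_neg (fun h => ht h.1), add_zero]
    rw [Finset.sum_congr rfl h3, Finset.sum_add_distrib, Finset.sum_ite_eq' Finset.univ ρ,
      if_pos (Finset.mem_univ ρ), ← Finset.sum_filter]
    ring
  · rw [coeff_poly, coeff_poly, Finset.sum_eq_zero, Finset.sum_eq_zero]
    · intro s _
      exact if_neg fun h => hμ ⟨s, h⟩
    · intro s _
      exact if_neg fun h => hμ ⟨s, h⟩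

theorem mkT_inj {α α' b b' : Ten n d R} (hα : ∀ s, ¬ IsRp s → α s = 0)
    (hα' : ∀ s, ¬ IsRp s → α' s = 0) (hb : ∀ s, IsRp s → b s = 0) (hb' : ∀ s, IsRp s → b' s = 0)
    (h : mkT α b = mkT α' b') : α = α' ∧ b = b' := by
  have hp : poly α = poly α' := by rw [← poly_mkT hα b, ← poly_mkT hα' b', h]
  have hαα : α = α' := by rw [← toTen_poly hα, ← toTen_poly hα', hp]
  refine ⟨hαα, ?_⟩
  funext s
  by_cases hs : IsRp s
  · rw [hb s hs, hb' s hs]
  · have h3 : mkT α b s = mkT α' b' s := by rw [h]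
    unfold mkT at h3
    rwa [if_neg hs, if_neg hs] at h3

end

end Pool.Agent.Lib.MP_1ad228_ntN
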