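import Pool.Agent.Lib.MP_1ad228_ntN.FM_Loc

/-! The transfer of the theorems on tuples of tensors to forms (paper section 12). -/

namespace Pool.Agent.Lib.MP_1ad228_ntN

open Classical NumberField

section
variable (K : Type) [Field K] [NumberField K]

/-- Almost all tuples are smooth. -/
def NonSmP (n : ℕ) {r : ℕ} (d : Fin r → ℕ) : Prop :=
  ∀ ε : ℝ, 0 < ε → ∃ A0 : ℕ, ∀ A : ℕ, A0 ≤ A →
    (((TBox K n d A).filter fun F =>
        ¬ ∀ x : Vc n (AlgebraicClosure K), x ≠ 0 →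
          (∀ k, ev (fmap (algebraMap (𝓞 K) (AlgebraicClosure K)) F k) x = 0) →
          LinearIndependent (AlgebraicClosure K)
            (fun k => dev (fmap (algebraMap (𝓞 K) (AlgebraicClosure K)) F k) x)).card : ℝ) ≤
      ε * (A : ℝ) ^ (eK K * VV n d)

theorem formsBad (n : ℕ) {r : ℕ} (d : Fin r → ℕ) (hM : MainP K n d) (ε : ℝ) (hε : 0 < ε) :
    ∃ M A0 : ℕ, ∀ A : ℕ, A0 ≤ A →
    (({f | (∀ k, f k ∈ Forms K n (d k) A) ∧ LocSol f ∧
        ¬ SmallZero (n + 1 - ∑ k, d k) ((M : ℝ) * (A : ℝ) ^ r) f} :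
      Set (Fin r → MvPolynomial (Fin (n + 1)) (𝓞 K))).ncard : ℝ)
      ≤ ε * (A : ℝ) ^ (eK K * UpT n d) := by
  obtain ⟨C, hC⟩ : ∃ C : ℕ, C = (n + 1) ^ (∑ k, d k) + 1 := ⟨_, rfl⟩
  have hC1 : 1 ≤ C := by omega
  have hCk : ∀ k, (n + 1) ^ d k + 1 ≤ C := by
    intro k
    rw [hC]
    exact Nat.succ_le_succ (Nat.pow_le_pow_right (Nat.succ_pos n)
      (Finset.single_le_sum (f := d) (fun _ _ => Nat.zero_le _) (Finset.mem_univ k)))
  have hCR : (1 : ℝ) ≤ C := by exact_mod_cast hC1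
  have hcK := CK_pos K n
  have hK : (0 : ℝ) < (C : ℝ) ^ (eK K * VV n d) * CK K n ^ LoT n d := by positivity
  obtain ⟨M, A1, h⟩ := hM (ε / ((C : ℝ) ^ (eK K * VV n d) * CK K n ^ LoT n d)) (div_pos hε hK)
  refine ⟨M * C ^ r, A1 + 1, fun A hA => ?_⟩
  have hA1 : (1 : ℝ) ≤ A := by exact_mod_cast (by omega : 1 ≤ A)
  have hA0 : (0 : ℝ) ≤ A := by linarith
  have hCA : A1 ≤ C * A := by nlinarith
  have h1 := h (C * A) hCA
  set S : Set (Fin r → MvPolynomial (Fin (n + 1)) (𝓞 K)) :=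
    {f | (∀ k, f k ∈ Forms K n (d k) A) ∧ LocSol f ∧
        ¬ SmallZero (n + 1 - ∑ k, d k) (((M * C ^ r : ℕ) : ℝ) * (A : ℝ) ^ r) f} with hS
  set T := (TBox K n d ((C * A : ℕ) : ℝ)).filter fun F => (∀ v, RSol v F) ∧ PSol F ∧
        ¬ ∃ x : Vc n (𝓞 K), x ≠ 0 ∧
          (∀ i, ∀ v : InfinitePlace K, (v (x i : K)) ^ (n + 1 - ∑ i, d i) ≤
            (M : ℝ) * ((C * A : ℕ) : ℝ) ^ r) ∧
          ∀ i, ev (F i) x = 0 with hT
  have hMM : ((M * C ^ r : ℕ) : ℝ) * (A : ℝ) ^ r = (M : ℝ) * ((C * A : ℕ) : ℝ) ^ r := by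
    push_cast
    ring
  have h2 : S.ncard * (OBox K (A : ℝ)).card ^ LoT n d ≤ T.card := by
    refine xferT hA0 (B := ((C * A : ℕ) : ℝ)) (fun k => ?_) S (fun f hf => hf.1) T ?_
    · have h3 : ((n : ℝ) + 1) ^ d k + 1 ≤ C := by exact_mod_cast hCk k
      push_cast
      nlinarith
    · intro F hF hpF
      rw [hT, Finset.mem_filter]
      obtain ⟨hr, hp⟩ := sol_of_locSol hpF.2.1
      refine ⟨hF, hr, hp, fun hx => hpF.2.2 ?_⟩
      rw [smallZero_iff, hMM]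
      exact hx
  have h3 : (S.ncard : ℝ) * ((OBox K (A : ℝ)).card : ℝ) ^ LoT n d ≤ (T.card : ℝ) := by
    exact_mod_cast h2
  have h4 : ((A : ℝ) ^ eK K) ^ LoT n d ≤
      CK K n ^ LoT n d * ((OBox K (A : ℝ)).card : ℝ) ^ LoT n d := by
    rw [← mul_pow]
    exact pow_le_pow_left₀ (by positivity) (OBox_low K n hA1) _
  have h5 : (S.ncard : ℝ) * ((A : ℝ) ^ eK K) ^ LoT n d ≤
      ε * (A : ℝ) ^ (eK K * UpT n d) * ((A : ℝ) ^ eK K) ^ LoT n d := by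
    calc (S.ncard : ℝ) * ((A : ℝ) ^ eK K) ^ LoT n d
        ≤ (S.ncard : ℝ) * (CK K n ^ LoT n d * ((OBox K (A : ℝ)).card : ℝ) ^ LoT n d) :=
          mul_le_mul_of_nonneg_left h4 (Nat.cast_nonneg _)
      _ = CK K n ^ LoT n d * ((S.ncard : ℝ) * ((OBox K (A : ℝ)).card : ℝ) ^ LoT n d) := by ring
      _ ≤ CK K n ^ LoT n d * (T.card : ℝ) := mul_le_mul_of_nonneg_left h3 (by positivity)
      _ ≤ CK K n ^ LoT n d * (ε / ((C : ℝ) ^ (eK K * VV n d) * CK K n ^ LoT n d) *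
            ((C * A : ℕ) : ℝ) ^ (eK K * VV n d)) := mul_le_mul_of_nonneg_left h1 (by positivity)
      _ = ε * (A : ℝ) ^ (eK K * VV n d) := by
          push_cast
          rw [mul_pow]
          field_simp
      _ = ε * (A : ℝ) ^ (eK K * UpT n d) * ((A : ℝ) ^ eK K) ^ LoT n d := by
          rw [← pow_mul, ← LoT_add_UpT, Nat.mul_add, pow_add]
          ring
  have h6 : (0 : ℝ) < ((A : ℝ) ^ eK K) ^ LoT n d := by positivity
  exact le_of_mul_le_mul_right h5 h6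

theorem formsGood (n : ℕ) {r : ℕ} (d : Fin r → ℕ) (hN : NonSmP K n d) (hP : PosP K n d) :
    ∃ δ : ℝ, 0 < δ ∧ ∃ A0 : ℕ, ∀ A : ℕ, A0 ≤ A →
    δ * (A : ℝ) ^ (eK K * UpT n d) ≤
    (({f | (∀ k, f k ∈ Forms K n (d k) A) ∧ SmoothCI f ∧
        ∃ x : Fin (n + 1) → 𝓞 K, x ≠ 0 ∧ ∀ k, MvPolynomial.aeval x (f k) = 0} :
      Set (Fin r → MvPolynomial (Fin (n + 1)) (𝓞 K))).ncard : ℝ) := by
  obtain ⟨δ, hδ, A1, h1⟩ := hP
  obtain ⟨A2, h2⟩ := hN (δ / 2) (by positivity)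
  obtain ⟨N, hN⟩ : ∃ N : ℕ, N = (n + 1) ^ (∑ k, d k) := ⟨_, rfl⟩
  have hN1 : 0 < N := by
    rw [hN]
    positivity
  have hNk : ∀ k, (n + 1) ^ d k ≤ N := by
    intro k
    rw [hN]
    exact Nat.pow_le_pow_right (Nat.succ_pos n)
      (Finset.single_le_sum (f := d) (fun _ _ => Nat.zero_le _) (Finset.mem_univ k))
  have hNR : (0 : ℝ) < (N : ℝ) := by exact_mod_cast hN1
  have hcK := CK_pos K n
  refine ⟨δ / 2 / CK K n ^ LoT n d / (2 * (N : ℝ)) ^ (eK K * UpT n d), by positivity,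
    N * (A1 + A2) + N, fun A hA => ?_⟩
  have hAB : A1 + A2 + 1 ≤ A / N := by
    rw [Nat.le_div_iff_mul_le hN1]
    calc (A1 + A2 + 1) * N = N * (A1 + A2) + N := by ring
      _ ≤ A := hA
  have g1 := h1 (A / N) (by omega)
  have g2 := h2 (A / N) (by omega)
  have hNB : N * (A / N) ≤ A := Nat.mul_div_le A N
  have hlt : A < N * (A / N + 1) := Nat.lt_mul_div_succ A hN1
  generalize A / N = B at hAB g1 g2 hNB hlt
  have hB1 : (1 : ℝ) ≤ B := by exact_mod_cast (by omega : 1 ≤ B)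
  have hA0 : (0 : ℝ) ≤ A := Nat.cast_nonneg A
  set S : Set (Fin r → MvPolynomial (Fin (n + 1)) (𝓞 K)) :=
    {f | (∀ k, f k ∈ Forms K n (d k) A) ∧ SmoothCI f ∧
        ∃ x : Fin (n + 1) → 𝓞 K, x ≠ 0 ∧ ∀ k, MvPolynomial.aeval x (f k) = 0} with hS
  have hSf : S.Finite := (FormsT_finite n d hA0).subset fun f hf => hf.1
  set T1 := (TBox K n d B).filter fun F => ∃ x : Vc n (𝓞 K), x ≠ 0 ∧ ∀ i, ev (F i) x = 0 with hT1
  set T2 := (TBox K n d B).filter fun F =>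
        ¬ ∀ x : Vc n (AlgebraicClosure K), x ≠ 0 →
          (∀ k, ev (fmap (algebraMap (𝓞 K) (AlgebraicClosure K)) F k) x = 0) →
          LinearIndependent (AlgebraicClosure K)
            (fun k => dev (fmap (algebraMap (𝓞 K) (AlgebraicClosure K)) F k) x) with hT2
  have h3 : T1.card ≤ (T1 \ T2).card + T2.card := Finset.card_le_card_sdiff_add_card
  have h4 : (T1 \ T2).card ≤ (OBox K (B : ℝ)).card ^ LoT n d * S.ncard := by
    refine fibT S hSf (T1 \ T2) ?_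
    intro F hF
    rw [Finset.mem_sdiff, hT1, hT2, Finset.mem_filter, Finset.mem_filter] at hF
    obtain ⟨⟨hFB, x, hx, hx1⟩, hns⟩ := hF
    refine ⟨hFB, fun k => ?_, ?_, x, hx, fun k => ?_⟩
    · have hm := poly_mem (by positivity) (mem_TBox.1 hFB k)
      refine ⟨hm.1, fun m φ => (hm.2 m φ).trans ?_⟩
      have h5 : (n + 1) ^ d k * B ≤ A := (Nat.mul_le_mul_right B (hNk k)).trans hNB
      exact_mod_cast h5
    · rw [smooth_iff]
      by_contra hcon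
      exact hns ⟨hFB, hcon⟩
    · show MvPolynomial.aeval x (poly (F k)) = 0
      rw [aeval_poly]
      exact hx1 k
  have h5 : (T1.card : ℝ) ≤ ((OBox K (B : ℝ)).card : ℝ) ^ LoT n d * (S.ncard : ℝ) +
      (T2.card : ℝ) := by
    exact_mod_cast h3.trans (Nat.add_le_add_right h4 _)
  have h5' : ((OBox K (B : ℝ)).card : ℝ) ^ LoT n d ≤ (CK K n * (B : ℝ) ^ eK K) ^ LoT n d :=
    pow_le_pow_left₀ (Nat.cast_nonneg _) (OBox_up K n hB1) _
  have h6 : δ / 2 * (B : ℝ) ^ (eK K * VV n d) ≤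
      (CK K n * (B : ℝ) ^ eK K) ^ LoT n d * (S.ncard : ℝ) := by
    have h7 := mul_le_mul_of_nonneg_right h5' (Nat.cast_nonneg (α := ℝ) S.ncard)
    linarith
  have h7 : (A : ℝ) ≤ 2 * (N : ℝ) * (B : ℝ) := by
    have h8 : A ≤ 2 * N * B := by
      have h9 : N * (B + 1) ≤ N * (2 * B) := Nat.mul_le_mul_left N (by omega)
      have h10 : 2 * N * B = N * (2 * B) := by ring
      omega
    exact_mod_cast h8
  have h8 : (A : ℝ) ^ (eK K * UpT n d) ≤ (2 * (N : ℝ) * (B : ℝ)) ^ (eK K * UpT n d) :=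
    pow_le_pow_left₀ hA0 h7 _
  have h9 : (0 : ℝ) < (CK K n * (B : ℝ) ^ eK K) ^ LoT n d := by positivity
  refine le_of_mul_le_mul_left ?_ h9
  refine le_trans ?_ h6
  calc (CK K n * (B : ℝ) ^ eK K) ^ LoT n d *
        (δ / 2 / CK K n ^ LoT n d / (2 * (N : ℝ)) ^ (eK K * UpT n d) *
          (A : ℝ) ^ (eK K * UpT n d))
      ≤ (CK K n * (B : ℝ) ^ eK K) ^ LoT n d *
        (δ / 2 / CK K n ^ LoT n d / (2 * (N : ℝ)) ^ (eK K * UpT n d) *
          (2 * (N : ℝ) * (B : ℝ)) ^ (eK K * UpT n d)) := by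
        refine mul_le_mul_of_nonneg_left (mul_le_mul_of_nonneg_left h8 (by positivity)) h9.le
    _ = δ / 2 * (B : ℝ) ^ (eK K * VV n d) := by
        rw [← LoT_add_UpT, Nat.mul_add, pow_add, mul_pow (2 * (N : ℝ)), mul_pow (CK K n),
          ← pow_mul]
        field_simp

private theorem FM_Fin_ev {n d : ℕ} {f : MvPolynomial (Fin (n + 1)) (𝓞 K)}
    (hf : f.IsHomogeneous d) {x : Fin (n + 1) → 𝓞 K} (h : MvPolynomial.aeval x f = 0) :
    ev (toTen d f) x = 0 := by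
  rw [← poly_toTen hf, aeval_poly] at h
  exact h

private theorem FM_Fin_polyT {n r : ℕ} {d : Fin r → ℕ}
    {f : Fin r → MvPolynomial (Fin (n + 1)) (𝓞 K)} (hf : ∀ k, (f k).IsHomogeneous (d k)) :
    polyT (d := d) (fun k => toTen (d k) (f k)) = f := by
  funext k
  exact poly_toTen (hf k)

theorem locSol_of_intZero (n : ℕ) {r : ℕ} (d : Fin r → ℕ) (A : ℝ)
    (f : Fin r → MvPolynomial (Fin (n + 1)) (𝓞 K)) (hf : ∀ k, f k ∈ Forms K n (d k) A)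
    (x : Fin (n + 1) → 𝓞 K) (hx : x ≠ 0) (h : ∀ k, MvPolynomial.aeval x (f k) = 0) :
    LocSol f := by
  have h5 := locSol_of_zero (d := d) (F := fun k => toTen (d k) (f k)) hx
    (fun k => FM_Fin_ev K (hf k).1 (h k))
  rwa [FM_Fin_polyT K fun k => (hf k).1] at h5

theorem final1 (n : ℕ) {r : ℕ} (d : Fin r → ℕ) (hN : NonSmP K n d) (hM : MainP K n d)
    (hP : PosP K n d) (ε : ℝ) (hε : 0 < ε) : ∃ M A0 : ℕ, ∀ A : ℕ, A0 ≤ A →
    (({f | (∀ k, f k ∈ Forms K n (d k) A) ∧ LocSol f ∧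
        ¬ SmallZero (n + 1 - ∑ k, d k) ((M : ℝ) * (A : ℝ) ^ r) f} :
      Set (Fin r → MvPolynomial (Fin (n + 1)) (𝓞 K))).ncard : ℝ)
      ≤ ε * (({f | (∀ k, f k ∈ Forms K n (d k) A) ∧ SmoothCI f ∧ LocSol f} :
        Set (Fin r → MvPolynomial (Fin (n + 1)) (𝓞 K))).ncard : ℝ) := by
  obtain ⟨δ, hδ, A1, h1⟩ := formsGood K n d hN hP
  obtain ⟨M, A0, h2⟩ := formsBad K n d hM (ε * δ) (mul_pos hε hδ)
  refine ⟨M, max A0 A1, fun A hA => ?_⟩
  have hA0 : A0 ≤ A := le_trans (le_max_left _ _) hA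
  have hA1 : A1 ≤ A := le_trans (le_max_right _ _) hA
  have h3 := h2 A hA0
  have h4 := h1 A hA1
  refine h3.trans ?_
  rw [mul_assoc]
  refine mul_le_mul_of_nonneg_left (h4.trans ?_) hε.le
  rw [Nat.cast_le]
  refine Set.ncard_le_ncard ?_ ?_
  · rintro f ⟨g1, g3, x, hx, e1⟩
    exact ⟨g1, g3, locSol_of_intZero K n d A f g1 x hx e1⟩
  · refine Set.Finite.subset (FormsT_finite n d (Nat.cast_nonneg (α := ℝ) A)) ?_
    rintro f ⟨g1, -⟩
    exact g1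

theorem final2 (n : ℕ) {r : ℕ} (d : Fin r → ℕ) (hN : NonSmP K n d) (hP : PosP K n d) :
    ∃ δ : ℝ, 0 < δ ∧ ∃ A0 : ℕ, ∀ A : ℕ, A0 ≤ A →
    δ * (({f | ∀ k, f k ∈ Forms K n (d k) A} :
      Set (Fin r → MvPolynomial (Fin (n + 1)) (𝓞 K))).ncard : ℝ) ≤
    (({f | (∀ k, f k ∈ Forms K n (d k) A) ∧ SmoothCI f ∧
        ∃ x : Fin (n + 1) → 𝓞 K, x ≠ 0 ∧ ∀ k, MvPolynomial.aeval x (f k) = 0} :
      Set (Fin r → MvPolynomial (Fin (n + 1)) (𝓞 K))).ncard : ℝ) := by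
  obtain ⟨δ, hδ, A1, h1⟩ := formsGood K n d hN hP
  have hcK := CK_pos K n
  refine ⟨δ / CK K n ^ UpT n d, by positivity, A1 + 1, fun A hA => ?_⟩
  have hA1 : (1 : ℝ) ≤ A := by exact_mod_cast (by omega : 1 ≤ A)
  refine le_trans ?_ (h1 A (by omega))
  have h2 : (({f | ∀ k, f k ∈ Forms K n (d k) A} :
      Set (Fin r → MvPolynomial (Fin (n + 1)) (𝓞 K))).ncard : ℝ) ≤
      ((OBox K (A : ℝ)).card : ℝ) ^ UpT n d := by
    exact_mod_cast card_FormsT n d (Nat.cast_nonneg (α := ℝ) A)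
  have h3 : ((OBox K (A : ℝ)).card : ℝ) ^ UpT n d ≤ (CK K n * (A : ℝ) ^ eK K) ^ UpT n d :=
    pow_le_pow_left₀ (Nat.cast_nonneg _) (OBox_up K n hA1) _
  calc δ / CK K n ^ UpT n d * (({f | ∀ k, f k ∈ Forms K n (d k) A} :
      Set (Fin r → MvPolynomial (Fin (n + 1)) (𝓞 K))).ncard : ℝ)
      ≤ δ / CK K n ^ UpT n d * (CK K n * (A : ℝ) ^ eK K) ^ UpT n d :=
        mul_le_mul_of_nonneg_left (h2.trans h3) (by positivity)
    _ = δ * (A : ℝ) ^ (eK K * UpT n d) := by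
        rw [mul_pow, ← pow_mul]
        field_simp

theorem final3 (n : ℕ) {r : ℕ} (d : Fin r → ℕ) (hN : NonSmP K n d) (hP : PosP K n d) :
    ∃ δ : ℝ, 0 < δ ∧ ∃ A0 : ℕ, ∀ A : ℕ, A0 ≤ A →
    δ * (({f | ∀ k, f k ∈ Forms K n (d k) A} :
      Set (Fin r → MvPolynomial (Fin (n + 1)) (𝓞 K))).ncard : ℝ) ≤
    (({f | (∀ k, f k ∈ Forms K n (d k) A) ∧ SmoothCI f ∧ LocSol f} :
      Set (Fin r → MvPolynomial (Fin (n + 1)) (𝓞 K))).ncard : ℝ) := by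
  obtain ⟨δ, hδ, A1, h1⟩ := final2 K n d hN hP
  refine ⟨δ, hδ, A1, fun A hA => le_trans (h1 A hA) ?_⟩
  rw [Nat.cast_le]
  refine Set.ncard_le_ncard ?_ ?_
  · rintro f ⟨g1, g3, x, hx, e1⟩
    exact ⟨g1, g3, locSol_of_intZero K n d A f g1 x hx e1⟩
  · refine Set.Finite.subset (FormsT_finite n d (Nat.cast_nonneg (α := ℝ) A)) ?_
    rintro f ⟨g1, -⟩
    exact g1

end

end Pool.Agent.Lib.MP_1ad228_ntN
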