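import Pool.Agent.Lib.MP_1ad228_ntN.FM_Xfer

/-! Local solubility and smoothness of forms and of tensors (paper section 12). -/

namespace Pool.Agent.Lib.MP_1ad228_ntN

open Classical NumberField IsDedekindDomain

section val

private theorem FM_Loc_prod {S Γ : Type*} [CommRing S] [LinearOrderedCommGroupWithZero Γ]
    (v : Valuation S Γ) {ι : Type*} (U : Finset ι) (x y : ι → S) (hx : ∀ i, v (x i) ≤ 1)
    (hy : ∀ i, v (y i) ≤ 1) (γ : Γ) (h : ∀ i, v (y i - x i) ≤ γ) :
    v (∏ i ∈ U, y i - ∏ i ∈ U, x i) ≤ γ := by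
  induction U using Finset.induction_on with
  | empty =>
    rw [Finset.prod_empty, Finset.prod_empty, sub_self, map_zero]
    exact zero_le
  | insert b U hb ih =>
    rw [Finset.prod_insert hb, Finset.prod_insert hb]
    have h1 : y b * ∏ i ∈ U, y i - x b * ∏ i ∈ U, x i =
        (y b - x b) * ∏ i ∈ U, y i + x b * (∏ i ∈ U, y i - ∏ i ∈ U, x i) := by ring
    rw [h1]
    refine (v.map_add _ _).trans (max_le ?_ ?_)
    · rw [map_mul, map_prod]
      calc v (y b - x b) * ∏ i ∈ U, v (y i) ≤ γ * 1 :=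
            mul_le_mul' (h b) (Finset.prod_le_one' fun i _ => hy i)
        _ = γ := mul_one _
    · rw [map_mul]
      calc v (x b) * v (∏ i ∈ U, y i - ∏ i ∈ U, x i) ≤ 1 * γ := mul_le_mul' (hx b) ih
        _ = γ := one_mul _

private theorem FM_Loc_sum {S Γ : Type*} [CommRing S] [LinearOrderedCommGroupWithZero Γ]
    (v : Valuation S Γ) {ι : Type*} (U : Finset ι) (f : ι → S) (γ : Γ) (h : ∀ i, v (f i) ≤ γ) :
    v (∑ i ∈ U, f i) ≤ γ := by
  induction U using Finset.induction_on with
  | empty =>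
    rw [Finset.sum_empty, map_zero]
    exact zero_le
  | insert b U hb ih =>
    rw [Finset.sum_insert hb]
    exact (v.map_add _ _).trans (max_le (h b) ih)

private theorem FM_Loc_ev {S Γ : Type*} [CommRing S] [LinearOrderedCommGroupWithZero Γ]
    (v : Valuation S Γ) {n d : ℕ} (a : Ten n d S) (x y : Vc n S) (ha : ∀ s, v (a s) ≤ 1)
    (hx : ∀ i, v (x i) ≤ 1) (hy : ∀ i, v (y i) ≤ 1) (γ : Γ) (h : ∀ i, v (y i - x i) ≤ γ) :
    v (ev a y - ev a x) ≤ γ := by
  unfold Pool.Agent.Lib.MP_1ad228_ntF.ev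
  rw [← Finset.sum_sub_distrib]
  refine FM_Loc_sum v _ _ γ fun s => ?_
  rw [← mul_sub, map_mul]
  calc v (a s) * v (∏ k, y (s k) - ∏ k, x (s k)) ≤ 1 * γ :=
        mul_le_mul' (ha s) (FM_Loc_prod v _ (fun k => x (s k)) (fun k => y (s k)) (fun k => hx _)
          (fun k => hy _) γ fun k => h _)
    _ = γ := one_mul _

end val

section
variable {K : Type} [Field K] [NumberField K]

/-- The integers of the completion are close to elements of the ring of integers. -/
private theorem FM_Loc_close (w : HeightOneSpectrum (𝓞 K)) (x : w.adicCompletion K)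
    (hx : Valued.v x ≤ 1) (m : ℕ) :
    ∃ a : 𝓞 K, Valued.v (algebraMap (𝓞 K) (w.adicCompletion K) a - x) < WithZero.exp (-(m : ℤ)) := by
  obtain ⟨c, hc⟩ := HeightOneSpectrum.valuedAdicCompletion_surjective K w (WithZero.exp (-(m : ℤ)))
  have hc0 : Valued.v c ≠ 0 := by
    rw [hc]
    exact WithZero.exp_ne_zero
  have hc1 : Valued.v c ≤ 1 := by
    rw [hc, ← WithZero.exp_zero, WithZero.exp_le_exp]
    omega
  have hU : {y : w.adicCompletion K | Valued.v (y - x) < Valued.v c} ∈ nhds x := by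
    rw [Valued.mem_nhds]
    have h' : (Valued.v : Valuation (w.adicCompletion K) _).restrict c ≠ 0 := by
      rw [Ne, Valuation.restrict_eq_zero_iff]
      exact hc0
    refine ⟨Units.mk0 _ h', ?_⟩
    intro y hy
    exact (Valuation.restrict_lt_iff _).mp hy
  obtain ⟨y, hy, k, rfl⟩ := (mem_closure_iff_nhds.mp (w.denseRange_algebraMap K x)) _ hU
  have hy' : Valued.v (algebraMap K (w.adicCompletion K) k - x) < Valued.v c := hy
  have hk1 : w.valuation K k ≤ 1 := by
    rw [← HeightOneSpectrum.valuedAdicCompletion_eq_valuation' w k]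
    have h1 : (algebraMap K (w.adicCompletion K) k) =
        (algebraMap K (w.adicCompletion K) k - x) + x := by ring
    have h2 : Valued.v (algebraMap K (w.adicCompletion K) k) ≤ 1 := by
      rw [h1]
      exact (Valuation.map_add _ _ _).trans (max_le (hy'.le.trans hc1) hx)
    exact h2
  have hγ : (WithZero.exp (-(m : ℤ)) : WithZero (Multiplicative ℤ)) ≠ 0 := WithZero.exp_ne_zero
  obtain ⟨a, ha⟩ := w.exists_valuation_sub_lt_of_integer (K := K) hk1 (Units.mk0 _ hγ)
  rw [Units.val_mk0] at ha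
  refine ⟨a, ?_⟩
  have h1 : algebraMap (𝓞 K) (w.adicCompletion K) a - x =
      algebraMap K (w.adicCompletion K) (algebraMap (𝓞 K) K a - k) +
        (algebraMap K (w.adicCompletion K) k - x) := by
    rw [map_sub, ← IsScalarTower.algebraMap_apply (𝓞 K) K (w.adicCompletion K)]
    ring
  rw [h1]
  refine lt_of_le_of_lt (Valuation.map_add _ _ _) (max_lt ?_ ?_)
  · have h2 := HeightOneSpectrum.valuedAdicCompletion_eq_valuation' w (algebraMap (𝓞 K) K a - k)
    refine lt_of_eq_of_lt ?_ ha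
    exact h2
  · rw [← hc]
    exact hy'

private theorem FM_Loc_alg (w : HeightOneSpectrum (𝓞 K)) (a : 𝓞 K) :
    Valued.v (algebraMap (𝓞 K) (w.adicCompletion K) a) = w.intValuation a := by
  have h2 := HeightOneSpectrum.valuedAdicCompletion_eq_valuation' w (algebraMap (𝓞 K) K a)
  rw [HeightOneSpectrum.valuation_of_algebraMap] at h2
  exact h2

variable {n r : ℕ} {d : Fin r → ℕ}

theorem psol_of_adic {F : Tup n d (𝓞 K)}
    (h : ∀ v : HeightOneSpectrum (𝓞 K), ∃ x : Fin (n + 1) → v.adicCompletion K, x ≠ 0 ∧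
      ∀ k, MvPolynomial.aeval x (polyT F k) = 0) : PSol F := by
  intro P hP hP0 m
  obtain ⟨w, rfl⟩ : ∃ w : HeightOneSpectrum (𝓞 K), w.asIdeal = P := ⟨⟨P, hP, hP0⟩, rfl⟩
  obtain ⟨x, hx, hx0⟩ := h w
  set f : 𝓞 K →+* w.adicCompletion K := algebraMap (𝓞 K) (w.adicCompletion K) with hf
  have hx1 : ∀ k, ev (tmap f (F k)) x = 0 := by
    intro k
    rw [hf, ← aeval_poly]
    exact hx0 k
  obtain ⟨i0, -, hi0⟩ := Finset.exists_max_image (Finset.univ : Finset (Fin (n + 1)))
    (fun i => Valued.v (x i)) ⟨0, Finset.mem_univ _⟩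
  have hne : x i0 ≠ 0 := by
    intro h0
    apply hx
    funext i
    have h1 := hi0 i (Finset.mem_univ i)
    rw [h0, map_zero] at h1
    exact (Valuation.zero_iff _).1 (le_antisymm h1 zero_le)
  have hv0 : Valued.v (x i0) ≠ 0 := (Valuation.ne_zero_iff _).2 hne
  set z : Fin (n + 1) → w.adicCompletion K := fun i => (x i0)⁻¹ * x i with hz
  have hz1 : ∀ i, Valued.v (z i) ≤ 1 := by
    intro i
    rw [hz]
    simp only
    rw [map_mul, map_inv₀]
    have h1 := hi0 i (Finset.mem_univ i)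
    calc (Valued.v (x i0))⁻¹ * Valued.v (x i) ≤ (Valued.v (x i0))⁻¹ * Valued.v (x i0) :=
          mul_le_mul' le_rfl h1
      _ = 1 := inv_mul_cancel₀ hv0
  have hz0 : z i0 = 1 := by
    rw [hz]
    exact inv_mul_cancel₀ hne
  have hz2 : ∀ k, ev (tmap f (F k)) z = 0 := by
    intro k
    rw [hz, Pool.Agent.Lib.MP_1ad228_ntF.ev_scale, hx1 k, mul_zero]
  choose y hy using fun i => FM_Loc_close w (z i) (hz1 i) m
  have hm1 : (WithZero.exp (-(m : ℤ)) : WithZero (Multiplicative ℤ)) ≤ 1 := by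
    rw [← WithZero.exp_zero, WithZero.exp_le_exp]
    omega
  have hfa : ∀ a : 𝓞 K, Valued.v (f a) ≤ 1 := by
    intro a
    rw [hf, FM_Loc_alg]
    exact w.intValuation_le_one a
  refine ⟨y, ⟨i0, fun hmem => ?_⟩, fun k => ?_⟩
  · have h1 : Valued.v (f (y i0)) < 1 := by
      rw [hf, FM_Loc_alg]
      exact (w.intValuation_lt_one_iff_mem _).2 hmem
    have h2 : Valued.v (f (y i0) - 1) < 1 := by
      have h3 := hy i0
      rw [hz0] at h3
      exact lt_of_lt_of_le h3 hm1
    have h3 : (1 : w.adicCompletion K) = f (y i0) - (f (y i0) - 1) := by ring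
    have h4 : Valued.v (1 : w.adicCompletion K) < 1 := by
      rw [h3]
      exact lt_of_le_of_lt (Valuation.map_sub _ _ _) (max_lt h1 h2)
    rw [map_one] at h4
    exact lt_irrefl _ h4
  · have h1 : Valued.v (ev (tmap f (F k)) (fun i => f (y i)) - ev (tmap f (F k)) z) ≤
        WithZero.exp (-(m : ℤ)) :=
      FM_Loc_ev Valued.v (tmap f (F k)) z (fun i => f (y i)) (fun s => hfa _) hz1
        (fun i => hfa _) _ fun i => (hy i).le
    have h2 : ev (tmap f (F k)) (fun i => f (y i)) = f (ev (F k) y) :=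
      Pool.Agent.Lib.MP_1ad228_ntF.ev_map f (F k) y
    rw [hz2 k, sub_zero, h2, hf, FM_Loc_alg] at h1
    exact (w.intValuation_le_pow_iff_mem _ m).1 h1

theorem sol_of_locSol {F : Tup n d (𝓞 K)} (h : LocSol (polyT F)) :
    (∀ v, RSol v F) ∧ PSol F := by
  obtain ⟨hr, hc, hp⟩ := h
  refine ⟨fun v => ?_, psol_of_adic hp⟩
  by_cases hv : v.IsReal
  · obtain ⟨x, hx, hx0⟩ := hr (InfinitePlace.embedding_of_isReal hv)
    refine ⟨fun i => (x i : ℂ), fun l _ => Complex.ofReal_im _, fun h0 => hx ?_, fun i => ?_⟩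
    · funext i
      exact Complex.ofReal_eq_zero.1 (congrFun h0 i)
    · have h1 := hx0 i
      unfold polyT at h1
      rw [eval2_poly] at h1
      have h2 := Pool.Agent.Lib.MP_1ad228_ntF.ev_map Complex.ofRealHom
        (tmap ((InfinitePlace.embedding_of_isReal hv).comp (algebraMap (𝓞 K) K)) (F i)) x
      rw [h1, map_zero] at h2
      have h3 : (fun s => Complex.ofRealHom
          (tmap ((InfinitePlace.embedding_of_isReal hv).comp (algebraMap (𝓞 K) K)) (F i) s)) =
          fmap (em v) F i := by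
        funext s
        exact InfinitePlace.embedding_of_isReal_apply hv _
      rw [h3] at h2
      exact h2
  · obtain ⟨x, hx, hx0⟩ := hc v.embedding
    refine ⟨x, fun l h0 => absurd h0 hv, hx, fun i => ?_⟩
    have h1 := hx0 i
    unfold polyT at h1
    rw [eval2_poly] at h1
    exact h1

theorem locSol_of_zero {F : Tup n d (𝓞 K)} {x : Vc n (𝓞 K)} (hx : x ≠ 0)
    (h : ∀ k, ev (F k) x = 0) : LocSol (polyT F) := by
  have key : ∀ (R : Type) [CommRing R] (f : 𝓞 K →+* R), Function.Injective f →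
      ∃ y : Fin (n + 1) → R, y ≠ 0 ∧ ∀ k, (polyT F k).eval₂ f y = 0 := by
    intro R _ f hf
    refine ⟨fun i => f (x i), fun h0 => hx ?_, fun k => ?_⟩
    · funext i
      exact hf ((congrFun h0 i).trans (map_zero f).symm)
    · unfold polyT
      rw [eval2_poly]
      have h2 := Pool.Agent.Lib.MP_1ad228_ntF.ev_map f (F k) x
      rw [h k, map_zero] at h2
      exact h2
  have hinj : Function.Injective (algebraMap (𝓞 K) K) := RingOfIntegers.coe_injective
  refine ⟨fun σ => key ℝ _ (σ.injective.comp hinj), fun σ => key ℂ _ (σ.injective.comp hinj),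
    fun v => ?_⟩
  have h1 : Function.Injective (algebraMap (𝓞 K) (v.adicCompletion K)) := by
    rw [IsScalarTower.algebraMap_eq (𝓞 K) K (v.adicCompletion K)]
    exact (algebraMap K (v.adicCompletion K)).injective.comp hinj
  obtain ⟨y, hy, hy0⟩ := key (v.adicCompletion K) _ h1
  refine ⟨y, hy, fun k => ?_⟩
  rw [MvPolynomial.aeval_def]
  exact hy0 k

theorem smallZero_iff (e : ℕ) (X : ℝ) (F : Tup n d (𝓞 K)) :
    SmallZero e X (polyT F) ↔
      ∃ x : Vc n (𝓞 K), x ≠ 0 ∧ (∀ i, ∀ v : InfinitePlace K, v (x i : K) ^ e ≤ X) ∧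
        ∀ k, ev (F k) x = 0 := by
  have e' : ∀ (x : Vc n (𝓞 K)) (k : Fin r), MvPolynomial.aeval x (polyT F k) = ev (F k) x :=
    fun x k => aeval_poly (F k) x
  have e2 : ∀ z : 𝓞 K, (∀ φ : K →+* ℂ, ‖φ (z : K)‖ ^ e ≤ X) ↔
      ∀ v : InfinitePlace K, v (z : K) ^ e ≤ X := by
    intro z
    constructor
    · intro h v
      rw [← InfinitePlace.norm_embedding_eq v]
      exact h _
    · intro h φ
      have h1 := h (InfinitePlace.mk φ)
      rwa [InfinitePlace.apply] at h1
  unfold SmallZero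
  simp only [e', e2]

theorem smooth_iff (F : Tup n d (𝓞 K)) :
    SmoothCI (polyT F) ↔
      ∀ x : Vc n (AlgebraicClosure K), x ≠ 0 →
        (∀ k, ev (fmap (algebraMap (𝓞 K) (AlgebraicClosure K)) F k) x = 0) →
        LinearIndependent (AlgebraicClosure K)
          (fun k => dev (fmap (algebraMap (𝓞 K) (AlgebraicClosure K)) F k) x) := by
  have e : ∀ (k : Fin r) (x : Vc n (AlgebraicClosure K)),
      (fun i => MvPolynomial.aeval x (MvPolynomial.pderiv i (polyT F k))) =
        dev (fmap (algebraMap (𝓞 K) (AlgebraicClosure K)) F k) x := by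
    intro k x
    funext i
    exact pderiv_poly (F k) x i
  have e' : ∀ (k : Fin r) (x : Vc n (AlgebraicClosure K)),
      MvPolynomial.aeval x (polyT F k) =
        ev (fmap (algebraMap (𝓞 K) (AlgebraicClosure K)) F k) x :=
    fun k x => aeval_poly (F k) x
  have e2 : ∀ x : Vc n (AlgebraicClosure K), (fun (k : Fin r) (i : Fin (n + 1)) =>
      MvPolynomial.aeval x (MvPolynomial.pderiv i (polyT F k))) =
        fun k => dev (fmap (algebraMap (𝓞 K) (AlgebraicClosure K)) F k) x :=
    fun x => funext fun k => e k x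
  unfold SmoothCI
  refine forall_congr' fun x => ?_
  rw [e2 x]
  simp only [e']

end

end Pool.Agent.Lib.MP_1ad228_ntN
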