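import Pool.Agent.Lib.MP_1ad228_ntN.FM_Alg

/-! From tensors to forms, counting (paper section 12). -/

namespace Pool.Agent.Lib.MP_1ad228_ntN

open Classical NumberField

section
variable {K : Type} [Field K] [NumberField K] {n d r : ℕ}

theorem mem_OBox_emb {X : ℝ} {z : 𝓞 K} : z ∈ OBox K X ↔ ∀ φ : K →+* ℂ, ‖φ (z : K)‖ ≤ X := by
  rw [mem_OBox]
  constructor
  · intro h φ
    have h1 := h (InfinitePlace.mk φ)
    rwa [InfinitePlace.apply] at h1
  · intro h v
    rw [← InfinitePlace.norm_embedding_eq v]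
    exact h _

theorem toTen_mem {A : ℝ} (hA : 0 ≤ A) {f : MvPolynomial (Fin (n + 1)) (𝓞 K)}
    (hf : f ∈ Forms K n d A) : toTen d f ∈ Box K n d A := by
  unfold Box
  rw [Fintype.mem_piFinset]
  intro s
  unfold toTen
  by_cases h : IsRp s
  · rw [if_pos h, mem_OBox_emb]
    exact hf.2 _
  · rw [if_neg h]
    exact zero_mem_OBox hA

theorem poly_mem {A : ℝ} (hA : 0 ≤ A) {a : Ten n d (𝓞 K)} (ha : a ∈ Box K n d A) :
    poly a ∈ Forms K n d ((n + 1 : ℝ) ^ d * A) := by
  refine ⟨poly_hom a, fun μ φ => ?_⟩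
  unfold Box at ha
  rw [Fintype.mem_piFinset] at ha
  rw [coeff_poly]
  have h1 : φ (((∑ s, if mo s = μ then a s else 0 : 𝓞 K)) : K) =
      ∑ s, φ (((if mo s = μ then a s else 0 : 𝓞 K)) : K) := by
    have h2 := map_sum (φ.comp (algebraMap (𝓞 K) K)) (fun s => if mo s = μ then a s else 0)
      (Finset.univ : Finset (Fin d → Fin (n + 1)))
    exact h2
  rw [h1]
  refine (norm_sum_le _ _).trans ?_
  calc ∑ s, ‖φ (((if mo s = μ then a s else 0 : 𝓞 K)) : K)‖
      ≤ ∑ _s : Fin d → Fin (n + 1), A := by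
        refine Finset.sum_le_sum fun s _ => ?_
        by_cases h : mo s = μ
        · rw [if_pos h]
          exact mem_OBox_emb.1 (ha s) φ
        · rw [if_neg h]
          have h3 : ((0 : 𝓞 K) : K) = 0 := rfl
          rw [h3, map_zero, norm_zero]
          exact hA
    _ = (n + 1 : ℝ) ^ d * A := by
        rw [Finset.sum_const, nsmul_eq_mul, Finset.card_univ, Fintype.card_fun, Fintype.card_fin,
          Fintype.card_fin]
        push_cast
        rfl

variable (K) in
/-- Tensors supported outside the chosen indices. -/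
noncomputable def BB (n d : ℕ) (X : ℝ) : Finset (Ten n d (𝓞 K)) :=
  Fintype.piFinset fun s => if IsRp s then {0} else OBox K X

theorem mem_BB {X : ℝ} {b : Ten n d (𝓞 K)} : b ∈ BB K n d X ↔
    ∀ s, (IsRp s → b s = 0) ∧ (¬ IsRp s → b s ∈ OBox K X) := by
  unfold BB
  rw [Fintype.mem_piFinset]
  refine forall_congr' fun s => ?_
  by_cases h : IsRp s
  · rw [if_pos h, Finset.mem_singleton]
    exact ⟨fun h1 => ⟨fun _ => h1, fun h2 => absurd h h2⟩, fun h1 => h1.1 h⟩
  · rw [if_neg h]
    exact ⟨fun h1 => ⟨fun h2 => absurd h2 h, fun _ => h1⟩, fun h1 => h1.2 h⟩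

private theorem FM_Xfer_card1 (n d : ℕ) (I : Finset (𝓞 K)) :
    (Fintype.piFinset fun s : Fin d → Fin (n + 1) =>
      if IsRp s then ({0} : Finset (𝓞 K)) else I).card = I.card ^ Lo n d := by
  rw [Fintype.card_piFinset]
  have h1 : ∀ s : Fin d → Fin (n + 1), (if IsRp s then ({0} : Finset (𝓞 K)) else I).card =
      if IsRp s then 1 else I.card := by
    intro s
    split_ifs
    · rfl
    · rfl
  rw [Finset.prod_congr rfl fun s _ => h1 s, Finset.prod_ite, Finset.prod_const_one, one_mul,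
    Finset.prod_const]
  rfl

private theorem FM_Xfer_card2 (n d : ℕ) (I : Finset (𝓞 K)) :
    (Fintype.piFinset fun s : Fin d → Fin (n + 1) =>
      if IsRp s then I else ({0} : Finset (𝓞 K))).card = I.card ^ Up n d := by
  rw [Fintype.card_piFinset]
  have h1 : ∀ s : Fin d → Fin (n + 1), (if IsRp s then I else ({0} : Finset (𝓞 K))).card =
      if IsRp s then I.card else 1 := by
    intro s
    split_ifs
    · rfl
    · rfl
  rw [Finset.prod_congr rfl fun s _ => h1 s, Finset.prod_ite, Finset.prod_const_one, mul_one,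
    Finset.prod_const]
  rfl

theorem card_BB (n d : ℕ) (X : ℝ) : (BB K n d X).card = (OBox K X).card ^ Lo n d :=
  FM_Xfer_card1 n d (OBox K X)

theorem mkT_mem {A B : ℝ} (hA : 0 ≤ A) (hB : ((n : ℝ) + 1) ^ d * A + A ≤ B) {α b : Ten n d (𝓞 K)}
    (hα : α ∈ Box K n d A) (hb : b ∈ BB K n d A) : mkT α b ∈ Box K n d B := by
  rw [mem_Box] at hα ⊢
  have hb' := mem_BB.1 hb
  have hN : (0 : ℝ) ≤ ((n : ℝ) + 1) ^ d * A := by positivity
  intro s v
  by_cases hs : IsRp s
  · have h1 : mkT α b s = α s - ∑ t ∈ Finset.univ.filter (fun t : Fin d → Fin (n + 1) =>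
        mo t = mo s ∧ ¬ IsRp t), b t := by
      unfold mkT
      rw [if_pos hs]
    rw [h1]
    have h2 : ((α s - ∑ t ∈ Finset.univ.filter (fun t : Fin d → Fin (n + 1) =>
        mo t = mo s ∧ ¬ IsRp t), b t : 𝓞 K) : K) =
        (α s : K) - ∑ t ∈ Finset.univ.filter (fun t : Fin d → Fin (n + 1) =>
        mo t = mo s ∧ ¬ IsRp t), (b t : K) := by
      have h3 := map_sub (algebraMap (𝓞 K) K) (α s)
        (∑ t ∈ Finset.univ.filter (fun t : Fin d → Fin (n + 1) => mo t = mo s ∧ ¬ IsRp t), b t)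
      rw [map_sum] at h3
      exact h3
    rw [h2]
    refine (v_sub_le v _ _).trans ?_
    have h4 : v (∑ t ∈ Finset.univ.filter (fun t : Fin d → Fin (n + 1) =>
        mo t = mo s ∧ ¬ IsRp t), (b t : K)) ≤ ((n : ℝ) + 1) ^ d * A := by
      refine (v_sum_le v _ _).trans ?_
      calc ∑ t ∈ Finset.univ.filter (fun t : Fin d → Fin (n + 1) =>
            mo t = mo s ∧ ¬ IsRp t), v (b t : K)
          ≤ ∑ t ∈ Finset.univ.filter (fun t : Fin d → Fin (n + 1) =>
            mo t = mo s ∧ ¬ IsRp t), A := by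
            refine Finset.sum_le_sum fun t ht => ?_
            exact mem_OBox.1 ((hb' t).2 (Finset.mem_filter.1 ht).2.2) v
        _ ≤ ∑ _t : Fin d → Fin (n + 1), A :=
            Finset.sum_le_sum_of_subset_of_nonneg (Finset.filter_subset _ _) fun _ _ _ => hA
        _ = ((n : ℝ) + 1) ^ d * A := by
            rw [Finset.sum_const, nsmul_eq_mul, Finset.card_univ, Fintype.card_fun,
              Fintype.card_fin, Fintype.card_fin]
            push_cast
            rfl
    have h5 := hα s v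
    linarith
  · have h1 : mkT α b s = b s := by
      unfold mkT
      rw [if_neg hs]
    rw [h1]
    have h2 := mem_OBox.1 ((hb' s).2 hs) v
    linarith

theorem Forms_finite (n d : ℕ) {A : ℝ} (hA : 0 ≤ A) : (Forms K n d A).Finite := by
  refine Set.Finite.subset ((Box K n d A).finite_toSet.image poly) ?_
  intro f hf
  exact ⟨toTen d f, toTen_mem hA hf, poly_toTen hf.1⟩

theorem card_Forms (n d : ℕ) {A : ℝ} (hA : 0 ≤ A) :
    (Forms K n d A).ncard ≤ (OBox K A).card ^ Up n d := by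
  rw [← FM_Xfer_card2 n d (OBox K A), ← Set.ncard_coe_finset]
  refine Set.ncard_le_ncard_of_injOn (toTen d) ?_ ?_ (Finset.finite_toSet _)
  · intro f hf
    rw [Finset.mem_coe, Fintype.mem_piFinset]
    intro s
    unfold toTen
    split_ifs with h
    · rw [mem_OBox_emb]
      exact hf.2 _
    · exact Finset.mem_singleton_self _
  · intro f hf g hg h
    rw [← poly_toTen hf.1, ← poly_toTen hg.1, h]

theorem fib (A : ℝ) (f : MvPolynomial (Fin (n + 1)) (𝓞 K)) :
    ((Box K n d A).filter fun a => poly a = f).card ≤ (OBox K A).card ^ Lo n d := by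
  rw [← FM_Xfer_card1 n d (OBox K A)]
  apply Finset.card_le_card_of_injOn (fun a : Ten n d (𝓞 K) => fun s => if IsRp s then 0 else a s)
  · intro a ha
    rw [Finset.mem_coe, Finset.mem_filter] at ha
    have h0 := ha.1
    unfold Box at h0
    rw [Fintype.mem_piFinset] at h0
    rw [Finset.mem_coe, Fintype.mem_piFinset]
    intro s
    show (if IsRp s then 0 else a s) ∈ _
    by_cases h : IsRp s
    · rw [if_pos h, if_pos h]
      exact Finset.mem_singleton_self _
    · rw [if_neg h, if_neg h]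
      exact h0 s
  · intro a ha a' ha' heq
    rw [Finset.mem_coe, Finset.mem_filter] at ha ha'
    have h1 : ∀ s, ¬ IsRp s → (a - a') s = 0 := by
      intro s h
      have h2 := congrFun heq s
      simp only [if_neg h] at h2
      simp only [Pi.sub_apply, h2, sub_self]
    have h2 : poly (a - a') = poly (0 : Ten n d (𝓞 K)) := by
      rw [poly_sub, ha.2, ha'.2, sub_self]
      have := poly_sub (0 : Ten n d (𝓞 K)) 0
      rw [sub_self, sub_self] at this
      exact this.symm
    have h3 : a - a' = 0 := by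
      rw [← toTen_poly h1, h2]
      exact toTen_poly (c := 0) (fun _ _ => rfl)
    exact sub_eq_zero.1 h3

/-! ### Tuples -/

private theorem FM_Tup_eq (n : ℕ) {r : ℕ} (d : Fin r → ℕ) {A : ℝ} (hA : 0 ≤ A) :
    ({f | ∀ k, f k ∈ Forms K n (d k) A} : Set (Fin r → MvPolynomial (Fin (n + 1)) (𝓞 K))) =
      ((Fintype.piFinset fun k => (Forms_finite (K := K) n (d k) hA).toFinset :
        Finset (Fin r → MvPolynomial (Fin (n + 1)) (𝓞 K))) :
        Set (Fin r → MvPolynomial (Fin (n + 1)) (𝓞 K))) := by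
  ext f
  rw [Finset.mem_coe, Fintype.mem_piFinset, Set.mem_ofPred_eq]
  exact forall_congr' fun k => ((Forms_finite n (d k) hA).mem_toFinset).symm

theorem FormsT_finite (n : ℕ) {r : ℕ} (d : Fin r → ℕ) {A : ℝ} (hA : 0 ≤ A) :
    ({f | ∀ k, f k ∈ Forms K n (d k) A} :
      Set (Fin r → MvPolynomial (Fin (n + 1)) (𝓞 K))).Finite := by
  rw [FM_Tup_eq n d hA]
  exact Finset.finite_toSet _

theorem card_FormsT (n : ℕ) {r : ℕ} (d : Fin r → ℕ) {A : ℝ} (hA : 0 ≤ A) :
    ({f | ∀ k, f k ∈ Forms K n (d k) A} :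
      Set (Fin r → MvPolynomial (Fin (n + 1)) (𝓞 K))).ncard ≤ (OBox K A).card ^ UpT n d := by
  rw [FM_Tup_eq n d hA, Set.ncard_coe_finset, Fintype.card_piFinset]
  unfold Pool.Agent.Lib.MP_1ad228_ntF.UpT
  rw [← Finset.prod_pow_eq_pow_sum]
  refine Finset.prod_le_prod' fun k _ => ?_
  rw [← Set.ncard_eq_toFinset_card _ (Forms_finite n (d k) hA)]
  exact card_Forms n (d k) hA

theorem xferT {d : Fin r → ℕ} {A B : ℝ} (hA : 0 ≤ A)
    (hB : ∀ k, ((n : ℝ) + 1) ^ d k * A + A ≤ B)
    (S : Set (Fin r → MvPolynomial (Fin (n + 1)) (𝓞 K)))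
    (hS : ∀ f ∈ S, ∀ k, f k ∈ Forms K n (d k) A) (T : Finset (Tup n d (𝓞 K)))
    (hT : ∀ F ∈ TBox K n d B, polyT F ∈ S → F ∈ T) :
    S.ncard * (OBox K A).card ^ LoT n d ≤ T.card := by
  have hSf : S.Finite := (FormsT_finite n d hA).subset hS
  have hBB : (OBox K A).card ^ LoT n d = (Fintype.piFinset fun k => BB K n (d k) A).card := by
    rw [Fintype.card_piFinset]
    unfold Pool.Agent.Lib.MP_1ad228_ntF.LoT
    rw [← Finset.prod_pow_eq_pow_sum]
    exact Finset.prod_congr rfl fun k _ => (card_BB n (d k) A).symm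
  rw [Set.ncard_eq_toFinset_card S hSf, hBB, ← Finset.card_product]
  refine Finset.card_le_card_of_injOn
    (fun x => (fun k => mkT (toTen (d k) (x.1 k)) (x.2 k) : Tup n d (𝓞 K))) ?_ ?_
  · rintro ⟨f, b⟩ hx
    rw [Finset.mem_coe, Finset.mem_product, Set.Finite.mem_toFinset, Fintype.mem_piFinset] at hx
    obtain ⟨hf, hb⟩ := hx
    have hpT : polyT (fun k => mkT (toTen (d k) (f k)) (b k) : Tup n d (𝓞 K)) = f := by
      funext k
      show poly (mkT (toTen (d k) (f k)) (b k)) = f k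
      rw [poly_mkT (toTen_supp (f k)), poly_toTen (hS f hf k).1]
    refine hT _ ?_ ?_
    · unfold TBox
      rw [Fintype.mem_piFinset]
      intro k
      exact mkT_mem hA (hB k) (toTen_mem hA (hS f hf k)) (hb k)
    · show polyT (fun k => mkT (toTen (d k) (f k)) (b k) : Tup n d (𝓞 K)) ∈ S
      rw [hpT]
      exact hf
  · rintro ⟨f, b⟩ hx ⟨f', b'⟩ hx' he
    rw [Finset.mem_coe, Finset.mem_product, Set.Finite.mem_toFinset, Fintype.mem_piFinset] at hx hx'
    obtain ⟨hf, hb⟩ := hx
    obtain ⟨hf', hb'⟩ := hx'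
    have h1 : ∀ k, toTen (d k) (f k) = toTen (d k) (f' k) ∧ b k = b' k := fun k =>
      mkT_inj (toTen_supp (f k)) (toTen_supp (f' k)) (fun s => (mem_BB.1 (hb k) s).1)
        (fun s => (mem_BB.1 (hb' k) s).1) (congrFun he k)
    have h2 : f = f' := by
      funext k
      rw [← poly_toTen (hS f hf k).1, ← poly_toTen (hS f' hf' k).1, (h1 k).1]
    have h3 : b = b' := funext fun k => (h1 k).2
    rw [h2, h3]

theorem fibT {d : Fin r → ℕ} {A : ℝ} (S : Set (Fin r → MvPolynomial (Fin (n + 1)) (𝓞 K)))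
    (hS : S.Finite) (T : Finset (Tup n d (𝓞 K))) (hT : ∀ F ∈ T, F ∈ TBox K n d A ∧ polyT F ∈ S) :
    T.card ≤ (OBox K A).card ^ LoT n d * S.ncard := by
  rw [Set.ncard_eq_toFinset_card S hS]
  have himg : T.image (fun F : Tup n d (𝓞 K) => polyT F) ⊆ hS.toFinset := by
    intro f hf
    rw [Finset.mem_image] at hf
    obtain ⟨F, hF, rfl⟩ := hf
    rw [Set.Finite.mem_toFinset]
    exact (hT F hF).2
  refine (Finset.card_le_mul_card_image (f := fun F : Tup n d (𝓞 K) => polyT F)
    T ((OBox K A).card ^ LoT n d) ?_).trans (Nat.mul_le_mul_left _ (Finset.card_le_card himg))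
  intro f _
  have hsub : (T.filter fun F => polyT F = f) ⊆
      (Fintype.piFinset fun k => (Box K n (d k) A).filter fun a => poly a = f k) := by
    intro F hF
    rw [Finset.mem_filter] at hF
    obtain ⟨h1, h2⟩ := hF
    rw [Fintype.mem_piFinset]
    intro k
    rw [Finset.mem_filter]
    have h3 := (hT F h1).1
    unfold TBox at h3
    rw [Fintype.mem_piFinset] at h3
    exact ⟨h3 k, congrFun h2 k⟩
  refine (Finset.card_le_card hsub).trans ?_
  unfold Pool.Agent.Lib.MP_1ad228_ntF.LoT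
  rw [Fintype.card_piFinset, ← Finset.prod_pow_eq_pow_sum]
  exact Finset.prod_le_prod' fun k _ => fib A (f k)

end

end Pool.Agent.Lib.MP_1ad228_ntN
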