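import Pool.Agent.Lib.MP_1ad228_ntN.NB_Const

/-!
JOB HG_Pig.  Pigeonhole for vectors orthogonal to `x` (paper section 6, pig1). (Model over Q: Lib/MP_219881_nt/HG_Pig.lean, theorem pig1.)

PROOF.  `e = eK K`, `c = CK K n`.  For `z : Fin e → ℤ` choose by `exists_co` the integer with these coordinates (`co_inj`: injective).  `P` = the vectors `f` with all `co (f i) j ∈ Finset.Icc 0 H`: it is the image of
`Fintype.piFinset (fun _ : Fin (n+1) => Fintype.piFinset (fun _ : Fin e => Finset.Icc 0 H))` under an injective map, so `P.card = (H+1)^(e (n+1))`.  For `f ∈ P`: `v (f i) ≤ c H` (`co_up`), so `v (lin f x) ≤ (n+1) c H B`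
(`v_sum_le`, `v_mul`), i.e. `lin f x ∈ T := OBox K ((n+1) c H B)` and `T.card ≤ c ((n+1) c H B)^e` (`OBox_up`, `(n+1) c H B ≥ 1`).  Some fibre `P_v` has `P.card ≤ P_v.card * T.card`
(`Finset.exists_le_card_fiber_of_nsmul_le_card_of_maps_to`, or by contradiction with `Finset.card_eq_sum_card_fiberwise`).  It is nonempty; take `f0 ∈ P_v` and `S = P_v.image (fun f => f - f0)` (injective):
`lin (f - f0) x = 0` (`lin_sub`), `|co (f i - f0 i) j| ≤ H` (`co_sub`).  Constant: `C = c * ((n+1) c)^e`.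
-/

namespace Pool.Agent.Lib.MP_1ad228_ntN

open NumberField Classical

set_option linter.unusedSectionVars false

variable (K : Type) [Field K] [NumberField K]

theorem pig1 (n : ℕ) : ∃ C : ℝ, 1 ≤ C ∧ ∀ B H : ℕ, 1 ≤ B → 1 ≤ H → ∀ x ∈ VBox K n B,
    ∃ S : Finset (Vc n (𝓞 K)), (∀ f ∈ S, lin f x = 0 ∧ ∀ i j, |co (f i) j| ≤ (H : ℤ)) ∧
      (H : ℝ) ^ (eK K * (n + 1)) ≤ C * (S.card : ℝ) * ((H : ℝ) * B) ^ eK K := by
  have hc1 := CK_one_le K n
  have hc0 : 0 < CK K n := CK_pos K n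
  have hn1 : (1 : ℝ) ≤ (n : ℝ) + 1 := by
    have : (0 : ℝ) ≤ n := Nat.cast_nonneg n
    linarith
  have hnc : 1 ≤ ((n : ℝ) + 1) * CK K n := one_le_mul_of_one_le_of_one_le hn1 hc1
  refine ⟨CK K n * (((n : ℝ) + 1) * CK K n) ^ eK K,
    one_le_mul_of_one_le_of_one_le hc1 (one_le_pow₀ hnc), ?_⟩
  intro B H hB hH x hx
  have hB1 : (1 : ℝ) ≤ B := by exact_mod_cast hB
  have hH1 : (1 : ℝ) ≤ H := by exact_mod_cast hH
  rw [mem_VBox] at hx
  choose zo hzo using fun c : Fin (eK K) → ℤ => exists_co (K := K) c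
  have hzinj : Function.Injective zo := by
    intro a b hab
    funext i
    rw [← hzo a i, ← hzo b i, hab]
  obtain ⟨Q, hQ⟩ : ∃ Q : Finset (Fin (n + 1) → Fin (eK K) → ℤ), Q = Fintype.piFinset (fun _ : Fin (n + 1) =>
    Fintype.piFinset (fun _ : Fin (eK K) => Finset.Icc (0 : ℤ) (H : ℤ))) := ⟨_, rfl⟩
  have hQmem : ∀ c ∈ Q, ∀ i j, 0 ≤ c i j ∧ c i j ≤ (H : ℤ) := by
    intro c hc i j
    rw [hQ, Fintype.mem_piFinset] at hc
    have h1 := hc i
    rw [Fintype.mem_piFinset] at h1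
    exact Finset.mem_Icc.1 (h1 j)
  have hQc : (Q.card : ℝ) = ((H : ℝ) + 1) ^ (eK K * (n + 1)) := by
    have h : ((H : ℤ) + 1 - 0).toNat = H + 1 := by omega
    rw [hQ]
    simp only [Fintype.card_piFinset, Int.card_Icc, h, Finset.prod_const, Finset.card_univ,
      Fintype.card_fin]
    push_cast
    rw [← pow_mul]
  obtain ⟨P, hP⟩ : ∃ P : Finset (Vc n (𝓞 K)), P = Q.image (fun c => fun i => zo (c i)) := ⟨_, rfl⟩
  have hPc : P.card = Q.card := by
    rw [hP]
    refine Finset.card_image_of_injective _ fun a b hab => ?_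
    funext i
    exact hzinj (congrFun hab i)
  have hPmem : ∀ f ∈ P, ∀ i j, 0 ≤ co (f i) j ∧ co (f i) j ≤ (H : ℤ) := by
    intro f hf i j
    rw [hP] at hf
    obtain ⟨c, hc, rfl⟩ := Finset.mem_image.1 hf
    dsimp only
    rw [hzo]
    exact hQmem c hc i j
  have hPv : ∀ f ∈ P, ∀ i, ∀ v : InfinitePlace K, v (f i : K) ≤ CK K n * H := by
    intro f hf i v
    refine co_up n (f i) H (fun j => ?_) v
    have h1 := hPmem f hf i j
    have h2 : (0 : ℝ) ≤ (co (f i) j : ℝ) := by exact_mod_cast h1.1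
    have h3 : (co (f i) j : ℝ) ≤ H := by exact_mod_cast h1.2
    rw [abs_of_nonneg h2]
    exact h3
  obtain ⟨T, hT⟩ : ∃ T : Finset (𝓞 K), T = OBox K (((n : ℝ) + 1) * (CK K n * H * B)) := ⟨_, rfl⟩
  have hTc : (T.card : ℝ) ≤ CK K n * (((n : ℝ) + 1) * (CK K n * H * B)) ^ eK K := by
    rw [hT]
    refine OBox_up K n ?_
    exact one_le_mul_of_one_le_of_one_le hn1
      (one_le_mul_of_one_le_of_one_le (one_le_mul_of_one_le_of_one_le hc1 hH1) hB1)
  have hmaps : ∀ f ∈ P, lin f x ∈ T := by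
    intro f hf
    rw [hT, mem_OBox]
    intro v
    unfold Pool.Agent.Lib.MP_219881_nt.lin
    push_cast
    refine (v_sum_le v _ _).trans ?_
    have h1 : ∀ i ∈ (Finset.univ : Finset (Fin (n + 1))), v ((f i : K) * (x i : K)) ≤ CK K n * H * B := by
      intro i _
      rw [v_mul]
      exact mul_le_mul (hPv f hf i v) (hx i v) (v_nonneg v _) (by positivity)
    refine (Finset.sum_le_sum h1).trans ?_
    rw [Finset.sum_const, Finset.card_univ, Fintype.card_fin, nsmul_eq_mul]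
    push_cast
    exact le_rfl
  have hPpos : 0 < P.card := by
    rw [hPc]
    have : (0 : ℝ) < Q.card := by
      rw [hQc]
      positivity
    exact_mod_cast this
  obtain ⟨t, ht, htc⟩ : ∃ t ∈ T, P.card ≤ (P.filter (fun f => lin f x = t)).card * T.card := by
    by_contra hcon
    push Not at hcon
    have h1 := Finset.card_eq_sum_card_fiberwise (f := fun f => lin f x) hmaps
    obtain ⟨f, hf⟩ := Finset.card_pos.1 hPpos
    have hne : T.Nonempty := ⟨_, hmaps f hf⟩
    have h2 := Finset.sum_lt_sum_of_nonempty hne hcon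
    rw [← Finset.sum_mul, ← h1, Finset.sum_const, smul_eq_mul] at h2
    exact absurd h2 (by rw [mul_comm]; exact lt_irrefl _)
  have hne : (P.filter (fun f => lin f x = t)).Nonempty := by
    rw [← Finset.card_pos]
    by_contra h0
    have h1 : (P.filter (fun f => lin f x = t)).card = 0 := by omega
    rw [h1, zero_mul] at htc
    omega
  obtain ⟨f0, hf0⟩ := hne
  rw [Finset.mem_filter] at hf0
  refine ⟨(P.filter (fun f => lin f x = t)).image (fun f => f - f0), ?_, ?_⟩
  · intro f hf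
    obtain ⟨g, hg, rfl⟩ := Finset.mem_image.mp hf
    rw [Finset.mem_filter] at hg
    refine ⟨?_, ?_⟩
    · rw [lin_sub, hg.2, hf0.2, sub_self]
    · intro i j
      have h1 := hPmem g hg.1 i j
      have h2 := hPmem f0 hf0.1 i j
      rw [Pi.sub_apply, co_sub, abs_le]
      constructor <;> linarith
  · rw [Finset.card_image_of_injective _ (fun a b h => by simpa using h)]
    have h1 : (H : ℝ) ^ (eK K * (n + 1)) ≤ ((H : ℝ) + 1) ^ (eK K * (n + 1)) :=
      pow_le_pow_left₀ (by linarith) (by linarith) _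
    have h2 : ((H : ℝ) + 1) ^ (eK K * (n + 1)) ≤ ((P.filter (fun f => lin f x = t)).card : ℝ) * T.card := by
      rw [← hQc, ← hPc]
      exact_mod_cast htc
    have h3 : ((P.filter (fun f => lin f x = t)).card : ℝ) * T.card ≤
        ((P.filter (fun f => lin f x = t)).card : ℝ) * (CK K n * (((n : ℝ) + 1) * (CK K n * H * B)) ^ eK K) :=
      mul_le_mul_of_nonneg_left hTc (Nat.cast_nonneg _)
    refine (h1.trans (h2.trans h3)).trans (le_of_eq ?_)
    have h4 : ((n : ℝ) + 1) * (CK K n * H * B) = (((n : ℝ) + 1) * CK K n) * (H * B) := by ring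
    rw [h4, mul_pow]
    ring

end Pool.Agent.Lib.MP_1ad228_ntN
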