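import Pool.Agent.Lib.MP_1ad228_ntN.Defs
import Pool.Agent.Lib.MP_1ad228_ntF.Tay
import Pool.Agent.Lib.MP_1ad228_ntF.LD_Lin
import Pool.Agent.Lib.MP_1ad228_ntF.LD_Elim

/-! Local densities over number fields: exports of the general lemmas of the model and basic facts on finite rings. -/

namespace Pool.Agent.Lib.MP_1ad228_ntN

export Pool.Agent.Lib.MP_219881_nt (II mn_mem_II content)

export Pool.Agent.Lib.MP_1ad228_ntF (spi lsec lsec_ev lsec_dev ev_congr_dvd ev_taylor_dvd
  dev_congr_dvd dev_scale elim elim0 elim_inj uni_one)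

open NumberField Classical

section ring
variable {n : ℕ} {R : Type*} [CommRing R] [Finite R]

/-- Number of tuples over a finite ring. -/
theorem card_TupR (n : ℕ) {r : ℕ} (d : Fin r → ℕ) (R : Type*) [CommRing R] [Finite R] :
    Nat.card (Tup n d R) = Nat.card R ^ VV n d := by
  have : Fintype R := Fintype.ofFinite R
  rw [Nat.card_pi]
  have h : ∀ i : Fin r, Nat.card (Ten n (d i) R) = Nat.card R ^ (n + 1) ^ d i := by
    intro i
    rw [Nat.card_fun, Nat.card_fun]
    simp
  rw [Finset.prod_congr rfl fun i _ => h i, Finset.prod_pow_eq_pow_sum]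
  rfl

/-- Number of tensors over a finite ring. -/
theorem card_TenR (n d : ℕ) (R : Type*) [CommRing R] [Finite R] :
    Nat.card (Ten n d R) = Nat.card R ^ (n + 1) ^ d := by
  rw [Nat.card_fun, Nat.card_fun]
  simp

/-- Number of vectors over a finite ring. -/
theorem card_VcR (n : ℕ) (R : Type*) [CommRing R] [Finite R] :
    Nat.card (Vc n R) = Nat.card R ^ (n + 1) := by
  rw [Nat.card_fun]
  simp

theorem card_R_pos (R : Type*) [CommRing R] [Finite R] : 0 < Nat.card R := Nat.card_pos


omit [Finite R] in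
theorem card_quot (J : Ideal R) : Nat.card J * Nat.card (R ⧸ J) = Nat.card R := by
  have h := AddSubgroup.card_eq_card_quotient_mul_card_addSubgroup (Submodule.toAddSubgroup J)
  rw [h, mul_comm]
  rfl

end ring

section quot
variable {K : Type} [Field K] [NumberField K]

theorem finite_quot {I : Ideal (𝓞 K)} (hI : I ≠ ⊥) : Finite (𝓞 K ⧸ I) :=
  Ideal.finiteQuotientOfFreeOfNeBot I hI

theorem card_quotO (I : Ideal (𝓞 K)) : Nat.card (𝓞 K ⧸ I) = Ideal.absNorm I := by
  rw [Ideal.absNorm_apply]
  rfl

end quot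

end Pool.Agent.Lib.MP_1ad228_ntN
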