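import Pool.Agent.Lib.MP_1ad228_ntN.LD_Base

/-!
JOB LD_Cnt.  Vectors over a finite commutative ring: numbers of `y` with given ideal of minors, unimodular vectors.
(Models with proofs: Lib/MP_219881_nt/LD_Cnt.lean (LD_cnty) and Lib/MP_219881_nt/LD_Uni.lean (LD_sq, LD_uni); there `R = ZMod m` and the ideals are replaced by the
divisors of `m`.)

`IdS R δ`: the sum of `(card (R/J))^(-2)` over the proper ideals `J` (over any finite set of them) is at most `δ`.
LD_cnty.  Let `lin u x = 1`. If `II x y = J` then `y j - lin u y * x j = ∑ i, u i * mn x y i j ∈ J` (model). Let `s : R ⧸ J → R` be a section of `Ideal.Quotient.mk J`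
(`Quotient.out`, or `Function.surjInv Ideal.Quotient.mk_surjective`). The map `y ↦ (mk (lin u y), j ↦ y j - s (mk (lin u y)) * x j)` from the set
to `(R ⧸ J) × (Fin (n+1) → J)` is well defined (`lin u y - s (mk (lin u y)) ∈ J`) and injective, so `# ≤ card (R/J) * card J ^ (n+1) = card R * card J ^ n` (`card_quot`).
LD_sumJ.  `card J = card R / card (R/J)` (`card_quot`); the term `J = ⊤` is `(card R)^s`, for the others `(card J)^s = (card R)^s * (1 / card (R/J))^s ≤
(card R)^s * (1 / card (R/J))^2` (`s ≥ 2`, `card (R/J) ≥ 1`): sum over `T.erase ⊤`.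
LD_uni.  If `x` is not unimodular then `J = Ideal.span (Set.range x) ≠ ⊤` and all `x i ∈ J`. The ideals of the finite ring `R` form a finite type
(`Finite (Ideal R)`: injection into `Set R`, `SetLike.coe_injective`). Number of non unimodular vectors: `≤ ∑_{J ≠ ⊤} (card J)^(n+1) ≤ (card R)^(n+1) δ` (as in LD_sumJ; use the
finset `Finset.univ.erase ⊤` or `Set.Finite.toFinset`), and there are `(card R)^(n+1)` vectors (`card_VcR`).
-/

namespace Pool.Agent.Lib.MP_1ad228_ntN

open Classical

/-- The sum of `(card (R/J))^(-2)` over any finite set of proper ideals is at most `δ`. -/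
def IdS (R : Type*) [CommRing R] (δ : ℝ) : Prop :=
  ∀ T : Finset (Ideal R), ⊤ ∉ T → ∑ J ∈ T, (1 / (Nat.card (R ⧸ J) : ℝ)) ^ 2 ≤ δ

theorem IdS.nonneg {R : Type*} [CommRing R] {δ : ℝ} (h : IdS R δ) : 0 ≤ δ := by
  have := h ∅ (Finset.notMem_empty _)
  simpa using this

theorem LD_cnty {n : ℕ} {R : Type*} [CommRing R] [Finite R] (x : Vc n R) (hx : Uni x)
    (J : Ideal R) : Nat.card {y : Vc n R // II x y = J} ≤ Nat.card R * Nat.card J ^ n := by
  obtain ⟨u, hu⟩ := hx
  have hs : ∀ q : R ⧸ J, Ideal.Quotient.mk J (Quotient.out q) = q := fun q => Quotient.out_eq q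
  have hw : ∀ y : Vc n R, II x y = J → ∀ j, y j - lin u y * x j ∈ J := by
    intro y hy j
    have h1 : y j - lin u y * x j = ∑ i, u i * mn x y i j := by
      have h2 : y j = lin u x * y j := by rw [hu, one_mul]
      calc y j - lin u y * x j = lin u x * y j - lin u y * x j := by rw [← h2]
        _ = ∑ i, u i * mn x y i j := by
          simp only [lin, mn, Finset.sum_mul, mul_sub, Finset.sum_sub_distrib]
          refine congrArg₂ (· - ·) (Finset.sum_congr rfl fun i _ => by ring)
            (Finset.sum_congr rfl fun i _ => by ring)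
    rw [h1]
    refine Ideal.sum_mem _ fun i _ => Ideal.mul_mem_left _ _ ?_
    rw [← hy]
    exact mn_mem_II x y i j
  have hw2 : ∀ y : Vc n R, II x y = J → ∀ j,
      y j - Quotient.out (Ideal.Quotient.mk J (lin u y)) * x j ∈ J := by
    intro y hy j
    have h1 := hw y hy j
    have h2 : lin u y - Quotient.out (Ideal.Quotient.mk J (lin u y)) ∈ J := by
      rw [← Ideal.Quotient.mk_eq_mk_iff_sub_mem]
      exact (hs _).symm
    have h3 : y j - Quotient.out (Ideal.Quotient.mk J (lin u y)) * x j =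
        (y j - lin u y * x j) +
          (lin u y - Quotient.out (Ideal.Quotient.mk J (lin u y))) * x j := by ring
    rw [h3]
    exact J.add_mem h1 (Ideal.mul_mem_right _ _ h2)
  let Y := {y : Vc n R // II x y = J}
  let Φ : Y → (R ⧸ J) × (Fin (n + 1) → J) := fun q =>
    (Ideal.Quotient.mk J (lin u q.1), fun j =>
      ⟨q.1 j - Quotient.out (Ideal.Quotient.mk J (lin u q.1)) * x j, hw2 q.1 q.2 j⟩)
  have hΦ : Function.Injective Φ := by
    rintro ⟨y, hy⟩ ⟨y', hy'⟩ h
    have h1 : Ideal.Quotient.mk J (lin u y) = Ideal.Quotient.mk J (lin u y') :=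
      congrArg Prod.fst h
    have h2 : ∀ j, y j - Quotient.out (Ideal.Quotient.mk J (lin u y)) * x j =
        y' j - Quotient.out (Ideal.Quotient.mk J (lin u y')) * x j := by
      intro j
      have h3 := congrFun (congrArg Prod.snd h) j
      exact congrArg Subtype.val h3
    refine Subtype.ext ?_
    funext j
    have h4 := h2 j
    rw [h1] at h4
    exact sub_left_injective h4
  have hfq : Finite (R ⧸ J) := Finite.of_surjective _ Ideal.Quotient.mk_surjective
  have hfJ : Finite J := inferInstance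
  have hcard := Nat.card_le_card_of_injective Φ hΦ
  have hfun : Nat.card (Fin (n + 1) → J) = Nat.card J ^ (n + 1) := by
    rw [Nat.card_fun]
    simp
  rw [Nat.card_prod, hfun] at hcard
  refine hcard.trans (le_of_eq ?_)
  rw [← card_quot J, pow_succ]
  ring

private theorem LD_Cnt_term {R : Type*} [CommRing R] [Finite R] (J : Ideal R) (s : ℕ) (hs : 2 ≤ s) :
    (Nat.card J : ℝ) ^ s ≤ (Nat.card R : ℝ) ^ s * (1 / (Nat.card (R ⧸ J) : ℝ)) ^ 2 := by
  have h1 := card_quot J
  have hfq : Finite (R ⧸ J) := Finite.of_surjective _ Ideal.Quotient.mk_surjective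
  have hq : 0 < Nat.card (R ⧸ J) := Nat.card_pos
  have hq1 : (1 : ℝ) ≤ (Nat.card (R ⧸ J) : ℝ) := by exact_mod_cast hq
  have hJ : (Nat.card J : ℝ) = (Nat.card R : ℝ) * (1 / (Nat.card (R ⧸ J) : ℝ)) := by
    rw [← h1]
    push_cast
    field_simp
  rw [hJ, mul_pow]
  refine mul_le_mul_of_nonneg_left ?_ (by positivity)
  refine pow_le_pow_of_le_one (by positivity) ?_ hs
  rw [div_le_one (by linarith)]
  exact hq1

private theorem LD_Cnt_top (R : Type*) [CommRing R] : Nat.card (⊤ : Ideal R) = Nat.card R := by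
  refine Nat.card_congr ⟨fun t => t.1, fun t => ⟨t, Submodule.mem_top⟩, fun _ => rfl, fun _ => rfl⟩

theorem LD_sumJ {R : Type*} [CommRing R] [Finite R] {δ : ℝ} (hδ : IdS R δ) (s : ℕ) (hs : 2 ≤ s)
    (T : Finset (Ideal R)) :
    ∑ J ∈ T, (Nat.card J : ℝ) ^ s ≤ (Nat.card R : ℝ) ^ s * (1 + δ) := by
  have h1 : ∑ J ∈ T, (Nat.card J : ℝ) ^ s ≤
      ∑ J ∈ insert ⊤ (T.erase ⊤), (Nat.card J : ℝ) ^ s := by
    refine Finset.sum_le_sum_of_subset_of_nonneg ?_ fun _ _ _ => by positivity
    exact Finset.insert_erase_subset _ _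
  rw [Finset.sum_insert (Finset.notMem_erase _ _), LD_Cnt_top] at h1
  have h2 : ∑ J ∈ T.erase ⊤, (Nat.card J : ℝ) ^ s ≤
      ∑ J ∈ T.erase ⊤, (Nat.card R : ℝ) ^ s * (1 / (Nat.card (R ⧸ J) : ℝ)) ^ 2 :=
    Finset.sum_le_sum fun J _ => LD_Cnt_term J s hs
  rw [← Finset.mul_sum] at h2
  have h3 := hδ (T.erase ⊤) (Finset.notMem_erase _ _)
  have h4 : (Nat.card R : ℝ) ^ s * ∑ J ∈ T.erase ⊤, (1 / (Nat.card (R ⧸ J) : ℝ)) ^ 2 ≤
      (Nat.card R : ℝ) ^ s * δ := mul_le_mul_of_nonneg_left h3 (by positivity)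
  have h5 : (Nat.card R : ℝ) ^ s * (1 + δ) = (Nat.card R : ℝ) ^ s + (Nat.card R : ℝ) ^ s * δ := by
    ring
  rw [h5]
  linarith

theorem LD_uni (n : ℕ) (hn : 1 ≤ n) {R : Type*} [CommRing R] [Finite R] {δ : ℝ}
    (hδ : IdS R δ) :
    (Nat.card R : ℝ) ^ (n + 1) * (1 - δ) ≤ (Nat.card {x : Vc n R // Uni x} : ℝ) := by
  have : Fintype R := Fintype.ofFinite R
  have hfI : Finite (Ideal R) :=
    Finite.of_injective (fun I : Ideal R => (I : Set R)) SetLike.coe_injective
  have : Fintype (Ideal R) := Fintype.ofFinite _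
  let T : Ideal R → Finset R := fun J => Finset.univ.filter fun t => t ∈ J
  have hT : ∀ J, (T J).card = Nat.card J := by
    intro J
    have h := Nat.card_eq_fintype_card (α := {t : R // t ∈ J})
    rw [Fintype.card_subtype] at h
    exact h.symm
  let N : Finset (Fin (n + 1) → R) := Finset.univ.filter fun x => ¬ Uni x
  have hsub : N ⊆ (Finset.univ.erase (⊤ : Ideal R)).biUnion
      fun J => Fintype.piFinset fun _ => T J := by
    intro x hx
    have hx' : ¬ Uni x := (Finset.mem_filter.mp hx).2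
    rw [Finset.mem_biUnion]
    refine ⟨Ideal.span (Set.range x), ?_, ?_⟩
    · rw [Finset.mem_erase]
      refine ⟨?_, Finset.mem_univ _⟩
      intro htop
      apply hx'
      have h1 : (1 : R) ∈ Ideal.span (Set.range x) := (Ideal.eq_top_iff_one _).mp htop
      obtain ⟨u, hu⟩ := Ideal.mem_span_range_iff_exists_fun.mp h1
      exact ⟨u, hu⟩
    · rw [Fintype.mem_piFinset]
      intro i
      exact Finset.mem_filter.mpr ⟨Finset.mem_univ _, Ideal.subset_span ⟨i, rfl⟩⟩
  have hN : (N.card : ℝ) ≤ ∑ J ∈ Finset.univ.erase (⊤ : Ideal R), (Nat.card J : ℝ) ^ (n + 1) := by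
    have h1 : N.card ≤ ∑ J ∈ Finset.univ.erase (⊤ : Ideal R),
        (Fintype.piFinset fun _ : Fin (n + 1) => T J).card :=
      (Finset.card_le_card hsub).trans Finset.card_biUnion_le
    have h2 : ∑ J ∈ Finset.univ.erase (⊤ : Ideal R),
        (Fintype.piFinset fun _ : Fin (n + 1) => T J).card
        = ∑ J ∈ Finset.univ.erase (⊤ : Ideal R), Nat.card J ^ (n + 1) := by
      refine Finset.sum_congr rfl fun J _ => ?_
      simp [Fintype.card_piFinset, hT J]
    rw [h2] at h1
    exact_mod_cast h1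
  have hsq := LD_sumJ hδ (n + 1) (by omega) (Finset.univ : Finset (Ideal R))
  rw [← Finset.add_sum_erase _ _ (Finset.mem_univ (⊤ : Ideal R)), LD_Cnt_top] at hsq
  have h6 : (Nat.card {x : Vc n R // Uni x} : ℝ) + N.card = (Nat.card R : ℝ) ^ (n + 1) := by
    have h7 : Nat.card {x : Vc n R // Uni x}
        = (Finset.univ.filter fun x : Fin (n + 1) → R => Uni x).card := by
      have h := Nat.card_eq_fintype_card (α := {x : Fin (n + 1) → R // Uni x})
      rw [Fintype.card_subtype] at h
      exact h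
    have h8 := Finset.card_filter_add_card_filter_not
      (s := (Finset.univ : Finset (Fin (n + 1) → R))) (fun x => Uni x)
    have h9 : (Finset.univ : Finset (Fin (n + 1) → R)).card = Nat.card R ^ (n + 1) := by
      rw [Finset.card_univ, Fintype.card_fun, Fintype.card_fin, Nat.card_eq_fintype_card]
    rw [h7]
    rw [h9] at h8
    exact_mod_cast h8
  have h10 : (Nat.card R : ℝ) ^ (n + 1) * (1 - δ) =
      (Nat.card R : ℝ) ^ (n + 1) - (Nat.card R : ℝ) ^ (n + 1) * δ := by ring
  have h11 : (Nat.card R : ℝ) ^ (n + 1) * (1 + δ) =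
      (Nat.card R : ℝ) ^ (n + 1) + (Nat.card R : ℝ) ^ (n + 1) * δ := by ring
  rw [h10]
  rw [h11] at hsq
  linarith

end Pool.Agent.Lib.MP_1ad228_ntN
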