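import Pool.Agent.Lib.MP_1ad228_ntN.LD_Base

/-!
JOB LD_Ker.  (Model with proof: Lib/MP_1ad228_ntF/LD_Ker.lean; adapt it: `ZMod m` becomes a finite commutative ring `R`, `m` becomes `Nat.card R`,
`card_TenZ` becomes `card_TenR`, `Nat.card_zmod` disappears.)

LD_ker1.  The additive map `a ↦ ev a x` from `Ten n d R` to `R` is surjective (`lin u x = 1` for some
`u`, `ev (s • tp (fun _ => u)) x = s * (lin u x) ^ d = s`); the domain has `(Nat.card R) ^ (n+1)^d` elements (`card_TenR`).
LD_ker2.  Homomorphism `φ : a ↦ (ev a x, ev a y)`, `card ker * card range = card R ^ (n+1)^d`. It is enough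
that `range φ` has at least `card R * card (II x y)` elements.  Let `lin u x = 1`, `lin v y = 1`.
The map `(s, t) ↦ (s * (lin v x)^d + t, s)` from `R × II x y` to `R × R` is injective
and its values are in the range: `s • tp (fun _ => v)` has values `(s (lin v x)^d, s)`; and for every `t` in
`II x y` there is a tensor with values `(t, 0)` (`Submodule.span_induction`; for `mn x y i j` take
`l = Pi.single i (y j) - Pi.single j (y i)`, `lin l x = mn x y i j`, `lin l y = 0`, tensor
`tp (fun k => if k = ⟨0, hd⟩ then l else u)`, values `mn x y i j * 1` and `0`).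
-/

namespace Pool.Agent.Lib.MP_1ad228_ntN

open Classical

private theorem LDKer_zero {n d : ℕ} {R : Type*} [CommRing R] (x : Vc n R) :
    ev (0 : Ten n d R) x = 0 := by
  unfold ev
  refine Finset.sum_eq_zero fun s _ => ?_
  rw [Pi.zero_apply, zero_mul]

private theorem LDKer_add {n d : ℕ} {R : Type*} [CommRing R] (a b : Ten n d R) (x : Vc n R) :
    ev (a + b) x = ev a x + ev b x := by
  unfold ev
  rw [← Finset.sum_add_distrib]
  refine Finset.sum_congr rfl fun s _ => ?_
  rw [Pi.add_apply, add_mul]

private theorem LDKer_smul {n d : ℕ} {R : Type*} [CommRing R] (c : R) (a : Ten n d R)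
    (x : Vc n R) : ev (c • a) x = c * ev a x := by
  unfold ev
  rw [Finset.mul_sum]
  refine Finset.sum_congr rfl fun s _ => ?_
  rw [Pi.smul_apply, smul_eq_mul, mul_assoc]

theorem LD_ker1 {n d : ℕ} {R : Type*} [CommRing R] [Finite R] (x : Vc n R) (hx : Uni x) :
    Nat.card {a : Ten n d R // ev a x = 0} * Nat.card R = Nat.card R ^ (n + 1) ^ d := by
  obtain ⟨u, hu⟩ := hx
  let φ : Ten n d R →+ R :=
    { toFun := fun a => ev a x
      map_zero' := LDKer_zero x
      map_add' := fun a b => LDKer_add a b x }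
  have hsurj : Function.Surjective φ := by
    intro s
    refine ⟨s • tp (fun _ => u), ?_⟩
    show ev (s • tp (fun _ => u)) x = s
    rw [LDKer_smul, ev_tp]
    simp only [hu, Finset.prod_const_one, mul_one]
  have h1 := AddSubgroup.card_eq_card_quotient_mul_card_addSubgroup φ.ker
  have h2 : Nat.card (Ten n d R ⧸ φ.ker) = Nat.card R :=
    Nat.card_congr (QuotientAddGroup.quotientKerEquivOfSurjective φ hsurj).toEquiv
  rw [h2, card_TenR] at h1
  have h3 : Nat.card φ.ker = Nat.card {a : Ten n d R // ev a x = 0} :=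
    Nat.card_congr (Equiv.subtypeEquivRight fun a => AddMonoidHom.mem_ker)
  rw [← h3, h1, mul_comm]

theorem LD_ker2 {n d : ℕ} (hd : 1 ≤ d) {R : Type*} [CommRing R] [Finite R] (x y : Vc n R)
    (hx : Uni x) (hy : Uni y) :
    Nat.card {a : Ten n d R // ev a x = 0 ∧ ev a y = 0} * (Nat.card R * Nat.card (II x y))
      ≤ Nat.card R ^ (n + 1) ^ d := by
  obtain ⟨u, hu⟩ := hx
  obtain ⟨v, hv⟩ := hy
  let φ : Ten n d R →+ R × R :=
    { toFun := fun a => (ev a x, ev a y)
      map_zero' := by rw [LDKer_zero, LDKer_zero]; rfl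
      map_add' := fun a b => by rw [LDKer_add, LDKer_add]; rfl }
  have hI : ∀ t ∈ II x y, ∃ a : Ten n d R, ev a x = t ∧ ev a y = 0 := by
    intro t ht
    unfold Pool.Agent.Lib.MP_219881_nt.II at ht
    induction ht using Submodule.span_induction with
    | mem t ht =>
      obtain ⟨⟨i, j⟩, rfl⟩ := ht
      refine ⟨tp (fun k => if k = ⟨0, hd⟩ then Pi.single i (y j) - Pi.single j (y i) else u),
        ?_, ?_⟩
      · have h1 : lin (Pi.single i (y j) - Pi.single j (y i)) x = mn x y i j := by
          rw [lin_sub]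
          have e1 : lin (Pi.single i (y j)) x = y j * x i := by
            simp [lin, Pi.single_apply]
          have e2 : lin (Pi.single j (y i)) x = y i * x j := by
            simp [lin, Pi.single_apply]
          rw [e1, e2, mn]; ring
        rw [ev_tp, ← Finset.mul_prod_erase Finset.univ _ (Finset.mem_univ (⟨0, hd⟩ : Fin d)),
          if_pos rfl, h1, Finset.prod_eq_one, mul_one]
        intro k hk
        rw [if_neg (Finset.ne_of_mem_erase hk), hu]
      · have h1 : lin (Pi.single i (y j) - Pi.single j (y i)) y = 0 := by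
          rw [lin_sub]
          have e1 : lin (Pi.single i (y j)) y = y j * y i := by
            simp [lin, Pi.single_apply]
          have e2 : lin (Pi.single j (y i)) y = y i * y j := by
            simp [lin, Pi.single_apply]
          rw [e1, e2]; ring
        rw [ev_tp]
        refine Finset.prod_eq_zero (Finset.mem_univ (⟨0, hd⟩ : Fin d)) ?_
        rw [if_pos rfl, h1]
    | zero => exact ⟨0, LDKer_zero x, LDKer_zero y⟩
    | add s t _ _ hs ht =>
      obtain ⟨a, ha, ha'⟩ := hs
      obtain ⟨b, hb, hb'⟩ := ht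
      exact ⟨a + b, by rw [LDKer_add, ha, hb], by rw [LDKer_add, ha', hb', add_zero]⟩
    | smul c t _ ht =>
      obtain ⟨a, ha, ha'⟩ := ht
      exact ⟨c • a, by rw [LDKer_smul, ha]; rfl, by rw [LDKer_smul, ha', mul_zero]⟩
  have h1 := AddSubgroup.card_eq_card_quotient_mul_card_addSubgroup φ.ker
  have h2 : Nat.card (Ten n d R ⧸ φ.ker) = Nat.card φ.range :=
    Nat.card_congr (QuotientAddGroup.quotientKerEquivRange φ).toEquiv
  have h3 : Nat.card φ.ker = Nat.card {a : Ten n d R // ev a x = 0 ∧ ev a y = 0} :=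
    Nat.card_congr (Equiv.subtypeEquivRight fun a => by
      rw [AddMonoidHom.mem_ker]
      exact Prod.mk_eq_zero)
  have h4 : Nat.card R * Nat.card (II x y) ≤ Nat.card φ.range := by
    let f : R × II x y → φ.range := fun q =>
      ⟨(q.1 * lin v x ^ d + q.2.1, q.1), by
        obtain ⟨a, ha, ha'⟩ := hI q.2.1 q.2.2
        refine ⟨q.1 • tp (fun _ => v) + a, ?_⟩
        show (ev (q.1 • tp (fun _ => v) + a) x, ev (q.1 • tp (fun _ => v) + a) y) = _
        rw [LDKer_add, LDKer_add, LDKer_smul, LDKer_smul, ev_tp, ev_tp, ha, ha']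
        refine Prod.ext ?_ ?_
        · show q.1 * (∏ _k : Fin d, lin v x) + q.2.1 = q.1 * lin v x ^ d + q.2.1
          rw [Finset.prod_const, Finset.card_univ, Fintype.card_fin]
        · show q.1 * (∏ _k : Fin d, lin v y) + 0 = q.1
          rw [hv, Finset.prod_const_one, mul_one, add_zero]⟩
    have hf : Function.Injective f := by
      rintro ⟨s, t⟩ ⟨s', t'⟩ h
      have h5 : (s * lin v x ^ d + t.1, s) = (s' * lin v x ^ d + t'.1, s') :=
        congrArg Subtype.val h
      have h6 : s = s' := congrArg Prod.snd h5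
      have h7 : s * lin v x ^ d + t.1 = s' * lin v x ^ d + t'.1 := congrArg Prod.fst h5
      subst h6
      have h8 : t = t' := Subtype.ext (add_left_cancel h7)
      subst h8
      rfl
    have h9 := Nat.card_le_card_of_injective f hf
    rw [Nat.card_prod] at h9
    exact h9
  rw [h2, h3, card_TenR] at h1
  rw [h1, mul_comm]
  exact Nat.mul_le_mul_right _ h4

end Pool.Agent.Lib.MP_1ad228_ntN
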