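import Pool.Agent.Lib.MP_1ad228_ntN.LD_Mom

/-!
JOB LD_MomC.  Chebyshev.  (Model with proof: Lib/MP_1ad228_ntF/LD_MomC.lean; adapt it: `ZMod m` becomes a finite commutative ring `R`, `m` becomes `Nat.card R`,
`sm m F` becomes `smR F`, `1 / p0` becomes `δ`. LD_Mom, LD_Cnt are other jobs.)

`q = Nat.card R`, `V = VV n d`, `P = q^V` tuples (`card_TupR`), `U = #Uni ≤ q^(n+1)` (`card_VcR`), `U ≥ q^(n+1) (1 - δ)` (LD_uni), `0 ≤ δ` (`IdS.nonneg`).
`∑ (s q^r - U)^2 = (∑ s^2) q^(2r) - 2 U (∑ s) q^r + U^2 P ≤ U P q^(n+1) (1+δ) - U^2 P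
= U P (q^(n+1) (1+δ) - U) ≤ U P (2 q^(n+1) δ) ≤ 2 δ P q^(2n+2)` (LD_mom1, LD_mom2).
If `s q^r ≤ q^(n+1)/2` then `U - s q^r ≥ q^(n+1) (1 - δ) - q^(n+1)/2 ≥ (3/8) q^(n+1)` since `δ ≤ 1/8`.
So `# * (9/64) ≤ 2 P δ`, `# ≤ (128/9) P δ ≤ 16 δ P`.
(The sum over tuples needs a `Fintype R`: `have : Fintype R := Fintype.ofFinite R`; `Nat.card {F // p F} = (Finset.univ.filter p).card`: `Nat.card_eq_fintype_card`,
`Fintype.card_subtype`.)
-/

namespace Pool.Agent.Lib.MP_1ad228_ntN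

open Classical

theorem LD_M1 (n : ℕ) {r : ℕ} (hn : r + 2 ≤ n) (d : Fin r → ℕ) (hd : ∀ i, 1 ≤ d i)
    (R : Type*) [CommRing R] [Finite R] {δ : ℝ} (hδ : IdS R δ) (hδ8 : δ ≤ 1 / 8) :
    (Nat.card {F : Tup n d R // (smR F : ℝ) * (Nat.card R : ℝ) ^ r ≤
        (Nat.card R : ℝ) ^ (n + 1) / 2} : ℝ) ≤ 16 * δ * (Nat.card R : ℝ) ^ VV n d := by
  have hfR : Fintype R := Fintype.ofFinite R
  have hm0 : (0 : ℝ) < (Nat.card R : ℝ) := by exact_mod_cast card_R_pos R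
  have hδ0 : 0 ≤ δ := hδ.nonneg
  set U : ℝ := (Nat.card {x : Vc n R // Uni x} : ℝ) with hU
  have hU1 : (Nat.card R : ℝ) ^ (n + 1) * (1 - δ) ≤ U := LD_uni n (by omega) hδ
  have hU0 : 0 ≤ U := by positivity
  have hU2 : U ≤ (Nat.card R : ℝ) ^ (n + 1) := by
    have h : Nat.card {x : Vc n R // Uni x} ≤ Nat.card (Vc n R) :=
      Nat.card_le_card_of_injective _ Subtype.val_injective
    rw [card_VcR] at h
    rw [hU]
    exact_mod_cast h
  have hm1 := LD_mom1 n d R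
  have hm2 := LD_mom2 n hn d hd R hδ
  rw [← hU] at hm1 hm2
  have hcard : ((Finset.univ : Finset (Tup n d R)).card : ℝ) = (Nat.card R : ℝ) ^ VV n d := by
    have h := card_TupR n d R
    rw [Nat.card_eq_fintype_card] at h
    rw [Finset.card_univ]
    exact_mod_cast h
  set q : ℝ := (Nat.card R : ℝ) with hq
  set P : ℝ := q ^ VV n d with hP
  have hP0 : 0 < P := by positivity
  set N : ℝ := q ^ (n + 1) with hN
  have hN0 : 0 < N := by positivity
  have hD : ∑ F : Tup n d R, ((smR F : ℝ) * q ^ r - U) ^ 2 ≤ 2 * N ^ 2 * P * δ := by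
    have e1 : ∑ F : Tup n d R, ((smR F : ℝ) * q ^ r - U) ^ 2 =
        (∑ F : Tup n d R, (smR F : ℝ) ^ 2) * q ^ (2 * r) - U ^ 2 * P := by
      have e2 : ∀ F : Tup n d R, ((smR F : ℝ) * q ^ r - U) ^ 2 =
          q ^ (2 * r) * (smR F : ℝ) ^ 2 - (2 * U * q ^ r) * (smR F : ℝ) + U ^ 2 := fun F => by
        rw [mul_comm 2 r, pow_mul]
        ring
      simp only [e2]
      rw [Finset.sum_add_distrib, Finset.sum_sub_distrib, ← Finset.mul_sum, ← Finset.mul_sum,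
        Finset.sum_const, nsmul_eq_mul, hcard]
      have e3 : 2 * U * q ^ r * ∑ F : Tup n d R, (smR F : ℝ) = 2 * U * (U * P) := by
        rw [← hm1]
        ring
      rw [e3]
      ring
    rw [e1]
    have e6 : N * (1 + δ) - U ≤ 2 * N * δ := by
      have : N * (1 + δ) - N * (1 - δ) = 2 * N * δ := by ring
      linarith
    calc (∑ F : Tup n d R, (smR F : ℝ) ^ 2) * q ^ (2 * r) - U ^ 2 * P
        ≤ U * P * (N * (1 + δ)) - U ^ 2 * P := by linarith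
      _ = U * (P * (N * (1 + δ) - U)) := by ring
      _ ≤ U * (P * (2 * N * δ)) :=
          mul_le_mul_of_nonneg_left (mul_le_mul_of_nonneg_left e6 hP0.le) hU0
      _ ≤ N * (P * (2 * N * δ)) := mul_le_mul_of_nonneg_right hU2 (by positivity)
      _ = 2 * N ^ 2 * P * δ := by ring
  set T := Finset.univ.filter (fun F : Tup n d R => (smR F : ℝ) * q ^ r ≤ N / 2) with hT
  have hlow : (T.card : ℝ) * ((3 / 8 * N) ^ 2) ≤
      ∑ F : Tup n d R, ((smR F : ℝ) * q ^ r - U) ^ 2 := by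
    calc (T.card : ℝ) * ((3 / 8 * N) ^ 2)
        = ∑ F ∈ T, ((3 / 8 * N) ^ 2) := by rw [Finset.sum_const, nsmul_eq_mul]
      _ ≤ ∑ F ∈ T, ((smR F : ℝ) * q ^ r - U) ^ 2 := by
          refine Finset.sum_le_sum fun F hF => ?_
          have h1 : (smR F : ℝ) * q ^ r ≤ N / 2 := (Finset.mem_filter.mp hF).2
          have h4 : N * (7 / 8) ≤ N * (1 - δ) :=
            mul_le_mul_of_nonneg_left (by linarith) hN0.le
          have h5 : 3 / 8 * N ≤ U - (smR F : ℝ) * q ^ r := by linarith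
          have h6 : (0 : ℝ) ≤ 3 / 8 * N := by positivity
          have h7 : (3 / 8 * N) ^ 2 ≤ (U - (smR F : ℝ) * q ^ r) ^ 2 :=
            pow_le_pow_left₀ h6 h5 2
          calc (3 / 8 * N) ^ 2 ≤ (U - (smR F : ℝ) * q ^ r) ^ 2 := h7
            _ = ((smR F : ℝ) * q ^ r - U) ^ 2 := by ring
      _ ≤ _ := Finset.sum_le_sum_of_subset_of_nonneg (Finset.filter_subset _ _)
          (fun F _ _ => by positivity)
  have hfin : (T.card : ℝ) * ((3 / 8 * N) ^ 2) ≤ 2 * N ^ 2 * P * δ := hlow.trans hD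
  have hN6 : (0 : ℝ) < 9 / 64 * N ^ 2 := by positivity
  have hTc : Nat.card {F : Tup n d R // (smR F : ℝ) * q ^ r ≤ N / 2} = T.card := by
    rw [Nat.card_eq_fintype_card, Fintype.card_subtype]
  rw [hTc]
  refine le_of_mul_le_mul_right ?_ hN6
  calc (T.card : ℝ) * (9 / 64 * N ^ 2) = (T.card : ℝ) * ((3 / 8 * N) ^ 2) := by ring
    _ ≤ 2 * N ^ 2 * P * δ := hfin
    _ ≤ 16 * δ * P * (9 / 64 * N ^ 2) := by
        have e7 : 16 * δ * P * (9 / 64 * N ^ 2) = (9 / 4) * (N ^ 2 * P * δ) := by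
          ring
        rw [e7]
        have h0 : (0 : ℝ) ≤ N ^ 2 * P * δ := by positivity
        have h1 : 2 * N ^ 2 * P * δ = 2 * (N ^ 2 * P * δ) := by ring
        rw [h1]
        linarith

end Pool.Agent.Lib.MP_1ad228_ntN
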