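import Pool.Agent.Lib.MP_1ad228_ntN.TpK

/-!
Span2.  Tensors vanishing at two non proportional `H`-good points are spanned by short tensors
(model: ntF Span2).
-/

namespace Pool.Agent.Lib.MP_1ad228_ntN

open NumberField Classical
open Pool.Agent.Lib.MP_219881_nt (mn)

set_option linter.unusedSectionVars false

variable {K : Type} [Field K] [NumberField K]

private noncomputable def span2_c {n d : ℕ} (f g : Fin n → Vc n (𝓞 K))
    (t : Fin d × Fin d × Fin n × Fin n × (Fin d → Fin (n + 1))) : Ten n d (𝓞 K) :=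
  if t.1 = t.2.1 then 0 else
    tp (fun l => if l = t.1 then f t.2.2.1 else if l = t.2.1 then g t.2.2.2.1 else
      Pi.single (t.2.2.2.2 l) 1)

private theorem span2_e {n : ℕ} (v : InfinitePlace K) (i j : Fin (n + 1)) :
    v (((Pi.single i 1 : Vc n (𝓞 K)) j : 𝓞 K) : K) ≤ 1 := by
  rw [Pi.single_apply]
  split_ifs <;> simp

private theorem span2_slots {d : ℕ} (hd : 2 ≤ d) (v : Fin d → Fin 3) (h0 : v ≠ fun _ => 0)
    (h1 : v ≠ fun _ => 1) : ∃ k k' : Fin d, k ≠ k' ∧ v k ≠ 0 ∧ v k' ≠ 1 := by
  obtain ⟨k1, hk1⟩ : ∃ k, v k ≠ 0 := by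
    by_contra hcon
    push Not at hcon
    exact h0 (funext hcon)
  obtain ⟨k2, hk2⟩ : ∃ k, v k ≠ 1 := by
    by_contra hcon
    push Not at hcon
    exact h1 (funext hcon)
  by_cases he : k1 = k2
  · subst he
    obtain ⟨k', hk'⟩ : ∃ k' : Fin d, k' ≠ k1 := by
      by_cases hz : k1 = ⟨0, by omega⟩
      · refine ⟨⟨1, by omega⟩, ?_⟩
        rw [hz]
        intro h
        have := congrArg Fin.val h
        simp at this
      · exact ⟨⟨0, by omega⟩, fun h => hz h.symm⟩
    by_cases hv : v k' = 1
    · refine ⟨k', k1, hk', ?_, hk2⟩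
      rw [hv]
      decide
    · exact ⟨k1, k', fun h => hk' h.symm, hk1, hv⟩
  · exact ⟨k1, k2, he, hk1, hk2⟩

theorem span2 {n : ℕ} (d : ℕ) (hd : 2 ≤ d) (H : ℕ) (o : Fin (n + 1)) (x y : Vc n (𝓞 K))
    (hxy : ∃ j, mn x y o j ≠ 0) (hx : HGood H x) (hy : HGood H y) :
    ∃ c : (Fin d × Fin d × Fin n × Fin n × (Fin d → Fin (n + 1))) → Ten n d (𝓞 K),
      (∀ t, ev (c t) x = 0) ∧ (∀ t, ev (c t) y = 0) ∧ (∀ t s, ∀ v : InfinitePlace K, v (c t s : K) ≤ (H : ℝ) ^ 2) ∧
      ∀ b : Ten n d K, ev b (kv x) = 0 → ev b (kv y) = 0 →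
        ∃ r : (Fin d × Fin d × Fin n × Fin n × (Fin d → Fin (n + 1))) → K,
          ∀ s, b s = ∑ t, r t * (c t s : K) := by
  obtain ⟨f, hf, hf0, hfH⟩ := hx
  obtain ⟨g, hg, hg0, hgH⟩ := hy
  obtain ⟨j0, hj0⟩ := hxy
  have hx0 : x ≠ 0 := by
    intro h
    apply hj0
    simp [mn, h]
  have hy0 : y ≠ 0 := by
    intro h
    apply hj0
    simp [mn, h]
  have hev0 : ∀ z : Vc n (𝓞 K), ev (0 : Ten n d (𝓞 K)) z = 0 := by
    intro z
    unfold ev
    exact Finset.sum_eq_zero fun s _ => by rw [Pi.zero_apply, zero_mul]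
  refine ⟨span2_c f g, ?_, ?_, ?_, ?_⟩
  · rintro ⟨k, k', s, s', σ⟩
    unfold span2_c
    by_cases hk : k = k'
    · rw [if_pos hk]
      exact hev0 x
    · rw [if_neg hk, ev_tp]
      refine Finset.prod_eq_zero (Finset.mem_univ k) ?_
      rw [if_pos rfl]
      exact hf0 s
  · rintro ⟨k, k', s, s', σ⟩
    unfold span2_c
    by_cases hk : k = k'
    · rw [if_pos hk]
      exact hev0 y
    · rw [if_neg hk, ev_tp]
      refine Finset.prod_eq_zero (Finset.mem_univ k') ?_
      rw [if_neg (Ne.symm hk), if_pos rfl]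
      exact hg0 s'
  · rintro ⟨k, k', s, s', σ⟩ τ v
    have hH0 : (0 : ℝ) ≤ H := Nat.cast_nonneg H
    unfold span2_c
    by_cases hk : k = k'
    · rw [if_pos hk, Pi.zero_apply]
      simp only [map_zero]
      positivity
    · rw [if_neg hk]
      have e : ((tp (fun l => if l = k then f s else if l = k' then g s' else
          (Pi.single (σ l) 1 : Vc n (𝓞 K))) τ : 𝓞 K) : K) =
          ∏ l, (((if l = k then f s else if l = k' then g s' else
            (Pi.single (σ l) 1 : Vc n (𝓞 K))) (τ l) : 𝓞 K) : K) := by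
        rw [← map_prod]
        rfl
      have hk2 : k' ∈ Finset.univ.erase k := Finset.mem_erase.2 ⟨Ne.symm hk, Finset.mem_univ _⟩
      show v ((tp (fun l => if l = k then f s else if l = k' then g s' else
          (Pi.single (σ l) 1 : Vc n (𝓞 K))) τ : 𝓞 K) : K) ≤ (H : ℝ) ^ 2
      rw [e, v_prod, ← Finset.mul_prod_erase Finset.univ _ (Finset.mem_univ k), if_pos rfl,
        ← Finset.mul_prod_erase (Finset.univ.erase k) _ hk2, if_neg (Ne.symm hk), if_pos rfl]
      have h1 : ∏ l ∈ (Finset.univ.erase k).erase k',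
          v (((if l = k then f s else if l = k' then g s' else
            (Pi.single (σ l) 1 : Vc n (𝓞 K))) (τ l) : 𝓞 K) : K) ≤ 1 := by
        refine Finset.prod_le_one (fun l _ => v_nonneg _ _) fun l hl => ?_
        rw [if_neg (Finset.ne_of_mem_erase (Finset.mem_of_mem_erase hl)),
          if_neg (Finset.ne_of_mem_erase hl)]
        exact span2_e v _ _
      have h2 := mul_le_mul (hgH s' (τ k') v) h1 (Finset.prod_nonneg fun l _ => v_nonneg _ _) hH0
      rw [mul_one] at h2
      have h3 := mul_le_mul (hfH s (τ k) v) h2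
        (mul_nonneg (v_nonneg _ _) (Finset.prod_nonneg fun l _ => v_nonneg _ _)) hH0
      calc _ ≤ (H : ℝ) * H := h3
        _ = (H : ℝ) ^ 2 := by ring
  · intro b hbx hby
    let S : Submodule K (Ten n d K) := Submodule.span K (Set.range fun t => kt (span2_c f g t))
    let X : Vc n K := kv x
    let Y : Vc n K := kv y
    have hM : ∀ (u : Fin d → Vc n K) (k k' : Fin d), k ≠ k' → lin (u k) X = 0 → lin (u k') Y = 0 →
        tp u ∈ S := by
      intro u k k' hkk hk hk'
      refine tp_mem S (fun l => if l = k then (Set.range fun s : Fin n => kv (f s)) else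
        if l = k' then (Set.range fun s : Fin n => kv (g s)) else
        (Set.range fun j : Fin (n + 1) => (Pi.single j 1 : Vc n K))) ?_ u ?_
      · intro a ha
        have hak := ha k
        rw [if_pos rfl] at hak
        obtain ⟨s, hs⟩ := hak
        have hak' := ha k'
        rw [if_neg (Ne.symm hkk), if_pos rfl] at hak'
        obtain ⟨s', hs'⟩ := hak'
        have h2 : ∀ l, ∃ j : Fin (n + 1), l ≠ k → l ≠ k' → (Pi.single j 1 : Vc n K) = a l := by
          intro l
          by_cases hl : l = k
          · exact ⟨0, fun h => absurd hl h⟩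
          · by_cases hl' : l = k'
            · exact ⟨0, fun _ h => absurd hl' h⟩
            · have hal := ha l
              rw [if_neg hl, if_neg hl'] at hal
              obtain ⟨j, hj⟩ := hal
              exact ⟨j, fun _ _ => hj⟩
        choose σ hσ using h2
        refine Submodule.subset_span ⟨(k, k', s, s', σ), ?_⟩
        have e0 : span2_c f g (k, k', s, s', σ) =
            tp (fun l => if l = k then f s else if l = k' then g s' else Pi.single (σ l) 1) :=
          if_neg hkk
        show kt (span2_c f g (k, k', s, s', σ)) = tp a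
        rw [e0, kt_tp]
        refine congrArg tp (funext fun l => ?_)
        by_cases hl : l = k
        · rw [if_pos hl, hl]
          exact hs
        · by_cases hl' : l = k'
          · rw [if_neg hl, if_pos hl', hl']
            exact hs'
          · rw [if_neg hl, if_neg hl', kv_single]
            exact hσ l hl hl'
      · intro l
        by_cases hl : l = k
        · rw [if_pos hl, hl]
          exact perp_mem x hx0 f hf hf0 hk
        · by_cases hl' : l = k'
          · rw [if_neg hl, if_pos hl', hl']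
            exact perp_mem y hy0 g hg hg0 hk'
          · rw [if_neg hl, if_neg hl']
            exact top_mem (u l)
    let e : Fin (n + 1) → Vc n K := fun i => Pi.single i 1
    let D : K := X o * Y j0 - X j0 * Y o
    have hD : D ≠ 0 := by
      have h1 : ((mn x y o j0 : 𝓞 K) : K) ≠ 0 := by simpa using hj0
      have h2 : ((mn x y o j0 : 𝓞 K) : K) = D := by
        simp [mn, D, X, Y, kv_apply]
      rwa [h2] at h1
    let p : Vc n K := D⁻¹ • (Y j0 • e o - Y o • e j0)
    let r : Vc n K := D⁻¹ • (X o • e j0 - X j0 • e o)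
    have hpx : lin p X = 1 := by
      show lin (D⁻¹ • (Y j0 • e o - Y o • e j0)) X = 1
      rw [lin_smul, lin_sub, lin_smul, lin_smul, lin_single, lin_single]
      have h1 : Y j0 * X o - Y o * X j0 = D := by ring
      rw [h1, inv_mul_cancel₀ hD]
    have hpy : lin p Y = 0 := by
      show lin (D⁻¹ • (Y j0 • e o - Y o • e j0)) Y = 0
      rw [lin_smul, lin_sub, lin_smul, lin_smul, lin_single, lin_single]
      ring
    have hrx : lin r X = 0 := by
      show lin (D⁻¹ • (X o • e j0 - X j0 • e o)) X = 0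
      rw [lin_smul, lin_sub, lin_smul, lin_smul, lin_single, lin_single]
      ring
    have hry : lin r Y = 1 := by
      show lin (D⁻¹ • (X o • e j0 - X j0 • e o)) Y = 1
      rw [lin_smul, lin_sub, lin_smul, lin_smul, lin_single, lin_single]
      exact inv_mul_cancel₀ hD
    let w : Fin (n + 1) → Fin 3 → Vc n K := fun i a =>
      (![X i • p, Y i • r, e i - X i • p - Y i • r] : Fin 3 → Vc n K) a
    have hw : ∀ i, ∑ a, w i a = e i := by
      intro i
      rw [Fin.sum_univ_three]
      show X i • p + Y i • r + (e i - X i • p - Y i • r) = e i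
      abel
    have hwX : ∀ i (a : Fin 3), a ≠ 0 → lin (w i a) X = 0 := by
      intro i a ha
      fin_cases a
      · exact absurd rfl ha
      · show lin (Y i • r) X = 0
        rw [lin_smul, hrx, mul_zero]
      · show lin (e i - X i • p - Y i • r) X = 0
        have a1 : lin (X i • p) X = X i := by rw [lin_smul, hpx, mul_one]
        have a2 : lin (Y i • r) X = 0 := by rw [lin_smul, hrx, mul_zero]
        rw [lin_sub, lin_sub, a1, a2, lin_single]
        ring
    have hwY : ∀ i (a : Fin 3), a ≠ 1 → lin (w i a) Y = 0 := by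
      intro i a ha
      fin_cases a
      · show lin (X i • p) Y = 0
        rw [lin_smul, hpy, mul_zero]
      · exact absurd rfl ha
      · show lin (e i - X i • p - Y i • r) Y = 0
        have a1 : lin (X i • p) Y = 0 := by rw [lin_smul, hpy, mul_zero]
        have a2 : lin (Y i • r) Y = Y i := by rw [lin_smul, hry, mul_one]
        rw [lin_sub, lin_sub, a1, a2, lin_single]
        ring
    have hσ : ∀ σ : Fin d → Fin (n + 1), tp (fun k => e (σ k)) - (∏ k, X (σ k)) • tp (fun _ : Fin d => p)
        - (∏ k, Y (σ k)) • tp (fun _ : Fin d => r) ∈ S := by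
      intro σ
      have e1 : tp (fun k => e (σ k)) = ∑ v : Fin d → Fin 3, tp (fun k => w (σ k) (v k)) := by
        rw [← tp_sum (fun k => w (σ k))]
        exact congrArg tp (funext fun k => (hw (σ k)).symm)
      have e2 : (∏ k, X (σ k)) • tp (fun _ : Fin d => p) =
          tp (fun k => w (σ k) ((fun _ : Fin d => (0 : Fin 3)) k)) := (tp_smul (fun k => X (σ k)) _).symm
      have e3 : (∏ k, Y (σ k)) • tp (fun _ : Fin d => r) =
          tp (fun k => w (σ k) ((fun _ : Fin d => (1 : Fin 3)) k)) := (tp_smul (fun k => Y (σ k)) _).symm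
      have hne : (fun _ : Fin d => (1 : Fin 3)) ≠ (fun _ : Fin d => (0 : Fin 3)) := by
        intro h
        have := congrFun h ⟨0, by omega⟩
        exact absurd this (by decide)
      have hmem : (fun _ : Fin d => (1 : Fin 3)) ∈
          (Finset.univ : Finset (Fin d → Fin 3)).erase (fun _ => 0) :=
        Finset.mem_erase.2 ⟨hne, Finset.mem_univ _⟩
      rw [e1, e2, e3, ← Finset.add_sum_erase Finset.univ _ (Finset.mem_univ (fun _ : Fin d => (0 : Fin 3))),
        ← Finset.add_sum_erase _ _ hmem, add_sub_cancel_left, add_sub_cancel_left]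
      refine Submodule.sum_mem _ fun v hv => ?_
      have hv1 : v ≠ fun _ => 1 := Finset.ne_of_mem_erase hv
      have hv0 : v ≠ fun _ => 0 := Finset.ne_of_mem_erase (Finset.mem_of_mem_erase hv)
      obtain ⟨k, k', hkk, hk, hk'⟩ := span2_slots hd v hv0 hv1
      exact hM _ k k' hkk (hwX _ _ hk) (hwY _ _ hk')
    have hb2 : b - ev b X • tp (fun _ => p) - ev b Y • tp (fun _ => r) ∈ S := by
      have e1 : b - ev b X • tp (fun _ => p) - ev b Y • tp (fun _ => r) =
          ∑ σ : Fin d → Fin (n + 1), b σ • (tp (fun k => e (σ k)) - (∏ k, X (σ k)) • tp (fun _ : Fin d => p)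
            - (∏ k, Y (σ k)) • tp (fun _ : Fin d => r)) := by
        have e3 : ev b X • tp (fun _ : Fin d => p) = ∑ σ : Fin d → Fin (n + 1), b σ • (∏ k, X (σ k)) •
            tp (fun _ => p) := by
          unfold ev
          simp only [Finset.sum_smul, mul_smul]
        have e4 : ev b Y • tp (fun _ : Fin d => r) = ∑ σ : Fin d → Fin (n + 1), b σ • (∏ k, Y (σ k)) •
            tp (fun _ => r) := by
          unfold ev
          simp only [Finset.sum_smul, mul_smul]
        rw [e3, e4]
        refine (congrArg (fun z => z - (∑ σ : Fin d → Fin (n + 1), b σ • (∏ k, X (σ k)) •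
            tp (fun _ => p)) - ∑ σ : Fin d → Fin (n + 1), b σ • (∏ k, Y (σ k)) •
            tp (fun _ => r)) (ten_sum b)).trans ?_
        show (∑ σ : Fin d → Fin (n + 1), b σ • tp (fun k => e (σ k))) -
          (∑ σ : Fin d → Fin (n + 1), b σ • (∏ k, X (σ k)) • tp (fun _ => p)) -
          ∑ σ : Fin d → Fin (n + 1), b σ • (∏ k, Y (σ k)) • tp (fun _ => r) = _
        rw [← Finset.sum_sub_distrib, ← Finset.sum_sub_distrib]
        refine Finset.sum_congr rfl fun σ _ => ?_
        rw [smul_sub, smul_sub]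
      rw [e1]
      exact Submodule.sum_mem _ fun σ _ => Submodule.smul_mem _ _ (hσ σ)
    have hb3 : b ∈ S := by
      have e4 : ev b X = 0 := hbx
      have e5 : ev b Y = 0 := hby
      rw [e4, e5, zero_smul, zero_smul, sub_zero, sub_zero] at hb2
      exact hb2
    obtain ⟨t, ht⟩ := (Submodule.mem_span_range_iff_exists_fun K).1 hb3
    refine ⟨t, fun s => ?_⟩
    rw [← ht]
    simp only [Finset.sum_apply, Pi.smul_apply, smul_eq_mul, kt_apply]

end Pool.Agent.Lib.MP_1ad228_ntN
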