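import Pool.Agent.Lib.MP_1ad228_ntN.Span1
import Pool.Agent.Lib.MP_1ad228_ntN.Span2

/-!
LL.  Rounding; short tensors over the ring of integers with given values.
-/

namespace Pool.Agent.Lib.MP_1ad228_ntN

open NumberField Classical
open Pool.Agent.Lib.MP_219881_nt (mn)

set_option linter.unusedSectionVars false

variable {K : Type} [Field K] [NumberField K]

theorem roundLem {n d : ℕ} {ι : Type} [Fintype ι] (N : ℝ) (hN : 0 ≤ N) (a : Ten n d (𝓞 K))
    (b : Ten n d K) (β : InfinitePlace K → ℝ) (hb : ∀ s v, v (b s) ≤ β v)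
    (c : ι → Ten n d (𝓞 K)) (hc : ∀ t s, ∀ v : InfinitePlace K, v (c t s : K) ≤ N)
    (r : ι → K) (h : ∀ s, (a s : K) - b s = ∑ t, r t * (c t s : K)) :
    ∃ m : ι → 𝓞 K, ∀ s, ∀ v : InfinitePlace K,
      v ((a s - ∑ t, m t * c t s : 𝓞 K) : K) ≤ β v + (Fintype.card ι : ℝ) * (CK K n * N) := by
  choose m hm using fun t => rndK n (r t)
  refine ⟨m, fun i v => ?_⟩
  have e : ((a i - ∑ t, m t * c t i : 𝓞 K) : K) = b i + ∑ t, (r t - (m t : K)) * (c t i : K) := by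
    have h1 : ∑ t, (r t - (m t : K)) * (c t i : K)
        = ∑ t, r t * (c t i : K) - ∑ t, (m t : K) * (c t i : K) := by
      rw [← Finset.sum_sub_distrib]
      exact Finset.sum_congr rfl fun t _ => by ring
    rw [h1, ← h i]
    push_cast
    ring
  rw [e]
  have h2 : v (∑ t, (r t - (m t : K)) * (c t i : K)) ≤ (Fintype.card ι : ℝ) * (CK K n * N) := by
    calc v (∑ t, (r t - (m t : K)) * (c t i : K))
        ≤ ∑ t, v ((r t - (m t : K)) * (c t i : K)) := v_sum_le _ _ _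
      _ ≤ ∑ _t : ι, (CK K n * N) := by
          refine Finset.sum_le_sum fun t _ => ?_
          rw [v_mul]
          exact mul_le_mul (hm t v) (hc t i v) (v_nonneg _ _) (CK_pos K n).le
      _ = (Fintype.card ι : ℝ) * (CK K n * N) := by
          rw [Finset.sum_const, Finset.card_univ, nsmul_eq_mul]
  calc v (b i + ∑ t, (r t - (m t : K)) * (c t i : K))
      ≤ v (b i) + v (∑ t, (r t - (m t : K)) * (c t i : K)) := v_add_le _ _ _
    _ ≤ β v + (Fintype.card ι : ℝ) * (CK K n * N) := add_le_add (hb i v) h2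

private theorem ll_ev_sub_sum {n d : ℕ} {ι : Type} [Fintype ι] (a : Ten n d (𝓞 K))
    (c : ι → Ten n d (𝓞 K)) (m : ι → 𝓞 K) (z : Vc n (𝓞 K)) (hc : ∀ t, ev (c t) z = 0) :
    ev (fun s => a s - ∑ t, m t * c t s) z = ev a z := by
  have e : (fun s => a s - ∑ t, m t * c t s) = a - ∑ t, m t • c t := by
    funext s
    simp only [Pi.sub_apply, Finset.sum_apply, Pi.smul_apply, smul_eq_mul]
  rw [e, ev_sub, ev_sum]
  simp only [ev_smul', hc, mul_zero, Finset.sum_const_zero, sub_zero]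

private theorem ll_vanish {n d : ℕ} (a : Ten n d (𝓞 K)) (b : Ten n d K) (z : Vc n (𝓞 K))
    (he : ((ev a z : 𝓞 K) : K) = ev b (kv z)) : ev (kt a - b) (kv z) = 0 := by
  rw [ev_sub, ev_kt, he, sub_self]

theorem LL1 {n d : ℕ} (H : ℕ) (o : Fin (n + 1)) (x : Vc n (𝓞 K)) (hxo : x o ≠ 0)
    (hx : HGood H x) (a : Ten n d (𝓞 K)) (b : Ten n d K) (β : InfinitePlace K → ℝ)
    (hb : ∀ s v, v (b s) ≤ β v) (he : ((ev a x : 𝓞 K) : K) = ev b (kv x)) :
    ∃ a' : Ten n d (𝓞 K), ev a' x = ev a x ∧ ∀ s, ∀ v : InfinitePlace K,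
      v (a' s : K) ≤ β v + (d * n * (n + 1) ^ d : ℝ) * (CK K n * H) := by
  obtain ⟨c, hc1, hc2, hc3⟩ := span1 d H o x hxo hx
  obtain ⟨r, hr⟩ := hc3 (kt a - b) (ll_vanish a b x he)
  obtain ⟨m, hm⟩ := roundLem (H : ℝ) (Nat.cast_nonneg H) a b β hb c hc2 r (fun s => by
    have := hr s
    simpa [kt_apply] using this)
  refine ⟨fun s => a s - ∑ t, m t * c t s, ll_ev_sub_sum a c m x hc1, fun s v => ?_⟩
  have h1 := hm s v
  have h2 : (Fintype.card (Fin d × Fin n × (Fin d → Fin (n + 1))) : ℝ) =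
      d * n * (n + 1) ^ d := by
    simp only [Fintype.card_prod, Fintype.card_fin, Fintype.card_fun]
    push_cast
    ring
  rw [h2] at h1
  exact h1

theorem LL2 {n d : ℕ} (hd : 2 ≤ d) (H : ℕ) (o : Fin (n + 1)) (x y : Vc n (𝓞 K))
    (hxy : ∃ j, mn x y o j ≠ 0)
    (hx : HGood H x) (hy : HGood H y) (a : Ten n d (𝓞 K)) (b : Ten n d K)
    (β : InfinitePlace K → ℝ)
    (hb : ∀ s v, v (b s) ≤ β v) (he : ((ev a x : 𝓞 K) : K) = ev b (kv x))
    (he' : ((ev a y : 𝓞 K) : K) = ev b (kv y)) :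
    ∃ a' : Ten n d (𝓞 K), ev a' x = ev a x ∧ ev a' y = ev a y ∧
      ∀ s, ∀ v : InfinitePlace K, v (a' s : K) ≤ β v + (cc n d : ℝ) * (CK K n * (H : ℝ) ^ 2) := by
  obtain ⟨c, hc1, hc1', hc2, hc3⟩ := span2 d hd H o x y hxy hx hy
  obtain ⟨r, hr⟩ := hc3 (kt a - b) (ll_vanish a b x he) (ll_vanish a b y he')
  obtain ⟨m, hm⟩ := roundLem ((H : ℝ) ^ 2) (by positivity) a b β hb c hc2 r (fun s => by
    have := hr s
    simpa [kt_apply] using this)
  refine ⟨fun s => a s - ∑ t, m t * c t s, ll_ev_sub_sum a c m x hc1,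
    ll_ev_sub_sum a c m y hc1', fun s v => ?_⟩
  have h1 := hm s v
  have h2 : (Fintype.card (Fin d × Fin d × Fin n × Fin n × (Fin d → Fin (n + 1))) : ℝ) =
      (cc n d : ℝ) := by
    simp only [Fintype.card_prod, Fintype.card_fin, Fintype.card_fun, cc]
    push_cast
    ring
  rw [h2] at h1
  exact h1

end Pool.Agent.Lib.MP_1ad228_ntN
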