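import Pool.Agent.Lib.MP_1ad228_ntN.NP
import Pool.Agent.Lib.MP_1ad228_ntN.PairSum
import Pool.Agent.Lib.MP_1ad228_ntN.EEgood
import Pool.Agent.Lib.MP_1ad228_ntN.Expand

/-!
JOB VarTot.  The variance (assembly).  (Model: Lib/MP_1ad228_ntF/VarTot.lean)

PROOF.  `e = eK K`, `V = VV n d`, `D = ∑ d`. `expand` (`κ = k^2 ≥ 1`): `Qv = ∑_x ∑_y EE x y`. Split the inner
sum in `Prp x y`, good `y` (`¬ Prp`, `W ∈ Dd` and `B^2 ≤ k Del_v` for all `v`), bad `y` (the others).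
`Prp`: `EEle`, `n2_le_n1`, `NP1` (`C H ≤ C H^2 k ≤ A`), `card_Prp`.
good: `EEgood` and `NP2`: `|EE| ≤ (C/k) C A^(eV) (B^(2r)/(A^r B^D)^2)^e (nD/pn Del)^r`; sum with
`psAll`, and `1/k ≤ 1` for the second term of the bracket.
bad: `EEle` and `NP2`; sum with `psBad`.
Sum over `x`: multiply by `card_GG_le`. With `E = (B^(n+1)/(A^r B^D))^e` the three products are as in PairTot. The hypotheses
`C ≤ A` and `C H^2 ≤ A` of `NP2` follow from `C H^2 k ≤ A` (`H, k ≥ 1`).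
-/

namespace Pool.Agent.Lib.MP_1ad228_ntN

open NumberField Classical
open Pool.Agent.Lib.MP_219881_nt (mn)

set_option linter.unusedSectionVars false

variable {K : Type} [Field K] [NumberField K]

private theorem VarTot_alg (k s E X P Z U L Lh A0 CKn CKq CE C1 C2 Ca Cb Cg : ℝ) (hk : 1 ≤ k)
    (hs : 1 / k ≤ s) (hE : 0 ≤ E) (hLh : 0 ≤ Lh) (hA0 : 0 ≤ A0) (hCKn : 0 ≤ CKn) (hCKq : 0 ≤ CKq)
    (hCE : 0 ≤ CE) (hC1 : 0 ≤ C1) (hC2 : 0 ≤ C2) (hCa : 0 ≤ Ca) (hCb : 0 ≤ Cb) (hCg : 0 ≤ Cg)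
    (e1 : X * (1 / P) = E) (e2 : X * (Z * U) = E ^ 2) (e3 : X * (Z * L) = E ^ 2 * Lh) :
    CKn * X * (CKq * (CE * (C1 * A0 / P)) + Cg / k * (C2 * A0 * Z) * (Ca * (U + L))
      + CE * (C2 * A0 * Z) * (Cb * (U * s + L))) ≤
      CKn * (CKq * CE * C1 + Cg * C2 * Ca + CE * C2 * Cb) * A0 * (E + E ^ 2 * (s + Lh)) := by
  have hk0 : 0 < k := by linarith
  have hk1 : 1 / k ≤ 1 := by rw [div_le_one hk0]; exact hk
  have hk2 : 0 ≤ 1 / k := by positivity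
  have hs0 : 0 ≤ s := hk2.trans hs
  have e4 : CKn * X * (CKq * (CE * (C1 * A0 / P)) + Cg / k * (C2 * A0 * Z) * (Ca * (U + L))
      + CE * (C2 * A0 * Z) * (Cb * (U * s + L))) =
      CKn * A0 * (CKq * CE * C1 * (X * (1 / P)) + Cg * C2 * Ca * (1 / k * (X * (Z * U) + X * (Z * L)))
        + CE * C2 * Cb * (X * (Z * U) * s + X * (Z * L))) := by
    ring
  rw [e4, e1, e2, e3]
  have f0 : 0 ≤ E ^ 2 * (s + Lh) := by positivity
  have f1 : E ≤ E + E ^ 2 * (s + Lh) := by linarith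
  have f2 : 1 / k * (E ^ 2 + E ^ 2 * Lh) ≤ E + E ^ 2 * (s + Lh) := by
    have g2 : 1 / k * Lh ≤ 1 * Lh := mul_le_mul_of_nonneg_right hk1 hLh
    have g3 : E ^ 2 * (1 / k + 1 / k * Lh) ≤ E ^ 2 * (s + Lh) :=
      mul_le_mul_of_nonneg_left (by linarith) (sq_nonneg _)
    have g1 : 1 / k * (E ^ 2 + E ^ 2 * Lh) = E ^ 2 * (1 / k + 1 / k * Lh) := by ring
    rw [g1]
    linarith
  have f3 : E ^ 2 * s + E ^ 2 * Lh ≤ E + E ^ 2 * (s + Lh) := by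
    have g1 : E ^ 2 * s + E ^ 2 * Lh = E ^ 2 * (s + Lh) := by ring
    rw [g1]
    linarith
  have m1 := mul_le_mul_of_nonneg_left f1 (show 0 ≤ CKq * CE * C1 by positivity)
  have m2 := mul_le_mul_of_nonneg_left f2 (show 0 ≤ Cg * C2 * Ca by positivity)
  have m3 := mul_le_mul_of_nonneg_left f3 (show 0 ≤ CE * C2 * Cb by positivity)
  calc CKn * A0 * (CKq * CE * C1 * E + Cg * C2 * Ca * (1 / k * (E ^ 2 + E ^ 2 * Lh))
        + CE * C2 * Cb * (E ^ 2 * s + E ^ 2 * Lh))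
      ≤ CKn * A0 * (CKq * CE * C1 * (E + E ^ 2 * (s + Lh)) + Cg * C2 * Ca * (E + E ^ 2 * (s + Lh))
        + CE * C2 * Cb * (E + E ^ 2 * (s + Lh))) :=
        mul_le_mul_of_nonneg_left (by linarith) (mul_nonneg hCKn hA0)
    _ = _ := by ring

/-- One row of the variance sum. -/
private theorem VarTot_row {r n : ℕ} (d : Fin r → ℕ) (B H q : ℕ) (o : Fin (n + 1)) (k A W : ℕ)
    (x : Vc n (𝓞 K)) (hx : x ∈ GG K B H q o) (CE Cg N0 Z CQ SA SB : ℝ) (hCE : 0 ≤ CE) (hCg : 0 ≤ Cg)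
    (hZ : 0 ≤ Z) (hN0 : 0 ≤ N0)
    (hEE : ∀ y : Vc n (𝓞 K), |EE d o W (k ^ 2) A x y| ≤ CE * ∏ i, (n2 (d i) x y A : ℝ))
    (hEg : ∀ y ∈ GG K B H q o, ¬ Prp x y → ((W : ℕ) : 𝓞 K) ∈ Dd x y →
      (∀ v, (B : ℝ) ^ 2 ≤ k * Del o x y v) →
      |EE d o W (k ^ 2) A x y| ≤ Cg / (k : ℝ) * ∏ i, (n2 (d i) x y A : ℝ))
    (hn1 : ∏ i, (n1 (d i) x A : ℝ) ≤ N0)
    (hn2 : ∀ y ∈ GG K B H q o, ¬ Prp x y →
      ∏ i, (n2 (d i) x y A : ℝ) ≤ Z * (nD x y / pn (Del o x y)) ^ r)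
    (hcard : (((GG K B H q o).filter fun y => Prp x y).card : ℝ) ≤ CQ)
    (hSA : ∑ y ∈ (GG K B H q o).filter (fun y => ¬ Prp x y), (nD x y / pn (Del o x y)) ^ r ≤ SA)
    (hSB : ∑ y ∈ (GG K B H q o).filter (fun y => ¬ Prp x y ∧
        ¬ (((W : ℕ) : 𝓞 K) ∈ Dd x y ∧ ∀ v, (B : ℝ) ^ 2 ≤ k * Del o x y v)),
      (nD x y / pn (Del o x y)) ^ r ≤ SB) :
    ∑ y ∈ GG K B H q o, EE d o W (k ^ 2) A x y ≤
      CQ * (CE * N0) + Cg / k * Z * SA + CE * Z * SB := by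
  have hsplit := Finset.sum_filter_add_sum_filter_not (GG K B H q o) (fun y => Prp x y)
    (fun y => EE d o W (k ^ 2) A x y)
  rw [← hsplit]
  have hk0 : (0 : ℝ) ≤ k := Nat.cast_nonneg _
  have hgk : 0 ≤ Cg / (k : ℝ) := div_nonneg hCg hk0
  have hrn : ∀ y : Vc n (𝓞 K), 0 ≤ (nD x y / pn (Del o x y)) ^ r := fun y =>
    pow_nonneg (div_nonneg (Nat.cast_nonneg _) (pn_nonneg fun v => Del_nonneg o x y v)) _
  have hdiag : ∑ y ∈ (GG K B H q o).filter (fun y => Prp x y), EE d o W (k ^ 2) A x y ≤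
      CQ * (CE * N0) := by
    have h1 : ∀ y ∈ (GG K B H q o).filter (fun y => Prp x y), EE d o W (k ^ 2) A x y ≤ CE * N0 := by
      intro y _
      refine (le_abs_self _).trans ((hEE y).trans (mul_le_mul_of_nonneg_left ?_ hCE))
      refine le_trans ?_ hn1
      refine Finset.prod_le_prod (fun i _ => Nat.cast_nonneg _) fun i _ => ?_
      exact_mod_cast n2_le_n1 (d i) x y (A : ℝ)
    refine (Finset.sum_le_sum h1).trans ?_
    rw [Finset.sum_const, nsmul_eq_mul]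
    exact mul_le_mul_of_nonneg_right hcard (mul_nonneg hCE hN0)
  have hoff : ∑ y ∈ (GG K B H q o).filter (fun y => ¬ Prp x y), EE d o W (k ^ 2) A x y ≤
      Cg / k * Z * ∑ y ∈ (GG K B H q o).filter (fun y => ¬ Prp x y), (nD x y / pn (Del o x y)) ^ r
      + CE * Z * ∑ y ∈ (GG K B H q o).filter (fun y => ¬ Prp x y ∧
        ¬ (((W : ℕ) : 𝓞 K) ∈ Dd x y ∧ ∀ v, (B : ℝ) ^ 2 ≤ k * Del o x y v)),
        (nD x y / pn (Del o x y)) ^ r := by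
    have h2 : ∑ y ∈ (GG K B H q o).filter (fun y => ¬ Prp x y ∧
        ¬ (((W : ℕ) : 𝓞 K) ∈ Dd x y ∧ ∀ v, (B : ℝ) ^ 2 ≤ k * Del o x y v)),
        (nD x y / pn (Del o x y)) ^ r =
        ∑ y ∈ (GG K B H q o).filter (fun y => ¬ Prp x y),
          (if ¬ (((W : ℕ) : 𝓞 K) ∈ Dd x y ∧ ∀ v, (B : ℝ) ^ 2 ≤ k * Del o x y v) then
            (nD x y / pn (Del o x y)) ^ r else 0) := by
      rw [← Finset.filter_filter, Finset.sum_filter]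
    rw [h2, Finset.mul_sum, Finset.mul_sum, ← Finset.sum_add_distrib]
    refine Finset.sum_le_sum fun y hy => ?_
    obtain ⟨hyG, hyx⟩ := Finset.mem_filter.1 hy
    have hN2 := hn2 y hyG hyx
    refine le_trans (le_abs_self _) ?_
    by_cases hgood : ((W : ℕ) : 𝓞 K) ∈ Dd x y ∧ ∀ v, (B : ℝ) ^ 2 ≤ k * Del o x y v
    · rw [if_neg (not_not.2 hgood), mul_zero, add_zero]
      refine (hEg y hyG hyx hgood.1 hgood.2).trans ?_
      rw [mul_assoc]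
      exact mul_le_mul_of_nonneg_left hN2 hgk
    · rw [if_pos hgood]
      have h4 : 0 ≤ Cg / (k : ℝ) * Z * (nD x y / pn (Del o x y)) ^ r :=
        mul_nonneg (mul_nonneg hgk hZ) (hrn y)
      have h5 : |EE d o W (k ^ 2) A x y| ≤ CE * Z * (nD x y / pn (Del o x y)) ^ r := by
        refine (hEE y).trans ?_
        rw [mul_assoc]
        exact mul_le_mul_of_nonneg_left hN2 hCE
      linarith
  have h6 := mul_le_mul_of_nonneg_left hSA (mul_nonneg hgk hZ)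
  have h7 := mul_le_mul_of_nonneg_left hSB (mul_nonneg hCE hZ)
  linarith

private theorem VarTot_id (B A : ℝ) (hB : 0 < B) (hA : 0 < A) (n r D : ℕ) (X1 P1 : ℝ) (hX : X1 = B ^ (n + 1))
    (hP : P1 = A ^ r * B ^ D) : X1 * (1 / P1) = X1 / P1 ∧
    X1 * ((B ^ (2 * r) / P1 ^ 2) * (X1 / B ^ (2 * r))) = (X1 / P1) ^ 2 ∧
    ∀ h : ℝ, X1 * ((B ^ (2 * r) / P1 ^ 2) * (h * (B / B ^ r))) = (X1 / P1) ^ 2 * (h * B ^ r / B ^ n) := by
  have hX0 : 0 < X1 := by rw [hX]; positivity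
  have hP0 : 0 < P1 := by rw [hP]; positivity
  have hBr : 0 < B ^ r := by positivity
  have hB2r : B ^ (2 * r) = B ^ r * B ^ r := by rw [two_mul, pow_add]
  have hBn : 0 < B ^ n := by positivity
  refine ⟨by ring, ?_, fun h => ?_⟩
  · rw [hB2r]
    field_simp
  · have h1 : X1 = B ^ n * B := by rw [hX, pow_succ]
    rw [hB2r]
    have h2 : X1 * (B ^ r * B ^ r / P1 ^ 2 * (h * (B / B ^ r))) = X1 / P1 ^ 2 * (h * B * B ^ r) := by
      field_simp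
    have h3 : (X1 / P1) ^ 2 * (h * B ^ r / B ^ n) = X1 / P1 ^ 2 * (h * B ^ r * (X1 / B ^ n)) := by
      field_simp
    rw [h2, h3]
    have h4 : X1 / B ^ n = B := by
      rw [h1]
      field_simp
    rw [h4]
    ring

theorem varTot {r : ℕ} (n : ℕ) (hn : r + 2 ≤ n) (d : Fin r → ℕ)
    (hd : ∀ i, 2 ≤ d i) (q : ℕ) (hq : 1 ≤ q) : ∃ C : ℝ, 1 ≤ C ∧
    ∀ (o : Fin (n + 1)) (k w B H A W : ℕ), 1 ≤ k → 1 ≤ B → 1 ≤ H →
    (∀ m, 1 ≤ m → m ≤ w → m ∣ W) → C * (H : ℝ) ^ 2 * k ≤ A →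
    Qv K d B H q o W (k ^ 2) A ≤
      C * (A : ℝ) ^ (eK K * VV n d) *
        (((B : ℝ) ^ (n + 1) / ((A : ℝ) ^ r * (B : ℝ) ^ (∑ i, d i))) ^ eK K
        + (((B : ℝ) ^ (n + 1) / ((A : ℝ) ^ r * (B : ℝ) ^ (∑ i, d i))) ^ eK K) ^ 2 *
            (1 / k + 1 / (w + 1) + ((Nat.log 2 B : ℝ) + 2) ^ eK K *
              ((H : ℝ) ^ (n + 1 + r) * (B : ℝ) ^ r / (B : ℝ) ^ n) ^ eK K)) := by
  obtain ⟨CE, hCE, hEE⟩ := EEle K n d
  obtain ⟨Cg, hCg, hEg⟩ := EEgood K n d hd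
  obtain ⟨C1, hC1, hN1⟩ := NP1 (K := K) n d q hq
  obtain ⟨C2, hC2, hN2⟩ := NP2 (K := K) n d hd q hq
  obtain ⟨Ca, hCa, hSa⟩ := psAll (K := K) n r q hn hq
  obtain ⟨Cb, hCb, hSb⟩ := psBad (K := K) n r q hn hq
  have hCK := CK_one_le K n
  have hCK0 : 0 ≤ CK K n := by linarith
  obtain ⟨M, hM⟩ : ∃ M, M = CK K n ^ (n + 1) *
      (CK K n * (q : ℝ) ^ eK K * CE * C1 + Cg * C2 * Ca + CE * C2 * Cb) := ⟨_, rfl⟩
  have hM0 : 0 ≤ M := by rw [hM]; positivity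
  refine ⟨M + C1 + C2 + Cg, by linarith, ?_⟩
  intro o k w B H A W hk hB hH hW hA
  have hk1 : (1 : ℝ) ≤ k := by exact_mod_cast hk
  have hH1 : (1 : ℝ) ≤ H := by exact_mod_cast hH
  have hB0 : (0 : ℝ) < B := by exact_mod_cast hB
  have hH2 : (1 : ℝ) ≤ (H : ℝ) ^ 2 := one_le_pow₀ hH1
  have hHk : (1 : ℝ) ≤ (H : ℝ) ^ 2 * k := one_le_mul_of_one_le_of_one_le hH2 hk1
  have hle : ∀ c : ℝ, 0 ≤ c → c ≤ M + C1 + C2 + Cg → c * ((H : ℝ) ^ 2 * k) ≤ A := by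
    intro c _ hc
    refine le_trans (mul_le_mul_of_nonneg_right hc (by linarith)) ?_
    rw [← mul_assoc]
    exact hA
  have hg := hle Cg (by linarith) (by linarith)
  have h1 := hle C1 (by linarith) (by linarith)
  have h2 := hle C2 (by linarith) (by linarith)
  have hA1R : (1 : ℝ) ≤ A := by
    refine le_trans ?_ hg
    exact one_le_mul_of_one_le_of_one_le hCg hHk
  have hA1 : 1 ≤ A := by exact_mod_cast hA1R
  have hA0 : (0 : ℝ) < A := by linarith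
  have hgA : Cg * (H : ℝ) ^ 2 * k ≤ A := by rw [mul_assoc]; exact hg
  have hHH : (H : ℝ) ≤ (H : ℝ) ^ 2 * k := by
    have h3 : (H : ℝ) ≤ (H : ℝ) ^ 2 := by
      rw [sq]
      exact le_mul_of_one_le_left (by linarith) hH1
    exact h3.trans (le_mul_of_one_le_right (by linarith) hk1)
  have h1A : C1 * (H : ℝ) ≤ A := le_trans (mul_le_mul_of_nonneg_left hHH (by linarith)) h1
  have h2A : C2 ≤ A := le_trans (le_mul_of_one_le_right (by linarith) hHk) h2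
  have h2B : C2 * (H : ℝ) ^ 2 ≤ A := by
    refine le_trans (mul_le_mul_of_nonneg_left ?_ (by linarith)) h2
    exact le_mul_of_one_le_right (by linarith) hk1
  rw [expand d B H q o W (k ^ 2) A (Nat.one_le_pow _ _ hk)]
  obtain ⟨e, he⟩ : ∃ e, e = eK K := ⟨_, rfl⟩
  obtain ⟨Dg, hDg⟩ : ∃ Dg, Dg = ∑ i, d i := ⟨_, rfl⟩
  obtain ⟨A0, hA0'⟩ : ∃ A0, A0 = (A : ℝ) ^ (eK K * VV n d) := ⟨_, rfl⟩
  have hA00 : 0 ≤ A0 := by rw [hA0']; positivity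
  obtain ⟨X1, hX1⟩ : ∃ X1, X1 = (B : ℝ) ^ (n + 1) := ⟨_, rfl⟩
  obtain ⟨P1, hP1⟩ : ∃ P1, P1 = (A : ℝ) ^ r * (B : ℝ) ^ (∑ i, d i) := ⟨_, rfl⟩
  have hX10 : 0 < X1 := by rw [hX1]; positivity
  have hP10 : 0 < P1 := by rw [hP1]; positivity
  have hrow : ∀ x ∈ GG K B H q o, ∑ y ∈ GG K B H q o, EE d o W (k ^ 2) A x y ≤
      (CK K n * (q : ℝ) ^ eK K) * (CE * (C1 * A0 / P1 ^ eK K)) +
        Cg / k * (C2 * A0 * ((B : ℝ) ^ (2 * r) / P1 ^ 2) ^ eK K) *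
          (Ca * ((X1 / (B : ℝ) ^ (2 * r)) ^ eK K + ((Nat.log 2 B : ℝ) + 2) ^ eK K *
            ((H : ℝ) ^ (n + 1 + r) * ((B : ℝ) / (B : ℝ) ^ r)) ^ eK K)) +
        CE * (C2 * A0 * ((B : ℝ) ^ (2 * r) / P1 ^ 2) ^ eK K) *
          (Cb * ((X1 / (B : ℝ) ^ (2 * r)) ^ eK K * (1 / (k : ℝ) + 1 / ((w : ℝ) + 1)) +
            ((Nat.log 2 B : ℝ) + 2) ^ eK K *
            ((H : ℝ) ^ (n + 1 + r) * ((B : ℝ) / (B : ℝ) ^ r)) ^ eK K)) := by
    intro x hx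
    refine VarTot_row d B H q o k A W x hx CE Cg (C1 * A0 / P1 ^ eK K)
      (C2 * A0 * ((B : ℝ) ^ (2 * r) / P1 ^ 2) ^ eK K) _ _ _ (by linarith) (by linarith) ?_ ?_ ?_ ?_ ?_ ?_
      (card_Prp hB hx) ?_ ?_
    · have : 0 ≤ C2 := by linarith
      positivity
    · have : 0 ≤ C1 := by linarith
      positivity
    · exact fun y => hEE o W (k ^ 2) A hA1 x y
    · exact fun y hy hp hd' hv => hEg B H q o k A W hB hk hA1 hgA x hx y hy hp hd' hv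
    · rw [hA0', hP1]
      exact hN1 B H A o hB hA1 h1A x hx
    · intro y hy hp
      rw [hA0', hP1]
      exact hN2 B H A o hB h2A h2B x hx y hy hp
    · rw [hX1]
      exact hSa B H o hB hH x hx
    · rw [hX1]
      exact hSb B H k w W o hB hH hk hW x hx
  refine (Finset.sum_le_sum hrow).trans ?_
  rw [Finset.sum_const, nsmul_eq_mul]
  obtain ⟨i1, i2, i3⟩ := VarTot_id (B : ℝ) A hB0 hA0 n r (∑ i, d i) X1 P1 hX1 hP1
  have hcard := card_GG_le (K := K) n H q o hB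
  have hlog : 0 ≤ ((Nat.log 2 B : ℝ) + 2) ^ eK K := by positivity
  refine (mul_le_mul_of_nonneg_right hcard ?_).trans ?_
  · have t1 : 0 ≤ CE := by linarith
    have t2 : 0 ≤ Cg := by linarith
    have t3 : 0 ≤ C1 := by linarith
    have t4 : 0 ≤ C2 := by linarith
    have t5 : 0 ≤ Ca := by linarith
    have t6 : 0 ≤ Cb := by linarith
    positivity
  · have hXe : (B : ℝ) ^ (eK K * (n + 1)) = X1 ^ eK K := by
      rw [hX1, ← pow_mul, mul_comm]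
    have e1 : X1 ^ eK K * (1 / P1 ^ eK K) = (X1 / P1) ^ eK K := by
      rw [← i1, mul_pow, div_pow, one_pow]
    have e2 : X1 ^ eK K * (((B : ℝ) ^ (2 * r) / P1 ^ 2) ^ eK K * (X1 / (B : ℝ) ^ (2 * r)) ^ eK K) =
        ((X1 / P1) ^ eK K) ^ 2 := by
      rw [← mul_pow, ← mul_pow, i2, ← pow_mul, ← pow_mul, mul_comm]
    have e3 : X1 ^ eK K * (((B : ℝ) ^ (2 * r) / P1 ^ 2) ^ eK K * (((Nat.log 2 B : ℝ) + 2) ^ eK K *
        ((H : ℝ) ^ (n + 1 + r) * ((B : ℝ) / (B : ℝ) ^ r)) ^ eK K)) =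
        ((X1 / P1) ^ eK K) ^ 2 * (((Nat.log 2 B : ℝ) + 2) ^ eK K *
          ((H : ℝ) ^ (n + 1 + r) * (B : ℝ) ^ r / (B : ℝ) ^ n) ^ eK K) := by
      have h3 : ∀ a b c l m : ℝ, a * (b * c) = l ^ 2 * m → ∀ g : ℝ, ∀ f : ℕ,
          a ^ f * (b ^ f * (g * c ^ f)) = (l ^ f) ^ 2 * (g * m ^ f) := by
        intro a b c l m h g f
        have h4 : a ^ f * (b ^ f * c ^ f) = (l ^ f) ^ 2 * m ^ f := by
          rw [← mul_pow, ← mul_pow, h, mul_pow, ← pow_mul, ← pow_mul, mul_comm 2 f]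
        linear_combination g * h4
      exact h3 _ _ _ _ _ (i3 ((H : ℝ) ^ (n + 1 + r))) _ _
    rw [hXe, ← hA0', ← hX1, ← hP1]
    have hs : 1 / (k : ℝ) ≤ 1 / (k : ℝ) + 1 / ((w : ℝ) + 1) := by
      have : 0 ≤ 1 / ((w : ℝ) + 1) := by positivity
      linarith
    have hfin := VarTot_alg k (1 / (k : ℝ) + 1 / ((w : ℝ) + 1)) ((X1 / P1) ^ eK K) (X1 ^ eK K) (P1 ^ eK K)
      (((B : ℝ) ^ (2 * r) / P1 ^ 2) ^ eK K) ((X1 / (B : ℝ) ^ (2 * r)) ^ eK K)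
      (((Nat.log 2 B : ℝ) + 2) ^ eK K * ((H : ℝ) ^ (n + 1 + r) * ((B : ℝ) / (B : ℝ) ^ r)) ^ eK K)
      (((Nat.log 2 B : ℝ) + 2) ^ eK K * ((H : ℝ) ^ (n + 1 + r) * (B : ℝ) ^ r / (B : ℝ) ^ n) ^ eK K)
      A0 (CK K n ^ (n + 1)) (CK K n * (q : ℝ) ^ eK K) CE C1 C2 Ca Cb Cg hk1 hs (by positivity) (by positivity)
      hA00 (by positivity) (by positivity) (by linarith) (by linarith) (by linarith) (by linarith) (by linarith)
      (by linarith) e1 e2 e3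
    rw [← hM] at hfin
    refine hfin.trans ?_
    refine mul_le_mul_of_nonneg_right (mul_le_mul_of_nonneg_right (by linarith) hA00) ?_
    positivity

end Pool.Agent.Lib.MP_1ad228_ntN
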