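import Pool.Agent.Lib.MP_1ad228_ntN.MN_Par
import Pool.Agent.Lib.MP_1ad228_ntN.MN_Cheb
import Pool.Agent.Lib.MP_1ad228_ntN.VarTot
import Pool.Agent.Lib.MP_1ad228_ntN.LocDens
import Pool.Agent.Lib.MP_1ad228_ntN.CN_Low
import Pool.Agent.Lib.MP_1ad228_ntN.RP_Fin

/-!
JOB MN_Bad.  Almost all everywhere locally soluble tuples have a small common zero. (Model with proof: Lib/MP_1ad228_ntF/MN_Bad.lean; here only ONE pivot `o = 0`, so there is no union over `o`.)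

PROOF.  `e = eK K ≥ 1`, `D = ∑ d`, `ι = n + 1 - D ≥ 1`, `l = 4(n+r)+4`, `V = VV n d`, `D0 = (n l+1) ι`.  (`gpar`, `lpar`, `Hpow`, `EEq` = `Pool.Agent.Lib.MP_1ad228_ntF.gpar` ...)
1. `realRob K n d hd1 (ε/4)`: `ρ, A1`.  `q ≥ 1` natural with `1 ≤ ρ q`.  `locDens K n .. (ε/4)`: `τ, w1`.  `low K hr n hn d hd1 l .. ρ .. q`: `c`.  `varTot` with `q`: `C ≥ 1`.
   `θ = ε (c τ)^2 / (64 * 2^r * C)` (the lemma `MN_Bad_ar` of the model with `N1 = 1`, `P = 2^r`): we need `1/E ≤ θ` and `1/k, 1/(w+1), lg * (..)^e ≤ θ`.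
2. `k ≥ 1/θ`, `κ = k^2`; `w ≥ max w0(κ) w1`, `w ≥ k`; `W = WW w`; `η = c τ/2`; `g0` from `low`; `g1` from `lgSmall (n*l+1) e .. 1 θ` : `((Nat.log 2 (g^(n l+1)) + 2)/g)^e ≤ θ` for `g ≥ g1`; `A2` from `locDens`.
   `M = 2^D0 * k'` with `k' ≥ 1/θ` (natural, `k' ≥ 1`).  `gpar n r l ι .. M (g0 + g1 + 1) (⌈C⌉₊ * k)` gives `A3` (`lpar`).  `A0 = A1 + A2 + A3 + 1`.
3. `A ≥ A0`, `g` from `gpar`, `B = g^(n l+1)`, `H = g^(l+2)`, `E = (B^(n+1)/(A^r B^D))^e = (B^ι/A^r)^e` (`EEq`) `≥ (M/2^D0)^e = k'^e ≥ k' ≥ 1/θ`.  (`M A^r ≤ 2^D0 B^ι`.)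
   `T = {F ∈ TBox K n d A | Nn B H q 0 F = 0, all v: ∃ S injective, Rob v 0 S ρ (scF v A F), τ W^(e(n+1)) ≤ smI (WI K w) F * W^(e r)}`.  By `low` `Ll ≥ E (c τ - c τ/2) = E c τ/2` on `T`.  `cheb`:
   `T.card * (E c τ/2)^2 ≤ 2^r Qv ≤ 2^r C A^(e V) (E + E^2 (1/k + 1/(w+1) + lg (H^(n+1+r)B^r/B^n)^e))` (`varTot`; hypotheses: `Pool.Agent.Lib.MP_219881_nt.WWdvd`, `C H^2 k ≤ ⌈C⌉₊ k H^2 ≤ A`), `Hpow`: `(..)^e ≤ (1/g)^e`,
   `lg (1/g)^e = ((Nat.log 2 B + 2)/g)^e ≤ θ`.  So `T.card ≤ ε/4 A^(e V)`.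
4. A tuple `F` of the filter (`∀ v, RSol v F`, `PSol F`, no small zero) is in the exceptional set of `realRob`, or of `locDens`, or in `T`: otherwise `Nn B H q 0 F ≠ 0`, there is `x ∈ GG K B H q 0` with all `ev (F i) x = 0`;
   `x ≠ 0` (`GG_ne`), `v (x l) ≤ B` (`GG_le`), so `v (x l)^ι ≤ B^ι ≤ M A^r` (`gpar`), contradiction.  Total `≤ 3 ε/4 A^(e V) ≤ ε A^(e V)`.
-/

namespace Pool.Agent.Lib.MP_1ad228_ntN

open NumberField Classical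

set_option linter.unusedSectionVars false

variable (K : Type) [Field K] [NumberField K]

private theorem MN_Bad_ar (T Q C A2 E S c τ ε δ P : ℝ) (hC : 0 < C) (hA : 0 ≤ A2) (hE : 0 < E) (hc : 0 < c)
    (hτ : 0 < τ) (hP : 0 < P) (h1 : T * (E * (c * τ / 2)) ^ 2 ≤ P * Q)
    (h2 : Q ≤ C * A2 * (E + E ^ 2 * S))
    (hS : S ≤ 3 * δ) (hd : 1 ≤ δ * E) (hd2 : δ ≤ ε * (c * τ) ^ 2 / (64 * P * C)) : T ≤ ε / 4 * A2 := by
  have h3 : E ≤ E ^ 2 * δ := by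
    calc E = E * 1 := by ring
      _ ≤ E * (δ * E) := mul_le_mul_of_nonneg_left hd hE.le
      _ = E ^ 2 * δ := by ring
  have h4 : E + E ^ 2 * S ≤ E ^ 2 * (4 * δ) := by
    have : E ^ 2 * S ≤ E ^ 2 * (3 * δ) := mul_le_mul_of_nonneg_left hS (by positivity)
    calc E + E ^ 2 * S ≤ E ^ 2 * δ + E ^ 2 * (3 * δ) := add_le_add h3 this
      _ = E ^ 2 * (4 * δ) := by ring
  have h5 : C * δ ≤ ε * (c * τ) ^ 2 / (64 * P) := by
    calc C * δ ≤ C * (ε * (c * τ) ^ 2 / (64 * P * C)) := mul_le_mul_of_nonneg_left hd2 hC.le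
      _ = ε * (c * τ) ^ 2 / (64 * P) := by
        field_simp
  have h6 : T * (E * (c * τ / 2)) ^ 2 ≤ (ε / 4 * A2) * (E * (c * τ / 2)) ^ 2 := by
    calc T * (E * (c * τ / 2)) ^ 2 ≤ P * Q := h1
      _ ≤ P * (C * A2 * (E + E ^ 2 * S)) := mul_le_mul_of_nonneg_left h2 hP.le
      _ ≤ P * (C * A2 * (E ^ 2 * (4 * δ))) :=
        mul_le_mul_of_nonneg_left (mul_le_mul_of_nonneg_left h4 (show 0 ≤ C * A2 by positivity)) hP.le
      _ = (A2 * E ^ 2 * (4 * P)) * (C * δ) := by ring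
      _ ≤ (A2 * E ^ 2 * (4 * P)) * (ε * (c * τ) ^ 2 / (64 * P)) :=
        mul_le_mul_of_nonneg_left h5 (by positivity)
      _ = (ε / 4 * A2) * (E * (c * τ / 2)) ^ 2 := by
        field_simp
        ring
  exact le_of_mul_le_mul_right h6 (by positivity)

private theorem MN_Bad_inv (δ : ℝ) (hd : 0 < δ) (n : ℕ) (hn : ⌈1 / δ⌉₊ + 1 ≤ n) : 1 / (n : ℝ) ≤ δ := by
  have h1 : 1 / δ ≤ (n : ℝ) := by
    have h2 := Nat.le_ceil (1 / δ)
    have h3 : ((⌈1 / δ⌉₊ : ℕ) : ℝ) ≤ (n : ℝ) := by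
      have : ⌈1 / δ⌉₊ ≤ n := by omega
      exact_mod_cast this
    linarith
  have h2 : (0 : ℝ) < n := by
    have : 0 < n := by omega
    exact_mod_cast this
  rw [div_le_iff₀ hd] at h1
  rw [div_le_iff₀ h2]
  linarith

private noncomputable def MN_Bad_T (n : ℕ) {r : ℕ} (d : Fin r → ℕ) (B H q w A : ℕ) (ρ τ : ℝ) :
    Finset (Tup n d (𝓞 K)) :=
  (TBox K n d A).filter fun F => Nn B H q 0 F = 0 ∧
    (∀ v : InfinitePlace K, ∃ S : Fin r → Fin (n + 1), Function.Injective S ∧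
      Rob v 0 S ρ (scF v A F)) ∧
    τ * (WW w : ℝ) ^ (eK K * (n + 1)) ≤ (smI (WI K w) F : ℝ) * (WW w : ℝ) ^ (eK K * r)

theorem mainN {r : ℕ} (hr : 1 ≤ r) (n : ℕ) (hn : r + 2 ≤ n) (d : Fin r → ℕ) (hd : ∀ i, 2 ≤ d i)
    (hD : ∑ i, d i ≤ n) (h2 : 2 * r < n * (n + 1 - ∑ i, d i)) : MainP K n d := by
  intro ε hε
  have hd1 : ∀ i, 1 ≤ d i := fun i => le_trans (by norm_num) (hd i)
  have he : 1 ≤ eK K := eK_pos
  obtain ⟨D, hDD⟩ : ∃ D : ℕ, D = ∑ i, d i := ⟨_, rfl⟩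
  obtain ⟨ι, hι0⟩ : ∃ ι : ℕ, ι = n + 1 - D := ⟨_, rfl⟩
  obtain ⟨l, hl⟩ : ∃ l : ℕ, l = 4 * (n + r) + 4 := ⟨_, rfl⟩
  obtain ⟨D0, hD0⟩ : ∃ D0 : ℕ, D0 = (n * l + 1) * ι := ⟨_, rfl⟩
  have hι : 1 ≤ ι := by omega
  have hl1 : 1 ≤ l := by omega
  have h2' : 2 * r < n * ι := by
    rw [hι0, hDD]
    exact h2
  have hlp := Pool.Agent.Lib.MP_1ad228_ntF.lpar n r ι l hι h2' hl
  obtain ⟨ρ, hρ, hρ1, A1, hreal⟩ := realRob K n d hd1 (ε / 4) (by positivity)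
  obtain ⟨q, hq1, hqρ⟩ : ∃ q : ℕ, 1 ≤ q ∧ 1 ≤ ρ * q := by
    refine ⟨⌈1 / ρ⌉₊ + 1, by omega, ?_⟩
    have h1 := Nat.le_ceil (1 / ρ)
    rw [div_le_iff₀ hρ] at h1
    push_cast
    nlinarith
  obtain ⟨τ, hτ, w1, hloc⟩ := locDens K n hr hn d hd1 (ε / 4) (by positivity)
  obtain ⟨c, hc, hlow⟩ := low K hr n hn d hd1 l hl1 ρ hρ hρ1 q hqρ
  obtain ⟨C, hC1, hvar⟩ := varTot (K := K) n hn d hd q hq1
  have hC : 0 < C := lt_of_lt_of_le one_pos hC1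
  have hP : (0 : ℝ) < 2 ^ r := by positivity
  obtain ⟨δ, hδpos, hδ2⟩ : ∃ δ : ℝ, 0 < δ ∧ δ ≤ ε * (c * τ) ^ 2 / (64 * 2 ^ r * C) :=
    ⟨_, by positivity, le_rfl⟩
  obtain ⟨g2, hg21, hg2⟩ := lgSmall (n * l + 1) (eK K) he 1 δ hδpos
  obtain ⟨k, hk⟩ : ∃ k : ℕ, k = ⌈1 / δ⌉₊ + 1 := ⟨_, rfl⟩
  have hinv : ∀ m : ℕ, k ≤ m → 1 / (m : ℝ) ≤ δ := fun m hm => MN_Bad_inv δ hδpos m (hk ▸ hm)
  have hk1 : 1 ≤ k := by omega
  obtain ⟨w0, hw0⟩ := hlow (k ^ 2) (Nat.one_le_pow _ _ hk1)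
  obtain ⟨g0, hg0⟩ := hw0 (w0 + w1 + k) (by omega) (c * τ / 2) (by positivity)
  obtain ⟨A2, hA2⟩ := hloc (w0 + w1 + k) (by omega)
  have hMpos : 1 ≤ 2 ^ D0 * k := by
    have : 0 < 2 ^ D0 * k := by positivity
    exact this
  obtain ⟨A3, hA3⟩ := Pool.Agent.Lib.MP_1ad228_ntF.gpar n r l ι hr hι hlp (2 ^ D0 * k) hMpos (g0 + g2) (⌈C⌉₊ * k)
  refine ⟨2 ^ D0 * k, A1 + A2 + A3 + 1, fun A hA => ?_⟩
  obtain ⟨g, hg1, hgg, hA0, hgM, hMg, hcA⟩ := hA3 A (by omega)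
  have hreal' := hreal A (by omega)
  have hloc' := hA2 A (by omega)
  have hA0r : (0 : ℝ) < A := by exact_mod_cast hA0
  rw [← hD0] at hMg
  obtain ⟨B, hB⟩ : ∃ B : ℕ, B = g ^ (n * l + 1) := ⟨_, rfl⟩
  obtain ⟨H, hH⟩ : ∃ H : ℕ, H = g ^ (l + 2) := ⟨_, rfl⟩
  rw [← hB] at hgM hMg
  rw [← hH] at hcA
  have hB1 : 1 ≤ B := by rw [hB]; exact Nat.one_le_pow _ _ hg1
  have hH1 : 1 ≤ H := by rw [hH]; exact Nat.one_le_pow _ _ hg1
  have hWpos := Pool.Agent.Lib.MP_219881_nt.WWpos (w0 + w1 + k)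
  have hWr : (0 : ℝ) < (WW (w0 + w1 + k) : ℝ) := by exact_mod_cast hWpos
  have hB0r : (0 : ℝ) < B := by exact_mod_cast hB1
  -- E
  obtain ⟨E, hE⟩ : ∃ E : ℝ, E = ((B : ℝ) ^ (n + 1) / ((A : ℝ) ^ r * (B : ℝ) ^ (∑ i, d i))) ^ eK K := ⟨_, rfl⟩
  have hEeq : (B : ℝ) ^ (n + 1) / ((A : ℝ) ^ r * (B : ℝ) ^ (∑ i, d i)) = (B : ℝ) ^ ι / (A : ℝ) ^ r := by
    rw [hι0, hDD]
    exact Pool.Agent.Lib.MP_1ad228_ntF.EEq n r (∑ i, d i) A B (by omega) hA0 hB1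
  have hE1 : (k : ℝ) ≤ (B : ℝ) ^ ι / (A : ℝ) ^ r := by
    rw [le_div_iff₀ (by positivity)]
    have h1 : 2 ^ D0 * (k * A ^ r) ≤ 2 ^ D0 * B ^ ι := by
      calc 2 ^ D0 * (k * A ^ r) = 2 ^ D0 * k * A ^ r := by ring
        _ ≤ _ := hMg
    have h2 : k * A ^ r ≤ B ^ ι := Nat.le_of_mul_le_mul_left h1 (by positivity)
    exact_mod_cast h2
  have hk1r : (1 : ℝ) ≤ k := by exact_mod_cast hk1
  have hEr : (k : ℝ) ≤ E := by
    rw [hE, hEeq]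
    calc (k : ℝ) ≤ (B : ℝ) ^ ι / (A : ℝ) ^ r := hE1
      _ = ((B : ℝ) ^ ι / (A : ℝ) ^ r) ^ 1 := (pow_one _).symm
      _ ≤ ((B : ℝ) ^ ι / (A : ℝ) ^ r) ^ eK K := pow_le_pow_right₀ (hk1r.trans hE1) he
  have hEpos : 0 < E := lt_of_lt_of_le (by linarith) hEr
  -- the set T
  have hTo : ((MN_Bad_T K n d B H q (w0 + w1 + k) A ρ τ).card : ℝ) ≤
      ε / 4 * (A : ℝ) ^ (eK K * VV n d) := by
    have hCk : C * (H : ℝ) ^ 2 * k ≤ A := by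
      have h1 : ((⌈C⌉₊ * k * H ^ 2 : ℕ) : ℝ) ≤ (A : ℝ) := by exact_mod_cast hcA
      refine le_trans ?_ h1
      push_cast
      have h3 : C ≤ (⌈C⌉₊ : ℝ) := Nat.le_ceil C
      calc C * (H : ℝ) ^ 2 * k = C * (k * (H : ℝ) ^ 2) := by ring
        _ ≤ (⌈C⌉₊ : ℝ) * (k * (H : ℝ) ^ 2) := mul_le_mul_of_nonneg_right h3 (by positivity)
        _ = _ := by ring
    have hQ := hvar 0 k (w0 + w1 + k) B H A (WW (w0 + w1 + k)) hk1 hB1 hH1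
      (fun m h1 h2 => Pool.Agent.Lib.MP_219881_nt.WWdvd _ m h1 h2) hCk
    rw [← hE] at hQ
    have hch := cheb (K := K) d B H q (WW (w0 + w1 + k)) (k ^ 2) A hA0 0
      (E * (c * τ / 2)) (by positivity) (MN_Bad_T K n d B H q (w0 + w1 + k) A ρ τ) (by
        intro F hF
        unfold MN_Bad_T at hF
        rw [Finset.mem_filter] at hF
        obtain ⟨hFB, hN, hRob, hsm⟩ := hF
        refine ⟨hFB, hN, ?_⟩
        have h3 := hg0 g (by omega) B H hB hH A hA0 F hFB 0 hRob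
        rw [← hE] at h3
        refine le_trans ?_ h3
        apply mul_le_mul_of_nonneg_left _ hEpos.le
        have h4 : τ ≤ (smI (WI K (w0 + w1 + k)) F : ℝ) *
            (WW (w0 + w1 + k) : ℝ) ^ (eK K * r) / (WW (w0 + w1 + k) : ℝ) ^ (eK K * (n + 1)) := by
          rw [le_div_iff₀ (by positivity)]
          exact hsm
        have h5 := mul_le_mul_of_nonneg_left h4 hc.le
        linarith)
    refine MN_Bad_ar _ _ C ((A : ℝ) ^ (eK K * VV n d)) E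
      (1 / (k : ℝ) + 1 / (((w0 + w1 + k : ℕ) : ℝ) + 1) + ((Nat.log 2 B : ℝ) + 2) ^ eK K *
        ((H : ℝ) ^ (n + 1 + r) * (B : ℝ) ^ r / (B : ℝ) ^ n) ^ eK K)
      c τ ε δ (2 ^ r) hC (by positivity) hEpos hc hτ hP hch hQ ?_ ?_ hδ2
    · have e1 := hinv k le_rfl
      have e2 : 1 / (((w0 + w1 + k : ℕ) : ℝ) + 1) ≤ δ := by
        have := hinv (w0 + w1 + k + 1) (by omega)
        rw [Nat.cast_succ] at this
        exact this
      have e3 : ((Nat.log 2 B : ℝ) + 2) ^ eK K *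
          ((H : ℝ) ^ (n + 1 + r) * (B : ℝ) ^ r / (B : ℝ) ^ n) ^ eK K ≤ δ := by
        have h3 := Pool.Agent.Lib.MP_1ad228_ntF.Hpow n r l g B H hn hl hg1 hB hH
        have h4 := hg2 g (by omega)
        rw [← hB, one_mul] at h4
        refine le_trans ?_ h4
        rw [← mul_pow]
        refine pow_le_pow_left₀ (by positivity) ?_ _
        rw [div_eq_mul_one_div ((Nat.log 2 B : ℝ) + 2) (g : ℝ)]
        exact mul_le_mul_of_nonneg_left h3 (by positivity)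
      linarith
    · have e1 := hinv k le_rfl
      have hk0 : (0 : ℝ) < k := by linarith
      calc (1 : ℝ) = 1 / (k : ℝ) * k := by field_simp
        _ ≤ δ * k := mul_le_mul_of_nonneg_right e1 hk0.le
        _ ≤ δ * E := mul_le_mul_of_nonneg_left hEr hδpos.le
  -- covering
  have hsub : ((TBox K n d A).filter fun F => (∀ v, RSol v F) ∧ PSol F ∧
        ¬ ∃ x : Vc n (𝓞 K), x ≠ 0 ∧
          (∀ i, ∀ v : InfinitePlace K, (v (x i : K)) ^ (n + 1 - ∑ i, d i) ≤ ((2 ^ D0 * k : ℕ) : ℝ) * (A : ℝ) ^ r) ∧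
          ∀ i, ev (F i) x = 0) ⊆
      ((TBox K n d A).filter fun F => (∀ v, RSol v F) ∧
        ¬ ∀ v : InfinitePlace K, ∃ S : Fin r → Fin (n + 1), Function.Injective S ∧
          Rob v 0 S ρ (scF v A F)) ∪
      (((TBox K n d A).filter fun F => PSol F ∧
        (smI (WI K (w0 + w1 + k)) F : ℝ) * (WW (w0 + w1 + k) : ℝ) ^ (eK K * r)
          < τ * (WW (w0 + w1 + k) : ℝ) ^ (eK K * (n + 1))) ∪
      MN_Bad_T K n d B H q (w0 + w1 + k) A ρ τ) := by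
    intro F hF
    rw [Finset.mem_filter] at hF
    obtain ⟨hbox, hR, hPS, hno⟩ := hF
    rw [Finset.mem_union, Finset.mem_union]
    by_cases h1 : ∀ v : InfinitePlace K, ∃ S : Fin r → Fin (n + 1), Function.Injective S ∧
          Rob v 0 S ρ (scF v A F)
    · right
      by_cases h3 : (smI (WI K (w0 + w1 + k)) F : ℝ) * (WW (w0 + w1 + k) : ℝ) ^ (eK K * r)
          < τ * (WW (w0 + w1 + k) : ℝ) ^ (eK K * (n + 1))
      · left
        rw [Finset.mem_filter]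
        exact ⟨hbox, hPS, h3⟩
      · right
        unfold MN_Bad_T
        rw [Finset.mem_filter]
        refine ⟨hbox, ?_, h1, not_lt.1 h3⟩
        unfold Nn
        rw [Finset.card_eq_zero, Finset.filter_eq_empty_iff]
        intro x hx hex
        apply hno
        refine ⟨x, ?_, ?_, hex⟩
        · intro h0
          have := GG_ne hB1 hx
          rw [h0] at this
          exact this rfl
        · intro i v
          have h4 := GG_le hx i v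
          rw [← hDD, ← hι0]
          calc (v (x i : K)) ^ ι ≤ (B : ℝ) ^ ι := pow_le_pow_left₀ (v_nonneg _ _) h4 _
            _ ≤ ((2 ^ D0 * k : ℕ) : ℝ) * (A : ℝ) ^ r := by exact_mod_cast hgM
    · left
      rw [Finset.mem_filter]
      exact ⟨hbox, hR, h1⟩
  have hcard := (Finset.card_le_card hsub).trans ((Finset.card_union_le _ _).trans
    (Nat.add_le_add_left (Finset.card_union_le _ _) _))
  have hcard' : ((((TBox K n d A).filter fun F => (∀ v, RSol v F) ∧ PSol F ∧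
        ¬ ∃ x : Vc n (𝓞 K), x ≠ 0 ∧
          (∀ i, ∀ v : InfinitePlace K, (v (x i : K)) ^ (n + 1 - ∑ i, d i) ≤ ((2 ^ D0 * k : ℕ) : ℝ) * (A : ℝ) ^ r) ∧
          ∀ i, ev (F i) x = 0).card : ℕ) : ℝ) ≤
      ((((TBox K n d A).filter fun F => (∀ v, RSol v F) ∧
        ¬ ∀ v : InfinitePlace K, ∃ S : Fin r → Fin (n + 1), Function.Injective S ∧
          Rob v 0 S ρ (scF v A F)).card : ℕ) : ℝ) +
      (((((TBox K n d A).filter fun F => PSol F ∧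
        (smI (WI K (w0 + w1 + k)) F : ℝ) * (WW (w0 + w1 + k) : ℝ) ^ (eK K * r)
          < τ * (WW (w0 + w1 + k) : ℝ) ^ (eK K * (n + 1))).card : ℕ) : ℝ) +
      ((MN_Bad_T K n d B H q (w0 + w1 + k) A ρ τ).card : ℝ)) := by
    exact_mod_cast hcard
  have hpos : 0 ≤ ε / 4 * (A : ℝ) ^ (eK K * VV n d) := by positivity
  refine (hcard'.trans (add_le_add hreal' (add_le_add hloc' hTo))).trans ?_
  linarith

end Pool.Agent.Lib.MP_1ad228_ntN
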