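import Pool.Agent.Lib.MP_1ad228_ntN.MN_Par
import Pool.Agent.Lib.MP_1ad228_ntN.HG_Bad
import Pool.Agent.Lib.MP_1ad228_ntN.CN_ManyU

/-!
JOB MN_GG.  Many test points. (Model with proof: MN_Pos_GG in Lib/MP_1ad228_ntF/MN_Pos.lean.)

PROOF.  `c1, B0` from `manyU K n`, `C` from `badX K n`, `e = eK K ≥ 1` (`eK_pos`).  `L = g^l`.  For `g ≥ g1`: `B = g^(n l+1) ≥ g ≥ B0`, the hypotheses of `badX`: `1 ≤ L`, `C g^l ≤ g^(l+2)`, `C g^l ≤ g^(n l+1)`,
`C g^(n l+1) ≤ g^(l+2) (g^l)^(n-1) = g^(n l+2)` (`g ≥ C`), and `B^n L^n = B^(n+1)/g`, so the number of not `H`-good vectors is at most `C (B^(n+1))^e ((Nat.log 2 (g^l) + 2)/g)^e ≤ (c1/2) B^(e(n+1))` (`lgSmall l e`).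
`GG K B H 4 o` contains the `Uni` vectors of `manyU` which are `H`-good.
-/

namespace Pool.Agent.Lib.MP_1ad228_ntN

open NumberField Classical

set_option linter.unusedSectionVars false

variable (K : Type) [Field K] [NumberField K]

theorem manyGG (n l : ℕ) (hn : 1 ≤ n) (hl : 1 ≤ l) : ∃ c : ℝ, 0 < c ∧ ∃ g1 : ℕ, 1 ≤ g1 ∧
    ∀ g : ℕ, g1 ≤ g → ∀ B H : ℕ, B = g ^ (n * l + 1) → H = g ^ (l + 2) → ∀ o : Fin (n + 1),
    c * (B : ℝ) ^ (eK K * (n + 1)) ≤ ((GG K B H 4 o).card : ℝ) := by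
  obtain ⟨c1, hc1, B0, hmany⟩ := manyU K n hn
  obtain ⟨C, hC, hbad⟩ := badX K n hn
  obtain ⟨g0, hg0, hlog⟩ := lgSmall l (eK K) eK_pos C (c1 / 2) (half_pos hc1)
  obtain ⟨cC, hcC⟩ : ∃ p : ℕ, p = ⌈C⌉₊ := ⟨_, rfl⟩
  refine ⟨c1 / 2, half_pos hc1, g0 + B0 + cC + 1, by omega, fun g hg B H hB hH o => ?_⟩
  have hg1 : 1 ≤ g := by omega
  have hg1r : (1 : ℝ) ≤ g := by exact_mod_cast hg1
  have hg0r : (0 : ℝ) < g := by linarith
  have hCg : C ≤ (g : ℝ) := by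
    have h1 : C ≤ (cC : ℝ) := by rw [hcC]; exact Nat.le_ceil C
    have h2 : ((cC : ℕ) : ℝ) ≤ (g : ℝ) := by
      have : cC ≤ g := by omega
      exact_mod_cast this
    linarith
  have hgB : g ≤ B := by
    rw [hB]
    exact Nat.le_self_pow (by omega) g
  have hBr : (B : ℝ) = (g : ℝ) ^ (n * l) * g := by
    rw [hB]
    push_cast
    rw [pow_succ]
  have hHr : (H : ℝ) = (g : ℝ) ^ (l + 2) := by
    rw [hH]
    push_cast
    rfl
  have hB0 : (0 : ℝ) < B := by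
    rw [hBr]
    positivity
  have hLr : ((g ^ l : ℕ) : ℝ) = (g : ℝ) ^ l := by push_cast; rfl
  have hb := hbad B H (g ^ l) (Nat.one_le_pow _ _ hg1) (by
      rw [hLr, hHr]
      calc C * (g : ℝ) ^ l ≤ (g : ℝ) * (g : ℝ) ^ l := mul_le_mul_of_nonneg_right hCg (by positivity)
        _ = (g : ℝ) ^ (l + 1) := by rw [pow_succ']
        _ ≤ (g : ℝ) ^ (l + 2) := pow_le_pow_right₀ hg1r (by omega)) (by
      rw [hLr, hBr]
      calc C * (g : ℝ) ^ l ≤ (g : ℝ) * (g : ℝ) ^ l := mul_le_mul_of_nonneg_right hCg (by positivity)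
        _ = (g : ℝ) ^ l * g := by ring
        _ ≤ (g : ℝ) ^ (n * l) * g := by
            refine mul_le_mul_of_nonneg_right (pow_le_pow_right₀ hg1r ?_) hg0r.le
            exact Nat.le_mul_of_pos_left l (by omega)) (by
      rw [hLr, hBr, hHr]
      have h1 : (g : ℝ) ^ (l + 2) * ((g : ℝ) ^ l) ^ (n - 1) = g * ((g : ℝ) ^ (n * l) * g) := by
        obtain ⟨m, rfl⟩ : ∃ m, n = m + 1 := ⟨n - 1, by omega⟩
        rw [← pow_mul, ← pow_add, Nat.add_sub_cancel]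
        have h2 : l + 2 + l * m = (m + 1) * l + 1 + 1 := by ring
        rw [h2, pow_succ, pow_succ]
        ring
      rw [h1]
      exact mul_le_mul_of_nonneg_right hCg (by positivity))
  have hmm := hmany B (by omega) o
  have hlg := hlog g (by omega)
  have hbound : C * ((B : ℝ) ^ n * ((g ^ l : ℕ) : ℝ) ^ n) ^ eK K * ((Nat.log 2 (g ^ l) : ℝ) + 2) ^ eK K ≤
      c1 / 2 * (B : ℝ) ^ (eK K * (n + 1)) := by
    have h1 : (B : ℝ) ^ n * ((g ^ l : ℕ) : ℝ) ^ n = (B : ℝ) ^ (n + 1) / g := by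
      rw [hLr, ← pow_mul, mul_comm l n, eq_div_iff hg0r.ne', pow_succ, mul_assoc]
      congr 1
      exact hBr.symm
    have h2 : C * ((B : ℝ) ^ (n + 1) / g) ^ eK K * ((Nat.log 2 (g ^ l) : ℝ) + 2) ^ eK K =
        C * (((Nat.log 2 (g ^ l) : ℝ) + 2) / g) ^ eK K * (B : ℝ) ^ (eK K * (n + 1)) := by
      rw [div_pow, div_pow, ← pow_mul, mul_comm (n + 1) (eK K)]
      ring
    rw [h1, h2]
    exact mul_le_mul_of_nonneg_right hlg (by positivity)
  have hsub : ((VBox K n B).filter fun x => (∀ v : InfinitePlace K, (B : ℝ) ≤ 4 * v (x o : K)) ∧ Uni x) ⊆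
      GG K B H 4 o ∪ ((VBox K n B).filter fun x => ¬ HGood H x) := by
    intro x hx
    rw [Finset.mem_filter] at hx
    rw [Finset.mem_union]
    by_cases h : HGood H x
    · left
      unfold GG
      rw [Finset.mem_filter]
      exact ⟨hx.1, fun v => by exact_mod_cast hx.2.1 v, hx.2.2, h⟩
    · right
      rw [Finset.mem_filter]
      exact ⟨hx.1, h⟩
  have hcard := (Finset.card_le_card hsub).trans (Finset.card_union_le _ _)
  have hcard' : (((VBox K n B).filter fun x => (∀ v : InfinitePlace K, (B : ℝ) ≤ 4 * v (x o : K)) ∧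
      Uni x).card : ℝ) ≤
      ((GG K B H 4 o).card : ℝ) + (((VBox K n B).filter fun x => ¬ HGood H x).card : ℝ) := by
    exact_mod_cast hcard
  have h9 : c1 * (B : ℝ) ^ (eK K * (n + 1)) =
      c1 / 2 * (B : ℝ) ^ (eK K * (n + 1)) + c1 / 2 * (B : ℝ) ^ (eK K * (n + 1)) := by ring
  linarith

end Pool.Agent.Lib.MP_1ad228_ntN
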