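import Pool.Agent.Lib.MP_1ad228_ntN.MN_Bad
import Pool.Agent.Lib.MP_1ad228_ntN.MN_Pos
import Pool.Agent.Lib.MP_1ad228_ntN.B_MainK
import Pool.Agent.Lib.MP_1ad228_ntN.B_PosK

/-!
Fano complete intersections of dimension at least 2 over number fields, all cases.
Either `2 r < n (n + 1 - ∑ d)`, or `n = 2 r` and all degrees are 2 (because `2 r ≤ ∑ d ≤ n`).
-/

namespace Pool.Agent.Lib.MP_1ad228_ntN

open NumberField Classical

private theorem Main_border {r n : ℕ} (hn : r + 2 ≤ n) (d : Fin r → ℕ) (hd : ∀ i, 2 ≤ d i)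
    (hD : ∑ i, d i ≤ n) (h2 : ¬ 2 * r < n * (n + 1 - ∑ i, d i)) :
    2 ≤ r ∧ n = 2 * r ∧ d = fun _ => 2 := by
  have h1 : 2 * r ≤ ∑ i, d i := by
    have h := Finset.sum_le_sum (s := Finset.univ) fun i _ => hd i
    simpa [mul_comm] using h
  have h3 : n * 1 ≤ n * (n + 1 - ∑ i, d i) := Nat.mul_le_mul_left n (by omega)
  have h4 : n = 2 * r := by omega
  have h5 : ∑ i, d i = 2 * r := by omega
  refine ⟨by omega, h4, ?_⟩
  funext i
  by_contra hi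
  have h6 : ∑ _i : Fin r, 2 < ∑ i, d i :=
    Finset.sum_lt_sum (fun j _ => hd j)
      ⟨i, Finset.mem_univ i, lt_of_le_of_ne (hd i) (Ne.symm hi)⟩
  have h7 : ∑ _i : Fin r, 2 = 2 * r := by simp [mul_comm]
  omega

theorem mainFano (K : Type) [Field K] [NumberField K] {r : ℕ} (hr : 1 ≤ r) (n : ℕ)
    (hn : r + 2 ≤ n) (d : Fin r → ℕ) (hd : ∀ i, 2 ≤ d i) (hD : ∑ i, d i ≤ n) :
    MainP K n d := by
  by_cases h2 : 2 * r < n * (n + 1 - ∑ i, d i)
  · exact mainN K hr n hn d hd hD h2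
  · obtain ⟨h3, rfl, rfl⟩ := Main_border hn d hd hD h2
    exact mainB K r h3

theorem posFano (K : Type) [Field K] [NumberField K] {r : ℕ} (hr : 1 ≤ r) (n : ℕ)
    (hn : r + 2 ≤ n) (d : Fin r → ℕ) (hd : ∀ i, 2 ≤ d i) (hD : ∑ i, d i ≤ n) :
    PosP K n d := by
  by_cases h2 : 2 * r < n * (n + 1 - ∑ i, d i)
  · exact posN K hr n hn d hd hD h2
  · obtain ⟨h3, rfl, rfl⟩ := Main_border hn d hd hD h2
    exact posB K r h3

end Pool.Agent.Lib.MP_1ad228_ntN
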