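import Pool.Agent.Lib.MP_1ad228_ntN.NB_Em

/-!
Coordinates with respect to a basis of the ring of integers, real coordinates, rounding.
-/

namespace Pool.Agent.Lib.MP_1ad228_ntN

open NumberField Classical

set_option linter.unusedSectionVars false

section bas
variable (K : Type) [Field K] [NumberField K]

/-- Index equivalence of the basis. -/
noncomputable def basE : Module.Free.ChooseBasisIndex ℤ (𝓞 K) ≃ Fin (eK K) :=
  Fintype.equivFinOfCardEq (by
    rw [← Module.finrank_eq_card_chooseBasisIndex, RingOfIntegers.rank]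
    rfl)

/-- A basis of the ring of integers indexed by `Fin (eK K)`. -/
noncomputable def bas : Module.Basis (Fin (eK K)) ℤ (𝓞 K) :=
  (RingOfIntegers.basis K).reindex (basE K)

variable {K}

/-- Coordinates of an integer. -/
noncomputable def co (z : 𝓞 K) (i : Fin (eK K)) : ℤ := (bas K).repr z i

/-- The element of the completion at `v` with real coordinates `u`. -/
noncomputable def tv (v : InfinitePlace K) (u : Fin (eK K) → ℝ) : ℂ :=
  ∑ i, (u i : ℂ) * em v (bas K i)

theorem sum_co (z : 𝓞 K) : z = ∑ i, (co z i : 𝓞 K) * bas K i := by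
  conv_lhs => rw [← (bas K).sum_repr z]
  exact Finset.sum_congr rfl fun i _ => by rw [zsmul_eq_mul]; rfl

theorem co_inj {z w : 𝓞 K} (h : ∀ i, co z i = co w i) : z = w := by
  rw [sum_co z, sum_co w]
  exact Finset.sum_congr rfl fun i _ => by rw [h i]

theorem co_add (z w : 𝓞 K) (i : Fin (eK K)) : co (z + w) i = co z i + co w i := by
  simp [co]

theorem co_sub (z w : 𝓞 K) (i : Fin (eK K)) : co (z - w) i = co z i - co w i := by
  simp [co]

theorem exists_co (c : Fin (eK K) → ℤ) : ∃ z : 𝓞 K, ∀ i, co z i = c i := by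
  refine ⟨(bas K).equivFun.symm c, fun i => ?_⟩
  have h := congrFun ((bas K).equivFun.apply_symm_apply c) i
  rw [Module.Basis.equivFun_apply] at h
  exact h

theorem em_eq_tv (v : InfinitePlace K) (z : 𝓞 K) : em v z = tv v fun i => (co z i : ℝ) := by
  conv_lhs => rw [sum_co z]
  rw [map_sum]
  unfold tv
  refine Finset.sum_congr rfl fun i _ => ?_
  rw [map_mul, map_intCast]
  simp

theorem tv_add (v : InfinitePlace K) (u w : Fin (eK K) → ℝ) : tv v (u + w) = tv v u + tv v w := by
  unfold tv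
  rw [← Finset.sum_add_distrib]
  exact Finset.sum_congr rfl fun i _ => by simp [add_mul]

theorem tv_sub (v : InfinitePlace K) (u w : Fin (eK K) → ℝ) : tv v (u - w) = tv v u - tv v w := by
  unfold tv
  rw [← Finset.sum_sub_distrib]
  exact Finset.sum_congr rfl fun i _ => by simp [sub_mul]

theorem tv_smul (v : InfinitePlace K) (c : ℝ) (u : Fin (eK K) → ℝ) :
    tv v (fun i => c * u i) = c * tv v u := by
  unfold tv
  rw [Finset.mul_sum]
  exact Finset.sum_congr rfl fun i _ => by push_cast; ring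

theorem tv_mem_KK (v : InfinitePlace K) (u : Fin (eK K) → ℝ) : tv v u ∈ KK v :=
  KK_sum _ _ fun i _ => KK_mul (KK_real v _) (em_mem_KK v _)

theorem continuous_tv (v : InfinitePlace K) : Continuous (tv v : (Fin (eK K) → ℝ) → ℂ) := by
  unfold tv
  fun_prop

variable (K)

/-- Upper bound of the absolute values by the coordinates. -/
theorem bas_upper : ∃ C : ℝ, 1 ≤ C ∧ ∀ (v : InfinitePlace K) (u : Fin (eK K) → ℝ) (X : ℝ),
    (∀ i, |u i| ≤ X) → ‖tv v u‖ ≤ C * X := by
  obtain ⟨C, hC⟩ : ∃ C : ℝ, ∀ (v : InfinitePlace K) (i : Fin (eK K)), ‖em v (bas K i)‖ ≤ C := by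
    refine ⟨∑ v : InfinitePlace K, ∑ i, ‖em v (bas K i)‖, fun v i => ?_⟩
    refine le_trans ?_ (Finset.single_le_sum (f := fun v : InfinitePlace K =>
      ∑ i, ‖em v (bas K i)‖) (fun v _ => Finset.sum_nonneg fun i _ => norm_nonneg _)
      (Finset.mem_univ v))
    exact Finset.single_le_sum (f := fun i => ‖em v (bas K i)‖) (fun i _ => norm_nonneg _)
      (Finset.mem_univ i)
  refine ⟨max 1 (eK K * C), le_max_left _ _, fun v u X hu => ?_⟩
  have hX : 0 ≤ X := (abs_nonneg _).trans (hu ⟨0, eK_pos⟩)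
  have hC0 : 0 ≤ C := (norm_nonneg _).trans (hC v ⟨0, eK_pos⟩)
  refine le_trans ?_ (mul_le_mul_of_nonneg_right (le_max_right _ _) hX)
  unfold tv
  refine (norm_sum_le _ _).trans ?_
  have h2 : ∀ i ∈ (Finset.univ : Finset (Fin (eK K))), ‖(u i : ℂ) * em v (bas K i)‖ ≤ X * C := by
    intro i _
    rw [norm_mul, Complex.norm_real]
    exact mul_le_mul (hu i) (hC v i) (norm_nonneg _) hX
  refine (Finset.sum_le_card_nsmul _ _ _ h2).trans ?_
  rw [nsmul_eq_mul, Finset.card_univ, Fintype.card_fin]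
  exact le_of_eq (by ring)

/-- The element of the mixed space with given coordinates. -/
theorem mixed_apply (u : Fin (eK K) → ℝ) :
    (∀ w : {w : InfinitePlace K // w.IsReal},
      (((∑ i, u i • mixedEmbedding K (bas K i : K)).1 w : ℝ) : ℂ) = tv w.1 u) ∧
    (∀ w : {w : InfinitePlace K // w.IsComplex},
      (∑ i, u i • mixedEmbedding K (bas K i : K)).2 w = tv w.1 u) := by
  constructor
  · intro w
    rw [Prod.fst_sum, Finset.sum_apply]
    unfold tv
    push_cast
    refine Finset.sum_congr rfl fun i _ => ?_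
    rw [Prod.smul_fst, Pi.smul_apply, smul_eq_mul, mixedEmbedding.mixedEmbedding_apply_isReal]
    push_cast
    rw [InfinitePlace.embedding_of_isReal_apply]
    rfl
  · intro w
    rw [Prod.snd_sum, Finset.sum_apply]
    unfold tv
    refine Finset.sum_congr rfl fun i _ => ?_
    rw [Prod.smul_snd, Pi.smul_apply, mixedEmbedding.mixedEmbedding_apply_isComplex]
    rw [Complex.real_smul]
    rfl

/-- The lattice basis of the mixed space, reindexed. -/
noncomputable def mb : Module.Basis (Fin (eK K)) ℝ (mixedEmbedding.mixedSpace K) :=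
  (mixedEmbedding.latticeBasis K).reindex (basE K)

theorem mb_apply (i : Fin (eK K)) : mb K i = mixedEmbedding K (bas K i : K) := by
  unfold mb bas
  rw [Module.Basis.reindex_apply, mixedEmbedding.latticeBasis_apply, Module.Basis.reindex_apply,
    integralBasis_apply]

/-- Every family of elements of the completions comes from real coordinates. -/
theorem bas_surj (c : InfinitePlace K → ℂ) (hc : ∀ v, c v ∈ KK v) :
    ∃ u : Fin (eK K) → ℝ, ∀ v, tv v u = c v := by
  let x : mixedEmbedding.mixedSpace K := (fun w => (c w.1).re, fun w => c w.1)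
  refine ⟨fun i => (mb K).repr x i, fun v => ?_⟩
  have hx : ∑ i, (mb K).repr x i • mixedEmbedding K (bas K i : K) = x := by
    conv_rhs => rw [← (mb K).sum_repr x]
    exact Finset.sum_congr rfl fun i _ => by rw [mb_apply]
  obtain ⟨h1, h2⟩ := mixed_apply K fun i => (mb K).repr x i
  rcases v.isReal_or_isComplex with hv | hv
  · have h3 := h1 ⟨v, hv⟩
    rw [hx] at h3
    rw [← h3]
    have him := hc v hv
    exact Complex.ext (by simp [x]) (by simp [x, him])
  · have h3 := h2 ⟨v, hv⟩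
    rw [hx] at h3
    rw [← h3]

/-- Bound of the coordinates by the absolute values. -/
theorem bas_lower : ∃ C : ℝ, 1 ≤ C ∧ ∀ (u : Fin (eK K) → ℝ) (X : ℝ),
    (∀ v : InfinitePlace K, ‖tv v u‖ ≤ X) → ∀ i, |u i| ≤ C * X := by
  let f : mixedEmbedding.mixedSpace K →L[ℝ] (Fin (eK K) → ℝ) :=
    LinearMap.toContinuousLinearMap (mb K).equivFun.toLinearMap
  refine ⟨max 1 ‖f‖, le_max_left _ _, fun u X hu i => ?_⟩
  obtain ⟨v0⟩ := (inferInstance : Nonempty (InfinitePlace K))
  have hX : 0 ≤ X := (norm_nonneg _).trans (hu v0)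
  refine le_trans ?_ (mul_le_mul_of_nonneg_right (le_max_right _ _) hX)
  let x : mixedEmbedding.mixedSpace K := ∑ i, u i • mixedEmbedding K (bas K i : K)
  have hx2 : x = ∑ i, u i • mb K i := Finset.sum_congr rfl fun i _ => by rw [mb_apply]
  have hfx : f x = u := by
    have h : f x = (mb K).equivFun x := rfl
    rw [h, hx2, map_sum]
    funext j
    rw [Finset.sum_apply, Finset.sum_eq_single j]
    · simp
    · intro b _ hb
      simp [Finsupp.single_apply, hb]
    · simp
  have hnx : ‖x‖ ≤ X := by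
    obtain ⟨h1, h2⟩ := mixed_apply K u
    rw [Prod.norm_def, max_le_iff, pi_norm_le_iff_of_nonneg hX, pi_norm_le_iff_of_nonneg hX]
    constructor
    · intro w
      have h3 := hu w.1
      rw [← h1 w, Complex.norm_real] at h3
      exact h3
    · intro w
      have h3 := hu w.1
      rw [← h2 w] at h3
      exact h3
  have h4 : ‖f x‖ ≤ ‖f‖ * X := (f.le_opNorm x).trans (mul_le_mul_of_nonneg_left hnx (norm_nonneg _))
  rw [hfx] at h4
  exact (norm_le_pi_norm u i).trans h4

/-- Rounding of families of elements of the completions. -/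
theorem roundC : ∃ C : ℝ, 1 ≤ C ∧ ∀ c : InfinitePlace K → ℂ, (∀ v, c v ∈ KK v) →
    ∃ z : 𝓞 K, ∀ v : InfinitePlace K, ‖em v z - c v‖ ≤ C := by
  obtain ⟨C, hC1, hC⟩ := bas_upper K
  refine ⟨C, hC1, fun c hc => ?_⟩
  obtain ⟨u, hu⟩ := bas_surj K c hc
  obtain ⟨z, hz⟩ := exists_co (K := K) fun i => ⌊u i⌋
  refine ⟨z, fun v => ?_⟩
  rw [em_eq_tv, ← hu v, ← tv_sub]
  have h := hC v ((fun i => (co z i : ℝ)) - u) 1 ?_
  · simpa using h
  · intro i
    rw [Pi.sub_apply, hz i, abs_sub_comm, abs_of_nonneg (sub_nonneg.2 (Int.floor_le _))]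
    linarith [Int.lt_floor_add_one (u i)]

/-- Rounding of elements of the number field. -/
theorem roundK : ∃ C : ℝ, 1 ≤ C ∧ ∀ t : K, ∃ z : 𝓞 K, ∀ v : InfinitePlace K,
    v (t - (z : K)) ≤ C := by
  obtain ⟨C, hC1, hC⟩ := roundC K
  refine ⟨C, hC1, fun t => ?_⟩
  have hmem : ∀ v : InfinitePlace K, v.embedding t ∈ KK v := by
    intro v h
    have h2 := InfinitePlace.conjugate_embedding_eq_of_isReal h
    have h3 : ComplexEmbedding.conjugate v.embedding t = v.embedding t := by rw [h2]
    rw [ComplexEmbedding.conjugate_coe_eq] at h3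
    exact Complex.conj_eq_iff_im.1 h3
  obtain ⟨z, hz⟩ := hC (fun v => v.embedding t) hmem
  refine ⟨z, fun v => ?_⟩
  have h := hz v
  rw [em_apply, ← map_sub, InfinitePlace.norm_embedding_eq] at h
  rw [v_sub_comm]
  exact h

/-- Coordinates of integers. -/
theorem co_upper : ∃ C : ℝ, 1 ≤ C ∧ ∀ (z : 𝓞 K) (X : ℝ), (∀ i, |(co z i : ℝ)| ≤ X) →
    ∀ v : InfinitePlace K, v (z : K) ≤ C * X := by
  obtain ⟨C, hC1, hC⟩ := bas_upper K
  refine ⟨C, hC1, fun z X h v => ?_⟩
  rw [← norm_em, em_eq_tv]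
  exact hC v _ X h

theorem co_lower : ∃ C : ℝ, 1 ≤ C ∧ ∀ (z : 𝓞 K) (X : ℝ), (∀ v : InfinitePlace K, v (z : K) ≤ X) →
    ∀ i, |(co z i : ℝ)| ≤ C * X := by
  obtain ⟨C, hC1, hC⟩ := bas_lower K
  refine ⟨C, hC1, fun z X h i => ?_⟩
  refine hC (fun i => (co z i : ℝ)) X (fun v => ?_) i
  rw [← em_eq_tv, norm_em]
  exact h v

end bas

end Pool.Agent.Lib.MP_1ad228_ntN
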