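import Pool.Agent.Lib.MP_1ad228_ntN.NB_Up

/-!
(B3), (B3w) Lower bounds for the number of elements of a residue class in a box.
-/

namespace Pool.Agent.Lib.MP_1ad228_ntN

open NumberField Classical

set_option linter.unusedSectionVars false

section low
variable (K : Type) [Field K] [NumberField K]

/-- (B3) -/
theorem OBox_lower : ∃ C : ℝ, 1 ≤ C ∧ ∀ X : ℝ, 1 ≤ X → X ^ eK K ≤ C * ((OBox K X).card : ℝ) := by
  obtain ⟨C, hC1, hC⟩ := co_upper K
  refine ⟨C ^ eK K, one_le_pow₀ hC1, fun X hX => ?_⟩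
  have hC0 : 0 < C := by linarith
  let N : ℕ := ⌊X / C⌋₊
  choose z hz using fun c : Fin (eK K) → ℤ => exists_co (K := K) c
  have hmaps : ∀ c ∈ Fintype.piFinset (fun _ : Fin (eK K) => Finset.Icc (0 : ℤ) N),
      z c ∈ OBox K X := by
    intro c hc
    rw [Fintype.mem_piFinset] at hc
    rw [mem_OBox]
    have h1 : ∀ i, |(co (z c) i : ℝ)| ≤ X / C := by
      intro i
      have h2 := Finset.mem_Icc.1 (hc i)
      rw [hz c i, abs_of_nonneg (by exact_mod_cast h2.1)]
      have h3 : ((c i : ℤ) : ℝ) ≤ (N : ℝ) := by exact_mod_cast h2.2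
      exact h3.trans (Nat.floor_le (by positivity))
    intro v
    have h2 := hC (z c) (X / C) h1 v
    rwa [mul_div_cancel₀ _ hC0.ne'] at h2
  have hinj : Set.InjOn z (Fintype.piFinset (fun _ : Fin (eK K) => Finset.Icc (0 : ℤ) N) :
      Set (Fin (eK K) → ℤ)) := by
    intro c _ c' _ h
    funext i
    rw [← hz c i, ← hz c' i, h]
  have hcard := Finset.card_le_card_of_injOn z hmaps hinj
  rw [Fintype.card_piFinset] at hcard
  simp only [Int.card_Icc, sub_zero, Finset.prod_const, Finset.card_univ, Fintype.card_fin] at hcard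
  have h1 : ((N : ℤ) + 1).toNat = N + 1 := by
    have : ((N : ℤ) + 1) = ((N + 1 : ℕ) : ℤ) := by push_cast; rfl
    rw [this, Int.toNat_natCast]
  rw [h1] at hcard
  have h2 : X / C ≤ (N : ℝ) + 1 := (Nat.lt_floor_add_one _).le
  have h3 : X ≤ C * ((N : ℝ) + 1) := by
    rw [div_le_iff₀ hC0] at h2
    linarith
  calc X ^ eK K ≤ (C * ((N : ℝ) + 1)) ^ eK K := pow_le_pow_left₀ (by linarith) h3 _
    _ = C ^ eK K * (((N + 1) ^ eK K : ℕ) : ℝ) := by rw [mul_pow]; push_cast; rfl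
    _ ≤ C ^ eK K * ((OBox K X).card : ℝ) :=
        mul_le_mul_of_nonneg_left (by exact_mod_cast hcard) (by positivity)

variable {K} in
/-- The fibres of the reduction modulo a smaller ideal. -/
theorem fibJ (I J : Ideal (𝓞 K)) (hJI : J ≤ I) (hJ : J ≠ ⊥) (z0 : 𝓞 K) :
    ∃ R : Finset (𝓞 K), (∀ z ∈ R, z - z0 ∈ I) ∧ (∀ z ∈ R, ∀ w ∈ R, z - w ∈ J → z = w) ∧
      R.card * Ideal.absNorm I = Ideal.absNorm J := by
  have : Finite (𝓞 K ⧸ J) := Ideal.finiteQuotientOfFreeOfNeBot J hJ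
  have hI : I ≠ ⊥ := fun h => hJ (le_bot_iff.1 (h ▸ hJI))
  have : Finite (𝓞 K ⧸ I) := Ideal.finiteQuotientOfFreeOfNeBot I hI
  have := Fintype.ofFinite (𝓞 K ⧸ J)
  have := Fintype.ofFinite (𝓞 K ⧸ I)
  let f : (𝓞 K ⧸ J) →+* (𝓞 K ⧸ I) := Ideal.Quotient.factor hJI
  have hf : ∀ z : 𝓞 K, f (Ideal.Quotient.mk J z) = Ideal.Quotient.mk I z := fun z =>
    Ideal.Quotient.factor_mk hJI z
  let Fb : (𝓞 K ⧸ I) → Finset (𝓞 K ⧸ J) := fun b => Finset.univ.filter fun a => f a = b
  have hsame : ∀ b : 𝓞 K ⧸ I, (Fb b).card = (Fb (Ideal.Quotient.mk I z0)).card := by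
    intro b
    obtain ⟨w, rfl⟩ := Ideal.Quotient.mk_surjective b
    refine Finset.card_bij (fun a _ => a + Ideal.Quotient.mk J (z0 - w)) ?_ ?_ ?_
    · intro a ha
      simp only [Fb, Finset.mem_filter, Finset.mem_univ, true_and] at ha ⊢
      rw [map_add, ha, hf, ← map_add]
      congr 1
      ring
    · intro a _ a' _ h
      exact add_right_cancel h
    · intro a ha
      refine ⟨a - Ideal.Quotient.mk J (z0 - w), ?_, by ring⟩
      simp only [Fb, Finset.mem_filter, Finset.mem_univ, true_and] at ha ⊢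
      rw [map_sub, ha, hf, ← map_sub]
      congr 1
      ring
  have hsum : Fintype.card (𝓞 K ⧸ J) = Fintype.card (𝓞 K ⧸ I) *
      (Fb (Ideal.Quotient.mk I z0)).card := by
    rw [← Finset.card_univ, Finset.card_eq_sum_card_fiberwise (f := f) (t := Finset.univ)
      (fun _ _ => Finset.mem_univ _)]
    rw [Finset.sum_congr rfl fun b _ => hsame b, Finset.sum_const, smul_eq_mul, Finset.card_univ]
  choose g hg using Ideal.Quotient.mk_surjective (I := J)
  refine ⟨(Fb (Ideal.Quotient.mk I z0)).image g, ?_, ?_, ?_⟩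
  · intro z hz
    obtain ⟨a, ha, rfl⟩ := Finset.mem_image.1 hz
    simp only [Fb, Finset.mem_filter, Finset.mem_univ, true_and] at ha
    rw [← Ideal.Quotient.eq, ← hf, hg, ha]
  · intro z hz w hw h
    obtain ⟨a, ha, rfl⟩ := Finset.mem_image.1 hz
    obtain ⟨b, hb, rfl⟩ := Finset.mem_image.1 hw
    rw [← Ideal.Quotient.eq, hg, hg] at h
    rw [h]
  · have hgi : Function.Injective g := fun a b h => by rw [← hg a, ← hg b, h]
    rw [Finset.card_image_of_injective _ hgi, mul_comm]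
    have h1 : Ideal.absNorm I = Fintype.card (𝓞 K ⧸ I) := by
      rw [Ideal.absNorm_apply, Submodule.cardQuot_apply, Nat.card_eq_fintype_card]
    have h2 : Ideal.absNorm J = Fintype.card (𝓞 K ⧸ J) := by
      rw [Ideal.absNorm_apply, Submodule.cardQuot_apply, Nat.card_eq_fintype_card]
    rw [h1, h2, hsum]

/-- (B3w) -/
theorem lowW : ∃ C : ℝ, 1 ≤ C ∧ ∀ (I : Ideal (𝓞 K)) (δ : 𝓞 K), δ ∈ I → δ ≠ 0 →
    ∀ T : ℝ, 1 ≤ T → ∀ c : InfinitePlace K → ℂ, (∀ v, c v ∈ KK v) → ∀ z0 : 𝓞 K,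
    ∃ S : Finset (𝓞 K), (∀ z ∈ S, z - z0 ∈ I ∧
      ∀ v : InfinitePlace K, ‖em v z - c v‖ ≤ C * T * v (δ : K)) ∧
      T ^ eK K * (pn (fun v : InfinitePlace K => v (δ : K)) / Ideal.absNorm I) ≤
        C * (S.card : ℝ) := by
  obtain ⟨C1, hC11, hC1⟩ := roundC K
  obtain ⟨C2, hC21, hC2⟩ := OBox_lower K
  refine ⟨max (2 * C1) C2, le_max_of_le_right hC21, fun I δ hδ hδ0 T hT c hc z0 => ?_⟩
  have hJ : Ideal.span {δ} ≠ (⊥ : Ideal (𝓞 K)) := by
    rwa [Ne, Ideal.span_singleton_eq_bot]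
  have hJI : Ideal.span {δ} ≤ I := by
    rwa [Ideal.span_singleton_le_iff_mem]
  obtain ⟨R, hR1, hR2, hR3⟩ := fibJ I (Ideal.span {δ}) hJI hJ z0
  have hemδ : ∀ v : InfinitePlace K, em v δ ≠ 0 := by
    intro v h
    have h1 := norm_em v δ
    rw [h, norm_zero] at h1
    exact (v_pos v (z := (δ : K)) (by simpa using hδ0)).ne h1
  have hw : ∀ z1 : 𝓞 K, ∃ w : 𝓞 K, ∀ v : InfinitePlace K,
      ‖em v w - (c v - em v z1) / em v δ‖ ≤ C1 := fun z1 =>
    hC1 (fun v => (c v - em v z1) / em v δ) fun v =>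
      KK_div (KK_sub (hc v) (em_mem_KK v z1)) (em_mem_KK v δ)
  choose w hw using hw
  let S : Finset (𝓞 K) := (R ×ˢ OBox K T).image fun p => p.1 + δ * (w p.1 + p.2)
  refine ⟨S, ?_, ?_⟩
  · intro z hz
    obtain ⟨p, hp, rfl⟩ := Finset.mem_image.1 hz
    rw [Finset.mem_product] at hp
    refine ⟨?_, fun v => ?_⟩
    · have h1 : p.1 + δ * (w p.1 + p.2) - z0 = (p.1 - z0) + (w p.1 + p.2) * δ := by ring
      rw [h1]
      exact I.add_mem (hR1 _ hp.1) (I.mul_mem_left _ hδ)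
    · have h1 : em v (p.1 + δ * (w p.1 + p.2)) - c v =
          em v δ * ((em v (w p.1) - (c v - em v p.1) / em v δ) + em v p.2) := by
        have := hemδ v
        rw [map_add, map_mul, map_add]
        field_simp
        ring
      rw [h1, norm_mul, norm_em, mul_comm]
      refine mul_le_mul_of_nonneg_right ?_ (v_nonneg v _)
      refine (norm_add_le _ _).trans ?_
      have h2 := hw p.1 v
      have h3 : ‖em v p.2‖ ≤ T := by rw [norm_em]; exact mem_OBox.1 hp.2 v
      have h4 : 2 * C1 ≤ max (2 * C1) C2 := le_max_left _ _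
      nlinarith
  · have hinj : Set.InjOn (fun p : 𝓞 K × 𝓞 K => p.1 + δ * (w p.1 + p.2))
        (R ×ˢ OBox K T : Finset (𝓞 K × 𝓞 K)) := by
      intro p hp p' hp' h
      rw [Finset.mem_coe, Finset.mem_product] at hp hp'
      have h1 : p.1 - p'.1 ∈ Ideal.span {δ} := by
        rw [Ideal.mem_span_singleton]
        refine ⟨(w p'.1 + p'.2) - (w p.1 + p.2), ?_⟩
        simp only at h
        linear_combination h
      have h2 := hR2 _ hp.1 _ hp'.1 h1
      simp only [h2] at h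
      have h3 : δ * (w p'.1 + p.2) = δ * (w p'.1 + p'.2) := add_left_cancel h
      have h4 := mul_left_cancel₀ hδ0 h3
      exact Prod.ext h2 (add_left_cancel h4)
    have hcard : S.card = R.card * (OBox K T).card := by
      rw [Finset.card_image_of_injOn hinj, Finset.card_product]
    have hI : I ≠ ⊥ := fun h => hJ (le_bot_iff.1 (h ▸ hJI))
    have hN0 : (0 : ℝ) < Ideal.absNorm I := by linarith [one_le_absNorm hI]
    have h1 : pn (fun v : InfinitePlace K => v (δ : K)) / Ideal.absNorm I = R.card := by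
      rw [← absNorm_span_eq, ← hR3]
      push_cast
      field_simp
    rw [h1, hcard]
    push_cast
    have h2 := hC2 T hT
    have h3 : C2 ≤ max (2 * C1) C2 := le_max_right _ _
    have h4 : (0 : ℝ) ≤ R.card := Nat.cast_nonneg _
    have h5 : (0 : ℝ) ≤ (OBox K T).card := Nat.cast_nonneg _
    calc T ^ eK K * (R.card : ℝ) ≤ (C2 * ((OBox K T).card : ℝ)) * R.card :=
          mul_le_mul_of_nonneg_right h2 h4
      _ ≤ (max (2 * C1) C2 * ((OBox K T).card : ℝ)) * R.card :=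
          mul_le_mul_of_nonneg_right (mul_le_mul_of_nonneg_right h3 h5) h4
      _ = max (2 * C1) C2 * (R.card * ((OBox K T).card : ℝ)) := by ring

end low

end Pool.Agent.Lib.MP_1ad228_ntN
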