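import Pool.Agent.Lib.MP_1ad228_ntN.NB_Bas

/-!
(B2) Upper bound for the number of elements of an ideal (or of a residue class) in a box.
-/

namespace Pool.Agent.Lib.MP_1ad228_ntN

open NumberField Classical

set_option linter.unusedSectionVars false

section up
variable {K : Type} [Field K] [NumberField K]

/-- Cell of the point `z` at the place `v`, side `s`. -/
noncomputable def cel (s : ℝ) (v : InfinitePlace K) (z : 𝓞 K) : ℤ × ℤ :=
  (⌊(em v z).re / s⌋, ⌊(em v z).im / s⌋)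

theorem floor_close {a b s : ℝ} (hs : 0 < s) (h : ⌊a / s⌋ = ⌊b / s⌋) : |a - b| ≤ s := by
  have h1 := Int.floor_le (a / s)
  have h2 := Int.lt_floor_add_one (a / s)
  have h3 := Int.floor_le (b / s)
  have h4 := Int.lt_floor_add_one (b / s)
  rw [h] at h1 h2
  have h5 : a = a / s * s := by field_simp
  have h6 : b = b / s * s := by field_simp
  rw [abs_le]
  constructor <;> nlinarith

theorem cel_close {s : ℝ} (hs : 0 < s) (v : InfinitePlace K) {z w : 𝓞 K}
    (h : cel s v z = cel s v w) : v ((z - w : 𝓞 K) : K) ≤ 2 * s := by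
  have h1 : ⌊(em v z).re / s⌋ = ⌊(em v w).re / s⌋ := (Prod.ext_iff.1 h).1
  have h2 : ⌊(em v z).im / s⌋ = ⌊(em v w).im / s⌋ := (Prod.ext_iff.1 h).2
  rw [← norm_em, map_sub]
  refine (Complex.norm_le_abs_re_add_abs_im _).trans ?_
  rw [Complex.sub_re, Complex.sub_im]
  linarith [floor_close hs h1, floor_close hs h2]

/-- Integers `⌊a / s⌋` with `a` in an interval of length `2 ρ`. -/
theorem floor_mem {a b s ρ : ℝ} (hs : 0 < s) (h : |a - b| ≤ ρ) :
    ⌊a / s⌋ ∈ Finset.Icc (⌊(b - ρ) / s⌋) (⌊(b + ρ) / s⌋) := by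
  rw [Finset.mem_Icc]
  rw [abs_le] at h
  constructor
  · exact Int.floor_mono (by
      apply div_le_div_of_nonneg_right _ hs.le
      linarith)
  · exact Int.floor_mono (by
      apply div_le_div_of_nonneg_right _ hs.le
      linarith)

theorem card_floor {b s ρ : ℝ} (hs : 0 < s) (hρ : 0 ≤ ρ) :
    ((Finset.Icc (⌊(b - ρ) / s⌋) (⌊(b + ρ) / s⌋)).card : ℝ) ≤ 2 * ρ / s + 2 := by
  have h1 := Int.floor_le ((b + ρ) / s)
  have h2 := Int.lt_floor_add_one ((b - ρ) / s)
  have h3 : (b + ρ) / s - (b - ρ) / s = 2 * ρ / s := by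
    field_simp
    ring
  rw [Int.card_Icc]
  have h4 : (⌊(b - ρ) / s⌋ : ℤ) ≤ ⌊(b + ρ) / s⌋ := Int.floor_mono (by
    apply div_le_div_of_nonneg_right _ hs.le
    linarith)
  have h5 : (((⌊(b + ρ) / s⌋ + 1 - ⌊(b - ρ) / s⌋).toNat : ℕ) : ℝ) =
      ((⌊(b + ρ) / s⌋ + 1 - ⌊(b - ρ) / s⌋ : ℤ) : ℝ) := by
    have h6 : ((⌊(b + ρ) / s⌋ + 1 - ⌊(b - ρ) / s⌋).toNat : ℤ) =
        ⌊(b + ρ) / s⌋ + 1 - ⌊(b - ρ) / s⌋ := Int.toNat_of_nonneg (by linarith)
    exact_mod_cast h6
  rw [h5]
  push_cast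
  linarith

/-- (B2) Points with differences in an ideal and in a box. -/
theorem up (S : Finset (𝓞 K)) (I : Ideal (𝓞 K)) (hI : I ≠ ⊥) (ρ : InfinitePlace K → ℝ)
    (hρ : ∀ v, 0 < ρ v)
    (h : ∀ z ∈ S, ∀ w ∈ S, z - w ∈ I ∧ ∀ v : InfinitePlace K, v ((z - w : 𝓞 K) : K) ≤ ρ v) :
    (S.card : ℝ) ≤ 16 ^ eK K * (1 + pn ρ / Ideal.absNorm I) := by
  rcases S.eq_empty_or_nonempty with rfl | ⟨z0, hz0⟩
  · simp only [Finset.card_empty, Nat.cast_zero]
    have := pn_pos hρ
    positivity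
  have hN : (1 : ℝ) ≤ Ideal.absNorm I := one_le_absNorm hI
  have hN0 : (0 : ℝ) < Ideal.absNorm I := by linarith
  have hP : 0 < pn ρ := pn_pos hρ
  have he : eK K ≠ 0 := eK_pos.ne'
  -- the side of the cells
  let q : ℝ := (pn ρ / Ideal.absNorm I) ^ ((eK K : ℝ)⁻¹)
  have hq0 : 0 < q := Real.rpow_pos_of_pos (div_pos hP hN0) _
  have hqe : q ^ eK K = pn ρ / Ideal.absNorm I := by
    rw [← Real.rpow_natCast, ← Real.rpow_mul (div_pos hP hN0).le,
      inv_mul_cancel₀ (by exact_mod_cast he), Real.rpow_one]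
  let s : ℝ := 1 / (4 * (max 1 q))
  have hm0 : (0 : ℝ) < max 1 q := lt_max_of_lt_left one_pos
  have hs0 : 0 < s := by positivity
  have hinj : Set.InjOn (fun z => fun v : InfinitePlace K => cel (s * ρ v) v z) (S : Set (𝓞 K)) := by
    intro z hz w hw hzw
    by_contra hne
    have h1 : ∀ v : InfinitePlace K, v ((z - w : 𝓞 K) : K) ≤ 2 * s * ρ v := by
      intro v
      have h2 := cel_close (mul_pos hs0 (hρ v)) v (congrFun hzw v)
      linarith
    have h2 := absNorm_le_pn (h z hz w hw).1 (sub_ne_zero.2 hne)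
    have h3 : pn (fun v : InfinitePlace K => v ((z - w : 𝓞 K) : K)) ≤ (2 * s) ^ eK K * pn ρ := by
      rw [← pn_const_mul]
      exact pn_mono (fun v => v_nonneg v _) h1
    have h4 : (2 * s) ^ eK K * pn ρ < Ideal.absNorm I := by
      have h5 : pn ρ = q ^ eK K * Ideal.absNorm I := by
        rw [hqe]
        field_simp
      rw [h5, ← mul_assoc, ← mul_pow]
      have h6 : 2 * s * q ≤ 1 / 2 := by
        have h7 : 2 * s * q = q / (2 * max 1 q) := by
          simp only [s]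
          field_simp
          norm_num
        rw [h7, div_le_iff₀ (by positivity)]
        have := le_max_right 1 q
        linarith
      have h8 : (2 * s * q) ^ eK K ≤ (1 / 2) ^ eK K := pow_le_pow_left₀ (by positivity) h6 _
      have h9 : ((1 : ℝ) / 2) ^ eK K < 1 := pow_lt_one₀ (by norm_num) (by norm_num) he
      nlinarith
    linarith
  -- the cells lie in a product of intervals
  let T : InfinitePlace K → Finset (ℤ × ℤ) := fun v =>
    (Finset.Icc (⌊((em v z0).re - ρ v) / (s * ρ v)⌋) (⌊((em v z0).re + ρ v) / (s * ρ v)⌋)) ×ˢ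
      (if v.IsReal then {0} else
        Finset.Icc (⌊((em v z0).im - ρ v) / (s * ρ v)⌋) (⌊((em v z0).im + ρ v) / (s * ρ v)⌋))
  have hmaps : ∀ z ∈ S, (fun v : InfinitePlace K => cel (s * ρ v) v z) ∈
      Fintype.piFinset T := by
    intro z hz
    rw [Fintype.mem_piFinset]
    intro v
    have h1 : ‖em v z - em v z0‖ ≤ ρ v := by
      rw [← map_sub, norm_em]
      exact (h z hz z0 hz0).2 v
    have hre : |(em v z).re - (em v z0).re| ≤ ρ v := by
      rw [← Complex.sub_re]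
      exact (Complex.abs_re_le_norm _).trans h1
    have him : |(em v z).im - (em v z0).im| ≤ ρ v := by
      rw [← Complex.sub_im]
      exact (Complex.abs_im_le_norm _).trans h1
    simp only [T, Finset.mem_product, cel]
    refine ⟨floor_mem (mul_pos hs0 (hρ v)) hre, ?_⟩
    split_ifs with hv
    · rw [Finset.mem_singleton, em_mem_KK v z hv]
      simp
    · exact floor_mem (mul_pos hs0 (hρ v)) him
  have hT : ∀ v, ((T v).card : ℝ) ≤ (16 * max 1 q) ^ v.mult := by
    intro v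
    have h1 : ∀ b : ℝ, ((Finset.Icc (⌊(b - ρ v) / (s * ρ v)⌋)
        (⌊(b + ρ v) / (s * ρ v)⌋)).card : ℝ) ≤ 16 * max 1 q := by
      intro b
      refine (card_floor (mul_pos hs0 (hρ v)) (hρ v).le).trans ?_
      have h2 : 2 * ρ v / (s * ρ v) = 8 * max 1 q := by
        have := (hρ v).ne'
        simp only [s]
        field_simp
        norm_num
      rw [h2]
      have := le_max_left 1 q
      linarith
    simp only [T, Finset.card_product]
    push_cast
    split_ifs with hv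
    · rw [hv.mult_eq_one, pow_one, Finset.card_singleton, Nat.cast_one, mul_one]
      exact h1 _
    · rw [(InfinitePlace.not_isReal_iff_isComplex.1 hv).mult_eq_two, pow_two]
      exact mul_le_mul (h1 _) (h1 _) (Nat.cast_nonneg _) (by positivity)
  have hcard : S.card ≤ ∏ v, (T v).card := by
    rw [← Fintype.card_piFinset]
    exact Finset.card_le_card_of_injOn _ hmaps hinj
  have h1 : (S.card : ℝ) ≤ ∏ v, ((T v).card : ℝ) := by exact_mod_cast hcard
  refine h1.trans ?_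
  have h2 : ∏ v, ((T v).card : ℝ) ≤ pn (fun _ : InfinitePlace K => 16 * max 1 q) :=
    Finset.prod_le_prod (fun v _ => Nat.cast_nonneg _) fun v _ => hT v
  refine h2.trans ?_
  rw [pn_const, mul_pow]
  refine mul_le_mul_of_nonneg_left ?_ (by positivity)
  rcases le_total 1 q with hq | hq
  · rw [max_eq_right hq, hqe]
    linarith
  · rw [max_eq_left hq, one_pow]
    have := div_pos hP hN0
    linarith

/-- (B2) with a common center. -/
theorem up' (S : Finset (𝓞 K)) (I : Ideal (𝓞 K)) (hI : I ≠ ⊥) (ρ : InfinitePlace K → ℝ)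
    (hρ : ∀ v, 0 < ρ v) (c : InfinitePlace K → ℂ) (z0 : 𝓞 K)
    (h : ∀ z ∈ S, z - z0 ∈ I ∧ ∀ v : InfinitePlace K, ‖em v z - c v‖ ≤ ρ v) :
    (S.card : ℝ) ≤ 32 ^ eK K * (1 + pn ρ / Ideal.absNorm I) := by
  have h1 := up S I hI (fun v => 2 * ρ v) (fun v => by linarith [hρ v]) (fun z hz w hw => by
    refine ⟨?_, fun v => ?_⟩
    · have := I.sub_mem (h z hz).1 (h w hw).1
      rwa [sub_sub_sub_cancel_right] at this
    · rw [← norm_em, map_sub]
      have h2 : em v z - em v w = (em v z - c v) - (em v w - c v) := by ring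
      rw [h2]
      refine (norm_sub_le _ _).trans ?_
      linarith [(h z hz).2 v, (h w hw).2 v])
  refine h1.trans ?_
  rw [pn_const_mul]
  have hP : 0 < pn ρ := pn_pos hρ
  have hN0 : (0 : ℝ) < Ideal.absNorm I := by linarith [one_le_absNorm hI]
  have h3 : (32 : ℝ) ^ eK K = 16 ^ eK K * 2 ^ eK K := by rw [← mul_pow]; norm_num
  rw [h3, mul_assoc]
  refine mul_le_mul_of_nonneg_left ?_ (by positivity)
  have h4 : (1 : ℝ) ≤ 2 ^ eK K := one_le_pow₀ (by norm_num)
  have h5 : 2 ^ eK K * pn ρ / Ideal.absNorm I = 2 ^ eK K * (pn ρ / Ideal.absNorm I) := by ring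
  rw [h5]
  have h6 : 0 < pn ρ / Ideal.absNorm I := div_pos hP hN0
  nlinarith

theorem OBox_upper {X : ℝ} (hX : 1 ≤ X) : ((OBox K X).card : ℝ) ≤ 64 ^ eK K * X ^ eK K := by
  have h := up' (OBox K X) ⊤ top_ne_bot (fun _ => X) (fun _ => by linarith) (fun _ => 0) 0
    (fun z hz => ⟨trivial, fun v => by rw [sub_zero, norm_em]; exact mem_OBox.1 hz v⟩)
  rw [pn_const, Ideal.absNorm_top, Nat.cast_one, div_one] at h
  refine h.trans ?_
  have h3 : (64 : ℝ) ^ eK K = 32 ^ eK K * 2 ^ eK K := by rw [← mul_pow]; norm_num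
  have h4 : (2 : ℝ) ≤ 2 ^ eK K := by
    calc (2 : ℝ) = 2 ^ 1 := by norm_num
      _ ≤ 2 ^ eK K := pow_le_pow_right₀ (by norm_num) eK_pos
  have h5 : (1 : ℝ) ≤ X ^ eK K := one_le_pow₀ hX
  rw [h3, mul_assoc]
  refine mul_le_mul_of_nonneg_left ?_ (by positivity)
  nlinarith

end up

end Pool.Agent.Lib.MP_1ad228_ntN
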