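import Pool.Agent.Lib.MP_1ad228_ntN.LD_Base
import Pool.Agent.Lib.MP_1ad228_ntN.NB_Const
import Pool.Agent.Lib.MP_1ad228_ntF.RP_Phi
import Pool.Agent.Lib.MP_1ad228_ntF.RP_Null

/-! Definitions for the infinite places: robust solubility over the real or complex field, tuples singular along the hyperplane `x 0 = 0`, real coordinates of tuples. -/

namespace Pool.Agent.Lib.MP_1ad228_ntN

export Pool.Agent.Lib.MP_1ad228_ntF (Sing cx cT cb cg chart chart_map chart_surj supp_ev supp_dev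
  lsec_eq exPhi closedPoly nullPoly)

open NumberField Classical

/-- Robust solubility over `𝕜` of the tuple `α`, with pivot `o` and solved coordinates `S`. -/
def RobF {𝕜 : Type} [RCLike 𝕜] {n r : ℕ} {d : Fin r → ℕ} (o : Fin (n + 1))
    (S : Fin r → Fin (n + 1)) (ρ : ℝ) (α : Tup n d 𝕜) : Prop :=
  ∃ ξ : Vc n 𝕜, ∀ y : Vc n 𝕜, (∀ l, ‖y l - ξ l‖ ≤ ρ) →
    ∃ s : Vc n 𝕜, (∀ l, (∀ k, l ≠ S k) → s l = y l) ∧ (∀ l, ‖s l‖ ≤ 1 / 2) ∧
      2 * ρ ≤ ‖s o‖ ∧ ∀ i, ev (α i) s = 0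

/-- The tuple `F` has a zero on the hyperplane `x 0 = 0` at which the gradients along the hyperplane are dependent. -/
def Sing0 {n r : ℕ} {d : Fin r → ℕ} {K : Type*} [CommRing K] (F : Tup n d K) : Prop :=
  ∃ (x : Vc n K) (t : Fin r → K), x ≠ 0 ∧ x 0 = 0 ∧ t ≠ 0 ∧ (∀ l, ev (F l) x = 0) ∧
    ∀ j, j ≠ 0 → ∑ l, t l * dev (F l) x j = 0

section al
variable {K : Type} [Field K] [NumberField K]

/-- The entries at the place `v` of the tuple with real coordinates `u`. -/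
noncomputable def av {n r : ℕ} {d : Fin r → ℕ} (v : InfinitePlace K)
    (u : Kp n d × Fin (eK K) → ℝ) : Kp n d → ℂ := fun c => tv v fun i => u (c, i)

/-- The entries in `𝕜` of the tuple with real coordinates `u` (for a ring homomorphism `j` to `𝕜`). -/
noncomputable def aj {n r : ℕ} {d : Fin r → ℕ} {𝕜 : Type} [RCLike 𝕜] (j : 𝓞 K →+* 𝕜)
    (u : Kp n d × Fin (eK K) → ℝ) : Kp n d → 𝕜 :=
  fun c => ∑ i, algebraMap ℝ 𝕜 (u (c, i)) * j (bas K i)

/-- The real coordinates of the tuple `F / A`. -/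
noncomputable def uF {n r : ℕ} {d : Fin r → ℕ} (A : ℕ) (F : Tup n d (𝓞 K)) :
    Kp n d × Fin (eK K) → ℝ := fun c => (co (F c.1.1 c.1.2) c.2 : ℝ) / A

theorem continuous_aj {n r : ℕ} {d : Fin r → ℕ} {𝕜 : Type} [RCLike 𝕜] (j : 𝓞 K →+* 𝕜) :
    Continuous (aj (n := n) (d := d) j) := by
  unfold aj
  refine continuous_pi fun c => continuous_finsetSum _ fun i _ => ?_
  refine Continuous.mul ?_ continuous_const
  exact (continuous_algebraMap ℝ 𝕜).comp (continuous_apply _)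

theorem continuous_av {n r : ℕ} {d : Fin r → ℕ} (v : InfinitePlace K) :
    Continuous (av (n := n) (d := d) v) := by
  refine continuous_pi fun c => (continuous_tv v).comp ?_
  exact continuous_pi fun i => continuous_apply _

/-- The tuple `F / A` at the place `v` in coordinates. -/
theorem pt_av {n r : ℕ} {d : Fin r → ℕ} (v : InfinitePlace K) (A : ℕ) (F : Tup n d (𝓞 K)) :
    (pt (av v (uF A F)) : Tup n d ℂ) = scF v A F := by
  funext i s
  show tv v (fun k => (co (F i s) k : ℝ) / A) = em v (F i s) / (A : ℂ)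
  rw [em_eq_tv, div_eq_inv_mul, show ((A : ℂ)⁻¹) = (((A : ℝ)⁻¹ : ℝ) : ℂ) by push_cast; rfl, ← tv_smul]
  congr 1
  funext k
  rw [div_eq_inv_mul]

theorem uF_bound {n r : ℕ} {d : Fin r → ℕ} {A : ℕ} (hA : 1 ≤ A) {F : Tup n d (𝓞 K)}
    (h : F ∈ TBox K n d A) (t : Kp n d × Fin (eK K)) : |uF A F t| ≤ CK K 0 := by
  have hA' : (0 : ℝ) < A := by exact_mod_cast hA
  unfold uF
  rw [abs_div, abs_of_pos hA', div_le_iff₀ hA']
  exact co_low 0 _ _ (mem_Box.1 (mem_TBox.1 h t.1.1) t.1.2) t.2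

theorem uF_inj {n r : ℕ} {d : Fin r → ℕ} {F G : Tup n d (𝓞 K)}
    (h : ∀ c : Kp n d × Fin (eK K), co (F c.1.1 c.1.2) c.2 = co (G c.1.1 c.1.2) c.2) : F = G := by
  funext i s
  exact co_inj fun k => h (⟨i, s⟩, k)

theorem card_KE (K : Type) [Field K] [NumberField K] (n : ℕ) {r : ℕ} (d : Fin r → ℕ) :
    Fintype.card (Kp n d × Fin (eK K)) = eK K * VV n d := by
  have hcard : Fintype.card (Kp n d) = VV n d := by
    rw [Fintype.card_sigma]
    simp only [Fintype.card_fun, Fintype.card_fin]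
    rfl
  rw [Fintype.card_prod, hcard, Fintype.card_fin, mul_comm]

end al

end Pool.Agent.Lib.MP_1ad228_ntN
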