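import Pool.Agent.Lib.MP_1ad228_ntN.RP_Base

/-!
JOB RP_ChartO.  The charts of singular tuples with the point as a parameter.  (`chart_surj` with one more conclusion, `y ⟨i0, spi p j⟩ = x j`; it is `y1` in the proof of `chart_surj` in Lib/MP_1ad228_ntF/RP_Chart.lean:
copy that proof with the private lemmas it needs and return `y1` as well. `supp_ev`, `supp_dev`, `lsec_eq`, `cx`, `cT`, `cb`, `cg`, `chart` are exported.)
-/

namespace Pool.Agent.Lib.MP_1ad228_ntN

open Classical

private theorem RP_ChartO_spi_self {n d : ℕ} (p : Fin (n + 1)) :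
    (spi p p : Fin d → Fin (n + 1)) = fun _ => p := by
  funext k
  unfold spi
  split_ifs <;> rfl

private theorem RP_ChartO_spi_inj {n d : ℕ} (hd : 1 ≤ d) (p : Fin (n + 1)) :
    Function.Injective (spi p : Fin (n + 1) → Fin d → Fin (n + 1)) := by
  intro j j' h
  have h1 := congrFun h ⟨0, hd⟩
  simpa [spi] using h1

private theorem RP_ChartO_spi_zero {n d : ℕ} (hd : 1 ≤ d) (p j : Fin (n + 1)) :
    (spi p j : Fin d → Fin (n + 1)) ⟨0, hd⟩ = j := by
  simp [spi]

private theorem RP_ChartO_spi_const {n d : ℕ} (hd : 1 ≤ d) {p j : Fin (n + 1)} (hj : j ≠ p) :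
    (spi p j : Fin d → Fin (n + 1)) ≠ fun _ => p := by
  intro h
  have h1 := congrFun h ⟨0, hd⟩
  rw [RP_ChartO_spi_zero hd] at h1
  exact hj h1

theorem chart_surj' {n r : ℕ} {d : Fin r → ℕ} (hd : ∀ i, 1 ≤ d i) {R : Type*} [CommRing R]
    (p : Fin (n + 1)) (i0 : Fin r) (F : Tup n d R) (x : Vc n R) (t : Fin r → R) (hp : x p = 1)
    (ht : t i0 = 1) (h0 : ∀ l, ev (F l) x = 0)
    (h1 : ∀ j, j ≠ p → ∑ l, t l * dev (F l) x j = 0) :
    ∃ y : Kp n d → R, y ⟨i0, fun _ => p⟩ = 0 ∧ (∀ j, j ≠ p → y ⟨i0, spi p j⟩ = x j) ∧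
      chart p i0 y = F := by
  obtain ⟨y, hy⟩ : ∃ y : Kp n d → R, ∀ c : Kp n d, y c =
      if c.2 = (fun _ => p) then (if c.1 = i0 then 0 else t c.1)
      else if c.1 = i0 ∧ ∃ j, c.2 = spi p j then x (c.2 ⟨0, hd c.1⟩) else F c.1 c.2 :=
    ⟨_, fun _ => rfl⟩
  have y0 : y ⟨i0, fun _ => p⟩ = 0 := by
    rw [hy]
    simp only [if_true]
  have y1 : ∀ j, j ≠ p → y ⟨i0, spi p j⟩ = x j := by
    intro j hj
    rw [hy]
    dsimp only
    rw [if_neg (RP_ChartO_spi_const (hd i0) hj), if_pos ⟨rfl, j, rfl⟩, RP_ChartO_spi_zero]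
  have y2 : ∀ l, l ≠ i0 → y ⟨l, fun _ => p⟩ = t l := by
    intro l hl
    rw [hy]
    dsimp only
    rw [if_pos rfl, if_neg hl]
  have y3 : ∀ l, l ≠ i0 → ∀ s, s ≠ (fun _ => p) → y ⟨l, s⟩ = F l s := by
    intro l hl s hs
    rw [hy]
    dsimp only
    rw [if_neg hs, if_neg fun h => hl h.1]
  have y4 : ∀ s : Fin (d i0) → Fin (n + 1), (¬ ∃ j, s = spi p j) → y ⟨i0, s⟩ = F i0 s := by
    intro s hs
    rw [hy]
    dsimp only
    rw [if_neg, if_neg fun h => hs h.2]
    intro h
    exact hs ⟨p, by rw [h, RP_ChartO_spi_self]⟩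
  refine ⟨y, y0, y1, ?_⟩
  have hcx : cx p i0 y = x := by
    funext j
    unfold cx
    split_ifs with hj
    · rw [hj, hp]
    · exact y1 j hj
  have hcT : ∀ k, cT p i0 y k = t k := by
    intro k
    unfold cT
    split_ifs with hk
    · rw [hk, ht]
    · exact y2 k hk
  have hcg : ∀ l, l ≠ i0 → cg p i0 y l = F l := by
    intro l hl
    have hcb : ∀ s, cb p i0 y l s = if s = (fun _ => p) then 0 else F l s := by
      intro s
      unfold cb
      rw [if_neg hl]
      split_ifs with hs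
      · rfl
      · exact y3 l hl s hs
    have h2 : ev (F l - cb p i0 y l) x = F l (fun _ => p) := by
      unfold ev
      rw [Finset.sum_eq_single (fun _ => p)]
      · rw [Pi.sub_apply, hcb, if_pos rfl, sub_zero, Finset.prod_const, hp, one_pow, mul_one]
      · intro s _ hs
        rw [Pi.sub_apply, hcb, if_neg hs, sub_self, zero_mul]
      · intro h
        exact absurd (Finset.mem_univ _) h
    rw [ev_sub, h0 l, zero_sub] at h2
    funext s
    unfold cg
    split_ifs with hs
    · rw [hcx, h2, hs]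
    · rw [hcb, if_neg hs]
  funext l
  unfold chart
  split_ifs with hl
  · subst hl
    have ha : ∀ s, (¬ ∃ j, s = spi p j) → (F l - cb p l y l) s = 0 := by
      intro s hs
      rw [Pi.sub_apply]
      unfold cb
      rw [if_pos rfl, if_neg hs, y4 s hs, sub_self]
    have hev : ev (F l - cb p l y l) x = -ev (cb p l y l) x := by
      rw [ev_sub, h0 l, zero_sub]
    have hb : ∀ j, j ≠ p → dev (F l - cb p l y l) x j =
        (fun j => -dev (cb p l y l) x j -
          ∑ k ∈ Finset.univ.erase l, cT p l y k * dev (cg p l y k) x j) j := by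
      intro j hj
      have h2 := h1 j hj
      rw [← Finset.add_sum_erase _ _ (Finset.mem_univ l), ht, one_mul] at h2
      have h3 : ∑ k ∈ Finset.univ.erase l, cT p l y k * dev (cg p l y k) x j =
          ∑ k ∈ Finset.univ.erase l, t k * dev (F k) x j := by
        refine Finset.sum_congr rfl fun k hk => ?_
        rw [hcT, hcg k (Finset.ne_of_mem_erase hk)]
      dsimp only
      rw [dev_sub, h3]
      linear_combination h2
    have h4 := lsec_eq (hd l) p x hp (F l - cb p l y l) ha _ hb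
    rw [hev] at h4
    rw [hcx, ← h4, add_sub_cancel]
  · exact hcg l hl

end Pool.Agent.Lib.MP_1ad228_ntN
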