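import Pool.Agent.Lib.MP_1ad228_ntN.LD_Base

/-!
JOB RP_Tay.  Derivatives of forms over the real or complex field.  (Model with proofs over the real field: `Tay_sum_dev`, `ev_line`, `ev_contDiff` in Lib/MP_1ad228_ntF/Tay.lean; the same proofs with
`ℝ` replaced by `𝕜`; `Tay_sum_dev` is private there: copy it.)
-/

namespace Pool.Agent.Lib.MP_1ad228_ntN

open Classical

private theorem RP_Tay_sum_dev {n d : ℕ} {R : Type*} [CommRing R] (a : Ten n d R) (x h : Vc n R) :
    ∑ j, dev a x j * h j =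
      ∑ s : Fin d → Fin (n + 1), a s * ∑ k, h (s k) * ∏ l ∈ Finset.univ.erase k, x (s l) := by
  have h1 : ∀ k : Fin d, ∑ j, (∑ s : Fin d → Fin (n + 1),
      if s k = j then a s * ∏ l ∈ Finset.univ.erase k, x (s l) else 0) * h j =
      ∑ s : Fin d → Fin (n + 1), a s * (h (s k) * ∏ l ∈ Finset.univ.erase k, x (s l)) := by
    intro k
    simp only [Finset.sum_mul]
    rw [Finset.sum_comm]
    refine Finset.sum_congr rfl fun s _ => ?_
    rw [Finset.sum_eq_single (s k)]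
    · rw [if_pos rfl]; ring
    · intro j _ hj
      rw [if_neg (Ne.symm hj), zero_mul]
    · intro h
      exact absurd (Finset.mem_univ _) h
  have h2 : ∑ j, dev a x j * h j = ∑ k : Fin d, ∑ j, (∑ s : Fin d → Fin (n + 1),
      if s k = j then a s * ∏ l ∈ Finset.univ.erase k, x (s l) else 0) * h j := by
    rw [Finset.sum_comm]
    refine Finset.sum_congr rfl fun j _ => ?_
    rw [← Finset.sum_mul]
    rfl
  rw [h2, Finset.sum_congr rfl fun k _ => h1 k, Finset.sum_comm]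
  refine Finset.sum_congr rfl fun s _ => ?_
  rw [Finset.mul_sum]

theorem ev_lineK {𝕜 : Type} [RCLike 𝕜] {n d : ℕ} (a δ : Ten n d 𝕜) (x h : Vc n 𝕜) :
    HasDerivAt (fun s : 𝕜 => ev (a + s • δ) (x + s • h)) (ev δ x + ∑ m, dev a x m * h m) 0 := by
  rw [RP_Tay_sum_dev]
  unfold ev
  rw [← Finset.sum_add_distrib]
  refine HasDerivAt.fun_sum fun s' _ => ?_
  simp only [Pi.add_apply, Pi.smul_apply, smul_eq_mul]
  have h1 : HasDerivAt (fun t : 𝕜 => a s' + t * δ s') (δ s') 0 := by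
    have := ((hasDerivAt_id (0:𝕜)).mul_const (δ s')).const_add (a s')
    simpa using this
  have h2 : ∀ k ∈ (Finset.univ : Finset (Fin d)),
      HasDerivAt (fun t : 𝕜 => x (s' k) + t * h (s' k)) (h (s' k)) 0 := by
    intro k _
    have := ((hasDerivAt_id (0:𝕜)).mul_const (h (s' k))).const_add (x (s' k))
    simpa using this
  have h3 := h1.fun_mul (HasDerivAt.fun_finsetProd h2)
  have e : δ s' * ∏ i, (x (s' i) + 0 * h (s' i)) + (a s' + 0 * δ s') *
      ∑ i, (∏ j ∈ Finset.univ.erase i, (x (s' j) + 0 * h (s' j))) • h (s' i) =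
      δ s' * ∏ k, x (s' k) + a s' * ∑ k, h (s' k) * ∏ l ∈ Finset.univ.erase k, x (s' l) := by
    simp only [zero_mul, add_zero, smul_eq_mul]
    congr 2
    exact Finset.sum_congr rfl fun k _ => mul_comm _ _
  rw [e] at h3
  exact h3

theorem ev_contDiffK (𝕜 : Type) [RCLike 𝕜] (n : ℕ) {r : ℕ} (d : Fin r → ℕ) (k : Fin r) :
    ContDiff 𝕜 1 (fun q : (Kp n d → 𝕜) × Vc n 𝕜 => ev (pt q.1 k) q.2) := by
  unfold ev pt
  refine ContDiff.sum fun s _ => ContDiff.mul ?_ (contDiff_prod fun l _ => ?_)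
  · exact (contDiff_apply 𝕜 𝕜 (⟨k, s⟩ : Kp n d)).comp contDiff_fst
  · exact (contDiff_apply 𝕜 𝕜 (s l)).comp contDiff_snd

theorem ev_contK (𝕜 : Type) [RCLike 𝕜] (n : ℕ) {r : ℕ} (d : Fin r → ℕ) (k : Fin r) :
    Continuous (fun q : (Kp n d → 𝕜) × Vc n 𝕜 => ev (pt q.1 k) q.2) :=
  (ev_contDiffK 𝕜 n d k).continuous

end Pool.Agent.Lib.MP_1ad228_ntN
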