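import Pool.Agent.Lib.MP_1ad228_ntN.RP_Base
import Pool.Agent.Lib.MP_1ad228_ntN.RP_Tay

/-!
JOB RP_Loc.  Near a nonsingular zero over the real or complex field `𝕜`.  (Model with proof over the real field: Lib/MP_1ad228_ntF/RP_Loc.lean; adapt it: `ℝ` becomes `𝕜` (the radii stay real), `|.|` becomes `‖.‖`, `0 < ξ o`
becomes `ξ o ≠ 0`, `ev_line`, `ev_contDiff` become `ev_lineK`, `ev_contDiffK 𝕜` (job RP_Tay).)

PROOF.  As in the model: `f (ω, y) = (ω, y with the coordinates S k replaced by ev (pt ω k) y)` is strictly differentiable over `𝕜` at `(ω0, ξ)`, its derivative is injective, so surjective (finite dimension),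
and `HasStrictFDerivAt.map_nhds_eq_of_surj` (over `𝕜`; `(Kp n d → 𝕜) × Vc n 𝕜` is complete) gives `Filter.map f (𝓝 (ω0, ξ)) = 𝓝 (f (ω0, ξ))`. The set
`T = {(ω, s) | (∀ l, ‖s l‖ < 1/2) ∧ ‖ξ o‖ / 2 < ‖s o‖}` is an open neighbourhood of `(ω0, ξ)`. So there is `r0 > 0` such that `(ω, z) ∈ f '' T` whenever `dist ω ω0 < r0`, `dist z ξ* < r0`, `ξ*` = `ξ` with the
coordinates `S k` replaced by `0`. Take `ρ = min (r0 / 2) (‖ξ o‖ / 4)`, `U = Metric.ball ω0 r0`.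
-/

namespace Pool.Agent.Lib.MP_1ad228_ntN

open Classical

open Topology in
private theorem RP_Loc_fderiv {𝕜 : Type} [RCLike 𝕜] (n : ℕ) {r : ℕ} (d : Fin r → ℕ) (k : Fin r) (ω0 : Kp n d → 𝕜)
    (ξ : Vc n 𝕜) (δ : Kp n d → 𝕜) (h : Vc n 𝕜) :
    (fderiv 𝕜 (fun q : (Kp n d → 𝕜) × Vc n 𝕜 => ev (pt q.1 k) q.2) (ω0, ξ)) (δ, h) =
      ev (pt δ k) ξ + ∑ m, dev (pt ω0 k) ξ m * h m := by
  set g : (Kp n d → 𝕜) × Vc n 𝕜 → 𝕜 := fun q => ev (pt q.1 k) q.2 with hg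
  have h1 : HasFDerivAt g (fderiv 𝕜 g (ω0, ξ)) (ω0, ξ) :=
    ((ev_contDiffK 𝕜 n d k).differentiable (by norm_num) (ω0, ξ)).hasFDerivAt
  have h2 : HasDerivAt (fun s : 𝕜 => ((ω0, ξ) : (Kp n d → 𝕜) × Vc n 𝕜) + s • ((δ, h) : (Kp n d → 𝕜) × Vc n 𝕜))
      ((δ, h) : (Kp n d → 𝕜) × Vc n 𝕜) 0 := by
    have := ((hasDerivAt_id (0 : 𝕜)).smul_const ((δ, h) : (Kp n d → 𝕜) × Vc n 𝕜)).const_add
      ((ω0, ξ) : (Kp n d → 𝕜) × Vc n 𝕜)
    rw [one_smul] at this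
    exact this
  have h3 : HasDerivAt (fun s : 𝕜 => g (((ω0, ξ) : (Kp n d → 𝕜) × Vc n 𝕜) + s • ((δ, h) : (Kp n d → 𝕜) × Vc n 𝕜)))
      (fderiv 𝕜 g (ω0, ξ) (δ, h)) 0 := by
    refine HasFDerivAt.comp_hasDerivAt_of_eq (0 : 𝕜) h1 h2 ?_
    rw [zero_smul, add_zero]
  have h5 := ev_lineK (pt ω0 k) (pt δ k) ξ h
  have h4 : (fun s : 𝕜 => g (((ω0, ξ) : (Kp n d → 𝕜) × Vc n 𝕜) + s • ((δ, h) : (Kp n d → 𝕜) × Vc n 𝕜))) =
      fun s : 𝕜 => ev (pt ω0 k + s • pt δ k) (ξ + s • h) := rfl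
  rw [h4] at h3
  exact h3.unique h5

open Topology in
theorem locRob {𝕜 : Type} [RCLike 𝕜] (n : ℕ) {r : ℕ} (d : Fin r → ℕ) (ω0 : Kp n d → 𝕜)
    (ξ : Vc n 𝕜) (hξ : ∀ l, ‖ξ l‖ ≤ 1 / 4) (h0 : ∀ k, ev (pt ω0 k) ξ = 0)
    (S : Fin r → Fin (n + 1)) (o : Fin (n + 1))
    (hS : Matrix.det (fun l k => dev (pt ω0 l) ξ (S k)) ≠ 0) (ho : ξ o ≠ 0) :
    ∃ ρ : ℝ, 0 < ρ ∧ ∃ U : Set (Kp n d → 𝕜), IsOpen U ∧ ω0 ∈ U ∧
      ∀ ω ∈ U, RobF o S ρ (pt ω) := by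
  have hno : 0 < ‖ξ o‖ := norm_pos_iff.2 ho
  have hSi : Function.Injective S := by
    intro k k' hk
    by_contra hne
    apply hS
    exact Matrix.det_zero_of_column_eq hne fun l => by rw [hk]
  have hch : ∀ (k : Fin r) (h : ∃ k', S k = S k'), h.choose = k := fun k h => (hSi h.choose_spec).symm
  set g : Fin r → (Kp n d → 𝕜) × Vc n 𝕜 → 𝕜 := fun k q => ev (pt q.1 k) q.2 with hg
  set f : (Kp n d → 𝕜) × Vc n 𝕜 → (Kp n d → 𝕜) × Vc n 𝕜 := fun q =>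
    (q.1, fun l => if h : ∃ k, l = S k then g h.choose q else q.2 l) with hf
  set f' : ((Kp n d → 𝕜) × Vc n 𝕜) →L[𝕜] ((Kp n d → 𝕜) × Vc n 𝕜) :=
    (ContinuousLinearMap.fst 𝕜 (Kp n d → 𝕜) (Vc n 𝕜)).prod
      (ContinuousLinearMap.pi fun l => if h : ∃ k, l = S k then fderiv 𝕜 (g h.choose) (ω0, ξ) else
          (ContinuousLinearMap.proj (R := 𝕜) (φ := fun _ : Fin (n + 1) => 𝕜) l).comp
            (ContinuousLinearMap.snd 𝕜 (Kp n d → 𝕜) (Vc n 𝕜))) with hf'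
  have hstrict : HasStrictFDerivAt f f' (ω0, ξ) := by
    refine HasStrictFDerivAt.prodMk hasStrictFDerivAt_fst (hasStrictFDerivAt_pi.2 fun l => ?_)
    by_cases h : ∃ k, l = S k
    · simp only [dif_pos h]
      exact (ev_contDiffK 𝕜 n d h.choose).contDiffAt.hasStrictFDerivAt (by norm_num)
    · simp only [dif_neg h]
      exact ((ContinuousLinearMap.proj (R := 𝕜) (φ := fun _ : Fin (n + 1) => 𝕜) l).comp
            (ContinuousLinearMap.snd 𝕜 (Kp n d → 𝕜) (Vc n 𝕜))).hasStrictFDerivAt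
  have hinj : Function.Injective (f' : ((Kp n d → 𝕜) × Vc n 𝕜) →ₗ[𝕜] ((Kp n d → 𝕜) × Vc n 𝕜)) := by
    rw [injective_iff_map_eq_zero]
    rintro ⟨δ, h⟩ hz
    have hδ : δ = 0 := congrArg Prod.fst hz
    have h2 := congrArg Prod.snd hz
    have hout : ∀ m, (¬ ∃ k, m = S k) → h m = 0 := by
      intro m hm
      have h3 := congrFun h2 m
      change ((if h : ∃ k, m = S k then fderiv 𝕜 (g h.choose) (ω0, ξ) else
          (ContinuousLinearMap.proj (R := 𝕜) (φ := fun _ : Fin (n + 1) => 𝕜) m).comp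
            (ContinuousLinearMap.snd 𝕜 (Kp n d → 𝕜) (Vc n 𝕜))) :
          ((Kp n d → 𝕜) × Vc n 𝕜) →L[𝕜] 𝕜) (δ, h) = 0 at h3
      rw [dif_neg hm] at h3
      exact h3
    have hin : ∀ k, ∑ m, dev (pt ω0 k) ξ m * h m = 0 := by
      intro k
      have h3 := congrFun h2 (S k)
      change ((if h : ∃ k', S k = S k' then fderiv 𝕜 (g h.choose) (ω0, ξ) else
          (ContinuousLinearMap.proj (R := 𝕜) (φ := fun _ : Fin (n + 1) => 𝕜) (S k)).comp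
            (ContinuousLinearMap.snd 𝕜 (Kp n d → 𝕜) (Vc n 𝕜))) :
          ((Kp n d → 𝕜) × Vc n 𝕜) →L[𝕜] 𝕜) (δ, h) = 0 at h3
      have hex : ∃ k', S k = S k' := ⟨k, rfl⟩
      rw [dif_pos hex, hch k hex] at h3
      have h4 := RP_Loc_fderiv n d k ω0 ξ δ h
      have h5 : ev (pt δ k) ξ = 0 := by
        rw [hδ]
        have h6 : (pt (0 : Kp n d → 𝕜) k : Ten n (d k) 𝕜) = 0 := rfl
        rw [h6, ev_zero]
      rw [h5, zero_add] at h4
      rw [← h4]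
      exact h3
    have hmul : Matrix.mulVec (fun l k => dev (pt ω0 l) ξ (S k)) (fun k => h (S k)) = 0 := by
      funext l
      have h3 := hin l
      rw [← Fintype.sum_of_injective S hSi (fun k => dev (pt ω0 l) ξ (S k) * h (S k))
        (fun m => dev (pt ω0 l) ξ m * h m)] at h3
      · exact h3
      · intro m hm
        rw [hout m (fun ⟨k, hk⟩ => hm ⟨k, hk.symm⟩), mul_zero]
      · intro k
        rfl
    have hv := Matrix.eq_zero_of_mulVec_eq_zero hS hmul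
    have hh : h = 0 := by
      funext m
      by_cases hm : ∃ k, m = S k
      · obtain ⟨k, rfl⟩ := hm
        exact congrFun hv k
      · exact hout m hm
    rw [hδ, hh]
    rfl
  have hsurj : f'.range = ⊤ := by
    rw [LinearMap.range_eq_top]
    exact LinearMap.injective_iff_surjective.1 hinj
  have hmap := hstrict.map_nhds_eq_of_surj hsurj
  set T : Set ((Kp n d → 𝕜) × Vc n 𝕜) := {p | (∀ l, ‖p.2 l‖ < 1 / 2) ∧ ‖ξ o‖ / 2 < ‖p.2 o‖} with hT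
  have hTo : IsOpen T := by
    have h1 : IsOpen {p : (Kp n d → 𝕜) × Vc n 𝕜 | ∀ l, ‖p.2 l‖ < 1 / 2} := by
      have : {p : (Kp n d → 𝕜) × Vc n 𝕜 | ∀ l, ‖p.2 l‖ < 1 / 2} =
          ⋂ l, {p : (Kp n d → 𝕜) × Vc n 𝕜 | ‖p.2 l‖ < 1 / 2} := by
        ext p
        simp only [Set.mem_ofPred_eq, Set.mem_iInter]
      rw [this]
      exact isOpen_iInter_of_finite fun l => isOpen_lt (by fun_prop) continuous_const
    have h2 : IsOpen {p : (Kp n d → 𝕜) × Vc n 𝕜 | ‖ξ o‖ / 2 < ‖p.2 o‖} := isOpen_lt continuous_const (by fun_prop)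
    exact h1.inter h2
  have hTm : T ∈ 𝓝 ((ω0, ξ) : (Kp n d → 𝕜) × Vc n 𝕜) := by
    refine hTo.mem_nhds ⟨fun l => ?_, ?_⟩
    · have := hξ l
      have h3 : ‖ξ l‖ < 1 / 2 := by linarith
      exact h3
    · have h3 : ‖ξ o‖ / 2 < ‖ξ o‖ := by linarith
      exact h3
  have himg : f '' T ∈ 𝓝 (f (ω0, ξ)) := by
    rw [← hmap]
    exact Filter.image_mem_map hTm
  obtain ⟨r0, hr, hball⟩ := Metric.mem_nhds_iff.1 himg
  refine ⟨min (r0 / 2) (‖ξ o‖ / 4), lt_min (by linarith) (by linarith), Metric.ball ω0 r0, Metric.isOpen_ball,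
    Metric.mem_ball_self hr, fun ω hω => ⟨ξ, fun y hy => ?_⟩⟩
  set z : Vc n 𝕜 := fun l => if ∃ k, l = S k then 0 else y l with hz
  have hρ1 : min (r0 / 2) (‖ξ o‖ / 4) ≤ r0 / 2 := min_le_left _ _
  have hρ2 : min (r0 / 2) (‖ξ o‖ / 4) ≤ ‖ξ o‖ / 4 := min_le_right _ _
  have hmem : ((ω, z) : (Kp n d → 𝕜) × Vc n 𝕜) ∈ Metric.ball (f (ω0, ξ)) r0 := by
    rw [Metric.mem_ball, Prod.dist_eq]
    refine max_lt hω ?_
    have h1 : dist z (f (ω0, ξ)).2 ≤ r0 / 2 := by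
      rw [dist_pi_le_iff (by linarith)]
      intro l
      change dist (if ∃ k, l = S k then 0 else y l)
        (if h : ∃ k, l = S k then g h.choose (ω0, ξ) else ξ l) ≤ r0 / 2
      by_cases h : ∃ k, l = S k
      · have hg0 : g h.choose (ω0, ξ) = 0 := h0 _
        rw [if_pos h, dif_pos h, hg0, dist_self]
        linarith
      · rw [if_neg h, dif_neg h, dist_eq_norm]
        exact (hy l).trans hρ1
    exact lt_of_le_of_lt h1 (by linarith)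
  obtain ⟨⟨ω', s⟩, hsT, hfs⟩ := hball hmem
  have h1 : ω' = ω := congrArg Prod.fst hfs
  have h2 : (fun l => if h : ∃ k, l = S k then g h.choose (ω', s) else s l) = z := congrArg Prod.snd hfs
  subst h1
  refine ⟨s, fun l hl => ?_, fun l => (hsT.1 l).le, ?_, fun k => ?_⟩
  · have h3 := congrFun h2 l
    have hne : ¬ ∃ k, l = S k := fun ⟨k, hk⟩ => hl k hk
    simp only [hz, dif_neg hne, if_neg hne] at h3
    exact h3
  · have h3 : ‖ξ o‖ / 2 < ‖s o‖ := hsT.2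
    linarith
  · have h3 := congrFun h2 (S k)
    have hex : ∃ k', S k = S k' := ⟨k, rfl⟩
    simp only [hz, dif_pos hex, if_pos hex] at h3
    rw [hch k hex] at h3
    exact h3

theorem RobF_mono {𝕜 : Type} [RCLike 𝕜] {n r : ℕ} {d : Fin r → ℕ} {o : Fin (n + 1)}
    {S : Fin r → Fin (n + 1)} {ρ ρ' : ℝ} {α : Tup n d 𝕜} (h : ρ' ≤ ρ) (hR : RobF o S ρ α) :
    RobF o S ρ' α := by
  obtain ⟨ξ, hξ⟩ := hR
  refine ⟨ξ, fun y hy => ?_⟩
  obtain ⟨s, h1, h2, h3, h4⟩ := hξ y fun l => (hy l).trans h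
  exact ⟨s, h1, h2, by linarith, h4⟩

end Pool.Agent.Lib.MP_1ad228_ntN
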