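import Pool.Agent.Lib.MP_1ad228_ntN.RP_Base

/-!
JOB RP_NullC.  Null sets in the space of real coordinates.

nullC.  `P ≠ 0` over `ℂ`: put `P1 = ∑ m ∈ P.support, monomial m (coeff m P).re`, `P2 = ∑ m ∈ P.support, monomial m (coeff m P).im` in `MvPolynomial κ ℝ`; for real `u`: `eval (fun i => (u i : ℂ)) P = (eval u P1 : ℂ) + (eval u P2 : ℂ) * I`
(`MvPolynomial.eval_eq'`, `Complex.re_add_im`), and `P1 ≠ 0` or `P2 ≠ 0` (some coefficient of `P` is nonzero; `coeff m P1 = (coeff m P).re`). The set is contained in the zero set of `P1` and in that of `P2` (real and imaginary parts),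
one of which is null by `nullPoly` (exported, Lib/MP_1ad228_ntF/RP_Null.lean); `MeasureTheory.measure_mono_null`.
nullPhi.  `P = MvPolynomial.aeval (fun c => ∑ i, MvPolynomial.X (c, i) * MvPolynomial.C (em v (bas K i))) Φ : MvPolynomial (Kp n d × Fin (eK K)) ℂ`; `eval (fun t => (u t : ℂ)) P = aeval (av v u) Φ` (`eval` is an algebra
homomorphism over `ℤ`: `MvPolynomial.comp_aeval_apply`, `map_sum`; `av v u c = tv v (u (c,.)) = ∑ i, (u (c,i) : ℂ) * em v (bas K i)`). `P ≠ 0`: there is `i1` with `b = em v (bas K i1) ≠ 0` (`em v` is injective: composition of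
injective ring homomorphisms, `RingOfIntegers` embeds in `K`; `bas K i1 ≠ 0`, `Module.Basis.ne_zero`; `eK K > 0`: `eK_pos`). The homomorphism `s : MvPolynomial (Kp n d × Fin (eK K)) ℂ →ₐ[ℂ] MvPolynomial (Kp n d) ℂ`
with `s (X (c, i)) = if i = i1 then C b⁻¹ * X c else 0` sends `P` to `aeval X Φ = map (Int.castRingHom ℂ) Φ ≠ 0` (`MvPolynomial.map_injective`, `Int.cast_injective`; `MvPolynomial.aeval_X_left`..). So the set is null by nullC, and closed:
`u ↦ aeval (av v u) Φ` is continuous (`continuous_av`, `MvPolynomial.continuous_eval`, or the formula with `eval` of `P`).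
-/

namespace Pool.Agent.Lib.MP_1ad228_ntN

open NumberField Classical

private theorem RP_NullC_coeff {κ : Type} (P : MvPolynomial κ ℂ) (g : ℂ → ℝ) (h0 : g 0 = 0) (m : κ →₀ ℕ) :
    MvPolynomial.coeff m (∑ m' ∈ P.support, MvPolynomial.monomial m' (g (P.coeff m'))) = g (P.coeff m) := by
  rw [MvPolynomial.coeff_sum]
  simp only [MvPolynomial.coeff_monomial]
  by_cases hm : m ∈ P.support
  · rw [Finset.sum_eq_single m]
    · rw [if_pos rfl]
    · intro m' _ hne
      rw [if_neg hne]
    · intro h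
      exact absurd hm h
  · rw [MvPolynomial.notMem_support_iff.1 hm, h0]
    refine Finset.sum_eq_zero fun m' hm' => ?_
    rw [if_neg]
    rintro rfl
    exact hm hm'

private theorem RP_NullC_eval {κ : Type} [Fintype κ] (P : MvPolynomial κ ℂ) (g : ℂ → ℝ) (u : κ → ℝ) :
    MvPolynomial.eval u (∑ m ∈ P.support, MvPolynomial.monomial m (g (P.coeff m))) =
      ∑ m ∈ P.support, g (P.coeff m) * ∏ i, u i ^ m i := by
  rw [map_sum]
  refine Finset.sum_congr rfl fun m _ => ?_
  rw [MvPolynomial.eval_monomial]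
  congr 1
  exact Finsupp.prod_fintype _ _ fun i => pow_zero _

private theorem RP_NullC_sum {κ : Type} [Fintype κ] (P : MvPolynomial κ ℂ) (u : κ → ℝ) :
    MvPolynomial.eval (fun i => (u i : ℂ)) P = ∑ m ∈ P.support, P.coeff m * ((∏ i, u i ^ m i : ℝ) : ℂ) := by
  rw [MvPolynomial.eval_eq']
  refine Finset.sum_congr rfl fun m _ => ?_
  push_cast
  rfl

theorem nullC {κ : Type} [Fintype κ] (P : MvPolynomial κ ℂ) (hP : P ≠ 0) :
    MeasureTheory.volume {u : κ → ℝ | MvPolynomial.eval (fun i => (u i : ℂ)) P = 0} = 0 := by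
  obtain ⟨m, hm⟩ : ∃ m, P.coeff m ≠ 0 := by
    by_contra hcon
    push Not at hcon
    exact hP (MvPolynomial.ext _ _ fun m => by rw [hcon m, MvPolynomial.coeff_zero])
  have key : ∀ g : ℂ → ℝ, g 0 = 0 → g (P.coeff m) ≠ 0 →
      (∀ u : κ → ℝ, MvPolynomial.eval (fun i => (u i : ℂ)) P = 0 →
        ∑ m ∈ P.support, g (P.coeff m) * ∏ i, u i ^ m i = 0) →
      MeasureTheory.volume {u : κ → ℝ | MvPolynomial.eval (fun i => (u i : ℂ)) P = 0} = 0 := by
    intro g h0 h1 h2
    have hne : (∑ m ∈ P.support, MvPolynomial.monomial m (g (P.coeff m)) : MvPolynomial κ ℝ) ≠ 0 := by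
      intro h3
      have h4 := RP_NullC_coeff P g h0 m
      rw [h3, MvPolynomial.coeff_zero] at h4
      exact h1 h4.symm
    refine MeasureTheory.measure_mono_null (fun u hu => ?_) (nullPoly _ hne)
    show MvPolynomial.eval u _ = 0
    rw [RP_NullC_eval]
    exact h2 u hu
  by_cases hre : (P.coeff m).re = 0
  · have him : (P.coeff m).im ≠ 0 := fun h => hm (Complex.ext hre h)
    refine key Complex.im rfl him fun u hu => ?_
    have h1 := congrArg Complex.im (RP_NullC_sum P u)
    rw [hu, Complex.im_sum, Complex.zero_im] at h1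
    rw [h1]
    exact Finset.sum_congr rfl fun m _ => by rw [Complex.im_mul_ofReal]
  · refine key Complex.re rfl hre fun u hu => ?_
    have h1 := congrArg Complex.re (RP_NullC_sum P u)
    rw [hu, Complex.re_sum, Complex.zero_re] at h1
    rw [h1]
    exact Finset.sum_congr rfl fun m _ => by rw [Complex.re_mul_ofReal]

private theorem RP_NullC_em {K : Type} [Field K] [NumberField K] (v : InfinitePlace K) :
    Function.Injective (em v) := by
  have h1 : Function.Injective (algebraMap (𝓞 K) K) := RingOfIntegers.coe_injective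
  exact v.embedding.injective.comp h1

private theorem RP_NullC_hom {σ A : Type} [CommRing A] (f g : ℤ →+* A) (x : σ → A) (p : MvPolynomial σ ℤ) :
    MvPolynomial.eval₂Hom f x p = MvPolynomial.eval₂Hom g x p := by
  rw [RingHom.ext_int f g]

private theorem RP_NullC_map {σ : Type} (f : ℤ →+* MvPolynomial σ ℂ) (p : MvPolynomial σ ℤ) :
    MvPolynomial.eval₂Hom f MvPolynomial.X p = MvPolynomial.map (Int.castRingHom ℂ) p := by
  have h : MvPolynomial.eval₂Hom f MvPolynomial.X = (MvPolynomial.map (Int.castRingHom ℂ) :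
      MvPolynomial σ ℤ →+* MvPolynomial σ ℂ) := by
    refine MvPolynomial.ringHom_ext (fun z => ?_) fun i => ?_
    · rw [MvPolynomial.eval₂Hom_C, MvPolynomial.map_C, RingHom.ext_int f (MvPolynomial.C.comp (Int.castRingHom ℂ))]
      rfl
    · rw [MvPolynomial.eval₂Hom_X', MvPolynomial.map_X]
  rw [h]

theorem nullPhi {K : Type} [Field K] [NumberField K] {n r : ℕ} {d : Fin r → ℕ}
    (v : InfinitePlace K) (Φ : MvPolynomial (Kp n d) ℤ) (hΦ : Φ ≠ 0) :
    IsClosed {u : Kp n d × Fin (eK K) → ℝ | MvPolynomial.aeval (av v u) Φ = 0} ∧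
    MeasureTheory.volume
      {u : Kp n d × Fin (eK K) → ℝ | MvPolynomial.aeval (av v u) Φ = 0} = 0 := by
  obtain ⟨P, hP⟩ : ∃ P : MvPolynomial (Kp n d × Fin (eK K)) ℂ, P = MvPolynomial.aeval (fun c : Kp n d =>
    ∑ i, MvPolynomial.X (c, i) * MvPolynomial.C (em v (bas K i))) Φ := ⟨_, rfl⟩
  have heval : ∀ u : Kp n d × Fin (eK K) → ℝ,
      MvPolynomial.eval (fun t => (u t : ℂ)) P = MvPolynomial.aeval (av v u) Φ := by
    intro u
    rw [hP, MvPolynomial.map_aeval, MvPolynomial.aeval_def, ← MvPolynomial.coe_eval₂Hom]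
    have e : (fun c : Kp n d => MvPolynomial.eval (fun t => (u t : ℂ))
        (∑ i, MvPolynomial.X (c, i) * MvPolynomial.C (em v (bas K i)))) = av v u := by
      funext c
      rw [map_sum]
      unfold av tv
      refine Finset.sum_congr rfl fun i _ => ?_
      rw [map_mul, MvPolynomial.eval_X, MvPolynomial.eval_C]
    rw [e]
    exact RP_NullC_hom _ _ _ _
  have hne : P ≠ 0 := by
    have hpos : 0 < eK K := Module.finrank_pos
    obtain ⟨i1, -⟩ : ∃ i1 : Fin (eK K), i1 = ⟨0, hpos⟩ := ⟨_, rfl⟩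
    have hb : em v (bas K i1) ≠ 0 := by
      intro h
      refine (bas K).ne_zero i1 (RP_NullC_em v ?_)
      rw [h, map_zero]
    intro h0
    obtain ⟨s, hs⟩ : ∃ s : MvPolynomial (Kp n d × Fin (eK K)) ℂ →ₐ[ℂ] MvPolynomial (Kp n d) ℂ,
      s = MvPolynomial.aeval (fun p : Kp n d × Fin (eK K) =>
        if p.2 = i1 then MvPolynomial.C (em v (bas K i1))⁻¹ * MvPolynomial.X p.1 else 0) := ⟨_, rfl⟩
    have h1 : s P = MvPolynomial.map (Int.castRingHom ℂ) Φ := by
      have h2 : (s : MvPolynomial (Kp n d × Fin (eK K)) ℂ →+* MvPolynomial (Kp n d) ℂ) P =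
          MvPolynomial.map (Int.castRingHom ℂ) Φ := by
        rw [hP, MvPolynomial.map_aeval]
        have e : (fun c : Kp n d => (s : MvPolynomial (Kp n d × Fin (eK K)) ℂ →+* MvPolynomial (Kp n d) ℂ)
            (∑ i, MvPolynomial.X (c, i) * MvPolynomial.C (em v (bas K i)))) = MvPolynomial.X := by
          funext c
          rw [map_sum, Finset.sum_eq_single i1]
          · show s (MvPolynomial.X (c, i1) * MvPolynomial.C (em v (bas K i1))) = _
            rw [hs, map_mul, MvPolynomial.aeval_X, if_pos rfl, MvPolynomial.aeval_C]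
            show MvPolynomial.C (em v (bas K i1))⁻¹ * MvPolynomial.X c * MvPolynomial.C (em v (bas K i1)) = _
            rw [mul_right_comm, ← map_mul, inv_mul_cancel₀ hb, map_one, one_mul]
          · intro i _ hi
            show s (MvPolynomial.X (c, i) * MvPolynomial.C (em v (bas K i))) = _
            rw [hs, map_mul, MvPolynomial.aeval_X, if_neg hi, zero_mul]
          · intro h
            exact absurd (Finset.mem_univ _) h
        rw [e]
        exact RP_NullC_map _ Φ
      exact h2
    rw [h0, map_zero] at h1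
    exact hΦ (MvPolynomial.map_injective _ Int.cast_injective (by rw [← h1, map_zero]))
  have hset : {u : Kp n d × Fin (eK K) → ℝ | MvPolynomial.aeval (av v u) Φ = 0} =
      {u : Kp n d × Fin (eK K) → ℝ | MvPolynomial.eval (fun t => (u t : ℂ)) P = 0} := by
    ext u
    show _ = 0 ↔ _ = 0
    rw [heval]
  rw [hset]
  refine ⟨?_, nullC P hne⟩
  refine isClosed_eq ((MvPolynomial.continuous_eval P).comp ?_) continuous_const
  exact continuous_pi fun t => Complex.continuous_ofReal.comp (continuous_apply t)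

end Pool.Agent.Lib.MP_1ad228_ntN
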