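import Pool.Agent.Lib.MP_1ad228_ntN.RP_Loc

/-!
The pivot 0 at a nonsingular tuple.  (Compare `RP_Cpt_point` in Lib/MP_1ad228_ntF/RP_Cpt.lean.)

Scaling: for `x ≠ 0` put `c = 1 / (4 * ‖x‖)` (sup norm of `Vc n 𝕜`), `x' i = c * x i`: `‖x' l‖ ≤ 1/4`, `ev (pt ω0 k) x' = 0`, `x' i ≠ 0 ↔ x i ≠ 0`.
locMove.  If `x 0 ≠ 0` take `s = x`. Let `x 0 = 0`, and scale `x` so that all `‖x l‖ ≤ 1/4`. `elim0` with `ι = {j : Fin (n+1) // j ≠ 0}`, `J l j = dev (pt ω0 l) x j`: its hypothesis for `t` with `t l = 1` holds, because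
otherwise `(x, t)` shows `Sing0 (pt ω0)`. So there is `S' : Fin r → ι` with nonzero determinant; `S k = (S' k).1 ≠ 0`. Choose `o` with `x o ≠ 0`. `locRob` gives `ρ > 0`, `U ∋ ω0` and so
`RobF o S ρ (pt ω0)`; let `ξ` be its centre. Put `y = ξ` if `ξ 0 ≠ 0`, otherwise `y = Function.update ξ 0 (algebraMap ℝ 𝕜 ρ)` (`‖y l - ξ l‖ ≤ ρ`). `RobF` gives a zero `s` with `s 0 = y 0 ≠ 0` (`0 ≠ S k` for all `k`).
robPoint.  By locMove (`¬ Sing0`) there is a zero `s` with `s 0 ≠ 0`; scale it to `‖s l‖ ≤ 1/4`. `elim0` with `J l j = dev (pt ω0 l) s j` (`¬ Sing`) gives `S` with nonzero determinant, injective by `elim_inj`. `locRob` with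
`o = 0`.
-/

namespace Pool.Agent.Lib.MP_1ad228_ntN

open Classical

private theorem rpPoint_scale {𝕜 : Type} [RCLike 𝕜] (n : ℕ) {r : ℕ} (d : Fin r → ℕ)
    (ω0 : Kp n d → 𝕜) (x : Vc n 𝕜) (hx : x ≠ 0) (h0 : ∀ k, ev (pt ω0 k) x = 0) :
    ∃ c : 𝕜, c ≠ 0 ∧ (∀ l, ‖c * x l‖ ≤ 1 / 4) ∧ ∀ k, ev (pt ω0 k) (fun i => c * x i) = 0 := by
  have hn : 0 < ‖x‖ := norm_pos_iff.2 hx
  refine ⟨algebraMap ℝ 𝕜 (1 / (4 * ‖x‖)), ?_, fun l => ?_, fun k => ?_⟩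
  · intro h
    rw [map_eq_zero] at h
    have : (0 : ℝ) < 1 / (4 * ‖x‖) := by positivity
    linarith
  · rw [norm_mul, norm_algebraMap', Real.norm_eq_abs, abs_of_pos (by positivity)]
    have h1 := norm_le_pi_norm x l
    rw [one_div, inv_mul_le_iff₀ (by positivity)]
    linarith
  · rw [ev_scale, h0 k, mul_zero]

theorem locMove {𝕜 : Type} [RCLike 𝕜] (n : ℕ) {r : ℕ} (d : Fin r → ℕ) (ω0 : Kp n d → 𝕜)
    (hs : ¬ Sing0 (pt ω0 : Tup n d 𝕜)) (x : Vc n 𝕜) (hx : x ≠ 0)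
    (h0 : ∀ k, ev (pt ω0 k) x = 0) :
    ∃ s : Vc n 𝕜, s 0 ≠ 0 ∧ ∀ k, ev (pt ω0 k) s = 0 := by
  by_cases hx0 : x 0 = 0
  swap
  · exact ⟨x, hx0, h0⟩
  obtain ⟨c, hc, hb, hz⟩ := rpPoint_scale n d ω0 x hx h0
  obtain ⟨x', hx'⟩ : ∃ x' : Vc n 𝕜, x' = fun i => c * x i := ⟨_, rfl⟩
  rw [← hx'] at hz
  have hb' : ∀ l, ‖x' l‖ ≤ 1 / 4 := fun l => by rw [hx']; exact hb l
  have hx'0 : x' 0 = 0 := by
    rw [hx']
    show c * x 0 = 0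
    rw [hx0, mul_zero]
  obtain ⟨o, ho⟩ : ∃ o, x o ≠ 0 := by
    by_contra hcon
    push Not at hcon
    exact hx (funext hcon)
  have ho' : x' o ≠ 0 := by
    rw [hx']
    exact mul_ne_zero hc ho
  have hx'ne : x' ≠ 0 := by
    intro h
    rw [h] at ho'
    exact ho' rfl
  obtain ⟨S', hS'⟩ := elim0 (fun l (j : {j : Fin (n + 1) // j ≠ 0}) => dev (pt ω0 l) x' j.1) (by
    rintro t ⟨l, hl⟩
    by_contra hcon
    push Not at hcon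
    refine hs ⟨x', t, hx'ne, hx'0, ?_, hz, fun j hj => hcon ⟨j, hj⟩⟩
    rintro rfl
    exact zero_ne_one hl)
  obtain ⟨ρ, hρ, U, _, hU0, hR⟩ := locRob n d ω0 x' hb' hz (fun k => (S' k).1) o hS' ho'
  obtain ⟨ξ, hξ⟩ := hR ω0 hU0
  obtain ⟨y, hy, hy0⟩ : ∃ y : Vc n 𝕜, (∀ l, ‖y l - ξ l‖ ≤ ρ) ∧ y 0 ≠ 0 := by
    by_cases h : ξ 0 = 0
    · refine ⟨Function.update ξ 0 (algebraMap ℝ 𝕜 ρ), fun l => ?_, ?_⟩
      · by_cases hl : l = 0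
        · rw [hl, Function.update_self, h, sub_zero, norm_algebraMap', Real.norm_eq_abs,
            abs_of_pos hρ]
        · rw [Function.update_of_ne hl, sub_self, norm_zero]
          exact hρ.le
      · rw [Function.update_self]
        intro h2
        rw [map_eq_zero] at h2
        linarith
    · exact ⟨ξ, fun l => by rw [sub_self, norm_zero]; exact hρ.le, h⟩
  obtain ⟨s, h1, _, _, h4⟩ := hξ y hy
  refine ⟨s, ?_, h4⟩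
  rw [h1 0 fun k hk => (S' k).2 hk.symm]
  exact hy0

theorem robPoint {𝕜 : Type} [RCLike 𝕜] (n : ℕ) {r : ℕ} (d : Fin r → ℕ) (ω0 : Kp n d → 𝕜)
    (hs : ¬ Sing (pt ω0 : Tup n d 𝕜)) (hs0 : ¬ Sing0 (pt ω0 : Tup n d 𝕜)) (x : Vc n 𝕜)
    (hx : x ≠ 0) (h0 : ∀ k, ev (pt ω0 k) x = 0) :
    ∃ ρ : ℝ, 0 < ρ ∧ ∃ U : Set (Kp n d → 𝕜), IsOpen U ∧ ω0 ∈ U ∧
      ∃ S : Fin r → Fin (n + 1), Function.Injective S ∧ ∀ ω ∈ U, RobF 0 S ρ (pt ω) := by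
  obtain ⟨s, hs1, hs2⟩ := locMove n d ω0 hs0 x hx h0
  have hsne : s ≠ 0 := by
    intro h
    rw [h] at hs1
    exact hs1 rfl
  obtain ⟨c, hc, hb, hz⟩ := rpPoint_scale n d ω0 s hsne hs2
  obtain ⟨s', hs'⟩ : ∃ s' : Vc n 𝕜, s' = fun i => c * s i := ⟨_, rfl⟩
  rw [← hs'] at hz
  have hb' : ∀ l, ‖s' l‖ ≤ 1 / 4 := fun l => by rw [hs']; exact hb l
  have ho' : s' 0 ≠ 0 := by
    rw [hs']
    exact mul_ne_zero hc hs1
  have hs'ne : s' ≠ 0 := by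
    intro h
    rw [h] at ho'
    exact ho' rfl
  obtain ⟨S, hS⟩ := elim0 (fun l j => dev (pt ω0 l) s' j) (by
    rintro t ⟨l, hl⟩
    by_contra hcon
    push Not at hcon
    refine hs ⟨s', t, hs'ne, ?_, hz, hcon⟩
    rintro rfl
    exact zero_ne_one hl)
  obtain ⟨ρ, hρ, U, hU, hU0, hR⟩ := locRob n d ω0 s' hb' hz S 0 hS ho'
  exact ⟨ρ, hρ, U, hU, hU0, S, elim_inj _ S hS, hR⟩

end Pool.Agent.Lib.MP_1ad228_ntN
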