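import Pool.Agent.Lib.MP_1ad228_ntN.Psi
import Pool.Agent.Lib.MP_1ad228_ntN.Cover

/-!
JOB Slice.  The slices.  (Model with proof: Lib/MP_1ad228_ntF/Slice.lean)

PROOF.  `sl_nonneg`: `psi_nonneg`. `sl_le`: `psi_le_one` and `cover2` with `M = 2`, `X = A`.
`sl_close`: `sl d A x y m m'` is also the sum of `psi A a` over the `a` with values `(m, m')` in any larger
finite set, because `psi` vanishes outside `Box K n d (2*A)` (`psi_zero`). Substituting `a = b + a0` (`ev_add`), the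
sum of `sl d A x y m m'` becomes the sum of `psi A (b + a0)` over `b ∈ Box K n d (3*A)` with values `(0, 0)`: if
`psi A (b + a0) ≠ 0` then `tn (b + a0) ≤ 2A`, so `tn b ≤ 2A + tn a0 ≤ 3A`. And `sl d A x y 0 0` is the sum of
`psi A b` over the same set. Each term differs by at most `tn a0/(2A)` (`psi_lip`), and the number of `b` is at
most `C * n2 d x y A` (`cover2` with `M = 3`).  One constant `C` for `sl_le` and `sl_close` (the maximum or the sum).
-/

namespace Pool.Agent.Lib.MP_1ad228_ntN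

open NumberField Classical
open Pool.Agent.Lib.MP_219881_nt (mn)

set_option linter.unusedSectionVars false

variable {K : Type} [Field K] [NumberField K]

theorem sl_nonneg {n : ℕ} (d A : ℕ) (x y : Vc n (𝓞 K)) (m m' : 𝓞 K) : 0 ≤ sl d A x y m m' :=
  Finset.sum_nonneg fun a _ => psi_nonneg A a

private theorem sl_shift {n : ℕ} (d A : ℕ) (hA : 1 ≤ A) (x y : Vc n (𝓞 K)) (a0 : Ten n d (𝓞 K)) (h0 : tn a0 ≤ A) :
    sl d A x y (ev a0 x) (ev a0 y) =
      ∑ b ∈ (Box K n d (3 * A)).filter (fun b => ev b x = 0 ∧ ev b y = 0), psi A (b + a0) := by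
  have e1 : ∑ b ∈ (Box K n d (3 * A)).filter (fun b => ev b x = 0 ∧ ev b y = 0), psi A (b + a0) =
      ∑ b ∈ ((Box K n d (3 * A)).filter (fun b => ev b x = 0 ∧ ev b y = 0)).filter (fun b => b + a0 ∈ Box K n d (2 * A)),
      psi A (b + a0) := by
    symm
    refine Finset.sum_subset (Finset.filter_subset _ _) ?_
    intro b hb hnb
    apply psi_zero hA
    intro h
    exact hnb (Finset.mem_filter.mpr ⟨hb, h⟩)
  rw [e1]
  unfold sl
  refine Finset.sum_bij' (fun a _ => a - a0) (fun b _ => b + a0) ?_ ?_ ?_ ?_ ?_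
  · intro a ha
    rw [Finset.mem_filter] at ha
    obtain ⟨ha1, ha2, ha3⟩ := ha
    have htn : tn (a - a0) ≤ 3 * A := by
      rw [mem_Box_iff_tn] at ha1
      have := tn_add a (-a0)
      rw [tn_neg, ← sub_eq_add_neg] at this
      linarith
    refine Finset.mem_filter.mpr ⟨?_, ?_⟩
    · refine Finset.mem_filter.mpr ⟨mem_Box_iff_tn.mpr htn, ?_, ?_⟩
      · rw [ev_sub, ha2, sub_self]
      · rw [ev_sub, ha3, sub_self]
    · rw [sub_add_cancel]; exact ha1
  · intro b hb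
    rw [Finset.mem_filter] at hb
    obtain ⟨hb1, hb2⟩ := hb
    rw [Finset.mem_filter] at hb1
    refine Finset.mem_filter.mpr ⟨hb2, ?_, ?_⟩
    · rw [ev_add, hb1.2.1, zero_add]
    · rw [ev_add, hb1.2.2, zero_add]
  · intro a _
    exact sub_add_cancel a a0
  · intro b _
    exact add_sub_cancel_right b a0
  · intro a _
    rw [sub_add_cancel]

private theorem sl_zero {n : ℕ} (d A : ℕ) (hA : 1 ≤ A) (x y : Vc n (𝓞 K)) :
    sl d A x y 0 0 = ∑ b ∈ (Box K n d (3 * A)).filter (fun b => ev b x = 0 ∧ ev b y = 0), psi A b := by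
  unfold sl
  have hA0 : (0 : ℝ) ≤ A := Nat.cast_nonneg A
  refine Finset.sum_subset ?_ ?_
  · intro a ha
    rw [Finset.mem_filter] at ha
    refine Finset.mem_filter.mpr ⟨?_, ha.2⟩
    rw [mem_Box_iff_tn] at ha ⊢
    linarith [ha.1]
  · intro b hb hnb
    apply psi_zero hA
    intro h
    exact hnb (Finset.mem_filter.mpr ⟨h, (Finset.mem_filter.mp hb).2⟩)

variable (K) in
theorem slice (n d : ℕ) : ∃ C : ℝ, 1 ≤ C ∧
    (∀ (A : ℕ), 1 ≤ A → ∀ (x y : Vc n (𝓞 K)) (m m' : 𝓞 K),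
      sl d A x y m m' ≤ C * (n2 d x y A : ℝ)) ∧
    (∀ (A : ℕ), 1 ≤ A → ∀ (x y : Vc n (𝓞 K)) (a0 : Ten n d (𝓞 K)), tn a0 ≤ A →
      |sl d A x y (ev a0 x) (ev a0 y) - sl d A x y 0 0| ≤
        tn a0 / (2 * A) * (C * (n2 d x y A : ℝ))) := by
  obtain ⟨C2, hC2, h2⟩ := cover2 (K := K) n d 2 (by norm_num)
  obtain ⟨C3, hC3, h3⟩ := cover2 (K := K) n d 3 (by norm_num)
  refine ⟨max C2 C3, le_max_of_le_left hC2, ?_, ?_⟩
  · intro A hA x y m m'
    have hA' : (1 : ℝ) ≤ (A : ℝ) := by exact_mod_cast hA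
    have h1 : sl d A x y m m' ≤
        ∑ _a ∈ (Box K n d (2 * A)).filter (fun a => ev a x = m ∧ ev a y = m'), (1 : ℝ) :=
      Finset.sum_le_sum fun a _ => psi_le_one A a
    refine h1.trans ?_
    rw [Finset.sum_const, nsmul_eq_mul, mul_one]
    refine (h2 x y m m' A hA').trans ?_
    exact mul_le_mul_of_nonneg_right (le_max_left _ _) (Nat.cast_nonneg _)
  · intro A hA x y a0 h0
    have hA' : (1 : ℝ) ≤ (A : ℝ) := by exact_mod_cast hA
    have htn := tn_nonneg a0
    rw [sl_shift d A hA x y a0 h0, sl_zero d A hA x y, ← Finset.sum_sub_distrib]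
    have h4 := (h3 x y 0 0 A hA').trans
      (mul_le_mul_of_nonneg_right (le_max_right C2 C3) (Nat.cast_nonneg (n2 d x y (A : ℝ))))
    calc |∑ b ∈ (Box K n d (3 * A)).filter (fun b => ev b x = 0 ∧ ev b y = 0), (psi A (b + a0) - psi A b)|
        ≤ ∑ b ∈ (Box K n d (3 * A)).filter (fun b => ev b x = 0 ∧ ev b y = 0), |psi A (b + a0) - psi A b| :=
          Finset.abs_sum_le_sum_abs _ _
      _ ≤ ∑ _b ∈ (Box K n d (3 * A)).filter (fun b => ev b x = 0 ∧ ev b y = 0), tn a0 / (2 * A) :=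
          Finset.sum_le_sum fun b _ => psi_lip hA b a0
      _ = tn a0 / (2 * A) * ((Box K n d (3 * A)).filter (fun b => ev b x = 0 ∧ ev b y = 0)).card := by
          rw [Finset.sum_const, nsmul_eq_mul, mul_comm]
      _ ≤ _ := mul_le_mul_of_nonneg_left h4 (by positivity)

end Pool.Agent.Lib.MP_1ad228_ntN
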