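import Pool.Agent.Lib.MP_1ad228_ntN.GGf
import Pool.Agent.Lib.MP_1ad228_ntF.Tp

/-!
Product tensors and spans over the number field; the orthogonal complement of a vector.
-/

namespace Pool.Agent.Lib.MP_1ad228_ntN

export Pool.Agent.Lib.MP_1ad228_ntF (ten_sum tp_sum tp_smul)

open NumberField Classical

set_option linter.unusedSectionVars false

section F
variable {F : Type*} [Field F]

private theorem tpm_entry {n d : ℕ} (u : Fin d → Vc n F) (k : Fin d) (v : Vc n F)
    (s : Fin d → Fin (n + 1)) :
    tp (Function.update u k v) s = v (s k) * ∏ l ∈ Finset.univ.erase k, u l (s l) := by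
  unfold tp
  rw [← Finset.mul_prod_erase Finset.univ _ (Finset.mem_univ k), Function.update_self]
  congr 1
  refine Finset.prod_congr rfl fun l hl => ?_
  rw [Function.update_of_ne (Finset.ne_of_mem_erase hl)]

private noncomputable def tpm_L {n d : ℕ} (u : Fin d → Vc n F) (k : Fin d) :
    Vc n F →ₗ[F] Ten n d F where
  toFun v := tp (Function.update u k v)
  map_add' a b := by
    funext s
    rw [Pi.add_apply, tpm_entry, tpm_entry, tpm_entry, Pi.add_apply]
    ring
  map_smul' r a := by
    funext s
    rw [Pi.smul_apply, tpm_entry, tpm_entry, Pi.smul_apply, smul_eq_mul, smul_eq_mul, RingHom.id_apply]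
    ring

theorem tp_mem {n d : ℕ} (S : Submodule F (Ten n d F)) (A : Fin d → Set (Vc n F))
    (h : ∀ a : Fin d → Vc n F, (∀ k, a k ∈ A k) → tp a ∈ S) (u : Fin d → Vc n F)
    (hu : ∀ k, u k ∈ Submodule.span F (A k)) : tp u ∈ S := by
  have key : ∀ T : Finset (Fin d), ∀ u : Fin d → Vc n F,
      (∀ k ∈ T, u k ∈ Submodule.span F (A k)) → (∀ k, k ∉ T → u k ∈ A k) → tp u ∈ S := by
    intro T
    induction T using Finset.induction_on with
    | empty =>
      intro u _ h2
      exact h u fun k => h2 k (Finset.notMem_empty k)
    | insert k T hk ih =>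
      intro u h1 h2
      have h3 : Submodule.span F (A k) ≤ S.comap (tpm_L u k) := by
        refine Submodule.span_le.2 fun a ha => ?_
        show tp (Function.update u k a) ∈ S
        refine ih _ ?_ ?_
        · intro l hl
          have hne : l ≠ k := fun he => hk (he ▸ hl)
          rw [Function.update_of_ne hne]
          exact h1 l (Finset.mem_insert_of_mem hl)
        · intro l hl
          by_cases hne : l = k
          · rw [hne, Function.update_self]
            exact ha
          · rw [Function.update_of_ne hne]
            exact h2 l fun h5 => (Finset.mem_insert.1 h5).elim hne hl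
      have h4 : tp (Function.update u k (u k)) ∈ S := h3 (h1 k (Finset.mem_insert_self k T))
      rwa [Function.update_eq_self] at h4
  exact key Finset.univ u (fun k _ => hu k) fun k hk => absurd (Finset.mem_univ k) hk

theorem top_mem {n : ℕ} (v : Vc n F) :
    v ∈ Submodule.span F (Set.range fun j : Fin (n + 1) => (Pi.single j 1 : Vc n F)) := by
  have h := (Pi.basisFun F (Fin (n + 1))).span_eq
  have h2 : (Set.range fun j : Fin (n + 1) => (Pi.single j 1 : Vc n F)) =
      Set.range (Pi.basisFun F (Fin (n + 1))) := by
    congr 1
    funext j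
    rw [Pi.basisFun_apply]
  rw [h2, h]
  trivial

/-- The linear functional `u ↦ lin u y`. -/
private noncomputable def perpFun {n : ℕ} (y : Vc n F) : Vc n F →ₗ[F] F where
  toFun u := lin u y
  map_add' u v := lin_add u v y
  map_smul' c u := by
    rw [lin_smul]
    rfl

/-- `n` independent vectors orthogonal to a nonzero vector span its orthogonal complement. -/
theorem perpSpanF {n : ℕ} (x : Vc n F) (hx : x ≠ 0) (f : Fin n → Vc n F)
    (hf : LinearIndependent F f) (h0 : ∀ s, lin (f s) x = 0) (u : Vc n F)
    (hu : lin u x = 0) : u ∈ Submodule.span F (Set.range f) := by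
  have hker : ∀ s, f s ∈ LinearMap.ker (perpFun x) := by
    intro s
    rw [LinearMap.mem_ker]
    exact h0 s
  have hne : perpFun x ≠ 0 := by
    intro h
    apply hx
    funext i
    have h4 : perpFun x (Pi.single i 1) = 0 := by rw [h]; rfl
    change lin (Pi.single i 1) x = 0 at h4
    rw [lin_single] at h4
    exact h4
  have hrange : Module.finrank F (LinearMap.range (perpFun x)) = 1 := by
    have : LinearMap.range (perpFun x) = ⊤ :=
      LinearMap.range_eq_top.mpr (LinearMap.surjective hne)
    rw [this]
    simp
  have hdim : Module.finrank F (LinearMap.ker (perpFun x)) = n := by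
    have := LinearMap.finrank_range_add_finrank_ker (perpFun x)
    rw [hrange] at this
    simp at this
    omega
  have hle : Submodule.span F (Set.range f) ≤ LinearMap.ker (perpFun x) := by
    rw [Submodule.span_le]
    rintro _ ⟨s, rfl⟩
    exact hker s
  have heq : Submodule.span F (Set.range f) = LinearMap.ker (perpFun x) := by
    apply Submodule.eq_of_le_of_finrank_eq hle
    rw [hdim, finrank_span_eq_card hf]
    simp
  rw [heq, LinearMap.mem_ker]
  exact hu

end F

section K
variable {K : Type} [Field K] [NumberField K]

/-- The cast as a linear map. -/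
private noncomputable def kvL (n : ℕ) : Vc n (𝓞 K) →ₗ[𝓞 K] Vc n K where
  toFun x := kv x
  map_add' x y := by
    funext i
    simp [kv_apply]
  map_smul' c x := by
    funext i
    simp [kv_apply, Algebra.smul_def]

theorem linInd_kv {n : ℕ} {ι : Type*} (f : ι → Vc n (𝓞 K)) (hf : LinearIndependent (𝓞 K) f) :
    LinearIndependent K (fun s => kv (f s)) := by
  have hinj : LinearMap.ker (kvL (K := K) n) = ⊥ := by
    rw [LinearMap.ker_eq_bot]
    intro a b hab
    funext i
    have := congrFun hab i
    exact RingOfIntegers.ext this
  have h1 : LinearIndependent (𝓞 K) (kvL n ∘ f) := hf.map' (kvL n) hinj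
  exact (LinearIndependent.iff_fractionRing (𝓞 K) K).mp h1

theorem perp_mem {n : ℕ} (x : Vc n (𝓞 K)) (hx : x ≠ 0) (f : Fin n → Vc n (𝓞 K))
    (hf : LinearIndependent (𝓞 K) f) (h0 : ∀ s, lin (f s) x = 0) {u : Vc n K}
    (hu : lin u (kv x) = 0) :
    u ∈ Submodule.span K (Set.range fun s : Fin n => kv (f s)) := by
  refine perpSpanF (kv x) (fun h => hx ?_) _ (linInd_kv f hf) (fun s => ?_) u hu
  · funext i
    have := congrFun h i
    rw [kv_apply] at this
    exact RingOfIntegers.ext this
  · rw [lin_kv, h0 s]
    simp

end K

end Pool.Agent.Lib.MP_1ad228_ntN
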